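import Mathlib

/-!
# One-pass streaming approximation of Euclidean TSP below factor 2 (MP_2b2c79_lc, S09979)

Definitions (helper660).  See the table `h660_tasks`.
-/

set_option autoImplicit false

open scoped Classical

namespace Pool.Agent.H660R3.TS

/-! ## 1. Points, distances, tours -/

abbrev Pt := ℕ × ℕ

/-- Euclidean distance of two grid points -/
noncomputable def ds (p q : Pt) : ℝ :=
  Real.sqrt (((p.1 : ℝ) - (q.1 : ℝ)) ^ 2 + ((p.2 : ℝ) - (q.2 : ℝ)) ^ 2)

/-- the point as a complex number; `ds p q = ‖pt p - pt q‖` -/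
noncomputable def pt (p : Pt) : ℂ := ⟨(p.1 : ℝ), (p.2 : ℝ)⟩

/-- length of the closed tour given by a list (exactly the expression of the frozen statement) -/
noncomputable def tourLen (l : List Pt) : ℝ :=
  ∑ i : Fin l.length,
    Real.sqrt ((((l.get i).1 : ℝ) - ((l.getD ((i.val + 1) % l.length) (0, 0)).1 : ℝ)) ^ 2
      + (((l.get i).2 : ℝ) - ((l.getD ((i.val + 1) % l.length) (0, 0)).2 : ℝ)) ^ 2)

/-- scaling by `M` and translation by `s` -/
def sh (M : ℕ) (s : Pt) (p : Pt) : Pt := (M * p.1 + s.1, M * p.2 + s.2)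

/-- rounding to the lower left corner of the grid cell of side `g` -/
def rd (g : ℕ) (x : Pt) : Pt := (x.1 / g * g, x.2 / g * g)

/-- index of the grid box of side `D` containing `x` -/
def bx (D : ℕ) (x : Pt) : Pt := (x.1 / D, x.2 / D)

/-! ## 2. The minimum spanning tree (Kruskal with lexicographic tie breaking) -/

def sqd (p q : Pt) : ℕ := ((p.1 : ℤ) - q.1).natAbs ^ 2 + ((p.2 : ℤ) - q.2).natAbs ^ 2

def ky (p q : Pt) : ℕ ×ₗ ((ℕ ×ₗ ℕ) ×ₗ (ℕ ×ₗ ℕ)) :=
  toLex (sqd p q, toLex (min (toLex p) (toLex q), max (toLex p) (toLex q)))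

/-- connected inside `A` by pairs strictly smaller than the pair `p q` -/
def Low (A : Finset Pt) (p q : Pt) : Pt → Pt → Prop :=
  Relation.ReflTransGen (fun x y => x ∈ A ∧ y ∈ A ∧ ky x y < ky p q)

/-- minimum spanning tree of a finite set, each edge once, in the orientation `e.1 < e.2` -/
noncomputable def mst (A : Finset Pt) : Finset (Pt × Pt) :=
  (A ×ˢ A).filter (fun e => toLex e.1 < toLex e.2 ∧ ¬ Low A e.1 e.2 e.1 e.2)

def TAdj (A : Finset Pt) (x y : Pt) : Prop := (x, y) ∈ mst A ∨ (y, x) ∈ mst A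

/-- weight of the minimum spanning tree -/
noncomputable def mstW (A : Finset Pt) : ℝ := ∑ e ∈ mst A, ds e.1 e.2

/-! ## 3. Rooted trees -/

structure RTree (V : Type) where
  root : V
  par : V → V
  rk : V → ℕ
  par_root : par root = root
  rk_lt : ∀ v, v ≠ root → rk (par v) < rk v

namespace RTree

variable {V : Type} (T : RTree V)

/-- `x` lies in the subtree hanging at `v` -/
def InSub (x v : V) : Prop := ∃ n : ℕ, T.par^[n] x = v

/-- the edges of the tree: `v` stands for the edge from `v` to `par v` -/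
noncomputable def edges [Fintype V] : Finset V := Finset.univ.filter (fun v => v ≠ T.root)

/-- the edges of the tree path from `u` to `v` -/
noncomputable def pth [Fintype V] (u v : V) : Finset V :=
  Finset.univ.filter (fun e => e ≠ T.root ∧ ¬ (T.InSub u e ↔ T.InSub v e))

end RTree

/-- `y` is a cut packing of the embedded tree: `y(path) ≤` distance; all edges have length `≥ Mn` -/
structure Tight {V : Type} [Fintype V] (T : RTree V) (loc : V → ℂ) (y : V → ℝ) (Mn : ℝ) : Prop where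
  nonneg : ∀ v, 0 ≤ y v
  le : ∀ v, v ≠ T.root → y v ≤ ‖loc v - loc (T.par v)‖
  path : ∀ u v, ∑ e ∈ T.pth u v, y e ≤ ‖loc u - loc v‖
  long : ∀ v, v ≠ T.root → Mn ≤ ‖loc v - loc (T.par v)‖

/-! ## 4. Strands (the long paths of the tree, seen from their tip) -/

/-- A strand: vertices `z 0, ..., z n` (tip first), arc length positions `t`, the strand part `ys` of the
cut packing, for every vertex `x` of the tree its attachment index `att x` (`n` = not below `z (n-1)`),
its distance bound `wd x` from the attachment vertex, the depth `H j` of the side branches at `z j` and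
the deficit `bet j` of the side paths attached at `z j`. -/
structure Strand {V : Type} (loc : V → ℂ) (Mn : ℝ) where
  n : ℕ
  z : ℕ → V
  t : ℕ → ℝ
  ys : ℕ → ℝ
  att : V → ℕ
  wd : V → ℝ
  H : ℕ → ℝ
  bet : ℕ → ℝ
  n_pos : 0 < n
  t_zero : t 0 = 0
  t_succ : ∀ j < n, t (j + 1) = t j + ‖loc (z (j + 1)) - loc (z j)‖
  edge_long : ∀ j < n, Mn ≤ ‖loc (z (j + 1)) - loc (z j)‖
  ys_nonneg : ∀ j < n, 0 ≤ ys j
  ys_le : ∀ j < n, ys j ≤ ‖loc (z (j + 1)) - loc (z j)‖
  att_z : ∀ j ≤ n, att (z j) = j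
  att_le : ∀ x, att x ≤ n
  wd_nonneg : ∀ x, 0 ≤ wd x
  wd_dist : ∀ x, att x < n → ‖loc x - loc (z (att x))‖ ≤ wd x
  wd_le : ∀ x, att x < n → wd x ≤ H (att x)
  /-- the cut packing inequality, strand part only -/
  ypath : ∀ x x', att x ≤ att x' → ∑ j ∈ Finset.Ico (att x) (att x'), ys j ≤ ‖loc x - loc x'‖
  /-- the tip of a deepest side path at `z j` -/
  side : ∀ j < n, 0 < H j → ∃ x, att x = j ∧ ‖loc x - loc (z j)‖ ≤ H j ∧
    (∀ a ≤ n, a ≤ j → H j - bet j + ∑ i ∈ Finset.Ico a j, ys i ≤ ‖loc x - loc (z a)‖) ∧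
    (∀ a ≤ n, j ≤ a → H j - bet j + ∑ i ∈ Finset.Ico j a, ys i ≤ ‖loc x - loc (z a)‖)
  H_le : ∀ j < n, H j ≤ t j
  H_nonneg : ∀ j < n, 0 ≤ H j
  H_long : ∀ j < n, 0 < H j → Mn ≤ H j
  bet_nonneg : ∀ j < n, 0 ≤ bet j

namespace Strand

variable {V : Type} {loc : V → ℂ} {Mn : ℝ} (S : Strand loc Mn)

/-- length of edge `j` -/
noncomputable def len (j : ℕ) : ℝ := ‖loc (S.z (j + 1)) - loc (S.z j)‖

/-- distance of `z j` from the tip -/
noncomputable def f (j : ℕ) : ℝ := ‖loc (S.z j) - loc (S.z 0)‖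

/-- deficit of edge `j` -/
noncomputable def bs (j : ℕ) : ℝ := S.len j - S.ys j

/-- radial deficit of edge `j` -/
noncomputable def dg (j : ℕ) : ℝ := S.len j - (S.f (j + 1) - S.f j)

/-- the deficit measure of the window `[A, B]` -/
noncomputable def mu (A B : ℝ) : ℝ :=
  ∑ j ∈ Finset.range S.n,
    ((S.bs j + S.dg j) * ((if A ≤ S.t j ∧ S.t j ≤ B then 1 else 0)
        + (if A ≤ S.t (j + 1) ∧ S.t (j + 1) ≤ B then 1 else 0))
      + S.bet j * (if A ≤ S.t j ∧ S.t j ≤ B then 1 else 0))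

/-- total deficit measure -/
noncomputable def muTot : ℝ :=
  ∑ j ∈ Finset.range S.n, (2 * (S.bs j + S.dg j) + S.bet j)

/-- `τ` is a good location: every window of length at least `G` containing it has small deficit -/
def Good (lam G τ : ℝ) : Prop :=
  ∀ A B : ℝ, A ≤ τ → τ ≤ B → G ≤ B - A → S.mu A B ≤ lam * (B - A)

/-- overflow index: `j = n`, or the side branches at `z j` are deeper than the rest of the strand -/
def Ovf (j : ℕ) : Prop := j = S.n ∨ (j < S.n ∧ S.t S.n - S.t j < S.H j)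

/-- the first overflow index -/
noncomputable def jo : ℕ := sInf {j | S.Ovf j}

/-- position of the first overflow vertex -/
noncomputable def tov : ℝ := S.t S.jo

/-- the point of edge `i` at arc length position `τ` -/
noncomputable def X (i : ℕ) (τ : ℝ) : ℂ :=
  loc (S.z i) + (((τ - S.t i) / S.len i : ℝ) : ℂ) * (loc (S.z (i + 1)) - loc (S.z i))

/-- `τ` is not too close to an endpoint of a long edge -/
def Clear (del τ : ℝ) : Prop :=
  ∀ j < S.n, del * S.len j < |τ - S.t j| ∧ del * S.len j < |τ - S.t (j + 1)|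

/-- deterministic goodness of a location `τ` on edge `i` -/
structure Fine (lam G del : ℝ) (i : ℕ) (τ : ℝ) : Prop where
  hi : i < S.n
  lo : S.t i ≤ τ
  up : τ < S.t (i + 1)
  good : S.Good lam G τ
  early : τ < (1 - 2 * lam) * S.tov
  clear : S.Clear del τ

end Strand

/-! ## 5. The local rules of the algorithm -/

/-- side of the grid boxes of level `m` -/
def DD (β N u m : ℕ) : ℕ := β ^ (N * m + u)

/-- hop reachability outside the ball `S = {q ∈ Q : ds q c ≤ a σ}` with hops at most `ℓ` -/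
def Reach (σ : ℕ) (Q : Finset Pt) (c : Pt) (a : ℕ) (ℓ : ℝ) : Pt → Pt → Prop :=
  Relation.ReflTransGen (fun x y => y ∈ Q ∧ (a : ℝ) * σ < ds y c ∧ ds x y ≤ ℓ)

/-- The bottleneck rule: two cells outside the ball, both at distance at most `ℓ` from the ball
(`ℓ β^3 ≤ D`), are connected outside the ball by hops of length at most `ℓ + 40 σ`. -/
def RuleE (β D σ : ℕ) (Q : Finset Pt) (c : Pt) (a : ℕ) : Prop :=
  ∀ q ∈ Q, ∀ q' ∈ Q, (a : ℝ) * σ < ds q c → (a : ℝ) * σ < ds q' c → ∀ ℓ : ℝ,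
    (∃ s ∈ Q, ds s c ≤ (a : ℝ) * σ ∧ ds q s ≤ ℓ) →
    (∃ s ∈ Q, ds s c ≤ (a : ℝ) * σ ∧ ds q' s ≤ ℓ) →
    ℓ * (β : ℝ) ^ 3 ≤ (D : ℝ) → Reach σ Q c a (ℓ + 40 * σ) q q'

/-- `c` is at distance at least `D/β` from the boundary of the box `Z` of side `D` -/
def Inner (β D : ℕ) (Z c : Pt) : Prop :=
  β * (Z.1 * D) + D ≤ β * c.1 ∧ β * c.1 + D ≤ β * ((Z.1 + 1) * D) ∧
  β * (Z.2 * D) + D ≤ β * c.2 ∧ β * c.2 + D ≤ β * ((Z.2 + 1) * D)

/-- candidates of a box `Z` of side `D` with rounded content `Q` (cells of side `σ`); `D1` is the side of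
the boxes of the level below; the candidate annulus is `{x : a σ ≤ |x - c| < (a+1) σ}`. -/
def Cand (β D1 D σ : ℕ) (Q : Finset Pt) (Z c : Pt) (a : ℕ) : Prop :=
  c ∈ Q ∧ Inner β D Z c ∧ β * D1 ≤ a * σ ∧ (a + 1) * σ * β ^ 10 ≤ D ∧
    (∃ q ∈ Q, ((a : ℝ) + 4) * σ ≤ ds q c) ∧ RuleE β D σ Q c a

/-- the annulus `{x : ρ ≤ |x - c| < ρ + 1}` is hit by the ball of radius `r` around `c'` -/
def Hits (c : Pt) (ρ : ℕ) (c' : Pt) (r : ℝ) : Prop :=
  ¬ (ds c c' + r ≤ ρ ∨ (ρ : ℝ) + 1 + r ≤ ds c c')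

/-- sufficient condition for disjointness of the annuli `(c,a)`, `(c',a')` of width `σ` -/
def Adisj (σ : ℕ) (x x' : Pt × ℕ) : Prop :=
  (x.1 = x'.1 ∧ x.2 ≠ x'.2) ∨ ((x.2 : ℝ) + x'.2 + 2) * σ ≤ ds x.1 x'.1 ∨
  ds x.1 x'.1 + ((x'.2 : ℝ) + 1) * σ ≤ (x.2 : ℝ) * σ ∨
  ds x.1 x'.1 + ((x.2 : ℝ) + 1) * σ ≤ (x'.2 : ℝ) * σ

/-- rounded content of the box `Z` of side `D` -/
def Qc (D σ : ℕ) (X : Finset Pt) (Z : Pt) : Finset Pt := (X.filter (fun x => bx D x = Z)).image (rd σ)

section Levels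

variable (β N u : ℕ)

/-- candidates of level `m` -/
def CandX (m : ℕ) (X : Finset Pt) (Z c : Pt) (a : ℕ) : Prop :=
  Cand β (DD β N u (m - 1)) (DD β N u m) (DD β N u (m - 2))
    (Qc (DD β N u m) (DD β N u (m - 2)) X Z) Z c a

/-- the unit annulus `(c, ρ)` of level `m` is not hit by any candidate ball of a lower level -/
def Unhit (m : ℕ) (X : Finset Pt) (c : Pt) (ρ : ℕ) : Prop :=
  ∀ m', 3 ≤ m' → m' < m → ∀ Z' c' a', CandX β N u m' X Z' c' a' →
    ¬ Hits c ρ c' (((a' : ℝ) + 1) * DD β N u (m' - 2))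

/-- maximum of `∑ g` over pairwise disjoint families of members of `C` -/
noncomputable def maxFam (σ : ℕ) (C : Finset (Pt × ℕ)) (g : Pt × ℕ → ℝ) : ℝ :=
  (C.powerset.filter (fun F : Finset (Pt × ℕ) => ∀ x ∈ F, ∀ y ∈ F, x ≠ y → Adisj σ x y)).sup'
    ⟨∅, by simp⟩ (fun F => ∑ x ∈ F, g x)

/-- the finite set of candidates of level `m` in the box `Z` -/
noncomputable def cands (m : ℕ) (Q : Finset Pt) (Z : Pt) : Finset (Pt × ℕ) :=
  (Q ×ˢ Finset.range (DD β N u m)).filter (fun x =>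
    Cand β (DD β N u (m - 1)) (DD β N u m) (DD β N u (m - 2)) Q Z x.1 x.2)

/-- number of unhit unit annuli inside the candidate annulus -/
noncomputable def uval (m : ℕ) (X : Finset Pt) (x : Pt × ℕ) : ℝ :=
  (((Finset.Ico (x.2 * DD β N u (m - 2)) ((x.2 + 1) * DD β N u (m - 2))).filter
    (fun ρ => Unhit β N u m X x.1 ρ)).card : ℝ)

/-- value of the box `Z` at level `m` -/
noncomputable def Vbox (m : ℕ) (X : Finset Pt) (Z : Pt) : ℝ :=
  maxFam (DD β N u (m - 2)) (cands β N u m (Qc (DD β N u m) (DD β N u (m - 2)) X Z) Z)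
    (uval β N u m X)

/-- the separation functional: `2 * Fstar ≤ TSP` always -/
noncomputable def Fstar (L : ℕ) (X : Finset Pt) : ℝ :=
  ∑ m ∈ Finset.Icc 3 L, ∑ Z ∈ X.image (bx (DD β N u m)), Vbox β N u m X Z

/-- thresholds for the weight estimate: `lm m = D_m / β^5` -/
noncomputable def lm (m : ℕ) : ℝ := (DD β N u m : ℝ) / (β : ℝ) ^ 5

/-- the part of an edge length `x` between the thresholds of level `m - 1` and `m` -/
noncomputable def phi (m : ℕ) (x : ℝ) : ℝ :=
  min (max (x - lm β N u (m - 1)) 0) (lm β N u m - lm β N u (m - 1))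

/-- weight contribution of a box with rounded content `Q` -/
noncomputable def wbox (m : ℕ) (Q : Finset Pt) : ℝ := ∑ e ∈ mst Q, phi β N u m (ds e.1 e.2)

/-- the weight functional computed from the boxes -/
noncomputable def Wstar (L : ℕ) (X : Finset Pt) : ℝ :=
  ∑ m ∈ Finset.Icc 3 L, ∑ Z ∈ X.image (bx (DD β N u m)),
    wbox β N u m (Qc (DD β N u m) (DD β N u (m - 2)) X Z)

end Levels

/-! ## 6. Sketches and the estimators -/

/-- the set of keys of the points of `X`, provided there are at most `cap` of them -/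
noncomputable def skt (κ : Pt → Option Pt) (cap : ℕ) (X : Finset Pt) : Option (Finset Pt) :=
  if (X.image κ).eraseNone.card ≤ cap then some (X.image κ).eraseNone else none

/-- random choices: `h m Z` selects the boxes, `r m Z e a i` the random radii -/
structure Rnd where
  h : ℕ → Pt → ℕ
  r : ℕ → Pt → Pt → ℕ → ℕ → ℕ

/-- the closed box `Z'` of side `D'` meets the closed unit annulus `(c, ρ)` -/
def Meets (D' : ℕ) (Z' c : Pt) (ρ : ℕ) : Prop :=
  ∃ p : ℂ, (Z'.1 : ℝ) * D' ≤ p.re ∧ p.re ≤ ((Z'.1 : ℝ) + 1) * D' ∧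
    (Z'.2 : ℝ) * D' ≤ p.im ∧ p.im ≤ ((Z'.2 : ℝ) + 1) * D' ∧
    (ρ : ℝ) ≤ ‖p - pt c‖ ∧ ‖p - pt c‖ ≤ (ρ : ℝ) + 1

section Sketch

variable (β N u J R cap1 cap2 : ℕ) (ω : Rnd)

/-- box `Z` of level `m` is sampled at rate `2^{-j}` -/
def Sel (m j : ℕ) (Z : Pt) : Prop := ω.h m Z * 2 ^ j < 2 ^ J

/-- the `e`-th cell corner of the box `Z` of level `m` -/
def ctr (m : ℕ) (Z e : Pt) : Pt :=
  (Z.1 * DD β N u m + e.1 * DD β N u (m - 2), Z.2 * DD β N u m + e.2 * DD β N u (m - 2))

/-- the `i`-th random radius for the annulus `a` around the cell corner `e` of `Z` -/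
def rad (m : ℕ) (Z e : Pt) (a i : ℕ) : ℕ :=
  a * DD β N u (m - 2) + ω.r m Z e a i % DD β N u (m - 2)

/-- key function for the contents of the sampled boxes -/
noncomputable def K1 (m j : ℕ) (x : Pt) : Option Pt :=
  if Sel J ω m j (bx (DD β N u m) x) then some (rd (DD β N u (m - 2)) x) else none

/-- key function for the level `m'` neighbourhood of a random circle of level `m` -/
noncomputable def K2 (m j : ℕ) (e : Pt) (a i m' : ℕ) (x : Pt) : Option Pt :=
  if Sel J ω m j (bx (DD β N u m) x) ∧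
      Meets (DD β N u m') (bx (DD β N u m') x) (ctr β N u m (bx (DD β N u m) x) e)
        (rad β N u ω m (bx (DD β N u m) x) e a i)
    then some (rd (DD β N u (m' - 2)) x) else none

/-- the tables of all sketches of a scaled point set -/
noncomputable def T1of (X : Finset Pt) (m j : ℕ) : Option (Finset Pt) :=
  skt (K1 β N u J ω m j) cap1 X

noncomputable def T2of (X : Finset Pt) (m j : ℕ) (e : Pt) (a i m' : ℕ) : Option (Finset Pt) :=
  skt (K2 β N u J ω m j e a i m') cap2 X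

variable (T1 : ℕ → ℕ → Option (Finset Pt)) (T2 : ℕ → ℕ → Pt → ℕ → ℕ → ℕ → Option (Finset Pt))

/-- the chosen sampling rate of level `m`: the first one without overflow -/
noncomputable def jst (m : ℕ) : ℕ := sInf {j | j = J ∨ (T1 m j).isSome}

/-- stored contents of level `m` -/
noncomputable def cont (m : ℕ) : Finset Pt := (T1 m (jst J T1 m)).getD ∅

/-- estimate of `Wstar` -/
noncomputable def West (L : ℕ) : ℝ :=
  ∑ m ∈ Finset.Icc 3 L, (2 : ℝ) ^ (jst J T1 m) * ∑ Z ∈ (cont J T1 m).image (bx (DD β N u m)),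
    wbox β N u m ((cont J T1 m).filter (fun x => bx (DD β N u m) x = Z))

/-- no candidate of level `m'` with stored content `S` hits the unit annulus `(c, ρ)` -/
def NoHit (m' : ℕ) (S : Finset Pt) (c : Pt) (ρ : ℕ) : Prop :=
  ∀ Z' c' a', Cand β (DD β N u (m' - 1)) (DD β N u m') (DD β N u (m' - 2))
      (S.filter (fun x => bx (DD β N u m') x = Z')) Z' c' a' →
    ¬ Hits c ρ c' (((a' : ℝ) + 1) * DD β N u (m' - 2))

/-- index of the cell corner `c` inside the box `Z` -/
def cidx (m : ℕ) (Z c : Pt) : Pt :=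
  ((c.1 - Z.1 * DD β N u m) / DD β N u (m - 2), (c.2 - Z.2 * DD β N u m) / DD β N u (m - 2))

/-- empirical version of `uval` -/
noncomputable def uhat (m : ℕ) (Z : Pt) (x : Pt × ℕ) : ℝ :=
  (DD β N u (m - 2) : ℝ) * (((Finset.range R).filter (fun i => ∀ m', 3 ≤ m' → m' < m →
      ∃ S, T2 m (jst J T1 m) (cidx β N u m Z x.1) x.2 i m' = some S ∧
        NoHit β N u m' (S.filter (fun y => bx (DD β N u m) y = Z)) x.1
          (rad β N u ω m Z (cidx β N u m Z x.1) x.2 i))).card : ℝ) / R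

/-- estimate of `Fstar` -/
noncomputable def Fest (L : ℕ) : ℝ :=
  ∑ m ∈ Finset.Icc 3 L, (2 : ℝ) ^ (jst J T1 m) * ∑ Z ∈ (cont J T1 m).image (bx (DD β N u m)),
    maxFam (DD β N u (m - 2))
      (cands β N u m ((cont J T1 m).filter (fun x => bx (DD β N u m) x = Z)) Z)
      (uhat β N u J R ω T1 T2 m Z)

end Sketch

end Pool.Agent.H660R3.TS
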