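import Pool.Agent.H660R3.TS.Stubs2

/-!
# Final assembly, part A: facts on the optimal tour (helper660)
-/

set_option autoImplicit false

open scoped Classical

namespace Pool.Agent.H660R3.TS

/-- the optimal tour length exactly as in the frozen statement -/
noncomputable def optT (l : List Pt) : ℝ :=
  sInf {x : ℝ | ∃ l' : List (ℕ × ℕ), l'.Perm l ∧
    x = ∑ i : Fin l'.length,
      Real.sqrt ((((l'.get i).1 : ℝ) - ((l'.getD ((i.val + 1) % l'.length) (0, 0)).1 : ℝ)) ^ 2
        + (((l'.get i).2 : ℝ) - ((l'.getD ((i.val + 1) % l'.length) (0, 0)).2 : ℝ)) ^ 2)}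

theorem tourLen_nonneg (l : List Pt) : 0 ≤ tourLen l :=
  Finset.sum_nonneg (fun _ _ => Real.sqrt_nonneg _)

theorem optT_le (l l' : List Pt) (h : l'.Perm l) : optT l ≤ tourLen l' := by
  unfold optT
  apply csInf_le
  · refine ⟨0, ?_⟩
    rintro x ⟨l'', -, rfl⟩
    exact tourLen_nonneg l''
  · exact ⟨l', h, rfl⟩

theorem le_optT (l : List Pt) (b : ℝ) (h : ∀ l' : List Pt, l'.Perm l → b ≤ tourLen l') :
    b ≤ optT l := by
  unfold optT
  apply le_csInf
  · exact ⟨_, l, List.Perm.refl l, rfl⟩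
  · rintro x ⟨l'', hl, rfl⟩
    exact h l'' hl

theorem optT_le_of_toFinset (l l' : List Pt) (hl : l.Nodup) (hl' : l'.Nodup)
    (h : l'.toFinset = l.toFinset) : optT l ≤ tourLen l' :=
  optT_le l l' (List.perm_of_nodup_nodup_toFinset_eq hl' hl h)

theorem optT_nil : optT ([] : List Pt) = 0 := by
  apply le_antisymm
  · have := optT_le ([] : List Pt) [] (List.Perm.refl _)
    simpa [tourLen] using this
  · exact le_optT _ _ (fun l' _ => tourLen_nonneg l')

theorem sh_inj (M : ℕ) (hM : 0 < M) (s : Pt) : Function.Injective (sh M s) := by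
  intro p q h
  unfold sh at h
  have h1 : M * p.1 = M * q.1 := by
    have := congrArg Prod.fst h
    simp only at this
    omega
  have h2 : M * p.2 = M * q.2 := by
    have := congrArg Prod.snd h
    simp only at this
    omega
  exact Prod.ext (Nat.eq_of_mul_eq_mul_left hM h1) (Nat.eq_of_mul_eq_mul_left hM h2)

theorem tourLen_map (M : ℕ) (s : Pt) (l : List Pt) :
    tourLen (l.map (sh M s)) = M * tourLen l := by
  unfold tourLen
  rw [Finset.mul_sum]
  have hlen : (l.map (sh M s)).length = l.length := List.length_map _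
  refine Fintype.sum_equiv (finCongr hlen) _ _ ?_
  intro i
  have hi : i.val < l.length := by have := i.isLt; omega
  have hpos : 0 < l.length := by omega
  have hmod : (i.val + 1) % l.length < l.length := Nat.mod_lt _ hpos
  have h1 : (l.map (sh M s)).get i = sh M s (l.get ⟨i.val, hi⟩) := by
    simp
  have h2 : (l.map (sh M s)).getD ((i.val + 1) % (l.map (sh M s)).length) (0, 0) =
      sh M s (l.getD ((i.val + 1) % l.length) (0, 0)) := by
    have hm2 : (i.val + 1) % (l.map (sh M s)).length < (l.map (sh M s)).length :=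
      Nat.mod_lt _ (by rw [hlen]; exact hpos)
    rw [List.getD_eq_getElem _ _ hm2, List.getD_eq_getElem _ _ hmod]
    simp
  rw [h1, h2]
  have h3 : (finCongr hlen) i = ⟨i.val, hi⟩ := rfl
  rw [h3]
  set a := l.get ⟨i.val, hi⟩
  set b := l.getD ((i.val + 1) % l.length) (0, 0)
  have h4 : ((((sh M s a).1 : ℕ) : ℝ) - (((sh M s b).1 : ℕ) : ℝ)) ^ 2
      + ((((sh M s a).2 : ℕ) : ℝ) - (((sh M s b).2 : ℕ) : ℝ)) ^ 2 =
      (M : ℝ) ^ 2 * (((a.1 : ℝ) - (b.1 : ℝ)) ^ 2 + ((a.2 : ℝ) - (b.2 : ℝ)) ^ 2) := by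
    unfold sh
    push_cast
    ring
  rw [h4, Real.sqrt_mul (by positivity), Real.sqrt_sq (by positivity)]

theorem two_Fstar_le (hSOUND : St_SOUND) (β N u L M : ℕ) (s : Pt) (hβ : 2 ≤ β) (hM : 0 < M)
    (l : List Pt) (hl : l.Nodup) :
    2 * Fstar β N u L (l.toFinset.image (sh M s)) ≤ M * optT l := by
  have hM' : (0 : ℝ) < M := by exact_mod_cast hM
  have h : 2 * Fstar β N u L (l.toFinset.image (sh M s)) / M ≤ optT l := by
    apply le_optT
    intro l' hl'
    rw [div_le_iff₀ hM']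
    have hnd : (l'.map (sh M s)).Nodup :=
      ((hl'.nodup_iff).2 hl).map (sh_inj M hM s)
    have h1 := hSOUND β N u L (l'.map (sh M s)) hβ hnd
    rw [tourLen_map] at h1
    have h2 : (l'.map (sh M s)).toFinset = l.toFinset.image (sh M s) := by
      ext x
      simp only [List.mem_toFinset, List.mem_map, Finset.mem_image]
      constructor
      · rintro ⟨a, ha, rfl⟩
        exact ⟨a, hl'.mem_iff.1 ha, rfl⟩
      · rintro ⟨a, ha, rfl⟩
        exact ⟨a, hl'.mem_iff.2 ha, rfl⟩
    rw [h2] at h1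
    linarith
  rw [div_le_iff₀ hM'] at h
  linarith

theorem mstW_nonneg (A : Finset Pt) : 0 ≤ mstW A :=
  Finset.sum_nonneg (fun _ _ => Real.sqrt_nonneg _)

theorem ds_symm (p q : Pt) : ds p q = ds q p := by
  unfold ds
  congr 1
  ring

theorem optT_le_two (hMSTr : St_MSTr) (hEUL : St_EUL) (l : List Pt) (hl : l.Nodup) (hne : l ≠ []) :
    optT l ≤ 2 * mstW l.toFinset := by
  have hP : l.toFinset.Nonempty := by
    obtain ⟨a, ha⟩ := List.exists_mem_of_ne_nil l hne
    exact ⟨a, List.mem_toFinset.2 ha⟩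
  obtain ⟨T, -, -, hsum⟩ := hMSTr l.toFinset hP
  obtain ⟨l', hl', hlt, hle⟩ := hEUL l.toFinset T ∅
  have h1 := optT_le_of_toFinset l l' hl hl' hlt
  have h2 : mstW l.toFinset = ∑ v ∈ T.edges, ds v (T.par v) := hsum ds ds_symm
  have h3 : (∑ r ∈ (∅ : Finset ({x // x ∈ l.toFinset} × {x // x ∈ l.toFinset})), ds r.1 r.2) = 0 := by
    simp
  rw [h3] at hle
  have h4 : ∑ e ∈ T.edges, ds e (T.par e) *
      (if Odd ((∅ : Finset ({x // x ∈ l.toFinset} × {x // x ∈ l.toFinset})).filter
        (fun r => e ∈ T.pth r.1 r.2)).card then (1 : ℝ) else 2) = 2 * mstW l.toFinset := by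
    rw [h2, Finset.mul_sum]
    apply Finset.sum_congr rfl
    intro e _
    rw [if_neg (by simp)]
    ring
  linarith

theorem le_optT_mst (hMT : St_MT) (l : List Pt) (hl : l.Nodup) (hne : l ≠ []) :
    mstW l.toFinset ≤ optT l := by
  apply le_optT
  intro l' hl'
  have hnd : l'.Nodup := (hl'.nodup_iff).2 hl
  have hne' : l' ≠ [] := by
    rintro rfl
    exact hne (List.Perm.nil_eq hl').symm
  have h := hMT l' hnd hne'
  have h2 : l'.toFinset = l.toFinset := by
    ext x
    simp only [List.mem_toFinset]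
    exact hl'.mem_iff
  rwa [h2] at h

end Pool.Agent.H660R3.TS
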