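import Pool.Agent.H660R3.TS.Stubs2

/-!
# Final assembly, part B: the estimates depend only on finitely many table entries (helper660)
-/

set_option autoImplicit false

open scoped Classical

namespace Pool.Agent.H660R3.TS

theorem jst_le (J : ℕ) (T1 : ℕ → ℕ → Option (Finset Pt)) (m : ℕ) : jst J T1 m ≤ J :=
  Nat.sInf_le (Or.inl rfl)

theorem jst_congr (J : ℕ) (T1 T1' : ℕ → ℕ → Option (Finset Pt)) (m : ℕ)
    (h : ∀ j ≤ J, T1 m j = T1' m j) : jst J T1 m = jst J T1' m := by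
  have key : ∀ (A B : ℕ → ℕ → Option (Finset Pt)), (∀ j ≤ J, A m j = B m j) →
      jst J A m ≤ jst J B m := by
    intro A B hAB
    have hB : jst J B m ∈ {j | j = J ∨ (B m j).isSome} :=
      Nat.sInf_mem ⟨J, Or.inl rfl⟩
    apply Nat.sInf_le
    rcases hB with hB | hB
    · exact Or.inl hB
    · right
      rw [hAB _ (jst_le J B m)]
      exact hB
  exact le_antisymm (key _ _ h) (key _ _ (fun j hj => (h j hj).symm))

theorem cont_congr (J : ℕ) (T1 T1' : ℕ → ℕ → Option (Finset Pt)) (m : ℕ)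
    (h : ∀ j ≤ J, T1 m j = T1' m j) : cont J T1 m = cont J T1' m := by
  unfold cont
  rw [jst_congr J T1 T1' m h, h _ (jst_le J T1' m)]

theorem West_congr (β N u J L : ℕ) (T1 T1' : ℕ → ℕ → Option (Finset Pt))
    (h : ∀ m ∈ Finset.Icc 3 L, ∀ j ≤ J, T1 m j = T1' m j) :
    West β N u J T1 L = West β N u J T1' L := by
  unfold West
  apply Finset.sum_congr rfl
  intro m hm
  rw [jst_congr J T1 T1' m (h m hm), cont_congr J T1 T1' m (h m hm)]

theorem maxFam_congr (σ : ℕ) (C : Finset (Pt × ℕ)) (g g' : Pt × ℕ → ℝ) (h : ∀ x ∈ C, g x = g' x) :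
    maxFam σ C g = maxFam σ C g' := by
  unfold maxFam
  apply Finset.sup'_congr _ rfl
  intro F hF
  have hF' : F ⊆ C := Finset.mem_powerset.1 (Finset.mem_filter.1 hF).1
  exact Finset.sum_congr rfl (fun x hx => h x (hF' hx))

theorem DD_eq (β N u m : ℕ) (hm : 2 ≤ m) : DD β N u m = β ^ (2 * N) * DD β N u (m - 2) := by
  unfold DD
  rw [← pow_add]
  congr 1
  obtain ⟨k, rfl⟩ := Nat.exists_eq_add_of_le hm
  have : 2 + k - 2 = k := by omega
  rw [this]
  ring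

theorem DD_pos (β N u m : ℕ) (hβ : 0 < β) : 0 < DD β N u m := pow_pos hβ _

theorem cidx_lt (β N u m : ℕ) (hβ : 0 < β) (hm : 2 ≤ m) (Z c : Pt) (h : bx (DD β N u m) c = Z) :
    (cidx β N u m Z c).1 < β ^ (2 * N) ∧ (cidx β N u m Z c).2 < β ^ (2 * N) := by
  have hD := DD_pos β N u m hβ
  have hσ := DD_pos β N u (m - 2) hβ
  have key : ∀ a z : ℕ, a / DD β N u m = z →
      (a - z * DD β N u m) / DD β N u (m - 2) < β ^ (2 * N) := by
    intro a z haz
    rw [Nat.div_lt_iff_lt_mul hσ, ← DD_eq β N u m hm]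
    have h1 := Nat.div_add_mod a (DD β N u m)
    have h2 := Nat.mod_lt a hD
    rw [haz, Nat.mul_comm] at h1
    omega
  unfold bx at h
  unfold cidx
  exact ⟨key _ _ (congrArg Prod.fst h), key _ _ (congrArg Prod.snd h)⟩

theorem cands_facts (β N u m : ℕ) (hβ : 0 < β) (hm : 2 ≤ m) (Q : Finset Pt) (Z : Pt)
    (hQ : ∀ x ∈ Q, bx (DD β N u m) x = Z) (x : Pt × ℕ) (hx : x ∈ cands β N u m Q Z) :
    (cidx β N u m Z x.1).1 < β ^ (2 * N) ∧ (cidx β N u m Z x.1).2 < β ^ (2 * N) ∧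
      x.2 < β ^ (2 * N) := by
  unfold cands at hx
  rw [Finset.mem_filter, Finset.mem_product] at hx
  obtain ⟨⟨hx1, -⟩, hC⟩ := hx
  obtain ⟨a1, a2⟩ := cidx_lt β N u m hβ hm Z x.1 (hQ _ hx1)
  refine ⟨a1, a2, ?_⟩
  obtain ⟨-, -, -, h4, -, -⟩ := hC
  have hσ := DD_pos β N u (m - 2) hβ
  have h5 : (x.2 + 1) * DD β N u (m - 2) ≤ DD β N u m := by
    refine le_trans ?_ h4
    exact Nat.le_mul_of_pos_right _ (pow_pos hβ _)
  rw [DD_eq β N u m hm] at h5
  have h6 := Nat.le_of_mul_le_mul_right h5 hσ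
  omega

theorem Fest_congr (β N u J R L : ℕ) (ω : Rnd) (hβ : 0 < β)
    (T1 T1' : ℕ → ℕ → Option (Finset Pt))
    (T2 T2' : ℕ → ℕ → Pt → ℕ → ℕ → ℕ → Option (Finset Pt))
    (h : ∀ m ∈ Finset.Icc 3 L, ∀ j ≤ J, T1 m j = T1' m j)
    (h2 : ∀ m ∈ Finset.Icc 3 L, ∀ j ≤ J, ∀ e : Pt, e.1 < β ^ (2 * N) → e.2 < β ^ (2 * N) →
      ∀ a < β ^ (2 * N), ∀ i < R, ∀ m' < m, T2 m j e a i m' = T2' m j e a i m') :
    Fest β N u J R ω T1 T2 L = Fest β N u J R ω T1' T2' L := by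
  unfold Fest
  apply Finset.sum_congr rfl
  intro m hm
  have hm2 : 2 ≤ m := by have := (Finset.mem_Icc.1 hm).1; omega
  rw [jst_congr J T1 T1' m (h m hm), cont_congr J T1 T1' m (h m hm)]
  congr 1
  apply Finset.sum_congr rfl
  intro Z _
  apply maxFam_congr
  intro x hx
  obtain ⟨c1, c2, c3⟩ := cands_facts β N u m hβ hm2 _ Z
    (fun y hy => (Finset.mem_filter.1 hy).2) x hx
  unfold uhat
  rw [jst_congr J T1 T1' m (h m hm)]
  congr 4
  ext i
  simp only [Finset.mem_filter]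
  apply and_congr_right
  intro hi
  have hi' := Finset.mem_range.1 hi
  apply forall_congr'
  intro m'
  apply forall_congr'
  intro _
  apply forall_congr'
  intro hm'
  rw [h2 m hm _ (jst_le J T1' m) _ c1 c2 _ c3 i hi' m' hm']

end Pool.Agent.H660R3.TS
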