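import Pool.Agent.H660R3.TS.FinA
import Pool.Agent.H660R3.TS.FinB

/-!
# Final assembly, part C: the sample space, the sketches and the decision rule (helper660)
-/

set_option autoImplicit false

open scoped Classical

namespace Pool.Agent.H660R3.TS

/-- index set of the sketches -/
abbrev Idx (L J Bc R : ℕ) := (Fin (L + 1) × Fin (J + 1)) ⊕
  (Fin (L + 1) × Fin (J + 1) × (Fin Bc × Fin Bc × Fin Bc × Fin R) × Fin (L + 1))

/-- the sample space -/
abbrev Omg (N L KK J SM Bc R : ℕ) := Fin N × (Fin SM × Fin SM) × Seed L KK J SM Bc R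

section Model

variable (β N L M J SM KK Bc R cap1 cap2 : ℕ)

/-- the shift of a sample point -/
def shf {N L KK J SM Bc R : ℕ} (ω : Omg N L KK J SM Bc R) : Pt := ((ω.2.1.1 : ℕ), (ω.2.1.2 : ℕ))

/-- cut off the keys out of range -/
noncomputable def cutK (KK : ℕ) (o : Option Pt) : Option Pt :=
  match o with
  | none => none
  | some y => if y.1 < KK ∧ y.2 < KK then some y else none

theorem cutK_lt (KK : ℕ) (o : Option Pt) (y : Pt) (h : cutK KK o = some y) :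
    y.1 < KK ∧ y.2 < KK := by
  unfold cutK at h
  split at h
  · exact absurd h (by simp)
  · rename_i z
    split_ifs at h with h1
    rw [Option.some.injEq] at h
    exact h ▸ h1

theorem cutK_eq (KK : ℕ) (o : Option Pt) (h : ∀ y, o = some y → y.1 < KK ∧ y.2 < KK) :
    cutK KK o = o := by
  unfold cutK
  split
  · rfl
  · rename_i z
    rw [if_pos (h z rfl)]

/-- the key functions -/
noncomputable def kap (ω : Omg N L KK J SM Bc R) (i : Idx L J Bc R) (x : Pt) : Option Pt :=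
  cutK KK (match i with
    | Sum.inl (m, j) => K1 β N ω.1 J (toRnd ω.2.2) m j (sh M (shf ω) x)
    | Sum.inr (m, j, (e1, e2, a, i), m') =>
        K2 β N ω.1 J (toRnd ω.2.2) m j ((e1 : ℕ), (e2 : ℕ)) a i m' (sh M (shf ω) x))

theorem kap_lt (ω : Omg N L KK J SM Bc R) (i : Idx L J Bc R) (x y : Pt)
    (h : kap β N L M J SM KK Bc R ω i x = some y) : y.1 < KK ∧ y.2 < KK :=
  cutK_lt KK _ y h

/-- first table -/
noncomputable def tb1 {L J Bc R : ℕ} (cap1 : ℕ) (tab : Idx L J Bc R → Option (Finset Pt))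
    (m j : ℕ) : Option (Finset Pt) :=
  if h : m < L + 1 ∧ j < J + 1 then
    (match tab (Sum.inl (⟨m, h.1⟩, ⟨j, h.2⟩)) with
      | none => none
      | some S => if S.card ≤ cap1 then some S else none)
  else none

/-- second table -/
noncomputable def tb2 {L J Bc R : ℕ} (tab : Idx L J Bc R → Option (Finset Pt))
    (m j : ℕ) (e : Pt) (a i m' : ℕ) : Option (Finset Pt) :=
  if h : (m < L + 1 ∧ j < J + 1) ∧ (e.1 < Bc ∧ e.2 < Bc ∧ a < Bc ∧ i < R) ∧ m' < L + 1 then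
    tab (Sum.inr (⟨m, h.1.1⟩, ⟨j, h.1.2⟩, (⟨e.1, h.2.1.1⟩, ⟨e.2, h.2.1.2.1⟩, ⟨a, h.2.1.2.2.1⟩,
      ⟨i, h.2.1.2.2.2⟩), ⟨m', h.2.2⟩))
  else none

/-- output rule -/
noncomputable def rule (M : ℕ) (w f : ℝ) : ℝ :=
  if 3 / 5 * w ≤ f then 2 * (1 + 1 / 10 ^ 35) * w / M
    else (2 - 1 / (4 * 10 ^ 28)) * (1 + 1 / 10 ^ 35) * w / M

/-- output as a function of the tables -/
noncomputable def estv (ω : Omg N L KK J SM Bc R) (tab : Idx L J Bc R → Option (Finset Pt)) : ℝ :=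
  rule M (West β N ω.1 J (tb1 cap1 tab) L)
    (Fest β N ω.1 J R (toRnd ω.2.2) (tb1 cap1 tab) (tb2 tab) L)

theorem rd_le (g : ℕ) (x : Pt) : (rd g x).1 ≤ x.1 ∧ (rd g x).2 ≤ x.2 :=
  ⟨Nat.div_mul_le_self _ _, Nat.div_mul_le_self _ _⟩

theorem K1_some (β N u J : ℕ) (ω : Rnd) (m j : ℕ) (x y : Pt)
    (h : K1 β N u J ω m j x = some y) : y.1 ≤ x.1 ∧ y.2 ≤ x.2 := by
  unfold K1 at h
  split_ifs at h
  rw [Option.some.injEq] at h
  rw [← h]
  exact rd_le _ x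

theorem K2_some (β N u J : ℕ) (ω : Rnd) (m j : ℕ) (e : Pt) (a i m' : ℕ) (x y : Pt)
    (h : K2 β N u J ω m j e a i m' x = some y) : y.1 ≤ x.1 ∧ y.2 ≤ x.2 := by
  unfold K2 at h
  split_ifs at h
  rw [Option.some.injEq] at h
  rw [← h]
  exact rd_le _ x

theorem tb1_eq (P : Finset Pt) (Δ : ℕ) (hP : ∀ x ∈ P, x.1 ≤ Δ ∧ x.2 ≤ Δ)
    (hK : M * Δ + SM ≤ KK) (hcap : cap1 ≤ cap2) (ω : Omg N L KK J SM Bc R) (m j : ℕ)
    (hm : m ≤ L) (hj : j ≤ J) :
    tb1 cap1 (fun i => skt (kap β N L M J SM KK Bc R ω i) cap2 P) m j =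
      T1of β N ω.1 J cap1 (toRnd ω.2.2) (P.image (sh M (shf ω))) m j := by
  have him : P.image (kap β N L M J SM KK Bc R ω
      (Sum.inl (⟨m, Nat.lt_succ_of_le hm⟩, ⟨j, Nat.lt_succ_of_le hj⟩))) =
      (P.image (sh M (shf ω))).image (K1 β N ω.1 J (toRnd ω.2.2) m j) := by
    rw [Finset.image_image]
    apply Finset.image_congr
    intro x hx
    have hx' := hP x hx
    apply cutK_eq
    intro y hy
    have h1 := K1_some _ _ _ _ _ _ _ _ _ hy
    have h2 := ω.2.1.1.isLt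
    have h3 := ω.2.1.2.isLt
    have h4 := Nat.mul_le_mul_left M hx'.1
    have h5 := Nat.mul_le_mul_left M hx'.2
    unfold sh shf at h1
    simp only at h1
    constructor <;> omega
  unfold tb1 T1of
  rw [dif_pos ⟨Nat.lt_succ_of_le hm, Nat.lt_succ_of_le hj⟩]
  unfold skt
  beta_reduce
  rw [him]
  set A := ((P.image (sh M (shf ω))).image (K1 β N ω.1 J (toRnd ω.2.2) m j)).eraseNone
  by_cases h1 : A.card ≤ cap2
  · rw [if_pos h1]
  · rw [if_neg h1, if_neg (by omega)]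

theorem tb2_eq (P : Finset Pt) (Δ : ℕ) (hP : ∀ x ∈ P, x.1 ≤ Δ ∧ x.2 ≤ Δ)
    (hK : M * Δ + SM ≤ KK) (ω : Omg N L KK J SM Bc R) (m j : ℕ)
    (hm : m ≤ L) (hj : j ≤ J) (e : Pt) (he1 : e.1 < Bc) (he2 : e.2 < Bc) (a : ℕ) (ha : a < Bc)
    (i : ℕ) (hi : i < R) (m' : ℕ) (hm' : m' < m) :
    tb2 (fun i => skt (kap β N L M J SM KK Bc R ω i) cap2 P) m j e a i m' =
      T2of β N ω.1 J cap2 (toRnd ω.2.2) (P.image (sh M (shf ω))) m j e a i m' := by
  have hcond : (m < L + 1 ∧ j < J + 1) ∧ (e.1 < Bc ∧ e.2 < Bc ∧ a < Bc ∧ i < R) ∧ m' < L + 1 :=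
    ⟨⟨Nat.lt_succ_of_le hm, Nat.lt_succ_of_le hj⟩, ⟨he1, he2, ha, hi⟩, by omega⟩
  have him : P.image (kap β N L M J SM KK Bc R ω
      (Sum.inr (⟨m, hcond.1.1⟩, ⟨j, hcond.1.2⟩, (⟨e.1, hcond.2.1.1⟩, ⟨e.2, hcond.2.1.2.1⟩,
        ⟨a, hcond.2.1.2.2.1⟩, ⟨i, hcond.2.1.2.2.2⟩), ⟨m', hcond.2.2⟩))) =
      (P.image (sh M (shf ω))).image (K2 β N ω.1 J (toRnd ω.2.2) m j e a i m') := by
    rw [Finset.image_image]
    apply Finset.image_congr
    intro x hx
    have hx' := hP x hx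
    apply cutK_eq
    intro y hy
    have h1 := K2_some _ _ _ _ _ _ _ _ _ _ _ _ _ hy
    have h2 := ω.2.1.1.isLt
    have h3 := ω.2.1.2.isLt
    have h4 := Nat.mul_le_mul_left M hx'.1
    have h5 := Nat.mul_le_mul_left M hx'.2
    unfold sh shf at h1
    simp only at h1
    constructor <;> omega
  unfold tb2 T2of
  rw [dif_pos hcond]
  unfold skt
  beta_reduce
  rw [him]

/-- the two estimates are accurate -/
def Acc (ω : Omg N L KK J SM Bc R) (P : Finset Pt) : Prop :=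
  let X := P.image (sh M (shf ω))
  let T1 := T1of β N ω.1 J cap1 (toRnd ω.2.2) X
  let T2 := T2of β N ω.1 J cap2 (toRnd ω.2.2) X
  |West β N ω.1 J T1 L - Wstar β N ω.1 L X| ≤ M * mstW P / (β : ℝ) ^ 2 ∧
    |Fest β N ω.1 J R (toRnd ω.2.2) T1 T2 L - Fstar β N ω.1 L X| ≤ M * mstW P / (β : ℝ) ^ 2

/-- the output for a point set -/
theorem estv_eq (P : Finset Pt) (Δ : ℕ) (hP : ∀ x ∈ P, x.1 ≤ Δ ∧ x.2 ≤ Δ)
    (hK : M * Δ + SM ≤ KK) (hcap : cap1 ≤ cap2) (hβ : 0 < β) (hBc : Bc = β ^ (2 * N))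
    (ω : Omg N L KK J SM Bc R) :
    estv β N L M J SM KK Bc R cap1 ω (fun i => skt (kap β N L M J SM KK Bc R ω i) cap2 P) =
      rule M (West β N ω.1 J (T1of β N ω.1 J cap1 (toRnd ω.2.2) (P.image (sh M (shf ω)))) L)
        (Fest β N ω.1 J R (toRnd ω.2.2)
          (T1of β N ω.1 J cap1 (toRnd ω.2.2) (P.image (sh M (shf ω))))
          (T2of β N ω.1 J cap2 (toRnd ω.2.2) (P.image (sh M (shf ω)))) L) := by
  unfold estv
  have h1 : ∀ m ∈ Finset.Icc 3 L, ∀ j ≤ J,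
      tb1 cap1 (fun i => skt (kap β N L M J SM KK Bc R ω i) cap2 P) m j =
      T1of β N ω.1 J cap1 (toRnd ω.2.2) (P.image (sh M (shf ω))) m j := fun m hm j hj =>
    tb1_eq β N L M J SM KK Bc R cap1 cap2 P Δ hP hK hcap ω m j (Finset.mem_Icc.1 hm).2 hj
  rw [West_congr _ _ _ _ _ _ _ h1, Fest_congr β N ω.1 J R L (toRnd ω.2.2) hβ _ _ _ _ h1]
  intro m hm j hj e he1 he2 a ha i hi m' hm'
  rw [← hBc] at he1 he2 ha
  exact tb2_eq β N L M J SM KK Bc R cap2 P Δ hP hK ω m j (Finset.mem_Icc.1 hm).2 hj e he1 he2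
    a ha i hi m' hm'

end Model

/-- the decision rule is correct -/
theorem rule_ok (M : ℕ) (hM : 0 < M) (W T F f w Wst r : ℝ) (hW : 0 ≤ W)
    (hWT : W ≤ T) (hT2 : T ≤ 2 * W) (hF : 2 * F ≤ M * T) (hr : r ≤ M * W / 10 ^ 40)
    (h1 : |w - Wst| ≤ r) (h2 : |Wst - M * W| ≤ r) (h3 : |f - F| ≤ r)
    (hgood : (2 - 1 / (4 * 10 ^ 28)) * W < T → 7 / 10 * (M * W) ≤ F) :
    T ≤ rule M w f ∧ rule M w f ≤ (2 - 1 / (8 * 10 ^ 28)) * T := by
  have hM' : (0 : ℝ) < M := by exact_mod_cast hM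
  have hq : 0 ≤ M * W := by positivity
  obtain ⟨a1, a2⟩ := abs_le.1 h1
  obtain ⟨b1, b2⟩ := abs_le.1 h2
  obtain ⟨c1, c2⟩ := abs_le.1 h3
  have hqt : (M : ℝ) * W ≤ M * T := by gcongr
  have ht2 : (M : ℝ) * T ≤ 2 * (M * W) := by
    have := mul_le_mul_of_nonneg_left hT2 hM'.le
    linarith
  unfold rule
  split_ifs with hc
  · rw [le_div_iff₀ hM', div_le_iff₀ hM']
    constructor
    · have : T * M = M * T := mul_comm _ _
      rw [this]
      nlinarith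
    · have : (2 - 1 / (8 * 10 ^ 28)) * T * M = (2 - 1 / (8 * 10 ^ 28)) * (M * T) := by ring
      rw [this]
      nlinarith
  · rw [le_div_iff₀ hM', div_le_iff₀ hM']
    push Not at hc
    have hT3 : T ≤ (2 - 1 / (4 * 10 ^ 28)) * W := by
      by_contra hcon
      push Not at hcon
      have := hgood hcon
      nlinarith
    have ht3 : (M : ℝ) * T ≤ (2 - 1 / (4 * 10 ^ 28)) * (M * W) := by
      have := mul_le_mul_of_nonneg_left hT3 hM'.le
      nlinarith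
    constructor
    · have : T * M = M * T := mul_comm _ _
      rw [this]
      nlinarith
    · have : (2 - 1 / (8 * 10 ^ 28)) * T * M = (2 - 1 / (8 * 10 ^ 28)) * (M * T) := by ring
      rw [this]
      nlinarith

end Pool.Agent.H660R3.TS
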