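import Pool.Agent.H660R3.TS.FinC

/-!
# Final assembly, part D: the failure probability and the main theorem (helper660)
-/

set_option autoImplicit false

open scoped Classical

namespace Pool.Agent.H660R3.TS

/-- the sample point `ω` is bad for `P` -/
def Badp (β N L M J SM KK Bc R cap1 cap2 : ℕ) (ω : Omg N L KK J SM Bc R) (P : Finset Pt) : Prop :=
  P.Nonempty ∧ ¬ (GoodUS β N L M P ω.1 (shf ω) ∧ Acc β N L M J SM KK Bc R cap1 cap2 ω P)

theorem bad_count (hGUS : St_GUS) (hSAMP : St_SAMP) (P : Finset Pt)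
    (β N L Δ M SM KK J Bc R cap1 cap2 : ℕ)
    (hM : M = β ^ (5 * N)) (hSM : SM = β ^ (N * (L + 1))) (hKK : KK = 2 * SM)
    (hJ : J = 2 * N * (L + 2) * β) (hBc : Bc = β ^ (2 * N)) (hR : R = β ^ (60 * N))
    (hc1 : cap1 = β ^ (64 * N)) (hc2 : cap2 = β ^ (164 * N)) (hN : 10 ^ 6 ≤ N) (hL : 7 ≤ L)
    (hβ : 10 ^ 20 * L ≤ β) (hne : P.Nonempty) (hrng : ∀ x ∈ P, x.1 ≤ Δ ∧ x.2 ≤ Δ)
    (hΔ : 2 * Δ ≤ β ^ (N * (L - 6))) :
    100 * (Finset.univ.filter (fun ω : Omg N L KK J SM Bc R =>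
      Badp β N L M J SM KK Bc R cap1 cap2 ω P)).card ≤ Fintype.card (Omg N L KK J SM Bc R) := by
  set cS := Fintype.card (Seed L KK J SM Bc R) with hcS
  -- fibre counts
  let G : (Fin N × (Fin SM × Fin SM)) → Prop := fun us =>
    GoodUS β N L M P us.1 ((us.2.1 : ℕ), (us.2.2 : ℕ))
  let mk : (Fin N × (Fin SM × Fin SM)) → Seed L KK J SM Bc R → Omg N L KK J SM Bc R :=
    fun us ω => (us.1, us.2, ω)
  have hfib : ∀ us : Fin N × (Fin SM × Fin SM),
      200 * (Finset.univ.filter (fun ω : Seed L KK J SM Bc R =>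
        Badp β N L M J SM KK Bc R cap1 cap2 (mk us ω) P)).card ≤
      cS + (if G us then 0 else 200 * cS) := by
    intro us
    by_cases hG : G us
    · rw [if_pos hG, add_zero]
      have hsh : SHyp P β N L Δ M SM KK J Bc R cap1 cap2 us.1 ((us.2.1 : ℕ), (us.2.2 : ℕ)) :=
        { hM := hM, hSM := hSM, hKK := hKK, hJ := hJ, hBc := hBc, hR := hR, hc1 := hc1, hc2 := hc2,
          hN := hN, hL := hL, hβ := hβ, hu := us.1.isLt, hs := ⟨us.2.1.isLt, us.2.2.isLt⟩,
          ne := hne, rng := hrng, hΔ := hΔ, cut := hG.1 }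
      refine le_trans ?_ (hSAMP P β N L Δ M SM KK J Bc R cap1 cap2 us.1
        ((us.2.1 : ℕ), (us.2.2 : ℕ)) hsh)
      apply Nat.mul_le_mul_left
      apply Finset.card_le_card
      intro ω hω
      rw [Finset.mem_filter] at hω ⊢
      refine ⟨Finset.mem_univ _, ?_⟩
      intro hacc
      exact hω.2.2 ⟨hG, hacc⟩
    · rw [if_neg hG]
      have : (Finset.univ.filter (fun ω : Seed L KK J SM Bc R =>
        Badp β N L M J SM KK Bc R cap1 cap2 (mk us ω) P)).card ≤ cS := Finset.card_le_univ _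
      omega
  have hsum : (Finset.univ.filter (fun ω : Omg N L KK J SM Bc R =>
      Badp β N L M J SM KK Bc R cap1 cap2 ω P)).card =
      ∑ us : Fin N × (Fin SM × Fin SM), (Finset.univ.filter (fun ω : Seed L KK J SM Bc R =>
        Badp β N L M J SM KK Bc R cap1 cap2 (mk us ω) P)).card := by
    simp only [Finset.card_filter]
    rw [Fintype.sum_prod_type, Fintype.sum_prod_type]
    apply Finset.sum_congr rfl
    intro u _
    rw [Fintype.sum_prod_type]
  have hcardG : 200 * (Finset.univ.filter (fun us : Fin N × (Fin SM × Fin SM) => ¬ G us)).card ≤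
      N * SM ^ 2 := by
    refine le_trans ?_ (hGUS P β N L Δ M SM hM hSM hN hL hβ hne hrng hΔ)
    apply Nat.mul_le_mul_left
    apply Finset.card_le_card_of_injOn (fun us => ((us.1 : ℕ), ((us.2.1 : ℕ), (us.2.2 : ℕ))))
    · intro us hus
      have h1 := (Finset.mem_filter.1 hus).2
      apply Finset.mem_coe.2
      rw [Finset.mem_filter, Finset.mem_product, Finset.mem_product]
      exact ⟨⟨Finset.mem_range.2 us.1.isLt, Finset.mem_range.2 us.2.1.isLt,
        Finset.mem_range.2 us.2.2.isLt⟩, h1⟩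
    · rintro ⟨a, b, c⟩ _ ⟨a', b', c'⟩ _ h
      simp only [Prod.mk.injEq] at h
      obtain ⟨h1, h2, h3⟩ := h
      rw [Fin.val_inj] at h1 h2 h3
      rw [h1, h2, h3]
  have hcO : Fintype.card (Omg N L KK J SM Bc R) = N * SM ^ 2 * cS := by
    unfold Omg
    rw [Fintype.card_prod, Fintype.card_prod, Fintype.card_prod, Fintype.card_fin,
      Fintype.card_fin, ← hcS]
    ring
  have h200 : 200 * (Finset.univ.filter (fun ω : Omg N L KK J SM Bc R =>
      Badp β N L M J SM KK Bc R cap1 cap2 ω P)).card ≤ 2 * (N * SM ^ 2 * cS) := by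
    rw [hsum, Finset.mul_sum]
    calc ∑ us : Fin N × (Fin SM × Fin SM), 200 * (Finset.univ.filter
          (fun ω : Seed L KK J SM Bc R =>
            Badp β N L M J SM KK Bc R cap1 cap2 (mk us ω) P)).card
        ≤ ∑ us : Fin N × (Fin SM × Fin SM), (cS + (if G us then 0 else 200 * cS)) :=
          Finset.sum_le_sum (fun us _ => hfib us)
      _ = N * SM ^ 2 * cS +
          (Finset.univ.filter (fun us : Fin N × (Fin SM × Fin SM) => ¬ G us)).card * (200 * cS) := by
          rw [Finset.sum_add_distrib, Finset.sum_const, Finset.card_univ]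
          congr 1
          · rw [Fintype.card_prod, Fintype.card_prod, Fintype.card_fin, Fintype.card_fin,
              smul_eq_mul]
            ring
          · have h5 : (Finset.univ.filter (fun us : Fin N × (Fin SM × Fin SM) => ¬ G us)).card *
                (200 * cS) = ∑ us ∈ Finset.univ.filter
                  (fun us : Fin N × (Fin SM × Fin SM) => ¬ G us), 200 * cS := by
              rw [Finset.sum_const, smul_eq_mul]
            rw [h5, Finset.sum_filter]
            apply Finset.sum_congr rfl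
            intro us _
            by_cases h : G us
            · rw [if_pos h, if_neg (not_not.2 h)]
            · rw [if_neg h, if_pos h]
      _ ≤ N * SM ^ 2 * cS + N * SM ^ 2 * cS := by
          have := Nat.mul_le_mul_right cS hcardG
          nlinarith
      _ = 2 * (N * SM ^ 2 * cS) := by ring
  rw [hcO]
  omega

/-- the model for one `Δ` -/
theorem core (hGUS : St_GUS) (hSAMP : St_SAMP) (hWST : St_WST) (hSOUND : St_SOUND) (hMT : St_MT)
    (hEUL : St_EUL) (hMSTr : St_MSTr) (hNEW : St_NEW) (hAUT : St_AUT)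
    (β N L Δ M SM KK J Bc R cap1 cap2 : ℕ)
    (hM : M = β ^ (5 * N)) (hSM : SM = β ^ (N * (L + 1))) (hKK : KK = 2 * SM)
    (hJ : J = 2 * N * (L + 2) * β) (hBc : Bc = β ^ (2 * N)) (hR : R = β ^ (60 * N))
    (hc1 : cap1 = β ^ (64 * N)) (hc2 : cap2 = β ^ (164 * N)) (hN : 10 ^ 6 ≤ N) (hL : 7 ≤ L)
    (hβ : 10 ^ 20 * L ≤ β) (hΔ : 2 * Δ ≤ β ^ (N * (L - 6))) :
    ∃ (Ns : ℕ) (μ0 : PMF (Fin Ns)) (δ : Fin Ns → ℕ × ℕ → PMF (Fin Ns)) (out : Fin Ns → ℝ),
      Ns ≤ 3 * ((Δ + 1) ^ 2 + 1) * ((KK ^ 2 + 1) ^ cap2 + 1) ^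
        ((L + 1) * (J + 1) + (L + 1) * (J + 1) * (Bc * Bc * Bc * R) * (L + 1)) ∧
      ∀ l : List (ℕ × ℕ), l.Nodup → (∀ p ∈ l, p.1 ≤ Δ ∧ p.2 ≤ Δ) →
        (2 / 3 : ENNReal) ≤
          (l.foldl (fun μ p => μ.bind (fun q => δ q p)) μ0).toOuterMeasure
            {q | optT l ≤ out q ∧ out q ≤ (2 - 1 / (8 * 10 ^ 28)) * optT l} := by
  have hβ0 : 0 < β := by
    have : 0 < 10 ^ 20 * L := by positivity
    omega
  have hβ20 : 10 ^ 20 ≤ β := le_trans (Nat.le_mul_of_pos_right _ (by omega)) hβ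
  have hN0 : 0 < N := by omega
  have hM0 : 0 < M := hM ▸ pow_pos hβ0 _
  have hSM0 : 0 < SM := hSM ▸ pow_pos hβ0 _
  set n := (Δ + 1) ^ 2 with hn
  let Q := {P : Finset Pt // P ∈ (Finset.range (Δ + 1) ×ˢ Finset.range (Δ + 1)).powerset}
  have hQrng : ∀ P : Q, ∀ x ∈ P.1, x.1 ≤ Δ ∧ x.2 ≤ Δ := by
    intro P x hx
    have h1 := Finset.mem_powerset.1 P.2 hx
    rw [Finset.mem_product, Finset.mem_range, Finset.mem_range] at h1
    exact ⟨Nat.le_of_lt_succ h1.1, Nat.le_of_lt_succ h1.2⟩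
  have hQcard : Fintype.card Q ≤ 2 ^ n := by
    rw [Fintype.card_coe, Finset.card_powerset, Finset.card_product, Finset.card_range, hn, sq]
  have hΩne : Nonempty (Omg N L KK J SM Bc R) := by
    have : Nonempty (Fin N) := ⟨⟨0, hN0⟩⟩
    have : Nonempty (Fin SM) := ⟨⟨0, hSM0⟩⟩
    have : Nonempty (Fin (2 ^ J)) := ⟨⟨0, by positivity⟩⟩
    infer_instance
  obtain ⟨f, hf⟩ := hNEW (Omg N L KK J SM Bc R) Q
    (fun ω P => Badp β N L M J SM KK Bc R cap1 cap2 ω P.1) n hQcard (by
      intro P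
      by_cases hne : P.1.Nonempty
      · exact bad_count hGUS hSAMP P.1 β N L Δ M SM KK J Bc R cap1 cap2 hM hSM hKK hJ hBc hR hc1
          hc2 hN hL hβ hne (hQrng P) hΔ
      · have : (Finset.univ.filter (fun ω : Omg N L KK J SM Bc R =>
            Badp β N L M J SM KK Bc R cap1 cap2 ω P.1)) = ∅ := by
          apply Finset.filter_eq_empty_iff.2
          intro ω _ hb
          exact hne hb.1
        rw [this]
        simp)
  obtain ⟨Ns, μ0, δ, out, hsize, hmain⟩ := hAUT (3 * (n + 1)) (Idx L J Bc R)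
    (fun s => kap β N L M J SM KK Bc R (f s)) cap2 KK
    (fun s => estv β N L M J SM KK Bc R cap1 (f s)) (by omega)
    (fun s i x y h => kap_lt β N L M J SM KK Bc R (f s) i x y h)
  refine ⟨Ns, μ0, δ, out, ?_, ?_⟩
  · refine le_trans hsize (le_of_eq ?_)
    congr 1
    congr 1
    unfold Idx
    simp only [Fintype.card_sum, Fintype.card_prod, Fintype.card_fin]
    ring
  · intro l hnd hrng
    have hrng' : ∀ x ∈ l.toFinset, x.1 ≤ Δ ∧ x.2 ≤ Δ := fun x hx => hrng x (List.mem_toFinset.1 hx)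
    have hmem : l.toFinset ∈ (Finset.range (Δ + 1) ×ˢ Finset.range (Δ + 1)).powerset := by
      rw [Finset.mem_powerset]
      intro x hx
      rw [Finset.mem_product, Finset.mem_range, Finset.mem_range]
      exact ⟨Nat.lt_succ_of_le (hrng' x hx).1, Nat.lt_succ_of_le (hrng' x hx).2⟩
    have hKK' : M * Δ + SM ≤ KK := by
      have h1 : M * Δ ≤ SM := by
        rw [hM, hSM]
        calc β ^ (5 * N) * Δ ≤ β ^ (5 * N) * β ^ (N * (L - 6)) :=
              Nat.mul_le_mul_left _ (by omega)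
          _ = β ^ (5 * N + N * (L - 6)) := (pow_add _ _ _).symm
          _ ≤ β ^ (N * (L + 1)) := by
              apply Nat.pow_le_pow_right hβ0
              obtain ⟨L', rfl⟩ : ∃ L', L = L' + 6 := ⟨L - 6, by omega⟩
              have : L' + 6 - 6 = L' := by omega
              rw [this]
              nlinarith
      omega
    have hcap : cap1 ≤ cap2 := by
      rw [hc1, hc2]
      exact Nat.pow_le_pow_right hβ0 (by omega)
    -- every good seed gives a correct output
    have hgood : ∀ ω : Omg N L KK J SM Bc R,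
        ¬ Badp β N L M J SM KK Bc R cap1 cap2 ω l.toFinset →
        estv β N L M J SM KK Bc R cap1 ω
          (fun i => skt (kap β N L M J SM KK Bc R ω i) cap2 l.toFinset) ∈
          {x : ℝ | optT l ≤ x ∧ x ≤ (2 - 1 / (8 * 10 ^ 28)) * optT l} := by
      intro ω hω
      rw [estv_eq β N L M J SM KK Bc R cap1 cap2 l.toFinset Δ hrng' hKK' hcap hβ0 hBc ω]
      by_cases hl : l = []
      · subst hl
        rw [Set.mem_ofPred_eq, optT_nil, mul_zero]
        have hT1 : ∀ m j, T1of β N ω.1 J cap1 (toRnd ω.2.2)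
            ((([] : List Pt).toFinset).image (sh M (shf ω))) m j = some ∅ := by
          intro m j
          unfold T1of skt
          simp
        have hcont : ∀ m, cont J (T1of β N ω.1 J cap1 (toRnd ω.2.2)
            ((([] : List Pt).toFinset).image (sh M (shf ω)))) m = ∅ := by
          intro m
          unfold cont
          rw [hT1]
          rfl
        have hW : West β N ω.1 J (T1of β N ω.1 J cap1 (toRnd ω.2.2)
            ((([] : List Pt).toFinset).image (sh M (shf ω)))) L = 0 := by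
          unfold West
          apply Finset.sum_eq_zero
          intro m _
          rw [hcont m]
          simp
        rw [hW]
        unfold rule
        split_ifs <;> simp
      · have hne : l.toFinset.Nonempty := by
          obtain ⟨a, ha⟩ := List.exists_mem_of_ne_nil l hl
          exact ⟨a, List.mem_toFinset.2 ha⟩
        have hGA : GoodUS β N L M l.toFinset ω.1 (shf ω) ∧
            Acc β N L M J SM KK Bc R cap1 cap2 ω l.toFinset := by
          by_contra hcon
          exact hω ⟨hne, hcon⟩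
        obtain ⟨hG, hA1, hA2⟩ := hGA
        have hwst := hWST l.toFinset β N L Δ M ω.1 (shf ω) hM hN hL hβ ω.1.isLt hne hrng' hΔ hG.1
        apply rule_ok M hM0 (mstW l.toFinset) (optT l) (Fstar β N ω.1 L
          (l.toFinset.image (sh M (shf ω)))) _ _ (Wstar β N ω.1 L
          (l.toFinset.image (sh M (shf ω)))) (M * mstW l.toFinset / (β : ℝ) ^ 2)
          (mstW_nonneg _) (le_optT_mst hMT l hnd hl) (optT_le_two hMSTr hEUL l hnd hl)
          (two_Fstar_le hSOUND β N ω.1 L M (shf ω) (by omega) hM0 l hnd)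
        · have hβr : (10 : ℝ) ^ 20 ≤ β := by exact_mod_cast hβ20
          have h1 : (10 : ℝ) ^ 40 ≤ (β : ℝ) ^ 2 := by
            calc (10 : ℝ) ^ 40 = (10 ^ 20) ^ 2 := by norm_num
              _ ≤ (β : ℝ) ^ 2 := by gcongr
          have := mstW_nonneg l.toFinset
          gcongr
        · exact hA1
        · exact hwst
        · exact hA2
        · intro hT
          apply hG.2
          intro l' hl' hlt
          exact lt_of_lt_of_le hT (optT_le_of_toFinset l l' hnd hl' hlt)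
    have hcount : 2 * (n + 1) ≤ (Finset.univ.filter (fun s : Fin (3 * (n + 1)) =>
        estv β N L M J SM KK Bc R cap1 (f s)
          (fun i => skt (kap β N L M J SM KK Bc R (f s) i) cap2 l.toFinset) ∈
          {x : ℝ | optT l ≤ x ∧ x ≤ (2 - 1 / (8 * 10 ^ 28)) * optT l})).card := by
      have h1 := hf ⟨l.toFinset, hmem⟩
      have h2 := Finset.card_filter_add_card_filter_not (s := (Finset.univ : Finset (Fin (3 * (n + 1)))))
        (fun s => Badp β N L M J SM KK Bc R cap1 cap2 (f s) l.toFinset)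
      rw [Finset.card_univ, Fintype.card_fin] at h2
      have h3 : (Finset.univ.filter (fun s : Fin (3 * (n + 1)) =>
          ¬ Badp β N L M J SM KK Bc R cap1 cap2 (f s) l.toFinset)).card ≤
          (Finset.univ.filter (fun s : Fin (3 * (n + 1)) =>
            estv β N L M J SM KK Bc R cap1 (f s)
              (fun i => skt (kap β N L M J SM KK Bc R (f s) i) cap2 l.toFinset) ∈
              {x : ℝ | optT l ≤ x ∧ x ≤ (2 - 1 / (8 * 10 ^ 28)) * optT l})).card := by
        apply Finset.card_le_card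
        intro s hs
        rw [Finset.mem_filter] at hs ⊢
        exact ⟨hs.1, hgood (f s) hs.2⟩
      simp only at h1
      omega
    have hfin := hmain l {x : ℝ | optT l ≤ x ∧ x ≤ (2 - 1 / (8 * 10 ^ 28)) * optT l}
      (2 * (n + 1)) (by convert hcount)
    refine le_trans (le_of_eq ?_) hfin
    have hcast : (((2 * (n + 1) : ℕ) : ENNReal)) / ((3 * (n + 1) : ℕ) : ENNReal) = 2 / 3 := by
      push_cast
      rw [ENNReal.mul_div_mul_right _ _ (by positivity) (by simp)]
    rw [hcast]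

/-- the frozen statement from the statements of the tasks -/
theorem final_of (hGUS : St_GUS) (hSAMP : St_SAMP) (hWST : St_WST) (hSOUND : St_SOUND) (hMT : St_MT)
    (hEUL : St_EUL) (hMSTr : St_MSTr) (hNEW : St_NEW) (hAUT : St_AUT) (hSIZE : St_SIZE) :
    ∃ c : ℝ, c < 2 ∧ ∃ C k : ℕ, ∀ Δ : ℕ, 1 ≤ Δ →
      ∃ (N : ℕ) (μ0 : PMF (Fin N)) (δ : Fin N → ℕ × ℕ → PMF (Fin N)) (out : Fin N → ℝ),
        N ≤ 2 ^ (C * (Nat.log 2 Δ + 1) ^ k) ∧
        ∀ l : List (ℕ × ℕ), l.Nodup →
          (∀ p ∈ l, 1 ≤ p.1 ∧ p.1 ≤ Δ ∧ 1 ≤ p.2 ∧ p.2 ≤ Δ) →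
          ∀ T : ℝ,
            T = sInf {x : ℝ | ∃ l' : List (ℕ × ℕ), l'.Perm l ∧
                  x = ∑ i : Fin l'.length,
                    Real.sqrt ((((l'.get i).1 : ℝ) - ((l'.getD ((i.val + 1) % l'.length) (0, 0)).1 : ℝ)) ^ 2
                      + (((l'.get i).2 : ℝ) - ((l'.getD ((i.val + 1) % l'.length) (0, 0)).2 : ℝ)) ^ 2)} →
            (2 / 3 : ENNReal) ≤
              (l.foldl (fun μ p => μ.bind (fun q => δ q p)) μ0).toOuterMeasure
                {q | T ≤ out q ∧ out q ≤ c * T} := by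
  obtain ⟨N, hN⟩ : ∃ N : ℕ, N = 10 ^ 6 := ⟨_, rfl⟩
  obtain ⟨C, k, hCk⟩ := hSIZE N (by omega)
  refine ⟨2 - 1 / (8 * 10 ^ 28), by norm_num, C, k, ?_⟩
  intro Δ hΔ1
  obtain ⟨L, hLdef⟩ : ∃ L : ℕ, L = Nat.log 2 Δ + 12 := ⟨_, rfl⟩
  obtain ⟨β, hβdef⟩ : ∃ β : ℕ, β = 10 ^ 20 * L := ⟨_, rfl⟩
  obtain ⟨J, hJdef⟩ : ∃ J : ℕ, J = 2 * N * (L + 2) * β := ⟨_, rfl⟩
  have hL7 : 7 ≤ L := by omega
  have hβ2 : 2 ≤ β := by
    rw [hβdef]
    have : 1 ≤ L := by omega
    nlinarith
  have hΔb : 2 * Δ ≤ β ^ (N * (L - 6)) := by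
    have h1 : Δ < 2 ^ (Nat.log 2 Δ + 1) := Nat.lt_pow_succ_log_self (by norm_num) Δ
    have h2 : Nat.log 2 Δ + 2 ≤ N * (L - 6) := by
      have h3 : Nat.log 2 Δ + 2 ≤ L - 6 := by omega
      exact le_trans h3 (Nat.le_mul_of_pos_left _ (by omega))
    calc 2 * Δ ≤ 2 * 2 ^ (Nat.log 2 Δ + 1) := by omega
      _ = 2 ^ (Nat.log 2 Δ + 2) := by ring
      _ ≤ 2 ^ (N * (L - 6)) := Nat.pow_le_pow_right (by norm_num) h2
      _ ≤ β ^ (N * (L - 6)) := Nat.pow_le_pow_left hβ2 _
  obtain ⟨Ns, μ0, δ, out, h1, h2⟩ := core hGUS hSAMP hWST hSOUND hMT hEUL hMSTr hNEW hAUT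
    β N L Δ (β ^ (5 * N)) (β ^ (N * (L + 1))) (2 * β ^ (N * (L + 1))) J (β ^ (2 * N))
    (β ^ (60 * N)) (β ^ (64 * N)) (β ^ (164 * N)) rfl rfl rfl hJdef rfl rfl rfl rfl
    (by omega) hL7 (by omega) hΔb
  refine ⟨Ns, μ0, δ, out, le_trans h1 (hCk Δ L β J hΔ1 hLdef hβdef hJdef), ?_⟩
  intro l hnd hrng T hT
  have hT' : T = optT l := hT
  rw [hT']
  exact h2 l hnd (fun p hp => ⟨(hrng p hp).2.1, (hrng p hp).2.2.2⟩)

end Pool.Agent.H660R3.TS
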