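import Pool.Agent.H660R3.TS.Stubs2

/-!
# AUT: the automaton
-/

set_option autoImplicit false

open scoped Classical

namespace Pool.Agent.H660R3.TS

namespace AUT

/-- possible sketch contents -/
noncomputable def TT (Kb cap : ℕ) : Finset (Finset Pt) :=
  ((Finset.range Kb ×ˢ Finset.range Kb).powerset).filter (fun F => F.card ≤ cap)

theorem mem_TT (Kb cap : ℕ) (F : Finset Pt) :
    F ∈ TT Kb cap ↔ (∀ y ∈ F, y.1 < Kb ∧ y.2 < Kb) ∧ F.card ≤ cap := by
  unfold TT
  rw [Finset.mem_filter, Finset.mem_powerset]
  constructor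
  · rintro ⟨h1, h2⟩
    refine ⟨fun y hy => ?_, h2⟩
    have := h1 hy
    simpa using this
  · rintro ⟨h1, h2⟩
    refine ⟨fun y hy => ?_, h2⟩
    have := h1 y hy
    simpa using this

/-- decoding of a list of optional keys -/
noncomputable def dec (Kb cap : ℕ) (f : Fin cap → Option (Fin (Kb ^ 2))) (g : Fin (Kb ^ 2) → Pt) : Finset Pt :=
  ((Finset.univ.image f).eraseNone).image g

theorem card_TT (Kb cap : ℕ) : (TT Kb cap).card ≤ (Kb ^ 2 + 1) ^ cap := by
  set G : Finset Pt := Finset.range Kb ×ˢ Finset.range Kb with hG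
  have hGc : G.card = Kb ^ 2 := by
    rw [hG, Finset.card_product, Finset.card_range]; ring
  have hsub : TT Kb cap ⊆ (Finset.univ : Finset (Fin cap → Option {x // x ∈ G})).image
      (fun f => ((Finset.univ.image f).eraseNone).image Subtype.val) := by
    intro F hF
    have hF2 := hF
    unfold TT at hF
    rw [Finset.mem_filter, Finset.mem_powerset] at hF
    obtain ⟨h1, h2⟩ := hF
    rw [Finset.mem_image]
    let e : Fin F.card ≃ {x // x ∈ F} := F.equivFin.symm
    refine ⟨fun i => if h : (i : ℕ) < F.card then some ⟨(e ⟨i, h⟩ : Pt), h1 (e ⟨i, h⟩).2⟩ else none,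
      Finset.mem_univ _, ?_⟩
    ext y
    rw [Finset.mem_image]
    constructor
    · rintro ⟨z, hz, rfl⟩
      rw [Finset.mem_eraseNone, Finset.mem_image] at hz
      obtain ⟨i, _, hi⟩ := hz
      split_ifs at hi with h
      simp only [Option.some.injEq] at hi
      rw [← hi]
      exact (e ⟨i, h⟩).2
    · intro hy
      let k := e.symm ⟨y, hy⟩
      have hk : (k : ℕ) < cap := lt_of_lt_of_le k.2 h2
      refine ⟨⟨y, h1 hy⟩, ?_, rfl⟩
      rw [Finset.mem_eraseNone, Finset.mem_image]
      refine ⟨⟨k, hk⟩, Finset.mem_univ _, ?_⟩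
      have h3 : ((⟨k, hk⟩ : Fin cap) : ℕ) < F.card := k.2
      rw [dif_pos h3]
      congr 1
      apply Subtype.ext
      simp only
      have : e ⟨(k : ℕ), k.2⟩ = ⟨y, hy⟩ := by
        show e k = _
        exact e.apply_symm_apply _
      rw [this]
  refine le_trans (Finset.card_le_card hsub) (le_trans Finset.card_image_le ?_)
  rw [Finset.card_univ, Fintype.card_fun, Fintype.card_option, Fintype.card_coe, hGc, Fintype.card_fin]

theorem keys_insert (κ : Pt → Option Pt) (p : Pt) (X : Finset Pt) :
    ((insert p X).image κ).eraseNone =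
      match κ p with
      | none => (X.image κ).eraseNone
      | some y => insert y (X.image κ).eraseNone := by
  cases h : κ p with
  | none =>
    ext z
    simp only [Finset.mem_eraseNone, Finset.mem_image, Finset.mem_insert]
    constructor
    · rintro ⟨x, hx, hz⟩
      rcases hx with rfl | hx
      · rw [h] at hz; cases hz
      · exact ⟨x, hx, hz⟩
    · rintro ⟨x, hx, hz⟩
      exact ⟨x, Or.inr hx, hz⟩
  | some y =>
    ext z
    simp only [Finset.mem_eraseNone, Finset.mem_image, Finset.mem_insert]
    constructor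
    · rintro ⟨x, hx, hz⟩
      rcases hx with rfl | hx
      · rw [h] at hz
        left
        simpa using hz.symm
      · exact Or.inr ⟨x, hx, hz⟩
    · rintro (rfl | ⟨x, hx, hz⟩)
      · exact ⟨p, Or.inl rfl, h⟩
      · exact ⟨x, Or.inr hx, hz⟩

/-- one step of a sketch -/
noncomputable def stp (cap : ℕ) (F : Option (Finset Pt)) (k : Option Pt) : Option (Finset Pt) :=
  match F, k with
  | none, _ => none
  | some F, none => some F
  | some F, some y => if (insert y F).card ≤ cap then some (insert y F) else none

theorem skt_insert (κ : Pt → Option Pt) (cap : ℕ) (p : Pt) (X : Finset Pt) :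
    skt κ cap (insert p X) = stp cap (skt κ cap X) (κ p) := by
  unfold skt
  rw [keys_insert]
  cases h : κ p with
  | none =>
    simp only
    split_ifs with h1
    · rfl
    · rfl
  | some y =>
    simp only
    by_cases h1 : (X.image κ).eraseNone.card ≤ cap
    · rw [if_pos h1]
      rfl
    · rw [if_neg h1, if_neg]
      · rfl
      · intro h2
        apply h1
        exact le_trans (Finset.card_le_card (Finset.subset_insert _ _)) h2

theorem skt_empty (κ : Pt → Option Pt) (cap : ℕ) : skt κ cap ∅ = some ∅ := by
  unfold skt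
  simp

section
variable (ns : ℕ) (I : Type) (cap Kb : ℕ)

/-- states -/
abbrev QQ := Fin ns × (I → Option {F : Finset Pt // F ∈ TT Kb cap})

variable {ns I cap Kb}

/-- the sketches of a state -/
def vl (q : QQ ns I cap Kb) (i : I) : Option (Finset Pt) := (q.2 i).map Subtype.val

/-- conversion of a sketch -/
noncomputable def cv (F : Option (Finset Pt)) : Option {F : Finset Pt // F ∈ TT Kb cap} :=
  match F with
  | none => none
  | some F => if h : F ∈ TT Kb cap then some ⟨F, h⟩ else none

variable (κ : Fin ns → I → Pt → Option Pt)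

/-- update -/
noncomputable def upd (q : QQ ns I cap Kb) (p : Pt) : QQ ns I cap Kb :=
  (q.1, fun i => cv (stp cap (vl q i) (κ q.1 i p)))

theorem vl_upd (hκ : ∀ s i x y, κ s i x = some y → y.1 < Kb ∧ y.2 < Kb) (q : QQ ns I cap Kb)
    (p : Pt) (i : I) : vl (upd κ q p) i = stp cap (vl q i) (κ q.1 i p) := by
  show Option.map Subtype.val (cv (stp cap ((q.2 i).map Subtype.val) (κ q.1 i p)) :
      Option {F : Finset Pt // F ∈ TT Kb cap}) = stp cap ((q.2 i).map Subtype.val) (κ q.1 i p)
  cases h1 : q.2 i with
  | none => rfl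
  | some F =>
    cases h2 : κ q.1 i p with
    | none =>
      show Option.map Subtype.val (cv (some F.1) : Option {F : Finset Pt // F ∈ TT Kb cap}) = some F.1
      unfold cv
      simp only
      rw [dif_pos F.2]
      rfl
    | some y =>
      show Option.map Subtype.val (cv (stp cap (some F.1) (some y)) :
        Option {F : Finset Pt // F ∈ TT Kb cap}) = stp cap (some F.1) (some y)
      unfold stp
      simp only
      split_ifs with h3
      · unfold cv
        simp only
        rw [dif_pos]
        · rfl
        · rw [mem_TT]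
          refine ⟨?_, h3⟩
          intro z hz
          rcases Finset.mem_insert.1 hz with rfl | hz
          · exact hκ _ _ _ _ h2
          · exact ((mem_TT _ _ _).1 F.2).1 z hz
      · rfl

theorem upd_fst (q : QQ ns I cap Kb) (p : Pt) : (upd κ q p).1 = q.1 := rfl

theorem foldl_fst (l : List Pt) (q : QQ ns I cap Kb) : (l.foldl (upd κ) q).1 = q.1 := by
  induction l generalizing q with
  | nil => rfl
  | cons a l ih => rw [List.foldl_cons, ih, upd_fst]

theorem vl_foldl (hκ : ∀ s i x y, κ s i x = some y → y.1 < Kb ∧ y.2 < Kb) (l : List Pt)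
    (q : QQ ns I cap Kb) (X : Finset Pt) (hq : ∀ i, vl q i = skt (κ q.1 i) cap X) (i : I) :
    vl (l.foldl (upd κ) q) i = skt (κ q.1 i) cap (X ∪ l.toFinset) := by
  induction l generalizing q X with
  | nil => simpa using hq i
  | cons a l ih =>
    rw [List.foldl_cons, ih (upd κ q a) (insert a X)]
    · rw [upd_fst, List.toFinset_cons]
      congr 1
      ext z
      simp only [Finset.mem_union, Finset.mem_insert]
      tauto
    · intro j
      rw [vl_upd κ hκ, hq j, upd_fst, skt_insert]

theorem foldl_map {Ω Q : Type} (U : PMF Ω) (f : Q → Pt → Q) (l : List Pt) (g : Ω → Q) :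
    l.foldl (fun μ p => μ.bind (fun q => PMF.pure (f q p))) (PMF.map g U) =
      PMF.map (fun ω => l.foldl f (g ω)) U := by
  induction l generalizing g with
  | nil => rfl
  | cons a l ih =>
    rw [List.foldl_cons]
    have : (PMF.map g U).bind (fun q => PMF.pure (f q a)) = PMF.map (fun ω => f (g ω) a) U := by
      have h1 := PMF.map_comp g U (fun q => f q a)
      rw [PMF.map] at h1
      exact h1
    rw [this, ih]
    rfl

end

end AUT

open AUT in
theorem t_AUT : St_AUT := by
  intro ns I _ κ cap Kb est hns hκ
  have : Nonempty (Fin ns) := ⟨⟨0, hns⟩⟩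
  let e : QQ ns I cap Kb ≃ Fin (Fintype.card (QQ ns I cap Kb)) := Fintype.equivFin _
  have h0 : (∅ : Finset Pt) ∈ TT Kb cap := by
    rw [mem_TT]
    simp
  let g0 : Fin ns → QQ ns I cap Kb := fun s => (s, fun _ => some ⟨∅, h0⟩)
  refine ⟨Fintype.card (QQ ns I cap Kb), PMF.map (fun s => e (g0 s)) (PMF.uniformOfFintype (Fin ns)),
    fun q p => PMF.pure (e (upd κ (e.symm q) p)), fun q => est (e.symm q).1 (vl (e.symm q)), ?_, ?_⟩
  · rw [Fintype.card_prod, Fintype.card_fin, Fintype.card_fun, Fintype.card_option, Fintype.card_coe]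
    exact Nat.mul_le_mul_left _ (Nat.pow_le_pow_left (Nat.add_le_add_right (card_TT Kb cap) 1) _)
  · intro l A b hb
    have h1 := foldl_map (PMF.uniformOfFintype (Fin ns)) (fun q p => e (upd κ (e.symm q) p)) l
      (fun s => e (g0 s))
    have h2 : ∀ (l : List Pt) (q : QQ ns I cap Kb),
        l.foldl (fun q p => e (upd κ (e.symm q) p)) (e q) = e (l.foldl (upd κ) q) := by
      intro l
      induction l with
      | nil => intro q; rfl
      | cons a l ih => intro q; rw [List.foldl_cons, List.foldl_cons, e.symm_apply_apply, ih]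
    rw [h1, PMF.toOuterMeasure_map_apply, PMF.toOuterMeasure_uniformOfFintype_apply]
    rw [Fintype.card_fin]
    apply ENNReal.div_le_div_right
    have h3 : Fintype.card ((fun ω => List.foldl (fun q p => e (upd κ (e.symm q) p)) (e (g0 ω)) l) ⁻¹'
        {q | est (e.symm q).1 (vl (e.symm q)) ∈ A}) =
        (Finset.univ.filter (fun s => est s (fun i => skt (κ s i) cap l.toFinset) ∈ A)).card := by
      rw [← Fintype.card_subtype]
      apply Fintype.card_congr
      apply Equiv.subtypeEquivRight
      intro s
      rw [Set.mem_preimage, Set.mem_ofPred_eq, h2, e.symm_apply_apply, foldl_fst]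
      have h4 : vl (l.foldl (upd κ) (g0 s)) = fun i => skt (κ s i) cap l.toFinset := by
        funext i
        have := vl_foldl κ hκ l (g0 s) ∅ (fun i => by rw [skt_empty]; rfl) i
        rw [this, Finset.empty_union]
      rw [h4]
    rw [h3]
    exact_mod_cast hb

end Pool.Agent.H660R3.TS
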