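import Pool.Agent.H660R3.TS.Stubs2

/-!
# Average over scale and shift (task AVG)
-/

set_option autoImplicit false

open scoped Classical

namespace Pool.Agent.H660R3.TS

namespace AVG

section strand

variable {V : Type} {loc : V → ℂ} {Mn : ℝ} (S : Strand loc Mn)

theorem len_eq {j : ℕ} : S.len j = ‖loc (S.z (j + 1)) - loc (S.z j)‖ := rfl

theorem t_lower (hM : 0 ≤ Mn) : ∀ j ≤ S.n, Mn * j ≤ S.t j := by
  intro j
  induction j with
  | zero => intro _; simp [S.t_zero]
  | succ j ih =>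
    intro hj
    rw [S.t_succ j (by omega)]
    have h1 := ih (by omega)
    have h2 := S.edge_long j (by omega)
    push_cast
    linarith

theorem t_mono (hM : 0 ≤ Mn) : ∀ i ≤ S.n, ∀ j ≤ i, S.t j ≤ S.t i := by
  intro i
  induction i with
  | zero => intro _ j hj; rw [Nat.le_zero.1 hj]
  | succ i ih =>
    intro hi j hj
    rcases Nat.le_succ_iff.1 hj with h | h
    · rw [S.t_succ i (by omega)]
      have h1 := ih (by omega) j h
      have h2 := S.edge_long i (by omega)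
      linarith
    · rw [h]

theorem t_nonneg (hM : 0 ≤ Mn) {j : ℕ} (hj : j ≤ S.n) : 0 ≤ S.t j := by
  have := t_lower S hM j hj
  have h2 : 0 ≤ Mn * j := by positivity
  linarith

theorem dg_nonneg (j : ℕ) : 0 ≤ S.dg j := by
  unfold Strand.dg Strand.len Strand.f
  have : loc (S.z (j + 1)) - loc (S.z 0) =
      (loc (S.z (j + 1)) - loc (S.z j)) + (loc (S.z j) - loc (S.z 0)) := by ring
  have h := norm_add_le (loc (S.z (j + 1)) - loc (S.z j)) (loc (S.z j) - loc (S.z 0))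
  rw [← this] at h
  linarith

theorem f_eq : ∀ i ≤ S.n, S.f i = S.t i - ∑ j ∈ Finset.range i, S.dg j := by
  intro i
  induction i with
  | zero =>
    intro _
    simp [Strand.f, S.t_zero]
  | succ i ih =>
    intro hi
    rw [Finset.sum_range_succ, S.t_succ i (by omega)]
    have h1 := ih (by omega)
    have h2 : S.dg i = S.len i - (S.f (i + 1) - S.f i) := rfl
    have h3 : S.len i = ‖loc (S.z (i + 1)) - loc (S.z i)‖ := rfl
    rw [h3] at h2
    linarith

theorem sum_dg_le_mu (hM : 0 ≤ Mn) {i : ℕ} (hi : i < S.n) {B : ℝ} (hB : S.t i ≤ B) :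
    ∑ j ∈ Finset.range (i + 1), S.dg j ≤ S.mu 0 B := by
  unfold Strand.mu
  have hnn : ∀ j ∈ Finset.range S.n, 0 ≤
      ((S.bs j + S.dg j) * ((if (0:ℝ) ≤ S.t j ∧ S.t j ≤ B then (1:ℝ) else 0)
        + (if (0:ℝ) ≤ S.t (j + 1) ∧ S.t (j + 1) ≤ B then (1:ℝ) else 0))
      + S.bet j * (if (0:ℝ) ≤ S.t j ∧ S.t j ≤ B then (1:ℝ) else 0)) := by
    intro j hj
    have hj' := Finset.mem_range.1 hj
    have h1 : 0 ≤ S.bs j := sub_nonneg.2 (S.ys_le j hj')
    have h2 := dg_nonneg S j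
    have h3 := S.bet_nonneg j hj'
    have h4 : (0:ℝ) ≤ (if (0:ℝ) ≤ S.t j ∧ S.t j ≤ B then (1:ℝ) else 0) := by split_ifs <;> norm_num
    have h5 : (0:ℝ) ≤ (if (0:ℝ) ≤ S.t (j + 1) ∧ S.t (j + 1) ≤ B then (1:ℝ) else 0) := by
      split_ifs <;> norm_num
    positivity
  have hsub : Finset.range (i + 1) ⊆ Finset.range S.n := by
    intro j hj
    rw [Finset.mem_range] at hj ⊢
    omega
  refine le_trans (Finset.sum_le_sum fun j hj => ?_)
    (Finset.sum_le_sum_of_subset_of_nonneg hsub fun j hj _ => hnn j hj)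
  have hj' : j ≤ i := by rw [Finset.mem_range] at hj; omega
  have h1 : 0 ≤ S.bs j := sub_nonneg.2 (S.ys_le j (by omega))
  have h2 := dg_nonneg S j
  have h3 := S.bet_nonneg j (by omega)
  have h6 : (0:ℝ) ≤ S.t j ∧ S.t j ≤ B :=
    ⟨t_nonneg S hM (by omega), (t_mono S hM i hi.le j hj').trans hB⟩
  have h5 : (0:ℝ) ≤ (if (0:ℝ) ≤ S.t (j + 1) ∧ S.t (j + 1) ≤ B then (1:ℝ) else 0) := by
    split_ifs <;> norm_num
  rw [if_pos h6]
  have h7 : 0 ≤ (S.bs j + S.dg j) *
      (if (0:ℝ) ≤ S.t (j + 1) ∧ S.t (j + 1) ≤ B then (1:ℝ) else 0) := by positivity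
  nlinarith

/-- radial progress from the tip to a fine location -/
theorem radial (hM : 0 < Mn) {lam G del τ : ℝ} {i : ℕ} (hF : S.Fine lam G del i τ) (hG : 0 ≤ G) :
    τ - lam * max τ G ≤ ‖S.X i τ - loc (S.z 0)‖ := by
  have hi := hF.hi
  have ht0 : 0 ≤ S.t i := t_nonneg S hM.le hi.le
  have hτ0 : 0 ≤ τ := ht0.trans hF.lo
  have hgood := hF.good 0 (max τ G) hτ0 (le_max_left _ _) (by rw [sub_zero]; exact le_max_right _ _)
  rw [sub_zero] at hgood
  have h1 := sum_dg_le_mu S hM.le hi (hF.lo.trans (le_max_left τ G))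
  rw [Finset.sum_range_succ] at h1
  have h2 := f_eq S i hi.le
  have h3 : S.dg i = S.len i - (S.f (i + 1) - S.f i) := rfl
  have hlen : 0 < S.len i := lt_of_lt_of_le hM (S.edge_long i hi)
  have h4 : S.t (i + 1) = S.t i + S.len i := S.t_succ i hi
  have hup := hF.up
  -- the distance from `X` to the end of the edge
  have h5 : loc (S.z (i + 1)) - S.X i τ =
      ((1 - (τ - S.t i) / S.len i : ℝ) : ℂ) * (loc (S.z (i + 1)) - loc (S.z i)) := by
    unfold Strand.X
    push_cast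
    ring
  have h6 : ‖loc (S.z (i + 1)) - S.X i τ‖ = S.len i - (τ - S.t i) := by
    rw [h5, norm_mul, Complex.norm_real, Real.norm_eq_abs, abs_of_nonneg]
    · have h7 : ‖loc (S.z (i + 1)) - loc (S.z i)‖ = S.len i := rfl
      rw [h7]
      field_simp
    · rw [sub_nonneg, div_le_one hlen]
      linarith
  have h8 : S.f (i + 1) ≤ ‖S.X i τ - loc (S.z 0)‖ + ‖loc (S.z (i + 1)) - S.X i τ‖ := by
    unfold Strand.f
    have : loc (S.z (i + 1)) - loc (S.z 0) =
        (S.X i τ - loc (S.z 0)) + (loc (S.z (i + 1)) - S.X i τ) := by ring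
    rw [this]
    exact norm_add_le _ _
  rw [h6] at h8
  linarith

theorem X_bound {lam G del τ R : ℝ} (hM : 0 < Mn) {i : ℕ} (hF : S.Fine lam G del i τ) (c : ℂ)
    (h1 : ‖loc (S.z i) - c‖ ≤ R) (h2 : ‖loc (S.z (i + 1)) - c‖ ≤ R) : ‖S.X i τ - c‖ ≤ R := by
  have hi := hF.hi
  have hlen : 0 < S.len i := lt_of_lt_of_le hM (S.edge_long i hi)
  have h4 : S.t (i + 1) = S.t i + S.len i := S.t_succ i hi
  have hup := hF.up
  have hlo := hF.lo
  set θ : ℝ := (τ - S.t i) / S.len i with hθ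
  have hθ0 : 0 ≤ θ := div_nonneg (by linarith) hlen.le
  have hθ1 : θ ≤ 1 := by rw [hθ, div_le_one hlen]; linarith
  have h5 : S.X i τ - c = ((1 - θ : ℝ) : ℂ) * (loc (S.z i) - c) +
      ((θ : ℝ) : ℂ) * (loc (S.z (i + 1)) - c) := by
    unfold Strand.X
    rw [← hθ]
    push_cast
    ring
  rw [h5]
  refine (norm_add_le _ _).trans ?_
  rw [norm_mul, norm_mul, Complex.norm_real, Complex.norm_real, Real.norm_eq_abs, Real.norm_eq_abs,
    abs_of_nonneg hθ0, abs_of_nonneg (by linarith : 0 ≤ 1 - θ)]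
  nlinarith

end strand

theorem loc_dist (M Δ : ℕ) (P : Finset Pt) (hP : ∀ x ∈ P, x.1 ≤ Δ ∧ x.2 ≤ Δ) (v w : {x // x ∈ P}) :
    ‖locM M P v - locM M P w‖ ≤ (2 * Δ * M : ℕ) := by
  refine (Complex.norm_le_abs_re_add_abs_im _).trans ?_
  have hv := hP v.1 v.2
  have hw := hP w.1 w.2
  have e1 : (locM M P v - locM M P w).re = (M:ℝ) * ((v.1.1 : ℝ) - w.1.1) := by
    simp [locM, pt, sh]; ring
  have e2 : (locM M P v - locM M P w).im = (M:ℝ) * ((v.1.2 : ℝ) - w.1.2) := by
    simp [locM, pt, sh]; ring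
  have b : ∀ a b : ℕ, a ≤ Δ → b ≤ Δ → |(M:ℝ) * ((a : ℝ) - b)| ≤ M * Δ := by
    intro a b ha hb
    rw [abs_mul, abs_of_nonneg (Nat.cast_nonneg M)]
    refine mul_le_mul_of_nonneg_left ?_ (Nat.cast_nonneg M)
    rw [abs_le]
    have h1 : (a:ℝ) ≤ Δ := by exact_mod_cast ha
    have h2 : (b:ℝ) ≤ Δ := by exact_mod_cast hb
    have h3 : (0:ℝ) ≤ a := Nat.cast_nonneg a
    have h4 : (0:ℝ) ≤ b := Nat.cast_nonneg b
    constructor <;> linarith
  rw [e1, e2]
  have h1 := b _ _ hv.1 hw.1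
  have h2 := b _ _ hv.2 hw.2
  push_cast
  linarith

/-- counting pairs -/
theorem card_pairs {V : Type} (K : Finset V) (BIG : ℕ) (c : V → ℕ) (hc : ∀ k ∈ K, c k ≤ BIG)
    (Q : V → ℕ → Prop) :
    ((K ×ˢ Finset.range BIG).filter (fun p => p.2 < c p.1 ∧ Q p.1 p.2)).card =
      ∑ k ∈ K, ((Finset.range (c k)).filter (fun n => Q k n)).card := by
  rw [Finset.card_filter, Finset.sum_product]
  refine Finset.sum_congr rfl fun k hk => ?_
  rw [← Finset.card_filter]
  congr 1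
  ext n
  simp only [Finset.mem_filter, Finset.mem_range]
  have := hc k hk
  constructor
  · rintro ⟨h1, h2, h3⟩; exact ⟨h2, h3⟩
  · rintro ⟨h1, h2⟩; exact ⟨by omega, h1, h2⟩

theorem do_eq (s : Finset ℕ) : (do let a ← s; pure (a:ℝ) : Finset ℝ) =
    s.image (fun a : ℕ => (a:ℝ)) := by
  ext x
  change x ∈ s.sup (fun a : ℕ => (pure (a:ℝ) : Finset ℝ)) ↔ _
  rw [Finset.mem_sup]
  simp only [Finset.pure_def, Finset.mem_singleton, Finset.mem_image]
  constructor
  · rintro ⟨a, ha, rfl⟩; exact ⟨a, ha, rfl⟩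
  · rintro ⟨a, ha, rfl⟩; exact ⟨a, ha, rfl⟩

theorem do_card (s : Finset ℕ) (Q : ℝ → Prop) [DecidablePred Q] :
    ((do let a ← s; pure (a:ℝ) : Finset ℝ).filter Q).card =
      (s.filter (fun n : ℕ => Q (n:ℝ))).card := by
  rw [do_eq, Finset.filter_image, Finset.card_image_of_injective _ Nat.cast_injective]

/-- the pair is counted for the choice `(u, s)` -/
def Gd (β N L M : ℕ) {P : Finset Pt} (S : {x // x ∈ P} → Strand (locM M P) (M : ℝ)) (lam : ℝ)
    (u : ℕ) (s : Pt) (k : {x // x ∈ P}) (n' : ℕ) : Prop :=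
  ∃ m ∈ Finset.Icc 3 L, ∃ i, OkI β N u m M s S lam k n' i

/-- not fine -/
def NF (β M : ℕ) {P : Finset Pt} (S : {x // x ∈ P} → Strand (locM M P) (M : ℝ)) (lam del : ℝ)
    (k : {x // x ∈ P}) (n' : ℕ) : Prop :=
  ¬ ∃ i, (S k).Fine lam β del i ((β:ℝ) * n')

/-- near the tip -/
def NB (β N : ℕ) (n' : ℕ) : Prop := n' < 3 * β ^ (4 * N + 1)

/-- the bad choices for one far fine location -/
theorem bad_count (h2 : St_BLK) (h3 : St_INN) {P : Finset Pt} {β N L M SM : ℕ}
    {S : {x // x ∈ P} → Strand (locM M P) (M : ℝ)} (hSM : SM = β ^ (N * (L + 1)))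
    (hN : 10 ^ 6 ≤ N) (hL : 7 ≤ L) (hβ : 10 ≤ β) (lam : ℝ) (k : {x // x ∈ P}) (n' i : ℕ)
    (hF : (S k).Fine lam β (1 / (β : ℝ) ^ 6) i ((β : ℝ) * n'))
    (hf1 : (β : ℝ) ^ (4 * N + 2) ≤ ‖(S k).X i ((β : ℝ) * n') - locM M P k‖)
    (hf2 : ‖(S k).X i ((β : ℝ) * n') - locM M P k‖ ≤ (β : ℝ) ^ (N * (L - 1))) :
    ∑ u ∈ Finset.range N, ∑ s ∈ Finset.range SM ×ˢ Finset.range SM,
      (if Gd β N L M S lam u s k n' then (0:ℝ) else 1) ≤
      (16 + 10 * N / β) * (SM : ℝ) ^ 2 := by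
  have hβ0 : (0:ℝ) < β := by
    have : (10:ℝ) ≤ β := by exact_mod_cast hβ
    linarith
  have hblk := h2 β N L _ (by omega) (by omega) (by omega) hf1 hf2
  set f := ‖(S k).X i ((β : ℝ) * n') - locM M P k‖ with hf
  set Bd := (Finset.range N).filter (fun u => ¬ ∃ m ∈ Finset.Icc 3 L,
      4 * β * (DD β N u (m - 1) : ℝ) ≤ f ∧ 4 * (β : ℝ) ^ 10 * f ≤ DD β N u m) with hBd
  have hone : ∀ u ∈ Finset.range N, ∑ s ∈ Finset.range SM ×ˢ Finset.range SM,
      (if Gd β N L M S lam u s k n' then (0:ℝ) else 1) ≤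
      (if u ∈ Bd then (SM:ℝ) ^ 2 else 0) + 10 / β * (SM:ℝ) ^ 2 := by
    intro u hu
    by_cases hub : u ∈ Bd
    · rw [if_pos hub]
      have h4 : ∑ s ∈ Finset.range SM ×ˢ Finset.range SM,
          (if Gd β N L M S lam u s k n' then (0:ℝ) else 1) ≤
          ∑ s ∈ Finset.range SM ×ˢ Finset.range SM, (1:ℝ) :=
        Finset.sum_le_sum fun s _ => by split_ifs <;> norm_num
      rw [Finset.sum_const, Finset.card_product, Finset.card_range, nsmul_eq_mul, mul_one] at h4
      have h5 : (0:ℝ) ≤ 10 / β * (SM:ℝ) ^ 2 := by positivity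
      push_cast at h4
      nlinarith
    · rw [if_neg hub, zero_add]
      have hub' : ∃ m ∈ Finset.Icc 3 L,
          4 * β * (DD β N u (m - 1) : ℝ) ≤ f ∧ 4 * (β : ℝ) ^ 10 * f ≤ DD β N u m := by
        by_contra hcon
        exact hub (Finset.mem_filter.2 ⟨hu, hcon⟩)
      obtain ⟨m, hm, hm1, hm2⟩ := hub'
      obtain ⟨hm3, hmL⟩ := Finset.mem_Icc.1 hm
      have hu' := Finset.mem_range.1 hu
      have hdiv : DD β N u m ∣ SM := by
        rw [hSM]
        unfold DD
        refine pow_dvd_pow β ?_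
        have : N * m ≤ N * L := Nat.mul_le_mul_left N hmL
        rw [Nat.mul_add, Nat.mul_one]
        omega
      have hdiv2 : DD β N u (m - 2) ∣ DD β N u m := by
        unfold DD
        refine pow_dvd_pow β ?_
        have : N * (m - 2) ≤ N * m := Nat.mul_le_mul_left N (by omega)
        omega
      have hle : DD β N u (m - 2) * β ≤ DD β N u m := by
        unfold DD
        rw [← pow_succ]
        refine Nat.pow_le_pow_right (by omega) ?_
        have : N * m = N * (m - 2) + N * 2 := by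
          rw [← Nat.mul_add]; congr 1; omega
        omega
      have hinn := h3 β M (DD β N u m) (DD β N u (m - 2)) SM k hβ
        (by unfold DD; positivity) hdiv2 hle hdiv
      have h4 : ∑ s ∈ Finset.range SM ×ˢ Finset.range SM,
          (if Gd β N L M S lam u s k n' then (0:ℝ) else 1) ≤
          ∑ s ∈ Finset.range SM ×ˢ Finset.range SM,
            (if ¬ Inner β (DD β N u m) (bx (DD β N u m) (sh M s k))
              (rd (DD β N u (m - 2)) (sh M s k)) then (1:ℝ) else 0) := by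
        refine Finset.sum_le_sum fun s _ => ?_
        by_cases hin : Inner β (DD β N u m) (bx (DD β N u m) (sh M s k))
              (rd (DD β N u (m - 2)) (sh M s k))
        · rw [if_neg (not_not.2 hin), if_pos (show Gd β N L M S lam u s k n' from
            ⟨m, hm, i, hF, hm1, hm2, hin⟩)]
        · rw [if_pos hin]
          split_ifs <;> norm_num
      rw [← Finset.sum_filter, Finset.sum_const, nsmul_eq_mul, mul_one] at h4
      refine h4.trans ?_
      rw [div_mul_eq_mul_div, le_div_iff₀ hβ0]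
      exact hinn
  refine (Finset.sum_le_sum hone).trans ?_
  rw [Finset.sum_add_distrib, ← Finset.sum_filter, Finset.sum_const, Finset.sum_const,
    Finset.card_range, nsmul_eq_mul, nsmul_eq_mul]
  have h6 : ((Finset.range N).filter (fun u => u ∈ Bd)).card ≤ 16 := by
    refine le_trans (Finset.card_le_card ?_) hblk
    intro u hu
    exact (Finset.mem_filter.1 hu).2
  have h7 : (((Finset.range N).filter (fun u => u ∈ Bd)).card : ℝ) ≤ 16 := by exact_mod_cast h6
  have h8 : (0:ℝ) ≤ (SM:ℝ) ^ 2 := by positivity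
  calc (((Finset.range N).filter (fun u => u ∈ Bd)).card : ℝ) * (SM:ℝ) ^ 2 +
        N * (10 / β * (SM:ℝ) ^ 2)
      ≤ 16 * (SM:ℝ) ^ 2 + N * (10 / β * (SM:ℝ) ^ 2) := by
        have := mul_le_mul_of_nonneg_right h7 h8
        linarith
    _ = (16 + 10 * N / β) * (SM : ℝ) ^ 2 := by ring

end AVG

open AVG in
theorem t_AVG (h1 : St_BAD) (h2 : St_BLK) (h3 : St_INN) : St_AVG := by
  intro P T y β N L Δ M SM K S hM hSM hN hL hβ hP hΔ hT hdef
  have hβ20 : 10 ^ 20 ≤ β := by nlinarith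
  have hβ0 : 0 < β := by omega
  have hβr : (10:ℝ) ^ 20 ≤ β := by exact_mod_cast hβ20
  have hβr0 : (0:ℝ) < β := by linarith [show (0:ℝ) < 10 ^ 20 by norm_num]
  have hβr1 : (1:ℝ) ≤ β := by linarith [show (1:ℝ) ≤ 10 ^ 20 by norm_num]
  have hNr : (10:ℝ) ^ 6 ≤ N := by exact_mod_cast hN
  have hNr0 : (0:ℝ) < N := by linarith [show (0:ℝ) < 10 ^ 6 by norm_num]
  have hM0 : 0 < M := by rw [hM]; positivity
  have hMr0 : (0:ℝ) < M := by exact_mod_cast hM0
  -- `M` is large
  have hMbig : (β:ℝ) ^ (4 * N + 4) ≤ M := by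
    rw [hM]; push_cast
    exact pow_le_pow_right₀ hβr1 (by omega)
  set W : ℝ := M * mstW P with hW
  have htot : ∑ k ∈ K, (S k).t (S k).n = W := by rw [hT.sys.tot, ← hT.wsum]
  have hn : ∀ k ∈ K, (M:ℝ) * (S k).n ≤ (S k).t (S k).n := fun k _ =>
    t_lower (S k) hMr0.le _ le_rfl
  have hsumn : (M:ℝ) * ∑ k ∈ K, ((S k).n : ℝ) ≤ W := by
    rw [Finset.mul_sum, ← htot]
    exact Finset.sum_le_sum hn
  have hcardK : (M:ℝ) * K.card ≤ W := by
    refine le_trans ?_ hsumn
    refine mul_le_mul_of_nonneg_left ?_ hMr0.le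
    rw [← nsmul_one, ← Finset.sum_const]
    refine Finset.sum_le_sum fun k _ => ?_
    have := (S k).n_pos
    exact_mod_cast this
  have hW0 : 0 ≤ W := le_trans (by positivity) hcardK
  have hmu : ∑ k ∈ K, (S k).muTot ≤ 5 * (1 / 10 ^ 14 * W) := by
    refine hT.sys.mu.trans ?_
    exact mul_le_mul_of_nonneg_left hdef (by norm_num)
  -- the index set
  set c : {x // x ∈ P} → ℕ := fun k => ⌈(S k).t (S k).n / (β:ℝ)⌉₊ with hc
  set BIG : ℕ := ∑ k ∈ K, c k with hBIG
  have hcB : ∀ k ∈ K, c k ≤ BIG := fun k hk =>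
    Finset.single_le_sum (f := c) (fun _ _ => Nat.zero_le _) hk
  set U := (K ×ˢ Finset.range BIG).filter (fun p => p.2 < c p.1) with hU
  have hcardU : (U.card : ℝ) = ∑ k ∈ K, (c k : ℝ) := by
    have := card_pairs K BIG c hcB (fun _ _ => True)
    simp only [and_true, Finset.filter_true, Finset.card_range] at this
    rw [hU, this]
    push_cast
    rfl
  have ht0 : ∀ k ∈ K, 0 ≤ (S k).t (S k).n := fun k _ => t_nonneg (S k) hMr0.le le_rfl
  have hβU1 : W ≤ β * U.card := by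
    rw [hcardU, Finset.mul_sum, ← htot]
    refine Finset.sum_le_sum fun k _ => ?_
    have := Nat.le_ceil ((S k).t (S k).n / (β:ℝ))
    rw [div_le_iff₀ hβr0] at this
    rw [mul_comm]
    exact this
  have hβU2 : β * (U.card : ℝ) ≤ W + β * K.card := by
    rw [hcardU, Finset.mul_sum, ← htot]
    have : ∑ k ∈ K, (S k).t (S k).n + (β:ℝ) * K.card = ∑ k ∈ K, ((S k).t (S k).n + β) := by
      rw [Finset.sum_add_distrib, Finset.sum_const, nsmul_eq_mul]; ring
    rw [this]
    refine Finset.sum_le_sum fun k hk => ?_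
    have h4 : (c k : ℝ) < (S k).t (S k).n / β + 1 :=
      Nat.ceil_lt_add_one (div_nonneg (ht0 k hk) hβr0.le)
    have h5 := mul_lt_mul_of_pos_left h4 hβr0
    have h6 : (β:ℝ) * ((S k).t (S k).n / β + 1) = (S k).t (S k).n + β := by field_simp
    linarith
  -- small quantities
  have hinv : ∀ x : ℝ, (M:ℝ) * x ≤ W → (β:ℝ) ^ (4 * N + 2) * x ≤ W / β ^ 2 := by
    intro x hx
    rw [le_div_iff₀ (by positivity)]
    rcases le_or_gt 0 x with hx0 | hx0
    · calc (β:ℝ) ^ (4 * N + 2) * x * β ^ 2 = (β:ℝ) ^ (4 * N + 4) * x := by ring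
        _ ≤ M * x := mul_le_mul_of_nonneg_right hMbig hx0
        _ ≤ W := hx
    · have : (β:ℝ) ^ (4 * N + 2) * x * β ^ 2 ≤ 0 := by
        have : 0 < (β:ℝ) ^ (4 * N + 2) * β ^ 2 := by positivity
        nlinarith
      linarith
  have hWβ : W / β ^ 2 ≤ 1 / 10 ^ 8 * W := by
    rw [div_eq_mul_inv, mul_comm]
    refine mul_le_mul_of_nonneg_right ?_ hW0
    rw [inv_eq_one_div]
    refine one_div_le_one_div_of_le (by norm_num) ?_
    have h4 : (10:ℝ) ^ 8 ≤ 10 ^ 20 := by norm_num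
    have h5 : (β:ℝ) ≤ (β:ℝ) ^ 2 := by nlinarith
    linarith
  have hpow1 : (β:ℝ) ≤ (β:ℝ) ^ (4 * N + 2) := by
    calc (β:ℝ) = β ^ 1 := (pow_one _).symm
      _ ≤ _ := pow_le_pow_right₀ hβr1 (by omega)
  have hβK : (β:ℝ) * K.card ≤ 1 / 10 ^ 8 * W := by
    refine le_trans (mul_le_mul_of_nonneg_right hpow1 (Nat.cast_nonneg _)) ?_
    exact (hinv _ hcardK).trans hWβ
  have hβn : (β:ℝ) * ∑ k ∈ K, ((S k).n : ℝ) ≤ 1 / 10 ^ 8 * W := by
    refine le_trans (mul_le_mul_of_nonneg_right hpow1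
      (Finset.sum_nonneg fun _ _ => Nat.cast_nonneg _)) ?_
    exact (hinv _ hsumn).trans hWβ
  have hβK2 : (β:ℝ) * (3 * β ^ (4 * N + 1) * K.card) ≤ 3 / 10 ^ 8 * W := by
    have h4 := (hinv _ hcardK).trans hWβ
    have h5 : (β:ℝ) * (3 * β ^ (4 * N + 1) * K.card) = 3 * (β ^ (4 * N + 2) * K.card) := by ring
    rw [h5]
    linarith
  -- the two kinds of exceptional pairs
  set lam : ℝ := 1 / 10 ^ 6 with hlam
  set del : ℝ := 1 / (β:ℝ) ^ 6 with hdel
  clear_value lam
  have hdel1 : del ≤ 1 / 10 ^ 20 := by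
    rw [hdel]
    refine one_div_le_one_div_of_le (by norm_num) (hβr.trans ?_)
    calc (β:ℝ) = β ^ 1 := (pow_one _).symm
      _ ≤ β ^ 6 := pow_le_pow_right₀ hβr1 (by norm_num)
  have hdel0 : 0 < del := by positivity
  have hMβ : 1000 * (β:ℝ) ≤ M := by
    refine le_trans ?_ hMbig
    calc 1000 * (β:ℝ) ≤ β * β := mul_le_mul_of_nonneg_right
          (by linarith [show (1000:ℝ) ≤ 10 ^ 20 by norm_num]) hβr0.le
      _ = β ^ 2 := by ring
      _ ≤ _ := pow_le_pow_right₀ hβr1 (by omega)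
  have hcardA : (β:ℝ) * ((U.filter (fun p => NF β M S lam del p.1 p.2)).card : ℝ) ≤ 1 / 10 ^ 5 * W := by
    have h4 := card_pairs K BIG c hcB (NF β M S lam del)
    have h5 : (U.filter (fun p => NF β M S lam del p.1 p.2)).card =
        ((K ×ˢ Finset.range BIG).filter (fun p => p.2 < c p.1 ∧ NF β M S lam del p.1 p.2)).card := by
      congr 1
      ext p
      simp only [hU, Finset.mem_filter]
      tauto
    rw [h5, h4]
    push_cast
    rw [Finset.mul_sum]
    have h6 : ∀ k ∈ K, (β:ℝ) *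
        (((Finset.range (c k)).filter (fun n => NF β M S lam del k n)).card : ℝ) ≤
        16 / lam * (S k).muTot + 4 * (S k).muTot + 2 * lam * (S k).t (S k).n +
          8 * del * (S k).t (S k).n + 10 * β * (S k).n := by
      intro k _
      have h7 := h1 _ _ _ (S k) lam del β (by rw [hlam]; norm_num) (by rw [hlam]; norm_num) hβ0 hMβ
        hdel0 (hdel1.trans (by norm_num))
      rw [do_card] at h7
      refine le_trans (le_of_eq ?_) h7
      refine congrArg (fun x : ℕ => (β:ℝ) * (x:ℝ)) ?_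
      refine congrArg Finset.card (Finset.ext fun n => ?_)
      simp only [Finset.mem_filter, NF, hc]
    refine (Finset.sum_le_sum h6).trans ?_
    have h7 : ∑ k ∈ K, (16 / lam * (S k).muTot + 4 * (S k).muTot + 2 * lam * (S k).t (S k).n +
          8 * del * (S k).t (S k).n + 10 * β * (S k).n) =
        (16 / lam + 4) * ∑ k ∈ K, (S k).muTot + (2 * lam + 8 * del) * W +
          10 * (β * ∑ k ∈ K, ((S k).n : ℝ)) := by
      rw [← htot]
      simp only [Finset.sum_add_distrib, Finset.mul_sum]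
      simp only [← Finset.sum_add_distrib]
      refine Finset.sum_congr rfl fun k _ => ?_
      ring
    rw [h7]
    have h8 : (16 / lam + 4) * ∑ k ∈ K, (S k).muTot ≤ (16 / lam + 4) * (5 * (1 / 10 ^ 14 * W)) :=
      mul_le_mul_of_nonneg_left hmu (by rw [hlam]; norm_num)
    have h9 : (16 / lam + 4) * (5 * (1 / 10 ^ 14 * W)) ≤ 1 / 10 ^ 6 * W := by
      rw [hlam]
      nlinarith
    have h10 : (2 * lam + 8 * del) * W ≤ (3 / 10 ^ 6) * W := by
      refine mul_le_mul_of_nonneg_right ?_ hW0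
      rw [hlam]
      linarith [show (8:ℝ) * (1 / 10 ^ 20) ≤ 1 / 10 ^ 6 by norm_num]
    linarith
  have hcardB : (β:ℝ) * ((U.filter (fun p => NB β N p.2)).card : ℝ) ≤ 1 / 10 ^ 6 * W := by
    have h4 := card_pairs K BIG c hcB (fun _ => NB β N)
    have h5 : (U.filter (fun p => NB β N p.2)).card =
        ((K ×ˢ Finset.range BIG).filter (fun p => p.2 < c p.1 ∧ NB β N p.2)).card := by
      congr 1
      ext p
      simp only [hU, Finset.mem_filter]
      tauto
    have h6 : (U.filter (fun p => NB β N p.2)).card ≤ 3 * β ^ (4 * N + 1) * K.card := by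
      rw [h5, h4]
      refine (Finset.sum_le_card_nsmul K _ (3 * β ^ (4 * N + 1)) fun k _ => ?_).trans ?_
      · refine le_trans (Finset.card_le_card (t := Finset.range (3 * β ^ (4 * N + 1))) ?_) ?_
        · intro n hn'
          exact Finset.mem_range.2 (Finset.mem_filter.1 hn').2
        · rw [Finset.card_range]
      · rw [smul_eq_mul, mul_comm]
    have h7 : ((U.filter (fun p => NB β N p.2)).card : ℝ) ≤ 3 * β ^ (4 * N + 1) * K.card := by
      exact_mod_cast h6
    have h8 := mul_le_mul_of_nonneg_left h7 hβr0.le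
    linarith
  -- the bad choices of one pair
  have hbad : ∀ p ∈ U, ∑ u ∈ Finset.range N, ∑ s ∈ Finset.range SM ×ˢ Finset.range SM,
      (if Gd β N L M S lam u s p.1 p.2 then (0:ℝ) else 1) ≤
      (N * (SM:ℝ) ^ 2) * ((if NF β M S lam del p.1 p.2 then 1 else 0) + (if NB β N p.2 then 1 else 0)) +
        (16 + 10 * N / β) * (SM : ℝ) ^ 2 := by
    rintro ⟨k, n'⟩ hp
    have hk : k ∈ K := (Finset.mem_product.1 (Finset.mem_filter.1 hp).1).1
    simp only
    have hnn : (0:ℝ) ≤ (16 + 10 * N / β) * (SM : ℝ) ^ 2 := by positivity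
    have htriv : ∑ u ∈ Finset.range N, ∑ s ∈ Finset.range SM ×ˢ Finset.range SM,
      (if Gd β N L M S lam u s k n' then (0:ℝ) else 1) ≤
      N * (SM:ℝ) ^ 2 := by
      calc _ ≤ ∑ u ∈ Finset.range N, ∑ s ∈ Finset.range SM ×ˢ Finset.range SM, (1:ℝ) :=
            Finset.sum_le_sum fun u _ => Finset.sum_le_sum fun s _ => by split_ifs <;> norm_num
        _ = _ := by
            rw [Finset.sum_const, Finset.sum_const, Finset.card_product, Finset.card_range,
              Finset.card_range]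
            simp only [nsmul_eq_mul, mul_one]
            push_cast
            ring
    have hNS : (0:ℝ) ≤ N * (SM:ℝ) ^ 2 := by positivity
    by_cases hA : NF β M S lam del k n'
    · rw [if_pos hA]
      refine htriv.trans ?_
      by_cases hB : NB β N n'
      · rw [if_pos hB]; nlinarith
      · rw [if_neg hB]; nlinarith
    by_cases hB : NB β N n'
    · rw [if_neg hA, if_pos hB]
      refine htriv.trans ?_
      linarith
    rw [if_neg hA, if_neg hB, add_zero, mul_zero, zero_add]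
    obtain ⟨i, hF⟩ := not_not.1 hA
    have hz0 : (S k).z 0 = k := hT.sys.z0 k hk
    have hi := hF.hi
    refine bad_count h2 h3 hSM hN hL (by omega) lam k n' i hF ?_ ?_
    · -- far from the tip
      have h4 := radial (S k) hMr0 hF hβr0.le
      rw [hz0] at h4
      have h5 : 3 * (β:ℝ) ^ (4 * N + 1) ≤ n' := by
        have : 3 * β ^ (4 * N + 1) ≤ n' := not_lt.1 hB
        exact_mod_cast this
      have h6 : 3 * (β:ℝ) ^ (4 * N + 2) ≤ β * n' := by
        have := mul_le_mul_of_nonneg_left h5 hβr0.le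
        calc 3 * (β:ℝ) ^ (4 * N + 2) = β * (3 * (β:ℝ) ^ (4 * N + 1)) := by ring
          _ ≤ _ := this
      have h12 : (0:ℝ) ≤ (β:ℝ) ^ (4 * N + 2) := by positivity
      have h7 : max ((β:ℝ) * n') β ≤ β * n' := by
        refine max_le le_rfl ?_
        linarith
      have h8 : lam * max ((β:ℝ) * n') β ≤ lam * (β * n') :=
        mul_le_mul_of_nonneg_left h7 (by rw [hlam]; norm_num)
      have h9 : (0:ℝ) ≤ β * n' := by positivity
      have h11 : (0:ℝ) ≤ (β:ℝ) ^ (4 * N + 2) := by positivity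
      have h10 : lam * ((β:ℝ) * n') ≤ 1 / 2 * (β * n') :=
        mul_le_mul_of_nonneg_right (by rw [hlam]; norm_num) h9
      refine le_trans ?_ h4
      have h13 := h8.trans h10
      generalize lam * max ((β:ℝ) * n') β = x at h13 ⊢
      generalize (β:ℝ) * n' = z at h6 h13 ⊢
      linarith
    · -- bounded by the diameter
      have h4 : ((2 * Δ * M : ℕ) : ℝ) ≤ (β:ℝ) ^ (N * (L - 1)) := by
        have h5 : 2 * Δ * M ≤ β ^ (N * (L - 1)) := by
          calc 2 * Δ * M ≤ β ^ (N * (L - 6)) * β ^ (5 * N) := by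
                rw [hM]; exact Nat.mul_le_mul_right _ hΔ
            _ = β ^ (N * (L - 1)) := by
                rw [← pow_add]
                congr 1
                have : L - 1 = (L - 6) + 5 := by omega
                rw [this, Nat.mul_add]
                ring
        exact_mod_cast h5
      refine le_trans (X_bound (S k) hMr0 hF (locM M P k) ?_ ?_) h4
      · exact loc_dist M Δ P hP _ _
      · exact loc_dist M Δ P hP _ _
  -- double counting
  refine ⟨BIG, ?_⟩
  have hokn : ∀ u ∈ Finset.range N, ∀ s ∈ Finset.range SM ×ˢ Finset.range SM,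
      W - β * ∑ m ∈ Finset.Icc 3 L, (okN β N u m M s K S lam BIG : ℝ) ≤
      β * ∑ p ∈ U,
        (if Gd β N L M S lam u s p.1 p.2 then (0:ℝ) else 1) := by
    intro u _ s _
    have h4 : (U.filter (fun p => Gd β N L M S lam u s p.1 p.2)).card
        ≤ ∑ m ∈ Finset.Icc 3 L, okN β N u m M s K S lam BIG := by
      unfold okN
      refine le_trans (Finset.card_le_card ?_) Finset.card_biUnion_le
      intro p hp
      obtain ⟨hp1, m, hm, i, hi⟩ := Finset.mem_filter.1 hp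
      exact Finset.mem_biUnion.2 ⟨m, hm, Finset.mem_filter.2 ⟨(Finset.mem_filter.1 hp1).1, i, hi⟩⟩
    have h5 : ((U.filter (fun p => Gd β N L M S lam u s p.1 p.2)).card : ℝ)
        ≤ ∑ m ∈ Finset.Icc 3 L, (okN β N u m M s K S lam BIG : ℝ) := by exact_mod_cast h4
    have h6 : ∑ p ∈ U, (if Gd β N L M S lam u s p.1 p.2 then (0:ℝ) else 1) =
        U.card - ((U.filter (fun p => Gd β N L M S lam u s p.1 p.2)).card : ℝ) := by
      have e := Finset.card_filter (fun p => Gd β N L M S lam u s p.1 p.2) U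
      have e' : ((U.filter (fun p => Gd β N L M S lam u s p.1 p.2)).card : ℝ) =
          ∑ p ∈ U, (if Gd β N L M S lam u s p.1 p.2 then (1:ℝ) else 0) := by
        rw [e]; push_cast; rfl
      have e2 : (U.card : ℝ) = ∑ p ∈ U, (1:ℝ) := by
        rw [Finset.sum_const, nsmul_eq_mul, mul_one]
      rw [e', e2, ← Finset.sum_sub_distrib]
      refine Finset.sum_congr rfl fun p _ => ?_
      split_ifs <;> norm_num
    rw [h6]
    have h8 := mul_le_mul_of_nonneg_left h5 hβr0.le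
    rw [mul_sub]
    linarith
  have hsum : ∑ u ∈ Finset.range N, ∑ s ∈ Finset.range SM ×ˢ Finset.range SM,
      (W - β * ∑ m ∈ Finset.Icc 3 L, (okN β N u m M s K S lam BIG : ℝ)) ≤
      β * ∑ p ∈ U, ∑ u ∈ Finset.range N, ∑ s ∈ Finset.range SM ×ˢ Finset.range SM,
        (if Gd β N L M S lam u s p.1 p.2 then (0:ℝ) else 1) := by
    refine (Finset.sum_le_sum fun u hu => Finset.sum_le_sum fun s hs => hokn u hu s hs).trans ?_
    simp only [← Finset.mul_sum]
    refine mul_le_mul_of_nonneg_left (le_of_eq ?_) hβr0.le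
    rw [Finset.sum_comm' (s := U) (t := fun _ => Finset.range N) (t' := Finset.range N)
      (s' := fun _ => U) (by intro a b; tauto)]
    refine Finset.sum_congr rfl fun u _ => ?_
    rw [Finset.sum_comm]
  refine hsum.trans ?_
  have hstep := mul_le_mul_of_nonneg_left (Finset.sum_le_sum hbad) hβr0.le
  refine hstep.trans ?_
  rw [Finset.sum_add_distrib, ← Finset.mul_sum, Finset.sum_add_distrib, ← Finset.sum_filter,
    ← Finset.sum_filter, Finset.sum_const, Finset.sum_const, Finset.sum_const]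
  simp only [nsmul_eq_mul, mul_one]
  set a : ℝ := ((U.filter (fun p => NF β M S lam del p.1 p.2)).card : ℝ) with ha
  set b : ℝ := ((U.filter (fun p => NB β N p.2)).card : ℝ) with hb
  have hSM2 : (0:ℝ) ≤ (SM:ℝ) ^ 2 := by positivity
  have hNSM : (0:ℝ) ≤ N * (SM:ℝ) ^ 2 := by positivity
  have e1 : β * (N * (SM:ℝ) ^ 2 * (a + b) + U.card * ((16 + 10 * N / β) * (SM:ℝ) ^ 2)) =
      (β * a + β * b) * (N * (SM:ℝ) ^ 2) +
        (β * U.card) * (16 + 10 * N / β) * (SM:ℝ) ^ 2 := by ring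
  rw [e1]
  have h20 : (β * a + β * b) * (N * (SM:ℝ) ^ 2) ≤ (1 / 10 ^ 5 * W + 1 / 10 ^ 6 * W) *
      (N * (SM:ℝ) ^ 2) := mul_le_mul_of_nonneg_right (add_le_add hcardA hcardB) hNSM
  have h21 : (16 + 10 * N / β : ℝ) ≤ 2 / 10 ^ 5 * N := by
    have h22 : 10 * N / β ≤ 1 / 10 ^ 6 * (N:ℝ) := by
      rw [div_le_iff₀ hβr0]
      have h23 : (10:ℝ) ≤ 1 / 10 ^ 6 * β := by
        linarith [show (10:ℝ) ≤ 1 / 10 ^ 6 * 10 ^ 20 by norm_num]
      have := mul_le_mul_of_nonneg_right h23 hNr0.le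
      nlinarith
    have h24 : (16:ℝ) ≤ 16 / 10 ^ 6 * N := by linarith
    linarith
  have h25 : (β:ℝ) * U.card ≤ 2 * W := by linarith
  have h26 : (β * U.card) * (16 + 10 * N / β) ≤ (2 * W) * (2 / 10 ^ 5 * N) :=
    mul_le_mul h25 h21 (by positivity) (by positivity)
  have h27 := mul_le_mul_of_nonneg_right h26 hSM2
  have e2 : (2 * W) * (2 / 10 ^ 5 * N) * (SM:ℝ) ^ 2 = 4 / 10 ^ 5 * (W * (N * (SM:ℝ) ^ 2)) := by ring
  have e3 : (1 / 10 ^ 5 * W + 1 / 10 ^ 6 * W) * (N * (SM:ℝ) ^ 2) =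
      (1 / 10 ^ 5 + 1 / 10 ^ 6) * (W * (N * (SM:ℝ) ^ 2)) := by ring
  have e4 : 1 / 10 ^ 4 * W * N * (SM : ℝ) ^ 2 = 1 / 10 ^ 4 * (W * (N * (SM:ℝ) ^ 2)) := by ring
  rw [e2] at h27
  rw [e3] at h20
  rw [e4]
  have h28 : 0 ≤ W * (N * (SM:ℝ) ^ 2) := mul_nonneg hW0 hNSM
  linarith [show (1:ℝ) / 10 ^ 5 + 1 / 10 ^ 6 + 4 / 10 ^ 5 ≤ 1 / 10 ^ 4 by norm_num,
    mul_le_mul_of_nonneg_right (show (1:ℝ) / 10 ^ 5 + 1 / 10 ^ 6 + 4 / 10 ^ 5 ≤ 1 / 10 ^ 4 by
      norm_num) h28]

end Pool.Agent.H660R3.TS
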