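import Pool.Agent.H660R3.TS.Stubs

/-!
# BLK: at most 16 of the `N` scale shifts are bad for a given scale
-/

set_option autoImplicit false

namespace Pool.Agent.H660R3.TS

open scoped Classical

theorem t_BLK : St_BLK := by
  intro β N L f hβ hN hL hlo hup
  have hβ1 : (1 : ℝ) < (β : ℝ) := by exact_mod_cast (by omega : 1 < β)
  have hβ4 : (4 : ℝ) ≤ (β : ℝ) := by exact_mod_cast hβ
  have hβ0 : (0 : ℝ) < (β : ℝ) := by linarith
  have hf1 : 1 ≤ f := le_trans (one_le_pow₀ hβ1.le) hlo
  obtain ⟨w, hw1, hw2⟩ := exists_nat_pow_near hf1 hβ1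
  have hwlo : 4 * N + 2 ≤ w := by
    have h1 : (β : ℝ) ^ (4 * N + 2) < (β : ℝ) ^ (w + 1) := lt_of_le_of_lt hlo hw2
    have := (pow_lt_pow_iff_right₀ hβ1).1 h1
    omega
  have hwup : w ≤ N * (L - 1) := (pow_le_pow_iff_right₀ hβ1).1 (le_trans hw1 hup)
  -- the bad shifts
  have hsub : ∀ u ∈ (Finset.range N).filter (fun u => ¬ ∃ m ∈ Finset.Icc 3 L,
      4 * β * (DD β N u (m - 1) : ℝ) ≤ f ∧ 4 * (β : ℝ) ^ 10 * f ≤ DD β N u m),
      (w + 12 - u) % N ∈ Finset.Icc 1 13 := by
    intro u hu
    obtain ⟨huN, hbad⟩ := Finset.mem_filter.1 hu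
    rw [Finset.mem_range] at huN
    by_contra hr
    apply hbad
    -- it suffices to find `m` with `w + 12 ≤ N m + u ≤ w + N - 2`
    obtain ⟨m, hm1, hm2⟩ : ∃ m, w + 12 ≤ N * m + u ∧ N * m + u + 2 ≤ w + N := by
      set t := w + 12 - u with ht
      have htu : t + u = w + 12 := by omega
      have hdiv := Nat.div_add_mod t N
      have hmod := Nat.mod_lt t (by omega : 0 < N)
      rw [Finset.mem_Icc] at hr
      rcases Nat.eq_zero_or_pos (t % N) with h0 | h0
      · refine ⟨t / N, ?_, ?_⟩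
        · omega
        · omega
      · refine ⟨t / N + 1, ?_, ?_⟩
        · rw [Nat.mul_add, Nat.mul_one]; omega
        · rw [Nat.mul_add, Nat.mul_one]; omega
    have hm3 : 3 ≤ m := by
      by_contra h
      push Not at h
      have : N * m ≤ N * 2 := Nat.mul_le_mul_left _ (by omega)
      omega
    have hmL : m ≤ L := by
      by_contra h
      push Not at h
      have h1 : N * (L + 1) ≤ N * m := Nat.mul_le_mul_left _ (by omega)
      have h2 : N * (L + 1) = N * (L - 1) + 2 * N := by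
        obtain ⟨k, rfl⟩ : ∃ k, L = k + 1 := ⟨L - 1, by omega⟩
        simp only [Nat.add_sub_cancel]
        ring
      omega
    refine ⟨m, Finset.mem_Icc.2 ⟨hm3, hmL⟩, ?_, ?_⟩
    · have h1 : N * (m - 1) + u + 2 ≤ w := by
        have h2 : N * m = N * (m - 1) + N := by
          obtain ⟨k, rfl⟩ : ∃ k, m = k + 1 := ⟨m - 1, by omega⟩
          simp only [Nat.add_sub_cancel]
          ring
        omega
      unfold DD
      push_cast
      calc 4 * (β : ℝ) * (β : ℝ) ^ (N * (m - 1) + u)
          ≤ (β : ℝ) * (β : ℝ) * (β : ℝ) ^ (N * (m - 1) + u) := by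
            apply mul_le_mul_of_nonneg_right _ (by positivity)
            exact mul_le_mul_of_nonneg_right hβ4 hβ0.le
        _ = (β : ℝ) ^ (N * (m - 1) + u + 2) := by ring
        _ ≤ (β : ℝ) ^ w := pow_le_pow_right₀ hβ1.le h1
        _ ≤ f := hw1
    · unfold DD
      push_cast
      calc 4 * (β : ℝ) ^ 10 * f ≤ (β : ℝ) * (β : ℝ) ^ 10 * (β : ℝ) ^ (w + 1) := by
            apply mul_le_mul _ hw2.le (by linarith) (by positivity)
            exact mul_le_mul_of_nonneg_right hβ4 (by positivity)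
        _ = (β : ℝ) ^ (w + 12) := by ring
        _ ≤ (β : ℝ) ^ (N * m + u) := pow_le_pow_right₀ hβ1.le hm1
  refine le_trans (Finset.card_le_card_of_injOn (t := Finset.Icc 1 13)
    (fun u => (w + 12 - u) % N) hsub ?_) (by simp)
  intro u hu v hv huv
  have huN : u < N := Finset.mem_range.1 (Finset.mem_filter.1 hu).1
  have hvN : v < N := Finset.mem_range.1 (Finset.mem_filter.1 hv).1
  have key : ∀ u v : ℕ, u < N → v < N → u ≤ v → (w + 12 - u) % N = (w + 12 - v) % N → u = v := by
    intro u v _ hv huv h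
    have h1 : w + 12 - v ≤ w + 12 - u := by omega
    have h2 : N ∣ (w + 12 - u) - (w + 12 - v) := (Nat.modEq_iff_dvd' h1).1 h.symm
    have h3 : (w + 12 - u) - (w + 12 - v) = v - u := by omega
    rw [h3] at h2
    have := Nat.eq_zero_of_dvd_of_lt h2 (by omega)
    omega
  rcases le_total u v with h | h
  · exact key u v huN hvN h huv
  · exact (key v u hvN huN h huv.symm).symm

end Pool.Agent.H660R3.TS
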