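import Pool.Agent.H660R3.TS.Stubs

set_option autoImplicit false

open scoped Classical

namespace Pool.Agent.H660R3.TS

namespace C1

theorem ds_eq (p q : Pt) : ds p q = ‖pt p - pt q‖ := by
  unfold ds pt
  rw [Complex.norm_def, Complex.normSq_apply]
  congr 1
  simp only [Complex.sub_re, Complex.sub_im]
  ring

theorem ds_comm (p q : Pt) : ds p q = ds q p := by
  rw [ds_eq, ds_eq, norm_sub_rev]

theorem ds_tri (p q r : Pt) : ds p r ≤ ds p q + ds q r := by
  rw [ds_eq, ds_eq, ds_eq]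
  exact norm_sub_le_norm_sub_add_norm_sub _ _ _

theorem ds_nonneg (p q : Pt) : 0 ≤ ds p q := Real.sqrt_nonneg _

theorem sub_rd (σ n : ℕ) (hσ : 0 < σ) :
    0 ≤ (n : ℝ) - ((n / σ * σ : ℕ) : ℝ) ∧ (n : ℝ) - ((n / σ * σ : ℕ) : ℝ) ≤ σ := by
  have h1 : n / σ * σ + n % σ = n := by
    have := Nat.div_add_mod n σ
    rw [mul_comm]; exact this
  have h2 : n % σ < σ := Nat.mod_lt _ hσ
  have h3 : (n : ℝ) = ((n / σ * σ : ℕ) : ℝ) + ((n % σ : ℕ) : ℝ) := by exact_mod_cast h1.symm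
  have h4 : ((n % σ : ℕ) : ℝ) ≤ σ := by exact_mod_cast h2.le
  have h5 : (0 : ℝ) ≤ ((n % σ : ℕ) : ℝ) := Nat.cast_nonneg _
  constructor <;> linarith

theorem rd_near (σ : ℕ) (hσ : 0 < σ) (x : Pt) : ds x (rd σ x) ≤ 3 / 2 * σ := by
  have h1 := sub_rd σ x.1 hσ
  have h2 := sub_rd σ x.2 hσ
  unfold ds rd
  rw [Real.sqrt_le_iff]
  refine ⟨by positivity, ?_⟩
  dsimp only
  have hs : (0 : ℝ) ≤ σ := Nat.cast_nonneg _
  have e1 := mul_self_le_mul_self h1.1 h1.2
  have e2 := mul_self_le_mul_self h2.1 h2.2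
  nlinarith [mul_nonneg hs hs]

variable {V : Type} {loc : V → ℂ} {Mn : ℝ}

theorem arc (S : Strand loc Mn) (j k : ℕ) (h : j ≤ k) (hk : k ≤ S.n) :
    ‖loc (S.z k) - loc (S.z j)‖ ≤ S.t k - S.t j := by
  induction k, h using Nat.le_induction with
  | base => simp
  | succ k h ih =>
    have h1 := ih (by omega)
    have h2 := S.t_succ k (by omega)
    have h3 := norm_sub_le_norm_sub_add_norm_sub (loc (S.z (k + 1))) (loc (S.z k)) (loc (S.z j))
    linarith

theorem t_mono (S : Strand loc Mn) (j k : ℕ) (h : j ≤ k) (hk : k ≤ S.n) : S.t j ≤ S.t k := by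
  have := arc S j k h hk
  have := norm_nonneg (loc (S.z k) - loc (S.z j))
  linarith

theorem X_arc (S : Strand loc Mn) (hM : 0 < Mn) (i : ℕ) (τ : ℝ) (hi : i < S.n) (h : S.t i ≤ τ) :
    ‖S.X i τ - loc (S.z 0)‖ ≤ τ := by
  have h1 := arc S 0 i (Nat.zero_le _) hi.le
  have h2 : 0 < S.len i := lt_of_lt_of_le hM (S.edge_long i hi)
  have h3 : ‖S.X i τ - loc (S.z i)‖ = τ - S.t i := by
    unfold Strand.X
    rw [add_sub_cancel_left, norm_mul, Complex.norm_real, Real.norm_eq_abs,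
      abs_of_nonneg (div_nonneg (by linarith) h2.le)]
    exact div_mul_cancel₀ _ h2.ne'
  have h4 := norm_sub_le_norm_sub_add_norm_sub (S.X i τ) (loc (S.z i)) (loc (S.z 0))
  have h5 := S.t_zero
  linarith

theorem jo_le (S : Strand loc Mn) : S.jo ≤ S.n := by
  unfold Strand.jo
  exact Nat.sInf_le (Or.inl rfl)

end C1

open C1 in
theorem t_C1 (h : St_LOC) : St_C1 := by
  intro V _ pos loc sft Mn S lam G β D σ i J τ c Z a ρ EA hpos hlam hlam' hG hMn hβ hσ hσD hσβ hGσ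
    hF hc hZ hR hρ haρ hρa hsym hbot hJn hJ1 hJ2 hcut
  set R : ℝ := ‖S.X i τ + sft - pt c‖ with hRdef
  have hσ' : (0 : ℝ) < σ := by exact_mod_cast hσ
  have hMn' : 0 < Mn := by linarith
  -- distances
  have hFeq : ∀ v, ds (pos v) c = ‖loc v - (pt c - sft)‖ := by
    intro v
    rw [ds_eq, hpos]
    congr 1; ring
  have hR' : R = ‖S.X i τ - (pt c - sft)‖ := by rw [hRdef]; congr 1; ring
  have hloc : ∀ v w, ds (pos v) (pos w) = ‖loc v - loc w‖ := by
    intro v w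
    rw [ds_eq, hpos, hpos]
    congr 1; ring
  have hk : ∀ v, ds (pos v) (rd σ (pos v)) ≤ 3 / 2 * σ := fun v => rd_near σ hσ _
  have h0 : ‖loc (S.z 0) - (pt c - sft)‖ ≤ 2 * σ := by
    rw [← hFeq, hc]
    linarith [hk (S.z 0)]
  have hLOC := h V loc Mn S lam G (1 / (β : ℝ) ^ 6) τ i (pt c - sft) σ hlam hlam' hG hMn hF h0 hGσ
    (by rw [← hR']; exact hR)
  simp only [← hFeq, ← hR'] at hLOC
  -- position of a
  have ha1 : (a : ℝ) * σ ≤ R + σ := by
    have h1 : ((a * σ : ℕ) : ℝ) ≤ ρ := by exact_mod_cast haρ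
    push_cast at h1
    have := (abs_le.1 hρ).2
    linarith
  have ha2 : R - 2 * σ ≤ (a : ℝ) * σ := by
    have h1 : ((ρ : ℕ) : ℝ) < (((a + 1) * σ : ℕ) : ℝ) := by exact_mod_cast hρa
    push_cast at h1
    have := (abs_le.1 hρ).1
    linarith
  have hRτ : R ≤ τ + 2 * σ := by
    have h1 := X_arc S hMn' i τ hF.hi hF.lo
    have h2 := norm_sub_le_norm_sub_add_norm_sub (S.X i τ) (loc (S.z 0)) (pt c - sft)
    linarith
  have hiJ : i ≤ J := by
    by_contra hcon
    have h1 := t_mono S (J + 1) i (by omega) hF.hi.le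
    have := hF.lo
    linarith
  -- type III is impossible for small attachment index
  have hjo : ∀ v, S.att v ≤ J → ¬ S.jo ≤ S.att v := by
    intro v hv hv'
    have h1 := t_mono S S.jo J (by omega) hJn.le
    have h2 : τ < (1 - 2 * lam) * S.t S.jo := hF.early
    have h3 : 1000 * (σ : ℝ) ≤ lam * R := by
      have := hR; norm_num at this; exact this
    have h4 : lam * R ≤ lam * (τ + 2 * σ) := mul_le_mul_of_nonneg_left hRτ hlam.le
    have h5 : lam * (2 * σ) ≤ 1 * σ := by nlinarith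
    have h6 : 0 ≤ S.t S.jo := by
      have := t_mono S 0 S.jo (Nat.zero_le _) (jo_le S)
      rw [S.t_zero] at this; exact this
    have h7 : lam * τ ≤ lam * S.t S.jo := by
      apply mul_le_mul_of_nonneg_left _ hlam.le
      nlinarith [mul_nonneg hlam.le h6]
    nlinarith
  -- (1)
  have hin : ∀ v, ds (rd σ (pos v)) c ≤ (a : ℝ) * σ → S.att v ≤ J := by
    intro v hv
    by_contra hcon
    push Not at hcon
    have h1 : ds (pos v) c ≤ R + 5 / 2 * σ := by
      have := ds_tri (pos v) (rd σ (pos v)) c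
      linarith [hk v]
    have h2 := t_mono S (J + 1) (S.att v) (by omega) (S.att_le v)
    rcases hLOC v with ⟨h3, -, -⟩ | ⟨-, -, h3, -⟩ | ⟨-, h3⟩
    · omega
    · linarith
    · have h4 : 1000 * (σ : ℝ) ≤ lam * R := by
        have := hR; norm_num at this; exact this
      linarith
  have hzone : ∀ v, S.att v ≤ J → (a : ℝ) * σ < ds (rd σ (pos v)) c →
      τ - 5 * σ ≤ S.t (S.att v) ∧ S.t (S.att v) ≤ τ + 7 * σ ∧ S.wd v ≤ σ / 10 := by
    intro v hv hout
    have h1 : R - 7 / 2 * σ ≤ ds (pos v) c := by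
      have := ds_tri (rd σ (pos v)) (pos v) c
      rw [ds_comm (rd σ (pos v)) (pos v)] at this
      linarith [hk v]
    rcases hLOC v with ⟨h3, h4, h5⟩ | ⟨h2, -, h3, h5⟩ | ⟨h2, -⟩
    · have h6 := t_mono S (S.att v) i h3 hF.hi.le
      have h7 := hF.lo
      refine ⟨by linarith, by linarith, by linarith⟩
    · have h6 := t_mono S (i + 1) (S.att v) (by omega) (S.att_le v)
      have h7 := hF.up
      have h8 := t_mono S (S.att v) J hv hJn.le
      refine ⟨by linarith, by linarith, by linarith⟩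
    · exact absurd h2 (hjo v hv)
  have hzz : ∀ v w, S.att v ≤ J → (a : ℝ) * σ < ds (rd σ (pos v)) c → S.att w ≤ J →
      τ - 5 * σ ≤ S.t (S.att w) → S.t (S.att w) ≤ τ + 7 * σ → S.wd w ≤ σ / 10 →
      ds (pos v) (pos w) ≤ 15 * σ := by
    intro v w hv hout hw w1 w2 w3
    obtain ⟨v1, v2, v3⟩ := hzone v hv hout
    rw [hloc]
    have h1 := S.wd_dist v (by omega)
    have h2 := S.wd_dist w (by omega)
    have h3 : ‖loc (S.z (S.att v)) - loc (S.z (S.att w))‖ ≤ 12 * σ := by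
      rcases le_total (S.att v) (S.att w) with h | h
      · have := arc S _ _ h (S.att_le w)
        rw [norm_sub_rev]
        linarith
      · have := arc S _ _ h (S.att_le v)
        linarith
    have h4 := norm_sub_le_norm_sub_add_norm_sub (loc v) (loc (S.z (S.att v))) (loc w)
    have h5 := norm_sub_le_norm_sub_add_norm_sub (loc (S.z (S.att v))) (loc (S.z (S.att w))) (loc w)
    rw [norm_sub_rev (loc (S.z (S.att w))) (loc w)] at h5
    linarith
  have hzJ : ∀ v, S.att v ≤ J → (a : ℝ) * σ < ds (rd σ (pos v)) c →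
      ds (pos v) (pos (S.z J)) ≤ 15 * σ := by
    intro v hv hout
    obtain ⟨v1, v2, v3⟩ := hzone v hv hout
    rw [hloc]
    have h1 := S.wd_dist v (by omega)
    have h2 := arc S _ _ hv hJn.le
    have h4 := norm_sub_le_norm_sub_add_norm_sub (loc v) (loc (S.z (S.att v))) (loc (S.z J))
    rw [norm_sub_rev (loc (S.z (S.att v))) (loc (S.z J))] at h4
    linarith
  -- the set Q
  have hQ : ∀ q, q ∈ Qc D σ (Finset.univ.image pos) Z ↔ ∃ v, bx D (pos v) = Z ∧ rd σ (pos v) = q := by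
    intro q
    unfold Qc
    simp only [Finset.mem_image, Finset.mem_filter, Finset.mem_univ, true_and]
    constructor
    · rintro ⟨p, ⟨⟨v, rfl⟩, h2⟩, h3⟩; exact ⟨v, h2, h3⟩
    · rintro ⟨v, h2, h3⟩; exact ⟨pos v, ⟨⟨v, rfl⟩, h2⟩, h3⟩
  intro q hq q' hq' hqo hq'o ℓ hs hs' hℓ
  obtain ⟨x, hxZ, rfl⟩ := (hQ q).1 hq
  obtain ⟨x', hx'Z, rfl⟩ := (hQ q').1 hq'
  have hℓ0 : 0 ≤ ℓ := by
    obtain ⟨s, -, -, h1⟩ := hs
    exact (ds_nonneg _ _).trans h1
  -- the relation on V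
  let r : V → V → Prop := fun v w => (bx D (pos v) = Z ∧ (a : ℝ) * σ < ds (rd σ (pos v)) c) ∧
    (bx D (pos w) = Z ∧ (a : ℝ) * σ < ds (rd σ (pos w)) c) ∧ ds (pos v) (pos w) ≤ ℓ + 30 * σ
  have hrsym : ∀ v w, r v w → r w v := by
    rintro v w ⟨h1, h2, h3⟩
    exact ⟨h2, h1, by rw [ds_comm]; exact h3⟩
  have hrsym' : ∀ v w, Relation.ReflTransGen r v w → Relation.ReflTransGen r w v := by
    intro v w hvw
    induction hvw with
    | refl => exact Relation.ReflTransGen.refl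
    | tail _ h ih => exact Relation.ReflTransGen.head (hrsym _ _ h) ih
  have hlift : ∀ v w, Relation.ReflTransGen r v w →
      Reach σ (Qc D σ (Finset.univ.image pos) Z) c a (ℓ + 40 * σ) (rd σ (pos v)) (rd σ (pos w)) := by
    intro v w hvw
    unfold Reach
    induction hvw with
    | refl => exact Relation.ReflTransGen.refl
    | @tail v' w' _ hstep ih =>
      obtain ⟨h1, h2, h3⟩ := hstep
      refine ih.tail ⟨(hQ _).2 ⟨w', h2.1, rfl⟩, h2.2, ?_⟩
      have e1 := ds_tri (rd σ (pos v')) (pos v') (rd σ (pos w'))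
      have e2 := ds_tri (pos v') (pos w') (rd σ (pos w'))
      rw [ds_comm (rd σ (pos v')) (pos v')] at e1
      linarith [hk v', hk w']
  -- numerics
  have hβ1 : (1 : ℝ) ≤ β := by
    have : 1 ≤ β := le_trans (by norm_num) hβ
    exact_mod_cast this
  have hnum : (ℓ + 3 * σ) * (β : ℝ) ^ 3 ≤ 2 * D := by
    have h1 : (σ : ℝ) * (β : ℝ) ^ 11 ≤ D := by exact_mod_cast hσβ
    have h2 : 3 * (σ : ℝ) * (β : ℝ) ^ 3 ≤ (σ : ℝ) * (β : ℝ) ^ 11 := by
      have h3 : (3 : ℝ) ≤ (β : ℝ) ^ 8 := by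
        have h4 : (3 : ℝ) ≤ β := by
          have : 3 ≤ β := le_trans (by norm_num) hβ
          exact_mod_cast this
        calc (3 : ℝ) ≤ β := h4
          _ = (β : ℝ) ^ 1 := (pow_one _).symm
          _ ≤ (β : ℝ) ^ 8 := pow_le_pow_right₀ hβ1 (by norm_num)
      have h5 : (0 : ℝ) ≤ (σ : ℝ) * (β : ℝ) ^ 3 := by positivity
      calc 3 * (σ : ℝ) * (β : ℝ) ^ 3 = 3 * ((σ : ℝ) * (β : ℝ) ^ 3) := by ring
        _ ≤ (β : ℝ) ^ 8 * ((σ : ℝ) * (β : ℝ) ^ 3) := mul_le_mul_of_nonneg_right h3 h5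
        _ = (σ : ℝ) * (β : ℝ) ^ 11 := by ring
    linarith
  -- far points
  have hfar : ∀ v, bx D (pos v) = Z → J < S.att v →
      (∃ s ∈ Qc D σ (Finset.univ.image pos) Z, ds s c ≤ (a : ℝ) * σ ∧ ds (rd σ (pos v)) s ≤ ℓ) →
      Relation.ReflTransGen r v (S.z (J + 1)) ∧
        (bx D (pos (S.z (J + 1))) = Z ∧ (a : ℝ) * σ < ds (rd σ (pos (S.z (J + 1)))) c) ∧
        ds (pos (S.z J)) (pos (S.z (J + 1))) ≤ ℓ + 3 * σ := by
    rintro v hvZ hvJ ⟨s, hsQ, hsin, hvs⟩
    obtain ⟨w, hwZ, rfl⟩ := (hQ s).1 hsQ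
    have hwJ := hin w hsin
    have hd : ‖loc v - loc w‖ ≤ ℓ + 3 * σ := by
      rw [← hloc]
      have e1 := ds_tri (pos v) (rd σ (pos v)) (pos w)
      have e2 := ds_tri (rd σ (pos v)) (rd σ (pos w)) (pos w)
      rw [ds_comm (rd σ (pos w)) (pos w)] at e2
      linarith [hk v, hk w]
    have hpath := hbot v w hvZ hwZ
    have hout : ∀ b, J < S.att b → (a : ℝ) * σ < ds (rd σ (pos b)) c := by
      intro b hb
      by_contra hcon
      push Not at hcon
      have := hin b hcon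
      omega
    revert hvZ hvJ
    clear hvs
    suffices H : ∀ b, Relation.ReflTransGen (fun a b => EA a b ∧ bx D (pos a) = Z ∧
        bx D (pos b) = Z ∧ ‖loc a - loc b‖ ≤ ‖loc v - loc w‖) b w → bx D (pos b) = Z →
        J < S.att b → Relation.ReflTransGen r b (S.z (J + 1)) ∧
        (bx D (pos (S.z (J + 1))) = Z ∧ (a : ℝ) * σ < ds (rd σ (pos (S.z (J + 1)))) c) ∧
        ds (pos (S.z J)) (pos (S.z (J + 1))) ≤ ℓ + 3 * σ by
      exact H v hpath
    intro b hb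
    induction hb using Relation.ReflTransGen.head_induction_on with
    | refl => intro _ h2; omega
    | @head u w' hab _ ih =>
      intro huZ huJ
      obtain ⟨hE, h1, h2, h3⟩ := hab
      rcases Nat.lt_or_ge J (S.att w') with hw' | hw'
      · obtain ⟨i1, i2, i3⟩ := ih h2 hw'
        refine ⟨Relation.ReflTransGen.head ?_ i1, i2, i3⟩
        refine ⟨⟨huZ, hout u huJ⟩, ⟨h2, hout w' hw'⟩, ?_⟩
        rw [hloc]; linarith
      · have h4 : ‖loc w' - loc u‖ * (β : ℝ) ^ 3 ≤ 2 * D := by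
          rw [norm_sub_rev]
          have h5 : (0 : ℝ) ≤ (β : ℝ) ^ 3 := by positivity
          exact (mul_le_mul_of_nonneg_right (h3.trans hd) h5).trans hnum
        obtain ⟨e1, e2⟩ := hcut w' u (hsym _ _ hE) h2 h1 h4 hw' huJ
        subst e2
        refine ⟨Relation.ReflTransGen.refl, ⟨h1, hout _ huJ⟩, ?_⟩
        rw [← e1, hloc, norm_sub_rev]
        linarith
  -- a zone point and a far point
  have hmix : ∀ v w, bx D (pos v) = Z → (a : ℝ) * σ < ds (rd σ (pos v)) c → S.att v ≤ J →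
      bx D (pos w) = Z → J < S.att w →
      (∃ s ∈ Qc D σ (Finset.univ.image pos) Z, ds s c ≤ (a : ℝ) * σ ∧ ds (rd σ (pos w)) s ≤ ℓ) →
      Relation.ReflTransGen r v w := by
    intro v w hvZ hvo hvJ hwZ hwJ hw
    obtain ⟨h1, h2, h3⟩ := hfar w hwZ hwJ hw
    have h4 := hzJ v hvJ hvo
    refine Relation.ReflTransGen.head (b := S.z (J + 1)) ?_ (hrsym' _ _ h1)
    refine ⟨⟨hvZ, hvo⟩, h2, ?_⟩
    have := ds_tri (pos v) (pos (S.z J)) (pos (S.z (J + 1)))
    linarith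
  apply hlift
  rcases Nat.lt_or_ge J (S.att x) with hx | hx
  · rcases Nat.lt_or_ge J (S.att x') with hx' | hx'
    · exact (hfar x hxZ hx hs).1.trans (hrsym' _ _ (hfar x' hx'Z hx' hs').1)
    · exact hrsym' _ _ (hmix x' x hx'Z hq'o hx' hxZ hx hs)
  · rcases Nat.lt_or_ge J (S.att x') with hx' | hx'
    · exact hmix x x' hxZ hqo hx hx'Z hx' hs'
    · obtain ⟨w1, w2, w3⟩ := hzone x' hx' hq'o
      refine Relation.ReflTransGen.single ⟨⟨hxZ, hqo⟩, ⟨hx'Z, hq'o⟩, ?_⟩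
      have := hzz x x' hx hqo hx' w1 w2 w3
      linarith

end Pool.Agent.H660R3.TS
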