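import Pool.Agent.H660R3.TS.Stubs

/-!
# Task C2: no candidate ball of a smaller level hits the circle of a fine location
-/

set_option autoImplicit false

open scoped Classical

namespace Pool.Agent.H660R3.TS

namespace C2

section strand
variable {V : Type} {loc : V → ℂ} {Mn : ℝ} (S : Strand loc Mn)

theorem tstep {j : ℕ} (h : j < S.n) : S.t j ≤ S.t (j + 1) := by
  rw [S.t_succ j h]
  linarith [norm_nonneg (loc (S.z (j + 1)) - loc (S.z j))]

theorem tmono {j k : ℕ} (hjk : j ≤ k) (hk : k ≤ S.n) : S.t j ≤ S.t k := by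
  induction k, hjk using Nat.le_induction with
  | base => exact le_rfl
  | succ k hjk ih => exact (ih (by omega)).trans (tstep S (by omega))

theorem tsum {j k : ℕ} (hjk : j ≤ k) (hk : k ≤ S.n) :
    S.t k - S.t j = ∑ i ∈ Finset.Ico j k, S.len i := by
  induction k, hjk using Nat.le_induction with
  | base => simp
  | succ k hjk ih =>
    rw [Finset.sum_Ico_succ_top hjk, ← ih (by omega), S.t_succ k (by omega)]
    unfold Strand.len
    ring

theorem zdist {j k : ℕ} (hjk : j ≤ k) (hk : k ≤ S.n) :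
    ‖loc (S.z k) - loc (S.z j)‖ ≤ S.t k - S.t j := by
  induction k, hjk using Nat.le_induction with
  | base => simp
  | succ k hjk ih =>
    have h1 := ih (by omega)
    have h2 := S.t_succ k (by omega)
    have h3 : ‖loc (S.z (k + 1)) - loc (S.z j)‖ ≤
        ‖loc (S.z (k + 1)) - loc (S.z k)‖ + ‖loc (S.z k) - loc (S.z j)‖ :=
      norm_sub_le_norm_sub_add_norm_sub _ _ _
    linarith

theorem zdist' {j k : ℕ} (hj : j ≤ S.n) (hk : k ≤ S.n) :
    ‖loc (S.z k) - loc (S.z j)‖ ≤ |S.t k - S.t j| := by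
  rcases le_total j k with h | h
  · exact (zdist S h hk).trans (le_abs_self _)
  · rw [norm_sub_rev, abs_sub_comm]
    exact (zdist S h hj).trans (le_abs_self _)

theorem jo_le : S.jo ≤ S.n := Nat.sInf_le (Or.inl rfl)

theorem bs_nonneg {j : ℕ} (h : j < S.n) : 0 ≤ S.bs j := by
  unfold Strand.bs Strand.len
  linarith [S.ys_le j h]

theorem dg_nonneg (j : ℕ) : 0 ≤ S.dg j := by
  unfold Strand.dg Strand.len Strand.f
  have h3 : ‖loc (S.z (j + 1)) - loc (S.z 0)‖ ≤
      ‖loc (S.z (j + 1)) - loc (S.z j)‖ + ‖loc (S.z j) - loc (S.z 0)‖ :=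
    norm_sub_le_norm_sub_add_norm_sub _ _ _
  linarith

theorem mu_ge {A B : ℕ} (hB : B ≤ S.n) (x y : ℝ)
    (h : ∀ j, A ≤ j → j < B → (x ≤ S.t j ∧ S.t j ≤ y) ∨ (x ≤ S.t (j + 1) ∧ S.t (j + 1) ≤ y)) :
    ∑ j ∈ Finset.Ico A B, S.bs j ≤ S.mu x y := by
  unfold Strand.mu
  have hsub : Finset.Ico A B ⊆ Finset.range S.n := by
    intro j hj
    rw [Finset.mem_Ico] at hj
    rw [Finset.mem_range]
    omega
  have hnn : ∀ j ∈ Finset.range S.n, 0 ≤ ((S.bs j + S.dg j) *
      ((if x ≤ S.t j ∧ S.t j ≤ y then (1:ℝ) else 0)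
        + (if x ≤ S.t (j + 1) ∧ S.t (j + 1) ≤ y then 1 else 0))
      + S.bet j * (if x ≤ S.t j ∧ S.t j ≤ y then 1 else 0)) := by
    intro j hj
    rw [Finset.mem_range] at hj
    have h1 := bs_nonneg S hj
    have h2 := dg_nonneg S j
    have h3 := S.bet_nonneg j hj
    split_ifs <;> nlinarith
  refine le_trans ?_ (Finset.sum_le_sum_of_subset_of_nonneg hsub (fun j hj _ => hnn j hj))
  apply Finset.sum_le_sum
  intro j hj
  rw [Finset.mem_Ico] at hj
  have h1 := bs_nonneg S (by omega : j < S.n)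
  have h2 := dg_nonneg S j
  have h3 := S.bet_nonneg j (by omega)
  rcases h j hj.1 hj.2 with h4 | h4
  · rw [if_pos h4]
    split_ifs <;> nlinarith
  · rw [if_pos h4]
    split_ifs <;> nlinarith

/-- the final contradiction -/
theorem fin_contra {lam G τ r Y : ℝ} (hlam : lam ≤ 1 / 10 ^ 4) (hG : G ≤ r) (hr : 0 < r)
    (hgood : S.Good lam G τ) {A B : ℕ} (hAB : A ≤ B) (hB : B ≤ S.n)
    (hw : ∀ j, A ≤ j → j < B → |τ - S.t j| ≤ 4 * r ∨ |τ - S.t (j + 1)| ≤ 4 * r)
    (hY : ∑ j ∈ Finset.Ico A B, S.ys j ≤ Y) (ht : Y + r / 2 ≤ S.t B - S.t A) : False := by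
  have h1 := mu_ge S (A := A) hB (τ - 4 * r) (τ + 4 * r) (by
    intro j h1 h2
    rcases hw j h1 h2 with h3 | h3
    · left
      rw [abs_le] at h3
      constructor <;> linarith
    · right
      rw [abs_le] at h3
      constructor <;> linarith)
  have h2 := hgood (τ - 4 * r) (τ + 4 * r) (by linarith) (by linarith) (by linarith)
  have h3 : ∑ j ∈ Finset.Ico A B, S.bs j = (S.t B - S.t A) - ∑ j ∈ Finset.Ico A B, S.ys j := by
    rw [tsum S hAB hB, ← Finset.sum_sub_distrib]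
    rfl
  have h4 : lam * (τ + 4 * r - (τ - 4 * r)) ≤ 1 / 10 ^ 4 * (8 * r) := by
    have : τ + 4 * r - (τ - 4 * r) = 8 * r := by ring
    rw [this]
    exact mul_le_mul_of_nonneg_right hlam (by linarith)
  rw [h3] at h1
  norm_num at h4
  linarith

theorem Xdist {i : ℕ} {τ : ℝ} (hi : i < S.n) (hlo : S.t i ≤ τ) :
    ‖S.X i τ - loc (S.z 0)‖ ≤ τ := by
  have h1 := zdist S (Nat.zero_le i) hi.le
  rw [S.t_zero, sub_zero] at h1
  have h2 : S.X i τ - loc (S.z 0) = (loc (S.z i) - loc (S.z 0)) +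
      (((τ - S.t i) / S.len i : ℝ) : ℂ) * (loc (S.z (i + 1)) - loc (S.z i)) := by
    unfold Strand.X
    ring
  have h3 : ‖(((τ - S.t i) / S.len i : ℝ) : ℂ) * (loc (S.z (i + 1)) - loc (S.z i))‖ ≤
      τ - S.t i := by
    rw [norm_mul, Complex.norm_real, Real.norm_eq_abs]
    have h4 : ‖loc (S.z (i + 1)) - loc (S.z i)‖ = S.len i := rfl
    rw [h4]
    have h5 : 0 ≤ S.len i := norm_nonneg _
    rcases eq_or_lt_of_le h5 with h6 | h6
    · rw [← h6, mul_zero]; linarith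
    · rw [abs_of_nonneg (div_nonneg (by linarith) h5), div_mul_cancel₀ _ h6.ne']
  rw [h2]
  refine (norm_add_le _ _).trans ?_
  linarith

end strand

section geometry
variable {V : Type} [Fintype V] {loc : V → ℂ} {Mn : ℝ} (S : Strand loc Mn)

/-- the abstract geometric statement -/
theorem key {lam G del τ σ σc R r D β : ℝ} {i : ℕ} {cc C' : ℂ} {z' : V} {kk : V → ℂ}
    {Bx : V → Prop}
    (hlam0 : 0 < lam) (hlam : lam ≤ 1 / 10 ^ 4) (hG : 1 ≤ G) (hGσ : G ≤ σ)
    (hβ : 10 ^ 8 ≤ β) (hfine : S.Fine lam G del i τ) (hdel : del = 1 / β ^ 6)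
    (hR : R = ‖S.X i τ - cc‖)
    (hloc : ∀ x, (S.att x ≤ i ∧ ‖loc x - cc‖ ≤ R - (9 / 10) * (τ - S.t (S.att x)) + G ∧
          S.wd x ≤ (τ - S.t (S.att x)) / 100) ∨
       (i < S.att x ∧ S.att x < S.jo ∧
          R + (9 / 10) * (S.t (S.att x) - τ) - G ≤ ‖loc x - cc‖ ∧
          S.wd x ≤ (S.t (S.att x) - τ) / 100) ∨
       (S.jo ≤ S.att x ∧ (1 + lam / 2) * R ≤ ‖loc x - cc‖))
    (hz0 : ‖loc (S.z 0) - cc‖ ≤ 2 * σc) (hσc : 10 ^ 3 * σc ≤ lam * R)
    (hD : 10 ^ 3 * D ≤ lam * R) (hrσ : 10 ^ 8 * σ ≤ r) (hrD : r * β ^ 10 ≤ D)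
    (hhit : |‖C' - cc‖ - R| ≤ r + 1 + G) (hz' : ‖loc z' - C'‖ ≤ 3 / 2 * σ)
    (hkk : ∀ v, ‖kk v - loc v‖ ≤ 3 / 2 * σ)
    (hbox : ∀ v, ‖loc v - C'‖ * β < D → Bx v)
    (hRE : ∀ x x', (Bx x ∧ r - σ < ‖kk x - C'‖) → (Bx x' ∧ r - σ < ‖kk x' - C'‖) → ∀ ℓ : ℝ,
      (∃ s, (Bx s ∧ ‖kk s - C'‖ ≤ r - σ) ∧ ‖kk x - kk s‖ ≤ ℓ) →
      (∃ s, (Bx s ∧ ‖kk s - C'‖ ≤ r - σ) ∧ ‖kk x' - kk s‖ ≤ ℓ) → ℓ * β ^ 3 ≤ D →
      ∀ L : V → Prop, L x → ¬ L x' → ∃ xa xb, (Bx xa ∧ r - σ < ‖kk xa - C'‖) ∧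
        (Bx xb ∧ r - σ < ‖kk xb - C'‖) ∧ L xa ∧ ¬ L xb ∧ ‖kk xa - kk xb‖ ≤ ℓ + 40 * σ) :
    False := by
  have hσ0 : 0 < σ := by linarith
  have hr0 : 0 < r := by linarith
  have hβ0 : 0 < β := by linarith
  have hβ1 : (1:ℝ) ≤ β := by linarith
  -- basic size relations
  have hβ10 : (10:ℝ) ^ 8 ≤ β ^ 10 := by
    calc (10:ℝ) ^ 8 ≤ β := hβ
      _ = β ^ 1 := (pow_one β).symm
      _ ≤ β ^ 10 := pow_le_pow_right₀ hβ1 (by norm_num)
  have hrD' : 10 ^ 8 * r ≤ D := by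
    calc 10 ^ 8 * r ≤ β ^ 10 * r := mul_le_mul_of_nonneg_right hβ10 hr0.le
      _ = r * β ^ 10 := by ring
      _ ≤ D := hrD
  have hD0 : 0 < D := by linarith
  have hlR : 0 < lam * R := by linarith
  have hR0 : 0 < R := by
    by_contra h
    push Not at h
    have := mul_nonpos_of_nonneg_of_nonpos hlam0.le h
    linarith
  have hlR' : lam * R ≤ 1 / 10 ^ 4 * R := mul_le_mul_of_nonneg_right hlam hR0.le
  norm_num at hlR' hrD' hrσ hσc hD
  have hjo := jo_le S
  -- i < jo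
  have hτ : τ < (1 - 2 * lam) * S.tov := hfine.early
  have ht0 : 0 ≤ τ := by
    have h1 := tmono S (Nat.zero_le i) hfine.hi.le
    rw [S.t_zero] at h1
    linarith [hfine.lo]
  have htov0 : 0 < S.tov := by
    by_contra h
    push Not at h
    norm_num at hlam
    have : (1 - 2 * lam) * S.tov ≤ 0 := mul_nonpos_of_nonneg_of_nonpos (by linarith) h
    linarith
  have hτtov : 2 * lam * S.tov ≤ S.tov - τ := by nlinarith
  have hijo : i < S.jo := by
    by_contra h
    push Not at h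
    have h1 := tmono S h hfine.hi.le
    have h2 : S.t S.jo = S.tov := rfl
    have h3 : 0 < 2 * lam * S.tov := by positivity
    linarith [hfine.lo]
  -- the location lemma for points near the circle
  have loc3 : ∀ x B, |‖loc x - cc‖ - R| ≤ B → B ≤ 3 * r → S.att x < S.jo ∧
      (9 / 10) * |τ - S.t (S.att x)| ≤ B + G ∧ S.wd x ≤ |τ - S.t (S.att x)| / 100 := by
    intro x B hB hB3
    rw [abs_le] at hB
    rcases hloc x with ⟨h1, h2, h3⟩ | ⟨h1, h2, h3, h4⟩ | ⟨h1, h2⟩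
    · have h5 : 0 ≤ τ - S.t (S.att x) := by
        have := tmono S h1 hfine.hi.le
        linarith [hfine.lo]
      rw [abs_of_nonneg h5]
      exact ⟨by omega, by linarith, h3⟩
    · have h5 : τ - S.t (S.att x) ≤ 0 := by
        have := tmono S (Nat.succ_le_of_lt h1) (by omega)
        have h6 := hfine.up
        simp only [Nat.succ_eq_add_one] at this
        linarith
      rw [abs_of_nonpos h5]
      exact ⟨h2, by linarith, by linarith⟩
    · exfalso
      have h3 : (1 + lam / 2) * R = R + lam * R / 2 := by ring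
      rw [h3] at h2
      linarith
  -- Step B: the centre
  have hz'R : |‖loc z' - cc‖ - R| ≤ 11 / 10 * r := by
    have h1 : |‖loc z' - cc‖ - ‖C' - cc‖| ≤ ‖loc z' - C'‖ := by
      have := abs_norm_sub_norm_le (loc z' - cc) (C' - cc)
      rwa [sub_sub_sub_cancel_right] at this
    rw [abs_le] at h1 hhit ⊢
    constructor <;> linarith
  obtain ⟨hj1, hj2, hj3⟩ := loc3 z' _ hz'R (by linarith)
  set j' := S.att z' with hj'
  have hτj : |τ - S.t j'| ≤ 13 / 10 * r := by linarith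
  have hzj : ‖loc (S.z j') - C'‖ ≤ 2 / 100 * r := by
    have h1 : ‖loc z' - loc (S.z j')‖ ≤ S.wd z' := S.wd_dist z' (by omega)
    have h2 : ‖loc (S.z j') - C'‖ ≤ ‖loc (S.z j') - loc z'‖ + ‖loc z' - C'‖ :=
      norm_sub_le_norm_sub_add_norm_sub _ _ _
    rw [norm_sub_rev (loc (S.z j')) (loc z')] at h2
    linarith
  -- Step C: points in the ball
  have hIn : ∀ x, ‖kk x - C'‖ ≤ r - σ → S.att x < S.jo ∧ |τ - S.t (S.att x)| ≤ 24 / 10 * r ∧
      S.wd x ≤ 24 / 1000 * r ∧ |‖loc x - cc‖ - R| ≤ 21 / 10 * r := by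
    intro x hx
    have h0 : ‖loc x - C'‖ ≤ r + 1 / 2 * σ := by
      have h1 : ‖loc x - C'‖ ≤ ‖loc x - kk x‖ + ‖kk x - C'‖ :=
        norm_sub_le_norm_sub_add_norm_sub _ _ _
      rw [norm_sub_rev (loc x) (kk x)] at h1
      linarith [hkk x]
    have h1 : |‖loc x - cc‖ - ‖C' - cc‖| ≤ ‖loc x - C'‖ := by
      have := abs_norm_sub_norm_le (loc x - cc) (C' - cc)
      rwa [sub_sub_sub_cancel_right] at this
    have h2 : |‖loc x - cc‖ - R| ≤ 21 / 10 * r := by
      rw [abs_le] at h1 hhit ⊢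
      constructor <;> linarith
    obtain ⟨h3, h4, h5⟩ := loc3 x _ h2 (by linarith)
    refine ⟨h3, by linarith, by linarith, h2⟩
  -- Step D
  have hInj : Bx (S.z j') ∧ ‖kk (S.z j') - C'‖ ≤ r - σ := by
    constructor
    · apply hbox
      have h1 : ‖loc (S.z j') - C'‖ * β ≤ (2 / 100 * r) * β :=
        mul_le_mul_of_nonneg_right hzj hβ0.le
      have h2 : r * β ≤ r * β ^ 10 := by
        apply mul_le_mul_of_nonneg_left _ hr0.le
        calc β = β ^ 1 := (pow_one β).symm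
          _ ≤ β ^ 10 := pow_le_pow_right₀ hβ1 (by norm_num)
      have h3 : 0 < r * β := by positivity
      linarith
    · have h1 : ‖kk (S.z j') - C'‖ ≤ ‖kk (S.z j') - loc (S.z j')‖ + ‖loc (S.z j') - C'‖ :=
        norm_sub_le_norm_sub_add_norm_sub _ _ _
      linarith [hkk (S.z j')]
  -- Step E: outside points
  have hOut : ∀ x, r - σ < ‖kk x - C'‖ → S.att x ≠ j' ∧ (S.att x < j' →
      9 / 10 * r ≤ S.t j' - S.t (S.att x)) ∧ (j' < S.att x → 9 / 10 * r ≤ S.t (S.att x) - S.t j')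
      := by
    intro x hx
    have h1 : r - 5 / 2 * σ ≤ ‖loc x - C'‖ := by
      have h1 : ‖kk x - C'‖ ≤ ‖kk x - loc x‖ + ‖loc x - C'‖ :=
        norm_sub_le_norm_sub_add_norm_sub _ _ _
      linarith [hkk x]
    have h2 : 97 / 100 * r ≤ ‖loc x - loc (S.z j')‖ := by
      have h3 : ‖loc x - C'‖ ≤ ‖loc x - loc (S.z j')‖ + ‖loc (S.z j') - C'‖ :=
        norm_sub_le_norm_sub_add_norm_sub _ _ _
      linarith
    by_cases hx3 : S.att x < S.jo
    · have h3 : S.wd x ≤ |τ - S.t (S.att x)| / 100 := by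
        rcases hloc x with ⟨h1, h2, h3⟩ | ⟨h1, h2, h3, h4⟩ | ⟨h1, h2⟩
        · exact h3.trans (by linarith [le_abs_self (τ - S.t (S.att x))])
        · exact h4.trans (by
            have := neg_abs_le (τ - S.t (S.att x))
            linarith)
        · omega
      have h4 : ‖loc x - loc (S.z (S.att x))‖ ≤ S.wd x := S.wd_dist x (by omega)
      have h5 : ‖loc (S.z (S.att x)) - loc (S.z j')‖ ≤ |S.t (S.att x) - S.t j'| :=
        zdist' S (by omega) (by omega)
      have h6 : ‖loc x - loc (S.z j')‖ ≤ ‖loc x - loc (S.z (S.att x))‖ +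
          ‖loc (S.z (S.att x)) - loc (S.z j')‖ := norm_sub_le_norm_sub_add_norm_sub _ _ _
      have h7 : |τ - S.t (S.att x)| ≤ |τ - S.t j'| + |S.t (S.att x) - S.t j'| := by
        have : τ - S.t (S.att x) = (τ - S.t j') - (S.t (S.att x) - S.t j') := by ring
        rw [this]
        exact abs_sub _ _
      have h8 : 9 / 10 * r ≤ |S.t (S.att x) - S.t j'| := by linarith
      refine ⟨?_, ?_, ?_⟩
      · intro h
        rw [h, sub_self, abs_zero] at h8
        linarith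
      · intro h
        have := tmono S h.le (by omega)
        rw [abs_of_nonpos (by linarith)] at h8
        linarith
      · intro h
        have := tmono S h.le (by omega)
        rw [abs_of_nonneg (by linarith)] at h8
        linarith
    · push Not at hx3
      refine ⟨by omega, by omega, fun _ => ?_⟩
      have h3 : S.tov ≤ S.t (S.att x) := tmono S hx3 (S.att_le x)
      have h4 : R ≤ 2 * σc + τ := by
        have h5 := Xdist S hfine.hi hfine.lo
        have h6 : ‖S.X i τ - cc‖ ≤ ‖S.X i τ - loc (S.z 0)‖ + ‖loc (S.z 0) - cc‖ :=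
          norm_sub_le_norm_sub_add_norm_sub _ _ _
        rw [← hR] at h6
        linarith
      have h5 : R ≤ 2 * S.tov := by
        have : 0 < 2 * lam * S.tov := by positivity
        linarith
      have h6 : lam * R ≤ 2 * lam * S.tov := by nlinarith
      rw [abs_le] at hτj
      linarith
  -- lengths of edges near `τ`
  have hlen : ∀ j, j < S.n → (|τ - S.t j| ≤ 24 / 10 * r ∨ |τ - S.t (j + 1)| ≤ 24 / 10 * r) →
      S.len j ≤ 24 / 10 * r * β ^ 6 := by
    intro j hj h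
    have h1 := hfine.clear j hj
    rw [hdel] at h1
    have h2 : 1 / β ^ 6 * S.len j ≤ 24 / 10 * r := by
      rcases h with h | h
      · linarith [h1.1]
      · linarith [h1.2]
    rw [one_div, inv_mul_le_iff₀ (by positivity)] at h2
    linarith
  have hboxlen : ∀ v w, ‖kk v - C'‖ ≤ r - σ → ‖loc w - loc v‖ ≤ 24 / 10 * r * β ^ 6 → Bx w := by
    intro v w hv hw
    apply hbox
    have h1 : ‖loc w - C'‖ ≤ ‖loc w - loc v‖ + ‖loc v - C'‖ :=
      norm_sub_le_norm_sub_add_norm_sub _ _ _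
    have h2 : ‖loc v - C'‖ ≤ ‖loc v - kk v‖ + ‖kk v - C'‖ :=
      norm_sub_le_norm_sub_add_norm_sub _ _ _
    rw [norm_sub_rev (loc v) (kk v)] at h2
    have h3 := hkk v
    have h4 : r ≤ r * β ^ 6 := le_mul_of_one_le_right hr0.le (one_le_pow₀ hβ1)
    have h5 : ‖loc w - C'‖ ≤ 4 * (r * β ^ 6) := by linarith
    calc ‖loc w - C'‖ * β ≤ 4 * (r * β ^ 6) * β := mul_le_mul_of_nonneg_right h5 hβ0.le
      _ = 4 * (r * β ^ 7) := by ring
      _ < β ^ 3 * (r * β ^ 7) := by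
          apply mul_lt_mul_of_pos_right _ (by positivity)
          calc (4:ℝ) < β := by linarith
            _ = β ^ 1 := (pow_one β).symm
            _ ≤ β ^ 3 := pow_le_pow_right₀ hβ1 (by norm_num)
      _ = r * β ^ 10 := by ring
      _ ≤ D := hrD
  -- the first strand vertex to the right which is not in the ball
  obtain ⟨vR, hvR1, hvR2, hvR3, hvR4⟩ : ∃ vR, j' < vR ∧ vR ≤ S.n ∧
      ¬ (Bx (S.z vR) ∧ ‖kk (S.z vR) - C'‖ ≤ r - σ) ∧
      ∀ j, j' ≤ j → j < vR → (Bx (S.z j) ∧ ‖kk (S.z j) - C'‖ ≤ r - σ) := by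
    have hex : ∃ j, j' < j ∧ ¬ (Bx (S.z j) ∧ ‖kk (S.z j) - C'‖ ≤ r - σ) := by
      refine ⟨S.n, by omega, ?_⟩
      rintro ⟨-, h⟩
      have h1 := (hIn _ h).1
      rw [S.att_z S.n le_rfl] at h1
      omega
    refine ⟨Nat.find hex, (Nat.find_spec hex).1, ?_, (Nat.find_spec hex).2, ?_⟩
    · apply Nat.find_min' hex
      refine ⟨by omega, ?_⟩
      rintro ⟨-, h⟩
      have h1 := (hIn _ h).1
      rw [S.att_z S.n le_rfl] at h1
      omega
    · intro j h1 h2
      rcases eq_or_lt_of_le h1 with h3 | h3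
      · rw [← h3]; exact hInj
      · by_contra h4
        exact Nat.find_min hex h2 ⟨h3, h4⟩
  -- the last strand vertex to the left which is not in the ball
  obtain ⟨vL, hvL1, hvL3, hvL4⟩ : ∃ vL, vL < j' ∧
      ¬ (Bx (S.z vL) ∧ ‖kk (S.z vL) - C'‖ ≤ r - σ) ∧
      ∀ j, vL < j → j ≤ j' → (Bx (S.z j) ∧ ‖kk (S.z j) - C'‖ ≤ r - σ) := by
    set P : ℕ → Prop := fun j => ¬ (Bx (S.z j) ∧ ‖kk (S.z j) - C'‖ ≤ r - σ) with hP
    have hP0 : P 0 := by
      rintro ⟨-, h⟩
      have h1 := (hIn _ h).2.2.2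
      rw [abs_le] at h1
      linarith
    refine ⟨Nat.findGreatest P j', ?_, Nat.findGreatest_spec (Nat.zero_le j') hP0, ?_⟩
    · refine lt_of_le_of_ne (Nat.findGreatest_le j') ?_
      intro h
      have h1 : P (Nat.findGreatest P j') := Nat.findGreatest_spec (Nat.zero_le j') hP0
      rw [h] at h1
      exact h1 hInj
    · intro j h1 h2
      have h3 := Nat.findGreatest_is_greatest h1 h2
      simpa [hP] using h3
  have attz : ∀ j, j ≤ S.n → S.att (S.z j) = j := S.att_z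
  -- the edges `e_R`, `e_L`
  have hInR := hvR4 (vR - 1) (by omega) (by omega)
  have hInL := hvL4 (vL + 1) (by omega) (by omega)
  have hτR : ∀ j, j' ≤ j → j < vR → |τ - S.t j| ≤ 24 / 10 * r := by
    intro j h1 h2
    have h3 := (hIn _ (hvR4 j h1 h2).2).2.1
    rwa [attz j (by omega)] at h3
  have hτL : ∀ j, vL < j → j ≤ j' → |τ - S.t j| ≤ 24 / 10 * r := by
    intro j h1 h2
    have h3 := (hIn _ (hvL4 j h1 h2).2).2.1
    rwa [attz j (by omega)] at h3
  have hlR1 : S.len (vR - 1) ≤ 24 / 10 * r * β ^ 6 :=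
    hlen (vR - 1) (by omega) (Or.inl (hτR _ (by omega) (by omega)))
  have hlL1 : S.len vL ≤ 24 / 10 * r * β ^ 6 :=
    hlen vL (by omega) (Or.inr (hτL _ (by omega) (by omega)))
  have hOutR : Bx (S.z vR) ∧ r - σ < ‖kk (S.z vR) - C'‖ := by
    have h1 : Bx (S.z vR) := by
      apply hboxlen (S.z (vR - 1)) (S.z vR) hInR.2
      have h2 : S.len (vR - 1) = ‖loc (S.z vR) - loc (S.z (vR - 1))‖ := by
        unfold Strand.len
        rw [Nat.sub_add_cancel (by omega)]
      rw [← h2]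
      exact hlR1
    refine ⟨h1, ?_⟩
    by_contra h
    exact hvR3 ⟨h1, not_lt.mp h⟩
  have hOutL : Bx (S.z vL) ∧ r - σ < ‖kk (S.z vL) - C'‖ := by
    have h1 : Bx (S.z vL) := by
      apply hboxlen (S.z (vL + 1)) (S.z vL) hInL.2
      rw [norm_sub_rev]
      exact hlL1
    refine ⟨h1, ?_⟩
    by_contra h
    exact hvL3 ⟨h1, not_lt.mp h⟩
  -- distance between cells
  have hkd : ∀ v w, ‖kk v - kk w‖ ≤ ‖loc v - loc w‖ + 3 * σ := by
    intro v w
    have h1 : kk v - kk w = (kk v - loc v) + (loc v - loc w) - (kk w - loc w) := by ring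
    rw [h1]
    refine (norm_sub_le _ _).trans ?_
    have h2 := norm_add_le (kk v - loc v) (loc v - loc w)
    linarith [hkk v, hkk w]
  have hkd' : ∀ v w, ‖loc v - loc w‖ ≤ ‖kk v - kk w‖ + 3 * σ := by
    intro v w
    have h1 : loc v - loc w = (kk v - kk w) - (kk v - loc v) + (kk w - loc w) := by ring
    rw [h1]
    refine (norm_add_le _ _).trans ?_
    have h2 := norm_sub_le (kk v - kk w) (kk v - loc v)
    linarith [hkk v, hkk w]
  -- minimisers
  obtain ⟨xR, sR, hxR1, hxR2, hxR3, hxR4⟩ : ∃ xR sR, (Bx xR ∧ r - σ < ‖kk xR - C'‖) ∧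
      j' < S.att xR ∧ (Bx sR ∧ ‖kk sR - C'‖ ≤ r - σ) ∧
      ∀ x s, (Bx x ∧ r - σ < ‖kk x - C'‖) → j' < S.att x → (Bx s ∧ ‖kk s - C'‖ ≤ r - σ) →
        ‖kk xR - kk sR‖ ≤ ‖kk x - kk s‖ := by
    obtain ⟨p, hp, hpm⟩ := Finset.exists_min_image ((Finset.univ : Finset (V × V)).filter
      (fun p => (Bx p.1 ∧ r - σ < ‖kk p.1 - C'‖) ∧ j' < S.att p.1 ∧
        (Bx p.2 ∧ ‖kk p.2 - C'‖ ≤ r - σ))) (fun p => ‖kk p.1 - kk p.2‖)
      ⟨(S.z vR, S.z j'), by
        rw [Finset.mem_filter]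
        exact ⟨Finset.mem_univ _, hOutR, by rw [attz vR hvR2]; exact hvR1, hInj⟩⟩
    rw [Finset.mem_filter] at hp
    refine ⟨p.1, p.2, hp.2.1, hp.2.2.1, hp.2.2.2, fun x s h1 h2 h3 => ?_⟩
    exact hpm (x, s) (by
      rw [Finset.mem_filter]
      exact ⟨Finset.mem_univ _, h1, h2, h3⟩)
  obtain ⟨xL, sL, hxL1, hxL2, hxL3, hxL4⟩ : ∃ xL sL, (Bx xL ∧ r - σ < ‖kk xL - C'‖) ∧
      S.att xL < j' ∧ (Bx sL ∧ ‖kk sL - C'‖ ≤ r - σ) ∧
      ∀ x s, (Bx x ∧ r - σ < ‖kk x - C'‖) → S.att x < j' → (Bx s ∧ ‖kk s - C'‖ ≤ r - σ) →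
        ‖kk xL - kk sL‖ ≤ ‖kk x - kk s‖ := by
    obtain ⟨p, hp, hpm⟩ := Finset.exists_min_image ((Finset.univ : Finset (V × V)).filter
      (fun p => (Bx p.1 ∧ r - σ < ‖kk p.1 - C'‖) ∧ S.att p.1 < j' ∧
        (Bx p.2 ∧ ‖kk p.2 - C'‖ ≤ r - σ))) (fun p => ‖kk p.1 - kk p.2‖)
      ⟨(S.z vL, S.z j'), by
        rw [Finset.mem_filter]
        exact ⟨Finset.mem_univ _, hOutL, by rw [attz vL (by omega)]; exact hvL1, hInj⟩⟩
    rw [Finset.mem_filter] at hp
    refine ⟨p.1, p.2, hp.2.1, hp.2.2.1, hp.2.2.2, fun x s h1 h2 h3 => ?_⟩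
    exact hpm (x, s) (by
      rw [Finset.mem_filter]
      exact ⟨Finset.mem_univ _, h1, h2, h3⟩)
  set lamR := ‖kk xR - kk sR‖ with hlamR
  set lamL := ‖kk xL - kk sL‖ with hlamL
  have hlamR1 : lamR ≤ S.len (vR - 1) + 3 * σ := by
    have h1 := hxR4 (S.z vR) (S.z (vR - 1)) hOutR (by rw [attz vR hvR2]; exact hvR1) hInR
    have h2 := hkd (S.z vR) (S.z (vR - 1))
    have h3 : S.len (vR - 1) = ‖loc (S.z vR) - loc (S.z (vR - 1))‖ := by
      unfold Strand.len
      rw [Nat.sub_add_cancel (by omega)]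
    linarith
  have hlamL1 : lamL ≤ S.len vL + 3 * σ := by
    have h1 := hxL4 (S.z vL) (S.z (vL + 1)) hOutL (by rw [attz vL (by omega)]; exact hvL1) hInL
    have h2 := hkd (S.z vL) (S.z (vL + 1))
    have h3 : S.len vL = ‖loc (S.z vL) - loc (S.z (vL + 1))‖ := by
      unfold Strand.len
      rw [norm_sub_rev]
    linarith
  set ell := max lamL lamR with hell
  have hellD : ell * β ^ 3 ≤ D := by
    have h1 : ell ≤ 24 / 10 * r * β ^ 6 + 3 * σ := by
      rw [hell]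
      exact max_le (by linarith) (by linarith)
    have h2 : σ ≤ r * β ^ 6 := by
      have h4 : r ≤ r * β ^ 6 := le_mul_of_one_le_right hr0.le (one_le_pow₀ hβ1)
      linarith
    calc ell * β ^ 3 ≤ (6 * (r * β ^ 6)) * β ^ 3 := by
          apply mul_le_mul_of_nonneg_right _ (by positivity)
          linarith
      _ = 6 * (r * β ^ 9) := by ring
      _ ≤ β * (r * β ^ 9) := by
          apply mul_le_mul_of_nonneg_right _ (by positivity)
          linarith
      _ = r * β ^ 10 := by ring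
      _ ≤ D := hrD
  obtain ⟨xa, xb, hxa, hxb, hLa, hLb, hab⟩ := hRE xL xR hxL1 hxR1 ell
    ⟨sL, hxL3, le_max_left _ _⟩ ⟨sR, hxR3, le_max_right _ _⟩ hellD (fun x => S.att x < j') hxL2
    (by show ¬ (S.att xR < j'); omega)
  have hLb' : j' < S.att xb := by
    have h1 := (hOut xb hxb.2).1
    have h2 : ¬ (S.att xb < j') := hLb
    omega
  have hLa' : S.att xa < j' := hLa
  have hdist : ‖loc xa - loc xb‖ ≤ ell + 43 * σ := by linarith [hkd' xa xb]
  have hys : ∀ A B, S.att xa ≤ A → A ≤ B → B ≤ S.att xb →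
      ∑ j ∈ Finset.Ico A B, S.ys j ≤ ell + 43 * σ := by
    intro A B h1 h2 h3
    refine le_trans ?_ ((S.ypath xa xb (by omega)).trans hdist)
    apply Finset.sum_le_sum_of_subset_of_nonneg
    · exact Finset.Ico_subset_Ico h1 h3
    · intro j hj _
      rw [Finset.mem_Ico] at hj
      exact S.ys_nonneg j (lt_of_lt_of_le hj.2 (S.att_le xb))
  -- the indices `a'` and `b'`
  obtain ⟨a', ha1, ha2, ha3, ha4⟩ : ∃ a', S.att xa ≤ a' ∧ a' < j' ∧
      9 / 10 * r ≤ S.t j' - S.t a' ∧ ∀ j, a' < j → j ≤ j' → S.t j' - S.t j < 9 / 10 * r := by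
    set P : ℕ → Prop := fun j => 9 / 10 * r ≤ S.t j' - S.t j with hP
    have hPa : P (S.att xa) := (hOut xa hxa.2).2.1 hLa'
    refine ⟨Nat.findGreatest P j', Nat.le_findGreatest hLa'.le hPa, ?_,
      Nat.findGreatest_spec hLa'.le hPa, ?_⟩
    · refine lt_of_le_of_ne (Nat.findGreatest_le j') ?_
      intro h
      have h1 : P (Nat.findGreatest P j') := Nat.findGreatest_spec hLa'.le hPa
      rw [h] at h1
      have h2 : 9 / 10 * r ≤ S.t j' - S.t j' := h1
      linarith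
    · intro j h1 h2
      have h3 := Nat.findGreatest_is_greatest h1 h2
      exact not_le.mp h3
  obtain ⟨b', hb1, hb2, hb3, hb4⟩ : ∃ b', j' < b' ∧ b' ≤ S.att xb ∧
      9 / 10 * r ≤ S.t b' - S.t j' ∧ ∀ j, j' ≤ j → j < b' → S.t j - S.t j' < 9 / 10 * r := by
    have hex : ∃ j, j' ≤ j ∧ 9 / 10 * r ≤ S.t j - S.t j' :=
      ⟨S.att xb, hLb'.le, (hOut xb hxb.2).2.2 hLb'⟩
    have hs := Nat.find_spec hex
    refine ⟨Nat.find hex, ?_, Nat.find_min' hex ⟨hLb'.le, (hOut xb hxb.2).2.2 hLb'⟩, hs.2, ?_⟩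
    · refine lt_of_le_of_ne hs.1 ?_
      intro h
      have h1 := hs.2
      rw [← h] at h1
      linarith
    · intro j h1 h2
      by_contra h3
      exact Nat.find_min hex h2 ⟨h1, not_lt.mp h3⟩
  have hattb : S.att xb ≤ S.n := S.att_le xb
  -- windows
  have wL : ∀ j, a' ≤ j → j < j' → |τ - S.t (j + 1)| ≤ 4 * r := by
    intro j h1 h2
    have h3 := ha4 (j + 1) (by omega) (by omega)
    have h4 := tmono S (Nat.succ_le_of_lt h2) (by omega)
    simp only [Nat.succ_eq_add_one] at h4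
    rw [abs_le] at hτj ⊢
    constructor <;> linarith
  have wR : ∀ j, j' ≤ j → j < b' → |τ - S.t j| ≤ 4 * r := by
    intro j h1 h2
    have h3 := hb4 j h1 h2
    have h4 := tmono S h1 (by omega)
    rw [abs_le] at hτj ⊢
    constructor <;> linarith
  rcases le_or_gt ell r with hc | hc
  · -- case 1
    refine fin_contra S hlam (by linarith) hr0 hfine.good (A := a') (B := b') (by omega)
      (by omega) ?_ (hys a' b' ha1 (by omega) hb2) (by linarith)
    intro j h1 h2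
    rcases lt_or_ge j j' with h3 | h3
    · exact Or.inr (wL j h1 h3)
    · exact Or.inl (wR j h3 h2)
  · rcases le_total lamL lamR with hm | hm
    · -- case 2: the right side
      have hellR : ell = lamR := max_eq_right hm
      have hvb : vR ≤ S.att xb := by
        by_contra h
        push Not at h
        have h1 := hvR4 (S.att xb) hLb'.le h
        have h2 := hxR4 xb (S.z (S.att xb)) hxb hLb' h1
        have h3 := hIn _ h1.2
        rw [attz _ hattb] at h3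
        have h4 : S.wd xb ≤ |τ - S.t (S.att xb)| / 100 := by
          rcases hloc xb with ⟨q1, q2, q3⟩ | ⟨q1, q2, q3, q4⟩ | ⟨q1, q2⟩
          · exact q3.trans (by linarith [le_abs_self (τ - S.t (S.att xb))])
          · exact q4.trans (by
              have := neg_abs_le (τ - S.t (S.att xb))
              linarith)
          · omega
        have h5 : ‖loc xb - loc (S.z (S.att xb))‖ ≤ S.wd xb := S.wd_dist xb (by omega)
        have h6 := hkd xb (S.z (S.att xb))
        linarith [h3.2.1]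
      have e1 : S.t vR = S.t (vR - 1) + S.len (vR - 1) := by
        have := S.t_succ (vR - 1) (by omega)
        rw [Nat.sub_add_cancel (by omega)] at this
        rw [this]
        unfold Strand.len
        rw [Nat.sub_add_cancel (by omega)]
      have e2 := tmono S (show j' ≤ vR - 1 by omega) (by omega)
      refine fin_contra S hlam (by linarith) hr0 hfine.good (A := a') (B := vR) (by omega)
        hvR2 ?_ (hys a' vR ha1 (by omega) hvb) (by linarith)
      intro j h1 h2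
      rcases lt_or_ge j j' with h3 | h3
      · exact Or.inr (wL j h1 h3)
      · exact Or.inl ((hτR j h3 h2).trans (by linarith))
    · -- case 3: the left side
      have hellL : ell = lamL := max_eq_left hm
      have hva : S.att xa ≤ vL := by
        by_contra h
        push Not at h
        have h1 := hvL4 (S.att xa) h hLa'.le
        have h2 := hxL4 xa (S.z (S.att xa)) hxa hLa' h1
        have h3 := hIn _ h1.2
        rw [attz _ (by omega)] at h3
        have h4 : S.wd xa ≤ |τ - S.t (S.att xa)| / 100 := by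
          rcases hloc xa with ⟨q1, q2, q3⟩ | ⟨q1, q2, q3, q4⟩ | ⟨q1, q2⟩
          · exact q3.trans (by linarith [le_abs_self (τ - S.t (S.att xa))])
          · exact q4.trans (by
              have := neg_abs_le (τ - S.t (S.att xa))
              linarith)
          · omega
        have h5 : ‖loc xa - loc (S.z (S.att xa))‖ ≤ S.wd xa := S.wd_dist xa (by omega)
        have h6 := hkd xa (S.z (S.att xa))
        linarith [h3.2.1]
      have e1 : S.t (vL + 1) = S.t vL + S.len vL := S.t_succ vL (by omega)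
      have e2 := tmono S (show vL + 1 ≤ j' by omega) (by omega)
      refine fin_contra S hlam (by linarith) hr0 hfine.good (A := vL) (B := b') (by omega)
        (by omega) ?_ (hys vL b' hva (by omega) hb2) (by linarith)
      intro j h1 h2
      rcases lt_or_ge j j' with h3 | h3
      · exact Or.inr ((hτL (j + 1) (by omega) (by omega)).trans (by linarith))
      · exact Or.inl (wR j h3 h2)

end geometry

theorem ds_eq (p q : Pt) : ds p q = ‖pt p - pt q‖ := by
  rw [Complex.norm_def, Complex.normSq_apply]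
  unfold ds pt
  simp only [Complex.sub_re, Complex.sub_im]
  congr 1
  ring

theorem coord1 (p q : Pt) : |(p.1 : ℝ) - q.1| ≤ ‖pt p - pt q‖ := by
  have h := Complex.abs_re_le_norm (pt p - pt q)
  simpa [pt] using h

theorem coord2 (p q : Pt) : |(p.2 : ℝ) - q.2| ≤ ‖pt p - pt q‖ := by
  have h := Complex.abs_im_le_norm (pt p - pt q)
  simpa [pt] using h

theorem rd_dist {σ : ℕ} (hσ : 0 < σ) (x : Pt) : ‖pt (rd σ x) - pt x‖ ≤ 3 / 2 * (σ : ℝ) := by
  rw [← ds_eq]
  unfold ds rd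
  have key : ∀ n : ℕ, (((n / σ * σ : ℕ) : ℝ) - (n : ℝ)) ^ 2 ≤ (σ : ℝ) ^ 2 := by
    intro n
    have h1 : n / σ * σ ≤ n := Nat.div_mul_le_self n σ
    have h2 : n < n / σ * σ + σ := Nat.lt_div_mul_add hσ
    have h1' : ((n / σ * σ : ℕ) : ℝ) ≤ (n : ℝ) := by exact_mod_cast h1
    have h2' : (n : ℝ) < ((n / σ * σ : ℕ) : ℝ) + σ := by exact_mod_cast h2
    apply sq_le_sq'
    · linarith
    · have : (0:ℝ) ≤ σ := Nat.cast_nonneg σ
      linarith
  have hσ' : (0:ℝ) ≤ σ := Nat.cast_nonneg σ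
  rw [Real.sqrt_le_left (by positivity)]
  have h1 := key x.1
  have h2 := key x.2
  dsimp only
  nlinarith

theorem bx_of_near {β D : ℕ} {Z c' x : Pt} (hβ : 0 < β) (_hD : 0 < D) (hin : Inner β D Z c')
    (h : ‖pt x - pt c'‖ * (β : ℝ) < D) : bx D x = Z := by
  obtain ⟨h1, h2, h3, h4⟩ := hin
  have hβ' : (0:ℝ) < β := by exact_mod_cast hβ
  have c1 := coord1 x c'
  have c2 := coord2 x c'
  have h1' : (β : ℝ) * (Z.1 * D) + D ≤ β * c'.1 := by exact_mod_cast h1
  have h2' : (β : ℝ) * c'.1 + D ≤ β * ((Z.1 + 1) * D) := by exact_mod_cast h2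
  have h3' : (β : ℝ) * (Z.2 * D) + D ≤ β * c'.2 := by exact_mod_cast h3
  have h4' : (β : ℝ) * c'.2 + D ≤ β * ((Z.2 + 1) * D) := by exact_mod_cast h4
  rw [abs_le] at c1 c2
  have key : ∀ (a b z : ℕ), (β : ℝ) * (z * D) + D ≤ β * b → (β : ℝ) * b + D ≤ β * ((z + 1) * D) →
      -‖pt x - pt c'‖ ≤ (a : ℝ) - b → (a : ℝ) - b ≤ ‖pt x - pt c'‖ → a / D = z := by
    intro a b z e1 e2 e3 e4
    have f1 : -(‖pt x - pt c'‖ * β) ≤ ((a : ℝ) - b) * β := by nlinarith
    have f2 : ((a : ℝ) - b) * β ≤ ‖pt x - pt c'‖ * β := mul_le_mul_of_nonneg_right e4 hβ'.le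
    have g1 : (β : ℝ) * (z * D) < β * a := by linarith
    have g2 : (β : ℝ) * a < β * ((z + 1) * D) := by linarith
    have g1' : (z : ℝ) * D < a := lt_of_mul_lt_mul_left g1 hβ'.le
    have g2' : (a : ℝ) < (z + 1) * D := lt_of_mul_lt_mul_left g2 hβ'.le
    have g3 : z * D < a := by exact_mod_cast g1'
    have g4 : a < (z + 1) * D := by exact_mod_cast g2'
    exact Nat.div_eq_of_lt_le g3.le g4
  unfold bx
  exact Prod.ext (key x.1 c'.1 Z.1 h1' h2' c1.1 c1.2) (key x.2 c'.2 Z.2 h3' h4' c2.1 c2.2)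

end C2

open C2 in
theorem t_C2 (h : St_LOC) : St_C2 := by
  intro V _ pos loc sft Mn S lam G β D1 D σ i τ c σc ρ hpos hlam0 hlam hG1 hGM hβ hσ0 hσD hσD1
    hσβ hGσ hfine hz0 hGσc hσc hD hρ Z c' a hcand hhits
  obtain ⟨hcQ, hinner, haD1, haD, hfar, hrule⟩ := hcand
  have eX : S.X i τ + sft - pt c = S.X i τ - (pt c - sft) := by ring
  have ez : loc (S.z 0) + sft - pt c = loc (S.z 0) - (pt c - sft) := by ring
  rw [eX] at hσc hD hρ
  rw [ez] at hz0
  -- the centre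
  have hQ : ∀ q : Pt, q ∈ Qc D σ (Finset.univ.image pos) Z ↔
      ∃ v, bx D (pos v) = Z ∧ rd σ (pos v) = q := by
    intro q
    unfold Qc
    simp only [Finset.mem_image, Finset.mem_filter, Finset.mem_univ, true_and]
    constructor
    · rintro ⟨x, ⟨⟨v, rfl⟩, hv⟩, hx⟩
      exact ⟨v, hv, hx⟩
    · rintro ⟨v, hv, hx⟩
      exact ⟨pos v, ⟨⟨v, rfl⟩, hv⟩, hx⟩
  obtain ⟨z', hz'1, hz'2⟩ := (hQ c').mp hcQ
  have hσr : (0:ℝ) < σ := by exact_mod_cast hσ0
  have hβr : (10:ℝ) ^ 8 ≤ β := by exact_mod_cast hβ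
  have hβ0 : 0 < β := by omega
  have hD0 : 0 < D := by
    have : 0 < σ * β ^ 11 := by positivity
    omega
  have hsub : ∀ (p : Pt) (q : Pt), (pt p - sft) - (pt q - sft) = pt p - pt q := fun p q => by ring
  have hlv : ∀ v, loc v = pt (pos v) - sft := fun v => by rw [hpos v]; ring
  have hr1 : ((a : ℝ) + 1) * σ - σ = (a : ℝ) * σ := by ring
  have ha1 : 10 ^ 8 * (σ : ℝ) ≤ ((a : ℝ) + 1) * σ := by
    have h1 : 10 ^ 8 * σ ≤ a * σ :=
      (Nat.mul_le_mul hβ hσD1).trans haD1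
    have h2 : (10:ℝ) ^ 8 * σ ≤ a * σ := by exact_mod_cast h1
    linarith
  have ha2 : ((a : ℝ) + 1) * σ * (β : ℝ) ^ 10 ≤ D := by exact_mod_cast haD
  refine C2.key S (lam := lam) (G := G) (del := 1 / (β : ℝ) ^ 6) (τ := τ) (σ := (σ : ℝ))
    (σc := σc) (R := ‖S.X i τ - (pt c - sft)‖) (r := ((a : ℝ) + 1) * σ) (D := (D : ℝ))
    (β := (β : ℝ)) (i := i) (cc := pt c - sft) (C' := pt c' - sft) (z' := z')
    (kk := fun v => pt (rd σ (pos v)) - sft) (Bx := fun v => bx D (pos v) = Z)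
    hlam0 hlam hG1 hGσ hβr hfine rfl rfl
    (h V loc Mn S lam G (1 / (β : ℝ) ^ 6) τ i (pt c - sft) σc hlam0 hlam hG1 hGM hfine hz0 hGσc
      hσc) hz0 hσc hD ha1 ha2 ?_ ?_ ?_ ?_ ?_
  · -- the hit
    unfold Hits at hhits
    push Not at hhits
    rw [hsub, norm_sub_rev, ← ds_eq]
    obtain ⟨h1, h2⟩ := hhits
    rw [abs_le] at hρ ⊢
    constructor <;> linarith
  · rw [hlv, hsub, ← hz'2, norm_sub_rev]
    exact rd_dist hσ0 _
  · intro v
    rw [hlv, hsub]
    exact rd_dist hσ0 _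
  · intro v hv
    rw [hlv, hsub] at hv
    exact bx_of_near hβ0 hD0 hinner hv
  · intro x x' hx hx' ℓ hs hs' hℓ L hLx hLx'
    simp only [hsub, ← ds_eq, hr1] at hx hx' hs hs' ⊢
    have hr := hrule (rd σ (pos x)) ((hQ _).mpr ⟨x, hx.1, rfl⟩) (rd σ (pos x'))
      ((hQ _).mpr ⟨x', hx'.1, rfl⟩) hx.2 hx'.2 ℓ
      (by
        obtain ⟨s, hs1, hs2⟩ := hs
        exact ⟨rd σ (pos s), (hQ _).mpr ⟨s, hs1.1, rfl⟩, hs1.2, hs2⟩)
      (by
        obtain ⟨s, hs1, hs2⟩ := hs'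
        exact ⟨rd σ (pos s), (hQ _).mpr ⟨s, hs1.1, rfl⟩, hs1.2, hs2⟩) hℓ
    by_contra hcon
    push Not at hcon
    have hℓ0 : 0 ≤ ℓ := by
      obtain ⟨s, -, hs2⟩ := hs
      refine le_trans ?_ hs2
      rw [ds_eq]
      exact norm_nonneg _
    have key : ∀ q, Reach σ (Qc D σ (Finset.univ.image pos) Z) c' a (ℓ + 40 * σ)
        (rd σ (pos x)) q → ∃ y, bx D (pos y) = Z ∧ rd σ (pos y) = q ∧
          (a : ℝ) * σ < ds q c' ∧ L y := by
      intro q hq
      induction hq with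
      | refl => exact ⟨x, hx.1, rfl, hx.2, hLx⟩
      | @tail q1 q2 _ hst ih =>
        obtain ⟨y1, hy1, hy2, hy3, hy4⟩ := ih
        obtain ⟨y2, hz1, hz2⟩ := (hQ q2).mp hst.1
        refine ⟨y2, hz1, hz2, hst.2.1, ?_⟩
        by_contra hL
        have h1 := hcon y1 y2 ⟨hy1, by rw [hy2]; exact hy3⟩ ⟨hz1, by rw [hz2]; exact hst.2.1⟩
          hy4 hL
        rw [hy2, hz2] at h1
        exact absurd hst.2.2 (not_le.mpr h1)
    obtain ⟨y, hy1, hy2, hy3, hy4⟩ := key _ hr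
    have h1 := hcon y x' ⟨hy1, by rw [hy2]; exact hy3⟩ hx' hy4 hLx'
    rw [hy2, ds_eq, sub_self, norm_zero] at h1
    have : (0:ℝ) ≤ ℓ + 40 * σ := by positivity
    linarith

end Pool.Agent.H660R3.TS
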