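import Pool.Agent.H660R3.TS.Stubs

/-!
# Counting the bad grid locations of a strand (task BAD of `h660_tasks`, helper51)
-/

set_option autoImplicit false

open scoped Classical

namespace Pool.Agent.H660R3.TS

namespace BAD

/-- number of multiples of `G` in an interval -/
lemma cnt (F : Finset ℕ) (G : ℕ) (x y : ℝ) (hxy : x ≤ y)
    (h : ∀ m ∈ F, x ≤ (G : ℝ) * m ∧ (G : ℝ) * m ≤ y) :
    (G : ℝ) * F.card ≤ y - x + G := by
  rcases F.eq_empty_or_nonempty with hF | hF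
  · subst hF
    simp only [Finset.card_empty, Nat.cast_zero, mul_zero]
    have : (0 : ℝ) ≤ G := Nat.cast_nonneg G
    linarith
  · have h1 := h _ (F.min'_mem hF)
    have h2 := h _ (F.max'_mem hF)
    have hle : F.min' hF ≤ F.max' hF := F.min'_le _ (F.max'_mem hF)
    have hsub : F ⊆ Finset.Icc (F.min' hF) (F.max' hF) := fun m hm =>
      Finset.mem_Icc.2 ⟨F.min'_le _ hm, F.le_max' _ hm⟩
    have hc := Finset.card_le_card hsub
    rw [Nat.card_Icc] at hc
    have hc2 : F.card + F.min' hF ≤ F.max' hF + 1 := by omega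
    have hc3 : (F.card : ℝ) + (F.min' hF : ℝ) ≤ (F.max' hF : ℝ) + 1 := by exact_mod_cast hc2
    have hG : (0 : ℝ) ≤ G := Nat.cast_nonneg G
    nlinarith [mul_le_mul_of_nonneg_left hc3 hG]

section

variable {V : Type} {loc : V → ℂ} {Mn : ℝ} (S : Strand loc Mn)

lemma t_step (j : ℕ) (hj : j < S.n) : S.t (j + 1) = S.t j + S.len j := S.t_succ j hj

lemma len_nonneg (j : ℕ) : 0 ≤ S.len j := norm_nonneg _

lemma t_le (i j : ℕ) (hij : i ≤ j) (hj : j ≤ S.n) : S.t i ≤ S.t j := by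
  induction j, hij using Nat.le_induction with
  | base => exact le_refl _
  | succ j hij ih =>
    have h1 := t_step S j (by omega)
    have h2 := len_nonneg S j
    have h3 := ih (by omega)
    linarith

lemma t_nonneg (j : ℕ) (hj : j ≤ S.n) : 0 ≤ S.t j := by
  have := t_le S 0 j (Nat.zero_le _) hj
  rwa [S.t_zero] at this

lemma sum_len (n : ℕ) (hn : n ≤ S.n) : ∑ j ∈ Finset.range n, S.len j = S.t n := by
  induction n with
  | zero => simp [S.t_zero]
  | succ n ih =>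
    rw [Finset.sum_range_succ, ih (by omega), t_step S n (by omega)]

lemma bs_nonneg (j : ℕ) (hj : j < S.n) : 0 ≤ S.bs j := by
  have := S.ys_le j hj
  unfold Strand.bs Strand.len
  linarith

lemma dg_nonneg (j : ℕ) : 0 ≤ S.dg j := by
  unfold Strand.dg Strand.f Strand.len
  have : ‖loc (S.z (j + 1)) - loc (S.z 0)‖ ≤
      ‖loc (S.z (j + 1)) - loc (S.z j)‖ + ‖loc (S.z j) - loc (S.z 0)‖ := by
    have := norm_add_le (loc (S.z (j + 1)) - loc (S.z j)) (loc (S.z j) - loc (S.z 0))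
    simpa using this
  linarith

lemma exists_index (n : ℕ) (hn : n ≤ S.n) (τ : ℝ) (h0 : 0 ≤ τ) (h1 : τ < S.t n) :
    ∃ i < n, S.t i ≤ τ ∧ τ < S.t (i + 1) := by
  induction n with
  | zero => rw [S.t_zero] at h1; linarith
  | succ n ih =>
    by_cases h : S.t n ≤ τ
    · exact ⟨n, Nat.lt_succ_self n, h, h1⟩
    · obtain ⟨i, hi, h2⟩ := ih (by omega) (by linarith)
      exact ⟨i, by omega, h2⟩

lemma jo_le : S.jo ≤ S.n := Nat.sInf_le (Or.inl rfl)

lemma muTot_nonneg : 0 ≤ S.muTot := by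
  unfold Strand.muTot
  refine Finset.sum_nonneg fun j hj => ?_
  have hj' := Finset.mem_range.1 hj
  have h1 := bs_nonneg S j hj'
  have h2 := dg_nonneg S j
  have h3 := S.bet_nonneg j hj'
  linarith

/-- mass of the atoms in the cell `q` -/
noncomputable def nu (G : ℕ) (q : ℕ) : ℝ :=
  ∑ j ∈ Finset.range S.n,
    ((S.bs j + S.dg j) * ((if ⌊S.t j / G⌋₊ = q then 1 else 0)
        + (if ⌊S.t (j + 1) / G⌋₊ = q then 1 else 0))
      + S.bet j * (if ⌊S.t j / G⌋₊ = q then 1 else 0))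

lemma nu_nonneg (G q : ℕ) : 0 ≤ nu S G q := by
  unfold nu
  refine Finset.sum_nonneg fun j hj => ?_
  have hj' := Finset.mem_range.1 hj
  have h1 := bs_nonneg S j hj'
  have h2 := dg_nonneg S j
  have h3 := S.bet_nonneg j hj'
  have e1 : (0 : ℝ) ≤ (if ⌊S.t j / G⌋₊ = q then 1 else 0) := by split_ifs <;> norm_num
  have e2 : (0 : ℝ) ≤ (if ⌊S.t (j + 1) / G⌋₊ = q then 1 else 0) := by split_ifs <;> norm_num
  positivity

lemma sum_ite_mem (s : Finset ℕ) (a : ℕ) :
    ∑ q ∈ s, (if a = q then (1 : ℝ) else 0) = if a ∈ s then 1 else 0 := by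
  rw [Finset.sum_ite_eq]

lemma sum_nu (G : ℕ) (s : Finset ℕ) :
    ∑ q ∈ s, nu S G q = ∑ j ∈ Finset.range S.n,
    ((S.bs j + S.dg j) * ((if ⌊S.t j / G⌋₊ ∈ s then 1 else 0)
        + (if ⌊S.t (j + 1) / G⌋₊ ∈ s then 1 else 0))
      + S.bet j * (if ⌊S.t j / G⌋₊ ∈ s then 1 else 0)) := by
  unfold nu
  rw [Finset.sum_comm]
  refine Finset.sum_congr rfl fun j _ => ?_
  rw [Finset.sum_add_distrib, ← Finset.mul_sum, Finset.sum_add_distrib, ← Finset.mul_sum,
    sum_ite_mem, sum_ite_mem]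

lemma floor_le (G : ℕ) (x y : ℝ) (h : x ≤ y) : ⌊x / G⌋₊ ≤ ⌊y / G⌋₊ :=
  Nat.floor_mono (div_le_div_of_nonneg_right h (Nat.cast_nonneg G))

lemma sum_nu_tot (G : ℕ) :
    ∑ q ∈ Finset.range (⌊S.t S.n / G⌋₊ + 1), nu S G q = S.muTot := by
  rw [sum_nu]
  unfold Strand.muTot
  refine Finset.sum_congr rfl fun j hj => ?_
  have hj' := Finset.mem_range.1 hj
  have h1 : ⌊S.t j / G⌋₊ ∈ Finset.range (⌊S.t S.n / G⌋₊ + 1) :=
    Finset.mem_range.2 (Nat.lt_succ_of_le (floor_le G _ _ (t_le S j S.n hj'.le le_rfl)))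
  have h2 : ⌊S.t (j + 1) / G⌋₊ ∈ Finset.range (⌊S.t S.n / G⌋₊ + 1) :=
    Finset.mem_range.2 (Nat.lt_succ_of_le (floor_le G _ _ (t_le S (j + 1) S.n hj' le_rfl)))
  rw [if_pos h1, if_pos h2]
  ring

lemma ite_le_ite (p q : Prop) [Decidable p] [Decidable q] (h : p → q) :
    (if p then (1 : ℝ) else 0) ≤ if q then 1 else 0 := by
  by_cases hp : p
  · rw [if_pos hp, if_pos (h hp)]
  · rw [if_neg hp]
    split_ifs <;> norm_num

lemma mu_le (G : ℕ) (A B : ℝ) :
    S.mu A B ≤ ∑ q ∈ Finset.Icc ⌊A / G⌋₊ (min ⌊B / G⌋₊ ⌊S.t S.n / G⌋₊), nu S G q := by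
  rw [sum_nu]
  unfold Strand.mu
  refine Finset.sum_le_sum fun j hj => ?_
  have hj' := Finset.mem_range.1 hj
  have h1 := bs_nonneg S j hj'
  have h2 := dg_nonneg S j
  have h3 := S.bet_nonneg j hj'
  have key : ∀ i ≤ S.n, (if A ≤ S.t i ∧ S.t i ≤ B then (1 : ℝ) else 0) ≤
      if ⌊S.t i / G⌋₊ ∈ Finset.Icc ⌊A / G⌋₊ (min ⌊B / G⌋₊ ⌊S.t S.n / G⌋₊) then 1 else 0 := by
    intro i hi
    refine ite_le_ite _ _ fun h => ?_
    exact Finset.mem_Icc.2 ⟨floor_le G _ _ h.1,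
      le_min (floor_le G _ _ h.2) (floor_le G _ _ (t_le S i S.n hi le_rfl))⟩
  have k1 := key j hj'.le
  have k2 := key (j + 1) hj'
  have h12 : 0 ≤ S.bs j + S.dg j := by linarith
  exact add_le_add (mul_le_mul_of_nonneg_left (add_le_add k1 k2) h12)
    (mul_le_mul_of_nonneg_left k1 h3)

/-- the locations which are not good -/
lemma partA (h1 : St_COV) (lam : ℝ) (G : ℕ) (hlam : 0 < lam) (hG : 1 ≤ G) :
    (G : ℝ) * ((Finset.range ⌈S.t S.n / G⌉₊).filter (fun n' : ℕ =>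
      ¬ S.Good lam G ((G : ℝ) * n'))).card ≤ 6 / lam * S.muTot := by
  have hGr : (1 : ℝ) ≤ G := by exact_mod_cast hG
  have hG0 : (0 : ℝ) < G := by linarith
  have hθ : 0 < lam * G / 3 := by positivity
  have hcov := h1 (⌊S.t S.n / G⌋₊ + 1) (nu S G) (lam * G / 3) (nu_nonneg S G) hθ
  rw [sum_nu_tot] at hcov
  have hsub : ((Finset.range ⌈S.t S.n / G⌉₊).filter (fun n' : ℕ =>
      ¬ S.Good lam G ((G : ℝ) * n'))) ⊆
      ((Finset.range (⌊S.t S.n / G⌋₊ + 1)).filter (fun m => ∃ a b, a ≤ m ∧ m ≤ b ∧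
        b < ⌊S.t S.n / G⌋₊ + 1 ∧
        (lam * G / 3) * ((b : ℝ) - a + 1) < ∑ i ∈ Finset.Icc a b, nu S G i)) := by
    intro m hm
    rw [Finset.mem_filter, Finset.mem_range] at hm
    obtain ⟨hm1, hm2⟩ := hm
    have hm3 : (m : ℝ) < S.t S.n / G := by
      by_contra hcon
      have : ⌈S.t S.n / G⌉₊ ≤ m := Nat.ceil_le.2 (not_lt.1 hcon)
      omega
    have hm4 : m ≤ ⌊S.t S.n / G⌋₊ := Nat.le_floor hm3.le
    unfold Strand.Good at hm2
    push Not at hm2
    obtain ⟨A, B, hA, hB, hAB, hmu⟩ := hm2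
    rw [Finset.mem_filter, Finset.mem_range]
    refine ⟨by omega, ⌊A / G⌋₊, min ⌊B / G⌋₊ ⌊S.t S.n / G⌋₊, ?_, ?_, ?_, ?_⟩
    · have : ⌊A / G⌋₊ ≤ ⌊((m : ℕ) : ℝ)⌋₊ := Nat.floor_mono (by
        rw [div_le_iff₀ hG0]; linarith)
      rwa [Nat.floor_natCast] at this
    · refine le_min (Nat.le_floor ?_) hm4
      rw [le_div_iff₀ hG0]; linarith
    · exact Nat.lt_succ_of_le (min_le_right _ _)
    · refine lt_of_le_of_lt ?_ (lt_of_lt_of_le hmu (mu_le S G A B))
      have hb : ((min ⌊B / G⌋₊ ⌊S.t S.n / G⌋₊ : ℕ) : ℝ) ≤ B / G := by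
        have hB0 : 0 ≤ B / G := by
          have : (0 : ℝ) ≤ (G : ℝ) * m := by positivity
          exact div_nonneg (by linarith) hG0.le
        have h5 : ((min ⌊B / G⌋₊ ⌊S.t S.n / G⌋₊ : ℕ) : ℝ) ≤ (⌊B / G⌋₊ : ℝ) := by
          exact_mod_cast min_le_left _ _
        exact h5.trans (Nat.floor_le hB0)
      have ha : A / G < (⌊A / G⌋₊ : ℝ) + 1 := Nat.lt_floor_add_one _
      have h6 : ((min ⌊B / G⌋₊ ⌊S.t S.n / G⌋₊ : ℕ) : ℝ) - (⌊A / G⌋₊ : ℝ) + 1 ≤
          (B - A) / G + 2 := by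
        rw [sub_div]; linarith
      have h7 : (lam * G / 3) * ((B - A) / G + 2) ≤ lam * (B - A) := by
        have : (lam * G / 3) * ((B - A) / G + 2) = lam / 3 * ((B - A) + 2 * G) := by
          field_simp
        rw [this]
        nlinarith
      exact (mul_le_mul_of_nonneg_left h6 hθ.le).trans h7
  have hcard : (((Finset.range ⌈S.t S.n / G⌉₊).filter (fun n' : ℕ =>
      ¬ S.Good lam G ((G : ℝ) * n'))).card : ℝ) ≤
      (((Finset.range (⌊S.t S.n / G⌋₊ + 1)).filter (fun m => ∃ a b, a ≤ m ∧ m ≤ b ∧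
        b < ⌊S.t S.n / G⌋₊ + 1 ∧
        (lam * G / 3) * ((b : ℝ) - a + 1) < ∑ i ∈ Finset.Icc a b, nu S G i)).card : ℝ) := by
    exact_mod_cast Finset.card_le_card hsub
  have h8 := (mul_le_mul_of_nonneg_left hcard hθ.le).trans hcov
  have h9 : 6 / lam * S.muTot = (3 / lam) * (2 * S.muTot) := by ring
  rw [h9]
  have h10 : (G : ℝ) * ((Finset.range ⌈S.t S.n / G⌉₊).filter (fun n' : ℕ =>
      ¬ S.Good lam G ((G : ℝ) * n'))).card = (3 / lam) * ((lam * G / 3) *
      ((Finset.range ⌈S.t S.n / G⌉₊).filter (fun n' : ℕ =>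
      ¬ S.Good lam G ((G : ℝ) * n'))).card) := by
    field_simp
  rw [h10]
  exact mul_le_mul_of_nonneg_left h8 (by positivity)

lemma partB (h2 : St_OV) (lam : ℝ) (G : ℕ) (hlam : 0 < lam) (hlam1 : lam ≤ 1 / 10 ^ 4)
    (hMn : 0 < Mn) (N : ℕ) (hN : ∀ m < N, (G : ℝ) * m < S.t S.n) :
    (G : ℝ) * ((Finset.range N).filter (fun n' : ℕ =>
      (1 - 2 * lam) * S.tov ≤ (G : ℝ) * n')).card ≤
      4 * S.muTot + 2 * lam * S.t S.n + G := by
  have hov := h2 V loc Mn S hMn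
  have htov0 : 0 ≤ S.tov := t_nonneg S _ (jo_le S)
  have htov1 : S.tov ≤ S.t S.n := t_le S _ _ (jo_le S) le_rfl
  have hc := cnt ((Finset.range N).filter (fun n' : ℕ =>
      (1 - 2 * lam) * S.tov ≤ (G : ℝ) * n')) G ((1 - 2 * lam) * S.tov) (S.t S.n) (by nlinarith)
      (by
        intro m hm
        rw [Finset.mem_filter, Finset.mem_range] at hm
        exact ⟨hm.2, (hN m hm.1).le⟩)
  nlinarith

lemma partC (del : ℝ) (G : ℕ) (hdel : 0 < del) (s : Finset ℕ) (j : ℕ) (x : ℝ) :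
    (G : ℝ) * (s.filter (fun n' : ℕ =>
      |(G : ℝ) * n' - x| ≤ del * S.len j)).card ≤ 2 * del * S.len j + G := by
  have hl := len_nonneg S j
  have hc := cnt (s.filter (fun n' : ℕ =>
      |(G : ℝ) * n' - x| ≤ del * S.len j)) G (x - del * S.len j) (x + del * S.len j)
      (by nlinarith [mul_nonneg hdel.le hl])
      (by
        intro m hm
        rw [Finset.mem_filter] at hm
        have := abs_le.1 hm.2
        constructor <;> linarith [this.1, this.2])
  linarith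

end

/-- the statement `St_BAD` was elaborated with a `Finset ℝ` (image of the range under the cast) -/
lemma tr (N : ℕ) (p : ℝ → Prop) [DecidablePred p] :
    (Finset.filter p (do let a ← Finset.range N; pure (a : ℝ))).card =
      ((Finset.range N).filter (fun n : ℕ => p n)).card := by
  have : Finset.filter p (do let a ← Finset.range N; pure (a : ℝ)) =
      ((Finset.range N).filter (fun n : ℕ => p n)).image (fun n : ℕ => (n : ℝ)) := by
    ext x
    simp only [Finset.mem_filter, Finset.mem_image, Finset.bind_def, Finset.pure_def,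
      Finset.mem_sup, Finset.mem_singleton, Finset.mem_range]
    constructor
    · rintro ⟨⟨a, ha, rfl⟩, h2⟩
      exact ⟨a, ⟨ha, h2⟩, rfl⟩
    · rintro ⟨a, ⟨ha, h2⟩, rfl⟩
      exact ⟨⟨a, ha, rfl⟩, h2⟩
  rw [this, Finset.card_image_of_injective _ Nat.cast_injective]

end BAD

open BAD in
/-- the natural number form of `St_BAD` -/
theorem t_BAD' (h1 : St_COV) (h2 : St_OV) (V : Type) (loc : V → ℂ) (Mn : ℝ) (S : Strand loc Mn)
    (lam del : ℝ) (G : ℕ) (hlam : 0 < lam) (hlam1 : lam ≤ 1 / 10 ^ 4) (hG : 1 ≤ G)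
    (hGM : 1000 * (G : ℝ) ≤ Mn) (hdel : 0 < del) (hdel1 : del ≤ 1 / 100) :
    (G : ℝ) * ((Finset.range ⌈S.t S.n / G⌉₊).filter (fun n' : ℕ =>
      ¬ ∃ i, S.Fine lam G del i ((G : ℝ) * n'))).card ≤
    16 / lam * S.muTot + 4 * S.muTot + 2 * lam * S.t S.n + 8 * del * S.t S.n + 10 * G * S.n := by
  have hGr : (1 : ℝ) ≤ G := by exact_mod_cast hG
  have hG0 : (0 : ℝ) < G := by linarith
  have hMn : 0 < Mn := by linarith
  set N := ⌈S.t S.n / G⌉₊ with hNdef
  have hN : ∀ m < N, (G : ℝ) * m < S.t S.n := by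
    intro m hm
    have hm3 : (m : ℝ) < S.t S.n / G := by
      by_contra hcon
      have : ⌈S.t S.n / G⌉₊ ≤ m := Nat.ceil_le.2 (not_lt.1 hcon)
      omega
    rw [lt_div_iff₀ hG0] at hm3
    linarith
  have hA := partA S h1 lam G hlam hG
  rw [← hNdef] at hA
  have hB := partB S h2 lam G hlam hlam1 hMn N hN
  set FA := (Finset.range N).filter (fun n' : ℕ => ¬ S.Good lam G ((G : ℝ) * n')) with hFA
  set FB := (Finset.range N).filter (fun n' : ℕ => (1 - 2 * lam) * S.tov ≤ (G : ℝ) * n') with hFB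
  set FC := (Finset.range S.n).biUnion (fun j =>
    ((Finset.range N).filter (fun n' : ℕ => |(G : ℝ) * n' - S.t j| ≤ del * S.len j)) ∪
    ((Finset.range N).filter (fun n' : ℕ => |(G : ℝ) * n' - S.t (j + 1)| ≤ del * S.len j)))
    with hFC
  have hCc : (G : ℝ) * FC.card ≤ 4 * del * S.t S.n + 2 * G * S.n := by
    have h3 : FC.card ≤ ∑ j ∈ Finset.range S.n,
        (((Finset.range N).filter (fun n' : ℕ => |(G : ℝ) * n' - S.t j| ≤ del * S.len j)).card +
        ((Finset.range N).filter (fun n' : ℕ =>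
          |(G : ℝ) * n' - S.t (j + 1)| ≤ del * S.len j)).card) := by
      refine Finset.card_biUnion_le.trans (Finset.sum_le_sum fun j _ => ?_)
      exact Finset.card_union_le _ _
    have h4 : (FC.card : ℝ) ≤ ∑ j ∈ Finset.range S.n,
        ((((Finset.range N).filter (fun n' : ℕ =>
            |(G : ℝ) * n' - S.t j| ≤ del * S.len j)).card : ℝ) +
        (((Finset.range N).filter (fun n' : ℕ =>
          |(G : ℝ) * n' - S.t (j + 1)| ≤ del * S.len j)).card : ℝ)) := by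
      exact_mod_cast h3
    have h5 := mul_le_mul_of_nonneg_left h4 hG0.le
    rw [Finset.mul_sum] at h5
    refine h5.trans ?_
    have h6 : ∑ j ∈ Finset.range S.n, (G : ℝ) * ((((Finset.range N).filter (fun n' : ℕ =>
            |(G : ℝ) * n' - S.t j| ≤ del * S.len j)).card : ℝ) +
        (((Finset.range N).filter (fun n' : ℕ =>
          |(G : ℝ) * n' - S.t (j + 1)| ≤ del * S.len j)).card : ℝ)) ≤
        ∑ j ∈ Finset.range S.n, (4 * del * S.len j + 2 * G) := by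
      refine Finset.sum_le_sum fun j _ => ?_
      have c1 := partC S del G hdel (Finset.range N) j (S.t j)
      have c2 := partC S del G hdel (Finset.range N) j (S.t (j + 1))
      rw [mul_add]
      linarith
    refine h6.trans ?_
    rw [Finset.sum_add_distrib, ← Finset.mul_sum, sum_len S S.n le_rfl, Finset.sum_const,
      Finset.card_range, nsmul_eq_mul]
    linarith
  have hsub : ((Finset.range N).filter (fun n' : ℕ =>
      ¬ ∃ i, S.Fine lam G del i ((G : ℝ) * n'))) ⊆ FA ∪ (FB ∪ FC) := by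
    intro m hm
    rw [Finset.mem_filter] at hm
    obtain ⟨hm1, hm2⟩ := hm
    by_contra hcon
    rw [Finset.mem_union, Finset.mem_union, not_or, not_or] at hcon
    obtain ⟨hA', hB', hC'⟩ := hcon
    have hm1' := Finset.mem_range.1 hm1
    have g1 : S.Good lam G ((G : ℝ) * m) := by
      by_contra hg
      exact hA' (Finset.mem_filter.2 ⟨hm1, hg⟩)
    have g2 : (G : ℝ) * m < (1 - 2 * lam) * S.tov := by
      by_contra hg
      exact hB' (Finset.mem_filter.2 ⟨hm1, not_lt.1 hg⟩)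
    obtain ⟨i, hi, hi1, hi2⟩ := exists_index S S.n le_rfl ((G : ℝ) * m) (by positivity)
      (hN m hm1')
    refine hm2 ⟨i, hi, hi1, hi2, g1, g2, ?_⟩
    intro j hj
    have hj' := Finset.mem_range.2 hj
    constructor
    · by_contra hg
      refine hC' (Finset.mem_biUnion.2 ⟨j, hj', Finset.mem_union_left _ ?_⟩)
      exact Finset.mem_filter.2 ⟨hm1, not_lt.1 hg⟩
    · by_contra hg
      refine hC' (Finset.mem_biUnion.2 ⟨j, hj', Finset.mem_union_right _ ?_⟩)
      exact Finset.mem_filter.2 ⟨hm1, not_lt.1 hg⟩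
  have hcard : (((Finset.range N).filter (fun n' : ℕ =>
      ¬ ∃ i, S.Fine lam G del i ((G : ℝ) * n'))).card : ℝ) ≤
      (FA.card : ℝ) + ((FB.card : ℝ) + (FC.card : ℝ)) := by
    have h3 := Finset.card_le_card hsub
    have h4 := Finset.card_union_le FA (FB ∪ FC)
    have h5 := Finset.card_union_le FB FC
    exact_mod_cast (h3.trans (h4.trans (Nat.add_le_add_left h5 _)))
  have hfin := mul_le_mul_of_nonneg_left hcard hG0.le
  have hmu := muTot_nonneg S
  have htn := t_nonneg S S.n le_rfl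
  have hn1 : (1 : ℝ) ≤ S.n := by exact_mod_cast S.n_pos
  have h16 : 6 / lam * S.muTot ≤ 16 / lam * S.muTot := by
    apply mul_le_mul_of_nonneg_right _ hmu
    apply div_le_div_of_nonneg_right (by norm_num) hlam.le
  have hGn : (G : ℝ) ≤ G * S.n := by nlinarith
  have hdt : 0 ≤ del * S.t S.n := mul_nonneg hdel.le htn
  nlinarith

theorem t_BAD (h1 : St_COV) (h2 : St_OV) : St_BAD := by
  intro V loc Mn S lam del G hlam hlam1 hG hGM hdel hdel1
  have h := t_BAD' h1 h2 V loc Mn S lam del G hlam hlam1 hG hGM hdel hdel1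
  rw [BAD.tr ⌈S.t S.n / G⌉₊ (fun n' : ℝ => ¬ ∃ i, S.Fine lam G del i ((G : ℝ) * n'))]
  exact h

end Pool.Agent.H660R3.TS
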