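import Pool.Agent.H660R3.TS.Stubs2
import Pool.Agent.H660R3.TS.T_BAD

/-!
# Fine locations give candidates and unhit annuli (task CND of `h660_tasks`, helper51)
-/

set_option autoImplicit false

open scoped Classical

namespace Pool.Agent.H660R3.TS

namespace CND

lemma ds_eq (p q : Pt) : ds p q = ‖pt p - pt q‖ := by
  unfold ds pt
  rw [Complex.norm_eq_sqrt_sq_add_sq]
  simp

lemma pt_sh (M : ℕ) (s : Pt) (P : Finset Pt) (v : {x // x ∈ P}) :
    pt (sh M s v) = locM M P v + pt s := by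
  unfold locM pt sh
  apply Complex.ext <;> simp

lemma locM_dist (M : ℕ) (P : Finset Pt) (a b : {x // x ∈ P}) :
    ‖locM M P a - locM M P b‖ = M * ds a b := by
  have : locM M P a - locM M P b = (M : ℂ) * (pt a - pt b) := by
    unfold locM pt sh
    apply Complex.ext <;> simp <;> ring
  rw [this, norm_mul, ds_eq, Complex.norm_natCast]

lemma rd_dist (g : ℕ) (hg : 0 < g) (x : Pt) : ‖pt x - pt (rd g x)‖ ≤ 3 / 2 * g := by
  have h1 : ∀ n : ℕ, 0 ≤ (n : ℝ) - ((n / g * g : ℕ) : ℝ) ∧ (n : ℝ) - ((n / g * g : ℕ) : ℝ) ≤ g := by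
    intro n
    have e := Nat.div_add_mod' n g
    have e' : (n : ℝ) - ((n / g * g : ℕ) : ℝ) = ((n % g : ℕ) : ℝ) := by
      have : ((n / g * g + n % g : ℕ) : ℝ) = n := by exact_mod_cast e
      rw [Nat.cast_add] at this
      linarith
    rw [e']
    constructor
    · positivity
    · exact_mod_cast (Nat.mod_lt n hg).le
  have hg0 : (0 : ℝ) < g := by exact_mod_cast hg
  have hsq : ‖pt x - pt (rd g x)‖ ^ 2 ≤ (3 / 2 * (g : ℝ)) ^ 2 := by
    rw [Complex.sq_norm, Complex.normSq_apply]
    have a1 := h1 x.1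
    have a2 := h1 x.2
    have e1 : (pt x - pt (rd g x)).re = (x.1 : ℝ) - ((x.1 / g * g : ℕ) : ℝ) := by
      simp [pt, rd]
    have e2 : (pt x - pt (rd g x)).im = (x.2 : ℝ) - ((x.2 / g * g : ℕ) : ℝ) := by
      simp [pt, rd]
    rw [e1, e2]
    nlinarith [mul_le_mul a1.2 a1.2 a1.1 hg0.le, mul_le_mul a2.2 a2.2 a2.1 hg0.le]
  exact abs_le_of_sq_le_sq' hsq (by positivity) |>.2

section

variable {V : Type} {loc : V → ℂ} {Mn : ℝ} (S : Strand loc Mn)

lemma len_pos (hMn : 0 < Mn) (j : ℕ) (hj : j < S.n) : 0 < S.len j :=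
  lt_of_lt_of_le hMn (S.edge_long j hj)

lemma X_sub (hMn : 0 < Mn) (i : ℕ) (hi : i < S.n) (τ : ℝ) (h : S.t i ≤ τ) :
    ‖S.X i τ - loc (S.z i)‖ = τ - S.t i := by
  have hl := len_pos S hMn i hi
  have : S.X i τ - loc (S.z i) =
      (((τ - S.t i) / S.len i : ℝ) : ℂ) * (loc (S.z (i + 1)) - loc (S.z i)) := by
    unfold Strand.X
    ring
  rw [this, norm_mul, Complex.norm_real, Real.norm_of_nonneg (div_nonneg (by linarith) hl.le)]
  change (τ - S.t i) / S.len i * S.len i = _
  field_simp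

lemma X_sub' (hMn : 0 < Mn) (i : ℕ) (hi : i < S.n) (τ : ℝ) (h : τ ≤ S.t (i + 1)) :
    ‖loc (S.z (i + 1)) - S.X i τ‖ = S.t (i + 1) - τ := by
  have hl := len_pos S hMn i hi
  have hstep := BAD.t_step S i hi
  have hl' : (S.len i : ℂ) ≠ 0 := by exact_mod_cast hl.ne'
  have : loc (S.z (i + 1)) - S.X i τ =
      (((S.t (i + 1) - τ) / S.len i : ℝ) : ℂ) * (loc (S.z (i + 1)) - loc (S.z i)) := by
    unfold Strand.X
    rw [hstep]
    push_cast
    field_simp
    ring
  rw [this, norm_mul, Complex.norm_real, Real.norm_of_nonneg (div_nonneg (by linarith) hl.le)]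
  change (S.t (i + 1) - τ) / S.len i * S.len i = _
  field_simp

lemma z_dist (j k : ℕ) (hjk : j ≤ k) (hk : k ≤ S.n) :
    ‖loc (S.z k) - loc (S.z j)‖ ≤ S.t k - S.t j := by
  induction k, hjk using Nat.le_induction with
  | base => simp
  | succ k hjk ih =>
    have h1 := ih (by omega)
    have h2 := BAD.t_step S k (by omega)
    have h3 := norm_add_le (loc (S.z (k + 1)) - loc (S.z k)) (loc (S.z k) - loc (S.z j))
    have h4 : loc (S.z (k + 1)) - loc (S.z k) + (loc (S.z k) - loc (S.z j)) =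
      loc (S.z (k + 1)) - loc (S.z j) := by ring
    rw [h4] at h3
    have h5 : ‖loc (S.z (k + 1)) - loc (S.z k)‖ = S.len k := rfl
    linarith

lemma X_tip (hMn : 0 < Mn) (i : ℕ) (hi : i < S.n) (τ : ℝ) (h : S.t i ≤ τ) :
    ‖S.X i τ - loc (S.z 0)‖ ≤ τ := by
  have h1 := X_sub S hMn i hi τ h
  have h2 := z_dist S 0 i (Nat.zero_le _) hi.le
  rw [S.t_zero] at h2
  have h3 := norm_add_le (S.X i τ - loc (S.z i)) (loc (S.z i) - loc (S.z 0))
  have h4 : S.X i τ - loc (S.z i) + (loc (S.z i) - loc (S.z 0)) = S.X i τ - loc (S.z 0) := by ring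
  rw [h4] at h3
  linarith

lemma X_far (hMn : 0 < Mn) (i : ℕ) (τ : ℝ) (h : τ ≤ S.t (i + 1)) (j : ℕ) (hij : i < j)
    (hj : j ≤ S.n) : ‖loc (S.z j) - S.X i τ‖ ≤ S.t j - τ := by
  have h1 := X_sub' S hMn i (by omega) τ h
  have h2 := z_dist S (i + 1) j hij hj
  have h3 := norm_add_le (loc (S.z j) - loc (S.z (i + 1))) (loc (S.z (i + 1)) - S.X i τ)
  have h4 : loc (S.z j) - loc (S.z (i + 1)) + (loc (S.z (i + 1)) - S.X i τ) =
    loc (S.z j) - S.X i τ := by ring
  rw [h4] at h3
  linarith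

/-- index of the edge containing a position -/
lemma exists_idx (τ : ℝ) (h0 : 0 ≤ τ) (h1 : τ < S.t S.n) :
    ∃ i < S.n, S.t i ≤ τ ∧ τ < S.t (i + 1) :=
  BAD.exists_index S S.n le_rfl τ h0 h1

end

lemma DD_add (β N u a d : ℕ) : DD β N u (a + d) = DD β N u a * β ^ (N * d) := by
  unfold DD
  rw [← pow_add]
  congr 1
  ring

lemma DD_mono (β N u a b : ℕ) (hβ : 0 < β) (h : a ≤ b) : DD β N u a ≤ DD β N u b := by
  obtain ⟨d, rfl⟩ := Nat.exists_eq_add_of_le h
  rw [DD_add]
  exact Nat.le_mul_of_pos_right _ (pow_pos hβ _)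

lemma DD_dvd (β N u a b : ℕ) (h : a ≤ b) : DD β N u a ∣ DD β N u b := by
  obtain ⟨d, rfl⟩ := Nat.exists_eq_add_of_le h
  rw [DD_add]
  exact dvd_mul_right _ _

lemma DD_pos (β N u a : ℕ) (hβ : 0 < β) : 0 < DD β N u a := pow_pos hβ _

lemma DD_ge (β N u a : ℕ) (hβ : 0 < β) (hN : 20 ≤ N) (ha : 1 ≤ a) : β ≤ DD β N u a := by
  unfold DD
  calc β = β ^ 1 := (pow_one β).symm
    _ ≤ β ^ (N * a + u) := Nat.pow_le_pow_right hβ (by nlinarith)

lemma DD_11 (β N u m : ℕ) (hβ : 0 < β) (hN : 20 ≤ N) (hm : 3 ≤ m) :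
    DD β N u (m - 2) * β ^ 11 ≤ DD β N u m := by
  have : m = (m - 2) + 2 := by omega
  conv_rhs => rw [this, DD_add]
  exact Nat.mul_le_mul_left _ (Nat.pow_le_pow_right hβ (by omega))

/-- a point close to an inner point lies in the same box -/
lemma box_eq (β D : ℕ) (Z c x : Pt) (hD : 0 < D) (hβ : 0 < β) (hI : Inner β D Z c)
    (h : ‖pt x - pt c‖ * β < D) : bx D x = Z := by
  obtain ⟨i1, i2, i3, i4⟩ := hI
  have hβr : (0 : ℝ) < β := by exact_mod_cast hβ
  have re : |(x.1 : ℝ) - c.1| * β < D := by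
    refine lt_of_le_of_lt (mul_le_mul_of_nonneg_right ?_ hβr.le) h
    have := Complex.abs_re_le_norm (pt x - pt c)
    simpa [pt] using this
  have im : |(x.2 : ℝ) - c.2| * β < D := by
    refine lt_of_le_of_lt (mul_le_mul_of_nonneg_right ?_ hβr.le) h
    have := Complex.abs_im_le_norm (pt x - pt c)
    simpa [pt] using this
  have aux : ∀ a b z : ℕ, |(a : ℝ) - b| * β < D → β * (z * D) + D ≤ β * b →
      β * b + D ≤ β * ((z + 1) * D) → a / D = z := by
    intro a b z h1 h2 h3
    have h2' : (β : ℝ) * (z * D) + D ≤ β * b := by exact_mod_cast h2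
    have h3' : (β : ℝ) * b + D ≤ β * ((z + 1) * D) := by exact_mod_cast h3
    have h4 := le_abs_self ((a : ℝ) - b)
    have h5 := neg_abs_le ((a : ℝ) - b)
    have h6 : (β : ℝ) * (z * D) < β * a := by nlinarith
    have h7 : (β : ℝ) * a < β * ((z + 1) * D) := by nlinarith
    have h8 : (z : ℝ) * D < a := lt_of_mul_lt_mul_left h6 hβr.le
    have h9 : (a : ℝ) < (z + 1) * D := lt_of_mul_lt_mul_left h7 hβr.le
    have h8' : z * D < a := by exact_mod_cast h8
    have h9' : a < (z + 1) * D := by exact_mod_cast h9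
    rw [Nat.div_eq_iff hD]
    constructor
    · linarith [h8']
    · have : (z + 1) * D = z * D + D := by ring
      rw [this] at h9'
      omega
  unfold bx
  rw [aux x.1 c.1 Z.1 re i1 i2, aux x.2 c.2 Z.2 im i3 i4]

lemma univ_image (M : ℕ) (s : Pt) (P : Finset Pt) :
    (Finset.univ : Finset {x // x ∈ P}).image (fun v : {x // x ∈ P} => sh M s v) =
      P.image (sh M s) := by
  ext x
  simp only [Finset.mem_image, Finset.mem_univ, true_and, Subtype.exists]
  constructor
  · rintro ⟨a, ha, h⟩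
    exact ⟨a, ha, h⟩
  · rintro ⟨a, ha, h⟩
    exact ⟨a, ha, h⟩

/-- the bottleneck property of the spanning tree inside a box, in the subtype -/
lemma bottleneck (h4 : St_MSTb) (P : Finset Pt) (M : ℕ) (s : Pt) (D : ℕ) (Z : Pt)
    (x y : {x // x ∈ P}) (hx : bx D (sh M s x) = Z) (hy : bx D (sh M s y) = Z) :
    Relation.ReflTransGen (fun a b : {x // x ∈ P} => TAdj (inBox M s D P Z) a b ∧
      bx D (sh M s a) = Z ∧ bx D (sh M s b) = Z ∧
      ‖locM M P a - locM M P b‖ ≤ ‖locM M P x - locM M P y‖) x y := by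
  obtain ⟨m1, -, m3⟩ := h4
  have hxA : (x : Pt) ∈ inBox M s D P Z := Finset.mem_filter.2 ⟨x.2, hx⟩
  have hyA : (y : Pt) ∈ inBox M s D P Z := Finset.mem_filter.2 ⟨y.2, hy⟩
  have hr := m3 (inBox M s D P Z) x hxA y hyA
  have key : ∀ w : Pt, Relation.ReflTransGen
      (fun a b => TAdj (inBox M s D P Z) a b ∧ ds a b ≤ ds x y) (x : Pt) w →
      ∃ hw : w ∈ P, Relation.ReflTransGen (fun a b : {x // x ∈ P} => TAdj (inBox M s D P Z) a b ∧
      bx D (sh M s a) = Z ∧ bx D (sh M s b) = Z ∧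
      ‖locM M P a - locM M P b‖ ≤ ‖locM M P x - locM M P y‖) x ⟨w, hw⟩ := by
    intro w hw
    induction hw with
    | refl => exact ⟨x.2, Relation.ReflTransGen.refl⟩
    | @tail b c hb hbc ih =>
      obtain ⟨hbP, ih⟩ := ih
      have hmem : b ∈ inBox M s D P Z ∧ c ∈ inBox M s D P Z := by
        rcases hbc.1 with h | h
        · exact ⟨(m1 _ _ h).1, (m1 _ _ h).2.1⟩
        · exact ⟨(m1 _ _ h).2.1, (m1 _ _ h).1⟩
      have hb' := Finset.mem_filter.1 hmem.1
      have hc' := Finset.mem_filter.1 hmem.2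
      refine ⟨hc'.1, ih.tail ⟨hbc.1, hb'.2, hc'.2, ?_⟩⟩
      rw [locM_dist, locM_dist]
      exact mul_le_mul_of_nonneg_left hbc.2 (Nat.cast_nonneg M)
  obtain ⟨hw, h⟩ := key y hr
  exact h

end CND

open CND in
theorem t_CND (h1 : St_LOC) (h2 : St_C1) (h3 : St_C2) (h4 : St_MSTb) : St_CND := by
  intro P T M y K S lam β N u m s k n' i ρ c Z hT hlam hlam1 hlamβ hN hm hM hk hOk hc hZ hρ
  obtain ⟨hF, hlow, hup, hI⟩ := hOk
  -- basic size facts
  have hβ8r : (10 : ℝ) ^ 8 ≤ β := by
    have hβ0 : (0 : ℝ) ≤ β := Nat.cast_nonneg β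
    have : lam * β ≤ 1 / 10 ^ 4 * β := mul_le_mul_of_nonneg_right hlam1 hβ0
    linarith
  have hβ8 : 10 ^ 8 ≤ β := by exact_mod_cast hβ8r
  have hβpos : 0 < β := by omega
  have hβ0 : (0 : ℝ) < β := by exact_mod_cast hβpos
  have hMr : 1000 * (β : ℝ) ≤ (M : ℝ) := by exact_mod_cast hM
  have hMpos : (0 : ℝ) < (M : ℝ) := by linarith
  set D := DD β N u m with hD
  set D1 := DD β N u (m - 1) with hD1
  set σ := DD β N u (m - 2) with hσ
  have hDpos : 0 < D := DD_pos _ _ _ _ hβpos
  have hσpos : 0 < σ := DD_pos _ _ _ _ hβpos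
  have hσ0 : (0 : ℝ) < σ := by exact_mod_cast hσpos
  have hβσ : β ≤ σ := DD_ge β N u (m - 2) hβpos hN (by omega)
  have hβσr : (β : ℝ) ≤ σ := by exact_mod_cast hβσ
  have hσD1 : σ ≤ D1 := DD_mono _ _ _ _ _ hβpos (by omega)
  have hσD1r : (σ : ℝ) ≤ D1 := by exact_mod_cast hσD1
  have hD11 : σ * β ^ 11 ≤ D := DD_11 β N u m hβpos hN hm
  have hσD : σ ∣ D := DD_dvd _ _ _ _ _ (by omega)
  set τ := (β : ℝ) * n' with hτ
  have hτ0 : 0 ≤ τ := by positivity
  set X := (S k).X i τ with hX
  have hz0 : (S k).z 0 = k := hT.sys.z0 k hk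
  set R := ‖X + pt s - pt c‖ with hR
  set f := ‖X - locM M P k‖ with hf
  have hpos : ∀ v : {x // x ∈ P}, pt (sh M s v) = locM M P v + pt s := pt_sh M s P
  have hc15 : ‖locM M P k + pt s - pt c‖ ≤ 3 / 2 * σ := by
    rw [← hpos k, hc]
    exact rd_dist σ hσpos _
  have hRf : R ≤ f + 3 / 2 * σ := by
    have e : X + pt s - pt c = (X - locM M P k) + (locM M P k + pt s - pt c) := by ring
    have := norm_add_le (X - locM M P k) (locM M P k + pt s - pt c)
    rw [hR, e]
    linarith
  have hfR : f ≤ R + 3 / 2 * σ := by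
    have e : X - locM M P k = (X + pt s - pt c) - (locM M P k + pt s - pt c) := by ring
    have := norm_sub_le (X + pt s - pt c) (locM M P k + pt s - pt c)
    rw [hf, e]
    linarith
  have hD10 : (0 : ℝ) < D1 := lt_of_lt_of_le hσ0 hσD1r
  have hβD1 : (10 : ℝ) ^ 8 * D1 ≤ β * D1 := mul_le_mul_of_nonneg_right hβ8r hD10.le
  have hlamR1 : 10 ^ 3 * (D1 : ℝ) ≤ lam * R := by
    have e1 : lam * (4 * β * D1 - 3 / 2 * σ) ≤ lam * R :=
      mul_le_mul_of_nonneg_left (by linarith) hlam.le
    have e2 : (10 : ℝ) ^ 4 * D1 ≤ lam * β * D1 := mul_le_mul_of_nonneg_right hlamβ hD10.le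
    have e3 : lam * σ ≤ 1 / 10 ^ 4 * σ := mul_le_mul_of_nonneg_right hlam1 hσ0.le
    nlinarith
  have hlamR : 10 ^ 3 * (σ : ℝ) ≤ lam * R := by linarith
  have hc2 : ‖locM M P ((S k).z 0) + pt s - pt c‖ ≤ 2 * σ := by
    rw [hz0]; linarith
  have hρ' := abs_le.1 hρ
  have hfbig : 4 * (10 : ℝ) ^ 8 * D1 ≤ f := by nlinarith
  constructor
  · -- unhit
    intro m' hm3 hmm Z' c' a' hC
    have hD'D1 : DD β N u m' ≤ D1 := DD_mono _ _ _ _ _ hβpos (by omega)
    have hD'D1r : (DD β N u m' : ℝ) ≤ D1 := by exact_mod_cast hD'D1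
    have hG' : (β : ℝ) ≤ DD β N u (m' - 2) := by
      exact_mod_cast DD_ge β N u (m' - 2) hβpos hN (by omega)
    refine h3 {x // x ∈ P} (fun v : {x // x ∈ P} => sh M s v) (locM M P) (pt s) (M : ℝ) (S k) lam β β
      (DD β N u (m' - 1)) (DD β N u m') (DD β N u (m' - 2)) i τ c (σ : ℝ) ρ hpos hlam hlam1
      (by linarith) hMr hβ8 (DD_pos _ _ _ _ hβpos) (DD_dvd _ _ _ _ _ (by omega))
      (DD_mono _ _ _ _ _ hβpos (by omega)) (DD_11 β N u m' hβpos hN hm3) hG' hF hc2 hβσr hlamR
      (by linarith) hρ Z' c' a' ?_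
    rw [univ_image]
    exact hC
  · intro hLost
    -- the location lemma
    have hcc : ∀ w : ℂ, w - (pt c - pt s) = w + pt s - pt c := fun w => by ring
    have hloc := h1 {x // x ∈ P} (locM M P) (M : ℝ) (S k) lam β (1 / (β : ℝ) ^ 6) τ i
      (pt c - pt s) σ hlam hlam1 (by linarith) hMr hF (by rw [hcc]; exact hc2) hβσr
      (by rw [hcc]; exact hlamR)
    simp only [hcc] at hloc
    change ∀ x : {x // x ∈ P}, ((S k).att x ≤ i ∧ ‖locM M P x + pt s - pt c‖ ≤
        R - (9 / 10) * (τ - (S k).t ((S k).att x)) + β ∧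
        (S k).wd x ≤ (τ - (S k).t ((S k).att x)) / 100) ∨
      (i < (S k).att x ∧ (S k).att x < (S k).jo ∧
        R + (9 / 10) * ((S k).t ((S k).att x) - τ) - β ≤ ‖locM M P x + pt s - pt c‖ ∧
        (S k).wd x ≤ ((S k).t ((S k).att x) - τ) / 100) ∨
      ((S k).jo ≤ (S k).att x ∧ (1 + lam / 2) * R ≤ ‖locM M P x + pt s - pt c‖) at hloc
    have hjn : (S k).jo ≤ (S k).n := BAD.jo_le (S k)
    have htov : (S k).tov = (S k).t (S k).jo := rfl
    have htovn : (S k).tov ≤ (S k).t (S k).n := BAD.t_le (S k) _ _ hjn le_rfl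
    have hiS := hF.hi
    have hti := hF.lo
    have hti1 := hF.up
    have hfτ : f ≤ τ := by
      have := X_tip (S k) hMpos i hiS τ hti
      rw [hz0] at this
      exact this
    have hRpos : 0 < R := by linarith
    have htov_big : τ + 10 * σ < (S k).tov := by
      have e1 := hF.early
      have e2 : τ < (S k).tov := by
        have : 0 ≤ (S k).tov := BAD.t_nonneg (S k) _ hjn
        nlinarith
      have e3 : lam * (4 * β * D1) ≤ lam * (S k).tov :=
        mul_le_mul_of_nonneg_left (by linarith) hlam.le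
      have e4 : (10 : ℝ) ^ 4 * D1 ≤ lam * β * D1 := mul_le_mul_of_nonneg_right hlamβ hD10.le
      nlinarith
    -- upper bound for tau
    have hτR : 9 / 10 * τ ≤ R + β := by
      have h0 : (S k).att k = 0 := by
        have := (S k).att_z 0 (Nat.zero_le _)
        rwa [hz0] at this
      rcases hloc k with h | h | h
      · rw [h0, (S k).t_zero] at h
        have := norm_nonneg (locM M P k + pt s - pt c)
        linarith [h.2.1]
      · rw [h0] at h
        exact absurd h.1 (Nat.not_lt_zero _)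
      · rw [h0] at h
        have hj0 : (S k).jo = 0 := Nat.le_zero.1 h.1
        rw [htov, hj0, (S k).t_zero] at htov_big
        linarith
    have hτ2R : τ ≤ 2 * R := by linarith
    have hR2f : R ≤ 2 * f := by linarith
    -- the candidate
    set a := ρ / σ with ha
    have haσ : a * σ ≤ ρ := Nat.div_mul_le_self ρ σ
    have haσ1 : ρ < (a + 1) * σ := by
      have := Nat.lt_div_mul_add hσpos (a := ρ)
      rw [add_mul, one_mul]
      exact this
    have haσr : (a : ℝ) * σ ≤ ρ := by exact_mod_cast haσ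
    have haσ1r : (ρ : ℝ) < (a + 1) * σ := by exact_mod_cast haσ1
    have hX_img : P.image (sh M s) = (Finset.univ : Finset {x // x ∈ P}).image
      (fun v : {x // x ∈ P} => sh M s v) := (univ_image M s P).symm
    have hcQ : c ∈ Qc D σ (P.image (sh M s)) Z := by
      unfold Qc
      refine Finset.mem_image.2 ⟨sh M s k, Finset.mem_filter.2 ⟨?_, hZ.symm⟩, hc.symm⟩
      exact Finset.mem_image.2 ⟨k, k.2, rfl⟩
    have hIZ : Inner β D Z c := by
      rw [hZ, hc]; exact hI
    have hDup : (a + 1) * σ * β ^ 10 ≤ D := by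
      have e1 : ((a : ℝ) + 1) * σ ≤ 2 * f := by linarith
      have e2 : ((a : ℝ) + 1) * σ * β ^ 10 ≤ 2 * f * β ^ 10 :=
        mul_le_mul_of_nonneg_right e1 (by positivity)
      have e3 : 0 ≤ (β : ℝ) ^ 10 * f := by positivity
      have e4 : ((a : ℝ) + 1) * σ * β ^ 10 ≤ D := by linarith
      exact_mod_cast e4
    have haD : a < D := by
      have e1 : 1 ≤ σ * β ^ 10 := Nat.mul_pos hσpos (pow_pos hβpos _)
      have e2 : (a + 1) * 1 ≤ (a + 1) * (σ * β ^ 10) := Nat.mul_le_mul_left _ e1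
      rw [← mul_assoc] at e2
      omega
    refine Finset.mem_filter.2 ⟨Finset.mem_product.2 ⟨hcQ, Finset.mem_range.2 haD⟩, ?_⟩
    refine ⟨hcQ, hIZ, ?_, hDup, ?_, ?_⟩
    · have e1 : (β : ℝ) * D1 ≤ a * σ := by nlinarith
      exact_mod_cast e1
    · -- the outside point
      obtain ⟨j, hj, hj1, hj2⟩ := exists_idx (S k) (τ + 10 * σ) (by positivity) (by linarith)
      have hij : i < j + 1 := by
        by_contra hcon
        have := BAD.t_le (S k) (j + 1) i (not_lt.1 hcon) hiS.le
        linarith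
      have hlen : (S k).len j * β ^ 4 ≤ D := by
        have hcl := (hF.clear j hj).1
        have ht0 := BAD.t_nonneg (S k) j hj.le
        have e1 : |τ - (S k).t j| ≤ 2 * R := by
          rw [abs_le]
          constructor <;> linarith
        have e2 : 1 / (β : ℝ) ^ 6 * (S k).len j < 2 * R := lt_of_lt_of_le hcl e1
        have hβ6 : (0 : ℝ) < (β : ℝ) ^ 6 := by positivity
        have e3 : (S k).len j < 2 * R * β ^ 6 := by
          rw [one_div, inv_mul_lt_iff₀ hβ6] at e2
          linarith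
        have hβ4 : (0 : ℝ) < (β : ℝ) ^ 4 := by positivity
        calc (S k).len j * β ^ 4 ≤ 2 * R * β ^ 6 * β ^ 4 :=
              mul_le_mul_of_nonneg_right e3.le hβ4.le
          _ = 2 * R * β ^ 10 := by ring
          _ ≤ 4 * f * β ^ 10 := mul_le_mul_of_nonneg_right (by linarith) (by positivity)
          _ = 4 * β ^ 10 * f := by ring
          _ ≤ D := hup
      have hfar := X_far (S k) hMpos i τ hti1.le (j + 1) hij hj
      have htj := BAD.t_step (S k) j hj
      set x := (S k).z (j + 1) with hx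
      have hFx : ‖locM M P x + pt s - pt c‖ ≤ R + 10 * σ + (S k).len j := by
        have e : locM M P x + pt s - pt c = (locM M P x - X) + (X + pt s - pt c) := by ring
        have := norm_add_le (locM M P x - X) (X + pt s - pt c)
        rw [e]
        linarith
      have hbox : bx D (sh M s x) = Z := by
        refine box_eq β D Z c _ hDpos hβpos hIZ ?_
        rw [hpos x]
        have g1 : ‖locM M P x + pt s - pt c‖ * β ≤ (R + 10 * σ + (S k).len j) * β :=
          mul_le_mul_of_nonneg_right hFx hβ0.le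
        have g2 : (S k).len j * β * 4 ≤ D := by
          have hl0 := BAD.len_nonneg (S k) j
          have : (4 : ℝ) * β ≤ β ^ 4 := by
            have h3 : (4 : ℝ) ≤ β ^ 3 := by
              calc (4 : ℝ) ≤ ((10 : ℝ) ^ 8) ^ 3 := by norm_num
                _ ≤ β ^ 3 := pow_le_pow_left₀ (by positivity) hβ8r 3
            calc (4 : ℝ) * β ≤ β ^ 3 * β := mul_le_mul_of_nonneg_right h3 hβ0.le
              _ = β ^ 4 := by ring
          nlinarith [mul_le_mul_of_nonneg_left this hl0]
        have g3 : 4 * (f * β) * 4 ≤ D := by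
          have h9 : (4 : ℝ) ≤ β ^ 9 := by
            calc (4 : ℝ) ≤ ((10 : ℝ) ^ 8) ^ 9 := by norm_num
              _ ≤ β ^ 9 := pow_le_pow_left₀ (by positivity) hβ8r 9
          have hf0 : 0 ≤ f * β := by positivity
          calc 4 * (f * β) * 4 = 4 * (f * β) * 4 := rfl
            _ ≤ 4 * (f * β) * β ^ 9 := mul_le_mul_of_nonneg_left h9 (by positivity)
            _ = 4 * β ^ 10 * f := by ring
            _ ≤ D := hup
        have g4 : (R + 10 * σ) * β ≤ 3 * (f * β) := by
          have : R + 10 * σ ≤ 3 * f := by linarith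
          nlinarith
        have hDr : (0 : ℝ) < D := by exact_mod_cast hDpos
        linarith [g1, g2, g3, g4, add_mul (R + 10 * (σ : ℝ)) ((S k).len j) (β : ℝ)]
      refine ⟨rd σ (sh M s x), ?_, ?_⟩
      · unfold Qc
        refine Finset.mem_image.2 ⟨sh M s x, Finset.mem_filter.2 ⟨?_, hbox⟩, rfl⟩
        exact Finset.mem_image.2 ⟨x, x.2, rfl⟩
      · have hatt : (S k).att x = j + 1 := (S k).att_z (j + 1) hj
        have hF8 : R + 8 * σ ≤ ‖locM M P x + pt s - pt c‖ := by
          rcases hloc x with h | h | h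
          · rw [hatt] at h
            exact absurd h.1 (not_le.2 hij)
          · rw [hatt] at h
            have := h.2.2.1
            linarith
          · have := h.2
            linarith
        rw [ds_eq]
        have hrd := rd_dist σ hσpos (sh M s x)
        rw [hpos x] at hrd
        have e : locM M P x + pt s - pt c = (pt (rd σ (sh M s x)) - pt c) +
          (locM M P x + pt s - pt (rd σ (sh M s x))) := by ring
        have hn := norm_add_le (pt (rd σ (sh M s x)) - pt c)
          (locM M P x + pt s - pt (rd σ (sh M s x)))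
        rw [← e] at hn
        linarith
    · -- rule E
      obtain ⟨J, hJ, hJ1, hJ2⟩ := exists_idx (S k) (τ + 7 * σ) (by positivity) (by linarith)
      have hJjo : J < (S k).jo := by
        by_contra hcon
        have := BAD.t_le (S k) _ _ (not_lt.1 hcon) hJ.le
        rw [← htov] at this
        linarith
      rw [hX_img]
      refine h2 {x // x ∈ P} (fun v : {x // x ∈ P} => sh M s v) (locM M P) (pt s) (M : ℝ) (S k) lam β β D σ i J τ
        c Z a ρ (fun x y => TAdj (inBox M s D P Z) x y) hpos hlam hlam1 (by linarith) hMr hβ8 hσpos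
        hσD hD11 hβσr hF (by rw [hz0]; exact hc) (by rw [hz0]; exact hZ) hlamR hρ haσ haσ1
        (fun x y h => h.symm) (fun x y hx hy => bottleneck h4 P M s D Z x y hx hy) hJ hJ1 hJ2 ?_
      intro x y hxy hxZ hyZ hxyl hax hay
      by_cases hP : TAdj P x y
      · rcases hT.adj2 x y hP with ⟨hxr, hyp⟩ | ⟨hyr, hxp⟩
        · have := hT.sys.cut2 k hk J hJ x hxr hax (by rw [← hyp]; exact hay)
          rw [← hyp] at this
          exact this
        · have := hT.sys.cut1 k hk y hyr
          rw [← hxp] at this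
          omega
      · exfalso
        apply hLost
        have hxF : ‖pt (sh M s x) - pt c‖ ≤ ρ + 9 * σ := by
          rw [hpos x]
          rcases hloc x with h | h | h
          · have e1 := BAD.t_le (S k) _ _ h.1 hiS.le
            linarith [h.2.1]
          · have hattn : (S k).att x < (S k).n := lt_of_lt_of_le h.2.1 hjn
            have e1 := BAD.t_le (S k) _ _ hax hJ.le
            have e2 := X_far (S k) hMpos i τ hti1.le ((S k).att x) h.1 hattn.le
            have e3 := (S k).wd_dist x hattn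
            have e4 : locM M P x + pt s - pt c = (locM M P x - locM M P ((S k).z ((S k).att x))) +
              (locM M P ((S k).z ((S k).att x)) - X) + (X + pt s - pt c) := by ring
            have e5 := norm_add₃_le (a := locM M P x - locM M P ((S k).z ((S k).att x)))
              (b := locM M P ((S k).z ((S k).att x)) - X) (c := X + pt s - pt c)
            rw [← e4] at e5
            linarith [h.2.2.2]
          · exact absurd (lt_of_lt_of_le hJjo h.1) (not_lt.2 hax)
        have hyF : (ρ : ℝ) + 3 * σ ≤ ‖pt (sh M s y) - pt c‖ := by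
          rw [hpos y]
          have hyn : (S k).att y ≤ (S k).n := (S k).att_le y
          have e1 := BAD.t_le (S k) _ _ (Nat.succ_le_of_lt hay) hyn
          rcases hloc y with h | h | h
          · have e2 := BAD.t_le (S k) _ _ h.1 hiS.le
            have e3 : (S k).t J.succ = (S k).t (J + 1) := rfl
            linarith
          · have e3 : (S k).t J.succ = (S k).t (J + 1) := rfl
            linarith [h.2.2.1]
          · linarith [h.2]
        have hlen : (M : ℝ) * ds x y * (β : ℝ) ^ 3 ≤ 2 * D := by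
          rw [← locM_dist]
          exact hxyl
        have hds : ds (y : Pt) x = ds x y := by
          rw [ds_eq, ds_eq, norm_sub_rev]
        rcases hxy with h | h
        · refine ⟨((x : Pt), (y : Pt)), Finset.mem_sdiff.2 ⟨h, fun hc => hP (Or.inl hc)⟩, hlen,
            Or.inl ⟨hxF, hyF⟩⟩
        · refine ⟨((y : Pt), (x : Pt)), Finset.mem_sdiff.2 ⟨h, fun hc => hP (Or.inr hc)⟩, ?_,
            Or.inr ⟨hxF, hyF⟩⟩
          change (M : ℝ) * ds y x * (β : ℝ) ^ 3 ≤ 2 * D
          rw [hds]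
          exact hlen

end Pool.Agent.H660R3.TS
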