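import Pool.Agent.H660R3.TS.Stubs

/-!
# COV: discrete one-dimensional maximal inequality
-/

set_option autoImplicit false

namespace Pool.Agent.H660R3.TS

open scoped Classical

theorem t_COV : St_COV := by
  intro n ν θ hν hθ
  set Bad : Finset ℕ := (Finset.range n).filter (fun m => ∃ a b, a ≤ m ∧ m ≤ b ∧ b < n ∧
      θ * ((b : ℝ) - a + 1) < ∑ i ∈ Finset.Icc a b, ν i) with hBad
  let G : Finset (ℕ × ℕ) := (Finset.range n ×ˢ Finset.range n).filter
    (fun p => p.1 ≤ p.2 ∧ θ * ((p.2 : ℝ) - p.1 + 1) < ∑ i ∈ Finset.Icc p.1 p.2, ν i)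
  let Cov : Finset (ℕ × ℕ) → Prop := fun F => ∀ m ∈ Bad, ∃ p ∈ F, p.1 ≤ m ∧ m ≤ p.2
  have hG : Cov G := by
    intro m hm
    obtain ⟨hmn, a, b, ham, hmb, hbn, hlt⟩ := Finset.mem_filter.1 hm
    refine ⟨(a, b), Finset.mem_filter.2 ⟨Finset.mem_product.2 ⟨Finset.mem_range.2 (by omega),
      Finset.mem_range.2 hbn⟩, by simp only; omega, hlt⟩, ham, hmb⟩
  obtain ⟨F, hF, hmin⟩ := Finset.exists_min_image (G.powerset.filter Cov) Finset.card
    ⟨G, Finset.mem_filter.2 ⟨Finset.mem_powerset.2 (Finset.Subset.refl _), hG⟩⟩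
  obtain ⟨hFG, hFcov⟩ := Finset.mem_filter.1 hF
  rw [Finset.mem_powerset] at hFG
  have hFprop : ∀ p ∈ F, p.1 ≤ p.2 ∧ p.2 < n ∧
      θ * ((p.2 : ℝ) - p.1 + 1) < ∑ i ∈ Finset.Icc p.1 p.2, ν i := by
    intro p hp
    obtain ⟨h1, h2, h3⟩ := Finset.mem_filter.1 (hFG hp)
    exact ⟨h2, Finset.mem_range.1 (Finset.mem_product.1 h1).2, h3⟩
  -- multiplicity at most two
  have hmult : ∀ i : ℕ, (F.filter (fun p => p.1 ≤ i ∧ i ≤ p.2)).card ≤ 2 := by
    intro i
    by_contra hcon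
    push Not at hcon
    set S := F.filter (fun p => p.1 ≤ i ∧ i ≤ p.2) with hS
    have hne : S.Nonempty := Finset.card_pos.1 (by omega)
    obtain ⟨p, hp, hpmin⟩ := Finset.exists_min_image S (fun p => p.1) hne
    obtain ⟨q, hq, hqmax⟩ := Finset.exists_max_image S (fun p => p.2) hne
    have h2 : ({p, q} : Finset (ℕ × ℕ)).card ≤ 2 := Finset.card_le_two
    obtain ⟨r, hr, hrn⟩ := Finset.exists_mem_notMem_of_card_lt_card (lt_of_le_of_lt h2 hcon)
    have hrp : r ≠ p := fun h => hrn (by simp [h])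
    have hrq : r ≠ q := fun h => hrn (by simp [h])
    obtain ⟨hpF, hp1, hp2⟩ := Finset.mem_filter.1 hp
    obtain ⟨hqF, hq1, hq2⟩ := Finset.mem_filter.1 hq
    obtain ⟨hrF, hr1, hr2⟩ := Finset.mem_filter.1 hr
    have hle1 := hpmin r hr
    have hle2 := hqmax r hr
    have hcov' : Cov (F.erase r) := by
      intro m hm
      obtain ⟨s, hsF, hs1, hs2⟩ := hFcov m hm
      by_cases hsr : s = r
      · subst hsr
        by_cases hmi : m ≤ i
        · exact ⟨p, Finset.mem_erase.2 ⟨hrp.symm, hpF⟩, by omega, by omega⟩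
        · exact ⟨q, Finset.mem_erase.2 ⟨hrq.symm, hqF⟩, by omega, by omega⟩
      · exact ⟨s, Finset.mem_erase.2 ⟨hsr, hsF⟩, hs1, hs2⟩
    have := hmin (F.erase r) (Finset.mem_filter.2 ⟨Finset.mem_powerset.2
      ((Finset.erase_subset _ _).trans hFG), hcov'⟩)
    rw [Finset.card_erase_of_mem hrF] at this
    have : 0 < F.card := Finset.card_pos.2 ⟨r, hrF⟩
    omega
  -- counting
  have hcard : (Bad.card : ℝ) ≤ ∑ p ∈ F, ((p.2 : ℝ) - p.1 + 1) := by
    have h1 : Bad ⊆ F.biUnion (fun p => Finset.Icc p.1 p.2) := by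
      intro m hm
      obtain ⟨p, hp, hp1, hp2⟩ := hFcov m hm
      exact Finset.mem_biUnion.2 ⟨p, hp, Finset.mem_Icc.2 ⟨hp1, hp2⟩⟩
    have h2 : Bad.card ≤ ∑ p ∈ F, (Finset.Icc p.1 p.2).card :=
      (Finset.card_le_card h1).trans Finset.card_biUnion_le
    have h3 : ((Bad.card : ℕ) : ℝ) ≤ ((∑ p ∈ F, (Finset.Icc p.1 p.2).card : ℕ) : ℝ) := by
      exact_mod_cast h2
    refine le_trans h3 (le_of_eq ?_)
    rw [Nat.cast_sum]
    apply Finset.sum_congr rfl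
    intro p hp
    have := (hFprop p hp).1
    rw [Nat.card_Icc, Nat.cast_sub (by omega)]
    push_cast
    ring
  have hsum : ∑ p ∈ F, ∑ i ∈ Finset.Icc p.1 p.2, ν i ≤ 2 * ∑ i ∈ Finset.range n, ν i := by
    have h1 : ∀ p ∈ F, ∑ i ∈ Finset.Icc p.1 p.2, ν i =
        ∑ i ∈ Finset.range n, if p.1 ≤ i ∧ i ≤ p.2 then ν i else 0 := by
      intro p hp
      rw [← Finset.sum_filter]
      apply Finset.sum_congr _ (fun _ _ => rfl)
      ext i
      have := (hFprop p hp).2.1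
      simp only [Finset.mem_Icc, Finset.mem_filter, Finset.mem_range]
      constructor
      · intro h; exact ⟨by omega, h⟩
      · intro h; exact h.2
    rw [Finset.sum_congr rfl h1, Finset.sum_comm, Finset.mul_sum]
    apply Finset.sum_le_sum
    intro i _
    rw [← Finset.sum_filter, Finset.sum_const, nsmul_eq_mul]
    have h2 : ((F.filter (fun p => p.1 ≤ i ∧ i ≤ p.2)).card : ℝ) ≤ 2 := by
      exact_mod_cast hmult i
    exact mul_le_mul_of_nonneg_right h2 (hν i)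
  calc θ * (Bad.card : ℝ) ≤ θ * ∑ p ∈ F, ((p.2 : ℝ) - p.1 + 1) :=
        mul_le_mul_of_nonneg_left hcard hθ.le
    _ = ∑ p ∈ F, θ * ((p.2 : ℝ) - p.1 + 1) := Finset.mul_sum _ _ _
    _ ≤ ∑ p ∈ F, ∑ i ∈ Finset.Icc p.1 p.2, ν i :=
        Finset.sum_le_sum (fun p hp => (hFprop p hp).2.2.le)
    _ ≤ _ := hsum

end Pool.Agent.H660R3.TS
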