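import Pool.Agent.H660R3.TS.Stubs

set_option autoImplicit false

open scoped Classical

namespace Pool.Agent.H660R3.TS

namespace CUT

theorem sum_div (D T a b : ℕ) (hD : 0 < D) (hab : a ≤ b) :
    ∑ s ∈ Finset.range (D * T), (b + s) / D =
      ∑ s ∈ Finset.range (D * T), (a + s) / D + (b - a) * T := by
  induction b, hab using Nat.le_induction with
  | base => simp
  | succ b hb ih =>
    have h1 : ∑ s ∈ Finset.range (D * T), (b + 1 + s) / D + (b + 0) / D =
        ∑ s ∈ Finset.range (D * T), (b + s) / D + (b + D * T) / D := by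
      rw [← Finset.sum_range_succ (fun s => (b + s) / D),
        Finset.sum_range_succ' (fun s => (b + s) / D)]
      congr 1
      exact Finset.sum_congr rfl fun s _ => by rw [show b + 1 + s = b + (s + 1) by ring]
    rw [Nat.add_mul_div_left _ _ hD, add_zero] at h1
    have h2 : (b + 1 - a) * T = (b - a) * T + T := by
      rw [Nat.sub_add_comm hb]; ring
    omega

theorem one (D T a b : ℕ) (hD : 0 < D) (hab : a ≤ b) :
    ((Finset.range (D * T)).filter (fun s => (a + s) / D ≠ (b + s) / D)).card ≤ (b - a) * T := by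
  have h1 := sum_div D T a b hD hab
  have h2 : ((Finset.range (D * T)).filter (fun s => (a + s) / D ≠ (b + s) / D)).card +
      ∑ s ∈ Finset.range (D * T), (a + s) / D ≤ ∑ s ∈ Finset.range (D * T), (b + s) / D := by
    rw [Finset.card_filter, ← Finset.sum_add_distrib]
    refine Finset.sum_le_sum fun s _ => ?_
    have h3 : (a + s) / D ≤ (b + s) / D := Nat.div_le_div_right (by omega)
    split_ifs with h
    · omega
    · omega
  omega

theorem one' (D T a b : ℕ) (hD : 0 < D) :
    (((Finset.range (D * T)).filter (fun s => (a + s) / D ≠ (b + s) / D)).card : ℝ) ≤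
      |(a : ℝ) - b| * T := by
  rcases le_total a b with h | h
  · have h1 := one D T a b hD h
    have h2 : (((b - a) * T : ℕ) : ℝ) = |(a : ℝ) - b| * T := by
      rw [abs_sub_comm, abs_of_nonneg (by rw [sub_nonneg]; exact_mod_cast h)]
      push_cast [Nat.cast_sub h]; ring
    rw [← h2]; exact_mod_cast h1
  · have h1 := one D T b a hD h
    have h2 : (((a - b) * T : ℕ) : ℝ) = |(a : ℝ) - b| * T := by
      rw [abs_of_nonneg (by rw [sub_nonneg]; exact_mod_cast h)]
      push_cast [Nat.cast_sub h]; ring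
    rw [← h2]
    have h3 : (Finset.range (D * T)).filter (fun s => (a + s) / D ≠ (b + s) / D) =
        (Finset.range (D * T)).filter (fun s => (b + s) / D ≠ (a + s) / D) :=
      Finset.filter_congr fun s _ => by rw [ne_comm]
    rw [h3]; exact_mod_cast h1

theorem card_prod_le (n : ℕ) (P Q : ℕ → Prop) (R : ℕ × ℕ → Prop)
    [DecidablePred P] [DecidablePred Q] [DecidablePred R]
    (h : ∀ s, R s → P s.1 ∨ Q s.2) :
    (((Finset.range n ×ˢ Finset.range n).filter R).card : ℝ) ≤
      (((Finset.range n).filter P).card : ℝ) * n + n * (((Finset.range n).filter Q).card : ℝ) := by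
  have hsub : (Finset.range n ×ˢ Finset.range n).filter R ⊆
      ((Finset.range n).filter P ×ˢ Finset.range n) ∪ (Finset.range n ×ˢ (Finset.range n).filter Q) := by
    intro s hs
    rw [Finset.mem_filter, Finset.mem_product] at hs
    rw [Finset.mem_union, Finset.mem_product, Finset.mem_product, Finset.mem_filter, Finset.mem_filter]
    rcases h s hs.2 with hp | hq
    · exact Or.inl ⟨⟨hs.1.1, hp⟩, hs.1.2⟩
    · exact Or.inr ⟨hs.1.1, hs.1.2, hq⟩
  have h1 := (Finset.card_le_card hsub).trans (Finset.card_union_le _ _)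
  rw [Finset.card_product, Finset.card_product, Finset.card_range] at h1
  exact_mod_cast h1

end CUT

theorem t_CUT : St_CUT := by
  intro M D SM x y hD hdvd
  obtain ⟨T, rfl⟩ := hdvd
  have h1 := CUT.card_prod_le (D * T) (fun s => (M * x.1 + s) / D ≠ (M * y.1 + s) / D)
    (fun s => (M * x.2 + s) / D ≠ (M * y.2 + s) / D)
    (fun s => bx D (sh M s x) ≠ bx D (sh M s y)) (fun s hs => by
      by_contra hcon
      push Not at hcon
      apply hs
      unfold bx sh
      simp only
      rw [hcon.1, hcon.2])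
  have h2 := CUT.one' D T (M * x.1) (M * y.1) hD
  have h3 := CUT.one' D T (M * x.2) (M * y.2) hD
  have hM : (0:ℝ) ≤ M := Nat.cast_nonneg M
  have hT : (0:ℝ) ≤ T := Nat.cast_nonneg T
  have hD' : (0:ℝ) ≤ D := Nat.cast_nonneg D
  have h4 : |((M * x.1 : ℕ) : ℝ) - ((M * y.1 : ℕ) : ℝ)| ≤ M * ds x y := by
    push_cast
    rw [← mul_sub, abs_mul, abs_of_nonneg hM]
    refine mul_le_mul_of_nonneg_left ?_ hM
    unfold ds
    refine Real.abs_le_sqrt ?_
    nlinarith [sq_nonneg ((x.2 : ℝ) - y.2)]
  have h5 : |((M * x.2 : ℕ) : ℝ) - ((M * y.2 : ℕ) : ℝ)| ≤ M * ds x y := by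
    push_cast
    rw [← mul_sub, abs_mul, abs_of_nonneg hM]
    refine mul_le_mul_of_nonneg_left ?_ hM
    unfold ds
    refine Real.abs_le_sqrt ?_
    nlinarith [sq_nonneg ((x.1 : ℝ) - y.1)]
  have h6 := h2.trans (mul_le_mul_of_nonneg_right h4 hT)
  have h7 := h3.trans (mul_le_mul_of_nonneg_right h5 hT)
  have hDT : (0:ℝ) ≤ ((D * T : ℕ) : ℝ) := Nat.cast_nonneg _
  calc (((Finset.range (D * T) ×ˢ Finset.range (D * T)).filter
          (fun s => bx D (sh M s x) ≠ bx D (sh M s y))).card : ℝ) * D
      ≤ ((M * ds x y * T) * ((D * T : ℕ) : ℝ) + ((D * T : ℕ) : ℝ) * (M * ds x y * T)) * D := by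
        refine mul_le_mul_of_nonneg_right (h1.trans ?_) hD'
        exact add_le_add (mul_le_mul_of_nonneg_right h6 hDT) (mul_le_mul_of_nonneg_left h7 hDT)
    _ = 2 * M * ds x y * ((D * T : ℕ) : ℝ) ^ 2 := by push_cast; ring

end Pool.Agent.H660R3.TS
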