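import Pool.Agent.H660R3.TS.Stubs2

/-!
# Deterministic lower bound for `Fstar` (task DETF of helper660, written by helper226)
-/

set_option autoImplicit false

open scoped Classical

namespace Pool.Agent.H660R3.TS

namespace DETF

theorem bx_rd {σ D : ℕ} (hσ : 0 < σ) (hd : σ ∣ D) (x : Pt) : bx D (rd σ x) = bx D x := by
  obtain ⟨q, rfl⟩ := hd
  have h : ∀ a : ℕ, a / σ * σ / (σ * q) = a / (σ * q) := by
    intro a
    rw [← Nat.div_div_eq_div_mul, Nat.mul_div_cancel _ hσ, Nat.div_div_eq_div_mul]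
  unfold bx rd
  simp only [h]

theorem ds_eq (p q : Pt) : ds p q = ‖pt p - pt q‖ := by
  unfold ds pt
  rw [Complex.norm_def, Complex.normSq_apply]
  congr 1
  simp only [Complex.sub_re, Complex.sub_im]
  ring

theorem rd_near {σ : ℕ} (hσ : 0 < σ) (x : Pt) : ‖pt x - pt (rd σ x)‖ ≤ 2 * σ := by
  have h : ∀ a : ℕ, |(a : ℝ) - ((a / σ * σ : ℕ) : ℝ)| ≤ σ := by
    intro a
    have h1 : a / σ * σ ≤ a := Nat.div_mul_le_self a σ
    have h2 : a ≤ a / σ * σ + σ := by
      have h3 := Nat.div_add_mod a σ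
      have h4 := Nat.mod_lt a hσ
      rw [mul_comm] at h3
      omega
    have h1' : ((a / σ * σ : ℕ) : ℝ) ≤ a := by exact_mod_cast h1
    have h2' : (a : ℝ) ≤ ((a / σ * σ : ℕ) : ℝ) + σ := by exact_mod_cast h2
    rw [abs_le]
    constructor <;> linarith
  refine (Complex.norm_le_abs_re_add_abs_im _).trans ?_
  have e1 : (pt x - pt (rd σ x)).re = (x.1 : ℝ) - ((x.1 / σ * σ : ℕ) : ℝ) := rfl
  have e2 : (pt x - pt (rd σ x)).im = (x.2 : ℝ) - ((x.2 / σ * σ : ℕ) : ℝ) := rfl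
  rw [e1, e2]
  have := h x.1
  have := h x.2
  linarith

theorem pt_sh (M : ℕ) (s x : Pt) : pt (sh M s x) = pt (sh M (0, 0) x) + pt s := by
  apply Complex.ext
  · simp [pt, sh]
  · simp [pt, sh]

theorem ds_sh (M : ℕ) (s x y : Pt) : ‖pt (sh M s x) - pt (sh M s y)‖ = M * ds x y := by
  have : pt (sh M s x) - pt (sh M s y) = (M : ℂ) * (pt x - pt y) := by
    apply Complex.ext
    · simp [pt, sh]; ring
    · simp [pt, sh]; ring
  rw [this, norm_mul, ds_eq]
  simp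

/-- the combinatorial part at one level -/
theorem comb (hXL : St_XL) (β N u m M : ℕ) (s : Pt) (P : Finset Pt) (𝒢 : Finset (Pt × ℕ))
    (σ D : ℕ) (hσ' : σ = DD β N u (m - 2)) (hD' : D = DD β N u m) (hσ : 0 < σ) (hβ : 0 < β)
    (hDσ : 16 * (σ : ℝ) * (β : ℝ) ^ 3 ≤ D)
    (X : Finset Pt) (hX : X = P.image (sh M s))
    (h1 : ∀ x ∈ 𝒢, Unhit β N u m X x.1 x.2)
    (h2 : ∀ x ∈ 𝒢, ¬ Lost β M s D σ P (bx D x.1) x.1 x.2 →
      (x.1, x.2 / σ) ∈ cands β N u m (Qc D σ X (bx D x.1)) (bx D x.1))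
    (h3 : ∀ x ∈ 𝒢, ∀ y ∈ 𝒢, x.1 ≠ y.1 → (x.2 : ℝ) + y.2 + 20 * σ ≤ ds x.1 y.1 ∨
      ds x.1 y.1 + y.2 + 20 * σ ≤ x.2 ∨ ds x.1 y.1 + x.2 + 20 * σ ≤ y.2)
    (h4 : ∀ x ∈ 𝒢, bx D x.1 ∈ X.image (bx D)) :
    (𝒢.card : ℝ) ≤ ∑ Z ∈ X.image (bx D), Vbox β N u m X Z +
      ∑ Z ∈ X.image (bx D), (5 * (D : ℝ) / (β : ℝ) ^ 3) * (mst (inBox M s D P Z) \ mst P).card := by
  have hβ3 : (0 : ℝ) < (β : ℝ) ^ 3 := by positivity
  -- split according to the box
  have e0 : 𝒢.card = ∑ Z ∈ X.image (bx D), (𝒢.filter (fun x => bx D x.1 = Z)).card :=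
    Finset.card_eq_sum_card_fiberwise (f := fun x : Pt × ℕ => bx D x.1) (by
      intro x hx
      exact h4 x hx)
  rw [e0, Nat.cast_sum, ← Finset.sum_add_distrib]
  apply Finset.sum_le_sum
  intro Z _
  set 𝒜 := 𝒢.filter (fun x => bx D x.1 = Z) with h𝒜
  set lost := 𝒜.filter (fun x => Lost β M s D σ P Z x.1 x.2) with hlost
  set kept := 𝒜.filter (fun x => ¬ Lost β M s D σ P Z x.1 x.2) with hkept
  have e1 : (𝒜.card : ℝ) = kept.card + lost.card := by
    rw [← Finset.card_filter_add_card_filter_not (s := 𝒜)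
      (fun x => Lost β M s D σ P Z x.1 x.2)]
    push_cast
    ring
  rw [e1]
  apply add_le_add
  · -- the kept ones
    set F := kept.image (fun x => (x.1, x.2 / σ)) with hF
    have hsub : F ⊆ cands β N u m (Qc D σ X Z) Z := by
      intro x hx
      obtain ⟨w, hw, rfl⟩ := Finset.mem_image.1 hx
      obtain ⟨hw1, hw2⟩ := Finset.mem_filter.1 hw
      obtain ⟨hw3, hw4⟩ := Finset.mem_filter.1 hw1
      have := h2 w hw3 (by rw [hw4]; exact hw2)
      rwa [hw4] at this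
    have hadj : ∀ x ∈ F, ∀ y ∈ F, x ≠ y → Adisj σ x y := by
      intro x hx y hy hne
      obtain ⟨w, hw, rfl⟩ := Finset.mem_image.1 hx
      obtain ⟨v, hv, rfl⟩ := Finset.mem_image.1 hy
      have hwG := (Finset.mem_filter.1 (Finset.mem_filter.1 hw).1).1
      have hvG := (Finset.mem_filter.1 (Finset.mem_filter.1 hv).1).1
      unfold Adisj
      simp only at hne ⊢
      by_cases hc : w.1 = v.1
      · left
        refine ⟨hc, fun h => hne ?_⟩
        rw [hc, h]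
      · right
        have a1 : ((w.2 / σ : ℕ) : ℝ) * σ ≤ w.2 := by exact_mod_cast Nat.div_mul_le_self w.2 σ
        have a2 : ((v.2 / σ : ℕ) : ℝ) * σ ≤ v.2 := by exact_mod_cast Nat.div_mul_le_self v.2 σ
        have a3 : (w.2 : ℝ) ≤ ((w.2 / σ : ℕ) : ℝ) * σ + σ := by
          have h5 := Nat.div_add_mod w.2 σ
          have h6 := Nat.mod_lt w.2 hσ
          rw [mul_comm] at h5
          have : w.2 ≤ w.2 / σ * σ + σ := by omega
          exact_mod_cast this
        have a4 : (v.2 : ℝ) ≤ ((v.2 / σ : ℕ) : ℝ) * σ + σ := by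
          have h5 := Nat.div_add_mod v.2 σ
          have h6 := Nat.mod_lt v.2 hσ
          rw [mul_comm] at h5
          have : v.2 ≤ v.2 / σ * σ + σ := by omega
          exact_mod_cast this
        have hσr : (0 : ℝ) < σ := by exact_mod_cast hσ
        rcases h3 w hwG v hvG hc with h | h | h
        · left; nlinarith
        · right; left; nlinarith
        · right; right; nlinarith
    have hmax : ∑ x ∈ F, uval β N u m X x ≤ Vbox β N u m X Z := by
      unfold Vbox maxFam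
      rw [← hσ', ← hD']
      refine Finset.le_sup' (f := fun F : Finset (Pt × ℕ) => ∑ x ∈ F, uval β N u m X x) ?_
      rw [Finset.mem_filter, Finset.mem_powerset]
      exact ⟨hsub, hadj⟩
    refine le_trans ?_ hmax
    have e2 : kept.card = ∑ x ∈ F, (kept.filter (fun w => (w.1, w.2 / σ) = x)).card :=
      Finset.card_eq_sum_card_fiberwise (f := fun w : Pt × ℕ => (w.1, w.2 / σ)) (by
        intro w hw
        exact Finset.mem_image_of_mem _ hw)
    rw [e2, Nat.cast_sum]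
    apply Finset.sum_le_sum
    intro x _
    unfold uval
    rw [Nat.cast_le, ← hσ']
    apply Finset.card_le_card_of_injOn (fun w => w.2)
    · intro w hw
      rw [Finset.mem_coe, Finset.mem_filter] at hw
      obtain ⟨hw1, hw2⟩ := hw
      have hwG := (Finset.mem_filter.1 (Finset.mem_filter.1 hw1).1).1
      have e3 : w.1 = x.1 := by rw [← hw2]
      have e4 : w.2 / σ = x.2 := by rw [← hw2]
      rw [Finset.mem_coe, Finset.mem_filter, Finset.mem_Ico]
      refine ⟨⟨?_, ?_⟩, ?_⟩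
      · rw [← e4]; exact Nat.div_mul_le_self _ _
      · change w.2 < (x.2 + 1) * σ
        rw [← e4, add_mul, one_mul]
        have h5 := Nat.div_add_mod w.2 σ
        have h6 := Nat.mod_lt w.2 hσ
        rw [mul_comm] at h5
        omega
      · rw [← e3]; exact h1 w hwG
    · intro w hw v hv hwv
      rw [Finset.mem_coe, Finset.mem_filter] at hw hv
      have e3 : w.1 = x.1 := by rw [← hw.2]
      have e4 : v.1 = x.1 := by rw [← hv.2]
      exact Prod.ext (e3.trans e4.symm) hwv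
  · -- the lost ones
    set Ex := (mst (inBox M s D P Z) \ mst P).filter
      (fun e => (M : ℝ) * ds e.1 e.2 * (β : ℝ) ^ 3 ≤ 2 * D) with hEx
    set B1 : Pt × Pt → Finset (Pt × ℕ) := fun e => 𝒢.filter (fun x =>
      ‖pt (sh M s e.1) - pt x.1‖ ≤ x.2 + 9 * σ ∧ (x.2 : ℝ) + 3 * σ ≤ ‖pt (sh M s e.2) - pt x.1‖)
      with hB1
    set B2 : Pt × Pt → Finset (Pt × ℕ) := fun e => 𝒢.filter (fun x =>
      ‖pt (sh M s e.2) - pt x.1‖ ≤ x.2 + 9 * σ ∧ (x.2 : ℝ) + 3 * σ ≤ ‖pt (sh M s e.1) - pt x.1‖)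
      with hB2
    have hcov : lost ⊆ Ex.biUnion (fun e => B1 e ∪ B2 e) := by
      intro x hx
      obtain ⟨hx1, e, he, hle, hcase⟩ := Finset.mem_filter.1 hx
      have hxG := (Finset.mem_filter.1 hx1).1
      rw [Finset.mem_biUnion]
      refine ⟨e, Finset.mem_filter.2 ⟨he, hle⟩, ?_⟩
      rw [Finset.mem_union]
      rcases hcase with h | h
      · exact Or.inl (Finset.mem_filter.2 ⟨hxG, h⟩)
      · exact Or.inr (Finset.mem_filter.2 ⟨hxG, h⟩)
    have hσ1 : 1 ≤ σ := hσ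
    have hb : ∀ e ∈ Ex, ((B1 e ∪ B2 e).card : ℝ) ≤ 5 * (D : ℝ) / (β : ℝ) ^ 3 := by
      intro e he
      have hle := (Finset.mem_filter.1 he).2
      have c1 := hXL 𝒢 σ (pt (sh M s e.1)) (pt (sh M s e.2)) hσ1 h3
      have c2 := hXL 𝒢 σ (pt (sh M s e.2)) (pt (sh M s e.1)) hσ1 h3
      rw [ds_sh] at c1 c2
      have c3 : ((B1 e ∪ B2 e).card : ℝ) ≤ (B1 e).card + (B2 e).card := by
        exact_mod_cast Finset.card_union_le _ _
      have c4 : ds e.2 e.1 = ds e.1 e.2 := by rw [ds_eq, ds_eq, norm_sub_rev]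
      rw [c4] at c2
      have c5 : (M : ℝ) * ds e.1 e.2 ≤ 2 * D / (β : ℝ) ^ 3 := by
        rw [le_div_iff₀ hβ3]; exact hle
      have c6 : 16 * (σ : ℝ) ≤ D / (β : ℝ) ^ 3 := by
        rw [le_div_iff₀ hβ3]; exact hDσ
      have c7 : 5 * (D : ℝ) / (β : ℝ) ^ 3 = 2 * (2 * D / (β : ℝ) ^ 3) + D / (β : ℝ) ^ 3 := by ring
      rw [c7]
      refine c3.trans ?_
      have c8 : ((B1 e).card : ℝ) ≤ M * ds e.1 e.2 + 8 * σ := c1
      have c9 : ((B2 e).card : ℝ) ≤ M * ds e.1 e.2 + 8 * σ := c2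
      linarith
    calc (lost.card : ℝ) ≤ ((Ex.biUnion (fun e => B1 e ∪ B2 e)).card : ℝ) := by
          exact_mod_cast Finset.card_le_card hcov
      _ ≤ ∑ e ∈ Ex, ((B1 e ∪ B2 e).card : ℝ) := by exact_mod_cast Finset.card_biUnion_le
      _ ≤ ∑ e ∈ Ex, 5 * (D : ℝ) / (β : ℝ) ^ 3 := Finset.sum_le_sum hb
      _ = (5 * (D : ℝ) / (β : ℝ) ^ 3) * Ex.card := by
          rw [Finset.sum_const, nsmul_eq_mul, mul_comm]
      _ ≤ (5 * (D : ℝ) / (β : ℝ) ^ 3) * (mst (inBox M s D P Z) \ mst P).card := by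
          apply mul_le_mul_of_nonneg_left _ (by positivity)
          exact_mod_cast Finset.card_filter_le _ _

end DETF

open DETF in
theorem t_DETF (h1 : St_CND) (h2 : St_SEP) (h3 : St_PROG) (h4 : St_XL) (h5 : St_EX) :
    St_DETF := by
  intro P T M y K S lam β N u L s BIG htd hlam hlam' hlb hN hM
  have hP : P.Nonempty := ⟨T.root, T.root.2⟩
  unfold Fstar
  rw [← Finset.sum_add_distrib]
  apply Finset.sum_le_sum
  intro m hm
  have hm3 : 3 ≤ m := (Finset.mem_Icc.1 hm).1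
  -- parameters
  have hβr : (10 : ℝ) ^ 8 ≤ β := by
    have : (10 : ℝ) ^ 4 ≤ 1 / 10 ^ 4 * β :=
      hlb.trans (mul_le_mul_of_nonneg_right hlam' (by positivity))
    linarith
  have hβ0 : 0 < β := by
    rcases Nat.eq_zero_or_pos β with h | h
    · rw [h] at hβr; norm_num at hβr
    · exact h
  have hβ1 : 1 ≤ β := hβ0
  set σ := DD β N u (m - 2) with hσd
  set D := DD β N u m with hDd
  set D1 := DD β N u (m - 1) with hD1d
  have hDe : D = σ * β ^ (2 * N) := by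
    rw [hDd, hσd]
    unfold DD
    rw [← pow_add]
    congr 1
    obtain ⟨q, rfl⟩ : ∃ q, m = q + 2 := ⟨m - 2, by omega⟩
    simp only [Nat.add_sub_cancel]
    ring
  have hσβ : β ≤ σ := by
    rw [hσd]
    unfold DD
    apply Nat.le_self_pow
    have : 1 ≤ N * (m - 2) := by
      have h6 : 1 ≤ N := by omega
      have h7 : 1 ≤ m - 2 := by omega
      exact Nat.mul_pos h6 h7
    omega
  have hσD1 : σ ≤ D1 := by
    rw [hσd, hD1d]
    unfold DD
    apply Nat.pow_le_pow_right hβ0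
    have : N * (m - 2) ≤ N * (m - 1) := Nat.mul_le_mul_left _ (by omega)
    omega
  have hσ0 : 0 < σ := lt_of_lt_of_le hβ0 hσβ
  have hdvd : σ ∣ D := ⟨_, hDe⟩
  have hσr : (0 : ℝ) < σ := by exact_mod_cast hσ0
  have hσβr : (β : ℝ) ≤ σ := by exact_mod_cast hσβ
  have hσD1r : (σ : ℝ) ≤ D1 := by exact_mod_cast hσD1
  have hβ1r : (1 : ℝ) ≤ β := by exact_mod_cast hβ1
  have hMr : 1000 * (β : ℝ) ≤ M := by exact_mod_cast hM
  have hDσ : 16 * (σ : ℝ) * (β : ℝ) ^ 3 ≤ D := by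
    rw [hDe]
    push_cast
    have h6 : (β : ℝ) ^ 4 ≤ (β : ℝ) ^ (2 * N) := pow_le_pow_right₀ hβ1r (by omega)
    have h7 : 16 * (β : ℝ) ^ 3 ≤ (β : ℝ) ^ 4 := by
      have : (β : ℝ) ^ 4 = β * (β : ℝ) ^ 3 := by ring
      rw [this]
      apply mul_le_mul_of_nonneg_right _ (by positivity)
      linarith
    calc 16 * (σ : ℝ) * (β : ℝ) ^ 3 = σ * (16 * (β : ℝ) ^ 3) := by ring
      _ ≤ σ * (β : ℝ) ^ (2 * N) := mul_le_mul_of_nonneg_left (h7.trans h6) hσr.le
  -- the good locations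
  set OK := (K ×ˢ Finset.range BIG).filter
    (fun p => ∃ i, OkI β N u m M s S lam p.1 p.2 i) with hOK
  have hch : ∀ p : {x // x ∈ P} × ℕ, ∃ i, p ∈ OK → OkI β N u m M s S lam p.1 p.2 i := by
    intro p
    by_cases h : p ∈ OK
    · obtain ⟨i, hi⟩ := (Finset.mem_filter.1 h).2
      exact ⟨i, fun _ => hi⟩
    · exact ⟨0, fun h' => absurd h' h⟩
  choose I hI using hch
  set c : {x // x ∈ P} → Pt := fun k => rd σ (sh M s k) with hc
  set R : {x // x ∈ P} × ℕ → ℝ := fun p =>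
    ‖(S p.1).X (I p) ((β : ℝ) * p.2) + pt s - pt (c p.1)‖ with hR
  have hR' : ∀ p, R p = ‖(S p.1).X (I p) ((β : ℝ) * p.2) - (pt (c p.1) - pt s)‖ := by
    intro p
    simp only [hR]
    congr 1
    ring
  have hR0 : ∀ p, 0 ≤ R p := fun p => norm_nonneg _
  have hKp : ∀ p ∈ OK, p.1 ∈ K := fun p hp =>
    (Finset.mem_product.1 (Finset.mem_filter.1 hp).1).1
  have hnear : ∀ k : {x // x ∈ P}, ‖locM M P k - (pt (c k) - pt s)‖ ≤ 2 * σ := by
    intro k
    have e : locM M P k - (pt (c k) - pt s) = pt (sh M s k) - pt (rd σ (sh M s k)) := by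
      rw [pt_sh M s k]
      simp only [hc, locM]
      ring
    rw [e]
    exact rd_near hσ0 _
  have hlarge : ∀ p ∈ OK, 10 ^ 3 * (σ : ℝ) ≤ lam * R p := by
    intro p hp
    have h6 := (hI p hp).2.1
    have h7 := hnear p.1
    have h8 : ‖(S p.1).X (I p) ((β : ℝ) * p.2) - locM M P p.1‖ ≤
        R p + ‖locM M P p.1 - (pt (c p.1) - pt s)‖ := by
      rw [hR']
      have := norm_sub_le_norm_sub_add_norm_sub ((S p.1).X (I p) ((β : ℝ) * p.2))
        (pt (c p.1) - pt s) (locM M P p.1)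
      rw [norm_sub_rev (pt (c p.1) - pt s)] at this
      exact this
    have h9 : 4 * (β : ℝ) * D1 - 2 * σ ≤ R p := by linarith
    have h10 : (σ : ℝ) * β ≤ β * D1 := by
      rw [mul_comm]; exact mul_le_mul_of_nonneg_left hσD1r (by positivity)
    have h11 : (2 : ℝ) * σ ≤ β * D1 := by
      have : 2 * (σ : ℝ) ≤ σ * β := by nlinarith
      linarith
    have h12 : 3 * (β : ℝ) * D1 ≤ R p := by linarith
    calc 10 ^ 3 * (σ : ℝ) ≤ 10 ^ 4 * D1 := by nlinarith
      _ ≤ (lam * β) * D1 := mul_le_mul_of_nonneg_right hlb (by positivity)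
      _ ≤ lam * (3 * (β : ℝ) * D1) := by
          have : 0 ≤ lam * (β * D1) := by positivity
          nlinarith
      _ ≤ lam * R p := mul_le_mul_of_nonneg_left h12 hlam.le
  -- radii
  set g : ℕ := ⌊(1 - 4 * lam) * β⌋₊ with hg
  have hgpos : 0 ≤ (1 - 4 * lam) * (β : ℝ) := by
    apply mul_nonneg _ (by positivity)
    linarith
  have hg1 : (g : ℝ) ≤ (1 - 4 * lam) * β := Nat.floor_le hgpos
  have hg2 : (1 - 4 * lam) * (β : ℝ) - 1 < g := by
    have := Nat.lt_floor_add_one ((1 - 4 * lam) * (β : ℝ))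
    linarith
  have hgβ : (g : ℝ) ≤ β := by
    have : 0 ≤ lam * (β : ℝ) := by positivity
    linarith
  set Φ : (({x // x ∈ P} × ℕ) × ℕ) → Pt × ℕ := fun q => (c q.1.1, ⌈R q.1⌉₊ + q.2) with hΦ
  have hrad1 : ∀ q : (({x // x ∈ P} × ℕ) × ℕ), R q.1 + q.2 ≤ ((Φ q).2 : ℝ) := by
    intro q
    simp only [hΦ]
    push_cast
    have := Nat.le_ceil (R q.1)
    linarith
  have hrad2 : ∀ q : (({x // x ∈ P} × ℕ) × ℕ), ((Φ q).2 : ℝ) < R q.1 + q.2 + 1 := by
    intro q
    simp only [hΦ]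
    push_cast
    have := Nat.ceil_lt_add_one (hR0 q.1)
    linarith
  have hradg : ∀ q ∈ OK ×ˢ Finset.range g, ((Φ q).2 : ℝ) < R q.1 + g := by
    intro q hq
    have h6 := Finset.mem_range.1 (Finset.mem_product.1 hq).2
    have h7 : (q.2 : ℝ) + 1 ≤ g := by exact_mod_cast h6
    have := hrad2 q
    linarith
  have hradR : ∀ q ∈ OK ×ˢ Finset.range g, |((Φ q).2 : ℝ) - R q.1| ≤ β := by
    intro q hq
    have h6 := hradg q hq
    have h7 := hrad1 q
    have h8 : (0 : ℝ) ≤ q.2 := by positivity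
    rw [abs_le]
    constructor <;> linarith
  -- separation
  have hsep : ∀ q ∈ OK ×ˢ Finset.range g, ∀ q' ∈ OK ×ˢ Finset.range g, q.1.1 ≠ q'.1.1 →
      ((Φ q).2 : ℝ) + (Φ q').2 + 20 * σ ≤ ds (Φ q).1 (Φ q').1 ∨
      ds (Φ q).1 (Φ q').1 + (Φ q').2 + 20 * σ ≤ (Φ q).2 ∨
      ds (Φ q).1 (Φ q').1 + (Φ q).2 + 20 * σ ≤ (Φ q').2 := by
    intro q hq q' hq' hne
    have hqO := (Finset.mem_product.1 hq).1
    have hqO' := (Finset.mem_product.1 hq').1
    have h6 := h2 {x // x ∈ P} T (locM M P) y (M : ℝ) K S lam β (1 / (β : ℝ) ^ 6)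
      ((β : ℝ) * q.1.2) ((β : ℝ) * q'.1.2) σ (I q.1) (I q'.1) (pt (c q.1.1) - pt s)
      (pt (c q'.1.1) - pt s) q.1.1 q'.1.1 htd.sys hlam hlam' hβ1r hMr (hKp _ hqO) (hKp _ hqO') hne
      (hI _ hqO).1 (hI _ hqO').1 (hnear _) (hnear _) hσβr
      (by rw [← hR']; exact hlarge _ hqO) (by rw [← hR']; exact hlarge _ hqO')
    rw [← hR', ← hR'] at h6
    have e : ‖pt (c q.1.1) - pt s - (pt (c q'.1.1) - pt s)‖ = ds (Φ q).1 (Φ q').1 := by
      rw [ds_eq]
      congr 1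
      simp only [hΦ]
      ring
    rw [e] at h6
    have a1 := abs_le.1 (hradR q hq)
    have a2 := abs_le.1 (hradR q' hq')
    rcases h6 with h | h | h
    · left; linarith [a1.1, a1.2, a2.1, a2.2]
    · right; left; linarith [a1.1, a1.2, a2.1, a2.2]
    · right; right; linarith [a1.1, a1.2, a2.1, a2.2]
  -- injectivity
  have hprog : ∀ q ∈ OK ×ˢ Finset.range g, ∀ q' ∈ OK ×ˢ Finset.range g, q.1.1 = q'.1.1 →
      q.1.2 < q'.1.2 → (Φ q).2 < (Φ q').2 := by
    intro q hq q' hq' hk hlt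
    have hqO := (Finset.mem_product.1 hq).1
    have hqO' := (Finset.mem_product.1 hq').1
    have hlt' : (q.1.2 : ℝ) + 1 ≤ q'.1.2 := by exact_mod_cast hlt
    have hfine' := (hI _ hqO').1
    rw [← hk] at hfine'
    have hlt2 : (β : ℝ) * q.1.2 + β ≤ (β : ℝ) * q'.1.2 := by nlinarith
    have h6 := h3 {x // x ∈ P} (locM M P) (M : ℝ) (S q.1.1) lam β (1 / (β : ℝ) ^ 6)
      ((β : ℝ) * q.1.2) ((β : ℝ) * q'.1.2) (I q.1) (I q'.1) (pt (c q.1.1) - pt s) σ
      hlam hlam' hβ1r hMr (hI _ hqO).1 hfine' hlt2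
      (by rw [htd.sys.z0 _ (hKp _ hqO)]; exact hnear _) hσβr
      (by rw [← hR']; exact hlarge _ hqO)
    have e1 : R q.1 = ‖(S q.1.1).X (I q.1) ((β : ℝ) * q.1.2) - (pt (c q.1.1) - pt s)‖ := hR' _
    have e2 : R q'.1 = ‖(S q.1.1).X (I q'.1) ((β : ℝ) * q'.1.2) - (pt (c q.1.1) - pt s)‖ := by
      rw [hk]; exact hR' _
    rw [← e1, ← e2] at h6
    have h7 : (g : ℝ) ≤ (1 - 3 * lam) * ((β : ℝ) * q'.1.2 - (β : ℝ) * q.1.2) := by
      calc (g : ℝ) ≤ (1 - 4 * lam) * β := hg1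
        _ ≤ (1 - 3 * lam) * β := by
            have : 0 ≤ lam * (β : ℝ) := by positivity
            nlinarith
        _ ≤ _ := by
            apply mul_le_mul_of_nonneg_left _ (by linarith)
            linarith
    have h8 := hradg q hq
    have h9 := hrad1 q'
    have h10 : (0 : ℝ) ≤ q'.2 := by positivity
    have h11 : ((Φ q).2 : ℝ) < (Φ q').2 := by linarith
    exact_mod_cast h11
  have hinj : Set.InjOn Φ (OK ×ˢ Finset.range g : Finset _) := by
    intro q hq q' hq' heq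
    rw [Finset.mem_coe] at hq hq'
    have hk : q.1.1 = q'.1.1 := by
      by_contra hne
      have h6 := hsep q hq q' hq' hne
      have e1 : (Φ q).1 = (Φ q').1 := by rw [heq]
      have e2 : ((Φ q).2 : ℝ) = (Φ q').2 := by rw [heq]
      rw [e1, e2, ds_eq, sub_self, norm_zero] at h6
      have : (0 : ℝ) ≤ ((Φ q').2 : ℝ) := by positivity
      rcases h6 with h | h | h <;> linarith
    have hn : q.1.2 = q'.1.2 := by
      rcases Nat.lt_trichotomy q.1.2 q'.1.2 with h | h | h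
      · have := hprog q hq q' hq' hk h
        rw [heq] at this
        exact absurd this (lt_irrefl _)
      · exact h
      · have := hprog q' hq' q hq hk.symm h
        rw [heq] at this
        exact absurd this (lt_irrefl _)
    have h12 : q.1 = q'.1 := Prod.ext hk hn
    have h13 : q.2 = q'.2 := by
      have : (Φ q).2 = (Φ q').2 := by rw [heq]
      simp only [hΦ, h12] at this
      omega
    exact Prod.ext h12 h13
  set 𝒢 := (OK ×ˢ Finset.range g).image Φ with h𝒢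
  have hcard : 𝒢.card = OK.card * g := by
    rw [h𝒢, Finset.card_image_of_injOn hinj, Finset.card_product, Finset.card_range]
  have hbxc : ∀ k : {x // x ∈ P}, bx D (c k) = bx D (sh M s k) := fun k => bx_rd hσ0 hdvd _
  have hcnd : ∀ q ∈ OK ×ˢ Finset.range g,
      Unhit β N u m (P.image (sh M s)) (Φ q).1 (Φ q).2 ∧
      (¬ Lost β M s D σ P (bx D (sh M s q.1.1)) (Φ q).1 (Φ q).2 →
        ((Φ q).1, (Φ q).2 / σ) ∈ cands β N u m
          (Qc D σ (P.image (sh M s)) (bx D (sh M s q.1.1))) (bx D (sh M s q.1.1))) := by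
    intro q hq
    have hqO := (Finset.mem_product.1 hq).1
    exact h1 P T M y K S lam β N u m s q.1.1 q.1.2 (I q.1) (Φ q).2 (Φ q).1
      (bx D (sh M s q.1.1)) htd hlam hlam' hlb hN hm3 hM (hKp _ hqO) (hI _ hqO) rfl rfl
      (hradR q hq)
  have hmain := comb h4 β N u m M s P 𝒢 σ D hσd hDd hσ0 hβ0 hDσ (P.image (sh M s)) rfl
    (by
      intro x hx
      obtain ⟨q, hq, rfl⟩ := Finset.mem_image.1 hx
      exact (hcnd q hq).1)
    (by
      intro x hx
      obtain ⟨q, hq, rfl⟩ := Finset.mem_image.1 hx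
      have e : bx D (Φ q).1 = bx D (sh M s q.1.1) := hbxc _
      rw [e]
      exact (hcnd q hq).2)
    (by
      intro x hx x' hx' hne
      obtain ⟨q, hq, rfl⟩ := Finset.mem_image.1 hx
      obtain ⟨q', hq', rfl⟩ := Finset.mem_image.1 hx'
      apply hsep q hq q' hq'
      intro h
      apply hne
      simp only [hΦ, h])
    (by
      intro x hx
      obtain ⟨q, hq, rfl⟩ := Finset.mem_image.1 hx
      have e : bx D (Φ q).1 = bx D (sh M s q.1.1) := hbxc _
      rw [e]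
      exact Finset.mem_image_of_mem _ (Finset.mem_image_of_mem _ q.1.1.2))
  have hEX := (h5 M s D P hP).1
  have himg : (P.image (sh M s)).image (bx D) = P.image (fun x => bx D (sh M s x)) := by
    rw [Finset.image_image]
    rfl
  have hfin : ∑ Z ∈ (P.image (sh M s)).image (bx D),
      (5 * (D : ℝ) / (β : ℝ) ^ 3) * ((mst (inBox M s D P Z) \ mst P).card : ℝ) ≤
      5 * (D : ℝ) / (β : ℝ) ^ 3 * (cutN M s D P : ℝ) := by
    rw [← Finset.mul_sum, himg]
    apply mul_le_mul_of_nonneg_left _ (by positivity)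
    exact_mod_cast hEX
  have hokN : okN β N u m M s K S lam BIG = OK.card := rfl
  rw [hokN]
  calc (1 - 5 * lam) * (β : ℝ) * (OK.card : ℝ) ≤ g * OK.card := by
        apply mul_le_mul_of_nonneg_right _ (by positivity)
        linarith
    _ = (𝒢.card : ℝ) := by rw [hcard]; push_cast; ring
    _ ≤ _ := hmain
    _ ≤ _ := by linarith

end Pool.Agent.H660R3.TS
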