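import Pool.Agent.H660R3.TS.Stubs

/-!
# DICH: short tour or cut packing
-/

set_option autoImplicit false

namespace Pool.Agent.H660R3.TS

open scoped Classical

theorem DICH.mem_edges {V : Type} [Fintype V] (T : RTree V) (v : V) :
    v ∈ T.edges ↔ v ≠ T.root := by
  unfold RTree.edges
  simp

theorem t_DICH (h1 : St_LP) (h2 : St_PAR) (h3 : St_EUL) : St_DICH := by
  intro P T η hη hη1
  let w : {x // x ∈ P} → ℝ := fun v => if v = T.root then 0 else ds v (T.par v)
  let d : {x // x ∈ P} × {x // x ∈ P} → ℝ := fun r => ds r.1 r.2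
  let c : {x // x ∈ P} × {x // x ∈ P} → {x // x ∈ P} → Prop := fun r e => e ∈ T.pth r.1 r.2
  have hds : ∀ p q : Pt, 0 ≤ ds p q := fun p q => Real.sqrt_nonneg _
  have hw : ∀ e, 0 ≤ w e := by
    intro e
    simp only [w]
    split_ifs
    · exact le_rfl
    · exact hds _ _
  have hd : ∀ i, 0 ≤ d i := fun i => hds _ _
  have hedge : ∀ g : {x // x ∈ P} → ℝ, g T.root = 0 → ∑ v, g v = ∑ v ∈ T.edges, g v := by
    intro g hg
    symm
    apply Finset.sum_subset (Finset.subset_univ _)
    intro v _ hv
    have : v = T.root := by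
      by_contra h
      exact hv ((DICH.mem_edges T v).2 h)
    rw [this, hg]
  have hW : ∑ v, w v = ∑ v ∈ T.edges, ds v (T.par v) := by
    rw [hedge w (by simp [w])]
    apply Finset.sum_congr rfl
    intro v hv
    have : v ≠ T.root := (DICH.mem_edges T v).1 hv
    simp [w, this]
  rcases h1 _ _ w d c η hw hd hη hη1 with ⟨y, hy, hyd, hyW⟩ | ⟨x, hx, hlt⟩
  · right
    refine ⟨y, fun v => (hy v).1, fun v hv => ?_, fun u v => ?_, ?_⟩
    · have := (hy v).2
      simp only [w, if_neg hv] at this
      exact this
    · have := hyd (u, v)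
      refine le_trans (le_of_eq (Finset.sum_congr ?_ (fun _ _ => rfl))) this
      ext e
      simp [c]
    · have h5 : y T.root = 0 := by
        have := hy T.root
        simp only [w, if_true] at this
        linarith [this.1, this.2]
      rw [← hedge y h5, ← hW]
      exact hyW
  · left
    obtain ⟨R, hR⟩ := h2 _ _ w d c η x hw hd hη hη1 hx hlt
    obtain ⟨l, hl1, hl2, hl3⟩ := h3 P T R
    refine ⟨l, hl1, hl2, le_trans hl3 ?_⟩
    rw [← hW]
    refine le_trans (le_of_eq ?_) hR
    congr 1
    symm
    rw [← Finset.sum_subset (Finset.subset_univ T.edges)]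
    · apply Finset.sum_congr rfl
      intro v hv
      have hv' : v ≠ T.root := (DICH.mem_edges T v).1 hv
      simp only [w, if_neg hv', c]
    · intro v _ hv
      have : v = T.root := by
        by_contra h
        exact hv ((DICH.mem_edges T v).2 h)
      simp [w, this]

end Pool.Agent.H660R3.TS
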