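import Pool.Agent.H660R3.TS.Stubs

/-!
# Euler tour of a tree with chords (task EUL of helper660, written by helper226)
-/

set_option autoImplicit false

open scoped Classical

namespace Pool.Agent.H660R3.TS

namespace EUL

section walks

variable {V : Type}

/-- the multiset of steps of a walk -/
def steps : List V → Multiset (Sym2 V)
  | [] => 0
  | [_] => 0
  | a :: b :: l => s(a, b) ::ₘ steps (b :: l)

theorem steps_append (A : List V) (x : V) (B : List V) :
    steps (A ++ x :: B) = steps (A ++ [x]) + steps (x :: B) := by
  induction A with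
  | nil => simp [steps]
  | cons a A ih =>
    cases A with
    | nil => simp [steps]
    | cons a' A' =>
      have e1 : steps (a :: a' :: A' ++ x :: B) = s(a, a') ::ₘ steps (a' :: A' ++ x :: B) := rfl
      have e2 : steps (a :: a' :: A' ++ [x]) = s(a, a') ::ₘ steps (a' :: A' ++ [x]) := rfl
      rw [e1, e2, ih, Multiset.cons_add]

theorem mem_steps {l : List V} {a b : V} (h : s(a, b) ∈ steps l) :
    ∃ A B, l = A ++ a :: b :: B ∨ l = A ++ b :: a :: B := by
  induction l with
  | nil => simp [steps] at h
  | cons x l ih =>
    cases l with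
    | nil => simp [steps] at h
    | cons y l =>
      rw [steps, Multiset.mem_cons] at h
      rcases h with h | h
      · rw [Sym2.eq_iff] at h
        rcases h with ⟨rfl, rfl⟩ | ⟨rfl, rfl⟩
        · exact ⟨[], l, Or.inl rfl⟩
        · exact ⟨[], l, Or.inr rfl⟩
      · obtain ⟨A, B, h | h⟩ := ih h
        · exact ⟨x :: A, B, Or.inl (by rw [h]; rfl)⟩
        · exact ⟨x :: A, B, Or.inr (by rw [h]; rfl)⟩

theorem insert_aux (A B : List V) (a b v : V) :
    (A ++ a :: v :: b :: B).head? = (A ++ a :: b :: B).head? ∧
    (A ++ a :: v :: b :: B).getLast? = (A ++ a :: b :: B).getLast? ∧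
    s(a, b) ::ₘ steps (A ++ a :: v :: b :: B) =
      s(a, v) ::ₘ s(v, b) ::ₘ steps (A ++ a :: b :: B) := by
  refine ⟨?_, ?_, ?_⟩
  · cases A <;> rfl
  · simp [List.getLast?_append, List.getLast?_cons_cons]
  · rw [steps_append, steps_append A a (b :: B)]
    simp only [steps]
    rw [← Multiset.singleton_add, ← Multiset.singleton_add (s(a, v)),
      ← Multiset.singleton_add (s(v, b)), ← Multiset.singleton_add (s(a, b)) (steps (b :: B)),
      ← Multiset.singleton_add (s(a, v)), ← Multiset.singleton_add (s(v, b))]
    abel

theorem insert_step {l : List V} {a b : V} (v : V) (h : s(a, b) ∈ steps l) :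
    ∃ l', l'.head? = l.head? ∧ l'.getLast? = l.getLast? ∧
      s(a, b) ::ₘ steps l' = s(a, v) ::ₘ s(v, b) ::ₘ steps l := by
  obtain ⟨A, B, h | h⟩ := mem_steps h
  · refine ⟨A ++ a :: v :: b :: B, ?_⟩
    rw [h]
    exact insert_aux A B a b v
  · refine ⟨A ++ b :: v :: a :: B, ?_⟩
    rw [h]
    obtain ⟨h1, h2, h3⟩ := insert_aux A B b a v
    refine ⟨h1, h2, ?_⟩
    rw [Sym2.eq_swap (a := a) (b := b), h3, Sym2.eq_swap (a := b) (b := v),
      Sym2.eq_swap (a := v) (b := a), Multiset.cons_swap]

theorem mem_of_mem_steps {l : List V} {e : Sym2 V} (h : e ∈ steps l) : ∀ v ∈ e, v ∈ l := by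
  induction e using Sym2.ind with
  | _ a b =>
    obtain ⟨A, B, h | h⟩ := mem_steps h
    · intro v hv
      rw [Sym2.mem_iff] at hv
      rw [h]
      rcases hv with rfl | rfl <;> simp
    · intro v hv
      rw [Sym2.mem_iff] at hv
      rw [h]
      rcases hv with rfl | rfl <;> simp

end walks

section tree

variable {V : Type} (T : RTree V)

/-- indicator of the subtree at `v` -/
noncomputable def ind (v a : V) : ZMod 2 := if T.InSub a v then 1 else 0

/-- crossing indicator -/
noncomputable def fv (v : V) : Sym2 V → ZMod 2 :=
  Sym2.lift ⟨fun a b => ind T v a + ind T v b, fun a b => add_comm _ _⟩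

theorem fv_mk (v a b : V) : fv T v s(a, b) = ind T v a + ind T v b := rfl

theorem ind_par {v w : V} (h : w ≠ v) : ind T w (T.par v) = ind T w v := by
  have : T.InSub (T.par v) w ↔ T.InSub v w := by
    constructor
    · rintro ⟨n, hn⟩
      exact ⟨n + 1, by rw [Function.iterate_succ_apply]; exact hn⟩
    · rintro ⟨n, hn⟩
      cases n with
      | zero => exact absurd hn.symm h
      | succ n => exact ⟨n, by rw [Function.iterate_succ_apply] at hn; exact hn⟩
  unfold ind
  simp only [this]

theorem ind_self (v : V) : ind T v v = 1 := by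
  unfold ind
  rw [if_pos ⟨0, rfl⟩]

theorem iter_root (n : ℕ) : T.par^[n] T.root = T.root := by
  induction n with
  | zero => rfl
  | succ n ih => rw [Function.iterate_succ_apply, T.par_root, ih]

theorem rk_iter (v : V) (n : ℕ) : T.rk (T.par^[n] v) ≤ T.rk v := by
  induction n with
  | zero => exact le_rfl
  | succ n ih =>
    rw [Function.iterate_succ_apply']
    by_cases h : T.par^[n] v = T.root
    · rw [h, T.par_root, ← h]; exact ih
    · exact (T.rk_lt _ h).le.trans ih

theorem ind_par_self {v : V} (h : v ≠ T.root) : ind T v (T.par v) = 0 := by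
  unfold ind
  rw [if_neg]
  rintro ⟨n, hn⟩
  have h1 := rk_iter T (T.par v) n
  rw [hn] at h1
  have := T.rk_lt v h
  omega

theorem zz (x : ZMod 2) : x + x = 0 := by
  have h : ∀ x : ZMod 2, x + x = 0 := by decide
  exact h x

theorem euler : ∀ (n : ℕ) (S : Finset V) (E : Multiset (Sym2 V)), S.card + E.card = n →
    T.root ∈ S → (∀ v ∈ S, T.par v ∈ S) → (∀ e ∈ E, ∀ v ∈ e, v ∈ S) →
    (∀ v ∈ S, v ≠ T.root → (E.map (fv T v)).sum = 1) →
    ∃ l, l.head? = some T.root ∧ l.getLast? = some T.root ∧
      steps l = E + ((S.erase T.root).val.map fun v => s(v, T.par v)) := by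
  intro n
  induction n with
  | zero =>
    intro S E h hr
    have : 0 < S.card := Finset.card_pos.2 ⟨_, hr⟩
    omega
  | succ n ih =>
    intro S E hn hr hS hE hpar
    by_cases hS1 : S.erase T.root = ∅
    · -- only the root
      have hSr : ∀ v ∈ S, v = T.root := by
        intro v hv
        by_contra hne
        have : v ∈ S.erase T.root := Finset.mem_erase.2 ⟨hne, hv⟩
        rw [hS1] at this
        simp at this
      have hrep : ∀ k : ℕ, (List.replicate (k + 1) T.root).head? = some T.root ∧
          (List.replicate (k + 1) T.root).getLast? = some T.root ∧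
          steps (List.replicate (k + 1) T.root) = Multiset.replicate k s(T.root, T.root) := by
        intro k
        induction k with
        | zero => exact ⟨rfl, rfl, rfl⟩
        | succ k ih =>
          obtain ⟨h1, h2, h3⟩ := ih
          refine ⟨rfl, ?_, ?_⟩
          · rw [List.replicate_succ, List.replicate_succ, List.getLast?_cons_cons,
              ← List.replicate_succ]
            exact h2
          · have : steps (List.replicate (k + 1 + 1) T.root) =
                s(T.root, T.root) ::ₘ steps (List.replicate (k + 1) T.root) := rfl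
            rw [this, h3, Multiset.replicate_succ]
      obtain ⟨h1, h2, h3⟩ := hrep E.card
      refine ⟨_, h1, h2, ?_⟩
      rw [h3, hS1]
      simp only [Finset.empty_val, Multiset.map_zero, add_zero]
      symm
      rw [Multiset.eq_replicate]
      refine ⟨rfl, fun e he => ?_⟩
      induction e using Sym2.ind with
      | _ a b =>
        rw [hSr a (hE _ he a (Sym2.mem_mk_left a b)), hSr b (hE _ he b (Sym2.mem_mk_right a b))]
    · -- a leaf
      obtain ⟨v, hv, hmax⟩ := Finset.exists_max_image (S.erase T.root) T.rk
        (Finset.nonempty_iff_ne_empty.2 hS1)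
      obtain ⟨hvr, hvS⟩ := Finset.mem_erase.1 hv
      have hleaf : ∀ a ∈ S, T.InSub a v → a = v := by
        intro a ha ⟨k, hk⟩
        cases k with
        | zero => exact hk
        | succ k =>
          exfalso
          rw [Function.iterate_succ_apply'] at hk
          have hcS : T.par^[k] a ∈ S := by
            clear hk
            induction k with
            | zero => exact ha
            | succ k ih => rw [Function.iterate_succ_apply']; exact hS _ ih
          have hcr : T.par^[k] a ≠ T.root := by
            intro h
            rw [h, T.par_root] at hk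
            exact hvr hk.symm
          have h1 := hmax _ (Finset.mem_erase.2 ⟨hcr, hcS⟩)
          have h2 := T.rk_lt _ hcr
          rw [hk] at h2
          omega
      have hind0 : ∀ a ∈ S, a ≠ v → ind T v a = 0 := by
        intro a ha hne
        unfold ind
        rw [if_neg fun h => hne (hleaf a ha h)]
      -- an edge at v
      obtain ⟨e, heE, hev⟩ : ∃ e ∈ E, fv T v e ≠ 0 := by
        by_contra hcon
        push Not at hcon
        have h1 := hpar v hvS hvr
        have h2 : (E.map (fv T v)).sum = 0 := by
          apply Multiset.sum_eq_zero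
          intro x hx
          obtain ⟨e, he, rfl⟩ := Multiset.mem_map.1 hx
          exact hcon e he
        rw [h2] at h1
        exact zero_ne_one h1
      obtain ⟨u, huv, rfl⟩ : ∃ u, u ≠ v ∧ e = s(v, u) := by
        induction e using Sym2.ind with
        | _ a b =>
          have haS := hE _ heE a (Sym2.mem_mk_left a b)
          have hbS := hE _ heE b (Sym2.mem_mk_right a b)
          rw [fv_mk] at hev
          by_cases ha : a = v
          · subst ha
            refine ⟨b, ?_, rfl⟩
            rintro rfl
            exact hev (zz _)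
          · by_cases hb : b = v
            · subst hb
              exact ⟨a, ha, Sym2.eq_swap⟩
            · rw [hind0 a haS ha, hind0 b hbS hb] at hev
              exact absurd (add_zero _) hev
      obtain ⟨E1, rfl⟩ := Multiset.exists_cons_of_mem heE
      have huS : u ∈ S := hE _ heE u (Sym2.mem_mk_right v u)
      by_cases h2 : ∃ e2 ∈ E1, v ∈ e2
      · -- two edges at v: split off
        obtain ⟨e2, he2, hve2⟩ := h2
        obtain ⟨u2, rfl⟩ := Sym2.mem_iff_exists.1 hve2
        obtain ⟨E2, rfl⟩ := Multiset.exists_cons_of_mem he2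
        have hu2S : u2 ∈ S := hE _ (Multiset.mem_cons_of_mem he2) u2 (Sym2.mem_mk_right v u2)
        obtain ⟨l, hl1, hl2, hl3⟩ := ih S (s(u, u2) ::ₘ E2) (by
          simp only [Multiset.card_cons] at hn ⊢
          omega) hr hS (by
            intro e he w hw
            rw [Multiset.mem_cons] at he
            rcases he with rfl | he
            · rw [Sym2.mem_iff] at hw
              rcases hw with rfl | rfl
              · exact huS
              · exact hu2S
            · exact hE e (Multiset.mem_cons_of_mem (Multiset.mem_cons_of_mem he)) w hw) (by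
            intro w hw hwr
            have h := hpar w hw hwr
            rw [Multiset.map_cons, Multiset.sum_cons] at h ⊢
            rw [Multiset.map_cons, Multiset.sum_cons] at h
            rw [fv_mk] at h ⊢
            rw [fv_mk] at h
            have h3 := zz (ind T w v)
            calc ind T w u + ind T w u2 + (E2.map (fv T w)).sum
                = ind T w v + ind T w u + (ind T w v + ind T w u2 + (E2.map (fv T w)).sum) -
                  (ind T w v + ind T w v) := by ring
              _ = 1 := by rw [h, h3, sub_zero])
        have hmem : s(u, u2) ∈ steps l := by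
          rw [hl3, Multiset.mem_add]
          exact Or.inl (Multiset.mem_cons_self _ _)
        obtain ⟨l', h3, h4, h5⟩ := insert_step v hmem
        refine ⟨l', h3.trans hl1, h4.trans hl2, ?_⟩
        rw [hl3, Multiset.cons_add, Multiset.cons_swap (s(v, u2)), Multiset.cons_swap (s(u, v)),
          Multiset.cons_inj_right] at h5
        rw [h5, Sym2.eq_swap (a := u) (b := v), Multiset.cons_add, Multiset.cons_add]
      · -- one edge at v: remove the leaf
        push Not at h2
        have hpv : T.par v ≠ v := by
          intro h
          have := T.rk_lt v hvr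
          rw [h] at this
          omega
        have hpS : T.par v ∈ S := hS v hvS
        obtain ⟨l, hl1, hl2, hl3⟩ := ih (S.erase v) (s(T.par v, u) ::ₘ E1) (by
          rw [Finset.card_erase_of_mem hvS]
          simp only [Multiset.card_cons] at hn ⊢
          have : 0 < S.card := Finset.card_pos.2 ⟨_, hr⟩
          omega) (Finset.mem_erase.2 ⟨fun h => hvr h.symm, hr⟩) (by
            intro w hw
            obtain ⟨hwv, hwS⟩ := Finset.mem_erase.1 hw
            refine Finset.mem_erase.2 ⟨?_, hS w hwS⟩
            intro h
            exact hwv (hleaf w hwS ⟨1, h⟩)) (by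
            intro e he w hw
            rw [Multiset.mem_cons] at he
            rcases he with rfl | he
            · rw [Sym2.mem_iff] at hw
              rcases hw with rfl | rfl
              · exact Finset.mem_erase.2 ⟨hpv, hpS⟩
              · exact Finset.mem_erase.2 ⟨huv, huS⟩
            · refine Finset.mem_erase.2 ⟨?_, hE e (Multiset.mem_cons_of_mem he) w hw⟩
              rintro rfl
              exact h2 e he hw) (by
            intro w hw hwr
            obtain ⟨hwv, hwS⟩ := Finset.mem_erase.1 hw
            have h := hpar w hwS hwr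
            rw [Multiset.map_cons, Multiset.sum_cons] at h ⊢
            rw [fv_mk] at h ⊢
            rw [ind_par T hwv]
            exact h)
        have hmem : s(T.par v, u) ∈ steps l := by
          rw [hl3, Multiset.mem_add]
          exact Or.inl (Multiset.mem_cons_self _ _)
        obtain ⟨l', h3, h4, h5⟩ := insert_step v hmem
        refine ⟨l', h3.trans hl1, h4.trans hl2, ?_⟩
        rw [hl3, Multiset.cons_add, Multiset.cons_swap (s(v, u)), Multiset.cons_swap (s(T.par v, v)),
          Multiset.cons_inj_right] at h5
        have h6 : (S.erase T.root).val = v ::ₘ ((S.erase v).erase T.root).val := by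
          rw [Finset.erase_right_comm, Finset.erase_val _ v]
          rw [Multiset.cons_erase]
          exact hv
        rw [h5, h6, Multiset.map_cons, Sym2.eq_swap (a := T.par v) (b := v), Multiset.cons_add]
        rw [← Multiset.singleton_add, ← Multiset.singleton_add, ← Multiset.singleton_add (s(v, u)),
          ← Multiset.singleton_add (s(v, T.par v))]
        abel

end tree

/-! ### walks and tours -/

/-- length of a walk -/
noncomputable def wl : List Pt → ℝ
  | [] => 0
  | [_] => 0
  | a :: b :: l => ds a b + wl (b :: l)

theorem ds_eq (p q : Pt) : ds p q = ‖pt p - pt q‖ := by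
  unfold ds pt
  rw [Complex.norm_def, Complex.normSq_apply]
  congr 1
  simp only [Complex.sub_re, Complex.sub_im]
  ring

theorem ds_nonneg (p q : Pt) : 0 ≤ ds p q := Real.sqrt_nonneg _

theorem ds_comm (p q : Pt) : ds p q = ds q p := by
  rw [ds_eq, ds_eq, norm_sub_rev]

theorem ds_self (p : Pt) : ds p p = 0 := by
  rw [ds_eq, sub_self, norm_zero]

theorem ds_tri (p q r : Pt) : ds p r ≤ ds p q + ds q r := by
  rw [ds_eq, ds_eq, ds_eq]
  exact norm_sub_le_norm_sub_add_norm_sub _ _ _

theorem wl_insert (a x : Pt) (l : List Pt) : wl (a :: l) ≤ wl (a :: x :: l) := by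
  cases l with
  | nil => simp only [wl]; have := ds_nonneg a x; linarith
  | cons b l =>
    simp only [wl]
    have := ds_tri a x b
    linarith

theorem wl_sublist {l l' : List Pt} (h : List.Sublist l' l) :
    ∀ a b : Pt, wl (a :: (l' ++ [b])) ≤ wl (a :: (l ++ [b])) := by
  induction h with
  | slnil => intro a b; exact le_rfl
  | @cons l₁ l₂ x h ih =>
    intro a b
    calc wl (a :: (l₁ ++ [b])) ≤ wl (a :: x :: (l₁ ++ [b])) := wl_insert _ _ _
      _ = ds a x + wl (x :: (l₁ ++ [b])) := rfl
      _ ≤ ds a x + wl (x :: (l₂ ++ [b])) := by linarith [ih x b]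
      _ = wl (a :: (x :: l₂ ++ [b])) := rfl
  | @cons_cons l₁ l₂ x h ih =>
    intro a b
    calc wl (a :: (x :: l₁ ++ [b])) = ds a x + wl (x :: (l₁ ++ [b])) := rfl
      _ ≤ ds a x + wl (x :: (l₂ ++ [b])) := by linarith [ih x b]
      _ = wl (a :: (x :: l₂ ++ [b])) := rfl

theorem wl_eq_sum (l : List Pt) : ∀ a : Pt, wl (a :: l) =
    ∑ i ∈ Finset.range l.length, ds ((a :: l).getD i (0, 0)) ((a :: l).getD (i + 1) (0, 0)) := by
  induction l with
  | nil => intro a; simp [wl]
  | cons b l ih =>
    intro a
    rw [wl, ih b, List.length_cons, Finset.sum_range_succ']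
    simp only [List.getD_cons_succ, List.getD_cons_zero]
    rw [add_comm]

theorem tourLen_cons (a : Pt) (l : List Pt) : tourLen (a :: l) = wl (a :: (l ++ [a])) := by
  rw [wl_eq_sum]
  unfold tourLen
  rw [List.length_append, List.length_singleton]
  have e : ∀ i : Fin (a :: l).length, (a :: l).get i = (a :: l).getD i.val (0, 0) := by
    intro i
    rw [List.getD_eq_getElem _ _ i.isLt]
    rfl
  rw [← Fin.sum_univ_eq_sum_range (fun i => ds ((a :: (l ++ [a])).getD i (0, 0))
    ((a :: (l ++ [a])).getD (i + 1) (0, 0))) (l.length + 1)]
  apply Finset.sum_congr rfl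
  intro i _
  rw [e i]
  have hi : i.val < l.length + 1 := i.isLt
  have h1 : (a :: (l ++ [a])).getD i.val (0, 0) = (a :: l).getD i.val (0, 0) := by
    rw [← List.cons_append, List.getD_append _ _ _ _ (by simpa using hi)]
  have h2 : (a :: (l ++ [a])).getD (i.val + 1) (0, 0) =
      (a :: l).getD ((i.val + 1) % (a :: l).length) (0, 0) := by
    change _ = (a :: l).getD ((i.val + 1) % (l.length + 1)) (0, 0)
    rcases Nat.lt_or_ge (i.val + 1) (l.length + 1) with h | h
    · rw [Nat.mod_eq_of_lt h, ← List.cons_append, List.getD_append _ _ _ _ (by simpa using h)]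
    · have h3 : i.val + 1 = l.length + 1 := by omega
      rw [h3, Nat.mod_self, List.getD_cons_succ, List.getD_append_right _ _ _ _ le_rfl]
      simp
  rw [h1, h2]
  rfl

/-- distance of a pair -/
noncomputable def dd {P : Finset Pt} : Sym2 {x // x ∈ P} → ℝ :=
  Sym2.lift ⟨fun a b => ds a b, fun a b => ds_comm _ _⟩

theorem dd_mk {P : Finset Pt} (a b : {x // x ∈ P}) : dd s(a, b) = ds a b := rfl

theorem wl_map {P : Finset Pt} (l : List {x // x ∈ P}) :
    wl (l.map Subtype.val) = ((steps l).map dd).sum := by
  induction l with
  | nil => simp [wl, steps]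
  | cons a l ih =>
    cases l with
    | nil => simp [wl, steps]
    | cons b l =>
      rw [steps, Multiset.map_cons, Multiset.sum_cons, ← ih]
      rfl

end EUL

open EUL in
theorem t_EUL : St_EUL := by
  intro P T R
  classical
  set cnt : {x // x ∈ P} → ℕ := fun e => (R.filter (fun r => e ∈ T.pth r.1 r.2)).card with hcnt
  set E1 : Multiset (Sym2 {x // x ∈ P}) := R.val.map (fun r => s(r.1, r.2)) with hE1
  set E2 : Multiset (Sym2 {x // x ∈ P}) :=
    (T.edges.filter (fun e => ¬ Odd (cnt e))).val.map (fun e => s(e, T.par e)) with hE2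
  have hpar : ∀ v ∈ (Finset.univ : Finset {x // x ∈ P}), v ≠ T.root →
      ((E1 + E2).map (fv T v)).sum = 1 := by
    intro v _ hv
    have h1 : (E1.map (fv T v)).sum = (cnt v : ZMod 2) := by
      rw [hE1, Multiset.map_map]
      change ∑ r ∈ R, fv T v s(r.1, r.2) = _
      rw [hcnt]
      simp only [Finset.card_filter, Nat.cast_sum]
      apply Finset.sum_congr rfl
      intro r _
      rw [fv_mk]
      unfold ind
      have hm : v ∈ T.pth r.1 r.2 ↔ ¬ (T.InSub r.1 v ↔ T.InSub r.2 v) := by
        simp only [RTree.pth, Finset.mem_filter, Finset.mem_univ, true_and]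
        exact ⟨fun h => h.2, fun h => ⟨hv, h⟩⟩
      simp only [hm]
      by_cases ha : T.InSub r.1 v <;> by_cases hb : T.InSub r.2 v <;> simp [ha, hb]
      decide
    have h2 : (E2.map (fv T v)).sum = if ¬ Odd (cnt v) then 1 else 0 := by
      rw [hE2, Multiset.map_map]
      change ∑ e ∈ T.edges.filter (fun e => ¬ Odd (cnt e)), fv T v s(e, T.par e) = _
      have h3 : ∀ e ∈ T.edges.filter (fun e => ¬ Odd (cnt e)),
          fv T v s(e, T.par e) = if e = v then 1 else 0 := by
        intro e he
        rw [fv_mk]
        split_ifs with hev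
        · rw [hev, ind_self, ind_par_self T hv, add_zero]
        · rw [ind_par T (fun h => hev h.symm)]
          exact EUL.zz _
      rw [Finset.sum_congr rfl h3, Finset.sum_ite_eq']
      have h4 : v ∈ T.edges.filter (fun e => ¬ Odd (cnt e)) ↔ ¬ Odd (cnt v) := by
        simp only [RTree.edges, Finset.mem_filter, Finset.mem_univ, true_and]
        exact ⟨fun h => h.2, fun h => ⟨hv, h⟩⟩
      simp only [h4]
    rw [Multiset.map_add, Multiset.sum_add, h1, h2]
    by_cases h : Odd (cnt v)
    · have : ((cnt v : ℕ) : ZMod 2) = 1 := (ZMod.natCast_eq_one_iff_odd).2 h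
      rw [this]
      simp [h]
    · have : ((cnt v : ℕ) : ZMod 2) = 0 :=
        (ZMod.natCast_eq_zero_iff_even).2 (Nat.not_odd_iff_even.1 h)
      rw [this]
      simp [h]
  obtain ⟨l, hl1, hl2, hl3'⟩ := euler T _ Finset.univ (E1 + E2) rfl (Finset.mem_univ _)
    (fun v _ => Finset.mem_univ _) (fun e _ v _ => Finset.mem_univ _) hpar
  have hl3 : steps l = E1 + E2 + T.edges.val.map (fun v => s(v, T.par v)) := by
    rw [hl3']
    congr 3
    ext v
    simp [RTree.edges]
  -- all vertices are visited
  have hall : ∀ v, v ∈ l := by
    intro v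
    by_cases hv : v = T.root
    · rw [hv]
      exact List.mem_of_mem_head? hl1
    · have : s(v, T.par v) ∈ steps l := by
        rw [hl3, Multiset.mem_add]
        right
        rw [Multiset.mem_map]
        exact ⟨v, by simp only [RTree.edges, Finset.mem_val, Finset.mem_filter,
          Finset.mem_univ, true_and]; exact hv, rfl⟩
      exact mem_of_mem_steps this v (Sym2.mem_mk_left _ _)
  -- length of the walk
  have hlen : wl (l.map Subtype.val) = ∑ r ∈ R, ds r.1 r.2 + ∑ e ∈ T.edges, ds e (T.par e) *
      (if Odd (R.filter (fun r => e ∈ T.pth r.1 r.2)).card then 1 else 2) := by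
    rw [wl_map, hl3, Multiset.map_add, Multiset.sum_add, Multiset.map_add, Multiset.sum_add]
    have h1 : (E1.map dd).sum = ∑ r ∈ R, ds r.1 r.2 := by
      rw [hE1, Multiset.map_map]
      rfl
    have h2 : (E2.map dd).sum =
        ∑ e ∈ T.edges.filter (fun e => ¬ Odd (cnt e)), ds e (T.par e) := by
      rw [hE2, Multiset.map_map]
      rfl
    have h3 : ((T.edges.val.map
        fun v => s(v, T.par v)).map dd).sum = ∑ e ∈ T.edges, ds e (T.par e) := by
      rw [Multiset.map_map]
      rfl
    rw [h1, h2, h3, add_assoc]
    congr 1
    rw [Finset.sum_filter, ← Finset.sum_add_distrib]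
    apply Finset.sum_congr rfl
    intro e _
    have hc : cnt e = (R.filter (fun r => e ∈ T.pth r.1 r.2)).card := rfl
    rw [← hc]
    by_cases ho : Odd (cnt e)
    · simp [ho]
    · simp only [ho, not_false_eq_true, if_true, if_false]
      ring
  -- decompose the walk
  obtain ⟨l1, hl4⟩ : ∃ l1, l = T.root :: l1 := by
    cases l with
    | nil => simp at hl1
    | cons a l1 =>
      simp only [List.head?_cons, Option.some.injEq] at hl1
      exact ⟨l1, by rw [hl1]⟩
  -- the tour
  rcases List.eq_nil_or_concat l1 with h0 | ⟨l2, b, h0⟩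
  · -- a single point
    subst h0
    refine ⟨[T.root.val], List.nodup_singleton _, ?_, ?_⟩
    · ext x
      simp only [List.toFinset_cons, List.toFinset_nil, insert_empty_eq, Finset.mem_singleton]
      constructor
      · rintro rfl; exact T.root.2
      · intro hx
        have := hall ⟨x, hx⟩
        rw [hl4, List.mem_singleton] at this
        rw [← this]
    · rw [tourLen_cons, ← hlen, hl4]
      simp [wl, ds_self]
  · subst h0
    have hb : b = T.root := by
      rw [hl4] at hl2
      rw [List.concat_eq_append, ← List.cons_append, List.getLast?_append] at hl2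
      simpa using hl2
    subst hb
    set l3 := (l2.filter (fun x => x ≠ T.root)).dedup with hl3'
    have hsub : List.Sublist l3 l2 := (List.dedup_sublist _).trans List.filter_sublist
    have hnd : (T.root :: l3).Nodup := by
      rw [List.nodup_cons]
      refine ⟨?_, List.nodup_dedup _⟩
      rw [hl3', List.mem_dedup]
      simp
    have hmem : ∀ v, v ∈ T.root :: l3 := by
      intro v
      have := hall v
      rw [hl4, List.concat_eq_append] at this
      simp only [List.mem_cons, List.mem_append, List.not_mem_nil, or_false] at this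
      rw [List.mem_cons, hl3', List.mem_dedup, List.mem_filter]
      by_cases hv : v = T.root
      · exact Or.inl hv
      · right
        refine ⟨?_, by simpa using hv⟩
        tauto
    refine ⟨(T.root :: l3).map Subtype.val, hnd.map Subtype.val_injective, ?_, ?_⟩
    · ext x
      rw [List.mem_toFinset, List.mem_map]
      constructor
      · rintro ⟨v, _, rfl⟩; exact v.2
      · intro hx
        exact ⟨⟨x, hx⟩, hmem _, rfl⟩
    · rw [← hlen, hl4, List.map_cons, tourLen_cons, List.concat_eq_append, List.map_cons,
        List.map_append, List.map_singleton]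
      exact wl_sublist (hsub.map _) _ _

end Pool.Agent.H660R3.TS
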