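import Pool.Agent.H660R3.TS.Defs

/-!
# Statements of the tasks (table `h660_tasks`)

Each task `XXX` asks for a theorem `t_XXX : St_XXX` (namespace `Pool.Agent.H660R3.TS`), possibly with
other statements `(h : St_YYY)` as explicit hypotheses (as written in the task).
-/

set_option autoImplicit false

open scoped Classical

namespace Pool.Agent.H660R3.TS

/-! ### Minimum spanning trees -/

def St_MSTb : Prop :=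
  (∀ A : Finset Pt, ∀ e ∈ mst A, e.1 ∈ A ∧ e.2 ∈ A ∧ e.1 ≠ e.2 ∧ (e.2, e.1) ∉ mst A) ∧
  (∀ A P : Finset Pt, A ⊆ P → ∀ e ∈ mst P, e.1 ∈ A → e.2 ∈ A → e ∈ mst A) ∧
  (∀ A : Finset Pt, ∀ u ∈ A, ∀ v ∈ A,
    Relation.ReflTransGen (fun a b => TAdj A a b ∧ ds a b ≤ ds u v) u v)

def St_MSTc : Prop := ∀ A : Finset Pt, A.Nonempty → (mst A).card + 1 = A.card

def St_MSTo : Prop := ∀ (A : Finset Pt) (φ : ℝ → ℝ), Monotone φ → (∀ x, 0 ≤ φ x) →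
  ∀ H : Finset (Pt × Pt), (∀ e ∈ H, e.1 ∈ A ∧ e.2 ∈ A) →
    (∀ u ∈ A, ∀ v ∈ A, Relation.ReflTransGen (fun a b => (a, b) ∈ H ∨ (b, a) ∈ H) u v) →
    ∑ e ∈ mst A, φ (ds e.1 e.2) ≤ ∑ e ∈ H, φ (ds e.1 e.2)

def St_MSTr : Prop := ∀ P : Finset Pt, P.Nonempty → ∃ T : RTree {x // x ∈ P},
  (∀ v, v ≠ T.root → TAdj P v (T.par v)) ∧
  (∀ x y : {x // x ∈ P}, TAdj P x y → (x ≠ T.root ∧ y = T.par x) ∨ (y ≠ T.root ∧ x = T.par y)) ∧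
  (∀ f : Pt → Pt → ℝ, (∀ a b, f a b = f b a) →
    ∑ e ∈ mst P, f e.1 e.2 = ∑ v ∈ T.edges, f v (T.par v))

/-! ### Tours -/

def St_MT : Prop := ∀ l : List Pt, l.Nodup → l ≠ [] → mstW l.toFinset ≤ tourLen l

/-- `max 0 (min 1 (|x - c| - ρ))` -/
noncomputable def clp (i : Pt × ℕ) (x : ℂ) : ℝ := max 0 (min 1 (‖x - pt i.1‖ - i.2))

def St_PACK : Prop := ∀ F : Finset (Pt × ℕ),
  (∀ i ∈ F, ∀ j ∈ F, i ≠ j → ∀ p : ℂ,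
    ¬ (((i.2 : ℝ) < ‖p - pt i.1‖ ∧ ‖p - pt i.1‖ < i.2 + 1) ∧
       ((j.2 : ℝ) < ‖p - pt j.1‖ ∧ ‖p - pt j.1‖ < j.2 + 1))) →
  ∀ x y : ℂ, ∑ i ∈ F, |clp i x - clp i y| ≤ ‖x - y‖

def St_SOUND : Prop := ∀ (β N u L : ℕ) (l : List Pt), 2 ≤ β → l.Nodup →
  2 * Fstar β N u L l.toFinset ≤ tourLen l

def St_EUL : Prop := ∀ (P : Finset Pt) (T : RTree {x // x ∈ P}),
  ∀ R : Finset ({x // x ∈ P} × {x // x ∈ P}), ∃ l : List Pt, l.Nodup ∧ l.toFinset = P ∧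
    tourLen l ≤ ∑ r ∈ R, ds r.1 r.2 + ∑ e ∈ T.edges, ds e (T.par e) *
      (if Odd (R.filter (fun r => e ∈ T.pth r.1 r.2)).card then 1 else 2)

/-! ### Dichotomy -/

def St_LP : Prop := ∀ (E ι : Type) [Fintype E] [Fintype ι] (w : E → ℝ) (d : ι → ℝ)
    (c : ι → E → Prop) (η : ℝ),
  (∀ e, 0 ≤ w e) → (∀ i, 0 ≤ d i) → 0 < η → η ≤ 1 →
  (∃ y : E → ℝ, (∀ e, 0 ≤ y e ∧ y e ≤ w e) ∧
     (∀ i, ∑ e ∈ Finset.univ.filter (fun e => c i e), y e ≤ d i) ∧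
     (1 - η) * ∑ e, w e ≤ ∑ e, y e) ∨
  (∃ x : ι → ℝ, (∀ i, 0 ≤ x i) ∧
     ∑ i, x i * d i + ∑ e, w e * max 0 (1 - ∑ i ∈ Finset.univ.filter (fun i => c i e), x i)
       < (1 - η) * ∑ e, w e)

def St_PAR : Prop := ∀ (E ι : Type) [Fintype E] [Fintype ι] (w : E → ℝ) (d : ι → ℝ)
    (c : ι → E → Prop) (η : ℝ) (x : ι → ℝ),
  (∀ e, 0 ≤ w e) → (∀ i, 0 ≤ d i) → 0 < η → η ≤ 1 → (∀ i, 0 ≤ x i) →
  ∑ i, x i * d i + ∑ e, w e * max 0 (1 - ∑ i ∈ Finset.univ.filter (fun i => c i e), x i)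
       < (1 - η) * ∑ e, w e →
  ∃ R : Finset ι, ∑ i ∈ R, d i +
      ∑ e, w e * (if Odd (R.filter (fun i => c i e)).card then 1 else 2) ≤
    (2 - η ^ 2 / 4) * ∑ e, w e

def St_DICH : Prop := ∀ (P : Finset Pt) (T : RTree {x // x ∈ P}) (η : ℝ), 0 < η → η ≤ 1 →
  (∃ l : List Pt, l.Nodup ∧ l.toFinset = P ∧
    tourLen l ≤ (2 - η ^ 2 / 4) * ∑ v ∈ T.edges, ds v (T.par v)) ∨
  (∃ y : {x // x ∈ P} → ℝ, (∀ v, 0 ≤ y v) ∧ (∀ v, v ≠ T.root → y v ≤ ds v (T.par v)) ∧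
    (∀ u v, ∑ e ∈ T.pth u v, y e ≤ ds u v) ∧
    (1 - η) * ∑ v ∈ T.edges, ds v (T.par v) ≤ ∑ v ∈ T.edges, y v)

/-! ### Long path decomposition and strands -/

/-- long path decomposition of a weighted rooted tree: `ht v` = depth of the subtree of `v`,
`tip v` = end of the long path through `v` -/
structure LPD {V : Type} (T : RTree V) (w : V → ℝ) where
  ht : V → ℝ
  tip : V → V
  ht_nonneg : ∀ v, 0 ≤ ht v
  tip_tip : ∀ v, tip (tip v) = tip v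
  ht_tip : ∀ v, ht (tip v) = 0
  sub_tip : ∀ v, T.InSub (tip v) v
  par_le : ∀ v, v ≠ T.root → ht v + w v ≤ ht (T.par v)
  heavy : ∀ v, tip v ≠ v → ∃ c, c ≠ T.root ∧ T.par c = v ∧ tip c = tip v ∧ ht c + w c = ht v

def St_LPD : Prop := ∀ (V : Type) [Fintype V] (T : RTree V) (w : V → ℝ),
  (∀ v, v ≠ T.root → 0 < w v) → Nonempty (LPD T w)

section
variable {V : Type} [Fintype V] (T : RTree V) (loc : V → ℂ) (y : V → ℝ)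

/-- length of the tree edge `v` -/
noncomputable def wt (v : V) : ℝ := ‖loc v - loc (T.par v)‖

variable (Ld : LPD T (wt T loc))

/-- the `j`-th vertex of the long path with tip `k` -/
def zz (k : V) (j : ℕ) : V := T.par^[j] k

/-- number of edges of the long path with tip `k` -/
noncomputable def nn (k : V) : ℕ := (T.edges.filter (fun v => Ld.tip v = k)).card

/-- side children at the `j`-th vertex -/
noncomputable def sc (k : V) (j : ℕ) : Finset V :=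
  T.edges.filter (fun c => T.par c = zz T k j ∧ Ld.tip c ≠ k)

/-- attachment index -/
noncomputable def aa (k x : V) : ℕ := sInf {j | j = nn T loc Ld k ∨ T.InSub x (zz T k j)}

/-- depth of the side branches -/
noncomputable def hh (k : V) (j : ℕ) : ℝ :=
  (insert (0 : ℝ) ((sc T loc Ld k j).image (fun c => Ld.ht c + wt T loc c))).max' ⟨0, by simp⟩

/-- deficit of the side paths -/
noncomputable def bb (k : V) (j : ℕ) : ℝ :=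
  ∑ c ∈ sc T loc Ld k j, ∑ v ∈ T.edges.filter (fun v => Ld.tip v = Ld.tip c), (wt T loc v - y v)

end

/-- facts about the long path with tip `k` -/
def St_STR1 : Prop := ∀ (V : Type) [Fintype V] (T : RTree V) (loc : V → ℂ)
    (Ld : LPD T (wt T loc)), (∀ v, v ≠ T.root → 0 < wt T loc v) →
  ∀ k, Ld.tip k = k → k ≠ T.root →
    0 < nn T loc Ld k ∧
    (∀ j < nn T loc Ld k, zz T k j ≠ T.root ∧ Ld.tip (zz T k j) = k) ∧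
    (∀ j < nn T loc Ld k, Ld.ht (zz T k j) = ∑ i ∈ Finset.range j, wt T loc (zz T k i)) ∧
    (∀ v, v ≠ T.root → Ld.tip v = k → ∃ j < nn T loc Ld k, v = zz T k j) ∧
    (∀ j < nn T loc Ld k, zz T k (nn T loc Ld k) ≠ zz T k j) ∧
    (zz T k (nn T loc Ld k) = T.root ∨ Ld.tip (zz T k (nn T loc Ld k)) ≠ k)

/-- the strand of a tip -/
def St_STR2 : Prop := ∀ (V : Type) [Fintype V] (T : RTree V) (loc : V → ℂ) (y : V → ℝ) (Mn : ℝ)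
    (Ld : LPD T (wt T loc)), 0 < Mn → Tight T loc y Mn →
  ∀ k, Ld.tip k = k → k ≠ T.root → ∃ S : Strand loc Mn,
    S.n = nn T loc Ld k ∧ (∀ j, S.z j = zz T k j) ∧
    (∀ j, S.t j = ∑ i ∈ Finset.range j, wt T loc (zz T k i)) ∧
    (∀ j, S.ys j = y (zz T k j)) ∧ (∀ x, S.att x = aa T loc Ld k x) ∧
    (∀ j, S.H j = hh T loc Ld k j) ∧ (∀ j, S.bet j = bb T loc y Ld k j)

/-- the system of strands of a tight tree -/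
structure SSys {V : Type} [Fintype V] (T : RTree V) (loc : V → ℂ) (y : V → ℝ) (Mn : ℝ)
    (K : Finset V) (S : V → Strand loc Mn) : Prop where
  z0 : ∀ k ∈ K, (S k).z 0 = k
  tot : ∑ k ∈ K, (S k).t (S k).n = ∑ v ∈ T.edges, ‖loc v - loc (T.par v)‖
  mu : ∑ k ∈ K, (S k).muTot ≤ 5 * ∑ v ∈ T.edges, (‖loc v - loc (T.par v)‖ - y v)
  cut1 : ∀ k ∈ K, ∀ v, v ≠ T.root → (S k).att v ≤ (S k).att (T.par v)
  cut2 : ∀ k ∈ K, ∀ j < (S k).n, ∀ v, v ≠ T.root → (S k).att v ≤ j → j < (S k).att (T.par v) →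
    v = (S k).z j ∧ T.par v = (S k).z (j + 1)
  pair1 : ∀ k ∈ K, ∀ l ∈ K, k ≠ l → (S l).att k = (S l).n ∨ (S k).att l = (S k).n
  pair2 : ∀ k ∈ K, ∀ l ∈ K, k ≠ l → (S l).att k = (S l).n →
    ∑ j ∈ Finset.range ((S k).att l), (S k).ys j + ∑ j ∈ Finset.range (S l).n, (S l).ys j ≤
      ‖loc k - loc l‖
  pair3 : ∀ k ∈ K, ∀ l ∈ K, k ≠ l → (S k).att l < (S k).n →
    (S l).t (S l).n ≤ (S k).H ((S k).att l)

def St_STR : Prop := ∀ (V : Type) [Fintype V] (T : RTree V) (loc : V → ℂ) (y : V → ℝ) (Mn : ℝ),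
  T.edges.Nonempty → 0 < Mn → Tight T loc y Mn →
  ∃ (K : Finset V) (S : V → Strand loc Mn), SSys T loc y Mn K S

/-! ### Geometry of one strand -/

def St_TRI : Prop := ∀ (a b c : ℂ) (p q r m : ℝ), ‖a‖ ≤ p → ‖b‖ ≤ q → ‖c‖ ≤ r → 0 ≤ m →
  m ≤ p → m ≤ q → m ≤ r →
  ‖a - b‖ ≤ p + q - m / 4 ∨ ‖a - c‖ ≤ p + r - m / 4 ∨ ‖b - c‖ ≤ q + r - m / 4

def St_HB : Prop := ∀ (V : Type) (loc : V → ℂ) (Mn : ℝ) (S : Strand loc Mn) (lam G τ : ℝ),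
  0 < lam → lam ≤ 1 / 10 ^ 4 → 0 < G → G ≤ Mn → S.Good lam G τ →
  ∀ j < S.n, ¬ S.Ovf j → 0 < S.H j → 100 * S.H j < |τ - S.t j|

def St_OV : Prop := ∀ (V : Type) (loc : V → ℂ) (Mn : ℝ) (S : Strand loc Mn), 0 < Mn →
  S.t S.n - S.tov ≤ 4 * S.muTot

/-- location lemma -/
def St_LOC : Prop := ∀ (V : Type) (loc : V → ℂ) (Mn : ℝ) (S : Strand loc Mn)
    (lam G del τ : ℝ) (i : ℕ) (c : ℂ) (σ : ℝ),
  0 < lam → lam ≤ 1 / 10 ^ 4 → 1 ≤ G → 1000 * G ≤ Mn → S.Fine lam G del i τ →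
  ‖loc (S.z 0) - c‖ ≤ 2 * σ → G ≤ σ → 10 ^ 3 * σ ≤ lam * ‖S.X i τ - c‖ →
  ∀ x, (S.att x ≤ i ∧ ‖loc x - c‖ ≤ ‖S.X i τ - c‖ - (9 / 10) * (τ - S.t (S.att x)) + G ∧
          S.wd x ≤ (τ - S.t (S.att x)) / 100) ∨
       (i < S.att x ∧ S.att x < S.jo ∧
          ‖S.X i τ - c‖ + (9 / 10) * (S.t (S.att x) - τ) - G ≤ ‖loc x - c‖ ∧
          S.wd x ≤ (S.t (S.att x) - τ) / 100) ∨
       (S.jo ≤ S.att x ∧ (1 + lam / 2) * ‖S.X i τ - c‖ ≤ ‖loc x - c‖)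

/-- radial progress between two fine locations -/
def St_PROG : Prop := ∀ (V : Type) (loc : V → ℂ) (Mn : ℝ) (S : Strand loc Mn)
    (lam G del τ τ' : ℝ) (i i' : ℕ) (c : ℂ) (σ : ℝ),
  0 < lam → lam ≤ 1 / 10 ^ 4 → 1 ≤ G → 1000 * G ≤ Mn →
  S.Fine lam G del i τ → S.Fine lam G del i' τ' → τ + G ≤ τ' →
  ‖loc (S.z 0) - c‖ ≤ 2 * σ → G ≤ σ → 10 ^ 3 * σ ≤ lam * ‖S.X i τ - c‖ →
  (1 - 3 * lam) * (τ' - τ) ≤ ‖S.X i' τ' - c‖ - ‖S.X i τ - c‖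

/-- separation of the circles of two different strands -/
def St_SEP : Prop := ∀ (V : Type) [Fintype V] (T : RTree V) (loc : V → ℂ) (y : V → ℝ) (Mn : ℝ)
    (K : Finset V) (S : V → Strand loc Mn) (lam G del τ τ' σ : ℝ) (i i' : ℕ) (c c' : ℂ) (k l : V),
  SSys T loc y Mn K S → 0 < lam → lam ≤ 1 / 10 ^ 4 → 1 ≤ G → 1000 * G ≤ Mn →
  k ∈ K → l ∈ K → k ≠ l → (S k).Fine lam G del i τ → (S l).Fine lam G del i' τ' →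
  ‖loc k - c‖ ≤ 2 * σ → ‖loc l - c'‖ ≤ 2 * σ → G ≤ σ →
  10 ^ 3 * σ ≤ lam * ‖(S k).X i τ - c‖ → 10 ^ 3 * σ ≤ lam * ‖(S l).X i' τ' - c'‖ →
  ‖(S k).X i τ - c‖ + ‖(S l).X i' τ' - c'‖ + 30 * σ ≤ ‖c - c'‖ ∨
  ‖c - c'‖ + ‖(S l).X i' τ' - c'‖ + 30 * σ ≤ ‖(S k).X i τ - c‖ ∨
  ‖c - c'‖ + ‖(S k).X i τ - c‖ + 30 * σ ≤ ‖(S l).X i' τ' - c'‖

/-- no candidate ball of a smaller level hits the circle of a fine location -/
def St_C2 : Prop := ∀ (V : Type) [Fintype V] (pos : V → Pt) (loc : V → ℂ) (sft : ℂ) (Mn : ℝ)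
    (S : Strand loc Mn) (lam G : ℝ) (β D1 D σ : ℕ) (i : ℕ) (τ : ℝ) (c : Pt) (σc : ℝ) (ρ : ℕ),
  (∀ v, pt (pos v) = loc v + sft) → 0 < lam → lam ≤ 1 / 10 ^ 4 → 1 ≤ G → 1000 * G ≤ Mn →
  10 ^ 8 ≤ β → 0 < σ → σ ∣ D → σ ≤ D1 → σ * β ^ 11 ≤ D → G ≤ σ →
  S.Fine lam G (1 / (β : ℝ) ^ 6) i τ →
  ‖loc (S.z 0) + sft - pt c‖ ≤ 2 * σc → G ≤ σc →
  10 ^ 3 * σc ≤ lam * ‖S.X i τ + sft - pt c‖ → 10 ^ 3 * (D : ℝ) ≤ lam * ‖S.X i τ + sft - pt c‖ →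
  |(ρ : ℝ) - ‖S.X i τ + sft - pt c‖| ≤ G →
  ∀ Z c' a, Cand β D1 D σ (Qc D σ (Finset.univ.image pos) Z) Z c' a →
    ¬ Hits c ρ c' (((a : ℝ) + 1) * σ)

/-- the bottleneck rule holds for the circle of a fine location -/
def St_C1 : Prop := ∀ (V : Type) [Fintype V] (pos : V → Pt) (loc : V → ℂ) (sft : ℂ) (Mn : ℝ)
    (S : Strand loc Mn) (lam G : ℝ) (β D σ : ℕ) (i J : ℕ) (τ : ℝ) (c Z : Pt) (a ρ : ℕ)
    (EA : V → V → Prop),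
  (∀ v, pt (pos v) = loc v + sft) → 0 < lam → lam ≤ 1 / 10 ^ 4 → 1 ≤ G → 1000 * G ≤ Mn →
  10 ^ 8 ≤ β → 0 < σ → σ ∣ D → σ * β ^ 11 ≤ D → G ≤ σ →
  S.Fine lam G (1 / (β : ℝ) ^ 6) i τ →
  c = rd σ (pos (S.z 0)) → Z = bx D (pos (S.z 0)) →
  10 ^ 3 * (σ : ℝ) ≤ lam * ‖S.X i τ + sft - pt c‖ →
  |(ρ : ℝ) - ‖S.X i τ + sft - pt c‖| ≤ G → a * σ ≤ ρ → ρ < (a + 1) * σ →
  (∀ x y, EA x y → EA y x) →
  (∀ x y, bx D (pos x) = Z → bx D (pos y) = Z →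
    Relation.ReflTransGen (fun a b => EA a b ∧ bx D (pos a) = Z ∧ bx D (pos b) = Z ∧
      ‖loc a - loc b‖ ≤ ‖loc x - loc y‖) x y) →
  J < S.n → S.t J ≤ τ + 7 * σ → τ + 7 * σ < S.t (J + 1) →
  (∀ x y, EA x y → bx D (pos x) = Z → bx D (pos y) = Z → ‖loc x - loc y‖ * (β : ℝ) ^ 3 ≤ 2 * D →
    S.att x ≤ J → J < S.att y → x = S.z J ∧ y = S.z (J + 1)) →
  RuleE β D σ (Qc D σ (Finset.univ.image pos) Z) c a

/-- loss by extra edges -/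
def St_XL : Prop := ∀ (𝒢 : Finset (Pt × ℕ)) (σ : ℕ) (g₁ g₂ : ℂ), 1 ≤ σ →
  (∀ x ∈ 𝒢, ∀ y ∈ 𝒢, x.1 ≠ y.1 → (x.2 : ℝ) + y.2 + 20 * σ ≤ ds x.1 y.1 ∨
    ds x.1 y.1 + y.2 + 20 * σ ≤ x.2 ∨ ds x.1 y.1 + x.2 + 20 * σ ≤ y.2) →
  (((𝒢.filter (fun x => ‖g₁ - pt x.1‖ ≤ x.2 + 9 * σ ∧ (x.2 : ℝ) + 3 * σ ≤ ‖g₂ - pt x.1‖)).card : ℝ))
    ≤ ‖g₁ - g₂‖ + 8 * σ

/-! ### Counting bad locations -/

def St_COV : Prop := ∀ (n : ℕ) (ν : ℕ → ℝ) (θ : ℝ), (∀ i, 0 ≤ ν i) → 0 < θ →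
  θ * ((Finset.range n).filter (fun m => ∃ a b, a ≤ m ∧ m ≤ b ∧ b < n ∧
      θ * ((b : ℝ) - a + 1) < ∑ i ∈ Finset.Icc a b, ν i)).card ≤ 2 * ∑ i ∈ Finset.range n, ν i

def St_BAD : Prop := ∀ (V : Type) (loc : V → ℂ) (Mn : ℝ) (S : Strand loc Mn) (lam del : ℝ) (G : ℕ),
  0 < lam → lam ≤ 1 / 10 ^ 4 → 1 ≤ G → 1000 * (G : ℝ) ≤ Mn → 0 < del → del ≤ 1 / 100 →
  (G : ℝ) * ((Finset.range ⌈S.t S.n / G⌉₊).filter (fun n' =>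
      ¬ ∃ i, S.Fine lam G del i ((G : ℝ) * n'))).card ≤
    16 / lam * S.muTot + 4 * S.muTot + 2 * lam * S.t S.n + 8 * del * S.t S.n + 10 * G * S.n

/-! ### Random shifts -/

def St_CUT : Prop := ∀ (M D SM : ℕ) (x y : Pt), 0 < D → D ∣ SM →
  (((Finset.range SM ×ˢ Finset.range SM).filter
      (fun s => bx D (sh M s x) ≠ bx D (sh M s y))).card : ℝ) * D ≤ 2 * M * ds x y * (SM : ℝ) ^ 2

def St_INN : Prop := ∀ (β M D σ SM : ℕ) (x : Pt), 10 ≤ β → 0 < σ → σ ∣ D → σ * β ≤ D → D ∣ SM →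
  (((Finset.range SM ×ˢ Finset.range SM).filter
      (fun s => ¬ Inner β D (bx D (sh M s x)) (rd σ (sh M s x)))).card : ℝ) * β ≤
    10 * (SM : ℝ) ^ 2

def St_BLK : Prop := ∀ (β N L : ℕ) (f : ℝ), 4 ≤ β → 20 ≤ N → 6 ≤ L →
  (β : ℝ) ^ (4 * N + 2) ≤ f → f ≤ (β : ℝ) ^ (N * (L - 1)) →
  ((Finset.range N).filter (fun u => ¬ ∃ m ∈ Finset.Icc 3 L,
      4 * β * (DD β N u (m - 1) : ℝ) ≤ f ∧ 4 * (β : ℝ) ^ 10 * f ≤ DD β N u m)).card ≤ 16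

/-! ### Boxes and extra edges -/

/-- number of edges of the minimum spanning tree of `P` cut by the grid of side `D` -/
noncomputable def cutN (M : ℕ) (s : Pt) (D : ℕ) (P : Finset Pt) : ℕ :=
  ((mst P).filter (fun e => bx D (sh M s e.1) ≠ bx D (sh M s e.2))).card

/-- the points of `P` in the box `Z` -/
noncomputable def inBox (M : ℕ) (s : Pt) (D : ℕ) (P : Finset Pt) (Z : Pt) : Finset Pt :=
  P.filter (fun x => bx D (sh M s x) = Z)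

def St_EX : Prop := ∀ (M : ℕ) (s : Pt) (D : ℕ) (P : Finset Pt), P.Nonempty →
  ∑ Z ∈ P.image (fun x => bx D (sh M s x)), (mst (inBox M s D P Z) \ mst P).card ≤ cutN M s D P ∧
  (P.image (fun x => bx D (sh M s x))).card ≤ cutN M s D P + 1

end Pool.Agent.H660R3.TS
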