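import Mathlib
import Pool.Agent.H660R3.TS.Defs
import Pool.Agent.H660R3.TS.Stubs

/-!
# The number of extra edges is at most the number of cut edges
-/

set_option autoImplicit false

open scoped Classical

namespace Pool.Agent.H660R3.TS

open Finset in
theorem t_EX (h1 : St_MSTb) (h2 : St_MSTc) : St_EX := by
  obtain ⟨b1, b2, _⟩ := h1
  intro M s D P hP
  set κ : Pt → Pt := fun x => bx D (sh M s x) with hκ
  set 𝒵 : Finset Pt := P.image κ with h𝒵
  have hbox : ∀ Z ∈ 𝒵, (mst (inBox M s D P Z) \ mst P).card +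
      ((mst P).filter (fun e => κ e.1 = Z ∧ κ e.2 = Z)).card + 1 =
      (P.filter (fun x => κ x = Z)).card := by
    intro Z hZ
    have hA : inBox M s D P Z = P.filter (fun x => κ x = Z) := rfl
    have hne : (inBox M s D P Z).Nonempty := by
      obtain ⟨x, hx, hxZ⟩ := Finset.mem_image.1 hZ
      exact ⟨x, by rw [hA, Finset.mem_filter]; exact ⟨hx, hxZ⟩⟩
    have hc := h2 _ hne
    have hint : mst (inBox M s D P Z) ∩ mst P =
        (mst P).filter (fun e => κ e.1 = Z ∧ κ e.2 = Z) := by
      ext e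
      rw [Finset.mem_inter, Finset.mem_filter]
      constructor
      · rintro ⟨he, he'⟩
        obtain ⟨e1, e2, _⟩ := b1 _ e he
        rw [hA, Finset.mem_filter] at e1 e2
        exact ⟨he', e1.2, e2.2⟩
      · rintro ⟨he, e1, e2⟩
        obtain ⟨f1, f2, _⟩ := b1 _ e he
        refine ⟨b2 _ P (Finset.filter_subset _ _) e he ?_ ?_, he⟩
        · exact Finset.mem_filter.2 ⟨f1, e1⟩
        · exact Finset.mem_filter.2 ⟨f2, e2⟩
    have hsd := Finset.card_sdiff_add_card_inter (mst (inBox M s D P Z)) (mst P)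
    rw [hint] at hsd
    rw [hsd, hc, hA]
  have hsum := Finset.sum_congr (rfl : 𝒵 = 𝒵) hbox
  rw [Finset.sum_add_distrib, Finset.sum_add_distrib, Finset.sum_const, smul_eq_mul, mul_one]
    at hsum
  have hP' : ∑ Z ∈ 𝒵, (P.filter (fun x => κ x = Z)).card = P.card :=
    (Finset.card_eq_sum_card_fiberwise (fun x hx => Finset.mem_image_of_mem _ hx)).symm
  have hin : ∑ Z ∈ 𝒵, ((mst P).filter (fun e => κ e.1 = Z ∧ κ e.2 = Z)).card =
      ((mst P).filter (fun e => κ e.1 = κ e.2)).card := by
    rw [Finset.card_eq_sum_card_fiberwise (f := fun e => κ e.1) (t := 𝒵)]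
    · refine Finset.sum_congr rfl fun Z _ => ?_
      rw [Finset.filter_filter]
      congr 1
      ext e
      simp only [Finset.mem_filter]
      constructor
      · rintro ⟨he, e1, e2⟩
        exact ⟨he, by rw [e1, e2], e1⟩
      · rintro ⟨he, e1, e2⟩
        exact ⟨he, e2, by rw [← e1, e2]⟩
    · intro e he
      have he' : e ∈ (mst P).filter (fun e => κ e.1 = κ e.2) := he
      exact Finset.mem_image_of_mem _ (b1 _ e (Finset.mem_filter.1 he').1).1
  have hcut : ((mst P).filter (fun e => κ e.1 = κ e.2)).card + cutN M s D P = (mst P).card := by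
    have := Finset.card_filter_add_card_filter_not (s := mst P) (fun e => κ e.1 = κ e.2)
    exact this
  have hcP := h2 P hP
  have hZ1 : 1 ≤ 𝒵.card := Finset.card_pos.2 (hP.image _)
  rw [hP', hin] at hsum
  constructor
  · omega
  · omega

end Pool.Agent.H660R3.TS
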