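import Pool.Agent.H660R3.TS.Stubs2
import Pool.Agent.H660R3.TS.T_BAD
import Pool.Agent.H660R3.TS.T_CND

/-!
# Most scales and shifts are good (task GUS of `h660_tasks`, helper51)
-/

set_option autoImplicit false

open scoped Classical

namespace Pool.Agent.H660R3.TS

namespace GUS

lemma card_prod {α γ : Type} (A : Finset α) (B : Finset γ) (p : α × γ → Prop) :
    ((A ×ˢ B).filter p).card = ∑ a ∈ A, (B.filter (fun b => p (a, b))).card := by
  simp only [Finset.card_filter]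
  rw [Finset.sum_product]

lemma ds_nonneg (p q : Pt) : 0 ≤ ds p q := Real.sqrt_nonneg _

lemma ds_comm (p q : Pt) : ds p q = ds q p := by
  rw [CND.ds_eq, CND.ds_eq, norm_sub_rev]

lemma ds_ge_one (p q : Pt) (h : p ≠ q) : 1 ≤ ds p q := by
  have aux : ∀ a b : ℕ, a ≠ b → (1 : ℝ) ≤ ((a : ℝ) - b) ^ 2 := by
    intro a b hab
    have h1 : (1 : ℤ) ≤ ((a : ℤ) - b) ^ 2 := by
      have h2 : (a : ℤ) - b ≠ 0 := by
        intro h3
        apply hab
        have : (a : ℤ) = b := by linarith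
        exact_mod_cast this
      have := sq_nonneg ((a : ℤ) - b)
      have h4 : ((a : ℤ) - b) ^ 2 ≠ 0 := pow_ne_zero _ h2
      omega
    exact_mod_cast h1
  unfold ds
  rw [Real.one_le_sqrt]
  by_cases h1 : p.1 = q.1
  · have h2 : p.2 ≠ q.2 := fun h2 => h (Prod.ext h1 h2)
    have := aux _ _ h2
    nlinarith [sq_nonneg ((p.1 : ℝ) - q.1)]
  · have := aux _ _ h1
    nlinarith [sq_nonneg ((p.2 : ℝ) - q.2)]

lemma mstW_nonneg (P : Finset Pt) : 0 ≤ mstW P :=
  Finset.sum_nonneg fun e _ => ds_nonneg _ _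

lemma maxFam_nonneg (σ : ℕ) (C : Finset (Pt × ℕ)) (g : Pt × ℕ → ℝ) : 0 ≤ maxFam σ C g := by
  unfold maxFam
  have hmem : (∅ : Finset (Pt × ℕ)) ∈ (C.powerset.filter (fun F : Finset (Pt × ℕ) =>
      ∀ x ∈ F, ∀ y ∈ F, x ≠ y → Adisj σ x y)) := by simp
  have := Finset.le_sup' (fun F : Finset (Pt × ℕ) => ∑ x ∈ F, g x) hmem
  simpa using this

lemma Fstar_nonneg (β N u L : ℕ) (X : Finset Pt) : 0 ≤ Fstar β N u L X :=
  Finset.sum_nonneg fun m _ => Finset.sum_nonneg fun Z _ => maxFam_nonneg _ _ _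

/-- average number of cut edges -/
lemma cut_sum (h3 : St_CUT) (P : Finset Pt) (M D SM : ℕ) (hD : 0 < D) (hDS : D ∣ SM) :
    ∑ s ∈ Finset.range SM ×ˢ Finset.range SM, (cutN M s D P : ℝ) * D ≤
      2 * (M * mstW P) * (SM : ℝ) ^ 2 := by
  have e1 : ∀ s : Pt, (cutN M s D P : ℝ) * D = ∑ e ∈ mst P,
      (if bx D (sh M s e.1) ≠ bx D (sh M s e.2) then (D : ℝ) else 0) := by
    intro s
    unfold cutN
    rw [← Finset.sum_filter, Finset.sum_const, nsmul_eq_mul]
  rw [Finset.sum_congr rfl (fun s _ => e1 s), Finset.sum_comm]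
  have e2 : ∀ e ∈ mst P, ∑ s ∈ Finset.range SM ×ˢ Finset.range SM,
      (if bx D (sh M s e.1) ≠ bx D (sh M s e.2) then (D : ℝ) else 0) ≤
      2 * M * ds e.1 e.2 * (SM : ℝ) ^ 2 := by
    intro e _
    have := h3 M D SM e.1 e.2 hD hDS
    rw [← Finset.sum_filter, Finset.sum_const, nsmul_eq_mul]
    exact this
  refine (Finset.sum_le_sum e2).trans (le_of_eq ?_)
  unfold mstW
  rw [Finset.mul_sum, Finset.mul_sum, Finset.sum_mul]
  refine Finset.sum_congr rfl fun e _ => ?_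
  ring

lemma cut_markov (h3 : St_CUT) (P : Finset Pt) (M D SM L : ℕ) (hD : 0 < D) (hDS : D ∣ SM)
    (hL : 1 ≤ L) :
    10 ^ 5 * (L : ℝ) * (((Finset.range SM ×ˢ Finset.range SM).filter
      (fun s => ¬ ((cutN M s D P : ℝ) * D ≤ 10 ^ 5 * L * (M * mstW P)))).card : ℝ) ≤
      2 * (SM : ℝ) ^ 2 := by
  have hs := cut_sum h3 P M D SM hD hDS
  have hW0 : 0 ≤ (M : ℝ) * mstW P := mul_nonneg (Nat.cast_nonneg _) (mstW_nonneg P)
  have hLr : (1 : ℝ) ≤ L := by exact_mod_cast hL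
  have hnn : ∀ s : Pt, 0 ≤ (cutN M s D P : ℝ) * D := fun s => by positivity
  set F := (Finset.range SM ×ˢ Finset.range SM).filter
      (fun s => ¬ ((cutN M s D P : ℝ) * D ≤ 10 ^ 5 * L * (M * mstW P))) with hF
  have h1 : (F.card : ℝ) * (10 ^ 5 * L * (M * mstW P)) ≤ ∑ s ∈ F, (cutN M s D P : ℝ) * D := by
    have : ∑ s ∈ F, (10 ^ 5 * (L : ℝ) * (M * mstW P)) ≤ ∑ s ∈ F, (cutN M s D P : ℝ) * D :=
      Finset.sum_le_sum fun s hs => (not_le.1 (Finset.mem_filter.1 hs).2).le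
    rwa [Finset.sum_const, nsmul_eq_mul] at this
  have h2 : ∑ s ∈ F, (cutN M s D P : ℝ) * D ≤
      ∑ s ∈ Finset.range SM ×ˢ Finset.range SM, (cutN M s D P : ℝ) * D :=
    Finset.sum_le_sum_of_subset_of_nonneg (Finset.filter_subset _ _) fun s _ _ => hnn s
  rcases hW0.lt_or_eq with hW | hW
  · have h4 := h1.trans (h2.trans hs)
    have h5 : (10 ^ 5 * (L : ℝ) * F.card) * (M * mstW P) ≤ 2 * (SM : ℝ) ^ 2 * (M * mstW P) := by
      linarith
    exact le_of_mul_le_mul_right h5 hW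
  · rw [← hW] at hs
    have hF0 : F = ∅ := by
      rw [hF, Finset.filter_eq_empty_iff]
      intro s hsm
      rw [not_not, ← hW]
      have h6 : (cutN M s D P : ℝ) * D ≤
          ∑ s ∈ Finset.range SM ×ˢ Finset.range SM, (cutN M s D P : ℝ) * D :=
        Finset.single_le_sum (fun s _ => hnn s) hsm
      linarith
    rw [hF0]
    simp only [Finset.card_empty, Nat.cast_zero, mul_zero]
    positivity

/-- few pairs with a level cutting too many edges -/
lemma partA (h3 : St_CUT) (P : Finset Pt) (β N L M SM : ℕ) (hβ : 0 < β) (hL : 1 ≤ L)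
    (hSM : SM = β ^ (N * (L + 1))) :
    10 ^ 5 * (((Finset.range N ×ˢ (Finset.range SM ×ˢ Finset.range SM)).filter
      (fun p => ¬ ∀ m ∈ Finset.Icc 3 L, (cutN M p.2 (DD β N p.1 m) P : ℝ) * DD β N p.1 m ≤
        10 ^ 5 * L * (M * mstW P))).card : ℝ) ≤ 2 * N * (SM : ℝ) ^ 2 := by
  have hcp : ((Finset.range N ×ˢ (Finset.range SM ×ˢ Finset.range SM)).filter
      (fun p => ¬ ∀ m ∈ Finset.Icc 3 L, (cutN M p.2 (DD β N p.1 m) P : ℝ) * DD β N p.1 m ≤
        10 ^ 5 * L * (M * mstW P))).card = ∑ u ∈ Finset.range N,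
      ((Finset.range SM ×ˢ Finset.range SM).filter
      (fun s => ¬ ∀ m ∈ Finset.Icc 3 L, (cutN M s (DD β N u m) P : ℝ) * DD β N u m ≤
        10 ^ 5 * L * (M * mstW P))).card := by
    convert card_prod (Finset.range N) (Finset.range SM ×ˢ Finset.range SM)
      (fun p : ℕ × Pt => ¬ ∀ m ∈ Finset.Icc 3 L, (cutN M p.2 (DD β N p.1 m) P : ℝ) *
        DD β N p.1 m ≤ 10 ^ 5 * L * (M * mstW P))
  rw [hcp, Nat.cast_sum, Finset.mul_sum]
  have hLr : (1 : ℝ) ≤ L := by exact_mod_cast hL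
  have key : ∀ u ∈ Finset.range N, 10 ^ 5 * (((Finset.range SM ×ˢ Finset.range SM).filter
      (fun s => ¬ ∀ m ∈ Finset.Icc 3 L, (cutN M s (DD β N u m) P : ℝ) * DD β N u m ≤
        10 ^ 5 * L * (M * mstW P))).card : ℝ) ≤ 2 * (SM : ℝ) ^ 2 := by
    intro u hu
    have hu' := Finset.mem_range.1 hu
    have hsub : (Finset.range SM ×ˢ Finset.range SM).filter
      (fun s => ¬ ∀ m ∈ Finset.Icc 3 L, (cutN M s (DD β N u m) P : ℝ) * DD β N u m ≤
        10 ^ 5 * L * (M * mstW P)) ⊆ (Finset.Icc 3 L).biUnion (fun m =>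
        (Finset.range SM ×ˢ Finset.range SM).filter
      (fun s => ¬ ((cutN M s (DD β N u m) P : ℝ) * DD β N u m ≤ 10 ^ 5 * L * (M * mstW P)))) := by
      intro s hs
      rw [Finset.mem_filter] at hs
      obtain ⟨hs1, hs2⟩ := hs
      push Not at hs2
      obtain ⟨m, hm, hm2⟩ := hs2
      exact Finset.mem_biUnion.2 ⟨m, hm, Finset.mem_filter.2 ⟨hs1, not_le.2 hm2⟩⟩
    have hc := (Finset.card_le_card hsub).trans Finset.card_biUnion_le
    have hc' : (((Finset.range SM ×ˢ Finset.range SM).filter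
      (fun s => ¬ ∀ m ∈ Finset.Icc 3 L, (cutN M s (DD β N u m) P : ℝ) * DD β N u m ≤
        10 ^ 5 * L * (M * mstW P))).card : ℝ) ≤ ∑ m ∈ Finset.Icc 3 L,
        (((Finset.range SM ×ˢ Finset.range SM).filter
      (fun s => ¬ ((cutN M s (DD β N u m) P : ℝ) * DD β N u m ≤
        10 ^ 5 * L * (M * mstW P)))).card : ℝ) := by exact_mod_cast hc
    have hm : ∀ m ∈ Finset.Icc 3 L, 10 ^ 5 * (L : ℝ) * (((Finset.range SM ×ˢ
      Finset.range SM).filter
      (fun s => ¬ ((cutN M s (DD β N u m) P : ℝ) * DD β N u m ≤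
        10 ^ 5 * L * (M * mstW P)))).card : ℝ) ≤ 2 * (SM : ℝ) ^ 2 := by
      intro m hm
      have hm' := Finset.mem_Icc.1 hm
      refine cut_markov h3 P M _ SM L (CND.DD_pos _ _ _ _ hβ) ?_ hL
      rw [hSM]
      refine pow_dvd_pow β ?_
      calc N * m + u ≤ N * L + N := by
            have := Nat.mul_le_mul_left N hm'.2
            omega
        _ = N * (L + 1) := by ring
    have hsum := Finset.sum_le_sum hm
    rw [← Finset.mul_sum, Finset.sum_const, Nat.card_Icc, nsmul_eq_mul] at hsum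
    have hcard : ((L + 1 - 3 : ℕ) : ℝ) ≤ L := by
      have : L + 1 - 3 ≤ L := by omega
      exact_mod_cast this
    have hSM0 : (0 : ℝ) ≤ 2 * (SM : ℝ) ^ 2 := by positivity
    have h7 : 10 ^ 5 * (L : ℝ) * (((Finset.range SM ×ˢ Finset.range SM).filter
      (fun s => ¬ ∀ m ∈ Finset.Icc 3 L, (cutN M s (DD β N u m) P : ℝ) * DD β N u m ≤
        10 ^ 5 * L * (M * mstW P))).card : ℝ) ≤ L * (2 * (SM : ℝ) ^ 2) :=
      ((mul_le_mul_of_nonneg_left hc' (by positivity)).trans hsum).trans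
        (mul_le_mul_of_nonneg_right hcard hSM0)
    have h8 : (L : ℝ) * (10 ^ 5 * (((Finset.range SM ×ˢ Finset.range SM).filter
      (fun s => ¬ ∀ m ∈ Finset.Icc 3 L, (cutN M s (DD β N u m) P : ℝ) * DD β N u m ≤
        10 ^ 5 * L * (M * mstW P))).card : ℝ)) ≤ L * (2 * (SM : ℝ) ^ 2) := by linarith
    exact le_of_mul_le_mul_left h8 (by linarith)
  refine (Finset.sum_le_sum key).trans (le_of_eq ?_)
  rw [Finset.sum_const, Finset.card_range, nsmul_eq_mul]
  ring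

/-- the strand system -/
lemma tdata (h4 : St_DICH) (h5 : St_STR) (h6 : St_MSTr) (P : Finset Pt) (M : ℕ) (hM : 0 < M)
    (hne : P.Nonempty) (hW : 0 < mstW P)
    (htour : ∀ l : List Pt, l.Nodup → l.toFinset = P →
      (2 - 1 / (4 * 10 ^ 28)) * mstW P < tourLen l) :
    ∃ (T : RTree {x // x ∈ P}) (y : {x // x ∈ P} → ℝ) (K : Finset {x // x ∈ P})
      (S : {x // x ∈ P} → Strand (locM M P) (M : ℝ)), TData P T M y K S ∧
      ∑ v ∈ T.edges, (‖locM M P v - locM M P (T.par v)‖ - y v) ≤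
        1 / 10 ^ 14 * (M * mstW P) := by
  obtain ⟨T, t1, t2, t3⟩ := h6 P hne
  have hsum : mstW P = ∑ v ∈ T.edges, ds v (T.par v) := t3 ds ds_comm
  have hMr : (0 : ℝ) < M := by exact_mod_cast hM
  rcases h4 P T (1 / 10 ^ 14) (by positivity) (by norm_num) with ⟨l, l1, l2, l3⟩ | ⟨y0, y1, y2, y3, y4⟩
  · exfalso
    have := htour l l1 l2
    rw [← hsum] at l3
    have e : (2 : ℝ) - (1 / 10 ^ 14) ^ 2 / 4 = 2 - 1 / (4 * 10 ^ 28) := by norm_num
    rw [e] at l3
    linarith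
  · have hne' : T.edges.Nonempty := by
      rw [Finset.nonempty_iff_ne_empty]
      intro h0
      rw [hsum, h0] at hW
      simp at hW
    have htight : Tight T (locM M P) (fun v => M * y0 v) (M : ℝ) := by
      refine ⟨fun v => mul_nonneg hMr.le (y1 v), fun v hv => ?_, fun a b => ?_, fun v hv => ?_⟩
      · rw [CND.locM_dist]
        exact mul_le_mul_of_nonneg_left (y2 v hv) hMr.le
      · rw [CND.locM_dist, ← Finset.mul_sum]
        exact mul_le_mul_of_nonneg_left (y3 a b) hMr.le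
      · rw [CND.locM_dist]
        have hvp : (v : Pt) ≠ (T.par v : Pt) := by
          intro h
          have h' : v = T.par v := Subtype.ext h
          have := T.rk_lt v hv
          rw [← h'] at this
          exact lt_irrefl _ this
        have := ds_ge_one _ _ hvp
        nlinarith
    obtain ⟨K, S, hS⟩ := h5 {x // x ∈ P} T (locM M P) (fun v => M * y0 v) (M : ℝ) hne' hMr htight
    have hw : (M : ℝ) * mstW P = ∑ v ∈ T.edges, ‖locM M P v - locM M P (T.par v)‖ := by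
      rw [hsum, Finset.mul_sum]
      exact Finset.sum_congr rfl fun v _ => (CND.locM_dist M P v (T.par v)).symm
    refine ⟨T, fun v => M * y0 v, K, S, ⟨t1, t2, htight, hS, hw⟩, ?_⟩
    rw [Finset.sum_sub_distrib, ← hw, ← Finset.mul_sum, hsum]
    have : (M : ℝ) * ((1 - 1 / 10 ^ 14) * ∑ v ∈ T.edges, ds v (T.par v)) ≤
        M * ∑ v ∈ T.edges, y0 v := mul_le_mul_of_nonneg_left y4 hMr.le
    linarith

/-- the good locations of all levels together -/
lemma ok_le (P : Finset Pt) (T : RTree {x // x ∈ P}) (y : {x // x ∈ P} → ℝ)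
    (β N L M : ℕ) (K : Finset {x // x ∈ P})
    (S : {x // x ∈ P} → Strand (locM M P) (M : ℝ)) (hT : TData P T M y K S) (lam : ℝ)
    (hβ : 0 < β) (u : ℕ) (s : Pt) (BIG : ℕ) :
    (β : ℝ) * ∑ m ∈ Finset.Icc 3 L, (okN β N u m M s K S lam BIG : ℝ) ≤
      M * mstW P + β * K.card := by
  have hβr : (0 : ℝ) < β := by exact_mod_cast hβ
  have hβ1 : (1 : ℝ) ≤ β := by exact_mod_cast hβ
  -- the sets are disjoint
  have hdisj : Set.PairwiseDisjoint (↑(Finset.Icc 3 L))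
      (fun m => (K ×ˢ Finset.range BIG).filter
        (fun p => ∃ i, OkI β N u m M s S lam p.1 p.2 i)) := by
    have main : ∀ m m' : ℕ, m < m' → Disjoint ((K ×ˢ Finset.range BIG).filter
        (fun p => ∃ i, OkI β N u m M s S lam p.1 p.2 i)) ((K ×ˢ Finset.range BIG).filter
        (fun p => ∃ i, OkI β N u m' M s S lam p.1 p.2 i)) := by
      intro m m' hmm
      rw [Finset.disjoint_left]
      intro p hp hp'
      obtain ⟨-, i, hi⟩ := Finset.mem_filter.1 hp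
      obtain ⟨-, i', hi'⟩ := Finset.mem_filter.1 hp'
      have hii : i = i' := by
        by_contra hne
        rcases lt_or_gt_of_ne hne with h | h
        · have := BAD.t_le (S p.1) (i + 1) i' h hi'.1.hi.le
          linarith [hi.1.up, hi'.1.lo]
        · have := BAD.t_le (S p.1) (i' + 1) i h hi.1.hi.le
          linarith [hi'.1.up, hi.1.lo]
      subst hii
      have h1 := hi.2.2.1
      have h2 := hi'.2.1
      have h3 : (DD β N u m : ℝ) ≤ DD β N u (m' - 1) := by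
        exact_mod_cast CND.DD_mono β N u m (m' - 1) hβ (by omega)
      have h4 : (0 : ℝ) < DD β N u (m' - 1) := by
        exact_mod_cast CND.DD_pos β N u (m' - 1) hβ
      set f := ‖(S p.1).X i ((β : ℝ) * p.2) - locM M P p.1‖
      have h5 : (1 : ℝ) ≤ β ^ 10 := one_le_pow₀ hβ1
      have h6 : (DD β N u (m' - 1) : ℝ) ≤ β * DD β N u (m' - 1) := by nlinarith
      have hf : 0 ≤ f := norm_nonneg _
      have h7 : 4 * f ≤ 4 * β ^ 10 * f := by nlinarith
      linarith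
    intro m _ m' _ hne
    rcases lt_or_gt_of_ne hne with h | h
    · exact main m m' h
    · exact (main m' m h).symm
  have hcard : ∑ m ∈ Finset.Icc 3 L, okN β N u m M s K S lam BIG =
      ((Finset.Icc 3 L).biUnion (fun m => (K ×ˢ Finset.range BIG).filter
        (fun p => ∃ i, OkI β N u m M s S lam p.1 p.2 i))).card := by
    rw [Finset.card_biUnion hdisj]
    rfl
  have hsub : (Finset.Icc 3 L).biUnion (fun m => (K ×ˢ Finset.range BIG).filter
        (fun p => ∃ i, OkI β N u m M s S lam p.1 p.2 i)) ⊆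
      (K ×ˢ Finset.range BIG).filter
        (fun p => (β : ℝ) * p.2 ≤ (S p.1).t (S p.1).n) := by
    intro p hp
    obtain ⟨m, -, hp⟩ := Finset.mem_biUnion.1 hp
    obtain ⟨hp1, i, hi⟩ := Finset.mem_filter.1 hp
    refine Finset.mem_filter.2 ⟨hp1, ?_⟩
    have := BAD.t_le (S p.1) (i + 1) (S p.1).n hi.1.hi le_rfl
    linarith [hi.1.up]
  have h1 := Finset.card_le_card hsub
  rw [← hcard, card_prod] at h1
  have h2 : (∑ m ∈ Finset.Icc 3 L, (okN β N u m M s K S lam BIG : ℝ)) ≤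
      ∑ k ∈ K, (((Finset.range BIG).filter
        (fun n' : ℕ => (β : ℝ) * n' ≤ (S k).t (S k).n)).card : ℝ) := by
    exact_mod_cast h1
  have h3 := mul_le_mul_of_nonneg_left h2 hβr.le
  rw [Finset.mul_sum (f := fun k => (((Finset.range BIG).filter
        (fun n' : ℕ => (β : ℝ) * n' ≤ (S k).t (S k).n)).card : ℝ))] at h3
  refine h3.trans ?_
  have h4 : ∀ k ∈ K, (β : ℝ) * (((Finset.range BIG).filter
        (fun n' : ℕ => (β : ℝ) * n' ≤ (S k).t (S k).n)).card : ℝ) ≤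
      (S k).t (S k).n + β := by
    intro k _
    have := BAD.cnt ((Finset.range BIG).filter
        (fun n' : ℕ => (β : ℝ) * n' ≤ (S k).t (S k).n)) β 0 ((S k).t (S k).n)
        (BAD.t_nonneg (S k) _ le_rfl) (by
          intro m hm
          exact ⟨by positivity, (Finset.mem_filter.1 hm).2⟩)
    linarith
  refine (Finset.sum_le_sum h4).trans (le_of_eq ?_)
  rw [Finset.sum_add_distrib, hT.sys.tot, ← hT.wsum, Finset.sum_const, nsmul_eq_mul]
  ring

lemma K_le (P : Finset Pt) (T : RTree {x // x ∈ P}) (y : {x // x ∈ P} → ℝ)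
    (M : ℕ) (K : Finset {x // x ∈ P})
    (S : {x // x ∈ P} → Strand (locM M P) (M : ℝ)) (hT : TData P T M y K S) :
    (K.card : ℝ) * M ≤ M * mstW P := by
  rw [hT.wsum, ← hT.sys.tot, ← nsmul_eq_mul, ← Finset.sum_const]
  refine Finset.sum_le_sum fun k _ => ?_
  have h1 := BAD.t_le (S k) 1 (S k).n (S k).n_pos le_rfl
  have h2 := BAD.t_step (S k) 0 (S k).n_pos
  have h3 := (S k).edge_long 0 (S k).n_pos
  rw [(S k).t_zero] at h2
  have h4 : (M : ℝ) ≤ (S k).len 0 := h3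
  rw [zero_add] at h2
  linarith

/-- few pairs with a small separation functional -/
lemma partB (h1 : St_DETF) (h2 : St_AVG) (P : Finset Pt) (T : RTree {x // x ∈ P})
    (y : {x // x ∈ P} → ℝ) (β N L Δ M SM : ℕ) (K : Finset {x // x ∈ P})
    (S : {x // x ∈ P} → Strand (locM M P) (M : ℝ))
    (hM : M = β ^ (5 * N)) (hSM : SM = β ^ (N * (L + 1))) (hN : 10 ^ 6 ≤ N) (hL : 7 ≤ L)
    (hβL : 10 ^ 20 * L ≤ β) (hΔ : ∀ x ∈ P, x.1 ≤ Δ ∧ x.2 ≤ Δ)
    (hΔ2 : 2 * Δ ≤ β ^ (N * (L - 6))) (hT : TData P T M y K S) (hW : 0 < mstW P)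
    (hdef : ∑ v ∈ T.edges, (‖locM M P v - locM M P (T.par v)‖ - y v) ≤
      1 / 10 ^ 14 * (M * mstW P)) :
    1000 * (((Finset.range N ×ˢ (Finset.range SM ×ˢ Finset.range SM)).filter
      (fun p => (∀ m ∈ Finset.Icc 3 L, (cutN M p.2 (DD β N p.1 m) P : ℝ) * DD β N p.1 m ≤
        10 ^ 5 * L * (M * mstW P)) ∧ Fstar β N p.1 L (P.image (sh M p.2)) <
        7 / 10 * (M * mstW P))).card : ℝ) ≤ N * (SM : ℝ) ^ 2 := by
  obtain ⟨BIG, hB⟩ := h2 P T y β N L Δ M SM K S hM hSM hN hL hβL hΔ hΔ2 hT hdef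
  have hLr : (7 : ℝ) ≤ L := by exact_mod_cast hL
  have hβLr : (10 : ℝ) ^ 20 * L ≤ β := by exact_mod_cast hβL
  have hβbig : (10 : ℝ) ^ 20 ≤ β := by nlinarith
  have hβ0 : (0 : ℝ) < β := by linarith [show (0 : ℝ) < 10 ^ 20 by norm_num]
  have hβpos : 0 < β := by exact_mod_cast hβ0
  have hMβ : 10 ^ 20 * (β : ℝ) ≤ M := by
    have e1 : (β : ℝ) ^ 2 ≤ M := by
      rw [hM]
      push_cast
      exact pow_le_pow_right₀ (by linarith) (by omega)
    nlinarith
  have hM0 : (0 : ℝ) < M := by nlinarith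
  have hW' : 0 < (M : ℝ) * mstW P := mul_pos hM0 hW
  set W' := (M : ℝ) * mstW P with hW'def
  have hK := K_le P T y M K S hT
  rw [← hW'def] at hK
  have hKβ : (β : ℝ) * K.card ≤ 1 / 10 ^ 6 * W' := by
    have e1 : 10 ^ 20 * (β : ℝ) * K.card ≤ W' :=
      (mul_le_mul_of_nonneg_right hMβ (Nat.cast_nonneg K.card)).trans (by linarith)
    have : 0 ≤ (β : ℝ) * K.card := by positivity
    nlinarith
  set U := Finset.range N ×ˢ (Finset.range SM ×ˢ Finset.range SM) with hU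
  set g : ℕ × Pt → ℝ := fun p => W' - β * ∑ m ∈ Finset.Icc 3 L,
    (okN β N p.1 m M p.2 K S (1 / 10 ^ 6) BIG : ℝ) with hg
  have hBsum : ∑ p ∈ U, g p ≤ 1 / 10 ^ 4 * W' * N * (SM : ℝ) ^ 2 := by
    rw [hU, Finset.sum_product]
    exact hB
  have hglow : ∀ p, 0 ≤ g p + 1 / 10 ^ 6 * W' := by
    intro p
    have := ok_le P T y β N L M K S hT (1 / 10 ^ 6) hβpos p.1 p.2 BIG
    rw [← hW'def] at this
    simp only [hg]
    linarith
  set F := U.filter (fun p => (∀ m ∈ Finset.Icc 3 L,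
    (cutN M p.2 (DD β N p.1 m) P : ℝ) * DD β N p.1 m ≤ 10 ^ 5 * L * W') ∧
    Fstar β N p.1 L (P.image (sh M p.2)) < 7 / 10 * W') with hFdef
  have hFg : ∀ p ∈ F, 29 / 100 * W' ≤ g p + 1 / 10 ^ 6 * W' := by
    intro p hp
    obtain ⟨-, hp1, hp2⟩ := Finset.mem_filter.1 hp
    have hd := h1 P T M y K S (1 / 10 ^ 6) β N p.1 L p.2 BIG hT (by norm_num) (by norm_num)
      (by
        have : (10 : ℝ) ^ 4 ≤ 1 / 10 ^ 6 * 10 ^ 20 := by norm_num
        linarith [mul_le_mul_of_nonneg_left hβbig (show (0 : ℝ) ≤ 1 / 10 ^ 6 by norm_num)])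
      (by omega) (by
        have e : 1000 * (β : ℝ) ≤ M := by linarith
        exact_mod_cast e)
    rw [← Finset.mul_sum] at hd
    have hext : ∑ m ∈ Finset.Icc 3 L, 5 * (DD β N p.1 m : ℝ) / (β : ℝ) ^ 3 *
        (cutN M p.2 (DD β N p.1 m) P : ℝ) ≤ 1 / 10 ^ 6 * W' := by
      have e1 : ∀ m ∈ Finset.Icc 3 L, 5 * (DD β N p.1 m : ℝ) / (β : ℝ) ^ 3 *
        (cutN M p.2 (DD β N p.1 m) P : ℝ) ≤ 5 / (β : ℝ) ^ 3 * (10 ^ 5 * L * W') := by
        intro m hm
        have e2 : 5 * (DD β N p.1 m : ℝ) / (β : ℝ) ^ 3 * (cutN M p.2 (DD β N p.1 m) P : ℝ) =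
          5 / (β : ℝ) ^ 3 * ((cutN M p.2 (DD β N p.1 m) P : ℝ) * DD β N p.1 m) := by ring
        rw [e2]
        exact mul_le_mul_of_nonneg_left (hp1 m hm) (by positivity)
      refine (Finset.sum_le_sum e1).trans ?_
      rw [Finset.sum_const, Nat.card_Icc, nsmul_eq_mul]
      have hcard : ((L + 1 - 3 : ℕ) : ℝ) ≤ L := by
        have : L + 1 - 3 ≤ L := by omega
        exact_mod_cast this
      have e3 : ((L + 1 - 3 : ℕ) : ℝ) * (5 / (β : ℝ) ^ 3 * (10 ^ 5 * L * W')) ≤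
          L * (5 / (β : ℝ) ^ 3 * (10 ^ 5 * L * W')) :=
        mul_le_mul_of_nonneg_right hcard (by positivity)
      refine e3.trans ?_
      have e4 : (L : ℝ) * (5 / (β : ℝ) ^ 3 * (10 ^ 5 * L * W')) =
        (5 * 10 ^ 5 * L ^ 2 / (β : ℝ) ^ 3) * W' := by ring
      rw [e4]
      refine mul_le_mul_of_nonneg_right ?_ hW'.le
      rw [div_le_iff₀ (by positivity)]
      have e5 : (L : ℝ) ≤ β := by nlinarith
      have e6 : (L : ℝ) ^ 2 ≤ β ^ 2 := pow_le_pow_left₀ (by linarith) e5 2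
      have e7 : (10 : ℝ) ^ 20 * β ^ 2 ≤ β ^ 3 := by
        have : (β : ℝ) ^ 3 = β * β ^ 2 := by ring
        rw [this]
        exact mul_le_mul_of_nonneg_right hβbig (by positivity)
      have e8 : (0 : ℝ) ≤ (β : ℝ) ^ 2 := by positivity
      linarith
    have hok0 : 0 ≤ (β : ℝ) * ∑ m ∈ Finset.Icc 3 L,
        (okN β N p.1 m M p.2 K S (1 / 10 ^ 6) BIG : ℝ) := by positivity
    simp only [hg]
    set Sg := ∑ m ∈ Finset.Icc 3 L, (okN β N p.1 m M p.2 K S (1 / 10 ^ 6) BIG : ℝ)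
    have hd' : (1 - 5 * (1 / 10 ^ 6)) * ((β : ℝ) * Sg) < 7 / 10 * W' + 1 / 10 ^ 6 * W' := by
      have e8 : (1 - 5 * (1 / 10 ^ 6)) * ((β : ℝ) * Sg) = (1 - 5 * (1 / 10 ^ 6)) * (β : ℝ) * Sg := by
        ring
      rw [e8]
      linarith
    norm_num at hd' ⊢
    linarith
  have hs1 : ∑ p ∈ F, (g p + 1 / 10 ^ 6 * W') ≤ ∑ p ∈ U, (g p + 1 / 10 ^ 6 * W') :=
    Finset.sum_le_sum_of_subset_of_nonneg (Finset.filter_subset _ _) fun p _ _ => hglow p
  have hs2 : (F.card : ℝ) * (29 / 100 * W') ≤ ∑ p ∈ F, (g p + 1 / 10 ^ 6 * W') := by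
    rw [← nsmul_eq_mul, ← Finset.sum_const]
    exact Finset.sum_le_sum hFg
  have hUc : (U.card : ℝ) = N * (SM : ℝ) ^ 2 := by
    rw [hU, Finset.card_product, Finset.card_product, Finset.card_range, Finset.card_range]
    push_cast
    ring
  have hs3 : ∑ p ∈ U, (g p + 1 / 10 ^ 6 * W') ≤ (1 / 10 ^ 4 + 1 / 10 ^ 6) * W' *
      (N * (SM : ℝ) ^ 2) := by
    rw [Finset.sum_add_distrib, Finset.sum_const, nsmul_eq_mul, hUc]
    linarith
  have hs4 := hs2.trans (hs1.trans hs3)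
  have hs5 : W' * (29 / 100 * (F.card : ℝ)) ≤ W' * ((1 / 10 ^ 4 + 1 / 10 ^ 6) *
      (N * (SM : ℝ) ^ 2)) := by linarith
  have hs6 := le_of_mul_le_mul_left hs5 hW'
  have hnn : (0 : ℝ) ≤ N * (SM : ℝ) ^ 2 := by positivity
  norm_num at hs6 ⊢
  linarith

end GUS

open GUS in
theorem t_GUS (h1 : St_DETF) (h2 : St_AVG) (h3 : St_CUT) (h4 : St_DICH) (h5 : St_STR)
    (h6 : St_MSTr) : St_GUS := by
  intro P β N L Δ M SM hM hSM hN hL hβL hne hΔ hΔ2
  have hLr : (7 : ℝ) ≤ L := by exact_mod_cast hL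
  have hβpos : 0 < β := by
    have : 0 < 10 ^ 20 * L := by positivity
    omega
  have hMpos : 0 < M := by rw [hM]; exact pow_pos hβpos _
  have hA := partA h3 P β N L M SM hβpos (by omega) hSM
  set U := Finset.range N ×ˢ (Finset.range SM ×ˢ Finset.range SM) with hU
  set FA := U.filter (fun p => ¬ ∀ m ∈ Finset.Icc 3 L,
    (cutN M p.2 (DD β N p.1 m) P : ℝ) * DD β N p.1 m ≤ 10 ^ 5 * L * (M * mstW P)) with hFA
  have hnn : (0 : ℝ) ≤ N * (SM : ℝ) ^ 2 := by positivity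
  -- the two cases
  by_cases hcase : 0 < mstW P ∧ ∀ l : List Pt, l.Nodup → l.toFinset = P →
      (2 - 1 / (4 * 10 ^ 28)) * mstW P < tourLen l
  · obtain ⟨hW, htour⟩ := hcase
    obtain ⟨T, y, K, S, hT, hdef⟩ := tdata h4 h5 h6 P M hMpos hne hW htour
    have hB := partB h1 h2 P T y β N L Δ M SM K S hM hSM hN hL hβL hΔ hΔ2 hT hW hdef
    rw [← hU] at hB
    set FB := U.filter (fun p => (∀ m ∈ Finset.Icc 3 L,
      (cutN M p.2 (DD β N p.1 m) P : ℝ) * DD β N p.1 m ≤ 10 ^ 5 * L * (M * mstW P)) ∧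
      Fstar β N p.1 L (P.image (sh M p.2)) < 7 / 10 * (M * mstW P)) with hFB
    have hsub : U.filter (fun p => ¬ GoodUS β N L M P p.1 p.2) ⊆ FA ∪ FB := by
      intro p hp
      obtain ⟨hp1, hp2⟩ := Finset.mem_filter.1 hp
      by_cases hc : ∀ m ∈ Finset.Icc 3 L,
        (cutN M p.2 (DD β N p.1 m) P : ℝ) * DD β N p.1 m ≤ 10 ^ 5 * L * (M * mstW P)
      · refine Finset.mem_union_right _ (Finset.mem_filter.2 ⟨hp1, hc, ?_⟩)
        by_contra hcon
        exact hp2 ⟨hc, fun _ => not_lt.1 hcon⟩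
      · exact Finset.mem_union_left _ (Finset.mem_filter.2 ⟨hp1, hc⟩)
    have hc := (Finset.card_le_card hsub).trans (Finset.card_union_le FA FB)
    have hc' : ((U.filter (fun p => ¬ GoodUS β N L M P p.1 p.2)).card : ℝ) ≤
      (FA.card : ℝ) + FB.card := by exact_mod_cast hc
    have hfin : 200 * ((U.filter (fun p => ¬ GoodUS β N L M P p.1 p.2)).card : ℝ) ≤
        N * (SM : ℝ) ^ 2 := by linarith
    exact_mod_cast hfin
  · have hsub : U.filter (fun p => ¬ GoodUS β N L M P p.1 p.2) ⊆ FA := by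
      intro p hp
      obtain ⟨hp1, hp2⟩ := Finset.mem_filter.1 hp
      by_cases hc : ∀ m ∈ Finset.Icc 3 L,
        (cutN M p.2 (DD β N p.1 m) P : ℝ) * DD β N p.1 m ≤ 10 ^ 5 * L * (M * mstW P)
      · exfalso
        refine hp2 ⟨hc, fun ht => ?_⟩
        have hW0 : mstW P = 0 := by
          by_contra hne0
          exact hcase ⟨lt_of_le_of_ne (mstW_nonneg P) (Ne.symm hne0), ht⟩
        rw [hW0]
        have := Fstar_nonneg β N p.1 L (P.image (sh M p.2))
        linarith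
      · exact Finset.mem_filter.2 ⟨hp1, hc⟩
    have hc := Finset.card_le_card hsub
    have hc' : ((U.filter (fun p => ¬ GoodUS β N L M P p.1 p.2)).card : ℝ) ≤
      (FA.card : ℝ) := by exact_mod_cast hc
    have hfin : 200 * ((U.filter (fun p => ¬ GoodUS β N L M P p.1 p.2)).card : ℝ) ≤
        N * (SM : ℝ) ^ 2 := by linarith
    exact_mod_cast hfin

end Pool.Agent.H660R3.TS
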