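import Pool.Agent.H660R3.TS.T_PROG

set_option autoImplicit false
open scoped Classical

namespace Pool.Agent.H660R3.TS

namespace HBX

open PROGX

variable {V : Type} {loc : V → ℂ} {Mn : ℝ} (S : Strand loc Mn)

theorem ind_nonneg (p : Prop) [Decidable p] : (0 : ℝ) ≤ (if p then 1 else 0) := by
  split_ifs <;> norm_num

theorem mu_ge2 (A B : ℝ) (J J' : Finset ℕ) (hJ : J ⊆ Finset.range S.n)
    (hJ' : J' ⊆ Finset.range S.n)
    (hat : ∀ j ∈ J, (A ≤ S.t j ∧ S.t j ≤ B) ∨ (A ≤ S.t (j + 1) ∧ S.t (j + 1) ≤ B))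
    (hat' : ∀ j ∈ J', A ≤ S.t j ∧ S.t j ≤ B) :
    ∑ j ∈ J, (S.bs j + S.dg j) + ∑ j ∈ J', S.bet j ≤ S.mu A B := by
  unfold Strand.mu
  rw [Finset.sum_add_distrib (f := fun j => (S.bs j + S.dg j) *
    ((if A ≤ S.t j ∧ S.t j ≤ B then 1 else 0) + (if A ≤ S.t (j + 1) ∧ S.t (j + 1) ≤ B then 1 else 0)))]
  refine add_le_add ?_ ?_
  · refine le_trans (Finset.sum_le_sum ?_) (Finset.sum_le_sum_of_subset_of_nonneg hJ
      (fun j hj _ => ?_))
    · intro j hj
      have hjn := Finset.mem_range.mp (hJ hj)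
      have h1 := bs_nonneg S hjn
      have h2 := dg_nonneg S j
      have h4 := ind_nonneg (A ≤ S.t j ∧ S.t j ≤ B)
      have h5 := ind_nonneg (A ≤ S.t (j + 1) ∧ S.t (j + 1) ≤ B)
      have h6 : (1 : ℝ) ≤ (if A ≤ S.t j ∧ S.t j ≤ B then 1 else 0) +
          (if A ≤ S.t (j + 1) ∧ S.t (j + 1) ≤ B then 1 else 0) := by
        rcases hat j hj with h | h
        · rw [if_pos h]; linarith
        · rw [if_pos h]; linarith
      have h7 := mul_le_mul_of_nonneg_left h6 (add_nonneg h1 h2)
      linarith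
    · have hjn := Finset.mem_range.mp hj
      exact mul_nonneg (add_nonneg (bs_nonneg S hjn) (dg_nonneg S j))
        (add_nonneg (ind_nonneg _) (ind_nonneg _))
  · refine le_trans (Finset.sum_le_sum ?_) (Finset.sum_le_sum_of_subset_of_nonneg hJ'
      (fun j hj _ => ?_))
    · intro j hj
      rw [if_pos (hat' j hj), mul_one]
    · exact mul_nonneg (S.bet_nonneg j (Finset.mem_range.mp hj)) (ind_nonneg _)

theorem ys_sum {a : ℕ} : ∀ k, a + k ≤ S.n →
    ∑ i ∈ Finset.Ico a (a + k), S.ys i =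
      (S.t (a + k) - S.t a) - ∑ i ∈ Finset.Ico a (a + k), S.bs i := by
  intro k
  induction k with
  | zero => intro _; simp
  | succ k ih =>
    intro hk
    rw [← add_assoc, Finset.sum_Ico_succ_top (by omega), Finset.sum_Ico_succ_top (by omega),
      ih (by omega), t_add S (j := a + k) (by omega)]
    unfold Strand.bs
    ring

theorem ys_sum' {a b : ℕ} (hab : a ≤ b) (hb : b ≤ S.n) :
    ∑ i ∈ Finset.Ico a b, S.ys i = (S.t b - S.t a) - ∑ i ∈ Finset.Ico a b, S.bs i := by
  obtain ⟨k, rfl⟩ := Nat.exists_eq_add_of_le hab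
  exact ys_sum S k hb

theorem bs_sub {a b : ℕ} {J : Finset ℕ} (hJ : Finset.Ico a b ⊆ J) (hJn : J ⊆ Finset.range S.n) :
    ∑ i ∈ Finset.Ico a b, S.bs i ≤ ∑ i ∈ J, (S.bs i + S.dg i) := by
  refine le_trans (Finset.sum_le_sum (g := fun i => S.bs i + S.dg i) ?_)
    (Finset.sum_le_sum_of_subset_of_nonneg hJ ?_)
  · intro i _
    show S.bs i ≤ S.bs i + S.dg i
    linarith [dg_nonneg S i]
  · intro i hi _
    exact add_nonneg (bs_nonneg S (Finset.mem_range.mp (hJn hi))) (dg_nonneg S i)

end HBX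

open PROGX HBX in
theorem t_HB (hT : St_TRI) : St_HB := by
  intro V loc Mn S lam G τ hlam hlam1 hG hGM hgood j hj hov hH
  by_contra hcon
  push Not at hcon
  set h := S.H j with hh
  have hle := S.H_le j hj
  have hlong := S.H_long j hj hH
  have hMn : 0 < Mn := by linarith
  have hnov : h ≤ S.t S.n - S.t j := by
    by_contra hc
    exact hov (Or.inr ⟨hj, not_le.mp hc⟩)
  -- a
  have hexa : ∃ a, a ≤ j ∧ h ≤ S.t j - S.t a ∧ ∀ i, a < i → i ≤ j → S.t j - S.t i < h := by
    have hne : ((Finset.range (j + 1)).filter (fun a => h ≤ S.t j - S.t a)).Nonempty :=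
      ⟨0, by rw [Finset.mem_filter]; exact ⟨by simp, by rw [S.t_zero]; linarith⟩⟩
    refine ⟨((Finset.range (j + 1)).filter (fun a => h ≤ S.t j - S.t a)).max' hne, ?_, ?_, ?_⟩
    · have := Finset.mem_filter.mp (Finset.max'_mem _ hne)
      exact Nat.lt_succ_iff.mp (Finset.mem_range.mp this.1)
    · exact (Finset.mem_filter.mp (Finset.max'_mem _ hne)).2
    · intro i hi hij
      by_contra hc
      have hc' : h ≤ S.t j - S.t i := not_lt.mp hc
      have := Finset.le_max' ((Finset.range (j + 1)).filter (fun a => h ≤ S.t j - S.t a)) i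
        (Finset.mem_filter.mpr ⟨Finset.mem_range.mpr (Nat.lt_succ_of_le hij), hc'⟩)
      omega
  obtain ⟨a, haj, ha, hamax⟩ := hexa
  have hexb : ∃ b, j ≤ b ∧ b ≤ S.n ∧ h ≤ S.t b - S.t j ∧ ∀ i, j ≤ i → i < b → S.t i - S.t j < h := by
    have hex : ∃ b, j ≤ b ∧ h ≤ S.t b - S.t j := ⟨S.n, hj.le, hnov⟩
    refine ⟨Nat.find hex, (Nat.find_spec hex).1, Nat.find_min' hex ⟨hj.le, hnov⟩,
      (Nat.find_spec hex).2, ?_⟩
    intro i hi hib
    by_contra hc
    exact Nat.find_min hex hib ⟨hi, not_lt.mp hc⟩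
  obtain ⟨b, hjb, hbn, hb, hbmin⟩ := hexb
  obtain ⟨x, hxj, hxn, hx1, hx2⟩ := S.side j hj hH
  have hza : ‖loc (S.z a) - loc (S.z j)‖ ≤ S.t j - S.t a := by
    rw [norm_sub_rev]; exact t_dist' S haj hj.le
  have hzb : ‖loc (S.z b) - loc (S.z j)‖ ≤ S.t b - S.t j := t_dist' S hjb hbn
  have hJn : Finset.Ico a b ⊆ Finset.range S.n := by
    intro i hi; rw [Finset.mem_Ico] at hi; rw [Finset.mem_range]; omega
  have hmain : h / 4 ≤ ∑ i ∈ Finset.Ico a b, (S.bs i + S.dg i) + S.bet j := by
    have hbet := S.bet_nonneg j hj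
    rcases hT (loc x - loc (S.z j)) (loc (S.z a) - loc (S.z j)) (loc (S.z b) - loc (S.z j))
      h (S.t j - S.t a) (S.t b - S.t j) h hxn hza hzb hH.le le_rfl ha hb with h1 | h1 | h1
    · have h2 := hx1 a (by omega) haj
      have h3 : (loc x - loc (S.z j)) - (loc (S.z a) - loc (S.z j)) = loc x - loc (S.z a) := by ring
      rw [h3] at h1
      rw [ys_sum' S haj hj.le] at h2
      have h4 := bs_sub S (a := a) (b := j) (J := Finset.Ico a b)
        (Finset.Ico_subset_Ico le_rfl hjb) hJn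
      linarith
    · have h2 := hx2 b hbn hjb
      have h3 : (loc x - loc (S.z j)) - (loc (S.z b) - loc (S.z j)) = loc x - loc (S.z b) := by ring
      rw [h3] at h1
      rw [ys_sum' S hjb hbn] at h2
      have h4 := bs_sub S (a := j) (b := b) (J := Finset.Ico a b)
        (Finset.Ico_subset_Ico haj le_rfl) hJn
      linarith
    · have hab : a ≤ b := haj.trans hjb
      have h2 := S.ypath (S.z a) (S.z b) (by rw [S.att_z a (by omega), S.att_z b hbn]; exact hab)
      rw [S.att_z a (by omega), S.att_z b hbn, ys_sum' S hab hbn] at h2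
      have h3 : (loc (S.z a) - loc (S.z j)) - (loc (S.z b) - loc (S.z j)) =
        loc (S.z a) - loc (S.z b) := by ring
      rw [h3] at h1
      have h4 := bs_sub S (a := a) (b := b) (J := Finset.Ico a b) (Finset.Subset.refl _) hJn
      linarith
  have hwin := hgood (S.t j - 100 * h) (S.t j + 100 * h)
    (by linarith [(abs_le.mp hcon).1]) (by linarith [(abs_le.mp hcon).2]) (by linarith)
  have hge := mu_ge2 S (S.t j - 100 * h) (S.t j + 100 * h) (Finset.Ico a b) {j} hJn
    (by simpa using hj)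
    (by
      intro i hi
      rw [Finset.mem_Ico] at hi
      rcases Nat.lt_or_ge i j with hij | hij
      · right
        have h1 := hamax (i + 1) (by omega) (by omega)
        have h2 := t_mono S (j := i + 1) (k := j) (by omega) hj.le
        constructor <;> linarith
      · left
        have h1 := hbmin i hij hi.2
        have h2 := t_mono S (j := j) (k := i) hij (by omega)
        constructor <;> linarith)
    (by
      intro i hi
      rw [Finset.mem_singleton.mp hi]
      constructor <;> linarith)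
  rw [Finset.sum_singleton] at hge
  have h5 : lam * (S.t j + 100 * h - (S.t j - 100 * h)) ≤ 1 / 10 ^ 4 * (200 * h) := by
    have h6 : S.t j + 100 * h - (S.t j - 100 * h) = 200 * h := by ring
    rw [h6]
    exact mul_le_mul_of_nonneg_right hlam1 (by linarith)
  norm_num at h5
  linarith

end Pool.Agent.H660R3.TS
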