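import Pool.Agent.H660R3.TS.Stubs

set_option autoImplicit false

open scoped Classical

namespace Pool.Agent.H660R3.TS

namespace INN

theorem sum_shift (D a : ℕ) (f : ℕ → ℕ) (hf : ∀ x, f (x + D) = f x) :
    ∑ s ∈ Finset.range D, f (a + s) = ∑ s ∈ Finset.range D, f s := by
  induction a with
  | zero => simp
  | succ a ih =>
    have h1 : ∑ s ∈ Finset.range D, f (a + 1 + s) + f (a + 0) =
        ∑ s ∈ Finset.range D, f (a + s) + f (a + D) := by
      rw [← Finset.sum_range_succ (fun s => f (a + s)), Finset.sum_range_succ' (fun s => f (a + s))]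
      congr 1
      exact Finset.sum_congr rfl fun s _ => by rw [show a + 1 + s = a + (s + 1) by ring]
    rw [hf, add_zero] at h1
    omega

theorem sum_blocks (D T a : ℕ) (f : ℕ → ℕ) (hf : ∀ x, f (x + D) = f x) :
    ∑ s ∈ Finset.range (D * T), f (a + s) = T * ∑ s ∈ Finset.range D, f s := by
  induction T with
  | zero => simp
  | succ T ih =>
    rw [mul_add, mul_one, Finset.sum_range_add, ih]
    have h1 : ∑ x ∈ Finset.range D, f (a + (D * T + x)) = ∑ s ∈ Finset.range D, f s := by
      rw [← sum_shift D (a + D * T) f hf]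
      exact Finset.sum_congr rfl fun s _ => by rw [add_assoc]
    rw [h1]; ring

/-- bad residues -/
theorem count_q (β D : ℕ) (hβ : 0 < β) (hβD : β ≤ D) :
    ((Finset.range D).filter (fun r => β * (r % D) < 2 * D ∨ β * D < β * (r % D) + D)).card * β ≤
      4 * D := by
  have hsub : (Finset.range D).filter (fun r => β * (r % D) < 2 * D ∨ β * D < β * (r % D) + D) ⊆
      Finset.range (2 * D / β + 1) ∪ (Finset.Icc 1 (D / β)).image (fun r => D - r) := by
    intro r hr
    rw [Finset.mem_filter, Finset.mem_range] at hr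
    obtain ⟨hrD, hr⟩ := hr
    rw [Nat.mod_eq_of_lt hrD] at hr
    rw [Finset.mem_union]
    rcases hr with hr | hr
    · left
      rw [Finset.mem_range, Nat.lt_succ_iff, Nat.le_div_iff_mul_le hβ]
      rw [mul_comm]; exact hr.le
    · right
      rw [Finset.mem_image]
      refine ⟨D - r, ?_, by omega⟩
      rw [Finset.mem_Icc, Nat.le_div_iff_mul_le hβ]
      refine ⟨by omega, ?_⟩
      rw [Nat.sub_mul, mul_comm D β, mul_comm r β]
      omega
  have h1 := (Finset.card_le_card hsub).trans (Finset.card_union_le _ _)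
  have h2 := (Finset.card_image_le (s := Finset.Icc 1 (D / β)) (f := fun r => D - r))
  rw [Nat.card_Icc, Nat.add_sub_cancel] at h2
  rw [Finset.card_range] at h1
  have h3 : (2 * D / β) * β ≤ 2 * D := Nat.div_mul_le_self _ _
  have h4 : (D / β) * β ≤ D := Nat.div_mul_le_self _ _
  have h5 := Nat.mul_le_mul_right β (h1.trans (Nat.add_le_add_left h2 _))
  calc _ ≤ (2 * D / β + 1 + D / β) * β := h5
    _ = (2 * D / β) * β + β + (D / β) * β := by ring
    _ ≤ 4 * D := by omega

/-- the interior condition in one coordinate -/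
def In1 (β D σ v : ℕ) : Prop :=
  β * (v / D * D) + D ≤ β * (v / σ * σ) ∧ β * (v / σ * σ) + D ≤ β * ((v / D + 1) * D)

theorem bad {β D σ v : ℕ} (hσ : 0 < σ) (hd : σ ∣ D) (hβ : σ * β ≤ D) (h : ¬ In1 β D σ v) :
    β * (v % D) < 2 * D ∨ β * D < β * (v % D) + D := by
  by_contra hcon
  push Not at hcon
  apply h
  have h1 : v / D * D + v % D = v := Nat.div_add_mod' v D
  have h2 : v / σ * σ + v % σ = v := Nat.div_add_mod' v σ
  have h3 : v % σ < σ := Nat.mod_lt _ hσ
  -- `v / D * D ≤ v / σ * σ`
  obtain ⟨e, rfl⟩ := hd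
  have h4 : β * (v / σ * σ) ≤ β * v := Nat.mul_le_mul_left _ (Nat.div_mul_le_self _ _)
  have h5 : β * v = β * (v / (σ * e) * (σ * e)) + β * (v % (σ * e)) := by
    rw [← mul_add, h1]
  have h6 : β * v = β * (v / σ * σ) + β * (v % σ) := by rw [← mul_add, h2]
  have h7 : β * (v % σ) ≤ β * σ := Nat.mul_le_mul_left _ h3.le
  have h8 : β * ((v / (σ * e) + 1) * (σ * e)) = β * (v / (σ * e) * (σ * e)) + β * (σ * e) := by ring
  have h9 : β * σ = σ * β := mul_comm _ _
  constructor
  · omega
  · rw [h8]; omega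

theorem one (β D σ T a : ℕ) (hβ0 : 0 < β) (hσ : 0 < σ) (hd : σ ∣ D) (hβ : σ * β ≤ D) :
    ((Finset.range (D * T)).filter (fun s => ¬ In1 β D σ (a + s))).card * β ≤ 4 * (D * T) := by
  have hβD : β ≤ D := le_trans (Nat.le_mul_of_pos_left β hσ) hβ
  have h1 : ((Finset.range (D * T)).filter (fun s => ¬ In1 β D σ (a + s))).card ≤
      ((Finset.range (D * T)).filter (fun s => β * ((a + s) % D) < 2 * D ∨
        β * D < β * ((a + s) % D) + D)).card :=
    Finset.card_le_card (Finset.monotone_filter_right _ fun s _ hs => bad hσ hd hβ hs)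
  have h2 : ((Finset.range (D * T)).filter (fun s => β * ((a + s) % D) < 2 * D ∨
        β * D < β * ((a + s) % D) + D)).card = T * ((Finset.range D).filter
          (fun r => β * (r % D) < 2 * D ∨ β * D < β * (r % D) + D)).card := by
    rw [Finset.card_filter, Finset.card_filter]
    exact sum_blocks D T a (fun v => if β * (v % D) < 2 * D ∨ β * D < β * (v % D) + D then 1 else 0)
      (fun x => by simp only [Nat.add_mod_right])
  have h3 := count_q β D hβ0 hβD
  calc _ ≤ (T * ((Finset.range D).filter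
          (fun r => β * (r % D) < 2 * D ∨ β * D < β * (r % D) + D)).card) * β := by
        rw [← h2]; exact Nat.mul_le_mul_right _ h1
    _ = T * (((Finset.range D).filter
          (fun r => β * (r % D) < 2 * D ∨ β * D < β * (r % D) + D)).card * β) := by ring
    _ ≤ T * (4 * D) := Nat.mul_le_mul_left _ h3
    _ = _ := by ring

theorem card_prod_le (n : ℕ) (P Q : ℕ → Prop) (R : ℕ × ℕ → Prop)
    [DecidablePred P] [DecidablePred Q] [DecidablePred R]
    (h : ∀ s, R s → P s.1 ∨ Q s.2) :
    ((Finset.range n ×ˢ Finset.range n).filter R).card ≤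
      ((Finset.range n).filter P).card * n + n * ((Finset.range n).filter Q).card := by
  have hsub : (Finset.range n ×ˢ Finset.range n).filter R ⊆
      ((Finset.range n).filter P ×ˢ Finset.range n) ∪ (Finset.range n ×ˢ (Finset.range n).filter Q) := by
    intro s hs
    rw [Finset.mem_filter, Finset.mem_product] at hs
    rw [Finset.mem_union, Finset.mem_product, Finset.mem_product, Finset.mem_filter, Finset.mem_filter]
    rcases h s hs.2 with hp | hq
    · exact Or.inl ⟨⟨hs.1.1, hp⟩, hs.1.2⟩
    · exact Or.inr ⟨hs.1.1, hs.1.2, hq⟩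
  have h1 := (Finset.card_le_card hsub).trans (Finset.card_union_le _ _)
  rwa [Finset.card_product, Finset.card_product, Finset.card_range] at h1

end INN

theorem t_INN : St_INN := by
  intro β M D σ SM x hβ10 hσ hd hβ hdvd
  obtain ⟨T, rfl⟩ := hdvd
  have h1 := INN.card_prod_le (D * T) (fun s => ¬ INN.In1 β D σ (M * x.1 + s))
    (fun s => ¬ INN.In1 β D σ (M * x.2 + s))
    (fun s => ¬ Inner β D (bx D (sh M s x)) (rd σ (sh M s x))) (fun s hs => by
      by_contra hcon
      push Not at hcon
      exact hs ⟨hcon.1.1, hcon.1.2, hcon.2.1, hcon.2.2⟩)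
  have h2 := INN.one β D σ T (M * x.1) (by omega) hσ hd hβ
  have h3 := INN.one β D σ T (M * x.2) (by omega) hσ hd hβ
  have h4 : ((Finset.range (D * T) ×ˢ Finset.range (D * T)).filter
      (fun s => ¬ Inner β D (bx D (sh M s x)) (rd σ (sh M s x)))).card * β ≤ 8 * (D * T) ^ 2 := by
    refine (Nat.mul_le_mul_right β h1).trans ?_
    have h5 := Nat.mul_le_mul_right (D * T) h2
    have h6 := Nat.mul_le_mul_right (D * T) h3
    nlinarith
  have h5 : ((((Finset.range (D * T) ×ˢ Finset.range (D * T)).filter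
      (fun s => ¬ Inner β D (bx D (sh M s x)) (rd σ (sh M s x)))).card : ℝ)) * β ≤
        8 * ((D * T : ℕ) : ℝ) ^ 2 := by exact_mod_cast h4
  nlinarith [sq_nonneg ((D * T : ℕ) : ℝ)]

end Pool.Agent.H660R3.TS
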