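import Pool.Agent.H660R3.TS.Defs
import Pool.Agent.H660R3.TS.Stubs

/-!
Task LOC (helper418): the location lemma.
-/

set_option autoImplicit false

open scoped Classical

namespace Pool.Agent.H660R3.TS

namespace LOC

variable {V : Type} {loc : V → ℂ} {Mn : ℝ} (S : Strand loc Mn)

theorem t_step {j : ℕ} (hj : j < S.n) : S.t (j + 1) = S.t j + S.len j := S.t_succ j hj

theorem len_pos (hM : 0 < Mn) {j : ℕ} (hj : j < S.n) : 0 < S.len j :=
  lt_of_lt_of_le hM (S.edge_long j hj)

theorem t_mono {j k : ℕ} (hjk : j ≤ k) (hk : k ≤ S.n) : S.t j ≤ S.t k := by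
  induction k, hjk using Nat.le_induction with
  | base => exact le_rfl
  | succ k hjk ih =>
    rw [t_step S (by omega : k < S.n)]
    have := ih (by omega)
    have h2 : 0 ≤ S.len k := norm_nonneg _
    linarith

theorem t_lt (hM : 0 < Mn) {j k : ℕ} (hjk : j < k) (hk : k ≤ S.n) : S.t j < S.t k := by
  have h1 := t_mono S (by omega : j + 1 ≤ k) hk
  have h2 := t_step S (by omega : j < S.n)
  have h3 := len_pos S hM (by omega : j < S.n)
  linarith

theorem dist_le {j k : ℕ} (hjk : j ≤ k) (hk : k ≤ S.n) :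
    ‖loc (S.z k) - loc (S.z j)‖ ≤ S.t k - S.t j := by
  induction k, hjk using Nat.le_induction with
  | base => simp
  | succ k hjk ih =>
    rw [t_step S (by omega : k < S.n)]
    have h1 := ih (by omega)
    have h2 : ‖loc (S.z (k + 1)) - loc (S.z j)‖ ≤
        ‖loc (S.z (k + 1)) - loc (S.z k)‖ + ‖loc (S.z k) - loc (S.z j)‖ :=
      norm_sub_le_norm_sub_add_norm_sub _ _ _
    have h3 : S.len k = ‖loc (S.z (k + 1)) - loc (S.z k)‖ := rfl
    linarith

theorem dg_nonneg (j : ℕ) : 0 ≤ S.dg j := by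
  have h2 : ‖loc (S.z (j + 1)) - loc (S.z 0)‖ ≤
      ‖loc (S.z (j + 1)) - loc (S.z j)‖ + ‖loc (S.z j) - loc (S.z 0)‖ :=
    norm_sub_le_norm_sub_add_norm_sub _ _ _
  simp only [Strand.dg, Strand.f, Strand.len]
  linarith

theorem bs_nonneg {j : ℕ} (hj : j < S.n) : 0 ≤ S.bs j := by
  have := S.ys_le j hj
  simp only [Strand.bs, Strand.len]
  linarith

theorem tele {j k : ℕ} (hjk : j ≤ k) (hk : k ≤ S.n) :
    (S.t k - S.t j) - (S.f k - S.f j) = ∑ m ∈ Finset.Ico j k, S.dg m := by
  induction k, hjk using Nat.le_induction with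
  | base => simp
  | succ k hjk ih =>
    rw [Finset.sum_Ico_succ_top hjk, ← ih (by omega), t_step S (by omega : k < S.n)]
    simp only [Strand.dg]
    ring

theorem tele_len {k : ℕ} (hk : k ≤ S.n) : S.t k = ∑ m ∈ Finset.range k, S.len m := by
  induction k with
  | zero => simp [S.t_zero]
  | succ k ih => rw [Finset.sum_range_succ, ← ih (by omega), t_step S (by omega : k < S.n)]

/-- general lower bound of the deficit measure -/
theorem mu_ge (A B : ℝ) (s : Finset ℕ) (w : ℕ → ℝ) (hs : ∀ m ∈ s, m < S.n)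
    (hw : ∀ m ∈ s, w m ≤ S.bs m + S.dg m)
    (hA : ∀ m ∈ s, (A ≤ S.t m ∧ S.t m ≤ B) ∨ (A ≤ S.t (m + 1) ∧ S.t (m + 1) ≤ B)) :
    ∑ m ∈ s, w m ≤ S.mu A B := by
  unfold Strand.mu
  have hnn : ∀ j, j < S.n → 0 ≤ (S.bs j + S.dg j) * ((if A ≤ S.t j ∧ S.t j ≤ B then 1 else 0)
        + (if A ≤ S.t (j + 1) ∧ S.t (j + 1) ≤ B then 1 else 0))
      + S.bet j * (if A ≤ S.t j ∧ S.t j ≤ B then 1 else 0) := by
    intro j hj
    have h1 := bs_nonneg S hj
    have h2 := dg_nonneg S j
    have h3 := S.bet_nonneg j hj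
    split_ifs <;> nlinarith
  refine le_trans (Finset.sum_le_sum (g := fun j =>
      (S.bs j + S.dg j) * ((if A ≤ S.t j ∧ S.t j ≤ B then 1 else 0)
        + (if A ≤ S.t (j + 1) ∧ S.t (j + 1) ≤ B then 1 else 0))
      + S.bet j * (if A ≤ S.t j ∧ S.t j ≤ B then 1 else 0)) ?_)
    (Finset.sum_le_sum_of_subset_of_nonneg ?_ ?_)
  · intro m hm
    have h1 := bs_nonneg S (hs m hm)
    have h2 := dg_nonneg S m
    have h3 := S.bet_nonneg m (hs m hm)
    have h4 := hw m hm
    rcases hA m hm with h | h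
    · simp only [if_pos h]
      split_ifs <;> nlinarith
    · simp only [if_pos h]
      split_ifs <;> nlinarith
  · intro m hm
    exact Finset.mem_range.2 (hs m hm)
  · intro j hj _
    exact hnn j (Finset.mem_range.1 hj)

theorem bs_dg {j : ℕ} (hj : j < S.n) : S.bs j ≤ S.bs j + S.dg j ∧ S.dg j ≤ S.bs j + S.dg j :=
  ⟨by linarith [dg_nonneg S j], by linarith [bs_nonneg S hj]⟩

section X

variable {i : ℕ} {τ : ℝ}

theorem X_left (hM : 0 < Mn) (hi : i < S.n) (h1 : S.t i ≤ τ) :
    ‖S.X i τ - loc (S.z i)‖ = τ - S.t i := by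
  have hl := len_pos S hM hi
  have e : S.X i τ - loc (S.z i) =
      (((τ - S.t i) / S.len i : ℝ) : ℂ) * (loc (S.z (i + 1)) - loc (S.z i)) := by
    simp only [Strand.X]; ring
  rw [e, norm_mul, Complex.norm_real, Real.norm_eq_abs,
    abs_of_nonneg (div_nonneg (by linarith) hl.le)]
  change (τ - S.t i) / S.len i * S.len i = _
  field_simp

theorem X_right (hM : 0 < Mn) (hi : i < S.n) (h2 : τ ≤ S.t (i + 1)) :
    ‖loc (S.z (i + 1)) - S.X i τ‖ = S.t (i + 1) - τ := by
  have hl := len_pos S hM hi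
  have hs := t_step S hi
  have e : loc (S.z (i + 1)) - S.X i τ =
      (((S.t (i + 1) - τ) / S.len i : ℝ) : ℂ) * (loc (S.z (i + 1)) - loc (S.z i)) := by
    have h3 : (S.t (i + 1) - τ) / S.len i = 1 - (τ - S.t i) / S.len i := by
      rw [hs]; field_simp; ring
    rw [h3]
    simp only [Strand.X]
    push_cast
    ring
  rw [e, norm_mul, Complex.norm_real, Real.norm_eq_abs,
    abs_of_nonneg (div_nonneg (by linarith) hl.le)]
  change (S.t (i + 1) - τ) / S.len i * S.len i = _
  field_simp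

/-- progress behind the location -/
theorem prog1 (hM : 0 < Mn) {lam G : ℝ} (hi : i < S.n) (h1 : S.t i ≤ τ)
    (h2 : τ ≤ S.t (i + 1)) (hgood : S.Good lam G τ) {j : ℕ} (hj : j ≤ i) :
    (τ - S.t j) - lam * max (τ - S.t j) G ≤ ‖S.X i τ - loc (S.z 0)‖ - S.f j := by
  have htj := t_mono S hj hi.le
  have hte := tele S hj hi.le
  have hr := X_right S hM hi h2
  have h3 : S.f (i + 1) ≤ ‖loc (S.z (i + 1)) - S.X i τ‖ + ‖S.X i τ - loc (S.z 0)‖ :=
    norm_sub_le_norm_sub_add_norm_sub _ _ _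
  have hdg : S.dg i = S.len i - (S.f (i + 1) - S.f i) := rfl
  have hst := t_step S hi
  have hsum : ∑ m ∈ Finset.Ico j (i + 1), S.dg m = ∑ m ∈ Finset.Ico j i, S.dg m + S.dg i :=
    Finset.sum_Ico_succ_top hj _
  have hmu := mu_ge S (S.t j) (max τ (S.t j + G)) (Finset.Ico j (i + 1)) S.dg
    (fun m hm => by have := (Finset.mem_Ico.1 hm).2; omega)
    (fun m hm => (bs_dg S (by have := (Finset.mem_Ico.1 hm).2; omega : m < S.n)).2)
    (fun m hm => by
      left
      obtain ⟨ha, hb⟩ := Finset.mem_Ico.1 hm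
      refine ⟨t_mono S ha (by omega), ?_⟩
      exact ((t_mono S (by omega : m ≤ i) hi.le).trans h1).trans (le_max_left _ _))
  have hg := hgood (S.t j) (max τ (S.t j + G)) (htj.trans h1) (le_max_left _ _)
    (by have := le_max_right τ (S.t j + G); linarith)
  have hmx : max τ (S.t j + G) - S.t j = max (τ - S.t j) G := by
    rw [max_sub_sub_right τ (S.t j + G) (S.t j) |>.symm]
    congr 1
    ring
  rw [hmx] at hg
  linarith

/-- progress in front of the location -/
theorem prog2 (hM : 0 < Mn) {lam G : ℝ} (hi : i < S.n) (h1 : S.t i ≤ τ)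
    (h2 : τ ≤ S.t (i + 1)) (hgood : S.Good lam G τ) {j : ℕ} (hj : i < j) (hjn : j ≤ S.n) :
    (S.t j - τ) - lam * max (S.t j - τ) G ≤ S.f j - ‖S.X i τ - loc (S.z 0)‖ := by
  have htj := t_mono S (by omega : i + 1 ≤ j) hjn
  have hte := tele S (by omega : i + 1 ≤ j) hjn
  have hl := X_left S hM hi h1
  have h3 : ‖S.X i τ - loc (S.z 0)‖ ≤ ‖S.X i τ - loc (S.z i)‖ + S.f i :=
    norm_sub_le_norm_sub_add_norm_sub _ _ _
  have hdg : S.dg i = S.len i - (S.f (i + 1) - S.f i) := rfl
  have hst := t_step S hi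
  have hsum : ∑ m ∈ Finset.Ico i j, S.dg m = S.dg i + ∑ m ∈ Finset.Ico (i + 1) j, S.dg m :=
    Finset.sum_eq_sum_Ico_succ_bot hj _
  have hmu := mu_ge S (min τ (S.t j - G)) (S.t j) (Finset.Ico i j) S.dg
    (fun m hm => by have := (Finset.mem_Ico.1 hm).2; omega)
    (fun m hm => (bs_dg S (by have := (Finset.mem_Ico.1 hm).2; omega : m < S.n)).2)
    (fun m hm => by
      right
      obtain ⟨ha, hb⟩ := Finset.mem_Ico.1 hm
      refine ⟨?_, t_mono S (by omega : m + 1 ≤ j) hjn⟩
      exact (min_le_left _ _).trans (h2.trans (t_mono S (by omega : i + 1 ≤ m + 1) (by omega))))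
  have hg := hgood (min τ (S.t j - G)) (S.t j) (min_le_left _ _) (h2.trans htj)
    (by have := min_le_right τ (S.t j - G); linarith)
  have hmx : S.t j - min τ (S.t j - G) = max (S.t j - τ) G := by
    rcases le_total τ (S.t j - G) with h | h
    · rw [min_eq_left h, max_eq_left (by linarith)]
    · rw [min_eq_right h, max_eq_right (by linarith)]; ring
  rw [hmx] at hg
  linarith

end X

/-- change of centre -/
theorem centre (X v p c : ℂ) :
    |(‖X - c‖ - ‖X - p‖) - (‖v - c‖ - ‖v - p‖)| * ‖X - c‖ ≤ 4 * ‖p - c‖ * ‖X - v‖ := by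
  have key : ∀ v : ℂ, (‖v - c‖ - ‖v - p‖) * (‖v - c‖ + ‖v - p‖) =
      2 * ((v - p).re * (p - c).re + (v - p).im * (p - c).im) + ‖p - c‖ ^ 2 := by
    intro v
    have h1 : ‖v - c‖ ^ 2 = (v - c).re ^ 2 + (v - c).im ^ 2 := by
      rw [← Complex.normSq_eq_norm_sq, Complex.normSq_apply]; ring
    have h2 : ‖v - p‖ ^ 2 = (v - p).re ^ 2 + (v - p).im ^ 2 := by
      rw [← Complex.normSq_eq_norm_sq, Complex.normSq_apply]; ring
    have h3 : ‖p - c‖ ^ 2 = (p - c).re ^ 2 + (p - c).im ^ 2 := by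
      rw [← Complex.normSq_eq_norm_sq, Complex.normSq_apply]; ring
    have e : (‖v - c‖ - ‖v - p‖) * (‖v - c‖ + ‖v - p‖) = ‖v - c‖ ^ 2 - ‖v - p‖ ^ 2 := by ring
    rw [e, h1, h2, h3]
    simp only [Complex.sub_re, Complex.sub_im]
    ring
  have kX := key X
  have kv := key v
  set w := ‖p - c‖ with hw
  have hw0 : 0 ≤ w := norm_nonneg _
  set dX := ‖X - c‖ - ‖X - p‖ with hdX
  set dv := ‖v - c‖ - ‖v - p‖ with hdv
  set sX := ‖X - c‖ + ‖X - p‖ with hsX
  set sv := ‖v - c‖ + ‖v - p‖ with hsv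
  have hX0 : 0 ≤ ‖X - c‖ := norm_nonneg _
  have hX1 : 0 ≤ ‖X - p‖ := norm_nonneg _
  have hle : ‖X - c‖ ≤ sX := by rw [hsX]; linarith
  have hdvw : |dv| ≤ w := by
    have h1 : ‖v - c‖ ≤ ‖v - p‖ + ‖p - c‖ := norm_sub_le_norm_sub_add_norm_sub _ _ _
    have h2 : ‖v - p‖ ≤ ‖v - c‖ + ‖c - p‖ := norm_sub_le_norm_sub_add_norm_sub _ _ _
    rw [norm_sub_rev c p] at h2
    rw [abs_le]
    constructor <;> linarith
  have hs : |sv - sX| ≤ 2 * ‖X - v‖ := by
    have h1 : ‖X - c‖ ≤ ‖X - v‖ + ‖v - c‖ := norm_sub_le_norm_sub_add_norm_sub _ _ _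
    have h2 : ‖X - p‖ ≤ ‖X - v‖ + ‖v - p‖ := norm_sub_le_norm_sub_add_norm_sub _ _ _
    have h3 : ‖v - c‖ ≤ ‖v - X‖ + ‖X - c‖ := norm_sub_le_norm_sub_add_norm_sub _ _ _
    have h4 : ‖v - p‖ ≤ ‖v - X‖ + ‖X - p‖ := norm_sub_le_norm_sub_add_norm_sub _ _ _
    rw [norm_sub_rev v X] at h3 h4
    rw [abs_le]
    constructor <;> linarith
  have hin : |(X - v).re * (p - c).re + (X - v).im * (p - c).im| ≤ ‖X - v‖ * w := by
    have h1 : ‖X - v‖ ^ 2 = (X - v).re ^ 2 + (X - v).im ^ 2 := by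
      rw [← Complex.normSq_eq_norm_sq, Complex.normSq_apply]; ring
    have h3 : w ^ 2 = (p - c).re ^ 2 + (p - c).im ^ 2 := by
      rw [hw, ← Complex.normSq_eq_norm_sq, Complex.normSq_apply]; ring
    apply abs_le_of_sq_le_sq _ (by positivity)
    rw [mul_pow, h1, h3]
    nlinarith [sq_nonneg ((X - v).re * (p - c).im - (X - v).im * (p - c).re)]
  have e : (dX - dv) * sX = 2 * ((X - v).re * (p - c).re + (X - v).im * (p - c).im)
      + dv * (sv - sX) := by
    have : (dX - dv) * sX = dX * sX - dv * sv + dv * (sv - sX) := by ring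
    rw [this, kX, kv]
    simp only [Complex.sub_re, Complex.sub_im]
    ring
  calc |dX - dv| * ‖X - c‖ ≤ |dX - dv| * sX := mul_le_mul_of_nonneg_left hle (abs_nonneg _)
    _ = |(dX - dv) * sX| := by rw [abs_mul, abs_of_nonneg (hX0.trans hle)]
    _ ≤ |2 * ((X - v).re * (p - c).re + (X - v).im * (p - c).im)| + |dv * (sv - sX)| := by
        rw [e]; exact abs_add_le _ _
    _ ≤ 2 * (‖X - v‖ * w) + w * (2 * ‖X - v‖) := by
        refine add_le_add ?_ ?_
        · rw [abs_mul, abs_of_pos (by norm_num : (0:ℝ) < 2)]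
          exact mul_le_mul_of_nonneg_left hin (by norm_num)
        · rw [abs_mul]
          exact mul_le_mul hdvw hs (abs_nonneg _) hw0
    _ = _ := by ring

end LOC

open LOC in
theorem t_LOC (hHB : St_HB) : St_LOC := by
  intro V loc Mn S lam G del τ i c σ hlam0 hlam1 hG hMn hF hc hGσ hR x
  have hM : 0 < Mn := by linarith
  have hG0 : 0 < G := by linarith
  have hσ0 : 0 < σ := by linarith
  obtain ⟨hi, h1, h2', hgood, hearly, _⟩ := hF
  have h2 : τ ≤ S.t (i + 1) := h2'.le
  set R := ‖S.X i τ - c‖ with hRd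
  have hR0 : 0 < R := by
    by_contra hcon
    push Not at hcon
    nlinarith
  have hjoO : S.Ovf S.jo := Nat.sInf_mem (s := {j | S.Ovf j}) ⟨S.n, Or.inl rfl⟩
  have hjon : S.jo ≤ S.n := Nat.sInf_le (Or.inl rfl : S.Ovf S.n)
  have hti0 : 0 ≤ S.t i := by
    have := t_mono S (Nat.zero_le i) hi.le
    rwa [S.t_zero] at this
  have hτ0 : 0 ≤ τ := hti0.trans h1
  have htov0 : 0 ≤ S.tov := by
    have := t_mono S (Nat.zero_le S.jo) hjon
    rwa [S.t_zero] at this
  have hτtov : τ < S.tov := by nlinarith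
  have hijo : i < S.jo := by
    by_contra hcon
    push Not at hcon
    have := t_mono S hcon hi.le
    have e : S.tov = S.t S.jo := rfl
    linarith
  have hnot : ∀ j, j < S.jo → ¬ S.Ovf j := fun j hj hO => Nat.notMem_of_lt_sInf hj hO
  -- width bounds
  have hwd : ∀ j, S.att x = j → j < S.jo → S.wd x ≤ |τ - S.t j| / 100 := by
    intro j hj hjo
    have hjn : j < S.n := lt_of_lt_of_le hjo hjon
    have h3 : S.wd x ≤ S.H j := by
      have := S.wd_le x (by rw [hj]; exact hjn)
      rwa [hj] at this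
    rcases (S.H_nonneg j hjn).lt_or_eq with h4 | h4
    · have := hHB V loc Mn S lam G τ hlam0 hlam1 hG0 (by linarith) hgood j hjn (hnot j hjo) h4
      linarith
    · have h5 : 0 ≤ |τ - S.t j| := abs_nonneg _
      linarith
  -- comparison of the two centres
  have hcen : ∀ j, ‖S.X i τ - loc (S.z j)‖ ≤ |τ - S.t j| →
      |(R - ‖S.X i τ - loc (S.z 0)‖) - (‖loc (S.z j) - c‖ - S.f j)| ≤ |τ - S.t j| / 100 := by
    intro j hj
    have h3 := centre (S.X i τ) (loc (S.z j)) (loc (S.z 0)) c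
    have h4 : |(R - ‖S.X i τ - loc (S.z 0)‖) - (‖loc (S.z j) - c‖ - S.f j)| * R ≤
        (|τ - S.t j| / 100) * R := by
      refine h3.trans ?_
      have h5 : 4 * ‖loc (S.z 0) - c‖ * ‖S.X i τ - loc (S.z j)‖ ≤ 4 * (2 * σ) * |τ - S.t j| := by
        gcongr
      refine h5.trans ?_
      have h6 : 0 ≤ |τ - S.t j| := abs_nonneg _
      have h7 : 800 * σ ≤ R := by nlinarith
      nlinarith
    exact le_of_mul_le_mul_right h4 hR0
  rcases le_or_gt (S.att x) i with hai | hia
  -- type I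
  · left
    have han : S.att x < S.n := by omega
    have htj := t_mono S hai hi.le
    have habs : |τ - S.t (S.att x)| = τ - S.t (S.att x) := abs_of_nonneg (by linarith)
    have hw := hwd (S.att x) rfl (by omega)
    have hXj : ‖S.X i τ - loc (S.z (S.att x))‖ ≤ |τ - S.t (S.att x)| := by
      rw [habs]
      have e1 := X_left S hM hi h1
      have e2 := dist_le S hai hi.le
      have e3 : ‖S.X i τ - loc (S.z (S.att x))‖ ≤ ‖S.X i τ - loc (S.z i)‖ +
        ‖loc (S.z i) - loc (S.z (S.att x))‖ := norm_sub_le_norm_sub_add_norm_sub _ _ _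
      linarith
    have hc1 := (abs_le.1 (hcen (S.att x) hXj)).1
    rw [habs] at hw hc1
    have hp := prog1 S hM hi h1 h2 hgood hai
    have hwx := S.wd_dist x han
    have hx1 : ‖loc x - c‖ ≤ ‖loc x - loc (S.z (S.att x))‖ + ‖loc (S.z (S.att x)) - c‖ :=
      norm_sub_le_norm_sub_add_norm_sub _ _ _
    have hmax : lam * max (τ - S.t (S.att x)) G ≤ (τ - S.t (S.att x)) / 100 + G / 100 := by
      have h5 : max (τ - S.t (S.att x)) G ≤ (τ - S.t (S.att x)) + G :=
        max_le (by linarith) (by linarith)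
      nlinarith
    refine ⟨hai, ?_, hw⟩
    linarith
  · rcases lt_or_ge (S.att x) S.jo with hajo | hajo
    -- type II
    · right; left
      have han : S.att x < S.n := by omega
      have htj := t_mono S (by omega : i + 1 ≤ S.att x) han.le
      have habs : |τ - S.t (S.att x)| = S.t (S.att x) - τ := by
        rw [abs_sub_comm]; exact abs_of_nonneg (by linarith)
      have hw := hwd (S.att x) rfl hajo
      have hXj : ‖S.X i τ - loc (S.z (S.att x))‖ ≤ |τ - S.t (S.att x)| := by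
        rw [habs]
        have e1 := X_right S hM hi h2
        have e2 := dist_le S (by omega : i + 1 ≤ S.att x) han.le
        have e3 : ‖loc (S.z (S.att x)) - S.X i τ‖ ≤ ‖loc (S.z (S.att x)) - loc (S.z (i + 1))‖ +
          ‖loc (S.z (i + 1)) - S.X i τ‖ := norm_sub_le_norm_sub_add_norm_sub _ _ _
        rw [norm_sub_rev]
        linarith
      have hc1 := (abs_le.1 (hcen (S.att x) hXj)).2
      rw [habs] at hw hc1
      have hp := prog2 S hM hi h1 h2 hgood hia han.le
      have hwx := S.wd_dist x han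
      rw [norm_sub_rev] at hwx
      have hx1 : ‖loc (S.z (S.att x)) - c‖ ≤ ‖loc (S.z (S.att x)) - loc x‖ + ‖loc x - c‖ :=
        norm_sub_le_norm_sub_add_norm_sub _ _ _
      have hmax : lam * max (S.t (S.att x) - τ) G ≤ (S.t (S.att x) - τ) / 100 + G / 100 := by
        have h5 : max (S.t (S.att x) - τ) G ≤ (S.t (S.att x) - τ) + G :=
          max_le (by linarith) (by linarith)
        nlinarith
      refine ⟨hia, hajo, ?_, hw⟩
      linarith
    -- type III
    · right; right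
      refine ⟨hajo, ?_⟩
      have hjo0 : 0 < S.jo := by omega
      have hatn := S.att_le x
      have hy := S.ypath (S.z 0) x (by rw [S.att_z 0 (Nat.zero_le _)]; exact Nat.zero_le _)
      rw [S.att_z 0 (Nat.zero_le _)] at hy
      have hsub : ∑ j ∈ Finset.Ico 0 S.jo, S.ys j ≤ ∑ j ∈ Finset.Ico 0 (S.att x), S.ys j := by
        apply Finset.sum_le_sum_of_subset_of_nonneg
        · intro j hj
          rw [Finset.mem_Ico] at hj ⊢
          omega
        · intro j hj _
          rw [Finset.mem_Ico] at hj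
          exact S.ys_nonneg j (by omega)
      have hbs : ∑ j ∈ Finset.Ico 0 S.jo, S.bs j = S.tov - ∑ j ∈ Finset.Ico 0 S.jo, S.ys j := by
        have e : S.tov = S.t S.jo := rfl
        rw [e, tele_len S hjon, Finset.range_eq_Ico, ← Finset.sum_sub_distrib]
        rfl
      have hmu := mu_ge S 0 S.tov (Finset.Ico 0 S.jo) S.bs
        (fun m hm => by have := (Finset.mem_Ico.1 hm).2; omega)
        (fun m hm => (bs_dg S (by have := (Finset.mem_Ico.1 hm).2; omega : m < S.n)).1)
        (fun m hm => by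
          left
          obtain ⟨_, hb⟩ := Finset.mem_Ico.1 hm
          refine ⟨?_, t_mono S hb.le hjon⟩
          have := t_mono S (Nat.zero_le m) (by omega)
          rwa [S.t_zero] at this)
      have htovM : Mn ≤ S.tov := by
        have e1 := t_mono S (by omega : 1 ≤ S.jo) hjon
        have e2 := t_step S (by omega : 0 < S.n)
        have e3 : Mn ≤ S.len 0 := S.edge_long 0 (by omega)
        rw [S.t_zero] at e2
        have e : S.tov = S.t S.jo := rfl
        rw [zero_add] at e2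
        rw [e]
        linarith
      have hg := hgood 0 S.tov hτ0 hτtov.le (by linarith)
      have hX : ‖S.X i τ - loc (S.z 0)‖ ≤ τ := by
        have e1 := X_left S hM hi h1
        have e2 := dist_le S (Nat.zero_le i) hi.le
        rw [S.t_zero] at e2
        have e3 : ‖S.X i τ - loc (S.z 0)‖ ≤ ‖S.X i τ - loc (S.z i)‖ +
          ‖loc (S.z i) - loc (S.z 0)‖ := norm_sub_le_norm_sub_add_norm_sub _ _ _
        linarith
      have hRτ : R ≤ τ + 2 * σ := by
        have e3 : ‖S.X i τ - c‖ ≤ ‖S.X i τ - loc (S.z 0)‖ + ‖loc (S.z 0) - c‖ :=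
          norm_sub_le_norm_sub_add_norm_sub _ _ _
        linarith
      have hx2 : ‖loc (S.z 0) - loc x‖ ≤ ‖loc (S.z 0) - c‖ + ‖loc x - c‖ := by
        have := norm_sub_le_norm_sub_add_norm_sub (loc (S.z 0)) c (loc x)
        rwa [norm_sub_rev c (loc x)] at this
      have h5 : (1 - lam) * S.tov ≤ ‖loc (S.z 0) - loc x‖ := by
        rw [sub_zero] at hg
        linarith
      have h6 : (1 + lam) * τ ≤ (1 - lam) * S.tov := by nlinarith
      have h7 : (1 + lam) * (R - 2 * σ) ≤ (1 + lam) * τ := by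
        apply mul_le_mul_of_nonneg_left _ (by linarith)
        linarith
      nlinarith

end Pool.Agent.H660R3.TS
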