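import Pool.Agent.H660R3.TS.Stubs
import Pool.Agent.H138R2.Mey.Minimax

/-!
# LP duality for cut packings
-/

set_option autoImplicit false

namespace Pool.Agent.H660R3.TS

open scoped Classical
open Filter Topology

theorem t_LP : St_LP := by
  intro E ι _ _ w d c η hw hd hη hη1
  set W : ℝ := ∑ e, w e with hW
  let K : Set (E → ℝ) := Set.pi Set.univ (fun e => Set.Icc 0 (w e))
  have hKm : ∀ y : E → ℝ, y ∈ K ↔ ∀ e, 0 ≤ y e ∧ y e ≤ w e := by
    intro y
    constructor
    · intro h e
      exact h e (Set.mem_univ _)
    · intro h e _
      exact h e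
  have hKconv : Convex ℝ K := convex_pi (fun e _ => convex_Icc 0 (w e))
  have hKcomp : IsCompact K := isCompact_univ_pi (fun e => isCompact_Icc)
  let f : Option ι → (E → ℝ) → ℝ := fun o y => match o with
    | none => ∑ e, y e - (1 - η) * W
    | some i => d i - ∑ e ∈ Finset.univ.filter (fun e => c i e), y e
  have hfc : ∀ o, ConcaveOn ℝ K (f o) := by
    intro o
    refine ⟨hKconv, ?_⟩
    intro y _ z _ a b _ _ hab
    rcases o with _ | i
    · simp only [f, smul_eq_mul, Pi.add_apply, Pi.smul_apply, Finset.sum_add_distrib,
        ← Finset.mul_sum]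
      have : (1 - η) * W = (a + b) * ((1 - η) * W) := by rw [hab, one_mul]
      nlinarith
    · simp only [f, smul_eq_mul, Pi.add_apply, Pi.smul_apply, Finset.sum_add_distrib,
        ← Finset.mul_sum]
      have : d i = (a + b) * d i := by rw [hab, one_mul]
      nlinarith
  have hfcont : ∀ o, Continuous (f o) := by
    intro o
    rcases o with _ | i
    · simp only [f]
      exact (continuous_finset_sum _ (fun e _ => continuous_apply e)).sub continuous_const
    · simp only [f]
      exact continuous_const.sub (continuous_finset_sum _ (fun e _ => continuous_apply e))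
  by_cases H : ∀ l : Option ι → ℝ, (∀ o, 0 ≤ l o) → ∑ o, l o = 1 →
      ∃ y ∈ K, 0 ≤ ∑ o, l o * f o y
  · left
    have h1 : ∀ n : ℕ, ∃ y ∈ K, ∀ o, (0 : ℝ) - 1 / ((n : ℝ) + 1) ≤ f o y := fun n =>
      Pool.Agent.H138R2.Mey.minimax K hKconv f hfc 0 H (1 / ((n : ℝ) + 1)) (by positivity)
    choose y hyK hy using h1
    obtain ⟨a, haK, φ, hφ, hlim⟩ := hKcomp.tendsto_subseq hyK
    have hfa : ∀ o, 0 ≤ f o a := by
      intro o
      have h2 : Tendsto (fun n => f o (y (φ n)) + 1 / (((φ n : ℕ) : ℝ) + 1)) atTop
          (𝓝 (f o a + 0)) := by
        apply Tendsto.add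
        · exact ((hfcont o).tendsto a).comp hlim
        · exact tendsto_one_div_add_atTop_nhds_zero_nat.comp hφ.tendsto_atTop
      rw [add_zero] at h2
      refine ge_of_tendsto' h2 (fun n => ?_)
      have := hy (φ n) o
      linarith
    refine ⟨a, (hKm a).1 haK, fun i => ?_, ?_⟩
    · have := hfa (some i)
      simp only [f] at this
      linarith
    · have := hfa none
      simp only [f] at this
      linarith
  · right
    push Not at H
    obtain ⟨l, hl0, hl1, hl⟩ := H
    have hl' : ∀ y ∈ K, l none * (∑ e, y e - (1 - η) * W) +
        ∑ i, l (some i) * (d i - ∑ e ∈ Finset.univ.filter (fun e => c i e), y e) < 0 := by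
      intro y hy
      have := hl y hy
      rw [Fintype.sum_option] at this
      exact this
    have hpos : 0 < l none := by
      rcases (hl0 none).eq_or_lt with h | h
      · exfalso
        have h3 := hl' (fun _ => 0) ((hKm _).2 (fun e => ⟨le_rfl, hw e⟩))
        rw [← h] at h3
        simp only [Finset.sum_const_zero, sub_zero, zero_mul, zero_add] at h3
        have h4 : 0 ≤ ∑ i, l (some i) * d i :=
          Finset.sum_nonneg (fun i _ => mul_nonneg (hl0 _) (hd i))
        linarith
      · exact h
    set L : E → ℝ := fun e => ∑ i ∈ Finset.univ.filter (fun i => c i e), l (some i) with hL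
    let y : E → ℝ := fun e => if L e < l none then w e else 0
    have hyK : y ∈ K := by
      rw [hKm]
      intro e
      simp only [y]
      split_ifs
      · exact ⟨hw e, le_rfl⟩
      · exact ⟨le_rfl, hw e⟩
    have h5 := hl' y hyK
    have hswap : ∑ i, l (some i) * ∑ e ∈ Finset.univ.filter (fun e => c i e), y e =
        ∑ e, y e * L e := by
      simp only [hL, Finset.mul_sum, Finset.sum_filter]
      rw [Finset.sum_comm]
      refine Finset.sum_congr rfl (fun e _ => Finset.sum_congr rfl (fun i _ => ?_))
      split_ifs <;> ring
    have hmax : ∀ e, y e * (l none - L e) = w e * max 0 (l none - L e) := by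
      intro e
      simp only [y]
      split_ifs with h
      · rw [max_eq_right (by linarith)]
      · rw [max_eq_left (by linarith)]; ring
    have h6 : ∑ i, l (some i) * d i + ∑ e, w e * max 0 (l none - L e) <
        l none * ((1 - η) * W) := by
      have h7 : ∑ e, w e * max 0 (l none - L e) = l none * ∑ e, y e - ∑ e, y e * L e := by
        rw [Finset.mul_sum, ← Finset.sum_sub_distrib]
        refine Finset.sum_congr rfl (fun e _ => ?_)
        rw [← hmax e]; ring
      have h8 : ∑ i, l (some i) * (d i - ∑ e ∈ Finset.univ.filter (fun e => c i e), y e) =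
          ∑ i, l (some i) * d i - ∑ e, y e * L e := by
        rw [← hswap, ← Finset.sum_sub_distrib]
        refine Finset.sum_congr rfl (fun i _ => ?_)
        ring
      rw [h8] at h5
      rw [h7]
      linarith
    refine ⟨fun i => l (some i) / l none, fun i => div_nonneg (hl0 _) hpos.le, ?_⟩
    have h9 : ∑ i, l (some i) / l none * d i + ∑ e, w e * max 0
        (1 - ∑ i ∈ Finset.univ.filter (fun i => c i e), l (some i) / l none) =
        (∑ i, l (some i) * d i + ∑ e, w e * max 0 (l none - L e)) / l none := by
      rw [add_div, Finset.sum_div, Finset.sum_div]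
      congr 1
      · refine Finset.sum_congr rfl (fun i _ => ?_)
        ring
      · refine Finset.sum_congr rfl (fun e _ => ?_)
        rw [← Finset.sum_div]
        have h10 : 1 - (∑ i ∈ Finset.univ.filter (fun i => c i e), l (some i)) / l none =
            (l none - L e) / l none := by
          simp only [hL]
          field_simp
        rw [h10, mul_div_assoc]
        congr 1
        rcases le_total 0 (l none - L e) with h | h
        · rw [max_eq_right h, max_eq_right (div_nonneg h hpos.le)]
        · rw [max_eq_left h, max_eq_left (div_nonpos_of_nonpos_of_nonneg h hpos.le), zero_div]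
    rw [h9, div_lt_iff₀ hpos]
    linarith

end Pool.Agent.H660R3.TS
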