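import Pool.Agent.H660R3.TS.Stubs

set_option autoImplicit false

open scoped Classical

namespace Pool.Agent.H660R3.TS

namespace MSTb

theorem rtg_mono {α : Type} {r p : α → α → Prop} (h : ∀ a b, r a b → p a b) {x y : α}
    (hxy : Relation.ReflTransGen r x y) : Relation.ReflTransGen p x y := by
  induction hxy with
  | refl => exact Relation.ReflTransGen.refl
  | tail _ hstep ih => exact ih.tail (h _ _ hstep)

theorem rtg_symm {α : Type} {r : α → α → Prop} (h : ∀ a b, r a b → r b a) {x y : α}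
    (hxy : Relation.ReflTransGen r x y) : Relation.ReflTransGen r y x := by
  induction hxy with
  | refl => exact Relation.ReflTransGen.refl
  | tail _ hstep ih => exact Relation.ReflTransGen.head (h _ _ hstep) ih

theorem sqd_comm (p q : Pt) : sqd p q = sqd q p := by
  unfold sqd
  have h1 : ((p.1 : ℤ) - q.1).natAbs = ((q.1 : ℤ) - p.1).natAbs := by omega
  have h2 : ((p.2 : ℤ) - q.2).natAbs = ((q.2 : ℤ) - p.2).natAbs := by omega
  rw [h1, h2]

theorem ky_comm (p q : Pt) : ky p q = ky q p := by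
  unfold ky
  rw [sqd_comm, min_comm, max_comm]

theorem ds_sqd (p q : Pt) : ds p q = Real.sqrt ((sqd p q : ℕ) : ℝ) := by
  unfold ds sqd
  congr 1
  push_cast
  rw [Nat.cast_natAbs, Nat.cast_natAbs]
  push_cast
  rw [sq_abs, sq_abs]

theorem ds_comm (p q : Pt) : ds p q = ds q p := by
  rw [ds_sqd, ds_sqd, sqd_comm]

theorem ds_le {p q u v : Pt} (h : ky p q ≤ ky u v) : ds p q ≤ ds u v := by
  rw [ds_sqd, ds_sqd]
  apply Real.sqrt_le_sqrt
  have h1 : sqd p q ≤ sqd u v := by
    unfold ky at h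
    rw [Prod.Lex.toLex_le_toLex] at h
    rcases h with h | h
    · exact h.le
    · exact h.1.le
  exact_mod_cast h1

theorem mem_mst {A : Finset Pt} {e : Pt × Pt} : e ∈ mst A ↔
    (e.1 ∈ A ∧ e.2 ∈ A) ∧ toLex e.1 < toLex e.2 ∧ ¬ Low A e.1 e.2 e.1 e.2 := by
  unfold mst
  rw [Finset.mem_filter, Finset.mem_product]

theorem tadj_comm {A : Finset Pt} {x y : Pt} (h : TAdj A x y) : TAdj A y x := h.symm

theorem low_mono {A P : Finset Pt} (h : A ⊆ P) {p q x y : Pt} (hl : Low A p q x y) :
    Low P p q x y := by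
  unfold Low at *
  exact rtg_mono (fun a b hab => ⟨h hab.1, h hab.2.1, hab.2.2⟩) hl

theorem bott (A : Finset Pt) : ∀ k : ℕ ×ₗ ((ℕ ×ₗ ℕ) ×ₗ (ℕ ×ₗ ℕ)), ∀ u ∈ A, ∀ v ∈ A, ky u v = k →
    Relation.ReflTransGen (fun a b => TAdj A a b ∧ ds a b ≤ ds u v) u v := by
  intro k
  induction k using WellFoundedLT.induction with
  | ind k ih =>
    intro u hu v hv hk
    -- a low path gives a path
    have key : ∀ p q, ky p q = k → ∀ x y, Low A p q x y →
        Relation.ReflTransGen (fun a b => TAdj A a b ∧ ds a b ≤ ds u v) x y := by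
      intro p q hpq x y hl
      unfold Low at hl
      induction hl with
      | refl => exact Relation.ReflTransGen.refl
      | tail _ hstep ih2 =>
        obtain ⟨h1, h2, h3⟩ := hstep
        rw [hpq] at h3
        refine ih2.trans ?_
        refine rtg_mono ?_ (ih _ h3 _ h1 _ h2 rfl)
        rintro a b ⟨h4, h5⟩
        refine ⟨h4, h5.trans (ds_le ?_)⟩
        rw [hk]; exact h3.le
    rcases lt_trichotomy (toLex u) (toLex v) with hlt | heq | hgt
    · by_cases hl : Low A u v u v
      · exact key u v hk u v hl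
      · exact Relation.ReflTransGen.single
          ⟨Or.inl (mem_mst.2 ⟨⟨hu, hv⟩, hlt, hl⟩), le_rfl⟩
    · have : u = v := by simpa using heq
      subst this
      exact Relation.ReflTransGen.refl
    · by_cases hl : Low A v u v u
      · have h1 := key v u (by rw [ky_comm]; exact hk) v u hl
        exact rtg_symm (fun a b hab => ⟨tadj_comm hab.1, by rw [ds_comm]; exact hab.2⟩) h1
      · exact Relation.ReflTransGen.single
          ⟨Or.inr (mem_mst.2 ⟨⟨hv, hu⟩, hgt, hl⟩), le_rfl⟩

end MSTb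

open MSTb in
theorem t_MSTb : St_MSTb := by
  refine ⟨?_, ?_, ?_⟩
  · intro A e he
    obtain ⟨⟨h1, h2⟩, h3, h4⟩ := mem_mst.1 he
    refine ⟨h1, h2, ?_, ?_⟩
    · intro h
      rw [h] at h3
      exact lt_irrefl _ h3
    · intro h
      have := (mem_mst.1 h).2.1
      exact lt_asymm h3 this
  · intro A P hAP e he hA1 hA2
    obtain ⟨⟨h1, h2⟩, h3, h4⟩ := mem_mst.1 he
    exact mem_mst.2 ⟨⟨hA1, hA2⟩, h3, fun h => h4 (low_mono hAP h)⟩
  · intro A u hu v hv
    exact bott A _ u hu v hv rfl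

end Pool.Agent.H660R3.TS
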