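import Pool.Agent.H660R3.TS.T_MSTb

set_option autoImplicit false

open scoped Classical

namespace Pool.Agent.H660R3.TS

namespace MSTc

open MSTb

theorem ky_inj {p q u v : Pt} (h : ky p q = ky u v) : (p = u ∧ q = v) ∨ (p = v ∧ q = u) := by
  unfold ky at h
  rw [toLex_inj, Prod.mk.injEq, toLex_inj, Prod.mk.injEq] at h
  obtain ⟨-, h1, h2⟩ := h
  rcases le_total (toLex p) (toLex q) with hpq | hpq <;>
    rcases le_total (toLex u) (toLex v) with huv | huv
  · rw [min_eq_left hpq, min_eq_left huv] at h1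
    rw [max_eq_right hpq, max_eq_right huv] at h2
    exact Or.inl ⟨by simpa using h1, by simpa using h2⟩
  · rw [min_eq_left hpq, min_eq_right huv] at h1
    rw [max_eq_right hpq, max_eq_left huv] at h2
    exact Or.inr ⟨by simpa using h1, by simpa using h2⟩
  · rw [min_eq_right hpq, min_eq_left huv] at h1
    rw [max_eq_left hpq, max_eq_right huv] at h2
    exact Or.inr ⟨by simpa using h2, by simpa using h1⟩
  · rw [min_eq_right hpq, min_eq_right huv] at h1
    rw [max_eq_left hpq, max_eq_left huv] at h2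
    exact Or.inl ⟨by simpa using h2, by simpa using h1⟩

/-- the tree as a graph -/
def Gr (A : Finset Pt) : SimpleGraph {x // x ∈ A} where
  Adj x y := TAdj A x y
  symm := ⟨fun _ _ h => tadj_comm h⟩
  loopless := ⟨fun x h => by
    rcases h with h | h <;> exact lt_irrefl _ (mem_mst.1 h).2.1⟩

theorem Gr_adj {A : Finset Pt} {x y : {x // x ∈ A}} : (Gr A).Adj x y ↔ TAdj A x y := Iff.rfl

theorem Gr_reach (A : Finset Pt) (x y : {x // x ∈ A}) : (Gr A).Reachable x y := by
  have h := t_MSTb.2.2 A x x.2 y y.2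
  have key : ∀ a b : Pt, Relation.ReflTransGen (fun a b => TAdj A a b ∧ ds a b ≤ ds x y) a b →
      ∀ (ha : a ∈ A) (hb : b ∈ A), (Gr A).Reachable ⟨a, ha⟩ ⟨b, hb⟩ := by
    intro a b hab
    induction hab with
    | refl => intro _ _; rfl
    | @tail b c _ hstep ih =>
      intro ha hc
      have hb : b ∈ A := by
        rcases hstep.1 with h | h
        · exact (mem_mst.1 h).1.1
        · exact (mem_mst.1 h).1.2
      refine (ih ha hb).trans (SimpleGraph.Adj.reachable ?_)
      exact hstep.1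
  exact key x y h x.2 y.2

/-- the key of an unordered pair -/
def kS : Sym2 Pt → ℕ ×ₗ ((ℕ ×ₗ ℕ) ×ₗ (ℕ ×ₗ ℕ)) := Sym2.lift ⟨ky, ky_comm⟩

theorem kS_mk (x y : Pt) : kS s(x, y) = ky x y := rfl

theorem Gr_acyclic (A : Finset Pt) : (Gr A).IsAcyclic := by
  intro v c hc
  let km : Sym2 {x // x ∈ A} → ℕ ×ₗ ((ℕ ×ₗ ℕ) ×ₗ (ℕ ×ₗ ℕ)) :=
    fun e => kS (e.map Subtype.val)
  have hne : c.edges.toFinset.Nonempty := by
    rw [List.toFinset_nonempty_iff]
    intro h
    have h1 : c.length = 0 := by rw [← SimpleGraph.Walk.length_edges, h]; rfl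
    have := hc.three_le_length
    omega
  obtain ⟨f, hf, hmax⟩ := Finset.exists_max_image c.edges.toFinset km hne
  rw [List.mem_toFinset] at hf
  induction f using Sym2.ind with
  | _ x y =>
  have hadj : (Gr A).Adj x y := SimpleGraph.Walk.adj_of_mem_edges c hf
  -- the graph of the edges of the cycle
  let H : SimpleGraph {x // x ∈ A} := SimpleGraph.fromEdgeSet {e | e ∈ c.edges}
  have hcH : ∀ e ∈ c.edges, e ∈ H.edgeSet := by
    intro e he
    have hA := SimpleGraph.Walk.edges_subset_edgeSet c he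
    rw [SimpleGraph.edgeSet_fromEdgeSet]
    exact ⟨he, SimpleGraph.not_isDiag_of_mem_edgeSet _ hA⟩
  have hcyc : ∃ (u : {x // x ∈ A}) (p : H.Walk u u), p.IsCycle ∧ s(x, y) ∈ p.edges := by
    refine ⟨v, c.transfer H hcH, hc.transfer hcH, ?_⟩
    rw [SimpleGraph.Walk.edges_transfer]
    exact hf
  have hreach := (SimpleGraph.adj_and_reachable_delete_edges_iff_exists_cycle.2 hcyc).2
  have hlow : ∀ a b : {x // x ∈ A}, (H \ SimpleGraph.fromEdgeSet {s(x, y)}).Reachable a b →
      Low A x y a b := by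
    rintro a b ⟨w⟩
    induction w with
    | nil => exact Relation.ReflTransGen.refl
    | @cons a b' b'' hab _ ih =>
      refine Relation.ReflTransGen.head ⟨a.2, b'.2, ?_⟩ ih
      rw [SimpleGraph.sdiff_adj, SimpleGraph.fromEdgeSet_adj, SimpleGraph.fromEdgeSet_adj] at hab
      obtain ⟨⟨h1, h2⟩, h3⟩ := hab
      have h4 := hmax s(a, b') (by rw [List.mem_toFinset]; exact h1)
      have h5 : ky (a : Pt) b' ≤ ky (x : Pt) y := h4
      refine lt_of_le_of_ne h5 ?_
      intro he
      apply h3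
      refine ⟨?_, h2⟩
      rw [Set.mem_singleton_iff, Sym2.eq_iff]
      rcases ky_inj he with h6 | h6
      · exact Or.inl ⟨Subtype.ext h6.1, Subtype.ext h6.2⟩
      · exact Or.inr ⟨Subtype.ext h6.1, Subtype.ext h6.2⟩
  have hl := hlow x y hreach
  rcases hadj with h | h
  · exact (mem_mst.1 h).2.2 hl
  · apply (mem_mst.1 h).2.2
    have h2 : Low A (x : Pt) y y x := by
      refine rtg_symm ?_ hl
      rintro a b ⟨h1, h2, h3⟩
      exact ⟨h2, h1, by rw [ky_comm]; exact h3⟩
    unfold Low at *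
    dsimp only
    rw [ky_comm]
    exact h2

theorem Gr_card (A : Finset Pt) : (Gr A).edgeFinset.card = (mst A).card := by
  symm
  apply Finset.card_bij (fun e he => s((⟨e.1, (mem_mst.1 he).1.1⟩ : {x // x ∈ A}),
    (⟨e.2, (mem_mst.1 he).1.2⟩ : {x // x ∈ A})))
  · intro e he
    rw [SimpleGraph.mem_edgeFinset, SimpleGraph.mem_edgeSet]
    exact Or.inl he
  · intro e he e' he' h
    rw [Sym2.eq_iff] at h
    rcases h with ⟨h1, h2⟩ | ⟨h1, h2⟩
    · rw [Subtype.mk.injEq] at h1 h2
      exact Prod.ext h1 h2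
    · rw [Subtype.mk.injEq] at h1 h2
      exfalso
      have h3 := (mem_mst.1 he).2.1
      have h4 := (mem_mst.1 he').2.1
      rw [h1, h2] at h3
      exact lt_asymm h3 h4
  · intro e he
    induction e using Sym2.ind with
    | _ x y =>
    rw [SimpleGraph.mem_edgeFinset, SimpleGraph.mem_edgeSet] at he
    rcases he with h | h
    · exact ⟨(x, y), h, rfl⟩
    · exact ⟨(y, x), h, Sym2.eq_swap⟩

theorem Gr_tree (A : Finset Pt) (hA : A.Nonempty) : (Gr A).IsTree := by
  obtain ⟨a, ha⟩ := hA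
  have : Nonempty {x // x ∈ A} := ⟨⟨a, ha⟩⟩
  exact ⟨⟨fun x y => Gr_reach A x y⟩, Gr_acyclic A⟩

end MSTc

open MSTc in
theorem t_MSTc (_h : St_MSTb) : St_MSTc := by
  intro A hA
  have h := (Gr_tree A hA).card_edgeFinset
  rw [Gr_card] at h
  rw [h]
  simp

end Pool.Agent.H660R3.TS
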