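import Pool.Agent.H660R3.TS.Stubs

set_option autoImplicit false

open scoped Classical

namespace Pool.Agent.H660R3.TS

namespace MSTo

/-- sums of a monotone function under domination of the counting functions -/
theorem dom_sum {α β : Type} (φ : ℝ → ℝ) (hφ : Monotone φ) (hφ0 : ∀ x, 0 ≤ φ x) (f : α → ℝ)
    (g : β → ℝ) : ∀ (n : ℕ) (M : Finset α) (H : Finset β), M.card = n →
    (∀ t : ℝ, (M.filter (fun e => t ≤ f e)).card ≤ (H.filter (fun h => t ≤ g h)).card) →
    ∑ e ∈ M, φ (f e) ≤ ∑ h ∈ H, φ (g h) := by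
  intro n
  induction n with
  | zero =>
    intro M H hM _
    rw [Finset.card_eq_zero.1 hM]
    simpa using Finset.sum_nonneg fun h _ => hφ0 (g h)
  | succ n ih =>
    intro M H hM hdom
    have hMne : M.Nonempty := Finset.card_pos.1 (by omega)
    obtain ⟨e, he, hemax⟩ := Finset.exists_max_image M f hMne
    have h1 : 0 < (M.filter (fun e' => f e ≤ f e')).card :=
      Finset.card_pos.2 ⟨e, Finset.mem_filter.2 ⟨he, le_rfl⟩⟩
    have h2 : 0 < (H.filter (fun h => f e ≤ g h)).card := lt_of_lt_of_le h1 (hdom (f e))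
    obtain ⟨h0, hh0⟩ := Finset.card_pos.1 h2
    have hHne : H.Nonempty := ⟨h0, (Finset.mem_filter.1 hh0).1⟩
    obtain ⟨h, hh, hhmax⟩ := Finset.exists_max_image H g hHne
    have hge : f e ≤ g h := (Finset.mem_filter.1 hh0).2.trans (hhmax h0 (Finset.mem_filter.1 hh0).1)
    have hih := ih (M.erase e) (H.erase h) (by rw [Finset.card_erase_of_mem he]; omega) (by
      intro t
      by_cases ht : t ≤ f e
      · have e1 : (M.erase e).filter (fun e' => t ≤ f e') = (M.filter (fun e' => t ≤ f e')).erase e := by
          ext x; simp only [Finset.mem_filter, Finset.mem_erase]; tauto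
        have e2 : (H.erase h).filter (fun h' => t ≤ g h') = (H.filter (fun h' => t ≤ g h')).erase h := by
          ext x; simp only [Finset.mem_filter, Finset.mem_erase]; tauto
        rw [e1, e2, Finset.card_erase_of_mem (Finset.mem_filter.2 ⟨he, ht⟩),
          Finset.card_erase_of_mem (Finset.mem_filter.2 ⟨hh, ht.trans hge⟩)]
        exact Nat.sub_le_sub_right (hdom t) 1
      · have e1 : (M.erase e).filter (fun e' => t ≤ f e') = ∅ := by
          apply Finset.filter_eq_empty_iff.2
          intro x hx hx'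
          exact ht (hx'.trans (hemax x (Finset.mem_of_mem_erase hx)))
        rw [e1]; simp)
    rw [← Finset.add_sum_erase M _ he, ← Finset.add_sum_erase H _ hh]
    exact add_le_add (hφ hge) hih

/-- the vector of an edge -/
noncomputable def vec (e : Pt × Pt) : Pt → ℚ := Pi.single e.1 1 - Pi.single e.2 1

theorem vec_swap (a b : Pt) : vec (a, b) = - vec (b, a) := by
  unfold vec; simp

theorem vec_path (S : Submodule ℚ (Pt → ℚ)) (R : Pt → Pt → Prop)
    (hR : ∀ a b, R a b → vec (a, b) ∈ S) {u v : Pt} (h : Relation.ReflTransGen R u v) :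
    vec (u, v) ∈ S := by
  induction h with
  | refl =>
    have : vec (u, u) = 0 := by unfold vec; simp
    rw [this]; exact S.zero_mem
  | @tail b c _ hbc ih =>
    have : vec (u, c) = vec (u, b) + vec (b, c) := by unfold vec; simp
    rw [this]
    exact S.add_mem ih (hR _ _ hbc)

theorem lin_indep (A : Finset Pt) (a0 : Pt) :
    LinearIndependent ℚ (fun a : {x // x ∈ A.erase a0} => vec ((a : Pt), a0)) := by
  rw [Fintype.linearIndependent_iff]
  intro c hc i
  have h := congrFun hc (i : Pt)
  rw [Finset.sum_apply] at h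
  have hi : (i : Pt) ≠ a0 := Finset.ne_of_mem_erase i.2
  rw [Finset.sum_eq_single i] at h
  · simpa [vec, hi] using h
  · intro j _ hj
    have hji : (i : Pt) ≠ (j : Pt) := fun h => hj (Subtype.ext h.symm)
    simp [vec, hi, hji]
  · intro h'; exact absurd (Finset.mem_univ _) h'

theorem card_le_finrank (A : Finset Pt) (hA : A.Nonempty) (F : Finset (Pt → ℚ))
    (hF : ∀ a ∈ A, ∀ b ∈ A, vec (a, b) ∈ Submodule.span ℚ (F : Set (Pt → ℚ))) :
    A.card ≤ F.card + 1 := by
  obtain ⟨a0, ha0⟩ := hA
  have hli := lin_indep A a0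
  have h1 := finrank_span_eq_card hli
  have h2 : Submodule.span ℚ (Set.range (fun a : {x // x ∈ A.erase a0} => vec ((a : Pt), a0)))
      ≤ Submodule.span ℚ (F : Set (Pt → ℚ)) := by
    rw [Submodule.span_le]
    rintro _ ⟨a, rfl⟩
    exact hF a (Finset.mem_of_mem_erase a.2) a0 ha0
  have h3 := Submodule.finrank_mono h2
  have h4 : Module.finrank ℚ (Submodule.span ℚ (F : Set (Pt → ℚ))) ≤ F.card :=
    finrank_span_finset_le_card (R := ℚ) F
  rw [h1, Fintype.card_coe, Finset.card_erase_of_mem ha0] at h3
  omega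

end MSTo

open MSTo in
theorem t_MSTo (h1 : St_MSTb) (h2 : St_MSTc) : St_MSTo := by
  intro A φ hφ hφ0 H hH hconn
  rcases A.eq_empty_or_nonempty with rfl | hA
  · have : mst (∅ : Finset Pt) = ∅ := by simp [mst]
    rw [this]
    simpa using Finset.sum_nonneg fun e _ => hφ0 (ds e.1 e.2)
  refine dom_sum φ hφ hφ0 _ _ _ _ _ rfl ?_
  intro t
  set F : Finset (Pt → ℚ) := ((mst A).filter (fun e => ¬ t ≤ ds e.1 e.2)).image vec ∪
    (H.filter (fun e => t ≤ ds e.1 e.2)).image vec with hF
  have hspan : ∀ a ∈ A, ∀ b ∈ A, vec (a, b) ∈ Submodule.span ℚ (F : Set (Pt → ℚ)) := by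
    intro a ha b hb
    have hpair : ∀ e ∈ H, vec e ∈ Submodule.span ℚ (F : Set (Pt → ℚ)) := by
      intro e he
      by_cases ht : t ≤ ds e.1 e.2
      · apply Submodule.subset_span
        rw [hF, Finset.mem_coe, Finset.mem_union]
        exact Or.inr (Finset.mem_image_of_mem _ (Finset.mem_filter.2 ⟨he, ht⟩))
      · have hp := h1.2.2 A e.1 (hH e he).1 e.2 (hH e he).2
        refine vec_path _ _ ?_ hp
        rintro x y ⟨hxy, hd⟩
        have hd' : ¬ t ≤ ds x y := fun h => ht (h.trans hd)
        rcases hxy with hxy | hxy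
        · apply Submodule.subset_span
          rw [hF, Finset.mem_coe, Finset.mem_union]
          exact Or.inl (Finset.mem_image_of_mem _ (Finset.mem_filter.2 ⟨hxy, hd'⟩))
        · rw [vec_swap]
          apply Submodule.neg_mem
          apply Submodule.subset_span
          rw [hF, Finset.mem_coe, Finset.mem_union]
          refine Or.inl (Finset.mem_image_of_mem _ (Finset.mem_filter.2 ⟨hxy, ?_⟩))
          have : ds y x = ds x y := by
            unfold ds
            congr 1; ring
          rw [this]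
          exact hd'
    refine vec_path _ _ ?_ (hconn a ha b hb)
    rintro x y (hxy | hxy)
    · exact hpair _ hxy
    · rw [vec_swap]
      exact Submodule.neg_mem _ (hpair _ hxy)
  have h3 := card_le_finrank A hA F hspan
  have h4 := h2 A hA
  have h5 : F.card ≤ ((mst A).filter (fun e => ¬ t ≤ ds e.1 e.2)).card
      + (H.filter (fun e => t ≤ ds e.1 e.2)).card :=
    (Finset.card_union_le _ _).trans (add_le_add Finset.card_image_le Finset.card_image_le)
  have h6 := Finset.card_filter_add_card_filter_not (s := mst A) (fun e => t ≤ ds e.1 e.2)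
  omega

end Pool.Agent.H660R3.TS
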