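import Pool.Agent.H660R3.TS.T_MSTc

set_option autoImplicit false

open scoped Classical

namespace Pool.Agent.H660R3.TS

namespace MSTr

open MSTb MSTc

theorem mem_edges {V : Type} [Fintype V] (T : RTree V) (v : V) : v ∈ T.edges ↔ v ≠ T.root := by
  unfold RTree.edges
  simp

theorem exists_par (P : Finset Pt) (r v : {x // x ∈ P}) (hv : v ≠ r) :
    ∃ w, (Gr P).Adj v w ∧ (Gr P).dist w r < (Gr P).dist v r := by
  obtain ⟨p, hp⟩ := (Gr_reach P v r).exists_walk_length_eq_dist
  cases p with
  | nil => exact absurd rfl hv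
  | @cons _ w _ h p =>
    refine ⟨w, h, ?_⟩
    rw [← hp, SimpleGraph.Walk.length_cons]
    have := SimpleGraph.dist_le p
    omega

end MSTr

open MSTb MSTc MSTr in
theorem t_MSTr (_h1 : St_MSTb) (_h2 : St_MSTc) : St_MSTr := by
  intro P hP
  have hcard := t_MSTc t_MSTb P hP
  obtain ⟨r0, hr0⟩ := hP
  let r : {x // x ∈ P} := ⟨r0, hr0⟩
  have hpar := exists_par P r
  choose! par hadj hdist using hpar
  let T : RTree {x // x ∈ P} := {
    root := r
    par := fun v => if v = r then r else par v
    rk := fun v => (Gr P).dist v r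
    par_root := by simp
    rk_lt := by
      intro v hv
      rw [if_neg hv]
      exact hdist v hv }
  have hroot : T.root = r := rfl
  have hTpar : ∀ v, v ≠ T.root → T.par v = par v := fun v hv => if_neg hv
  have hTadj : ∀ v, v ≠ T.root → TAdj P v (T.par v) := by
    intro v hv
    rw [hTpar v hv]
    exact hadj v hv
  have hrk : ∀ v, v ≠ T.root → T.rk (T.par v) < T.rk v := T.rk_lt
  -- the map from vertices to edges
  let φ : {x // x ∈ P} → Pt × Pt := fun v =>
    if ((v : Pt), ((T.par v : {x // x ∈ P}) : Pt)) ∈ mst P then ((v : Pt), (T.par v : Pt))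
    else ((T.par v : Pt), (v : Pt))
  have hφmem : ∀ v ∈ T.edges, φ v ∈ mst P := by
    intro v hv
    rw [mem_edges] at hv
    have h := hTadj v hv
    simp only [φ]
    split_ifs with h1
    · exact h1
    · exact h.resolve_left h1
  have hφval : ∀ v, φ v = ((v : Pt), (T.par v : Pt)) ∨ φ v = ((T.par v : Pt), (v : Pt)) := by
    intro v
    simp only [φ]
    split_ifs
    · exact Or.inl rfl
    · exact Or.inr rfl
  have hφinj : Set.InjOn φ (T.edges : Set {x // x ∈ P}) := by
    intro v hv w hw he
    rw [Finset.mem_coe, mem_edges] at hv hw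
    have h1 := hrk v hv
    have h2 := hrk w hw
    have h3 : v = w ∨ (v = T.par w ∧ w = T.par v) := by
      rcases hφval v with e1 | e1 <;> rcases hφval w with e2 | e2 <;> rw [e1, e2, Prod.mk.injEq] at he
      · exact Or.inl (Subtype.ext he.1)
      · exact Or.inr ⟨Subtype.ext he.1, (Subtype.ext he.2).symm⟩
      · exact Or.inr ⟨Subtype.ext he.2, (Subtype.ext he.1).symm⟩
      · exact Or.inl (Subtype.ext he.2)
    rcases h3 with h3 | ⟨h3, h4⟩
    · exact h3
    · rw [← h4] at h1
      rw [← h3] at h2
      omega
  have hcardT : T.edges.card + 1 = P.card := by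
    have h1 : T.edges = Finset.univ.erase T.root := by
      ext v
      rw [mem_edges, Finset.mem_erase]
      simp
    rw [h1, Finset.card_erase_add_one (Finset.mem_univ _)]
    simp
  have hsurj : ∀ e ∈ mst P, ∃ v ∈ T.edges, φ v = e := by
    have himg : T.edges.image φ = mst P := by
      apply Finset.eq_of_subset_of_card_le
      · intro e he
        obtain ⟨v, hv, rfl⟩ := Finset.mem_image.1 he
        exact hφmem v hv
      · rw [Finset.card_image_of_injOn hφinj]
        omega
    intro e he
    rw [← himg] at he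
    exact Finset.mem_image.1 he
  refine ⟨T, hTadj, ?_, ?_⟩
  · intro x y hxy
    have key : ∀ x y : {x // x ∈ P}, ((x : Pt), (y : Pt)) ∈ mst P →
        (x ≠ T.root ∧ y = T.par x) ∨ (y ≠ T.root ∧ x = T.par y) := by
      intro x y h
      obtain ⟨v, hv, he⟩ := hsurj _ h
      rw [mem_edges] at hv
      rcases hφval v with e1 | e1 <;> rw [e1, Prod.mk.injEq] at he
      · left
        have e2 : v = x := Subtype.ext he.1
        subst e2
        exact ⟨hv, (Subtype.ext he.2).symm⟩
      · right
        have e2 : v = y := Subtype.ext he.2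
        subst e2
        exact ⟨hv, (Subtype.ext he.1).symm⟩
    rcases hxy with h | h
    · exact key x y h
    · exact (key y x h).symm
  · intro f hf
    symm
    apply Finset.sum_bij (fun v _ => φ v) hφmem
    · intro v hv w hw h
      exact hφinj (Finset.mem_coe.2 hv) (Finset.mem_coe.2 hw) h
    · intro e he
      obtain ⟨v, hv, h⟩ := hsurj e he
      exact ⟨v, hv, h⟩
    · intro v _
      rcases hφval v with e1 | e1
      · rw [e1]
      · rw [e1]; exact hf _ _

end Pool.Agent.H660R3.TS
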