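import Pool.Agent.H660R3.TS.T_EUL

/-!
# The MST is at most as long as every closed tour (task MT of helper660, written by helper226)
-/

set_option autoImplicit false

open scoped Classical

namespace Pool.Agent.H660R3.TS

namespace MT

open EUL

/-- consecutive pairs -/
def cp : List Pt → List (Pt × Pt)
  | [] => []
  | [_] => []
  | a :: b :: l => (a, b) :: cp (b :: l)

theorem mem_cp {l : List Pt} {e : Pt × Pt} (h : e ∈ cp l) : e.1 ∈ l ∧ e.2 ∈ l := by
  induction l with
  | nil => simp [cp] at h
  | cons a l ih =>
    cases l with
    | nil => simp [cp] at h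
    | cons b l =>
      rw [cp, List.mem_cons] at h
      rcases h with rfl | h
      · simp
      · obtain ⟨h1, h2⟩ := ih h
        exact ⟨List.mem_cons_of_mem _ h1, List.mem_cons_of_mem _ h2⟩

theorem sum_cp (l : List Pt) : ∑ e ∈ (cp l).toFinset, max (ds e.1 e.2) 0 ≤ wl l := by
  induction l with
  | nil => simp [cp, wl]
  | cons a l ih =>
    cases l with
    | nil => simp [cp, wl]
    | cons b l =>
      rw [cp, wl, List.toFinset_cons]
      by_cases h : (a, b) ∈ (cp (b :: l)).toFinset
      · rw [Finset.insert_eq_of_mem h]
        have := ds_nonneg a b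
        linarith
      · rw [Finset.sum_insert h, max_eq_left (ds_nonneg a b)]
        linarith

theorem conn_cp (l : List Pt) : ∀ a : Pt, ∀ v ∈ a :: l,
    Relation.ReflTransGen (fun x y => (x, y) ∈ cp (a :: l) ∨ (y, x) ∈ cp (a :: l)) a v := by
  induction l with
  | nil =>
    intro a v hv
    rw [List.mem_singleton] at hv
    rw [hv]
  | cons b l ih =>
    intro a v hv
    rw [List.mem_cons] at hv
    rcases hv with rfl | hv
    · exact Relation.ReflTransGen.refl
    · refine Relation.ReflTransGen.head (b := b) (Or.inl ?_) ?_
      · rw [cp]; exact List.mem_cons_self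
      · refine Relation.ReflTransGen.mono ?_ _ _ (ih b v hv)
        intro x y h
        rw [cp]
        rcases h with h | h
        · exact Or.inl (List.mem_cons_of_mem _ h)
        · exact Or.inr (List.mem_cons_of_mem _ h)

theorem rtg_symm {r : Pt → Pt → Prop} (hr : ∀ x y, r x y → r y x) {x y : Pt}
    (h : Relation.ReflTransGen r x y) : Relation.ReflTransGen r y x := by
  induction h with
  | refl => exact Relation.ReflTransGen.refl
  | tail _ h2 ih => exact Relation.ReflTransGen.head (hr _ _ h2) ih

theorem wl_append_le (l : List Pt) (a : Pt) : wl l ≤ wl (l ++ [a]) := by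
  induction l with
  | nil => simp [wl]
  | cons b l ih =>
    cases l with
    | nil => simp [wl, ds_nonneg]
    | cons c l =>
      have e1 : wl (b :: c :: l) = ds b c + wl (c :: l) := rfl
      have e2 : wl (b :: c :: l ++ [a]) = ds b c + wl (c :: l ++ [a]) := rfl
      rw [e1, e2]
      linarith

end MT

open EUL MT in
theorem t_MT (h : St_MSTo) : St_MT := by
  intro l _ hl
  obtain ⟨a, l, rfl⟩ := List.exists_cons_of_ne_nil hl
  have h1 := h (a :: l).toFinset (fun x => max x 0) (fun x y hxy => max_le_max_right 0 hxy)
    (fun x => le_max_right _ _) (cp (a :: l)).toFinset (by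
      intro e he
      rw [List.mem_toFinset] at he
      obtain ⟨h1, h2⟩ := mem_cp he
      exact ⟨List.mem_toFinset.2 h1, List.mem_toFinset.2 h2⟩) (by
      intro u hu v hv
      rw [List.mem_toFinset] at hu hv
      have hu' := conn_cp l a u hu
      have hv' := conn_cp l a v hv
      have h3 := (rtg_symm (fun x y h => Or.symm h) hu').trans hv'
      simpa only [List.mem_toFinset] using h3)
  have h2 := sum_cp (a :: l)
  have h3 : mstW (a :: l).toFinset ≤ ∑ e ∈ mst (a :: l).toFinset, max (ds e.1 e.2) 0 :=
    Finset.sum_le_sum fun e _ => le_max_left _ _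
  rw [tourLen_cons, ← List.cons_append]
  exact h3.trans (h1.trans (h2.trans (wl_append_le _ _)))

end Pool.Agent.H660R3.TS
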