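import Pool.Agent.H660R3.TS.Stubs2

/-!
# NEW: Newman's trick
-/

set_option autoImplicit false

namespace Pool.Agent.H660R3.TS

open scoped Classical

theorem t_NEW : St_NEW := by
  intro Ω Q _ _ _ bad n hQ hbad
  by_contra hcon
  push Not at hcon
  set N : ℝ := (Fintype.card Ω : ℝ) with hN
  have hNpos : 0 < N := by
    rw [hN]; exact_mod_cast Fintype.card_pos
  let T := 3 * (n + 1)
  -- weight of a function
  have hw : ∀ p : Q, (((Finset.univ : Finset (Fin T → Ω)).filter (fun f =>
      n + 1 < (Finset.univ.filter (fun i => bad (f i) p)).card)).card : ℝ) * 10 ^ (n + 2) ≤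
      (109 / 100 * N) ^ T := by
    intro p
    let w : Ω → ℝ := fun ω => if bad ω p then 10 else 1
    have hsum : ∑ ω, w ω ≤ 109 / 100 * N := by
      have h1 : ∀ ω, w ω = (if bad ω p then 9 else 0) + 1 := by
        intro ω
        simp only [w]
        split_ifs <;> norm_num
      rw [Finset.sum_congr rfl (fun ω _ => h1 ω)]
      simp only [Finset.sum_add_distrib, ← Finset.sum_filter, Finset.sum_const, nsmul_eq_mul,
        Finset.card_univ, mul_one]
      have h2 : (100 : ℝ) * ((Finset.univ.filter (fun ω => bad ω p)).card : ℝ) ≤ N := by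
        rw [hN]; exact_mod_cast hbad p
      rw [← hN]
      linarith
    have hw0 : ∀ ω, 0 ≤ w ω := by
      intro ω; simp only [w]; split_ifs <;> norm_num
    have hpow : ∀ f : Fin T → Ω, ∏ i, w (f i) =
        10 ^ (Finset.univ.filter (fun i => bad (f i) p)).card := by
      intro f
      simp only [w]
      rw [Finset.prod_ite]
      simp
    calc _ = ∑ f ∈ (Finset.univ : Finset (Fin T → Ω)).filter (fun f =>
          n + 1 < (Finset.univ.filter (fun i => bad (f i) p)).card), (10 : ℝ) ^ (n + 2) := by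
          rw [Finset.sum_const, nsmul_eq_mul]
      _ ≤ ∑ f ∈ (Finset.univ : Finset (Fin T → Ω)).filter (fun f =>
          n + 1 < (Finset.univ.filter (fun i => bad (f i) p)).card), ∏ i, w (f i) := by
          apply Finset.sum_le_sum
          intro f hf
          have h1 := (Finset.mem_filter.1 hf).2
          rw [hpow f]
          exact pow_le_pow_right₀ (by norm_num) h1
      _ ≤ ∑ f : Fin T → Ω, ∏ i, w (f i) :=
          Finset.sum_le_sum_of_subset_of_nonneg (Finset.filter_subset _ _)
            (fun f _ _ => Finset.prod_nonneg (fun i _ => hw0 _))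
      _ = (∑ ω, w ω) ^ T := (Fintype.sum_pow w T).symm
      _ ≤ (109 / 100 * N) ^ T :=
          pow_le_pow_left₀ (Finset.sum_nonneg (fun ω _ => hw0 ω)) hsum T
  -- union bound
  have hall : N ^ T ≤ ∑ p : Q, (((Finset.univ : Finset (Fin T → Ω)).filter (fun f =>
      n + 1 < (Finset.univ.filter (fun i => bad (f i) p)).card)).card : ℝ) := by
    have h1 : (Finset.univ : Finset (Fin T → Ω)) ⊆ (Finset.univ : Finset Q).biUnion (fun p =>
        (Finset.univ : Finset (Fin T → Ω)).filter (fun f =>
          n + 1 < (Finset.univ.filter (fun i => bad (f i) p)).card)) := by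
      intro f _
      obtain ⟨p, hp⟩ := hcon f
      exact Finset.mem_biUnion.2 ⟨p, Finset.mem_univ _, Finset.mem_filter.2 ⟨Finset.mem_univ _, hp⟩⟩
    have h2 := (Finset.card_le_card h1).trans Finset.card_biUnion_le
    rw [Finset.card_univ, Fintype.card_fun, Fintype.card_fin] at h2
    rw [hN]
    exact_mod_cast h2
  have hfin : N ^ T * 10 ^ (n + 2) ≤ 2 ^ n * (109 / 100 * N) ^ T := by
    calc N ^ T * 10 ^ (n + 2) ≤ (∑ p : Q, (((Finset.univ : Finset (Fin T → Ω)).filter (fun f =>
          n + 1 < (Finset.univ.filter (fun i => bad (f i) p)).card)).card : ℝ)) * 10 ^ (n + 2) :=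
          mul_le_mul_of_nonneg_right hall (by positivity)
      _ ≤ ∑ p : Q, (109 / 100 * N) ^ T := by
          rw [Finset.sum_mul]
          exact Finset.sum_le_sum (fun p _ => hw p)
      _ = (Fintype.card Q : ℝ) * (109 / 100 * N) ^ T := by
          rw [Finset.sum_const, nsmul_eq_mul, Finset.card_univ]
      _ ≤ 2 ^ n * (109 / 100 * N) ^ T := by
          apply mul_le_mul_of_nonneg_right _ (by positivity)
          exact_mod_cast hQ
  rw [mul_pow] at hfin
  have hNT : 0 < N ^ T := by positivity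
  have h3 : (10 : ℝ) ^ (n + 2) ≤ 2 ^ n * (109 / 100) ^ T := by
    have : N ^ T * 10 ^ (n + 2) ≤ N ^ T * (2 ^ n * (109 / 100) ^ T) := by
      calc _ ≤ _ := hfin
        _ = _ := by ring
    exact le_of_mul_le_mul_left this hNT
  have h4 : (109 / 100 : ℝ) ^ T ≤ 2 ^ (n + 1) := by
    show (109 / 100 : ℝ) ^ (3 * (n + 1)) ≤ 2 ^ (n + 1)
    rw [pow_mul]
    apply pow_le_pow_left₀ (by positivity)
    norm_num
  have h5 : (2 : ℝ) ^ n * 2 ^ (n + 1) < 10 ^ (n + 2) := by
    calc (2 : ℝ) ^ n * 2 ^ (n + 1) = 2 * 4 ^ n := by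
          rw [show (4 : ℝ) = 2 ^ 2 by norm_num, ← pow_mul]; ring
      _ ≤ 2 * 10 ^ n := by
          have := pow_le_pow_left₀ (by norm_num : (0 : ℝ) ≤ 4) (by norm_num : (4 : ℝ) ≤ 10) n
          linarith
      _ < 10 ^ (n + 2) := by
          rw [pow_add]
          have : (0 : ℝ) < 10 ^ n := by positivity
          nlinarith
  have h6 : (2 : ℝ) ^ n * (109 / 100) ^ T ≤ 2 ^ n * 2 ^ (n + 1) :=
    mul_le_mul_of_nonneg_left h4 (by positivity)
  linarith

end Pool.Agent.H660R3.TS
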