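import Pool.Agent.H660R3.TS.T_HB

set_option autoImplicit false
open scoped Classical

namespace Pool.Agent.H660R3.TS

open PROGX HBX in
theorem t_OV (hT : St_TRI) : St_OV := by
  intro V loc Mn S hMn
  have hne : {j | S.Ovf j}.Nonempty := ⟨S.n, Or.inl rfl⟩
  have hjo : S.Ovf S.jo := Nat.sInf_mem hne
  have htot : ∀ j < S.n, ∑ i ∈ Finset.range S.n, (S.bs i + S.dg i) + S.bet j ≤ S.muTot := by
    intro j hj
    unfold Strand.muTot
    rw [Finset.sum_add_distrib (f := fun i => 2 * (S.bs i + S.dg i))]
    refine add_le_add (Finset.sum_le_sum ?_) ?_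
    · intro i hi
      have := add_nonneg (bs_nonneg S (Finset.mem_range.mp hi)) (dg_nonneg S i)
      linarith
    · exact Finset.single_le_sum (f := fun i => S.bet i)
        (fun i hi => S.bet_nonneg i (Finset.mem_range.mp hi)) (Finset.mem_range.mpr hj)
  have hsum0 : 0 ≤ ∑ i ∈ Finset.range S.n, (S.bs i + S.dg i) :=
    Finset.sum_nonneg fun i hi => add_nonneg (bs_nonneg S (Finset.mem_range.mp hi)) (dg_nonneg S i)
  have hmu0 : 0 ≤ S.muTot := by
    have h1 := htot 0 S.n_pos
    have h2 := S.bet_nonneg 0 S.n_pos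
    linarith
  rcases hjo with h | ⟨hj, hH⟩
  · unfold Strand.tov
    rw [h]
    linarith
  · unfold Strand.tov
    set j := S.jo with hjdef
    set d := S.t S.n - S.t j with hd
    have hd0 : 0 < d := by
      have h1 := S.edge_long j hj
      have h2 := S.t_succ j hj
      have h3 := t_mono S (j := j + 1) (k := S.n) (by omega) le_rfl
      rw [hd]
      linarith
    have hle := S.H_le j hj
    obtain ⟨x, hxj, hxn, hx1, hx2⟩ := S.side j hj (by linarith)
    have hz0 : ‖loc (S.z 0) - loc (S.z j)‖ ≤ S.t j := by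
      have := t_dist' S (j := 0) (k := j) (by omega) hj.le
      rw [norm_sub_rev, S.t_zero, sub_zero] at this
      exact this
    have hzn : ‖loc (S.z S.n) - loc (S.z j)‖ ≤ d := t_dist' S hj.le le_rfl
    have hbj := S.bet_nonneg j hj
    have htj := htot j hj
    have hJn : Finset.range S.n ⊆ Finset.range S.n := Finset.Subset.refl _
    suffices h : d / 4 ≤ ∑ i ∈ Finset.range S.n, (S.bs i + S.dg i) + S.bet j by linarith
    rcases hT (loc x - loc (S.z j)) (loc (S.z 0) - loc (S.z j)) (loc (S.z S.n) - loc (S.z j))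
      (S.H j) (S.t j) d d hxn hz0 hzn hd0.le hH.le (by linarith) le_rfl with h1 | h1 | h1
    · have h2 := hx1 0 (by omega) (by omega)
      have h3 : (loc x - loc (S.z j)) - (loc (S.z 0) - loc (S.z j)) = loc x - loc (S.z 0) := by ring
      rw [h3] at h1
      rw [ys_sum' S (a := 0) (b := j) (by omega) hj.le, S.t_zero] at h2
      have h4 := bs_sub S (a := 0) (b := j) (J := Finset.range S.n)
        (by intro i hi; rw [Finset.mem_Ico] at hi; rw [Finset.mem_range]; omega) hJn
      linarith
    · have h2 := hx2 S.n le_rfl hj.le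
      have h3 : (loc x - loc (S.z j)) - (loc (S.z S.n) - loc (S.z j)) =
        loc x - loc (S.z S.n) := by ring
      rw [h3] at h1
      rw [ys_sum' S (a := j) (b := S.n) hj.le le_rfl] at h2
      have h4 := bs_sub S (a := j) (b := S.n) (J := Finset.range S.n)
        (by intro i hi; rw [Finset.mem_Ico] at hi; rw [Finset.mem_range]; omega) hJn
      linarith
    · have h2 := S.ypath (S.z 0) (S.z S.n)
        (by rw [S.att_z 0 (by omega), S.att_z S.n le_rfl]; omega)
      rw [S.att_z 0 (by omega), S.att_z S.n le_rfl, ys_sum' S (a := 0) (by omega) le_rfl,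
        S.t_zero] at h2
      have h3 : (loc (S.z 0) - loc (S.z j)) - (loc (S.z S.n) - loc (S.z j)) =
        loc (S.z 0) - loc (S.z S.n) := by ring
      rw [h3] at h1
      have h4 := bs_sub S (a := 0) (b := S.n) (J := Finset.range S.n)
        (by intro i hi; rw [Finset.mem_Ico] at hi; rw [Finset.mem_range]; omega) hJn
      linarith

end Pool.Agent.H660R3.TS
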