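import Pool.Agent.H660R3.TS.Stubs2

/-!
# P0: averages over functions
-/

set_option autoImplicit false

namespace Pool.Agent.H660R3.TS

open scoped Classical

theorem t_P0 : St_P0 := by
  intro ι A _ _ z F
  have h1 : ∑ ω : ι → A, F (ω z) =
      (∑ a, F a) * Fintype.card ({j // j ≠ z} → A) := by
    rw [Fintype.sum_equiv (Equiv.funSplitAt z A) (fun ω => F (ω z)) (fun p => F p.1)
      (fun ω => by simp [Equiv.funSplitAt])]
    rw [Fintype.sum_prod_type]
    simp only [Finset.sum_const, Finset.card_univ, nsmul_eq_mul]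
    rw [← Finset.mul_sum]
    ring
  have h2 : Fintype.card (ι → A) = Fintype.card A * Fintype.card ({j // j ≠ z} → A) := by
    rw [Fintype.card_congr (Equiv.funSplitAt z A), Fintype.card_prod]
  rw [h1, h2]
  push_cast
  ring

end Pool.Agent.H660R3.TS
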