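import Pool.Agent.H660R3.TS.T_P0

/-!
# P1: Chebyshev for sampled sums
-/

set_option autoImplicit false

namespace Pool.Agent.H660R3.TS

open scoped Classical

namespace P1

variable {ι A : Type} [Fintype ι] [Fintype A]

/-- two different coordinates, one of them of mean zero -/
theorem cross (z z' : ι) (hz : z ≠ z') (g h : A → ℝ) (hg : ∑ a, g a = 0) :
    ∑ ω : ι → A, g (ω z) * h (ω z') = 0 := by
  have h1 : ∑ ω : ι → A, g (ω z) * h (ω z') =
      ∑ p : A × ({j // j ≠ z} → A), g p.1 * h (p.2 ⟨z', hz.symm⟩) :=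
    Fintype.sum_equiv (Equiv.funSplitAt z A) _ _ (fun ω => by simp [Equiv.funSplitAt])
  rw [h1, Fintype.sum_prod_type]
  simp only [← Finset.mul_sum]
  rw [← Finset.sum_mul, hg, zero_mul]

/-- variance of a sum of functions of different coordinates -/
theorem var_sum {κ : Type} (O : Finset κ) (e : κ → ι) (he : Set.InjOn e O) (c : κ → ℝ) (g : A → ℝ)
    (hg : ∑ a, g a = 0) :
    (∑ ω : ι → A, (∑ Z ∈ O, c Z * g (ω (e Z))) ^ 2) * Fintype.card A =
      (∑ Z ∈ O, c Z ^ 2) * (∑ a, g a ^ 2) * Fintype.card (ι → A) := by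
  have h1 : ∑ ω : ι → A, (∑ Z ∈ O, c Z * g (ω (e Z))) ^ 2 =
      ∑ Z ∈ O, c Z ^ 2 * ∑ ω : ι → A, g (ω (e Z)) ^ 2 := by
    have h2 : ∀ ω : ι → A, (∑ Z ∈ O, c Z * g (ω (e Z))) ^ 2 =
        ∑ Z ∈ O, ∑ Z' ∈ O, c Z * c Z' * (g (ω (e Z)) * g (ω (e Z'))) := by
      intro ω
      rw [sq, Finset.sum_mul_sum]
      refine Finset.sum_congr rfl (fun Z _ => Finset.sum_congr rfl (fun Z' _ => ?_))
      ring
    rw [Finset.sum_congr rfl (fun ω _ => h2 ω), Finset.sum_comm]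
    apply Finset.sum_congr rfl
    intro Z hZ
    rw [Finset.sum_comm, Finset.sum_eq_single Z]
    · rw [Finset.mul_sum]
      refine Finset.sum_congr rfl (fun ω _ => ?_)
      ring
    · intro Z' hZ' hne
      rw [← Finset.mul_sum, cross (e Z) (e Z') (fun h => hne (he hZ hZ' h).symm) g g hg, mul_zero]
    · intro h; exact absurd hZ h
  rw [h1, Finset.sum_mul, Finset.sum_mul, Finset.sum_mul]
  apply Finset.sum_congr rfl
  intro Z _
  have h3 := t_P0 ι A (e Z) (fun a => g a ^ 2)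
  calc c Z ^ 2 * (∑ ω : ι → A, g (ω (e Z)) ^ 2) * (Fintype.card A : ℝ) =
      c Z ^ 2 * ((∑ ω : ι → A, g (ω (e Z)) ^ 2) * (Fintype.card A : ℝ)) := by ring
    _ = _ := by rw [h3]; ring

end P1

open P1 in
theorem t_P1 : St_P1 := by
  intro ι A _ _ O sel v vm τ j hA hsel hv hτ
  let g : A → ℝ := fun a => (if sel a then (2 : ℝ) ^ j else 0) - 1
  have hselr : ((Finset.univ.filter (fun a : A => sel a)).card : ℝ) * 2 ^ j = Fintype.card A := by
    exact_mod_cast hsel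
  set s : ℝ := ((Finset.univ.filter (fun a : A => sel a)).card : ℝ) with hs
  have hAr : (0 : ℝ) < Fintype.card A := by exact_mod_cast hA
  have hg0 : ∑ a, g a = 0 := by
    simp only [g, Finset.sum_sub_distrib, ← Finset.sum_filter, Finset.sum_const, nsmul_eq_mul,
      Finset.card_univ, mul_one]
    linarith
  have hg2 : ∑ a, g a ^ 2 ≤ 2 ^ j * Fintype.card A := by
    have h1 : ∀ a, g a ^ 2 = (if sel a then ((2 : ℝ) ^ j) ^ 2 - 2 * 2 ^ j else 0) + 1 := by
      intro a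
      simp only [g]
      split_ifs <;> ring
    rw [Finset.sum_congr rfl (fun a _ => h1 a)]
    simp only [Finset.sum_add_distrib, ← Finset.sum_filter, Finset.sum_const, nsmul_eq_mul,
      Finset.card_univ, mul_one]
    have h2 : s * (((2 : ℝ) ^ j) ^ 2 - 2 * 2 ^ j) = (2 : ℝ) ^ j * (s * 2 ^ j) - 2 * (s * 2 ^ j) := by
      ring
    rw [← hs, h2, hselr]
    linarith
  have hY : ∀ ω : ι → A, (2 : ℝ) ^ j * ∑ Z ∈ O.filter (fun Z => sel (ω Z)), v Z - ∑ Z ∈ O, v Z =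
      ∑ Z ∈ O, v Z * g (ω (id Z)) := by
    intro ω
    rw [Finset.mul_sum, Finset.sum_filter, ← Finset.sum_sub_distrib]
    refine Finset.sum_congr rfl (fun Z _ => ?_)
    simp only [g, id]
    split_ifs <;> ring
  have hvar := var_sum O id (Function.injective_id.injOn) v g hg0
  have hsq : ∑ ω : ι → A, (∑ Z ∈ O, v Z * g (ω (id Z))) ^ 2 ≤
      2 ^ j * O.card * vm ^ 2 * Fintype.card (ι → A) := by
    have h1 : ∑ Z ∈ O, v Z ^ 2 ≤ O.card * vm ^ 2 := by
      calc ∑ Z ∈ O, v Z ^ 2 ≤ ∑ Z ∈ O, vm ^ 2 :=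
            Finset.sum_le_sum (fun Z hZ => pow_le_pow_left₀ (hv Z hZ).1 (hv Z hZ).2 2)
        _ = O.card * vm ^ 2 := by rw [Finset.sum_const, nsmul_eq_mul]
    have h2 : (∑ ω : ι → A, (∑ Z ∈ O, v Z * g (ω (id Z))) ^ 2) * Fintype.card A ≤
        (2 ^ j * O.card * vm ^ 2 * Fintype.card (ι → A)) * Fintype.card A := by
      rw [hvar]
      have h3 : (∑ Z ∈ O, v Z ^ 2) * (∑ a, g a ^ 2) ≤
          (O.card * vm ^ 2) * (2 ^ j * Fintype.card A) :=
        mul_le_mul h1 hg2 (Finset.sum_nonneg (fun a _ => sq_nonneg _)) (by positivity)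
      calc _ ≤ (O.card * vm ^ 2) * (2 ^ j * Fintype.card A) * Fintype.card (ι → A) :=
            mul_le_mul_of_nonneg_right h3 (Nat.cast_nonneg _)
        _ = _ := by ring
    exact le_of_mul_le_mul_right h2 hAr
  refine le_trans ?_ hsq
  calc _ = ∑ ω ∈ Finset.univ.filter (fun ω : ι → A =>
        τ < |(2 : ℝ) ^ j * ∑ Z ∈ O.filter (fun Z => sel (ω Z)), v Z - ∑ Z ∈ O, v Z|), τ ^ 2 := by
        rw [Finset.sum_const, nsmul_eq_mul]
    _ ≤ ∑ ω ∈ Finset.univ.filter (fun ω : ι → A =>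
        τ < |(2 : ℝ) ^ j * ∑ Z ∈ O.filter (fun Z => sel (ω Z)), v Z - ∑ Z ∈ O, v Z|),
        (∑ Z ∈ O, v Z * g (ω (id Z))) ^ 2 := by
        apply Finset.sum_le_sum
        intro ω hω
        have h1 := (Finset.mem_filter.1 hω).2
        rw [hY ω] at h1
        rw [← sq_abs (∑ Z ∈ O, v Z * g (ω (id Z)))]
        exact pow_le_pow_left₀ hτ.le h1.le 2
    _ ≤ _ := Finset.sum_le_sum_of_subset_of_nonneg (Finset.filter_subset _ _)
        (fun ω _ _ => sq_nonneg _)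

end Pool.Agent.H660R3.TS
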