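import Pool.Agent.H660R3.TS.T_P1

/-!
# P2: mean deviation of empirical frequencies
-/

set_option autoImplicit false

namespace Pool.Agent.H660R3.TS

open scoped Classical

namespace P2

/-- residues are equidistributed -/
theorem card_res (σ k : ℕ) (hσ : 0 < σ) (U : Finset ℕ) (hU : U ⊆ Finset.range σ) :
    ((Finset.univ : Finset (Fin (σ * k))).filter (fun a : Fin (σ * k) => (a : ℕ) % σ ∈ U)).card = U.card * k := by
  have h1 : ((Finset.univ : Finset (Fin (σ * k))).filter (fun a : Fin (σ * k) => (a : ℕ) % σ ∈ U)).card =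
      (U ×ˢ Finset.range k).card := by
    symm
    apply Finset.card_bij (fun (p : ℕ × ℕ) (hp : p ∈ U ×ˢ Finset.range k) =>
      (⟨p.1 + σ * p.2, by
        obtain ⟨h1, h2⟩ := Finset.mem_product.1 hp
        have h3 := Finset.mem_range.1 (hU h1)
        have h4 := Finset.mem_range.1 h2
        calc p.1 + σ * p.2 < σ + σ * p.2 := by omega
          _ = σ * (p.2 + 1) := by ring
          _ ≤ σ * k := Nat.mul_le_mul_left _ h4⟩ : Fin (σ * k)))
    · intro p hp
      obtain ⟨h1, h2⟩ := Finset.mem_product.1 hp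
      have h3 := Finset.mem_range.1 (hU h1)
      simp only [Finset.mem_filter, Finset.mem_univ, true_and]
      rw [Nat.add_mul_mod_self_left, Nat.mod_eq_of_lt h3]
      exact h1
    · intro p hp q hq h
      obtain ⟨h1, h2⟩ := Finset.mem_product.1 hp
      obtain ⟨h1', h2'⟩ := Finset.mem_product.1 hq
      have h3 := Finset.mem_range.1 (hU h1)
      have h3' := Finset.mem_range.1 (hU h1')
      have h5 : p.1 + σ * p.2 = q.1 + σ * q.2 := by simpa using congrArg Fin.val h
      have h6 : p.1 = q.1 := by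
        have := congrArg (· % σ) h5
        simp only [Nat.add_mul_mod_self_left] at this
        rwa [Nat.mod_eq_of_lt h3, Nat.mod_eq_of_lt h3'] at this
      have h7 : p.2 = q.2 := by
        rw [h6] at h5
        exact Nat.eq_of_mul_eq_mul_left hσ (by omega)
      exact Prod.ext h6 h7
    · intro a ha
      have ha' := (Finset.mem_filter.1 ha).2
      refine ⟨((a : ℕ) % σ, (a : ℕ) / σ), Finset.mem_product.2 ⟨ha', Finset.mem_range.2 ?_⟩, ?_⟩
      · exact Nat.div_lt_of_lt_mul a.2
      · apply Fin.ext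
        simp only
        exact Nat.mod_add_div _ _
  rw [h1, Finset.card_product, Finset.card_range]

end P2

open P1 P2 in
theorem t_P2 : St_P2 := by
  intro κ _ R σ SM g U hg hR hσ hdvd hSM hU
  obtain ⟨k, rfl⟩ := hdvd
  have hk : 0 < k := Nat.pos_of_mul_pos_left hSM |> fun h => by
    rcases Nat.eq_zero_or_pos k with h0 | h0
    · subst h0; simp at hSM
    · exact h0
  set p : ℝ := (U.card : ℝ) / σ with hp
  have hσr : (0 : ℝ) < σ := by exact_mod_cast hσ
  have hRr : (0 : ℝ) < R := by exact_mod_cast hR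
  have hkr : (0 : ℝ) < k := by exact_mod_cast hk
  have hUσ : U.card ≤ σ := by
    have := Finset.card_le_card hU
    rwa [Finset.card_range] at this
  have hp0 : 0 ≤ p := by positivity
  have hp1 : p ≤ 1 := by
    rw [hp, div_le_one hσr]; exact_mod_cast hUσ
  let h : Fin (σ * k) → ℝ := fun a => (if (a : ℕ) % σ ∈ U then 1 else 0) - p
  have hcardA : (Fintype.card (Fin (σ * k)) : ℝ) = σ * k := by simp
  have hsel : (((Finset.univ : Finset (Fin (σ * k))).filter (fun a : Fin (σ * k) => (a : ℕ) % σ ∈ U)).card : ℝ) =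
      p * (σ * k) := by
    rw [card_res σ k hσ U hU, hp]
    push_cast
    field_simp
  have hh0 : ∑ a, h a = 0 := by
    simp only [h, Finset.sum_sub_distrib, ← Finset.sum_filter, Finset.sum_const, nsmul_eq_mul,
      Finset.card_univ, mul_one]
    rw [hsel, hcardA]
    ring
  have hh2 : ∑ a, h a ^ 2 ≤ (σ * k) * (1 / 4) := by
    have h1 : ∀ a, h a ^ 2 = (if (a : ℕ) % σ ∈ U then 1 - 2 * p else 0) + p ^ 2 := by
      intro a
      simp only [h]
      split_ifs <;> ring
    rw [Finset.sum_congr rfl (fun a _ => h1 a)]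
    simp only [Finset.sum_add_distrib, ← Finset.sum_filter, Finset.sum_const, nsmul_eq_mul,
      Finset.card_univ]
    rw [hsel, hcardA]
    have h2 : p * (σ * k) * (1 - 2 * p) + σ * k * p ^ 2 = (σ * k) * (p * (1 - p)) := by ring
    rw [h2]
    apply mul_le_mul_of_nonneg_left _ (by positivity)
    nlinarith [sq_nonneg (p - 1 / 2)]
  -- the deviation as a sum
  have hY : ∀ r : κ → Fin (σ * k), (σ : ℝ) * ((Finset.univ.filter (fun i : Fin R =>
      ((r (g i) : ℕ) % σ) ∈ U)).card : ℝ) / R - U.card =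
      ∑ i ∈ (Finset.univ : Finset (Fin R)), ((σ : ℝ) / R) * h (r (g i)) := by
    intro r
    rw [← Finset.mul_sum]
    simp only [h, Finset.sum_sub_distrib, ← Finset.sum_filter, Finset.sum_const, nsmul_eq_mul,
      Finset.card_univ, mul_one, Fintype.card_fin]
    rw [hp]
    field_simp
  have hvar := var_sum (ι := κ) (Finset.univ : Finset (Fin R)) g (hg.injOn) (fun _ => (σ : ℝ) / R)
    h hh0
  have hS2 : ∑ r : κ → Fin (σ * k), (∑ i ∈ (Finset.univ : Finset (Fin R)),
      ((σ : ℝ) / R) * h (r (g i))) ^ 2 ≤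
      Fintype.card (κ → Fin (σ * k)) * ((σ : ℝ) ^ 2 / (4 * R)) := by
    have hpos : (0 : ℝ) < Fintype.card (Fin (σ * k)) := by rw [hcardA]; positivity
    have h1 : (∑ r : κ → Fin (σ * k), (∑ i ∈ (Finset.univ : Finset (Fin R)),
      ((σ : ℝ) / R) * h (r (g i))) ^ 2) * Fintype.card (Fin (σ * k)) ≤
      (Fintype.card (κ → Fin (σ * k)) * ((σ : ℝ) ^ 2 / (4 * R))) *
        Fintype.card (Fin (σ * k)) := by
      rw [hvar]
      simp only [Finset.sum_const, nsmul_eq_mul, Finset.card_univ, Fintype.card_fin]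
      have h2 : (R : ℝ) * ((σ : ℝ) / R) ^ 2 * (∑ a, h a ^ 2) ≤
          (R : ℝ) * ((σ : ℝ) / R) ^ 2 * ((σ * k) * (1 / 4)) :=
        mul_le_mul_of_nonneg_left hh2 (by positivity)
      have h3 := mul_le_mul_of_nonneg_right h2
        (Nat.cast_nonneg (α := ℝ) (Fintype.card (κ → Fin (σ * k))))
      refine le_trans h3 (le_of_eq ?_)
      push_cast
      field_simp
    exact le_of_mul_le_mul_right h1 hpos
  -- Cauchy-Schwarz
  have hCS : (∑ r : κ → Fin (σ * k), |∑ i ∈ (Finset.univ : Finset (Fin R)),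
      ((σ : ℝ) / R) * h (r (g i))|) ^ 2 ≤
      (Fintype.card (κ → Fin (σ * k)) * ((σ : ℝ) / Real.sqrt R)) ^ 2 := by
    have h1 := sq_sum_le_card_mul_sum_sq (s := (Finset.univ : Finset (κ → Fin (σ * k))))
      (f := fun r => |∑ i ∈ (Finset.univ : Finset (Fin R)), ((σ : ℝ) / R) * h (r (g i))|)
    refine le_trans h1 ?_
    simp only [sq_abs, Finset.card_univ]
    have h2 : ((σ : ℝ) / Real.sqrt R) ^ 2 = (σ : ℝ) ^ 2 / R := by
      rw [div_pow, Real.sq_sqrt hRr.le]
    rw [mul_pow, h2]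
    set N : ℝ := (Fintype.card (κ → Fin (σ * k)) : ℝ)
    have hN : 0 ≤ N := Nat.cast_nonneg _
    calc N * ∑ r : κ → Fin (σ * k), (∑ i ∈ (Finset.univ : Finset (Fin R)),
          ((σ : ℝ) / R) * h (r (g i))) ^ 2 ≤ N * (N * ((σ : ℝ) ^ 2 / (4 * R))) :=
          mul_le_mul_of_nonneg_left hS2 hN
      _ ≤ N ^ 2 * ((σ : ℝ) ^ 2 / R) := by
          have h3 : (σ : ℝ) ^ 2 / (4 * R) ≤ (σ : ℝ) ^ 2 / R := by
            apply div_le_div_of_nonneg_left (by positivity) hRr
            linarith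
          calc N * (N * ((σ : ℝ) ^ 2 / (4 * R))) = N ^ 2 * ((σ : ℝ) ^ 2 / (4 * R)) := by ring
            _ ≤ _ := mul_le_mul_of_nonneg_left h3 (by positivity)
  simp only [hY]
  exact (sq_le_sq₀ (Finset.sum_nonneg (fun _ _ => abs_nonneg _)) (by positivity)).1 hCS

end Pool.Agent.H660R3.TS
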