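import Pool.Agent.H660R3.TS.Stubs2

/-!
# P3: few unit annuli around `c` meet a given small box
-/

set_option autoImplicit false

open scoped Classical

namespace Pool.Agent.H660R3.TS

namespace P3

theorem meets_le (D' : ℕ) (Z' c : Pt) (ρ ρ' : ℕ) (h : Meets D' Z' c ρ) (h' : Meets D' Z' c ρ') :
    ρ' ≤ ρ + 2 * D' + 1 := by
  obtain ⟨p, h1, h2, h3, h4, h5, h6⟩ := h
  obtain ⟨q, g1, g2, g3, g4, g5, g6⟩ := h'
  have k1 : ‖q - p‖ ≤ 2 * D' := by
    refine le_trans (Complex.norm_le_abs_re_add_abs_im _) ?_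
    rw [Complex.sub_re, Complex.sub_im]
    have a1 : |q.re - p.re| ≤ D' := by
      rw [abs_le]; constructor <;> nlinarith
    have a2 : |q.im - p.im| ≤ D' := by
      rw [abs_le]; constructor <;> nlinarith
    linarith
  have k2 : ‖q - pt c‖ ≤ ‖q - p‖ + ‖p - pt c‖ := by
    have : q - pt c = (q - p) + (p - pt c) := by ring
    rw [this]; exact norm_add_le _ _
  have k3 : (ρ' : ℝ) ≤ ρ + 2 * D' + 1 := by linarith
  exact_mod_cast k3

end P3

theorem t_P3 : St_P3 := by
  intro D' σ a Z' c hD
  set F := (Finset.range σ).filter (fun r => Meets D' Z' c (a * σ + r)) with hF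
  rcases F.eq_empty_or_nonempty with h | h
  · rw [h]; simp
  · have hsub : F ⊆ Finset.Icc (F.min' h) (F.min' h + (2 * D' + 1)) := by
      intro r hr
      rw [Finset.mem_Icc]
      refine ⟨Finset.min'_le _ _ hr, ?_⟩
      have h1 := (Finset.mem_filter.1 (Finset.min'_mem F h)).2
      have h2 := (Finset.mem_filter.1 hr).2
      have := P3.meets_le D' Z' c _ _ h1 h2
      omega
    have := Finset.card_le_card hsub
    rw [Nat.card_Icc] at this
    omega

end Pool.Agent.H660R3.TS
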