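import Pool.Agent.H660R3.TS.Stubs2

/-!
# PA1: contents of sampled boxes
-/

set_option autoImplicit false

open scoped Classical

namespace Pool.Agent.H660R3.TS

namespace PA1

theorem div_rd (σ k x : ℕ) (hσ : 0 < σ) : x / σ * σ / (σ * k) = x / (σ * k) := by
  rw [← Nat.div_div_eq_div_mul, Nat.mul_div_cancel _ hσ, Nat.div_div_eq_div_mul]

theorem bx_rd (D σ : ℕ) (hσ : 0 < σ) (hd : σ ∣ D) (x : Pt) : bx D (rd σ x) = bx D x := by
  obtain ⟨k, rfl⟩ := hd
  simp only [bx, rd, div_rd σ k _ hσ]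

theorem DD_dvd (β N u m : ℕ) : DD β N u (m - 2) ∣ DD β N u m := by
  unfold DD
  apply pow_dvd_pow
  have : N * (m - 2) ≤ N * m := Nat.mul_le_mul_left _ (Nat.sub_le _ _)
  omega

theorem mem_skt {κ : Pt → Option Pt} {cap : ℕ} {X C : Finset Pt} (h : skt κ cap X = some C)
    (y : Pt) : y ∈ C ↔ ∃ x ∈ X, κ x = some y := by
  unfold skt at h
  split_ifs at h with h1
  simp only [Option.some.injEq] at h
  rw [← h, Finset.mem_eraseNone, Finset.mem_image]

end PA1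

open PA1 in
theorem t_PA1 : St_PA1 := by
  intro β N u J cap1 m j ω X C hβ hm hC
  have hmem : ∀ y, y ∈ C ↔ ∃ x ∈ X, Sel J ω m j (bx (DD β N u m) x) ∧ rd (DD β N u (m - 2)) x = y := by
    intro y
    rw [mem_skt hC]
    constructor
    · rintro ⟨x, hx, hy⟩
      unfold K1 at hy
      split_ifs at hy with h1
      exact ⟨x, hx, h1, by simpa using hy⟩
    · rintro ⟨x, hx, h1, h2⟩
      refine ⟨x, hx, ?_⟩
      unfold K1
      rw [if_pos h1, h2]
  have hσ : 0 < DD β N u (m - 2) := by unfold DD; positivity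
  have hbx : ∀ x, bx (DD β N u m) (rd (DD β N u (m - 2)) x) = bx (DD β N u m) x :=
    bx_rd _ _ hσ (DD_dvd β N u m)
  constructor
  · intro Z hZ
    ext y
    simp only [Qc, Finset.mem_filter, Finset.mem_image]
    constructor
    · rintro ⟨h1, h2⟩
      obtain ⟨x, hx, h3, h4⟩ := (hmem y).1 h1
      refine ⟨x, ⟨hx, ?_⟩, h4⟩
      rw [← hbx, h4, h2]
    · rintro ⟨x, ⟨hx, h1⟩, h2⟩
      refine ⟨(hmem y).2 ⟨x, hx, by rw [h1]; exact hZ, h2⟩, ?_⟩
      rw [← h2, hbx, h1]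
  · ext Z
    simp only [Finset.mem_filter, Finset.mem_image]
    constructor
    · rintro ⟨y, hy, h1⟩
      obtain ⟨x, hx, h3, h4⟩ := (hmem y).1 hy
      rw [← h4, hbx] at h1
      exact ⟨⟨x, hx, h1⟩, by rw [← h1]; exact h3⟩
    · rintro ⟨⟨x, hx, h1⟩, h2⟩
      refine ⟨rd (DD β N u (m - 2)) x, (hmem _).2 ⟨x, hx, by rw [h1]; exact h2, rfl⟩, ?_⟩
      rw [hbx, h1]

end Pool.Agent.H660R3.TS
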