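import Pool.Agent.H660R3.TS.Stubs2

/-! Task PA2 (helper417): stored circle neighbourhoods decide hits. -/

set_option autoImplicit false

open scoped Classical

namespace Pool.Agent.H660R3.TS

namespace PA2

theorem ds_eq (p q : Pt) : ds p q = ‖pt p - pt q‖ := by
  unfold ds pt
  rw [Complex.norm_eq_sqrt_sq_add_sq]
  simp

theorem line_pt (c c' : ℂ) (t : ℝ) (ht : 0 ≤ t) :
    ∃ p : ℂ, ‖p - c‖ = t ∧ ‖p - c'‖ = |t - ‖c - c'‖| := by
  by_cases h : c = c'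
  · subst h
    refine ⟨c + (t : ℂ), ?_, ?_⟩
    · rw [add_sub_cancel_left, Complex.norm_real, Real.norm_eq_abs, abs_of_nonneg ht]
    · rw [add_sub_cancel_left, Complex.norm_real, Real.norm_eq_abs, sub_self, norm_zero, sub_zero]
  · have hδ : 0 < ‖c - c'‖ := norm_pos_iff.2 (sub_ne_zero.2 h)
    set δ := ‖c - c'‖ with hδd
    have hcc : ‖c' - c‖ = δ := by rw [hδd, norm_sub_rev]
    refine ⟨c + ((t / δ : ℝ) : ℂ) * (c' - c), ?_, ?_⟩
    · rw [add_sub_cancel_left, norm_mul, Complex.norm_real, Real.norm_eq_abs, hcc,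
        abs_of_nonneg (div_nonneg ht hδ.le), div_mul_cancel₀ _ hδ.ne']
    · have e : c + ((t / δ : ℝ) : ℂ) * (c' - c) - c' = ((t / δ - 1 : ℝ) : ℂ) * (c' - c) := by
        push_cast
        ring
      rw [e, norm_mul, Complex.norm_real, Real.norm_eq_abs, hcc]
      have e2 : |t - δ| = |(t / δ - 1) * δ| := by
        congr 1
        rw [sub_mul, div_mul_cancel₀ _ hδ.ne', one_mul]
      rw [e2, abs_mul, abs_of_pos hδ]

theorem exists_pt (c c' : Pt) (ρ : ℕ) (r : ℝ) (hr : 0 ≤ r) (h : Hits c ρ c' r) :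
    ∃ p : ℂ, (ρ : ℝ) ≤ ‖p - pt c‖ ∧ ‖p - pt c‖ ≤ (ρ : ℝ) + 1 ∧ ‖p - pt c'‖ ≤ r := by
  unfold Hits at h
  push Not at h
  rw [ds_eq] at h
  obtain ⟨h1, h2⟩ := h
  have hρ : (0 : ℝ) ≤ ρ := Nat.cast_nonneg ρ
  set δ := ‖pt c - pt c'‖ with hδ
  have hδ0 : 0 ≤ δ := norm_nonneg _
  rcases lt_or_ge δ ρ with h3 | h3
  · obtain ⟨p, hp1, hp2⟩ := line_pt (pt c) (pt c') ρ hρ
    refine ⟨p, by rw [hp1], by rw [hp1]; linarith, ?_⟩
    rw [hp2, ← hδ, abs_le]
    constructor <;> linarith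
  · rcases lt_or_ge ((ρ : ℝ) + 1) δ with h4 | h4
    · obtain ⟨p, hp1, hp2⟩ := line_pt (pt c) (pt c') ((ρ : ℝ) + 1) (by linarith)
      refine ⟨p, by rw [hp1]; linarith, by rw [hp1], ?_⟩
      rw [hp2, ← hδ, abs_le]
      constructor <;> linarith
    · obtain ⟨p, hp1, hp2⟩ := line_pt (pt c) (pt c') δ hδ0
      refine ⟨p, by rw [hp1]; exact h3, by rw [hp1]; exact h4, ?_⟩
      rw [hp2, ← hδ, sub_self, abs_zero]
      exact hr

theorem inner_ball (β D : ℕ) (Z c : Pt) (hβ : 0 < β) (hI : Inner β D Z c) (r : ℝ)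
    (hr : β * r ≤ D) (p : ℂ) (hp : ‖p - pt c‖ ≤ r) :
    (Z.1 : ℝ) * D ≤ p.re ∧ p.re ≤ ((Z.1 : ℝ) + 1) * D ∧
    (Z.2 : ℝ) * D ≤ p.im ∧ p.im ≤ ((Z.2 : ℝ) + 1) * D := by
  obtain ⟨i1, i2, i3, i4⟩ := hI
  have hβ' : (0 : ℝ) < β := by exact_mod_cast hβ
  have j1 : (β : ℝ) * (Z.1 * D) + D ≤ β * c.1 := by exact_mod_cast i1
  have j2 : (β : ℝ) * c.1 + D ≤ β * ((Z.1 + 1) * D) := by exact_mod_cast i2
  have j3 : (β : ℝ) * (Z.2 * D) + D ≤ β * c.2 := by exact_mod_cast i3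
  have j4 : (β : ℝ) * c.2 + D ≤ β * ((Z.2 + 1) * D) := by exact_mod_cast i4
  have k1 := (Complex.abs_re_le_norm (p - pt c)).trans hp
  have k2 := (Complex.abs_im_le_norm (p - pt c)).trans hp
  have e1 : (p - pt c).re = p.re - c.1 := by simp [pt]
  have e2 : (p - pt c).im = p.im - c.2 := by simp [pt]
  rw [e1, abs_le] at k1
  rw [e2, abs_le] at k2
  refine ⟨?_, ?_, ?_, ?_⟩
  · have : (β : ℝ) * ((Z.1 : ℝ) * D) ≤ β * p.re := by nlinarith [k1.1]
    exact le_of_mul_le_mul_left this hβ'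
  · have : (β : ℝ) * p.re ≤ β * (((Z.1 : ℝ) + 1) * D) := by nlinarith [k1.2]
    exact le_of_mul_le_mul_left this hβ'
  · have : (β : ℝ) * ((Z.2 : ℝ) * D) ≤ β * p.im := by nlinarith [k2.1]
    exact le_of_mul_le_mul_left this hβ'
  · have : (β : ℝ) * p.im ≤ β * (((Z.2 : ℝ) + 1) * D) := by nlinarith [k2.2]
    exact le_of_mul_le_mul_left this hβ'

theorem inner_ball_lt (β D : ℕ) (Z c : Pt) (hβ : 0 < β) (hI : Inner β D Z c) (r : ℝ)
    (hr : β * r < D) (p : ℂ) (hp : ‖p - pt c‖ ≤ r) :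
    (Z.1 : ℝ) * D < p.re ∧ p.re < ((Z.1 : ℝ) + 1) * D ∧
    (Z.2 : ℝ) * D < p.im ∧ p.im < ((Z.2 : ℝ) + 1) * D := by
  obtain ⟨i1, i2, i3, i4⟩ := hI
  have hβ' : (0 : ℝ) < β := by exact_mod_cast hβ
  have j1 : (β : ℝ) * (Z.1 * D) + D ≤ β * c.1 := by exact_mod_cast i1
  have j2 : (β : ℝ) * c.1 + D ≤ β * ((Z.1 + 1) * D) := by exact_mod_cast i2
  have j3 : (β : ℝ) * (Z.2 * D) + D ≤ β * c.2 := by exact_mod_cast i3
  have j4 : (β : ℝ) * c.2 + D ≤ β * ((Z.2 + 1) * D) := by exact_mod_cast i4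
  have k1 := (Complex.abs_re_le_norm (p - pt c)).trans hp
  have k2 := (Complex.abs_im_le_norm (p - pt c)).trans hp
  have e1 : (p - pt c).re = p.re - c.1 := by simp [pt]
  have e2 : (p - pt c).im = p.im - c.2 := by simp [pt]
  rw [e1, abs_le] at k1
  rw [e2, abs_le] at k2
  refine ⟨?_, ?_, ?_, ?_⟩
  · have : (β : ℝ) * ((Z.1 : ℝ) * D) < β * p.re := by nlinarith [k1.1]
    exact lt_of_mul_lt_mul_left this hβ'.le
  · have : (β : ℝ) * p.re < β * (((Z.1 : ℝ) + 1) * D) := by nlinarith [k1.2]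
    exact lt_of_mul_lt_mul_left this hβ'.le
  · have : (β : ℝ) * ((Z.2 : ℝ) * D) < β * p.im := by nlinarith [k2.1]
    exact lt_of_mul_lt_mul_left this hβ'.le
  · have : (β : ℝ) * p.im < β * (((Z.2 : ℝ) + 1) * D) := by nlinarith [k2.2]
    exact lt_of_mul_lt_mul_left this hβ'.le

/-- nested intervals -/
theorem nest (K D' z z' : ℕ) (y : ℝ) (h1 : (z : ℝ) * ((K * D' : ℕ) : ℝ) < y)
    (h2 : y < ((z : ℝ) + 1) * ((K * D' : ℕ) : ℝ)) (h3 : (z' : ℝ) * D' ≤ y)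
    (h4 : y ≤ ((z' : ℝ) + 1) * D') : z' / K = z := by
  have a1 : (z : ℝ) * ((K * D' : ℕ) : ℝ) < ((z' : ℝ) + 1) * D' := lt_of_lt_of_le h1 h4
  have a2 : (z' : ℝ) * D' < ((z : ℝ) + 1) * ((K * D' : ℕ) : ℝ) := lt_of_le_of_lt h3 h2
  have b1 : z * (K * D') < (z' + 1) * D' := by exact_mod_cast a1
  have b2 : z' * D' < (z + 1) * (K * D') := by exact_mod_cast a2
  rw [← mul_assoc] at b1 b2
  have c1 : z * K < z' + 1 := Nat.lt_of_mul_lt_mul_right b1
  have c2 : z' < (z + 1) * K := Nat.lt_of_mul_lt_mul_right b2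
  exact Nat.div_eq_of_lt_le (by omega) c2

/-- rounding does not change the box -/
theorem bx_rd (σ D : ℕ) (x : Pt) (hσ : 0 < σ) (h : σ ∣ D) : bx D (rd σ x) = bx D x := by
  obtain ⟨K, rfl⟩ := h
  unfold bx rd
  have key : ∀ n : ℕ, n / σ * σ / (σ * K) = n / (σ * K) := by
    intro n
    rw [← Nat.div_div_eq_div_mul, ← Nat.div_div_eq_div_mul, Nat.mul_div_cancel _ hσ]
  simp only [key]

end PA2

open PA2 in
theorem t_PA2 : St_PA2 := by
  intro β N u J cap2 m j a i m' ω X SS Z c hβ hN hm' hmm hsel hcand hT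
  have hβ0 : 0 < β := by omega
  have hDpos : ∀ n, 0 < DD β N u n := fun n => by unfold DD; positivity
  have hDdvd : ∀ n n', n ≤ n' → DD β N u n ∣ DD β N u n' := by
    intro n n' h
    unfold DD
    apply pow_dvd_pow
    have := Nat.mul_le_mul_left N h
    omega
  set D := DD β N u m with hD
  set σ := DD β N u (m - 2) with hσ
  set D' := DD β N u m' with hD'
  set σ' := DD β N u (m' - 2) with hσ'
  set e := cidx β N u m Z c with he
  have hσ0 : 0 < σ := hDpos _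
  have hσ'0 : 0 < σ' := hDpos _
  have hσD : σ ∣ D := hDdvd _ _ (by omega)
  have hσ'D : σ' ∣ D := hDdvd _ _ (by omega)
  have hσ'D' : σ' ∣ D' := hDdvd _ _ (by omega)
  have hD'D : D' ∣ D := hDdvd _ _ (by omega)
  unfold cands at hcand
  rw [Finset.mem_filter] at hcand
  obtain ⟨_, hc1, hc2, hc3, hc4, hc5, hc6⟩ := hcand
  simp only at hc1 hc2 hc3 hc4
  -- (1) the corner
  have hctr : ctr β N u m Z e = c := by
    unfold Qc at hc1
    rw [Finset.mem_image] at hc1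
    obtain ⟨x, hx, rfl⟩ := hc1
    rw [Finset.mem_filter] at hx
    obtain ⟨_, hx2⟩ := hx
    have key : ∀ n z : ℕ, n / D = z → z * D + (n / σ * σ - z * D) / σ * σ = n / σ * σ := by
      intro n z hnz
      obtain ⟨K, hK⟩ := hσD
      have h1 : z * D ≤ n := by rw [← hnz]; exact Nat.div_mul_le_self n D
      have h2 : z * D ≤ n / σ * σ := by
        rw [hK]
        have h3 : z * (σ * K) = z * K * σ := by ring
        rw [h3]
        apply Nat.mul_le_mul_right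
        rw [Nat.le_div_iff_mul_le hσ0, ← h3, ← hK]
        exact h1
      have h4 : σ ∣ n / σ * σ - z * D :=
        Nat.dvd_sub (Dvd.intro_left _ rfl) (Dvd.dvd.mul_left ⟨K, hK⟩ z)
      rw [Nat.div_mul_cancel h4]
      omega
    unfold ctr
    rw [he]
    unfold cidx
    rw [← hD, ← hσ]
    unfold rd
    have hz1 : x.1 / D = Z.1 := congrArg Prod.fst hx2
    have hz2 : x.2 / D = Z.2 := congrArg Prod.snd hx2
    apply Prod.ext
    · exact key x.1 Z.1 hz1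
    · exact key x.2 Z.2 hz2
  refine ⟨hctr, ?_⟩
  set ρ := rad β N u ω m Z e a i with hρ
  have hρ2 : ρ + 1 ≤ (a + 1) * σ := by
    rw [hρ]
    unfold rad
    rw [← hσ]
    have := Nat.mod_lt (ω.r m Z e a i) hσ0
    have e1 : (a + 1) * σ = a * σ + σ := by ring
    rw [e1]
    omega
  -- (3) a hit by a candidate of any content
  have h3 : ∀ (Q' : Finset Pt) (Z' c' : Pt) (a' : ℕ),
      Cand β (DD β N u (m' - 1)) D' σ' Q' Z' c' a' → Hits c ρ c' (((a' : ℝ) + 1) * σ') →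
      Meets D' Z' c ρ ∧ ∀ x : Pt, bx D' x = Z' → bx D x = Z := by
    intro Q' Z' c' a' hC hH
    obtain ⟨-, g2, -, g4, -, -⟩ := hC
    obtain ⟨p, hp1, hp2, hp3⟩ := exists_pt c c' ρ _ (by positivity) hH
    have hpow : β ≤ β ^ 10 := Nat.le_self_pow (by norm_num) β
    have hr' : (β : ℝ) * (((a' : ℝ) + 1) * σ') ≤ D' := by
      have : β * ((a' + 1) * σ') ≤ D' := by
        calc β * ((a' + 1) * σ') = (a' + 1) * σ' * β := by ring
          _ ≤ (a' + 1) * σ' * β ^ 10 := Nat.mul_le_mul_left _ hpow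
          _ ≤ D' := g4
      exact_mod_cast this
    have hbox := inner_ball β D' Z' c' hβ0 g2 _ hr' p hp3
    refine ⟨⟨p, hbox.1, hbox.2.1, hbox.2.2.1, hbox.2.2.2, hp1, hp2⟩, ?_⟩
    have hr : (β : ℝ) * ((ρ : ℝ) + 1) < D := by
      have h5 : β * (ρ + 1) < D := by
        have h6 : β < β ^ 10 := by
          calc β = β ^ 1 := (pow_one β).symm
            _ < β ^ 10 := Nat.pow_lt_pow_right (by omega) (by norm_num)
        calc β * (ρ + 1) ≤ β * ((a + 1) * σ) := Nat.mul_le_mul_left _ hρ2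
          _ = (a + 1) * σ * β := by ring
          _ < (a + 1) * σ * β ^ 10 := Nat.mul_lt_mul_of_pos_left h6 (by positivity)
          _ ≤ D := hc4
      exact_mod_cast h5
    have hbox2 := inner_ball_lt β D Z c hβ0 hc2 _ hr p hp2
    obtain ⟨K, hK⟩ := hD'D
    have hK' : D = K * D' := by rw [hK]; ring
    rw [hK'] at hbox2
    have n1 := nest K D' Z.1 Z'.1 p.re hbox2.1 hbox2.2.1 hbox.1 hbox.2.1
    have n2 := nest K D' Z.2 Z'.2 p.im hbox2.2.2.1 hbox2.2.2.2 hbox.2.2.1 hbox.2.2.2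
    intro x hx
    have hx1 : x.1 / D' = Z'.1 := congrArg Prod.fst hx
    have hx2 : x.2 / D' = Z'.2 := congrArg Prod.snd hx
    unfold bx
    rw [hK, ← Nat.div_div_eq_div_mul, ← Nat.div_div_eq_div_mul, hx1, hx2, n1, n2]
  -- (4) the stored content
  have hSS : ∀ y, y ∈ SS ↔ ∃ x ∈ X, K2 β N u J ω m j e a i m' x = some y := by
    intro y
    unfold T2of skt at hT
    split_ifs at hT with h
    rw [Option.some.injEq] at hT
    rw [← hT, Finset.mem_eraseNone, Finset.mem_image]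
  have h4 : ∀ Z', Meets D' Z' c ρ → (∀ x : Pt, bx D' x = Z' → bx D x = Z) →
      (SS.filter (fun y => bx D y = Z)).filter (fun y => bx D' y = Z') = Qc D' σ' X Z' := by
    intro Z' hM hn
    ext y
    rw [Finset.mem_filter, Finset.mem_filter, hSS]
    unfold Qc
    rw [Finset.mem_image]
    constructor
    · rintro ⟨⟨⟨x, hx, hxy⟩, hyZ⟩, hyZ'⟩
      unfold K2 at hxy
      split_ifs at hxy with h
      rw [Option.some.injEq] at hxy
      refine ⟨x, ?_, hxy⟩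
      rw [Finset.mem_filter]
      refine ⟨hx, ?_⟩
      rw [← hyZ', ← hxy]
      exact (bx_rd σ' D' x hσ'0 hσ'D').symm
    · rintro ⟨x, hx, rfl⟩
      rw [Finset.mem_filter] at hx
      have hxZ : bx D x = Z := hn x hx.2
      refine ⟨⟨⟨x, hx.1, ?_⟩, ?_⟩, ?_⟩
      · unfold K2
        rw [← hD, ← hD', hxZ, hx.2, hctr, ← hρ, if_pos ⟨hsel, hM⟩]
      · rw [bx_rd σ' D x hσ'0 hσ'D]
        exact hxZ
      · rw [bx_rd σ' D' x hσ'0 hσ'D']
        exact hx.2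
  constructor
  · intro hno Z' c' a' hC hH
    obtain ⟨hM, hn⟩ := h3 _ Z' c' a' hC hH
    refine hno Z' c' a' ?_ hH
    have := h4 Z' hM hn
    rw [← hD', this]
    exact hC
  · intro hall Z' c' a' hC hH
    obtain ⟨hM, hn⟩ := h3 _ Z' c' a' hC hH
    refine hall Z' c' a' ?_ hH
    have := h4 Z' hM hn
    unfold CandX
    rw [← hD', ← hσ', ← this]
    exact hC

end Pool.Agent.H660R3.TS
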