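import Mathlib
import Pool.Agent.H660R3.TS.Defs
import Pool.Agent.H660R3.TS.Stubs

/-!
# Disjoint annuli: the sum of the clamped radial variations is at most the distance
-/

set_option autoImplicit false

open scoped Classical

namespace Pool.Agent.H660R3.TS

namespace PACK

open Finset MeasureTheory

/-- the radial function on the segment -/
noncomputable def rf (x y c : ℂ) (s : ℝ) : ℝ := ‖x + s • (y - x) - c‖

theorem rf_lip (x y c : ℂ) : LipschitzWith ‖y - x‖₊ (rf x y c) := by
  refine LipschitzWith.of_dist_le_mul fun s t => ?_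
  rw [Real.dist_eq, rf, rf]
  refine (abs_norm_sub_norm_le _ _).trans (le_of_eq ?_)
  have : x + s • (y - x) - c - (x + t • (y - x) - c) = (s - t) • (y - x) := by
    rw [sub_smul]
    abel
  rw [this, norm_smul, Real.dist_eq, Real.norm_eq_abs, coe_nnnorm, mul_comm]

/-- the times at which the segment is in the open annulus -/
def tm (x y : ℂ) (i : Pt × ℕ) : Set ℝ :=
  {s | s ∈ Set.Icc (0 : ℝ) 1 ∧ (i.2 : ℝ) < rf x y (pt i.1) s ∧ rf x y (pt i.1) s < i.2 + 1}

theorem tm_meas (x y : ℂ) (i : Pt × ℕ) : MeasurableSet (tm x y i) := by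
  have hc : Continuous (rf x y (pt i.1)) := (rf_lip x y (pt i.1)).continuous
  refine measurableSet_Icc.inter ((isOpen_lt continuous_const hc).measurableSet.inter
    (isOpen_lt hc continuous_const).measurableSet)

theorem real_ineq (a b r : ℝ) :
    |max 0 (min 1 (a - r)) - max 0 (min 1 (b - r))| ≤
      max 0 (min (max a b) (r + 1) - max (min a b) r) := by
  rcases le_total a b with h | h
  · rw [max_eq_right h, min_eq_left h, abs_sub_comm, abs_of_nonneg]
    · rcases le_total a r with h1 | h1 <;> rcases le_total b (r + 1) with h2 | h2 <;>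
        rcases le_total b r with h3 | h3 <;> rcases le_total a (r + 1) with h4 | h4 <;>
        simp only [max_def, min_def] <;> split_ifs <;> linarith
    · rw [sub_nonneg]
      exact max_le_max le_rfl (min_le_min le_rfl (by linarith))
  · rw [max_eq_left h, min_eq_right h, abs_of_nonneg]
    · rcases le_total a r with h1 | h1 <;> rcases le_total b (r + 1) with h2 | h2 <;>
        rcases le_total b r with h3 | h3 <;> rcases le_total a (r + 1) with h4 | h4 <;>
        simp only [max_def, min_def] <;> split_ifs <;> linarith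
    · rw [sub_nonneg]
      exact max_le_max le_rfl (min_le_min le_rfl (by linarith))

theorem clp_le (x y : ℂ) (i : Pt × ℕ) :
    ENNReal.ofReal |clp i x - clp i y| ≤ (‖y - x‖₊ : ENNReal) * volume (tm x y i) := by
  set f := rf x y (pt i.1) with hf
  have f0 : f 0 = ‖x - pt i.1‖ := by simp [hf, rf]
  have f1 : f 1 = ‖y - pt i.1‖ := by simp [hf, rf]
  have hsub : Set.Ioo (max (min (f 0) (f 1)) (i.2 : ℝ)) (min (max (f 0) (f 1)) ((i.2 : ℝ) + 1)) ⊆
      f '' tm x y i := by
    rintro t ⟨h1, h2⟩
    rw [max_lt_iff] at h1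
    rw [lt_min_iff] at h2
    have h3 := intermediate_value_uIcc (a := (0 : ℝ)) (b := 1) (f := f)
      ((rf_lip x y (pt i.1)).continuous.continuousOn)
    have h4 : t ∈ Set.uIcc (f 0) (f 1) := ⟨h1.1.le, h2.1.le⟩
    obtain ⟨s, hs, hst⟩ := h3 h4
    rw [Set.uIcc_of_le zero_le_one] at hs
    refine ⟨s, ⟨hs, ?_, ?_⟩, hst⟩
    · rw [← hf, hst]; exact h1.2
    · rw [← hf, hst]; exact h2.2
  have h5 : volume (f '' tm x y i) ≤ (‖y - x‖₊ : ENNReal) * volume (tm x y i) := by
    have h6 := ((rf_lip x y (pt i.1)).lipschitzOnWith (s := tm x y i)).hausdorffMeasure_image_le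
      (d := 1) zero_le_one
    rw [hausdorffMeasure_real, ENNReal.rpow_one] at h6
    exact h6
  have h7 := (measure_mono hsub).trans h5
  rw [Real.volume_Ioo] at h7
  refine le_trans ?_ h7
  have h8 := real_ineq (f 0) (f 1) i.2
  rw [f0, f1] at h8
  have h9 : ENNReal.ofReal |clp i x - clp i y| ≤ ENNReal.ofReal
      (max 0 (min (max (f 0) (f 1)) ((i.2 : ℝ) + 1) - max (min (f 0) (f 1)) (i.2 : ℝ))) := by
    refine ENNReal.ofReal_le_ofReal ?_
    rw [f0, f1]
    exact h8
  refine h9.trans (le_of_eq ?_)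
  rcases le_total 0 (min (max (f 0) (f 1)) ((i.2 : ℝ) + 1) - max (min (f 0) (f 1)) (i.2 : ℝ))
    with h | h
  · rw [max_eq_right h]
  · rw [max_eq_left h, ENNReal.ofReal_zero, ENNReal.ofReal_of_nonpos h]

end PACK

open PACK Finset MeasureTheory in
theorem t_PACK : St_PACK := by
  intro F hF x y
  have hdis : Set.PairwiseDisjoint (↑F : Set (Pt × ℕ)) (tm x y) := by
    intro i hi j hj hne
    rw [Function.onFun, Set.disjoint_left]
    rintro s ⟨_, h1⟩ ⟨_, h2⟩
    exact hF i hi j hj hne (x + s • (y - x)) ⟨h1, h2⟩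
  have hvol : ∑ i ∈ F, volume (tm x y i) ≤ 1 := by
    rw [← measure_biUnion_finset hdis (fun i _ => tm_meas x y i)]
    refine (measure_mono (t := Set.Icc (0 : ℝ) 1) ?_).trans (by simp)
    intro s hs
    rw [Set.mem_iUnion₂] at hs
    obtain ⟨i, _, hi⟩ := hs
    exact hi.1
  have h1 : ENNReal.ofReal (∑ i ∈ F, |clp i x - clp i y|) ≤ ENNReal.ofReal ‖x - y‖ := by
    rw [ENNReal.ofReal_sum_of_nonneg (fun i _ => abs_nonneg _)]
    refine (Finset.sum_le_sum fun i _ => clp_le x y i).trans ?_
    rw [← Finset.mul_sum]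
    refine (mul_le_mul_right hvol _).trans ?_
    rw [mul_one, norm_sub_rev x y, ofReal_norm]
    exact le_rfl
  exact (ENNReal.ofReal_le_ofReal_iff (norm_nonneg _)).1 h1

end Pool.Agent.H660R3.TS
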