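import Pool.Agent.H660R3.TS.Stubs

/-!
# PAR: random XOR of cycles
-/

set_option autoImplicit false

namespace Pool.Agent.H660R3.TS

open scoped Classical

namespace PAR

theorem exp_neg_le (z : ℝ) (hz : 0 ≤ z) : Real.exp (-z) ≤ 1 - z + z ^ 2 / 2 := by
  have h1 := Real.quadratic_le_exp_of_nonneg hz
  have h2 : 0 < 1 + z + z ^ 2 / 2 := by positivity
  rw [Real.exp_neg]
  have h3 : (Real.exp z)⁻¹ ≤ (1 + z + z ^ 2 / 2)⁻¹ := by
    apply inv_anti₀ h2 h1
  refine le_trans h3 ?_
  rw [inv_le_iff_one_le_mul₀ h2]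
  nlinarith [sq_nonneg (z ^ 2)]

theorem key (s X : ℝ) (hs : 0 ≤ s) (hs1 : s ≤ 1) (hX : 0 ≤ X) :
    3 / 2 + 1 / 2 * Real.exp (-(2 * s * X)) ≤ 2 - s + s ^ 2 + s * max 0 (1 - X) := by
  rcases le_total X 1 with h | h
  · rw [max_eq_right (by linarith)]
    have h1 := exp_neg_le (2 * s * X) (by positivity)
    have h2 : X ^ 2 ≤ 1 := by nlinarith
    have h3 : s ^ 2 * X ^ 2 ≤ s ^ 2 * 1 := mul_le_mul_of_nonneg_left h2 (by positivity)
    nlinarith
  · rw [max_eq_left (by linarith)]
    have h1 := exp_neg_le (2 * s) (by positivity)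
    have h2 : Real.exp (-(2 * s * X)) ≤ Real.exp (-(2 * s)) := by
      apply Real.exp_le_exp.2
      nlinarith
    nlinarith

variable {ι : Type} [Fintype ι]

/-- product weight -/
noncomputable def q (a b : ι → ℝ) (R : Finset ι) : ℝ :=
  (∏ i ∈ R, a i) * ∏ i ∈ Finset.univ \ R, b i

theorem q_sum (a b : ι → ℝ) : ∑ R : Finset ι, q a b R = ∏ i, (a i + b i) := by
  rw [Finset.prod_add, Finset.powerset_univ]
  rfl

theorem q_nonneg (a b : ι → ℝ) (ha : ∀ i, 0 ≤ a i) (hb : ∀ i, 0 ≤ b i) (R : Finset ι) :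
    0 ≤ q a b R :=
  mul_nonneg (Finset.prod_nonneg (fun i _ => ha i)) (Finset.prod_nonneg (fun i _ => hb i))

theorem q_mem (a : ι → ℝ) (i : ι) :
    ∑ R : Finset ι, q a (fun j => 1 - a j) R * (if i ∈ R then 1 else 0) = a i := by
  have h : ∀ R : Finset ι, q a (fun j => 1 - a j) R * (if i ∈ R then 1 else 0) =
      q a (fun j => if j = i then 0 else 1 - a j) R := by
    intro R
    unfold q
    by_cases hi : i ∈ R
    · rw [if_pos hi, mul_one]
      congr 1
      apply Finset.prod_congr rfl
      intro j hj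
      have : j ≠ i := by
        rintro rfl
        exact (Finset.mem_sdiff.1 hj).2 hi
      simp [this]
    · rw [if_neg hi, mul_zero]
      symm
      apply mul_eq_zero_of_right
      apply Finset.prod_eq_zero (i := i)
      · simp [hi]
      · simp
  rw [Finset.sum_congr rfl (fun R _ => h R), q_sum]
  rw [Finset.prod_eq_single i]
  · simp
  · intro j _ hj
    simp [hj]
  · simp

theorem q_sign (a : ι → ℝ) (C : ι → Prop) :
    ∑ R : Finset ι, q a (fun j => 1 - a j) R * (-1) ^ (R.filter C).card =
      ∏ i ∈ Finset.univ.filter C, (1 - 2 * a i) := by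
  have h : ∀ R : Finset ι, q a (fun j => 1 - a j) R * (-1) ^ (R.filter C).card =
      q (fun j => if C j then - a j else a j) (fun j => 1 - a j) R := by
    intro R
    unfold q
    have h1 : ∏ i ∈ R, (if C i then - a i else a i) =
        (∏ i ∈ R, a i) * (-1) ^ (R.filter C).card := by
      have h2 : ∀ i ∈ R, (if C i then - a i else a i) = a i * (if C i then -1 else 1) := by
        intro i _
        split_ifs <;> ring
      rw [Finset.prod_congr rfl h2, Finset.prod_mul_distrib]
      congr 1
      rw [← Finset.prod_filter_mul_prod_filter_not R C]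
      rw [Finset.prod_congr rfl (g := fun _ => (-1 : ℝ))
        (fun i hi => if_pos (Finset.mem_filter.1 hi).2)]
      rw [Finset.prod_congr rfl (s₁ := R.filter (fun x => ¬ C x)) (g := fun _ => (1 : ℝ))
        (fun i hi => if_neg (Finset.mem_filter.1 hi).2)]
      simp
    rw [h1]
    ring
  rw [Finset.sum_congr rfl (fun R _ => h R), q_sum]
  rw [Finset.prod_filter]
  apply Finset.prod_congr rfl
  intro i _
  split_ifs <;> ring

end PAR

open PAR in
theorem t_PAR : St_PAR := by
  intro E ι _ _ w d c η x hw hd hη hη1 hx hlt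
  set W : ℝ := ∑ e, w e with hW
  set s : ℝ := η / 2 with hs
  have hs0 : 0 < s := by positivity
  have hs1 : s ≤ 1 := by rw [hs]; linarith
  let p : ι → ℝ := fun i => (1 - Real.exp (-(2 * s * x i))) / 2
  have hexp1 : ∀ i, Real.exp (-(2 * s * x i)) ≤ 1 := by
    intro i
    apply Real.exp_le_one_iff.2
    have := hx i
    have : 0 ≤ 2 * s * x i := by positivity
    linarith
  have hp0 : ∀ i, 0 ≤ p i := by
    intro i
    have := hexp1 i
    simp only [p]
    linarith
  have hp1 : ∀ i, 0 ≤ 1 - p i := by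
    intro i
    have := Real.exp_pos (-(2 * s * x i))
    simp only [p]
    linarith
  have hps : ∀ i, p i ≤ s * x i := by
    intro i
    have := Real.add_one_le_exp (-(2 * s * x i))
    simp only [p]
    linarith
  have h12 : ∀ i, 1 - 2 * p i = Real.exp (-(2 * s * x i)) := by
    intro i
    simp only [p]
    ring
  let Q : Finset ι → ℝ := q p (fun j => 1 - p j)
  have hQ0 : ∀ R, 0 ≤ Q R := fun R => q_nonneg _ _ hp0 hp1 R
  have hQ1 : ∑ R, Q R = 1 := by
    simp only [Q]
    rw [q_sum]
    apply Finset.prod_eq_one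
    intro i _
    ring
  let cost : Finset ι → ℝ := fun R => ∑ i ∈ R, d i +
      ∑ e, w e * (if Odd (R.filter (fun i => c i e)).card then 1 else 2)
  have hcost : ∀ R, cost R = ∑ i, d i * (if i ∈ R then 1 else 0) +
      ∑ e, w e * (3 / 2 + 1 / 2 * (-1) ^ (R.filter (fun i => c i e)).card) := by
    intro R
    simp only [cost]
    congr 1
    · simp
    · apply Finset.sum_congr rfl
      intro e _
      congr 1
      by_cases ho : Odd (R.filter (fun i => c i e)).card
      · rw [if_pos ho, ho.neg_one_pow]; norm_num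
      · rw [if_neg ho, (Nat.not_odd_iff_even.1 ho).neg_one_pow]; norm_num
  have hE : ∑ R, Q R * cost R = ∑ i, d i * p i +
      ∑ e, w e * (3 / 2 + 1 / 2 * Real.exp (-(2 * s *
        ∑ i ∈ Finset.univ.filter (fun i => c i e), x i))) := by
    have h1 : ∑ R, Q R * cost R = ∑ i, d i * (∑ R, Q R * (if i ∈ R then 1 else 0)) +
        ∑ e, w e * (3 / 2 * ∑ R, Q R +
          1 / 2 * ∑ R, Q R * (-1) ^ (R.filter (fun i => c i e)).card) := by
      simp only [hcost, mul_add, Finset.sum_add_distrib, Finset.mul_sum]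
      congr 1
      · rw [Finset.sum_comm]
        refine Finset.sum_congr rfl (fun i _ => Finset.sum_congr rfl (fun R _ => ?_))
        ring
      · congr 1
        · rw [Finset.sum_comm]
          refine Finset.sum_congr rfl (fun i _ => Finset.sum_congr rfl (fun R _ => ?_))
          ring
        · rw [Finset.sum_comm]
          refine Finset.sum_congr rfl (fun i _ => Finset.sum_congr rfl (fun R _ => ?_))
          ring
    rw [h1]
    congr 1
    · refine Finset.sum_congr rfl (fun i _ => ?_)
      rw [q_mem p i]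
    · refine Finset.sum_congr rfl (fun e _ => ?_)
      rw [hQ1, q_sign p (fun i => c i e)]
      rw [Finset.prod_congr rfl (fun i _ => h12 i), ← Real.exp_sum, Finset.sum_neg_distrib,
        ← Finset.mul_sum, mul_one]
  have hlt2 : ∑ R, Q R * cost R < (2 - η ^ 2 / 4) * W := by
    rw [hE]
    have h1 : ∑ i, d i * p i ≤ s * ∑ i, x i * d i := by
      rw [Finset.mul_sum]
      apply Finset.sum_le_sum
      intro i _
      calc d i * p i ≤ d i * (s * x i) := mul_le_mul_of_nonneg_left (hps i) (hd i)
        _ = s * (x i * d i) := by ring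
    have h2 : ∑ e, w e * (3 / 2 + 1 / 2 * Real.exp (-(2 * s *
        ∑ i ∈ Finset.univ.filter (fun i => c i e), x i))) ≤
        (2 - s + s ^ 2) * W + s * ∑ e, w e * max 0 (1 -
          ∑ i ∈ Finset.univ.filter (fun i => c i e), x i) := by
      rw [hW, Finset.mul_sum, Finset.mul_sum, ← Finset.sum_add_distrib]
      apply Finset.sum_le_sum
      intro e _
      have h3 := key s (∑ i ∈ Finset.univ.filter (fun i => c i e), x i) hs0.le hs1
        (Finset.sum_nonneg (fun i _ => hx i))
      calc _ ≤ w e * (2 - s + s ^ 2 + s * max 0 (1 -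
          ∑ i ∈ Finset.univ.filter (fun i => c i e), x i)) :=
            mul_le_mul_of_nonneg_left h3 (hw e)
        _ = _ := by ring
    have h4 := mul_lt_mul_of_pos_left hlt hs0
    have h5 : (2 - s + s ^ 2) * W + s * ((1 - η) * W) = (2 - η ^ 2 / 4) * W := by
      rw [hs]; ring
    nlinarith
  by_contra hcon
  push Not at hcon
  have h6 : ∀ R, (2 - η ^ 2 / 4) * W ≤ cost R := fun R => (hcon R).le
  have h7 : (2 - η ^ 2 / 4) * W ≤ ∑ R, Q R * cost R := by
    calc (2 - η ^ 2 / 4) * W = ∑ R, Q R * ((2 - η ^ 2 / 4) * W) := by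
          rw [← Finset.sum_mul, hQ1, one_mul]
      _ ≤ _ := Finset.sum_le_sum (fun R _ => mul_le_mul_of_nonneg_left (h6 R) (hQ0 R))
  linarith

end Pool.Agent.H660R3.TS
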