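import Pool.Agent.H660R3.TS.Stubs

set_option autoImplicit false
open scoped Classical

namespace Pool.Agent.H660R3.TS

namespace PROGX

variable {V : Type} {loc : V → ℂ} {Mn : ℝ} (S : Strand loc Mn)

theorem bs_nonneg {j : ℕ} (hj : j < S.n) : 0 ≤ S.bs j := sub_nonneg.mpr (S.ys_le j hj)

theorem dg_nonneg (j : ℕ) : 0 ≤ S.dg j := by
  unfold Strand.dg Strand.len Strand.f
  have := norm_sub_le_norm_sub_add_norm_sub (loc (S.z (j + 1))) (loc (S.z j)) (loc (S.z 0))
  linarith

theorem t_add {j : ℕ} (hj : j < S.n) : S.t (j + 1) = S.t j + S.len j := S.t_succ j hj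

theorem t_dist (j : ℕ) : ∀ k, j + k ≤ S.n →
    S.t j + ‖loc (S.z (j + k)) - loc (S.z j)‖ ≤ S.t (j + k) := by
  intro k
  induction k with
  | zero => intro _; simp
  | succ k ih =>
    intro hk
    have h1 := ih (by omega)
    have h2 := t_add S (j := j + k) (by omega)
    have h3 := norm_sub_le_norm_sub_add_norm_sub (loc (S.z (j + k + 1))) (loc (S.z (j + k)))
      (loc (S.z j))
    have h4 : S.len (j + k) = ‖loc (S.z (j + k + 1)) - loc (S.z (j + k))‖ := rfl
    rw [← add_assoc]
    linarith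

theorem t_mono {j k : ℕ} (hjk : j ≤ k) (hk : k ≤ S.n) : S.t j ≤ S.t k := by
  obtain ⟨m, rfl⟩ := Nat.exists_eq_add_of_le hjk
  have := t_dist S j m hk
  have := norm_nonneg (loc (S.z (j + m)) - loc (S.z j))
  linarith

theorem t_dist' {j k : ℕ} (hjk : j ≤ k) (hk : k ≤ S.n) :
    ‖loc (S.z k) - loc (S.z j)‖ ≤ S.t k - S.t j := by
  obtain ⟨m, rfl⟩ := Nat.exists_eq_add_of_le hjk
  have := t_dist S j m hk
  linarith

theorem g_sum {j : ℕ} : ∀ k, j + k ≤ S.n →
    (S.t (j + k) - S.f (j + k)) - (S.t j - S.f j) = ∑ m ∈ Finset.Ico j (j + k), S.dg m := by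
  intro k
  induction k with
  | zero => intro _; simp
  | succ k ih =>
    intro hk
    rw [← add_assoc, Finset.sum_Ico_succ_top (by omega), ← ih (by omega),
      t_add S (j := j + k) (by omega)]
    unfold Strand.dg
    ring

theorem mu_ge (A B : ℝ) (J : Finset ℕ) (hJ : J ⊆ Finset.range S.n)
    (hat : ∀ j ∈ J, (A ≤ S.t j ∧ S.t j ≤ B) ∨ (A ≤ S.t (j + 1) ∧ S.t (j + 1) ≤ B)) :
    ∑ j ∈ J, S.dg j ≤ S.mu A B := by
  unfold Strand.mu
  have hnn : ∀ j ∈ Finset.range S.n, 0 ≤ ((S.bs j + S.dg j) *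
      ((if A ≤ S.t j ∧ S.t j ≤ B then 1 else 0) + (if A ≤ S.t (j + 1) ∧ S.t (j + 1) ≤ B then 1 else 0))
      + S.bet j * (if A ≤ S.t j ∧ S.t j ≤ B then (1 : ℝ) else 0)) := by
    intro j hj
    have h1 := bs_nonneg S (Finset.mem_range.mp hj)
    have h2 := dg_nonneg S j
    have h3 := S.bet_nonneg j (Finset.mem_range.mp hj)
    have h4 : (0 : ℝ) ≤ (if A ≤ S.t j ∧ S.t j ≤ B then 1 else 0) := by split_ifs <;> norm_num
    have h5 : (0 : ℝ) ≤ (if A ≤ S.t (j + 1) ∧ S.t (j + 1) ≤ B then 1 else 0) := by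
      split_ifs <;> norm_num
    positivity
  refine le_trans (Finset.sum_le_sum ?_) (Finset.sum_le_sum_of_subset_of_nonneg hJ
    (fun j hj _ => hnn j hj))
  intro j hj
  have hjn := Finset.mem_range.mp (hJ hj)
  have h1 := bs_nonneg S hjn
  have h2 := dg_nonneg S j
  have h3 := S.bet_nonneg j hjn
  have h4 : (0 : ℝ) ≤ (if A ≤ S.t j ∧ S.t j ≤ B then 1 else 0) := by split_ifs <;> norm_num
  have h5 : (0 : ℝ) ≤ (if A ≤ S.t (j + 1) ∧ S.t (j + 1) ≤ B then 1 else 0) := by
    split_ifs <;> norm_num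
  have h6 : (1 : ℝ) ≤ (if A ≤ S.t j ∧ S.t j ≤ B then 1 else 0) +
      (if A ≤ S.t (j + 1) ∧ S.t (j + 1) ≤ B then 1 else 0) := by
    rcases hat j hj with h | h
    · rw [if_pos h]; linarith
    · rw [if_pos h]; linarith
  have h7 := mul_le_mul_of_nonneg_left h6 (add_nonneg h1 h2)
  have h8 := mul_nonneg h3 h4
  linarith

theorem X_sub {i : ℕ} (τ : ℝ) : S.X i τ - loc (S.z i) =
    (((τ - S.t i) / S.len i : ℝ) : ℂ) * (loc (S.z (i + 1)) - loc (S.z i)) := by
  unfold Strand.X; ring

theorem X_low {i : ℕ} (τ : ℝ) (hl : 0 < S.len i) (h : S.t i ≤ τ) :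
    ‖S.X i τ - loc (S.z i)‖ = τ - S.t i := by
  rw [X_sub, norm_mul, Complex.norm_real, Real.norm_of_nonneg
    (div_nonneg (sub_nonneg.mpr h) hl.le)]
  show (τ - S.t i) / S.len i * S.len i = _
  field_simp

theorem X_up {i : ℕ} (τ : ℝ) (hl : 0 < S.len i) (hi : i < S.n) (h : τ ≤ S.t (i + 1)) :
    ‖loc (S.z (i + 1)) - S.X i τ‖ = S.t (i + 1) - τ := by
  have h1 : loc (S.z (i + 1)) - S.X i τ =
      (((S.t (i + 1) - τ) / S.len i : ℝ) : ℂ) * (loc (S.z (i + 1)) - loc (S.z i)) := by
    unfold Strand.X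
    have hlc : ((S.len i : ℝ) : ℂ) ≠ 0 := by exact_mod_cast hl.ne'
    rw [t_add S hi]
    push_cast
    field_simp
    ring
  rw [h1, norm_mul, Complex.norm_real, Real.norm_of_nonneg
    (div_nonneg (sub_nonneg.mpr h) hl.le)]
  show (S.t (i + 1) - τ) / S.len i * S.len i = _
  field_simp

theorem X_X {i : ℕ} (τ τ' : ℝ) (hl : 0 < S.len i) (h : τ ≤ τ') :
    ‖S.X i τ' - S.X i τ‖ = τ' - τ := by
  have h1 : S.X i τ' - S.X i τ =
      (((τ' - τ) / S.len i : ℝ) : ℂ) * (loc (S.z (i + 1)) - loc (S.z i)) := by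
    unfold Strand.X
    push_cast
    ring
  rw [h1, norm_mul, Complex.norm_real, Real.norm_of_nonneg
    (div_nonneg (sub_nonneg.mpr h) hl.le)]
  show (τ' - τ) / S.len i * S.len i = _
  field_simp

/-- change of centre -/
theorem centre (a b c p : ℂ) (σ R lam s : ℝ) (hlam : 0 < lam)
    (hpc : ‖p - c‖ ≤ 2 * σ) (hσ : 0 < σ) (hR : R = ‖a - c‖) (hσR : 10 ^ 3 * σ ≤ lam * R)
    (hs : 0 ≤ s) (hab : ‖b - a‖ ≤ s) (hf : (1 - lam) * s ≤ ‖b - p‖ - ‖a - p‖) :
    (1 - 3 * lam) * s ≤ ‖b - c‖ - ‖a - c‖ := by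
  have hRpos : 0 < R := by
    by_contra h
    have h1 : lam * R ≤ 0 := mul_nonpos_of_nonneg_of_nonpos hlam.le (not_lt.mp h)
    linarith
  have ha : |‖a - c‖ - ‖a - p‖| ≤ 2 * σ := by
    have h1 := abs_norm_sub_norm_le (a - c) (a - p)
    have h2 : (a - c) - (a - p) = p - c := by ring
    rw [h2] at h1
    linarith
  have hb : |‖b - c‖ - ‖b - p‖| ≤ 2 * σ := by
    have h1 := abs_norm_sub_norm_le (b - c) (b - p)
    have h2 : (b - c) - (b - p) = p - c := by ring
    rw [h2] at h1
    linarith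
  rcases le_or_gt (4 * σ) (lam * s) with h4 | h4
  · have h5 := (abs_le.mp ha).2
    have h6 := (abs_le.mp hb).1
    have : (1 - lam) * s - lam * s ≤ ‖b - c‖ - ‖a - c‖ := by linarith
    nlinarith [mul_nonneg hlam.le hs]
  · -- small s
    have hsR : 250 * s ≤ R := by
      have h1 : lam * s * 250 < lam * R := by nlinarith
      have h2 : s * 250 < R := by
        by_contra h
        have := mul_le_mul_of_nonneg_left (not_lt.mp h) hlam.le
        linarith
      linarith
    -- identity of squares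
    have hE : (‖b - c‖ ^ 2 - ‖b - p‖ ^ 2) - (‖a - c‖ ^ 2 - ‖a - p‖ ^ 2) =
        2 * ((b - a).re * (p - c).re + (b - a).im * (p - c).im) := by
      simp only [Complex.sq_norm, Complex.normSq_apply, Complex.sub_re, Complex.sub_im]
      ring
    have hcs : |(b - a).re * (p - c).re + (b - a).im * (p - c).im| ≤ ‖b - a‖ * ‖p - c‖ := by
      have h1 : (b - a).re * (p - c).re + (b - a).im * (p - c).im =
          ((b - a) * (starRingEnd ℂ) (p - c)).re := by
        simp [Complex.mul_re]
        ring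
      rw [h1]
      refine (Complex.abs_re_le_norm _).trans ?_
      rw [norm_mul, RCLike.norm_conj]
    have hE' : |(‖b - c‖ ^ 2 - ‖b - p‖ ^ 2) - (‖a - c‖ ^ 2 - ‖a - p‖ ^ 2)| ≤ 4 * σ * ‖b - a‖ := by
      rw [hE, abs_mul, abs_of_pos (by norm_num : (0 : ℝ) < 2)]
      have := mul_le_mul_of_nonneg_left hpc (norm_nonneg (b - a))
      nlinarith
    set Fa := ‖a - c‖ with hFa
    set Fb := ‖b - c‖ with hFb
    set fa := ‖a - p‖ with hfa
    set fb := ‖b - p‖ with hfb
    set d := ‖b - a‖ with hd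
    have hFab : |Fa - Fb| ≤ d := by
      have h1 := abs_norm_sub_norm_le (a - c) (b - c)
      have h2 : (a - c) - (b - c) = -(b - a) := by ring
      rw [h2, norm_neg] at h1
      exact h1
    have hfab : |fa - fb| ≤ d := by
      have h1 := abs_norm_sub_norm_le (a - p) (b - p)
      have h2 : (a - p) - (b - p) = -(b - a) := by ring
      rw [h2, norm_neg] at h1
      exact h1
    have hd0 : 0 ≤ d := norm_nonneg _
    have hq : 249 / 250 * R ≤ Fb + fb := by
      have h1 := (abs_le.mp hFab).2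
      have h2 : 0 ≤ fb := norm_nonneg _
      linarith
    have key : |(Fb - fb) - (Fa - fa)| * (Fb + fb) ≤ 8 * σ * d := by
      have hq0 : 0 ≤ Fb + fb := by linarith [norm_nonneg (b - c), norm_nonneg (b - p)]
      rw [← abs_of_nonneg hq0, ← abs_mul]
      have h1 : ((Fb - fb) - (Fa - fa)) * (Fb + fb) =
          ((Fb ^ 2 - fb ^ 2) - (Fa ^ 2 - fa ^ 2)) + (Fa - fa) * ((Fa - Fb) + (fa - fb)) := by ring
      rw [h1]
      refine (abs_add_le _ _).trans ?_
      have h2 : |(Fa - fa) * ((Fa - Fb) + (fa - fb))| ≤ 2 * σ * (d + d) := by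
        rw [abs_mul]
        refine mul_le_mul ha ((abs_add_le _ _).trans (add_le_add hFab hfab)) (abs_nonneg _)
          (by linarith)
      linarith
    have hfin : |(Fb - fb) - (Fa - fa)| ≤ 2 * lam * s := by
      by_contra hcon
      push Not at hcon
      have h1 : 2 * lam * s * (249 / 250 * R) ≤ |(Fb - fb) - (Fa - fa)| * (Fb + fb) :=
        mul_le_mul hcon.le hq (by positivity) (abs_nonneg _)
      have h2 : 8 * σ * d ≤ 8 * σ * s := mul_le_mul_of_nonneg_left hab (by positivity)
      have h3 : 8 * σ * s ≤ 8 / 1000 * (lam * R) * s := by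
        have := mul_le_mul_of_nonneg_right hσR hs
        nlinarith
      rcases hs.eq_or_lt with h0 | h0
      · have hd00 : d = 0 := le_antisymm (by linarith) hd0
        have : |(Fb - fb) - (Fa - fa)| ≤ 0 := by
          have h7 := (abs_le.mp (hd00 ▸ hFab))
          have h8 := (abs_le.mp (hd00 ▸ hfab))
          rw [abs_le]; constructor <;> linarith [h7.1, h7.2, h8.1, h8.2]
        rw [← h0] at hcon
        linarith
      · have h9 : 0 < lam * R * s := by positivity
        nlinarith
    have h5 := (abs_le.mp hfin).1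
    linarith

end PROGX

open PROGX in
theorem t_PROG : St_PROG := by
  intro V loc Mn S lam G del τ τ' i i' c σ hlam hlam1 hG hMn hF hF' hττ' hpc hGσ hσR
  have hMnpos : 0 < Mn := by linarith
  have hi := hF.hi
  have hi' := hF'.hi
  have hl : 0 < S.len i := lt_of_lt_of_le hMnpos (S.edge_long i hi)
  have hl' : 0 < S.len i' := lt_of_lt_of_le hMnpos (S.edge_long i' hi')
  have hii : i ≤ i' := by
    by_contra hcon
    push Not at hcon
    have h1 := t_mono S (j := i' + 1) (k := i) (by omega) (by omega)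
    have := hF.lo; have := hF'.up
    linarith
  have hs : 0 ≤ τ' - τ := by linarith
  have hlow := X_low S τ hl hF.lo
  have hup := X_up S τ hl hi hF.up.le
  have hlow' := X_low S τ' hl' hF'.lo
  have hup' := X_up S τ' hl' hi' hF'.up.le
  -- G(τ) ≥ g_i
  have hG1 : S.t i - S.f i ≤ τ - ‖S.X i τ - loc (S.z 0)‖ := by
    have := norm_sub_le_norm_sub_add_norm_sub (S.X i τ) (loc (S.z i)) (loc (S.z 0))
    unfold Strand.f
    linarith
  have hG1' : τ - ‖S.X i τ - loc (S.z 0)‖ ≤ S.t (i + 1) - S.f (i + 1) := by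
    have := norm_sub_le_norm_sub_add_norm_sub (loc (S.z (i + 1))) (S.X i τ) (loc (S.z 0))
    unfold Strand.f
    linarith
  have hG2 : τ' - ‖S.X i' τ' - loc (S.z 0)‖ ≤ S.t (i' + 1) - S.f (i' + 1) := by
    have := norm_sub_le_norm_sub_add_norm_sub (loc (S.z (i' + 1))) (S.X i' τ') (loc (S.z 0))
    unfold Strand.f
    linarith
  refine centre (S.X i τ) (S.X i' τ') c (loc (S.z 0)) σ _ lam (τ' - τ) hlam hpc (by linarith) rfl
    hσR hs ?_ ?_
  · -- distance
    rcases hii.eq_or_lt with h | h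
    · subst h
      rw [X_X S τ τ' hl (by linarith)]
    · have h1 := norm_sub_le_norm_sub_add_norm_sub (S.X i' τ') (loc (S.z i')) (S.X i τ)
      have h2 := norm_sub_le_norm_sub_add_norm_sub (loc (S.z i')) (loc (S.z (i + 1))) (S.X i τ)
      have h3 := t_dist' S (j := i + 1) (k := i') (by omega) (by omega)
      linarith
  · rcases hii.eq_or_lt with h | h
    · subst h
      -- same edge
      have hdg : S.dg i = (S.t (i + 1) - S.f (i + 1)) - (S.t i - S.f i) := by
        unfold Strand.dg; rw [t_add S hi]; ring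
      rcases le_or_gt G (τ - S.t i) with hu | hu
      · have hmu := hF.good (S.t i) τ hF.lo le_rfl hu
        have hge := mu_ge S (S.t i) τ {i} (by simpa using hi)
          (by intro j hj; rw [Finset.mem_singleton.mp hj]; exact Or.inl ⟨le_rfl, hF.lo⟩)
        rw [Finset.sum_singleton] at hge
        have hconv : (τ' - S.t i) * ‖S.X i τ - loc (S.z 0)‖ ≤
            (τ' - τ) * S.f i + (τ - S.t i) * ‖S.X i τ' - loc (S.z 0)‖ := by
          have hid : (((τ' - S.t i : ℝ)) : ℂ) * (S.X i τ - loc (S.z 0)) =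
              ((τ' - τ : ℝ) : ℂ) * (loc (S.z i) - loc (S.z 0)) +
              ((τ - S.t i : ℝ) : ℂ) * (S.X i τ' - loc (S.z 0)) := by
            unfold Strand.X
            push_cast
            ring
          have h1 : (τ' - S.t i) * ‖S.X i τ - loc (S.z 0)‖ =
              ‖(((τ' - S.t i : ℝ)) : ℂ) * (S.X i τ - loc (S.z 0))‖ := by
            rw [norm_mul, Complex.norm_real, Real.norm_of_nonneg (by linarith [hF.lo])]
          rw [h1, hid]
          refine (norm_add_le _ _).trans ?_
          rw [norm_mul, norm_mul, Complex.norm_real, Complex.norm_real,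
            Real.norm_of_nonneg hs, Real.norm_of_nonneg (by linarith [hF.lo])]
          exact le_rfl
        have hu0 : 0 < τ - S.t i := by linarith
        -- f(X) - f_i ≥ (1 - lam) u
        have h2 : (1 - lam) * (τ - S.t i) ≤ ‖S.X i τ - loc (S.z 0)‖ - S.f i := by
          nlinarith
        have h3 : (1 - lam) * (τ' - τ) * (τ - S.t i) ≤
            (‖S.X i τ' - loc (S.z 0)‖ - ‖S.X i τ - loc (S.z 0)‖) * (τ - S.t i) := by
          have h4 := mul_le_mul_of_nonneg_left h2 hs
          nlinarith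
        exact le_of_mul_le_mul_right h3 hu0
      · have hmu := hF.good (S.t i) (S.t i + G) hF.lo (by linarith) (by linarith)
        have hge := mu_ge S (S.t i) (S.t i + G) {i} (by simpa using hi)
          (by intro j hj; rw [Finset.mem_singleton.mp hj]; exact Or.inl ⟨le_rfl, by linarith⟩)
        rw [Finset.sum_singleton] at hge
        have h1 : lam * (S.t i + G - S.t i) ≤ lam * (τ' - τ) :=
          mul_le_mul_of_nonneg_left (by linarith) hlam.le
        linarith
    · have hmu := hF.good τ τ' le_rfl (by linarith) (by linarith)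
      obtain ⟨k, hk⟩ := Nat.exists_eq_add_of_le (show i ≤ i' + 1 by omega)
      have hsum := g_sum S (j := i) k (by omega)
      rw [← hk] at hsum
      have hge := mu_ge S τ τ' (Finset.Ico i (i' + 1))
        (by intro j hj; rw [Finset.mem_Ico] at hj; rw [Finset.mem_range]; omega)
        (by
          intro j hj
          rw [Finset.mem_Ico] at hj
          rcases Nat.lt_or_ge j i' with hji | hji
          · right
            have h1 := t_mono S (j := i + 1) (k := j + 1) (by omega) (by omega)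
            have h2 := t_mono S (j := j + 1) (k := i') (by omega) (by omega)
            exact ⟨by linarith [hF.up], by linarith [hF'.lo]⟩
          · left
            have hj' : j = i' := by omega
            subst hj'
            have h1 := t_mono S (j := i + 1) (k := j) (by omega) (by omega)
            exact ⟨by linarith [hF.up], hF'.lo⟩)
      linarith

end Pool.Agent.H660R3.TS
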