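import Pool.Agent.H660R3.TS.T_HB

set_option autoImplicit false
open scoped Classical

namespace Pool.Agent.H660R3.TS

namespace SEPX

open PROGX HBX

variable {V : Type} {loc : V → ℂ} {Mn : ℝ}

theorem X_le (S : Strand loc Mn) {i : ℕ} {τ : ℝ} (hMn : 0 < Mn) (hi : i < S.n)
    (hlo : S.t i ≤ τ) : ‖S.X i τ - loc (S.z 0)‖ ≤ τ := by
  have hl : 0 < S.len i := lt_of_lt_of_le hMn (S.edge_long i hi)
  have h1 := X_low S τ hl hlo
  have h2 := norm_sub_le_norm_sub_add_norm_sub (S.X i τ) (loc (S.z i)) (loc (S.z 0))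
  have h3 := t_dist' S (j := 0) (k := i) (by omega) hi.le
  rw [S.t_zero] at h3
  linarith

theorem jo_le (S : Strand loc Mn) : S.jo ≤ S.n := Nat.sInf_le (Or.inl rfl)

theorem ys_tov (S : Strand loc Mn) {lam G τ : ℝ} (hlam : 0 < lam)
    (hgood : S.Good lam G τ) (h0 : 0 ≤ τ) (h1 : τ ≤ S.tov) (hG : G ≤ S.tov) :
    (1 - lam) * S.tov ≤ ∑ j ∈ Finset.range S.jo, S.ys j := by
  have hjn := jo_le S
  have h2 := ys_sum' S (a := 0) (b := S.jo) (by omega) hjn
  rw [S.t_zero, sub_zero, ← Finset.range_eq_Ico] at h2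
  have h3 := hgood 0 S.tov h0 h1 (by linarith)
  have h4 := mu_ge2 S 0 S.tov (Finset.range S.jo) ∅
    (by intro i hi; rw [Finset.mem_range] at *; omega) (by simp)
    (by
      intro j hj
      rw [Finset.mem_range] at hj
      left
      have h5 := t_mono S (j := 0) (k := j) (by omega) (by omega)
      have h6 := t_mono S (j := j) (k := S.jo) (by omega) hjn
      rw [S.t_zero] at h5
      exact ⟨h5, h6⟩)
    (by simp)
  rw [Finset.sum_empty, add_zero] at h4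
  have h5 : ∑ j ∈ Finset.range S.jo, S.bs j ≤ ∑ j ∈ Finset.range S.jo, (S.bs j + S.dg j) :=
    Finset.sum_le_sum fun j _ => by linarith [dg_nonneg S j]
  have h6 : S.tov = S.t S.jo := rfl
  rw [h2, ← h6]
  linarith

theorem ys_mono (S : Strand loc Mn) {a b : ℕ} (hab : a ≤ b) (hb : b ≤ S.n) :
    ∑ j ∈ Finset.range a, S.ys j ≤ ∑ j ∈ Finset.range b, S.ys j :=
  Finset.sum_le_sum_of_subset_of_nonneg (Finset.range_subset_range.mpr hab)
    fun j hj _ => S.ys_nonneg j (by rw [Finset.mem_range] at hj; omega)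

/-- basic facts on a fine location -/
theorem fine_facts (S : Strand loc Mn) {lam G del τ : ℝ} {i : ℕ} {c : ℂ} {σ : ℝ}
    (hlam : 0 < lam) (hlam1 : lam ≤ 1 / 10 ^ 4) (hG : 1 ≤ G) (hMn : 1000 * G ≤ Mn)
    (hF : S.Fine lam G del i τ) (hc : ‖loc (S.z 0) - c‖ ≤ 2 * σ) (hGσ : G ≤ σ)
    (hσ : 10 ^ 3 * σ ≤ lam * ‖S.X i τ - c‖) :
    ‖S.X i τ - c‖ ≤ τ + 2 * σ ∧ 998 * σ ≤ lam * τ ∧ 0 < τ ∧ τ < S.tov ∧ G ≤ S.tov ∧
      τ + 998 * σ ≤ ∑ j ∈ Finset.range S.jo, S.ys j ∧ 10 ^ 7 * σ ≤ ‖S.X i τ - c‖ := by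
  have hσ0 : 0 < σ := by linarith
  have hX := X_le S (by linarith) hF.hi hF.lo
  have hR : ‖S.X i τ - c‖ ≤ τ + 2 * σ := by
    have := norm_sub_le_norm_sub_add_norm_sub (S.X i τ) (loc (S.z 0)) c
    linarith
  have h1 : 998 * σ ≤ lam * τ := by
    have h2 : lam * ‖S.X i τ - c‖ ≤ lam * (τ + 2 * σ) := mul_le_mul_of_nonneg_left hR hlam.le
    have h3 : lam * σ ≤ 1 * σ := mul_le_mul_of_nonneg_right (by linarith) hσ0.le
    nlinarith
  have hτ0 : 0 < τ := by
    by_contra hcon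
    have : lam * τ ≤ 0 := mul_nonpos_of_nonneg_of_nonpos hlam.le (not_lt.mp hcon)
    linarith
  have hearly := hF.early
  have htov0 : 0 < S.tov := by
    by_contra hcon
    have : (1 - 2 * lam) * S.tov ≤ 0 :=
      mul_nonpos_of_nonneg_of_nonpos (by linarith) (not_lt.mp hcon)
    linarith
  have hlt : 0 < lam * S.tov := mul_pos hlam htov0
  have hτt : τ < S.tov := by nlinarith
  have hGτ : G ≤ τ := by
    have : lam * τ ≤ 1 * τ := mul_le_mul_of_nonneg_right (by linarith) hτ0.le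
    linarith
  have hGt : G ≤ S.tov := by linarith
  have hys := ys_tov S hlam hF.good hτ0.le hτt.le hGt
  have h7 : lam * τ ≤ lam * S.tov := mul_le_mul_of_nonneg_left hτt.le hlam.le
  refine ⟨hR, h1, hτ0, hτt, hGt, by nlinarith, ?_⟩
  have h8 : lam * ‖S.X i τ - c‖ ≤ 1 / 10 ^ 4 * ‖S.X i τ - c‖ :=
    mul_le_mul_of_nonneg_right hlam1 (norm_nonneg _)
  norm_num at h8 ⊢
  linarith

theorem core (hL : St_LOC) (hB : St_HB) {V : Type} [Fintype V] {T : RTree V} {loc : V → ℂ}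
    {y : V → ℝ} {Mn : ℝ} {K : Finset V} {S : V → Strand loc Mn} {lam G del τ τ' σ : ℝ}
    {i i' : ℕ} {c c' : ℂ} {k l : V} (hS : SSys T loc y Mn K S) (hlam : 0 < lam)
    (hlam1 : lam ≤ 1 / 10 ^ 4) (hG : 1 ≤ G) (hMn : 1000 * G ≤ Mn) (hk : k ∈ K) (hl : l ∈ K)
    (hkl : k ≠ l) (hF : (S k).Fine lam G del i τ) (hF' : (S l).Fine lam G del i' τ')
    (hc : ‖loc k - c‖ ≤ 2 * σ) (hc' : ‖loc l - c'‖ ≤ 2 * σ) (hGσ : G ≤ σ)
    (hσ : 10 ^ 3 * σ ≤ lam * ‖(S k).X i τ - c‖) (hσ' : 10 ^ 3 * σ ≤ lam * ‖(S l).X i' τ' - c'‖)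
    (hatt : (S l).att k = (S l).n) :
    ‖(S k).X i τ - c‖ + ‖(S l).X i' τ' - c'‖ + 30 * σ ≤ ‖c - c'‖ ∨
    ‖c - c'‖ + ‖(S l).X i' τ' - c'‖ + 30 * σ ≤ ‖(S k).X i τ - c‖ := by
  have hσ0 : 0 < σ := by linarith
  have hz : loc ((S k).z 0) = loc k := by rw [hS.z0 k hk]
  have hz' : loc ((S l).z 0) = loc l := by rw [hS.z0 l hl]
  obtain ⟨h1, h2, h3, h4, h5, h6, h7⟩ := fine_facts (S k) hlam hlam1 hG hMn hF
    (by rw [hz]; exact hc) hGσ hσ
  obtain ⟨h1', h2', h3', h4', h5', h6', h7'⟩ := fine_facts (S l) hlam hlam1 hG hMn hF'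
    (by rw [hz']; exact hc') hGσ hσ'
  rcases Nat.lt_or_ge ((S k).att l) (S k).jo with ha | ha
  · have hjn := jo_le (S k)
    have hnov : ¬ (S k).Ovf ((S k).att l) := Nat.notMem_of_lt_sInf ha
    have hp3 := hS.pair3 k hk l hl hkl (by omega)
    have htn : (S l).tov ≤ (S l).t (S l).n := t_mono (S l) (jo_le (S l)) le_rfl
    have hB1 := hB V loc Mn (S k) lam G τ hlam hlam1 (by linarith) (by linarith) hF.good
      ((S k).att l) (by omega) hnov (by linarith)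
    rcases hL V loc Mn (S k) lam G del τ i c σ hlam hlam1 hG hMn hF (by rw [hz]; exact hc) hGσ hσ l
      with ⟨ha1, hb1, _⟩ | ⟨ha1, _, hb1, _⟩ | ⟨ha1, _⟩
    · right
      have htt : (S k).t ((S k).att l) ≤ τ :=
        (t_mono (S k) ha1 hF.hi.le).trans hF.lo
      rw [abs_of_nonneg (by linarith)] at hB1
      have h8 : ‖c - c'‖ ≤ ‖loc l - c‖ + 2 * σ := by
        have := norm_sub_le_norm_sub_add_norm_sub c (loc l) c'
        rw [norm_sub_rev c (loc l)] at this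
        linarith
      linarith
    · left
      have htt : τ ≤ (S k).t ((S k).att l) :=
        hF.up.le.trans (t_mono (S k) (by omega) (by omega))
      rw [abs_of_nonpos (by linarith)] at hB1
      have h8 : ‖loc l - c‖ ≤ ‖c - c'‖ + 2 * σ := by
        have := norm_sub_le_norm_sub_add_norm_sub (loc l) c' c
        rw [norm_sub_rev c' c] at this
        linarith
      linarith
    · omega
  · left
    have hp2 := hS.pair2 k hk l hl hkl hatt
    have h8 := ys_mono (S k) ha ((S k).att_le l)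
    have h9 := ys_mono (S l) (jo_le (S l)) le_rfl
    have h10 : ‖loc k - loc l‖ ≤ ‖c - c'‖ + 4 * σ := by
      have e1 := norm_sub_le_norm_sub_add_norm_sub (loc k) c (loc l)
      have e2 := norm_sub_le_norm_sub_add_norm_sub c c' (loc l)
      rw [norm_sub_rev c' (loc l)] at e2
      linarith
    linarith

end SEPX

open SEPX in
theorem t_SEP (hL : St_LOC) (hB : St_HB) : St_SEP := by
  intro V _ T loc y Mn K S lam G del τ τ' σ i i' c c' k l hS hlam hlam1 hG hMn hk hl hkl hF hF'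
    hc hc' hGσ hσ hσ'
  rcases hS.pair1 k hk l hl hkl with h | h
  · rcases core hL hB hS hlam hlam1 hG hMn hk hl hkl hF hF' hc hc' hGσ hσ hσ' h with h1 | h1
    · exact Or.inl h1
    · exact Or.inr (Or.inl h1)
  · rcases core hL hB hS hlam hlam1 hG hMn hl hk hkl.symm hF' hF hc' hc hGσ hσ' hσ h with h1 | h1
    · left
      rw [norm_sub_rev c c']
      linarith
    · right; right
      rw [norm_sub_rev c c']
      linarith

end Pool.Agent.H660R3.TS
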