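import Pool.Agent.H660R3.TS.Stubs

/-!
# Statements of the tasks, wave 2 (table `h660_tasks`)
-/

set_option autoImplicit false

open scoped Classical

namespace Pool.Agent.H660R3.TS

/-! ### Completeness for a given scale and shift -/

/-- scaled positions without shift -/
noncomputable def locM (M : ℕ) (P : Finset Pt) : {x // x ∈ P} → ℂ := fun v => pt (sh M (0, 0) v)

/-- the minimum spanning tree of `P` (rooted as `T`) with its strand system -/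
structure TData (P : Finset Pt) (T : RTree {x // x ∈ P}) (M : ℕ) (y : {x // x ∈ P} → ℝ)
    (K : Finset {x // x ∈ P}) (S : {x // x ∈ P} → Strand (locM M P) (M : ℝ)) : Prop where
  adj1 : ∀ v, v ≠ T.root → TAdj P v (T.par v)
  adj2 : ∀ x y : {x // x ∈ P}, TAdj P x y →
    (x ≠ T.root ∧ y = T.par x) ∨ (y ≠ T.root ∧ x = T.par y)
  tight : Tight T (locM M P) y (M : ℝ)
  sys : SSys T (locM M P) y (M : ℝ) K S
  wsum : (M : ℝ) * mstW P = ∑ v ∈ T.edges, ‖locM M P v - locM M P (T.par v)‖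

/-- the fine location `β n'` on edge `i` of the strand `k` is in the range of level `m` and the tip is
not near the boundary of its box -/
def OkI (β N u m M : ℕ) (s : Pt) {P : Finset Pt} (S : {x // x ∈ P} → Strand (locM M P) (M : ℝ))
    (lam : ℝ) (k : {x // x ∈ P}) (n' i : ℕ) : Prop :=
  (S k).Fine lam β (1 / (β : ℝ) ^ 6) i ((β : ℝ) * n') ∧
  4 * β * (DD β N u (m - 1) : ℝ) ≤ ‖(S k).X i ((β : ℝ) * n') - locM M P k‖ ∧
  4 * (β : ℝ) ^ 10 * ‖(S k).X i ((β : ℝ) * n') - locM M P k‖ ≤ DD β N u m ∧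
  Inner β (DD β N u m) (bx (DD β N u m) (sh M s k)) (rd (DD β N u (m - 2)) (sh M s k))

/-- number of good grid locations of level `m` -/
noncomputable def okN (β N u m M : ℕ) (s : Pt) {P : Finset Pt} (K : Finset {x // x ∈ P})
    (S : {x // x ∈ P} → Strand (locM M P) (M : ℝ)) (lam : ℝ) (BIG : ℕ) : ℕ :=
  ((K ×ˢ Finset.range BIG).filter (fun p => ∃ i, OkI β N u m M s S lam p.1 p.2 i)).card

/-- the circle `(c, ρ)` of the box `Z` is crossed by an extra edge -/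
def Lost (β M : ℕ) (s : Pt) (D σ : ℕ) (P : Finset Pt) (Z c : Pt) (ρ : ℕ) : Prop :=
  ∃ e ∈ mst (inBox M s D P Z) \ mst P, (M : ℝ) * ds e.1 e.2 * (β : ℝ) ^ 3 ≤ 2 * D ∧
    ((‖pt (sh M s e.1) - pt c‖ ≤ ρ + 9 * σ ∧ (ρ : ℝ) + 3 * σ ≤ ‖pt (sh M s e.2) - pt c‖) ∨
     (‖pt (sh M s e.2) - pt c‖ ≤ ρ + 9 * σ ∧ (ρ : ℝ) + 3 * σ ≤ ‖pt (sh M s e.1) - pt c‖))

def St_CND : Prop := ∀ (P : Finset Pt) (T : RTree {x // x ∈ P}) (M : ℕ) (y : {x // x ∈ P} → ℝ)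
    (K : Finset {x // x ∈ P}) (S : {x // x ∈ P} → Strand (locM M P) (M : ℝ)) (lam : ℝ)
    (β N u m : ℕ) (s : Pt) (k : {x // x ∈ P}) (n' i ρ : ℕ) (c Z : Pt),
  TData P T M y K S → 0 < lam → lam ≤ 1 / 10 ^ 4 → 10 ^ 4 ≤ lam * β → 20 ≤ N → 3 ≤ m →
  1000 * β ≤ M → k ∈ K → OkI β N u m M s S lam k n' i →
  c = rd (DD β N u (m - 2)) (sh M s k) → Z = bx (DD β N u m) (sh M s k) →
  |(ρ : ℝ) - ‖(S k).X i ((β : ℝ) * n') + pt s - pt c‖| ≤ β →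
  Unhit β N u m (P.image (sh M s)) c ρ ∧
  (¬ Lost β M s (DD β N u m) (DD β N u (m - 2)) P Z c ρ →
    (c, ρ / DD β N u (m - 2)) ∈ cands β N u m
      (Qc (DD β N u m) (DD β N u (m - 2)) (P.image (sh M s)) Z) Z)

def St_DETF : Prop := ∀ (P : Finset Pt) (T : RTree {x // x ∈ P}) (M : ℕ) (y : {x // x ∈ P} → ℝ)
    (K : Finset {x // x ∈ P}) (S : {x // x ∈ P} → Strand (locM M P) (M : ℝ)) (lam : ℝ)
    (β N u L : ℕ) (s : Pt) (BIG : ℕ),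
  TData P T M y K S → 0 < lam → lam ≤ 1 / 10 ^ 4 → 10 ^ 4 ≤ lam * β → 20 ≤ N → 1000 * β ≤ M →
  ∑ m ∈ Finset.Icc 3 L, (1 - 5 * lam) * β * (okN β N u m M s K S lam BIG : ℝ) ≤
    Fstar β N u L (P.image (sh M s)) +
      ∑ m ∈ Finset.Icc 3 L, 5 * (DD β N u m : ℝ) / (β : ℝ) ^ 3 * (cutN M s (DD β N u m) P : ℝ)

/-- average over the scale shift `u` and the grid shift `s` -/
def St_AVG : Prop := ∀ (P : Finset Pt) (T : RTree {x // x ∈ P}) (y : {x // x ∈ P} → ℝ)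
    (β N L Δ M SM : ℕ) (K : Finset {x // x ∈ P})
    (S : {x // x ∈ P} → Strand (locM M P) (M : ℝ)),
  M = β ^ (5 * N) → SM = β ^ (N * (L + 1)) → 10 ^ 6 ≤ N → 7 ≤ L → 10 ^ 20 * L ≤ β →
  (∀ x ∈ P, x.1 ≤ Δ ∧ x.2 ≤ Δ) → 2 * Δ ≤ β ^ (N * (L - 6)) → TData P T M y K S →
  ∑ v ∈ T.edges, (‖locM M P v - locM M P (T.par v)‖ - y v) ≤ 1 / 10 ^ 14 * (M * mstW P) →
  ∃ BIG : ℕ, ∑ u ∈ Finset.range N, ∑ s ∈ Finset.range SM ×ˢ Finset.range SM,
      (M * mstW P - β * ∑ m ∈ Finset.Icc 3 L, (okN β N u m M s K S (1 / 10 ^ 6) BIG : ℝ)) ≤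
    1 / 10 ^ 4 * (M * mstW P) * N * (SM : ℝ) ^ 2

/-- `(u,s)` is a good choice for the point set `P` -/
def GoodUS (β N L M : ℕ) (P : Finset Pt) (u : ℕ) (s : Pt) : Prop :=
  (∀ m ∈ Finset.Icc 3 L, (cutN M s (DD β N u m) P : ℝ) * DD β N u m ≤ 10 ^ 5 * L * (M * mstW P)) ∧
  ((∀ l : List Pt, l.Nodup → l.toFinset = P → (2 - 1 / (4 * 10 ^ 28)) * mstW P < tourLen l) →
    7 / 10 * (M * mstW P) ≤ Fstar β N u L (P.image (sh M s)))

def St_GUS : Prop := ∀ (P : Finset Pt) (β N L Δ M SM : ℕ),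
  M = β ^ (5 * N) → SM = β ^ (N * (L + 1)) → 10 ^ 6 ≤ N → 7 ≤ L → 10 ^ 20 * L ≤ β → 
  P.Nonempty → (∀ x ∈ P, x.1 ≤ Δ ∧ x.2 ≤ Δ) → 2 * Δ ≤ β ^ (N * (L - 6)) →
  200 * ((Finset.range N ×ˢ (Finset.range SM ×ˢ Finset.range SM)).filter
    (fun p => ¬ GoodUS β N L M P p.1 p.2)).card ≤ N * SM ^ 2

/-- the weight functional is accurate if no level cuts too many edges -/
def St_WST : Prop := ∀ (P : Finset Pt) (β N L Δ M u : ℕ) (s : Pt),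
  M = β ^ (5 * N) → 10 ^ 6 ≤ N → 7 ≤ L → 10 ^ 20 * L ≤ β → u < N → P.Nonempty →
  (∀ x ∈ P, x.1 ≤ Δ ∧ x.2 ≤ Δ) → 2 * Δ ≤ β ^ (N * (L - 6)) →
  (∀ m ∈ Finset.Icc 3 L, (cutN M s (DD β N u m) P : ℝ) * DD β N u m ≤ 10 ^ 5 * L * (M * mstW P)) →
  |Wstar β N u L (P.image (sh M s)) - M * mstW P| ≤ M * mstW P / (β : ℝ) ^ 2

/-! ### Sampling -/

/-- averages over functions: one coordinate -/
def St_P0 : Prop := ∀ (ι A : Type) [Fintype ι] [Fintype A] (z : ι) (F : A → ℝ),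
  (∑ ω : ι → A, F (ω z)) * Fintype.card A = (∑ a, F a) * Fintype.card (ι → A)

/-- Chebyshev for sampled sums -/
def St_P1 : Prop := ∀ (ι A : Type) [Fintype ι] [Fintype A] (O : Finset ι) (sel : A → Prop)
    (v : ι → ℝ) (vm τ : ℝ) (j : ℕ),
  0 < Fintype.card A → (Finset.univ.filter (fun a : A => sel a)).card * 2 ^ j = Fintype.card A →
  (∀ Z ∈ O, 0 ≤ v Z ∧ v Z ≤ vm) → 0 < τ →
  ((Finset.univ.filter (fun ω : ι → A =>
      τ < |(2 : ℝ) ^ j * ∑ Z ∈ O.filter (fun Z => sel (ω Z)), v Z - ∑ Z ∈ O, v Z|)).card : ℝ) * τ ^ 2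
    ≤ 2 ^ j * O.card * vm ^ 2 * Fintype.card (ι → A)

/-- empirical frequencies -/
def St_P2 : Prop := ∀ (κ : Type) [Fintype κ] (R σ SM : ℕ) (g : Fin R → κ) (U : Finset ℕ),
  Function.Injective g → 0 < R → 0 < σ → σ ∣ SM → 0 < SM → U ⊆ Finset.range σ →
  ∑ r : κ → Fin SM, |(σ : ℝ) * ((Finset.univ.filter (fun i : Fin R =>
      ((r (g i) : ℕ) % σ) ∈ U)).card : ℝ) / R - U.card| ≤
    Fintype.card (κ → Fin SM) * (σ / Real.sqrt R)

/-- few unit annuli around `c` meet a given small box -/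
def St_P3 : Prop := ∀ (D' σ a : ℕ) (Z' c : Pt), 1 ≤ D' →
  ((Finset.range σ).filter (fun r => Meets D' Z' c (a * σ + r))).card ≤ 4 * D'

/-- finite seeds -/
abbrev Seed (L KK J SM Bc R : ℕ) :=
  (Fin (L + 1) × Fin KK × Fin KK) →
    (Fin (2 ^ J) × ((Fin Bc × Fin Bc × Fin Bc × Fin R) → Fin SM))

/-- the random choices given by a seed -/
noncomputable def toRnd {L KK J SM Bc R : ℕ} (ω : Seed L KK J SM Bc R) : Rnd where
  h := fun m Z => if hh : m < L + 1 ∧ Z.1 < KK ∧ Z.2 < KK then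
    ((ω (⟨m, hh.1⟩, ⟨Z.1, hh.2.1⟩, ⟨Z.2, hh.2.2⟩)).1 : ℕ) else 0
  r := fun m Z e a i =>
    if hh : (m < L + 1 ∧ Z.1 < KK ∧ Z.2 < KK) ∧ (e.1 < Bc ∧ e.2 < Bc ∧ a < Bc ∧ i < R) then
      ((ω (⟨m, hh.1.1⟩, ⟨Z.1, hh.1.2.1⟩, ⟨Z.2, hh.1.2.2⟩)).2
        (⟨e.1, hh.2.1⟩, ⟨e.2, hh.2.2.1⟩, ⟨a, hh.2.2.2.1⟩, ⟨i, hh.2.2.2.2⟩) : ℕ) else 0

/-- contents of sampled boxes -/
def St_PA1 : Prop := ∀ (β N u J cap1 m j : ℕ) (ω : Rnd) (X C : Finset Pt), 0 < β → 3 ≤ m →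
  T1of β N u J cap1 ω X m j = some C →
  (∀ Z, Sel J ω m j Z → C.filter (fun x => bx (DD β N u m) x = Z) =
    Qc (DD β N u m) (DD β N u (m - 2)) X Z) ∧
  C.image (bx (DD β N u m)) =
    (X.image (bx (DD β N u m))).filter (fun Z => Sel J ω m j Z)

/-- the stored neighbourhood of a circle decides whether it is hit -/
def St_PA2 : Prop := ∀ (β N u J cap2 m j a i m' : ℕ) (ω : Rnd) (X SS : Finset Pt) (Z c : Pt),
  2 ≤ β → 1 ≤ N → 3 ≤ m' → m' < m → Sel J ω m j Z →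
  (c, a) ∈ cands β N u m (Qc (DD β N u m) (DD β N u (m - 2)) X Z) Z →
  T2of β N u J cap2 ω X m j (cidx β N u m Z c) a i m' = some SS →
  (ctr β N u m Z (cidx β N u m Z c) = c) ∧
  (NoHit β N u m' (SS.filter (fun y => bx (DD β N u m) y = Z)) c
      (rad β N u ω m Z (cidx β N u m Z c) a i) ↔
    ∀ Z' c' a', CandX β N u m' X Z' c' a' →
      ¬ Hits c (rad β N u ω m Z (cidx β N u m Z c) a i) c' (((a' : ℝ) + 1) * DD β N u (m' - 2)))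

/-- common hypotheses of the sampling lemmas -/
structure SHyp (P : Finset Pt) (β N L Δ M SM KK J Bc R cap1 cap2 u : ℕ) (s : Pt) : Prop where
  hM : M = β ^ (5 * N)
  hSM : SM = β ^ (N * (L + 1))
  hKK : KK = 2 * SM
  hJ : J = 2 * N * (L + 2) * β
  hBc : Bc = β ^ (2 * N)
  hR : R = β ^ (60 * N)
  hc1 : cap1 = β ^ (64 * N)
  hc2 : cap2 = β ^ (164 * N)
  hN : 10 ^ 6 ≤ N
  hL : 7 ≤ L
  hβ : 10 ^ 20 * L ≤ β
  hu : u < N
  hs : s.1 < SM ∧ s.2 < SM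
  ne : P.Nonempty
  rng : ∀ x ∈ P, x.1 ≤ Δ ∧ x.2 ≤ Δ
  hΔ : 2 * Δ ≤ β ^ (N * (L - 6))
  cut : ∀ m ∈ Finset.Icc 3 L,
    (cutN M s (DD β N u m) P : ℝ) * DD β N u m ≤ 10 ^ 5 * L * (M * mstW P)

/-- the chosen sampling rate is in the right range with high probability -/
def St_SJ : Prop := ∀ (P : Finset Pt) (β N L Δ M SM KK J Bc R cap1 cap2 u : ℕ) (s : Pt) (m : ℕ),
  SHyp P β N L Δ M SM KK J Bc R cap1 cap2 u s → m ∈ Finset.Icc 3 L →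
  2000 * L * (Finset.univ.filter (fun ω : Seed L KK J SM Bc R =>
    ¬ (let T1 := T1of β N u J cap1 (toRnd ω) (P.image (sh M s))
       let js := jst J T1 m
       let NB := ((P.image (sh M s)).image (bx (DD β N u m))).card
       (T1 m js).isSome ∧ js ≤ J ∧ (js = 0 ∨ 2 ^ js * β ^ (60 * N) ≤ 8 * NB) ∧
         NB ≤ 4 * cap1 * 2 ^ js))).card ≤ Fintype.card (Seed L KK J SM Bc R)

/-- accuracy of the weight estimate of level `m` -/
def St_SW : Prop := ∀ (P : Finset Pt) (β N L Δ M SM KK J Bc R cap1 cap2 u : ℕ) (s : Pt) (m : ℕ),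
  SHyp P β N L Δ M SM KK J Bc R cap1 cap2 u s → m ∈ Finset.Icc 3 L →
  1000 * L * (Finset.univ.filter (fun ω : Seed L KK J SM Bc R =>
    ¬ (let X := P.image (sh M s)
       let T1 := T1of β N u J cap1 (toRnd ω) X
       |(2 : ℝ) ^ (jst J T1 m) * ∑ Z ∈ (cont J T1 m).image (bx (DD β N u m)),
            wbox β N u m ((cont J T1 m).filter (fun x => bx (DD β N u m) x = Z)) -
          ∑ Z ∈ X.image (bx (DD β N u m)), wbox β N u m (Qc (DD β N u m) (DD β N u (m - 2)) X Z)|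
        ≤ M * mstW P / (β : ℝ) ^ 3))).card ≤ Fintype.card (Seed L KK J SM Bc R)

/-- accuracy of the estimate of level `m` of `Fstar` -/
def St_SF : Prop := ∀ (P : Finset Pt) (β N L Δ M SM KK J Bc R cap1 cap2 u : ℕ) (s : Pt) (m : ℕ),
  SHyp P β N L Δ M SM KK J Bc R cap1 cap2 u s → m ∈ Finset.Icc 3 L →
  1000 * L * (Finset.univ.filter (fun ω : Seed L KK J SM Bc R =>
    ¬ (let X := P.image (sh M s)
       let T1 := T1of β N u J cap1 (toRnd ω) X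
       let T2 := T2of β N u J cap2 (toRnd ω) X
       |(2 : ℝ) ^ (jst J T1 m) * ∑ Z ∈ (cont J T1 m).image (bx (DD β N u m)),
            maxFam (DD β N u (m - 2))
              (cands β N u m ((cont J T1 m).filter (fun x => bx (DD β N u m) x = Z)) Z)
              (uhat β N u J R (toRnd ω) T1 T2 m Z) -
          ∑ Z ∈ X.image (bx (DD β N u m)), Vbox β N u m X Z|
        ≤ M * mstW P / (β : ℝ) ^ 3))).card ≤ Fintype.card (Seed L KK J SM Bc R)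

/-- accuracy of both estimates -/
def St_SAMP : Prop := ∀ (P : Finset Pt) (β N L Δ M SM KK J Bc R cap1 cap2 u : ℕ) (s : Pt),
  SHyp P β N L Δ M SM KK J Bc R cap1 cap2 u s →
  200 * (Finset.univ.filter (fun ω : Seed L KK J SM Bc R =>
    ¬ (let X := P.image (sh M s)
       let T1 := T1of β N u J cap1 (toRnd ω) X
       let T2 := T2of β N u J cap2 (toRnd ω) X
       |West β N u J T1 L - Wstar β N u L X| ≤ M * mstW P / (β : ℝ) ^ 2 ∧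
       |Fest β N u J R (toRnd ω) T1 T2 L - Fstar β N u L X| ≤ M * mstW P / (β : ℝ) ^ 2))).card ≤
    Fintype.card (Seed L KK J SM Bc R)

/-! ### Newman's trick and the automaton -/

def St_NEW : Prop := ∀ (Ω Q : Type) [Fintype Ω] [Fintype Q] [Nonempty Ω] (bad : Ω → Q → Prop)
    (n : ℕ), Fintype.card Q ≤ 2 ^ n →
  (∀ p, 100 * (Finset.univ.filter (fun ω => bad ω p)).card ≤ Fintype.card Ω) →
  ∃ f : Fin (3 * (n + 1)) → Ω, ∀ p, (Finset.univ.filter (fun i => bad (f i) p)).card ≤ n + 1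

def St_AUT : Prop := ∀ (ns : ℕ) (I : Type) [Fintype I] (κ : Fin ns → I → Pt → Option Pt)
    (cap Kb : ℕ) (est : Fin ns → (I → Option (Finset Pt)) → ℝ),
  0 < ns → (∀ s i x y, κ s i x = some y → y.1 < Kb ∧ y.2 < Kb) →
  ∃ (N : ℕ) (μ0 : PMF (Fin N)) (δ : Fin N → ℕ × ℕ → PMF (Fin N)) (out : Fin N → ℝ),
    N ≤ ns * ((Kb ^ 2 + 1) ^ cap + 1) ^ (Fintype.card I) ∧
    ∀ (l : List (ℕ × ℕ)) (A : Set ℝ) (b : ℕ),
      b ≤ (Finset.univ.filter (fun s => est s (fun i => skt (κ s i) cap l.toFinset) ∈ A)).card →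
      ((b : ENNReal) / ns) ≤
        (l.foldl (fun μ p => μ.bind (fun q => δ q p)) μ0).toOuterMeasure {q | out q ∈ A}

/-- size of the automaton -/
def St_SIZE : Prop := ∀ N : ℕ, 1 ≤ N → ∃ C k : ℕ, ∀ Δ L β J : ℕ, 1 ≤ Δ →
  L = Nat.log 2 Δ + 12 → β = 10 ^ 20 * L → J = 2 * N * (L + 2) * β →
  3 * ((Δ + 1) ^ 2 + 1) * (((2 * β ^ (N * (L + 1))) ^ 2 + 1) ^ (β ^ (164 * N)) + 1) ^
      ((L + 1) * (J + 1) +
        (L + 1) * (J + 1) * (β ^ (2 * N) * β ^ (2 * N) * β ^ (2 * N) * β ^ (60 * N)) * (L + 1)) ≤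
    2 ^ (C * (Nat.log 2 Δ + 1) ^ k)

end Pool.Agent.H660R3.TS
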