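import Mathlib
import Pool.Agent.H660R3.TS.Stubs2

/-!
# Preliminaries for the accuracy of the estimate of one level of `Fstar`
-/

set_option autoImplicit false

open scoped Classical

namespace Pool.Agent.H660R3.TS.SF

open Finset

/-! ### `maxFam` -/

theorem maxFam_nonneg (σ : ℕ) (C : Finset (Pt × ℕ)) (g : Pt × ℕ → ℝ) : 0 ≤ maxFam σ C g := by
  rw [maxFam]
  refine le_trans (le_of_eq ?_) (Finset.le_sup' (fun F => ∑ x ∈ F, g x) (b := ∅) (by simp))
  simp

theorem maxFam_le {σ : ℕ} {C : Finset (Pt × ℕ)} {g : Pt × ℕ → ℝ} {b : ℝ} (hb : 0 ≤ b)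
    (hg : ∀ x ∈ C, g x ≤ b) : maxFam σ C g ≤ C.card * b := by
  rw [maxFam]
  refine Finset.sup'_le _ _ fun F hF => ?_
  rw [Finset.mem_filter, Finset.mem_powerset] at hF
  calc ∑ x ∈ F, g x ≤ ∑ x ∈ F, b := Finset.sum_le_sum fun x hx => hg x (hF.1 hx)
    _ = F.card * b := by rw [Finset.sum_const, nsmul_eq_mul]
    _ ≤ C.card * b := by
      refine mul_le_mul_of_nonneg_right ?_ hb
      exact_mod_cast Finset.card_le_card hF.1

theorem maxFam_le_add (σ : ℕ) (C : Finset (Pt × ℕ)) (g g' : Pt × ℕ → ℝ) :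
    maxFam σ C g ≤ maxFam σ C g' + ∑ x ∈ C, |g x - g' x| := by
  rw [maxFam, maxFam]
  refine Finset.sup'_le _ _ fun F hF => ?_
  have h1 := Finset.le_sup' (fun F => ∑ x ∈ F, g' x) hF
  rw [Finset.mem_filter, Finset.mem_powerset] at hF
  have h2 : ∑ x ∈ F, g x ≤ ∑ x ∈ F, g' x + ∑ x ∈ C, |g x - g' x| := by
    have h3 : ∑ x ∈ F, |g x - g' x| ≤ ∑ x ∈ C, |g x - g' x| :=
      Finset.sum_le_sum_of_subset_of_nonneg hF.1 fun _ _ _ => abs_nonneg _
    have h4 : ∑ x ∈ F, (g x - g' x) ≤ ∑ x ∈ F, |g x - g' x| :=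
      Finset.sum_le_sum fun _ _ => le_abs_self _
    rw [Finset.sum_sub_distrib] at h4
    linarith
  exact h2.trans (add_le_add h1 le_rfl)

theorem maxFam_sub_le (σ : ℕ) (C : Finset (Pt × ℕ)) (g g' : Pt × ℕ → ℝ) :
    |maxFam σ C g - maxFam σ C g'| ≤ ∑ x ∈ C, |g x - g' x| := by
  rw [abs_le]
  have h1 := maxFam_le_add σ C g g'
  have h2 := maxFam_le_add σ C g' g
  have h3 : ∑ x ∈ C, |g' x - g x| = ∑ x ∈ C, |g x - g' x| :=
    Finset.sum_congr rfl fun x _ => abs_sub_comm _ _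
  rw [h3] at h2
  constructor <;> linarith

theorem maxFam_congr {σ : ℕ} {C : Finset (Pt × ℕ)} {g g' : Pt × ℕ → ℝ}
    (h : ∀ x ∈ C, g x = g' x) : maxFam σ C g = maxFam σ C g' := by
  have h1 := maxFam_sub_le σ C g g'
  have h2 : ∑ x ∈ C, |g x - g' x| = 0 := Finset.sum_eq_zero fun x hx => by
    rw [h x hx, sub_self, abs_zero]
  rw [h2] at h1
  exact sub_eq_zero.1 (abs_eq_zero.1 (le_antisymm h1 (abs_nonneg _)))

theorem maxFam_empty (σ : ℕ) (g : Pt × ℕ → ℝ) : maxFam σ ∅ g = 0 := by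
  refine le_antisymm ?_ (maxFam_nonneg _ _ _)
  have := maxFam_le (σ := σ) (C := ∅) (g := g) (b := 0) le_rfl (by simp)
  simpa using this

/-! ### Counting cells in a box -/

theorem card_rd_box {σ k : ℕ} (hk : 0 < k) (S : Finset Pt) (Z : Pt)
    (hS : ∀ x ∈ S, bx (σ * k) x = Z) : (S.image (rd σ)).card ≤ k ^ 2 := by
  have hsub : S.image (rd σ) ⊆ ((Finset.Ico (Z.1 * k) (Z.1 * k + k)) ×ˢ
      (Finset.Ico (Z.2 * k) (Z.2 * k + k))).image (fun q => (q.1 * σ, q.2 * σ)) := by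
    intro q hq
    obtain ⟨x, hx, rfl⟩ := Finset.mem_image.1 hq
    have h1 := hS x hx
    have key : ∀ a b : ℕ, a / (σ * k) = b → a / σ ∈ Finset.Ico (b * k) (b * k + k) := by
      intro a b hab
      rw [← Nat.div_div_eq_div_mul] at hab
      rw [Finset.mem_Ico]
      constructor
      · rw [← hab]
        exact Nat.div_mul_le_self _ _
      · rw [← hab]
        exact Nat.lt_div_mul_add hk
    refine Finset.mem_image.2 ⟨(x.1 / σ, x.2 / σ), ?_, rfl⟩
    rw [Finset.mem_product]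
    exact ⟨key _ _ (congrArg Prod.fst h1), key _ _ (congrArg Prod.snd h1)⟩
  refine (Finset.card_le_card hsub).trans (Finset.card_image_le.trans ?_)
  rw [Finset.card_product, Nat.card_Ico, Nat.card_Ico]
  apply le_of_eq
  rw [Nat.add_sub_cancel_left, Nat.add_sub_cancel_left, sq]

/-- bound for the number of cells of a set which meets at most `n` boxes -/
theorem card_rd_boxes {σ k : ℕ} (hk : 0 < k) (S : Finset Pt) :
    (S.image (rd σ)).card ≤ (S.image (bx (σ * k))).card * k ^ 2 := by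
  have hsub : S.image (rd σ) ⊆ (S.image (bx (σ * k))).biUnion
      (fun Z => (S.filter (fun x => bx (σ * k) x = Z)).image (rd σ)) := by
    intro q hq
    obtain ⟨x, hx, rfl⟩ := Finset.mem_image.1 hq
    exact Finset.mem_biUnion.2 ⟨bx (σ * k) x, Finset.mem_image_of_mem _ hx,
      Finset.mem_image_of_mem _ (Finset.mem_filter.2 ⟨hx, rfl⟩)⟩
  refine (Finset.card_le_card hsub).trans ?_
  refine Finset.card_biUnion_le_card_mul _ _ _ fun Z _ => ?_
  exact card_rd_box hk _ Z fun x hx => (Finset.mem_filter.1 hx).2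

/-! ### Probabilities on a finite type -/

section pr

variable {Ω : Type} [Fintype Ω]

/-- proportion of the elements with property `E` -/
noncomputable def pr (E : Ω → Prop) : ℝ := ((univ.filter E).card : ℝ) / Fintype.card Ω

theorem pr_nonneg (E : Ω → Prop) : 0 ≤ pr E := by
  unfold pr
  positivity

theorem pr_mono {E E' : Ω → Prop} (h : ∀ ω, E ω → E' ω) : pr E ≤ pr E' := by
  unfold pr
  refine div_le_div_of_nonneg_right ?_ (Nat.cast_nonneg _)
  exact_mod_cast Finset.card_le_card fun ω hω => by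
    rw [Finset.mem_filter] at hω ⊢
    exact ⟨hω.1, h ω hω.2⟩

theorem card_le_of {E : Ω → Prop} {T : Finset Ω} (h : ∀ ω, E ω → ω ∈ T) :
    (univ.filter E).card ≤ T.card :=
  Finset.card_le_card fun ω hω => h ω (Finset.mem_filter.1 hω).2

theorem pr_or (E E' : Ω → Prop) : pr (fun ω => E ω ∨ E' ω) ≤ pr E + pr E' := by
  unfold pr
  rw [← add_div]
  refine div_le_div_of_nonneg_right ?_ (Nat.cast_nonneg _)
  have h : ∀ ω, (E ω ∨ E' ω) → ω ∈ univ.filter E ∪ univ.filter E' := by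
    intro ω hω
    rcases hω with h | h
    · exact Finset.mem_union_left _ (Finset.mem_filter.2 ⟨Finset.mem_univ _, h⟩)
    · exact Finset.mem_union_right _ (Finset.mem_filter.2 ⟨Finset.mem_univ _, h⟩)
  rw [← Nat.cast_add]
  exact Nat.cast_le.2 ((card_le_of h).trans (Finset.card_union_le _ _))

theorem pr_exists {ι : Type*} (S : Finset ι) (E : ι → Ω → Prop) :
    pr (fun ω => ∃ i ∈ S, E i ω) ≤ ∑ i ∈ S, pr (E i) := by
  unfold pr
  rw [← Finset.sum_div]
  refine div_le_div_of_nonneg_right ?_ (Nat.cast_nonneg _)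
  have h : ∀ ω, (∃ i ∈ S, E i ω) → ω ∈ S.biUnion (fun i => univ.filter (E i)) := by
    intro ω hω
    obtain ⟨i, hi, hE⟩ := hω
    exact Finset.mem_biUnion.2 ⟨i, hi, Finset.mem_filter.2 ⟨Finset.mem_univ _, hE⟩⟩
  rw [← Nat.cast_sum]
  exact Nat.cast_le.2 ((card_le_of h).trans Finset.card_biUnion_le)

theorem pr_le_sum {ι : Type*} (S : Finset ι) (E : ι → Ω → Prop) (b : ℝ)
    (h : ∀ i ∈ S, pr (E i) ≤ b) : pr (fun ω => ∃ i ∈ S, E i ω) ≤ S.card * b := by
  refine (pr_exists S E).trans ((Finset.sum_le_sum h).trans (le_of_eq ?_))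
  rw [Finset.sum_const, nsmul_eq_mul]

/-- Markov's inequality -/
theorem markov (Y : Ω → ℝ) (hY : ∀ ω, 0 ≤ Y ω) {τ a : ℝ} (hτ : 0 < τ) (ha : 0 ≤ a)
    (h : ∑ ω, Y ω ≤ a * Fintype.card Ω) : pr (fun ω => τ < Y ω) ≤ a / τ := by
  rcases Nat.eq_zero_or_pos (Fintype.card Ω) with h0 | h0
  · have : IsEmpty Ω := Fintype.card_eq_zero_iff.1 h0
    have h1 : (pr fun ω => τ < Y ω) = 0 := by
      unfold pr
      rw [h0]
      simp
    rw [h1]
    positivity
  · have hc : (0 : ℝ) < Fintype.card Ω := by exact_mod_cast h0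
    unfold pr
    rw [div_le_div_iff₀ hc hτ]
    refine le_trans ?_ h
    calc ((univ.filter (fun ω => τ < Y ω)).card : ℝ) * τ
        = ∑ ω ∈ univ.filter (fun ω => τ < Y ω), τ := by rw [Finset.sum_const, nsmul_eq_mul]
      _ ≤ ∑ ω ∈ univ.filter (fun ω => τ < Y ω), Y ω :=
          Finset.sum_le_sum fun ω hω => (Finset.mem_filter.1 hω).2.le
      _ ≤ ∑ ω, Y ω := Finset.sum_le_sum_of_subset_of_nonneg (Finset.filter_subset _ _)
          fun ω _ _ => hY ω

end pr

end Pool.Agent.H660R3.TS.SF
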