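import Mathlib
import Pool.Agent.H660R3.TS.SFa

/-!
# Numerical and geometric facts for the accuracy of the estimate of one level of `Fstar`
-/

set_option autoImplicit false

open scoped Classical

namespace Pool.Agent.H660R3.TS.SF

open Finset

/-! ### Powers -/

theorem DD_add (β N u m n : ℕ) : DD β N u (m + n) = DD β N u m * (β ^ N) ^ n := by
  unfold DD
  rw [← pow_mul, ← pow_add]
  congr 1
  ring

theorem DD_pos {β : ℕ} (hβ : 0 < β) (N u m : ℕ) : 0 < DD β N u m := by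
  unfold DD
  positivity

theorem DD_mono {β : ℕ} (hβ : 0 < β) (N u : ℕ) {m m' : ℕ} (h : m ≤ m') :
    DD β N u m ≤ DD β N u m' := by
  obtain ⟨k, rfl⟩ := Nat.exists_eq_add_of_le h
  rw [DD_add]
  exact Nat.le_mul_of_pos_right _ (by positivity)

section hyp

variable {P : Finset Pt} {β N L Δ M SM KK J Bc R cap1 cap2 u : ℕ} {s : Pt}

theorem beta_big (h : SHyp P β N L Δ M SM KK J Bc R cap1 cap2 u s) : 10 ^ 20 ≤ β := by
  have h1 := h.hβ
  have h2 := h.hL
  calc 10 ^ 20 = 10 ^ 20 * 1 := (mul_one _).symm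
    _ ≤ 10 ^ 20 * L := Nat.mul_le_mul_left _ (by omega)
    _ ≤ β := h1

theorem beta_pos (h : SHyp P β N L Δ M SM KK J Bc R cap1 cap2 u s) : 0 < β :=
  lt_of_lt_of_le (by norm_num) (beta_big h)

/-- `B = β ^ N` is large -/
theorem B_big (h : SHyp P β N L Δ M SM KK J Bc R cap1 cap2 u s) : β ^ 3 * N ≤ β ^ N := by
  have hN := h.hN
  have hβ := beta_big h
  obtain ⟨n, rfl⟩ : ∃ n, N = n + 3 := ⟨N - 3, by omega⟩
  rw [pow_add, mul_comm]
  refine Nat.mul_le_mul_right _ ?_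
  have h1 : n + 3 ≤ 3 ^ n := by
    have : ∀ k : ℕ, k + 2 + 3 ≤ 3 ^ (k + 2) := by
      intro k
      induction k with
      | zero => norm_num
      | succ k ih =>
        have e : 3 ^ (k + 1 + 2) = 3 * 3 ^ (k + 2) := by ring
        omega
    obtain ⟨k, rfl⟩ : ∃ k, n = k + 2 := ⟨n - 2, by omega⟩
    exact this k
  exact h1.trans (Nat.pow_le_pow_left (by omega) n)

theorem J_le (h : SHyp P β N L Δ M SM KK J Bc R cap1 cap2 u s) : J + 1 ≤ β ^ N := by
  refine le_trans ?_ (B_big h)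
  rw [h.hJ]
  have h1 := h.hβ
  have h2 := h.hL
  have h3 := h.hN
  have h4 := beta_big h
  have h5 : 2 * N * (L + 2) * β + 1 ≤ (2 * (L + 2) + 1) * (N * β) := by
    have : 1 ≤ N * β := Nat.one_le_iff_ne_zero.2 (Nat.mul_ne_zero (by omega) (by omega))
    calc 2 * N * (L + 2) * β + 1 ≤ 2 * N * (L + 2) * β + N * β := Nat.add_le_add_left this _
      _ = _ := by ring
  have h6 : 2 * (L + 2) + 1 ≤ β := by
    have : 2 * (L + 2) + 1 ≤ 10 ^ 20 * L := by omega
    omega
  calc 2 * N * (L + 2) * β + 1 ≤ (2 * (L + 2) + 1) * (N * β) := h5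
    _ ≤ β * (N * β) := Nat.mul_le_mul_right _ h6
    _ = β ^ 2 * N := by ring
    _ ≤ β ^ 3 * N := Nat.mul_le_mul_right _ (Nat.pow_le_pow_right (by omega) (by norm_num))

theorem beta3_le (h : SHyp P β N L Δ M SM KK J Bc R cap1 cap2 u s) : β ^ 3 ≤ β ^ N :=
  Nat.pow_le_pow_right (beta_pos h) (by have := h.hN; omega)

theorem SM_pos (h : SHyp P β N L Δ M SM KK J Bc R cap1 cap2 u s) : 0 < SM := by
  rw [h.hSM]
  exact pow_pos (beta_pos h) _

theorem KK_pos (h : SHyp P β N L Δ M SM KK J Bc R cap1 cap2 u s) : 0 < KK := by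
  rw [h.hKK]
  have := SM_pos h
  omega

theorem Bc_pos (h : SHyp P β N L Δ M SM KK J Bc R cap1 cap2 u s) : 0 < Bc := by
  rw [h.hBc]
  exact pow_pos (beta_pos h) _

theorem R_pos (h : SHyp P β N L Δ M SM KK J Bc R cap1 cap2 u s) : 0 < R := by
  rw [h.hR]
  exact pow_pos (beta_pos h) _

theorem Bc_eq (h : SHyp P β N L Δ M SM KK J Bc R cap1 cap2 u s) : Bc = (β ^ N) ^ 2 := by
  rw [h.hBc, ← pow_mul]
  congr 1
  ring

theorem coord_lt (h : SHyp P β N L Δ M SM KK J Bc R cap1 cap2 u s) :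
    ∀ x ∈ P.image (sh M s), x.1 < KK ∧ x.2 < KK := by
  intro x hx
  obtain ⟨p, hp, rfl⟩ := Finset.mem_image.1 hx
  have hL := h.hL
  have h1 : M * Δ ≤ SM := by
    have h2 : M * (2 * Δ) ≤ β ^ (5 * N) * β ^ (N * (L - 6)) := by
      rw [h.hM]
      exact Nat.mul_le_mul_left _ h.hΔ
    rw [← pow_add] at h2
    have h3 : β ^ (5 * N + N * (L - 6)) ≤ SM := by
      rw [h.hSM]
      refine Nat.pow_le_pow_right (beta_pos h) ?_
      have : 5 * N + N * (L - 6) = N * (5 + (L - 6)) := by ring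
      rw [this]
      exact Nat.mul_le_mul_left _ (by omega)
    calc M * Δ ≤ M * (2 * Δ) := Nat.mul_le_mul_left _ (by omega)
      _ ≤ _ := h2.trans h3
  obtain ⟨r1, r2⟩ := h.rng p hp
  obtain ⟨s1, s2⟩ := h.hs
  have e1 : M * p.1 ≤ SM := (Nat.mul_le_mul_left _ r1).trans h1
  have e2 : M * p.2 ≤ SM := (Nat.mul_le_mul_left _ r2).trans h1
  have hKK := h.hKK
  simp only [sh]
  constructor <;> omega

theorem box_lt (h : SHyp P β N L Δ M SM KK J Bc R cap1 cap2 u s) (D : ℕ) :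
    ∀ Z ∈ (P.image (sh M s)).image (bx D), Z.1 < KK ∧ Z.2 < KK := by
  intro Z hZ
  obtain ⟨x, hx, rfl⟩ := Finset.mem_image.1 hZ
  obtain ⟨h1, h2⟩ := coord_lt h x hx
  exact ⟨lt_of_le_of_lt (Nat.div_le_self _ _) h1, lt_of_le_of_lt (Nat.div_le_self _ _) h2⟩

theorem dvd_SM (h : SHyp P β N L Δ M SM KK J Bc R cap1 cap2 u s) {m : ℕ} (hm : m ≤ L) :
    DD β N u (m - 2) ∣ SM := by
  rw [h.hSM, DD]
  refine pow_dvd_pow _ ?_
  have hu := h.hu
  have : N * (m - 2) ≤ N * L := Nat.mul_le_mul_left _ (by omega)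
  have e : N * (L + 1) = N * L + N := by ring
  omega

end hyp

/-! ### Geometry -/

theorem ds_eq (p q : Pt) : ds p q = ‖pt p - pt q‖ := by
  rw [ds, Complex.norm_def, Complex.normSq_apply]
  simp only [pt, Complex.sub_re, Complex.sub_im]
  congr 1
  ring

theorem rd_dist {σ : ℕ} (hσ : 0 < σ) (x : Pt) : ‖pt x - pt (rd σ x)‖ ≤ 2 * σ := by
  have key : ∀ k : ℕ, |((k : ℝ) - ((k / σ * σ : ℕ) : ℝ))| ≤ σ := by
    intro k
    have h1 : k / σ * σ ≤ k := Nat.div_mul_le_self _ _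
    have h2 : k < k / σ * σ + σ := by
      have := Nat.lt_div_mul_add (a := k) hσ
      linarith
    have h3 : ((k / σ * σ : ℕ) : ℝ) ≤ k := by exact_mod_cast h1
    have h4 : (k : ℝ) < ((k / σ * σ : ℕ) : ℝ) + σ := by exact_mod_cast h2
    rw [abs_le]
    constructor <;> linarith
  refine (Complex.norm_le_abs_re_add_abs_im _).trans ?_
  have h1 := key x.1
  have h2 := key x.2
  have e1 : (pt x - pt (rd σ x)).re = (x.1 : ℝ) - ((x.1 / σ * σ : ℕ) : ℝ) := by
    simp [pt, rd]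
  have e2 : (pt x - pt (rd σ x)).im = (x.2 : ℝ) - ((x.2 / σ * σ : ℕ) : ℝ) := by
    simp [pt, rd]
  rw [e1, e2]
  linarith

theorem same_box {D : ℕ} (hD : 0 < D) {x y : Pt} (h : bx D x = bx D y) :
    ‖pt x - pt y‖ < 2 * D := by
  have key : ∀ a b : ℕ, a / D = b / D → |((a : ℝ) - b)| < D := by
    intro a b hab
    have h1 : a / D * D ≤ a := Nat.div_mul_le_self _ _
    have h2 : a < a / D * D + D := Nat.lt_div_mul_add hD
    have h3 : b / D * D ≤ b := Nat.div_mul_le_self _ _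
    have h4 : b < b / D * D + D := Nat.lt_div_mul_add hD
    rw [hab] at h1 h2
    have h1' : ((b / D * D : ℕ) : ℝ) ≤ a := by exact_mod_cast h1
    have h2' : (a : ℝ) < ((b / D * D : ℕ) : ℝ) + D := by exact_mod_cast h2
    have h3' : ((b / D * D : ℕ) : ℝ) ≤ b := by exact_mod_cast h3
    have h4' : (b : ℝ) < ((b / D * D : ℕ) : ℝ) + D := by exact_mod_cast h4
    rw [abs_lt]
    constructor <;> linarith
  refine lt_of_le_of_lt (Complex.norm_le_abs_re_add_abs_im _) ?_
  have h1 := key x.1 y.1 (congrArg Prod.fst h)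
  have h2 := key x.2 y.2 (congrArg Prod.snd h)
  have e1 : (pt x - pt y).re = (x.1 : ℝ) - y.1 := by simp [pt]
  have e2 : (pt x - pt y).im = (x.2 : ℝ) - y.2 := by simp [pt]
  rw [e1, e2]
  linarith

theorem one_le_ds {p q : Pt} (h : p ≠ q) : 1 ≤ ds p q := by
  rw [ds, Real.one_le_sqrt]
  have key : ∀ a b : ℕ, a ≠ b → (1 : ℝ) ≤ ((a : ℝ) - b) ^ 2 := by
    intro a b hab
    rcases Nat.lt_or_gt_of_ne hab with h1 | h1
    · have : (a : ℝ) + 1 ≤ b := by exact_mod_cast h1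
      nlinarith
    · have : (b : ℝ) + 1 ≤ a := by exact_mod_cast h1
      nlinarith
  by_cases h1 : p.1 = q.1
  · have h2 : p.2 ≠ q.2 := fun h2 => h (Prod.ext h1 h2)
    have := key _ _ h2
    nlinarith [sq_nonneg ((p.1 : ℝ) - q.1)]
  · have := key _ _ h1
    nlinarith [sq_nonneg ((p.2 : ℝ) - q.2)]

theorem mstW_nonneg (P : Finset Pt) : 0 ≤ mstW P := by
  unfold mstW
  exact Finset.sum_nonneg fun e _ => Real.sqrt_nonneg _

/-- a candidate forces two occupied boxes of the level below -/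
theorem two_boxes {β N u m : ℕ} (hβ : 2 ≤ β) (hm : 3 ≤ m) {X : Finset Pt} {Z : Pt} {x : Pt × ℕ}
    (hx : x ∈ cands β N u m (Qc (DD β N u m) (DD β N u (m - 2)) X Z) Z) :
    2 ≤ (X.image (bx (DD β N u (m - 1)))).card := by
  rw [cands, Finset.mem_filter] at hx
  obtain ⟨_, hc, _, hlow, _, ⟨q, hq, hqd⟩, _⟩ := hx
  have hσ0 : 0 < DD β N u (m - 2) := DD_pos (by omega) _ _ _
  have hD1 : 0 < DD β N u (m - 1) := DD_pos (by omega) _ _ _
  rw [Qc, Finset.mem_image] at hc hq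
  obtain ⟨y, hy, hyc⟩ := hc
  obtain ⟨y', hy', hyq⟩ := hq
  have h1 := rd_dist hσ0 y
  rw [hyc] at h1
  have h2 := rd_dist hσ0 y'
  rw [hyq] at h2
  rw [ds_eq] at hqd
  have h3 : (β : ℝ) * DD β N u (m - 1) ≤ x.2 * DD β N u (m - 2) := by exact_mod_cast hlow
  have hβ' : (2 : ℝ) ≤ β := by exact_mod_cast hβ
  have hD1' : (0 : ℝ) < DD β N u (m - 1) := by exact_mod_cast hD1
  have h4 : 2 * (DD β N u (m - 1) : ℝ) ≤ β * DD β N u (m - 1) :=
    mul_le_mul_of_nonneg_right hβ' hD1'.le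
  have t1 : ‖pt q - pt x.1‖ ≤ ‖pt y' - pt q‖ + ‖pt y - pt x.1‖ + ‖pt y - pt y'‖ := by
    have e : pt q - pt x.1 = -(pt y' - pt q) + (pt y - pt x.1) - (pt y - pt y') := by ring
    rw [e]
    refine (norm_sub_le _ _).trans ?_
    have := norm_add_le (-(pt y' - pt q)) (pt y - pt x.1)
    rw [norm_neg] at this
    linarith
  have hne : bx (DD β N u (m - 1)) y ≠ bx (DD β N u (m - 1)) y' := by
    intro he
    have := same_box hD1 he
    linarith
  exact Finset.one_lt_card.2 ⟨_, Finset.mem_image_of_mem _ (Finset.mem_filter.1 hy).1, _,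
    Finset.mem_image_of_mem _ (Finset.mem_filter.1 hy').1, hne⟩

section hyp2

variable {P : Finset Pt} {β N L Δ M SM KK J Bc R cap1 cap2 u : ℕ} {s : Pt}

theorem boxes_le (hEX : St_EX) (h : SHyp P β N L Δ M SM KK J Bc R cap1 cap2 u s) (D : ℕ) :
    ((P.image (sh M s)).image (bx D)).card ≤ cutN M s D P + 1 := by
  rw [Finset.image_image]
  exact (hEX M s D P h.ne).2

theorem L_le (h : SHyp P β N L Δ M SM KK J Bc R cap1 cap2 u s) :
    (10 : ℝ) ^ 5 * L * 10 ^ 15 ≤ ((β ^ N : ℕ) : ℝ) := by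
  have h1 : β ≤ β ^ N := by
    calc β = β ^ 1 := (pow_one _).symm
      _ ≤ β ^ N := Nat.pow_le_pow_right (beta_pos h) (by have := h.hN; omega)
  have h2 : 10 ^ 20 * L ≤ β ^ N := h.hβ.trans h1
  have h3 : ((10 ^ 20 * L : ℕ) : ℝ) ≤ ((β ^ N : ℕ) : ℝ) := by exact_mod_cast h2
  refine le_trans (le_of_eq ?_) h3
  push_cast
  ring

/-- number of occupied boxes times the side -/
theorem NB_le (hEX : St_EX) (h : SHyp P β N L Δ M SM KK J Bc R cap1 cap2 u s) {m : ℕ}
    (hm : m ∈ Finset.Icc 3 L) {Z : Pt} {x : Pt × ℕ}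
    (hx : x ∈ cands β N u m (Qc (DD β N u m) (DD β N u (m - 2)) (P.image (sh M s)) Z) Z) :
    (((P.image (sh M s)).image (bx (DD β N u m))).card : ℝ) * DD β N u m ≤
      ((β ^ N : ℕ) : ℝ) ^ 2 * (M * mstW P) := by
  have hmm := Finset.mem_Icc.1 hm
  have hβ := beta_big h
  have hW0 : (0 : ℝ) ≤ M * mstW P := mul_nonneg (Nat.cast_nonneg _) (mstW_nonneg P)
  have hLB := L_le h
  have hL0 : (0 : ℝ) ≤ L := Nat.cast_nonneg _
  set B : ℝ := ((β ^ N : ℕ) : ℝ) with hB
  have hL7 : (7 : ℝ) ≤ L := by exact_mod_cast h.hL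
  have hB1 : 1 ≤ B := by nlinarith
  have hB2 : (10 : ℝ) ^ 5 * L * 2 ≤ B := by nlinarith
  have hBB : B ≤ B ^ 2 := by nlinarith
  have hcutm := h.cut m hm
  have hbm := boxes_le hEX h (DD β N u m)
  set NB := ((P.image (sh M s)).image (bx (DD β N u m))).card with hNB
  have hD0 : (0 : ℝ) < DD β N u m := by exact_mod_cast DD_pos (beta_pos h) N u m
  rcases Nat.lt_or_ge NB 2 with hn | hn
  · -- one box
    have hNB1 : (NB : ℝ) ≤ 1 := by exact_mod_cast (by omega : NB ≤ 1)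
    have h2 := two_boxes (by omega) hmm.1 hx
    have h3 := boxes_le hEX h (DD β N u (m - 1))
    have h4 : 1 ≤ cutN M s (DD β N u (m - 1)) P := by omega
    have h5 : (NB : ℝ) * DD β N u m ≤ DD β N u m := by
      have := mul_le_mul_of_nonneg_right hNB1 hD0.le
      linarith
    refine h5.trans ?_
    rcases Nat.lt_or_ge m 4 with hm4 | hm4
    · -- m = 3
      have hm3 : m = 3 := by omega
      have h6 : (cutN M s (DD β N u (m - 1)) P) ≠ 0 := by omega
      rw [cutN, Finset.card_ne_zero] at h6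
      obtain ⟨e, he⟩ := h6
      rw [Finset.mem_filter] at he
      have hne : e.1 ≠ e.2 := fun h => he.2 (by rw [h])
      have h7 : 1 ≤ mstW P := by
        refine (one_le_ds hne).trans ?_
        exact Finset.single_le_sum (f := fun e : Pt × Pt => ds e.1 e.2)
          (fun e _ => Real.sqrt_nonneg _) he.1
      have h8 : DD β N u m ≤ M := by
        rw [hm3, h.hM, DD]
        refine Nat.pow_le_pow_right (beta_pos h) ?_
        have := h.hu
        omega
      have h9 : (DD β N u m : ℝ) ≤ M := by exact_mod_cast h8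
      have h10 : (M : ℝ) ≤ M * mstW P := le_mul_of_one_le_right (Nat.cast_nonneg _) h7
      calc (DD β N u m : ℝ) ≤ 1 * (M * mstW P) := by linarith
        _ ≤ B ^ 2 * (M * mstW P) := mul_le_mul_of_nonneg_right (by nlinarith) hW0
    · have h6 := h.cut (m - 1) (Finset.mem_Icc.2 (by omega))
      have h7 : (DD β N u (m - 1) : ℝ) ≤ (10 : ℝ) ^ 5 * L * (M * mstW P) := by
        refine le_trans ?_ h6
        have h8 : (1 : ℝ) ≤ (cutN M s (DD β N u (m - 1)) P : ℝ) := by exact_mod_cast h4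
        exact le_mul_of_one_le_left (Nat.cast_nonneg _) h8
      have h8 : (DD β N u m : ℝ) = DD β N u (m - 1) * B := by
        have : DD β N u m = DD β N u (m - 1) * β ^ N := by
          have e : m = (m - 1) + 1 := by omega
          conv_lhs => rw [e]
          rw [DD_add, pow_one]
        rw [this]
        push_cast
        rw [hB]
        push_cast
        ring
      rw [h8]
      have hB0 : 0 ≤ B := by linarith
      calc (DD β N u (m - 1) : ℝ) * B ≤ ((10 : ℝ) ^ 5 * L * (M * mstW P)) * B :=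
            mul_le_mul_of_nonneg_right h7 hB0
        _ = ((10 : ℝ) ^ 5 * L) * (B * (M * mstW P)) := by ring
        _ ≤ B * (B * (M * mstW P)) := by
            refine mul_le_mul_of_nonneg_right ?_ (by positivity)
            nlinarith
        _ = _ := by ring
  · have h2 : (NB : ℝ) ≤ 2 * cutN M s (DD β N u m) P := by
      have : NB ≤ 2 * cutN M s (DD β N u m) P := by omega
      exact_mod_cast this
    calc (NB : ℝ) * DD β N u m ≤ 2 * cutN M s (DD β N u m) P * DD β N u m :=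
          mul_le_mul_of_nonneg_right h2 hD0.le
      _ = 2 * (cutN M s (DD β N u m) P * DD β N u m) := by ring
      _ ≤ 2 * ((10 : ℝ) ^ 5 * L * (M * mstW P)) := by linarith
      _ = ((10 : ℝ) ^ 5 * L * 2) * (M * mstW P) := by ring
      _ ≤ B ^ 2 * (M * mstW P) := mul_le_mul_of_nonneg_right (hB2.trans hBB) hW0

end hyp2

end Pool.Agent.H660R3.TS.SF
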