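import Mathlib
import Pool.Agent.H660R3.TS.SFb

/-!
# Expectations for the accuracy of the estimate of one level of `Fstar`
-/

set_option autoImplicit false

open scoped Classical

namespace Pool.Agent.H660R3.TS.SF

open Finset

/-! ### Indices -/

section idx

variable {L KK J SM Bc R : ℕ}

/-- the index of a box -/
def ix (L : ℕ) {KK : ℕ} (hK : 0 < KK) (m : ℕ) (Z : Pt) : Fin (L + 1) × Fin KK × Fin KK :=
  (⟨m % (L + 1), Nat.mod_lt _ (Nat.succ_pos _)⟩, ⟨Z.1 % KK, Nat.mod_lt _ hK⟩,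
    ⟨Z.2 % KK, Nat.mod_lt _ hK⟩)

/-- the index of a radius -/
def kx (hB : 0 < Bc) (hR : 0 < R) (e : Pt) (a i : ℕ) : Fin Bc × Fin Bc × Fin Bc × Fin R :=
  (⟨e.1 % Bc, Nat.mod_lt _ hB⟩, ⟨e.2 % Bc, Nat.mod_lt _ hB⟩, ⟨a % Bc, Nat.mod_lt _ hB⟩,
    ⟨i % R, Nat.mod_lt _ hR⟩)

theorem ix_eq {hK : 0 < KK} {m : ℕ} {Z : Pt} (hm : m < L + 1) (h1 : Z.1 < KK) (h2 : Z.2 < KK) :
    ix L hK m Z = (⟨m, hm⟩, ⟨Z.1, h1⟩, ⟨Z.2, h2⟩) := by
  simp only [ix, Nat.mod_eq_of_lt hm, Nat.mod_eq_of_lt h1, Nat.mod_eq_of_lt h2]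

theorem kx_eq {hB : 0 < Bc} {hR : 0 < R} {e : Pt} {a i : ℕ} (h1 : e.1 < Bc) (h2 : e.2 < Bc)
    (h3 : a < Bc) (h4 : i < R) :
    kx hB hR e a i = (⟨e.1, h1⟩, ⟨e.2, h2⟩, ⟨a, h3⟩, ⟨i, h4⟩) := by
  simp only [kx, Nat.mod_eq_of_lt h1, Nat.mod_eq_of_lt h2, Nat.mod_eq_of_lt h3,
    Nat.mod_eq_of_lt h4]

theorem toRnd_h (hK : 0 < KK) {m : ℕ} {Z : Pt} (hm : m ≤ L) (hZ : Z.1 < KK ∧ Z.2 < KK)
    (ω : Seed L KK J SM Bc R) : (toRnd ω).h m Z = ((ω (ix L hK m Z)).1 : ℕ) := by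
  have hm' : m < L + 1 := Nat.lt_succ_of_le hm
  rw [ix_eq hm' hZ.1 hZ.2]
  simp only [toRnd]
  rw [dif_pos ⟨hm', hZ.1, hZ.2⟩]

theorem toRnd_r (hK : 0 < KK) (hB : 0 < Bc) (hR : 0 < R) {m : ℕ} {Z : Pt} (hm : m ≤ L)
    (hZ : Z.1 < KK ∧ Z.2 < KK) {e : Pt} {a i : ℕ} (h1 : e.1 < Bc) (h2 : e.2 < Bc)
    (h3 : a < Bc) (h4 : i < R) (ω : Seed L KK J SM Bc R) :
    (toRnd ω).r m Z e a i = ((ω (ix L hK m Z)).2 (kx hB hR e a i) : ℕ) := by
  have hm' : m < L + 1 := Nat.lt_succ_of_le hm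
  rw [ix_eq hm' hZ.1 hZ.2, kx_eq h1 h2 h3 h4]
  simp only [toRnd]
  rw [dif_pos ⟨⟨hm', hZ.1, hZ.2⟩, h1, h2, h3, h4⟩]

theorem ix_inj {hK : 0 < KK} {m : ℕ} (O : Finset Pt) (hO : ∀ Z ∈ O, Z.1 < KK ∧ Z.2 < KK) :
    Set.InjOn (ix L hK m) O := by
  intro Z hZ Z' hZ' h
  obtain ⟨h1, h2⟩ := hO Z hZ
  obtain ⟨h3, h4⟩ := hO Z' hZ'
  simp only [ix, Prod.mk.injEq, Fin.mk.injEq, true_and] at h
  rw [Nat.mod_eq_of_lt h1, Nat.mod_eq_of_lt h2, Nat.mod_eq_of_lt h3, Nat.mod_eq_of_lt h4] at h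
  exact Prod.ext h.1 h.2

end idx

/-! ### Expectations -/

theorem P0' (h0 : St_P0) {ι A : Type} [Fintype ι] [DecidableEq ι] [Fintype A] (z : ι)
    (F : A → ℝ) :
    (∑ ω : ι → A, F (ω z)) * Fintype.card A = (∑ a, F a) * Fintype.card (ι → A) := by
  convert h0 ι A z F

theorem card_fin_filter (n : ℕ) (p : ℕ → Prop) [DecidablePred p] :
    (univ.filter (fun h : Fin n => p h.val)).card = ((range n).filter p).card := by
  refine Finset.card_bij (fun h _ => h.val) ?_ ?_ ?_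
  · intro h hh
    exact Finset.mem_filter.2 ⟨Finset.mem_range.2 h.2, (Finset.mem_filter.1 hh).2⟩
  · intro a _ b _ hab
    exact Fin.ext hab
  · intro k hk
    obtain ⟨h1, h2⟩ := Finset.mem_filter.1 hk
    exact ⟨⟨k, Finset.mem_range.1 h1⟩, Finset.mem_filter.2 ⟨Finset.mem_univ _, h2⟩, rfl⟩

theorem card_sel {J j : ℕ} (hj : j ≤ J) :
    (univ.filter (fun h : Fin (2 ^ J) => h.val * 2 ^ j < 2 ^ J)).card = 2 ^ (J - j) := by
  rw [card_fin_filter (2 ^ J) (fun h => h * 2 ^ j < 2 ^ J)]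
  have : (range (2 ^ J)).filter (fun h => h * 2 ^ j < 2 ^ J) = range (2 ^ (J - j)) := by
    ext k
    rw [Finset.mem_filter, Finset.mem_range, Finset.mem_range]
    have e : 2 ^ J = 2 ^ (J - j) * 2 ^ j := by rw [← pow_add]; congr 1; omega
    constructor
    · rintro ⟨_, h⟩
      rw [e] at h
      exact lt_of_mul_lt_mul_right h (Nat.zero_le _)
    · intro h
      refine ⟨lt_of_lt_of_le h (Nat.pow_le_pow_right (by norm_num) (by omega)), ?_⟩
      rw [e]
      exact Nat.mul_lt_mul_of_pos_right h (by positivity)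
  rw [this, Finset.card_range]

/-- the seed of one box -/
abbrev AA (J SM : ℕ) (κ : Type) : Type := Fin (2 ^ J) × (κ → Fin SM)

theorem exp_sel (h0 : St_P0) {ι κ : Type} [Fintype ι] [DecidableEq ι] [Fintype κ]
    [DecidableEq κ] {J SM : ℕ} (hSM : 0 < SM) (z : ι) {j : ℕ} (hj : j ≤ J)
    (G : (κ → Fin SM) → ℝ) (b : ℝ)
    (hG : ∑ r, G r ≤ b * Fintype.card (κ → Fin SM)) :
    ∑ ω : ι → Fin (2 ^ J) × (κ → Fin SM),
      (2 : ℝ) ^ j * (if (ω z).1.val * 2 ^ j < 2 ^ J then G (ω z).2 else 0) ≤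
      b * Fintype.card (ι → Fin (2 ^ J) × (κ → Fin SM)) := by
  have : NeZero SM := ⟨by omega⟩
  set F : AA J SM κ → ℝ := fun a => (2 : ℝ) ^ j * (if a.1.val * 2 ^ j < 2 ^ J then G a.2 else 0) with hF
  have h1 := P0' h0 (A := AA J SM κ) z F
  have h2 : ∑ a, F a ≤ b * Fintype.card (AA J SM κ) := by
    have e1 : ∑ a, F a = (2 : ℝ) ^ J * ∑ r, G r := by
      rw [Fintype.sum_prod_type]
      simp only [hF]
      have e2 : ∀ x : Fin (2 ^ J), ∑ y : κ → Fin SM,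
          (2 : ℝ) ^ j * (if x.val * 2 ^ j < 2 ^ J then G y else 0) =
          if x.val * 2 ^ j < 2 ^ J then (2 : ℝ) ^ j * ∑ r, G r else 0 := by
        intro x
        by_cases hx : x.val * 2 ^ j < 2 ^ J
        · simp only [if_pos hx]
          rw [Finset.mul_sum]
        · simp only [if_neg hx]
          simp
      rw [Finset.sum_congr rfl (fun x _ => e2 x), ← Finset.sum_filter, Finset.sum_const,
        card_sel hj, nsmul_eq_mul]
      push_cast
      rw [← mul_assoc, ← pow_add]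
      congr 3
      omega
    rw [e1, Fintype.card_prod, Fintype.card_fin]
    push_cast
    calc (2 : ℝ) ^ J * ∑ r, G r ≤ (2 : ℝ) ^ J * (b * Fintype.card (κ → Fin SM)) :=
          mul_le_mul_of_nonneg_left hG (by positivity)
      _ = _ := by push_cast; ring
  have hcA : (0 : ℝ) < Fintype.card (AA J SM κ) := by
    have : 0 < Fintype.card (AA J SM κ) := Fintype.card_pos_iff.2
      ⟨(⟨0, by positivity⟩, fun _ => ⟨0, hSM⟩)⟩
    exact_mod_cast this
  have h3 : (∑ ω : ι → AA J SM κ, F (ω z)) * Fintype.card (AA J SM κ) ≤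
      (b * Fintype.card (ι → AA J SM κ)) * Fintype.card (AA J SM κ) := by
    rw [h1]
    calc (∑ a, F a) * Fintype.card (ι → AA J SM κ) ≤
        (b * Fintype.card (AA J SM κ)) * Fintype.card (ι → AA J SM κ) :=
          mul_le_mul_of_nonneg_right h2 (Nat.cast_nonneg _)
      _ = _ := by ring
  exact le_of_mul_le_mul_right h3 hcA

/-! ### The empirical frequencies -/

/-- empirical value of a candidate -/
noncomputable def ut (β N u : ℕ) {Bc R SM : ℕ} (hB : 0 < Bc) (hR : 0 < R) (m : ℕ) (X : Finset Pt)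
    (Z : Pt) (x : Pt × ℕ) (r : (Fin Bc × Fin Bc × Fin Bc × Fin R) → Fin SM) : ℝ :=
  (DD β N u (m - 2) : ℝ) * ((univ.filter (fun i : Fin R => Unhit β N u m X x.1
    (x.2 * DD β N u (m - 2) +
      ((r (kx hB hR (cidx β N u m Z x.1) x.2 i)).val % DD β N u (m - 2))))).card : ℝ) / R

theorem uval_eq (β N u m : ℕ) (X : Finset Pt) (x : Pt × ℕ) :
    uval β N u m X x = (((range (DD β N u (m - 2))).filter
      (fun r => Unhit β N u m X x.1 (x.2 * DD β N u (m - 2) + r))).card : ℝ) := by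
  rw [uval]
  congr 1
  refine Finset.card_nbij' (fun k => k - x.2 * DD β N u (m - 2))
    (fun k => x.2 * DD β N u (m - 2) + k) ?_ ?_ ?_ ?_
  · intro k hk
    have hk' := Finset.mem_filter.1 hk
    obtain ⟨h1, h2⟩ := Finset.mem_Ico.1 hk'.1
    have e : (x.2 + 1) * DD β N u (m - 2) = x.2 * DD β N u (m - 2) + DD β N u (m - 2) := by ring
    refine Finset.mem_filter.2 ⟨Finset.mem_range.2 ?_, ?_⟩
    · change k - x.2 * DD β N u (m - 2) < DD β N u (m - 2)
      omega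
    · rw [Nat.add_sub_cancel' h1]
      exact hk'.2
  · intro k hk
    have hk' := Finset.mem_filter.1 hk
    have h1 := Finset.mem_range.1 hk'.1
    have e : (x.2 + 1) * DD β N u (m - 2) = x.2 * DD β N u (m - 2) + DD β N u (m - 2) := by ring
    refine Finset.mem_filter.2 ⟨Finset.mem_Ico.2 ?_, hk'.2⟩
    change x.2 * DD β N u (m - 2) ≤ x.2 * DD β N u (m - 2) + k ∧
      x.2 * DD β N u (m - 2) + k < (x.2 + 1) * DD β N u (m - 2)
    omega
  · intro k hk
    have hk' := Finset.mem_filter.1 hk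
    obtain ⟨h1, h2⟩ := Finset.mem_Ico.1 hk'.1
    exact Nat.add_sub_cancel' h1
  · intro k _
    exact Nat.add_sub_cancel_left _ _

theorem ut_exp (h2 : St_P2) {β N u : ℕ} {Bc R SM : ℕ} (hB : 0 < Bc) (hR : 0 < R) (hSM : 0 < SM)
    (m : ℕ) (hσ : 0 < DD β N u (m - 2)) (hdvd : DD β N u (m - 2) ∣ SM)
    (X : Finset Pt) (Z : Pt) (x : Pt × ℕ) :
    ∑ r : (Fin Bc × Fin Bc × Fin Bc × Fin R) → Fin SM,
      |ut β N u hB hR m X Z x r - uval β N u m X x| ≤
    (DD β N u (m - 2) / Real.sqrt R) *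
      Fintype.card ((Fin Bc × Fin Bc × Fin Bc × Fin R) → Fin SM) := by
  set σ := DD β N u (m - 2) with hσd
  set U : Finset ℕ := (range σ).filter (fun r => Unhit β N u m X x.1 (x.2 * σ + r)) with hU
  have hinj : Function.Injective
      (fun i : Fin R => kx hB hR (cidx β N u m Z x.1) x.2 (i : ℕ)) := by
    intro i i' h
    simp only [kx, Prod.mk.injEq, Fin.mk.injEq, true_and] at h
    rw [Nat.mod_eq_of_lt i.2, Nat.mod_eq_of_lt i'.2] at h
    exact Fin.ext h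
  have h := h2 (Fin Bc × Fin Bc × Fin Bc × Fin R) R σ SM _ U hinj hR hσ hdvd hSM
    (Finset.filter_subset _ _)
  rw [mul_comm]
  refine le_trans (le_of_eq ?_) (h.trans (le_of_eq ?_))
  · have e1 : ∀ r : (Fin Bc × Fin Bc × Fin Bc × Fin R) → Fin SM,
        |ut β N u hB hR m X Z x r - uval β N u m X x| =
        |(σ : ℝ) * ((Finset.univ.filter (fun i : Fin R =>
          ((r (kx hB hR (cidx β N u m Z x.1) x.2 (i : ℕ)) : ℕ) % σ) ∈ U)).card : ℝ) / R -
            U.card| := by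
      intro r
      rw [ut, uval_eq]
      have e2 : (univ.filter (fun i : Fin R => Unhit β N u m X x.1
          (x.2 * DD β N u (m - 2) +
            ((r (kx hB hR (cidx β N u m Z x.1) x.2 i)).val % DD β N u (m - 2))))) =
          (Finset.univ.filter (fun i : Fin R =>
            ((r (kx hB hR (cidx β N u m Z x.1) x.2 (i : ℕ)) : ℕ) % σ) ∈ U)) := by
        ext i
        rw [Finset.mem_filter, Finset.mem_filter, hU, Finset.mem_filter, Finset.mem_range]
        constructor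
        · rintro ⟨h1, h2⟩
          exact ⟨h1, Nat.mod_lt _ hσ, h2⟩
        · rintro ⟨h1, _, h2⟩
          exact ⟨h1, h2⟩
      rw [e2]
    convert Finset.sum_congr rfl (fun r _ => e1 r)
  · congr 2
    convert rfl

/-! ### Radii meeting a small box -/

theorem sum_mod (σ q : ℕ) (f : ℕ → ℝ) :
    ∑ t ∈ range (σ * q), f (t % σ) = q * ∑ r ∈ range σ, f r := by
  induction q with
  | zero => simp
  | succ q ih =>
    rw [Nat.mul_succ, Finset.sum_range_add, ih]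
    have : ∑ x ∈ range σ, f ((σ * q + x) % σ) = ∑ x ∈ range σ, f x := by
      refine Finset.sum_congr rfl fun x hx => ?_
      rw [Nat.mul_add_mod, Nat.mod_eq_of_lt (Finset.mem_range.1 hx)]
    rw [this]
    push_cast
    ring

theorem meets_exp (h0 : St_P0) (h3 : St_P3) {κ : Type} [Fintype κ] [DecidableEq κ] {SM : ℕ}
    (hSM : 0 < SM) {σ D' : ℕ} (hσ : 0 < σ) (hdvd : σ ∣ SM) (hD' : 1 ≤ D') (a : ℕ) (Z' c : Pt)
    (k : κ) :
    ∑ r : κ → Fin SM, (if Meets D' Z' c (a * σ + (r k).val % σ) then (1 : ℝ) else 0) ≤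
      (4 * (D' : ℝ) / σ) * Fintype.card (κ → Fin SM) := by
  have h := P0' h0 (A := Fin SM) k
    (fun t => if Meets D' Z' c (a * σ + t.val % σ) then (1 : ℝ) else 0)
  obtain ⟨q, rfl⟩ := hdvd
  have hq : 0 < q := Nat.pos_of_mul_pos_left hSM |> fun h => by
    rcases Nat.eq_zero_or_pos q with h | h
    · subst h; simp at hSM
    · exact h
  have h4 : ∑ t : Fin (σ * q), (if Meets D' Z' c (a * σ + t.val % σ) then (1 : ℝ) else 0) ≤
      q * (4 * D') := by
    rw [Finset.sum_range (fun t => if Meets D' Z' c (a * σ + t % σ) then (1 : ℝ) else 0) |>.symm]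
    rw [sum_mod σ q (fun t => if Meets D' Z' c (a * σ + t) then (1 : ℝ) else 0)]
    refine mul_le_mul_of_nonneg_left ?_ (Nat.cast_nonneg _)
    rw [← Finset.sum_filter, Finset.sum_const, nsmul_eq_mul, mul_one]
    have := h3 D' σ a Z' c hD'
    exact_mod_cast this
  rw [Fintype.card_fin] at h
  have hpos : (0 : ℝ) < ((σ * q : ℕ) : ℝ) := by exact_mod_cast hSM
  have hσ' : (0 : ℝ) < σ := by exact_mod_cast hσ
  refine le_of_mul_le_mul_right ?_ hpos
  rw [h]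
  calc (∑ t : Fin (σ * q), (if Meets D' Z' c (a * σ + t.val % σ) then (1 : ℝ) else 0)) *
        Fintype.card (κ → Fin (σ * q))
      ≤ (q * (4 * D')) * Fintype.card (κ → Fin (σ * q)) :=
        mul_le_mul_of_nonneg_right h4 (Nat.cast_nonneg _)
    _ = _ := by
        rw [Nat.cast_mul σ q]
        field_simp

end Pool.Agent.H660R3.TS.SF
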