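import Mathlib
import Pool.Agent.H660R3.TS.SFc

/-!
# Overflows and the deterministic part of the accuracy of the estimate of `Fstar`
-/

set_option autoImplicit false

open scoped Classical

namespace Pool.Agent.H660R3.TS.SF

open Finset

theorem mem_filter_cl {α : Type*} (s : Finset α) (p : α → Prop) (inst : DecidablePred p) (a : α) :
    a ∈ @Finset.filter α p inst s ↔ a ∈ s ∧ p a := Finset.mem_filter

theorem card_filter_le_cl {α : Type*} (s : Finset α) (p : α → Prop) (inst : DecidablePred p) :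
    (@Finset.filter α p inst s).card ≤ s.card := Finset.card_filter_le _ _

/-! ### Counting candidates -/

section cnt

variable {β N u m : ℕ} {X : Finset Pt} {Z : Pt}

theorem DD_two (β N u : ℕ) {m : ℕ} (hm : 3 ≤ m) :
    DD β N u m = DD β N u (m - 2) * (β ^ N) ^ 2 := by
  have e : m = (m - 2) + 2 := by omega
  conv_lhs => rw [e]
  rw [DD_add]

theorem card_Qc (hβ : 0 < β) (hm : 3 ≤ m) :
    (Qc (DD β N u m) (DD β N u (m - 2)) X Z).card ≤ (β ^ N) ^ 4 := by
  rw [Qc]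
  refine (card_rd_box (k := (β ^ N) ^ 2) (by positivity) _ Z ?_).trans (le_of_eq ?_)
  · intro x hx
    rw [← DD_two β N u hm]
    exact (Finset.mem_filter.1 hx).2
  · rw [← pow_mul]

theorem cand_snd_lt (hβ : 0 < β) (hm : 3 ≤ m) {x : Pt × ℕ}
    (hx : x ∈ cands β N u m (Qc (DD β N u m) (DD β N u (m - 2)) X Z) Z) :
    x.2 < (β ^ N) ^ 2 := by
  rw [cands, Finset.mem_filter] at hx
  obtain ⟨_, _, _, _, hb, _, _⟩ := hx
  have hσ := DD_pos hβ N u (m - 2)
  rw [DD_two β N u hm] at hb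
  have h1 : (x.2 + 1) * DD β N u (m - 2) ≤ DD β N u (m - 2) * (β ^ N) ^ 2 := by
    refine le_trans ?_ hb
    exact Nat.le_mul_of_pos_right _ (by positivity)
  have h2 : DD β N u (m - 2) * (x.2 + 1) ≤ DD β N u (m - 2) * (β ^ N) ^ 2 := by
    rw [mul_comm (DD β N u (m - 2)) (x.2 + 1)]
    exact h1
  have := Nat.le_of_mul_le_mul_left h2 hσ
  omega

theorem card_cands (hβ : 0 < β) (hm : 3 ≤ m) :
    (cands β N u m (Qc (DD β N u m) (DD β N u (m - 2)) X Z) Z).card ≤ (β ^ N) ^ 6 := by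
  have hsub : cands β N u m (Qc (DD β N u m) (DD β N u (m - 2)) X Z) Z ⊆
      (Qc (DD β N u m) (DD β N u (m - 2)) X Z) ×ˢ range ((β ^ N) ^ 2) := by
    intro x hx
    have h1 := cand_snd_lt hβ hm hx
    rw [cands, Finset.mem_filter, Finset.mem_product] at hx
    exact Finset.mem_product.2 ⟨hx.1.1, Finset.mem_range.2 h1⟩
  refine (Finset.card_le_card hsub).trans ?_
  rw [Finset.card_product, Finset.card_range]
  calc _ ≤ (β ^ N) ^ 4 * (β ^ N) ^ 2 := Nat.mul_le_mul_right _ (card_Qc hβ hm)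
    _ = (β ^ N) ^ 6 := by rw [← pow_add]

theorem uval_le (x : Pt × ℕ) : uval β N u m X x ≤ DD β N u (m - 2) := by
  rw [uval_eq]
  have := Finset.card_filter_le (range (DD β N u (m - 2)))
    (fun r => Unhit β N u m X x.1 (x.2 * DD β N u (m - 2) + r))
  rw [Finset.card_range] at this
  exact_mod_cast this

theorem maxFam_cands_le (hβ : 0 < β) (hm : 3 ≤ m) (g : Pt × ℕ → ℝ)
    (hg : ∀ x, g x ≤ DD β N u (m - 2)) :
    maxFam (DD β N u (m - 2)) (cands β N u m (Qc (DD β N u m) (DD β N u (m - 2)) X Z) Z) g ≤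
      ((β ^ N : ℕ) : ℝ) ^ 4 * DD β N u m := by
  refine (maxFam_le (Nat.cast_nonneg _) (fun x _ => hg x)).trans ?_
  have h1 : ((cands β N u m (Qc (DD β N u m) (DD β N u (m - 2)) X Z) Z).card : ℝ) ≤
      ((β ^ N : ℕ) : ℝ) ^ 6 := by
    have := card_cands (N := N) (u := u) (X := X) (Z := Z) hβ hm
    exact_mod_cast this
  have h2 : (DD β N u m : ℝ) = DD β N u (m - 2) * ((β ^ N : ℕ) : ℝ) ^ 2 := by
    rw [DD_two β N u hm]
    push_cast
    ring
  rw [h2]
  calc _ ≤ ((β ^ N : ℕ) : ℝ) ^ 6 * (DD β N u (m - 2) : ℝ) :=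
        mul_le_mul_of_nonneg_right h1 (Nat.cast_nonneg _)
    _ = _ := by ring

theorem Vbox_le (hβ : 0 < β) (hm : 3 ≤ m) :
    Vbox β N u m X Z ≤ ((β ^ N : ℕ) : ℝ) ^ 4 * DD β N u m :=
  maxFam_cands_le hβ hm _ fun x => uval_le x

theorem Vbox_nonneg : 0 ≤ Vbox β N u m X Z := maxFam_nonneg _ _ _

theorem cidx_lt (hβ : 0 < β) (hm : 3 ≤ m) {x : Pt × ℕ}
    (hx : x ∈ cands β N u m (Qc (DD β N u m) (DD β N u (m - 2)) X Z) Z) :
    (cidx β N u m Z x.1).1 < (β ^ N) ^ 2 ∧ (cidx β N u m Z x.1).2 < (β ^ N) ^ 2 := by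
  rw [cands, Finset.mem_filter] at hx
  obtain ⟨_, hc, _⟩ := hx
  rw [Qc, Finset.mem_image] at hc
  obtain ⟨y, hy, hyc⟩ := hc
  have hyZ := (Finset.mem_filter.1 hy).2
  have hσ := DD_pos hβ N u (m - 2)
  set σ := DD β N u (m - 2) with hσd
  set k := (β ^ N) ^ 2 with hk
  have hk0 : 0 < k := by positivity
  have hD : DD β N u m = σ * k := DD_two β N u hm
  have key : ∀ a b c : ℕ, a / (σ * k) = b → a / σ * σ = c → (c - b * (σ * k)) / σ < k := by
    intro a b c hab hac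
    rw [← hac, ← hab, ← Nat.div_div_eq_div_mul]
    have e : a / σ * σ - a / σ / k * (σ * k) = σ * (a / σ - a / σ / k * k) := by
      rw [Nat.mul_sub]
      congr 1
      · ring
      · ring
    rw [e, Nat.mul_div_cancel_left _ hσ]
    have := Nat.lt_div_mul_add (a := a / σ) hk0
    omega
  rw [hD] at hyZ
  have z1 : y.1 / (σ * k) = Z.1 := congrArg Prod.fst hyZ
  have z2 : y.2 / (σ * k) = Z.2 := congrArg Prod.snd hyZ
  have c1 : y.1 / σ * σ = x.1.1 := congrArg Prod.fst hyc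
  have c2 : y.2 / σ * σ = x.1.2 := congrArg Prod.snd hyc
  simp only [cidx]
  rw [hD]
  exact ⟨key _ _ _ z1 c1, key _ _ _ z2 c2⟩

end cnt

/-! ### Overflows -/

/-- the larger box containing `Z'` -/
def up (t : ℕ) (Z' : Pt) : Pt := (Z'.1 / t, Z'.2 / t)

theorem bx_up (D' t : ℕ) (x : Pt) : bx (D' * t) x = up t (bx D' x) := by
  simp only [bx, up, Nat.div_div_eq_div_mul]

section ov

variable {L KK J SM Bc R : ℕ}

/-- weighted number of boxes of level `m'` stored for a circle -/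
noncomputable def YY (β N u : ℕ) (hK : 0 < KK) (hB : 0 < Bc) (hR : 0 < R) (m j : ℕ)
    (X : Finset Pt) (e : Pt) (a i m' : ℕ) (ω : Seed L KK J SM Bc R) : ℝ :=
  ∑ Z' ∈ X.image (bx (DD β N u m')), (2 : ℝ) ^ j *
    (if (ω (ix L hK m (up ((β ^ N) ^ (m - m')) Z'))).1.val * 2 ^ j < 2 ^ J then
      (if Meets (DD β N u m') Z' (ctr β N u m (up ((β ^ N) ^ (m - m')) Z') e)
        (a * DD β N u (m - 2) + ((ω (ix L hK m (up ((β ^ N) ^ (m - m')) Z'))).2
          (kx hB hR e a i)).val % DD β N u (m - 2)) then (1 : ℝ) else 0) else 0)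

theorem YY_nonneg (β N u : ℕ) (hK : 0 < KK) (hB : 0 < Bc) (hR : 0 < R) (m j : ℕ)
    (X : Finset Pt) (e : Pt) (a i m' : ℕ) (ω : Seed L KK J SM Bc R) :
    0 ≤ YY β N u hK hB hR m j X e a i m' ω := by
  unfold YY
  refine Finset.sum_nonneg fun Z' _ => ?_
  split_ifs <;> positivity

theorem YY_exp (h0 : St_P0) (h3 : St_P3) (β N u : ℕ) (hβ : 0 < β) (hK : 0 < KK) (hB : 0 < Bc)
    (hR : 0 < R) (hSM : 0 < SM) (m : ℕ) {j : ℕ} (hj : j ≤ J) (hdvd : DD β N u (m - 2) ∣ SM)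
    (X : Finset Pt) (e : Pt) (a i m' : ℕ) :
    ∑ ω : Seed L KK J SM Bc R, YY β N u hK hB hR m j X e a i m' ω ≤
      ((X.image (bx (DD β N u m'))).card * (4 * (DD β N u m' : ℝ) / DD β N u (m - 2))) *
        Fintype.card (Seed L KK J SM Bc R) := by
  unfold YY
  rw [Finset.sum_comm]
  have h : ∀ Z' ∈ X.image (bx (DD β N u m')), ∑ ω : Seed L KK J SM Bc R, (2 : ℝ) ^ j *
    (if (ω (ix L hK m (up ((β ^ N) ^ (m - m')) Z'))).1.val * 2 ^ j < 2 ^ J then
      (if Meets (DD β N u m') Z' (ctr β N u m (up ((β ^ N) ^ (m - m')) Z') e)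
        (a * DD β N u (m - 2) + ((ω (ix L hK m (up ((β ^ N) ^ (m - m')) Z'))).2
          (kx hB hR e a i)).val % DD β N u (m - 2)) then (1 : ℝ) else 0) else 0) ≤
      (4 * (DD β N u m' : ℝ) / DD β N u (m - 2)) * Fintype.card (Seed L KK J SM Bc R) := by
    intro Z' _
    exact exp_sel h0 hSM (ix L hK m (up ((β ^ N) ^ (m - m')) Z')) hj
      (fun r => if Meets (DD β N u m') Z' (ctr β N u m (up ((β ^ N) ^ (m - m')) Z') e)
        (a * DD β N u (m - 2) + (r (kx hB hR e a i)).val % DD β N u (m - 2)) then (1 : ℝ) else 0)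
      _ (meets_exp h0 h3 hSM (DD_pos hβ N u (m - 2)) hdvd (DD_pos hβ N u m') a Z' _ _)
  refine (Finset.sum_le_sum h).trans (le_of_eq ?_)
  rw [Finset.sum_const, nsmul_eq_mul]
  ring

end ov

section hyp

variable {P : Finset Pt} {β N L Δ M SM KK J Bc R cap1 cap2 u : ℕ} {s : Pt}

theorem sel_iff (h : SHyp P β N L Δ M SM KK J Bc R cap1 cap2 u s) {m : ℕ} (hm : m ≤ L)
    {Z : Pt} (hZ : Z.1 < KK ∧ Z.2 < KK) (j : ℕ) (ω : Seed L KK J SM Bc R) :
    Sel J (toRnd ω) m j Z ↔ (ω (ix L (KK_pos h) m Z)).1.val * 2 ^ j < 2 ^ J := by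
  rw [Sel, toRnd_h (KK_pos h) hm hZ]

theorem overflow (h : SHyp P β N L Δ M SM KK J Bc R cap1 cap2 u s) {m : ℕ}
    (hm : m ≤ L) {m' : ℕ} (h3 : 3 ≤ m') (hlt : m' < m) {e : Pt} {a i : ℕ} (he1 : e.1 < Bc)
    (he2 : e.2 < Bc) (ha : a < Bc) (hi : i < R) (j : ℕ) (ω : Seed L KK J SM Bc R)
    (hov : T2of β N u J cap2 (toRnd ω) (P.image (sh M s)) m j e a i m' = none) :
    (cap2 : ℝ) * 2 ^ j < ((β ^ N : ℕ) : ℝ) ^ 4 *
      YY β N u (KK_pos h) (Bc_pos h) (R_pos h) m j (P.image (sh M s)) e a i m' ω := by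
  set X := P.image (sh M s) with hX
  have hβ := beta_pos h
  set κ := K2 β N u J (toRnd ω) m j e a i m' with hκ
  have h1 : cap2 < (X.image κ).eraseNone.card := by
    rw [T2of, skt] at hov
    by_contra hcon
    rw [if_pos (not_lt.1 hcon)] at hov
    exact absurd hov (by simp)
  set S := X.filter (fun x => Sel J (toRnd ω) m j (bx (DD β N u m) x) ∧
      Meets (DD β N u m') (bx (DD β N u m') x) (ctr β N u m (bx (DD β N u m) x) e)
        (rad β N u (toRnd ω) m (bx (DD β N u m) x) e a i)) with hS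
  have h2 : (X.image κ).eraseNone ⊆ S.image (rd (DD β N u (m' - 2))) := by
    intro q hq
    rw [Finset.mem_eraseNone, Finset.mem_image] at hq
    obtain ⟨x, hx, hxq⟩ := hq
    rw [hκ, K2] at hxq
    by_cases hc : Sel J (toRnd ω) m j (bx (DD β N u m) x) ∧
      Meets (DD β N u m') (bx (DD β N u m') x) (ctr β N u m (bx (DD β N u m) x) e)
        (rad β N u (toRnd ω) m (bx (DD β N u m) x) e a i)
    · rw [if_pos hc] at hxq
      exact Finset.mem_image.2 ⟨x, Finset.mem_filter.2 ⟨hx, hc⟩, Option.some.inj hxq⟩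
    · rw [if_neg hc] at hxq
      exact absurd hxq (by simp)
  have h3' : (S.image (rd (DD β N u (m' - 2)))).card ≤
      (S.image (bx (DD β N u m'))).card * (β ^ N) ^ 4 := by
    have := card_rd_boxes (σ := DD β N u (m' - 2)) (k := (β ^ N) ^ 2) (by positivity) S
    rw [← DD_two β N u h3, ← pow_mul] at this
    exact this
  have h4 : ((S.image (bx (DD β N u m'))).card : ℝ) * 2 ^ j ≤
      YY β N u (KK_pos h) (Bc_pos h) (R_pos h) m j X e a i m' ω := by
    unfold YY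
    have hsub : S.image (bx (DD β N u m')) ⊆ X.image (bx (DD β N u m')) :=
      Finset.image_subset_image (Finset.filter_subset _ _)
    refine le_trans ?_ (Finset.sum_le_sum_of_subset_of_nonneg hsub ?_)
    · rw [← nsmul_eq_mul, ← Finset.sum_const]
      refine Finset.sum_le_sum fun Z' hZ' => ?_
      obtain ⟨x, hx, rfl⟩ := Finset.mem_image.1 hZ'
      obtain ⟨hxX, hsel, hmeet⟩ := Finset.mem_filter.1 hx
      have hD : DD β N u m = DD β N u m' * (β ^ N) ^ (m - m') := by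
        have e : m = m' + (m - m') := by omega
        conv_lhs => rw [e]
        rw [DD_add]
      have hup : up ((β ^ N) ^ (m - m')) (bx (DD β N u m') x) = bx (DD β N u m) x := by
        rw [hD, bx_up]
      rw [hup]
      have hZ := box_lt h (DD β N u m) _ (Finset.mem_image_of_mem _ hxX)
      rw [sel_iff h hm hZ] at hsel
      rw [if_pos hsel]
      rw [rad, toRnd_r (KK_pos h) (Bc_pos h) (R_pos h) hm hZ he1 he2 ha hi] at hmeet
      rw [if_pos hmeet, mul_one]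
    · intro Z' _ _
      split_ifs <;> positivity
  have h5 : cap2 < (S.image (bx (DD β N u m'))).card * (β ^ N) ^ 4 :=
    lt_of_lt_of_le h1 ((Finset.card_le_card h2).trans h3')
  have h6 : (cap2 : ℝ) < (S.image (bx (DD β N u m'))).card * ((β ^ N : ℕ) : ℝ) ^ 4 := by
    exact_mod_cast h5
  have h7 : (0 : ℝ) < 2 ^ j := by positivity
  calc (cap2 : ℝ) * 2 ^ j < ((S.image (bx (DD β N u m'))).card * ((β ^ N : ℕ) : ℝ) ^ 4) * 2 ^ j :=
        mul_lt_mul_of_pos_right h6 h7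
    _ = ((β ^ N : ℕ) : ℝ) ^ 4 * ((S.image (bx (DD β N u m'))).card * 2 ^ j) := by ring
    _ ≤ _ := mul_le_mul_of_nonneg_left h4 (by positivity)

/-- without overflow the empirical values are the frequencies of the unhit annuli -/
theorem uhat_eq (hPA2 : St_PA2) (h : SHyp P β N L Δ M SM KK J Bc R cap1 cap2 u s) {m : ℕ}
    (hm : m ∈ Finset.Icc 3 L) {Z : Pt} (hZ : Z.1 < KK ∧ Z.2 < KK) (ω : Seed L KK J SM Bc R)
    (T1 : ℕ → ℕ → Option (Finset Pt)) (hsel : Sel J (toRnd ω) m (jst J T1 m) Z)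
    {x : Pt × ℕ} (hx : x ∈ cands β N u m
      (Qc (DD β N u m) (DD β N u (m - 2)) (P.image (sh M s)) Z) Z)
    (hno : ∀ i < R, ∀ m', 3 ≤ m' → m' < m →
      T2of β N u J cap2 (toRnd ω) (P.image (sh M s)) m (jst J T1 m) (cidx β N u m Z x.1) x.2 i m'
        ≠ none) :
    uhat β N u J R (toRnd ω) T1 (T2of β N u J cap2 (toRnd ω) (P.image (sh M s))) m Z x =
      ut β N u (Bc_pos h) (R_pos h) m (P.image (sh M s)) Z x
        (ω (ix L (KK_pos h) m Z)).2 := by
  have hmm := Finset.mem_Icc.1 hm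
  have hβ := beta_pos h
  have hβ2 : 2 ≤ β := by have := beta_big h; omega
  set X := P.image (sh M s) with hX
  rw [uhat, ut]
  congr 3
  rw [card_fin_filter R (fun i => Unhit β N u m X x.1
    (x.2 * DD β N u (m - 2) +
      ((((ω (ix L (KK_pos h) m Z)).2 (kx (Bc_pos h) (R_pos h) (cidx β N u m Z x.1) x.2 i)).val %
        DD β N u (m - 2)))))]
  refine congrArg Finset.card ?_
  ext i
  rw [mem_filter_cl, mem_filter_cl]
  refine and_congr_right fun hi => ?_
  have hi' := Finset.mem_range.1 hi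
  obtain ⟨c1, c2⟩ := cidx_lt hβ hmm.1 hx
  have c3 := cand_snd_lt hβ hmm.1 hx
  rw [← Bc_eq h] at c1 c2 c3
  have hrad : rad β N u (toRnd ω) m Z (cidx β N u m Z x.1) x.2 i =
      x.2 * DD β N u (m - 2) + ((((ω (ix L (KK_pos h) m Z)).2
        (kx (Bc_pos h) (R_pos h) (cidx β N u m Z x.1) x.2 i)).val % DD β N u (m - 2))) := by
    rw [rad, toRnd_r (KK_pos h) (Bc_pos h) (R_pos h) hmm.2 hZ c1 c2 c3 hi']
  rw [← hrad]
  constructor
  · intro hyp m' h3 hlt
    obtain ⟨S, hS1, hS2⟩ := hyp m' h3 hlt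
    have := (hPA2 β N u J cap2 m (jst J T1 m) x.2 i m' (toRnd ω) X S Z x.1 hβ2
      (by have := h.hN; omega) h3 hlt hsel hx hS1).2
    exact this.1 hS2
  · intro hun m' h3 hlt
    obtain ⟨S, hS⟩ := Option.ne_none_iff_exists'.1 (hno i hi' m' h3 hlt)
    refine ⟨S, hS, ?_⟩
    have := (hPA2 β N u J cap2 m (jst J T1 m) x.2 i m' (toRnd ω) X S Z x.1 hβ2
      (by have := h.hN; omega) h3 hlt hsel hx hS).2
    exact this.2 (hun m' h3 hlt)

theorem uhat_le (β N u : ℕ) {J R : ℕ} (hR : 0 < R) (ω : Rnd) (T1 : ℕ → ℕ → Option (Finset Pt))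
    (T2 : ℕ → ℕ → Pt → ℕ → ℕ → ℕ → Option (Finset Pt)) (m : ℕ) (Z : Pt) (x : Pt × ℕ) :
    uhat β N u J R ω T1 T2 m Z x ≤ DD β N u (m - 2) := by
  rw [uhat]
  have hR' : (0 : ℝ) < R := by exact_mod_cast hR
  rw [div_le_iff₀ hR']
  refine mul_le_mul_of_nonneg_left ?_ (Nat.cast_nonneg _)
  refine le_trans ?_ (le_of_eq (congrArg (Nat.cast : ℕ → ℝ) (Finset.card_range R)))
  exact Nat.cast_le.2 (card_filter_le_cl _ _ _)

/-- the estimate in terms of the sampled boxes -/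
theorem est_eq (hPA1 : St_PA1) (h : SHyp P β N L Δ M SM KK J Bc R cap1 cap2 u s) {m : ℕ}
    (hm : m ∈ Finset.Icc 3 L) (ω : Seed L KK J SM Bc R)
    (hs : (T1of β N u J cap1 (toRnd ω) (P.image (sh M s)) m
      (jst J (T1of β N u J cap1 (toRnd ω) (P.image (sh M s))) m)).isSome)
    (g : Pt → Pt × ℕ → ℝ) :
    ∑ Z ∈ (cont J (T1of β N u J cap1 (toRnd ω) (P.image (sh M s))) m).image (bx (DD β N u m)),
      maxFam (DD β N u (m - 2)) (cands β N u m
        ((cont J (T1of β N u J cap1 (toRnd ω) (P.image (sh M s))) m).filter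
          (fun x => bx (DD β N u m) x = Z)) Z) (g Z) =
    ∑ Z ∈ ((P.image (sh M s)).image (bx (DD β N u m))).filter (fun Z => Sel J (toRnd ω) m
        (jst J (T1of β N u J cap1 (toRnd ω) (P.image (sh M s))) m) Z),
      maxFam (DD β N u (m - 2)) (cands β N u m
        (Qc (DD β N u m) (DD β N u (m - 2)) (P.image (sh M s)) Z) Z) (g Z) := by
  have hmm := Finset.mem_Icc.1 hm
  obtain ⟨C, hC⟩ := Option.isSome_iff_exists.1 hs
  obtain ⟨p1, p2⟩ := hPA1 β N u J cap1 m _ (toRnd ω) (P.image (sh M s)) C (beta_pos h) hmm.1 hC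
  have hcont : cont J (T1of β N u J cap1 (toRnd ω) (P.image (sh M s))) m = C := by
    rw [cont, hC]
    rfl
  rw [hcont, p2]
  refine Finset.sum_congr rfl fun Z hZ => ?_
  rw [p1 Z (Finset.mem_filter.1 hZ).2]

end hyp

end Pool.Agent.H660R3.TS.SF
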