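import Mathlib
import Pool.Agent.H660R3.TS.SFd

/-!
# Events for the accuracy of the estimate of one level of `Fstar`
-/

set_option autoImplicit false

open scoped Classical

namespace Pool.Agent.H660R3.TS.SF

open Finset

section hyp

variable {P : Finset Pt} {β N L Δ M SM KK J Bc R cap1 cap2 u : ℕ} {s : Pt}

theorem card_AA {J SM : ℕ} {κ : Type} [Fintype κ] [DecidableEq κ] {j : ℕ} (hj : j ≤ J) :
    (univ.filter (fun a : AA J SM κ => a.1.val * 2 ^ j < 2 ^ J)).card * 2 ^ j =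
      Fintype.card (AA J SM κ) := by
  have e : (univ.filter (fun a : AA J SM κ => a.1.val * 2 ^ j < 2 ^ J)) =
      (univ.filter (fun h : Fin (2 ^ J) => h.val * 2 ^ j < 2 ^ J)) ×ˢ
        (univ : Finset (κ → Fin SM)) := by
    ext a
    simp
  rw [e, Finset.card_product, card_sel hj, Finset.card_univ, Fintype.card_prod, Fintype.card_fin]
  have e2 : 2 ^ J = 2 ^ (J - j) * 2 ^ j := by rw [← pow_add]; congr 1; omega
  rw [e2]
  ring

theorem card_AA_pos {J SM : ℕ} {κ : Type} [Fintype κ] [DecidableEq κ] (hSM : 0 < SM) :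
    0 < Fintype.card (AA J SM κ) :=
  Fintype.card_pos_iff.2 ⟨(⟨0, by positivity⟩, fun _ => ⟨0, hSM⟩)⟩

/-- Chebyshev's inequality for the sampled boxes -/
theorem P1' (h1 : St_P1) (h : SHyp P β N L Δ M SM KK J Bc R cap1 cap2 u s) {m : ℕ} (hm : m ≤ L)
    (O : Finset Pt) (hO : ∀ Z ∈ O, Z.1 < KK ∧ Z.2 < KK) (v : Pt → ℝ) (vm τ : ℝ) {j : ℕ}
    (hj : j ≤ J) (hv : ∀ Z ∈ O, 0 ≤ v Z ∧ v Z ≤ vm) (hτ : 0 < τ) :
    pr (fun ω : Seed L KK J SM Bc R => τ < |(2 : ℝ) ^ j *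
      ∑ Z ∈ O.filter (fun Z => Sel J (toRnd ω) m j Z), v Z - ∑ Z ∈ O, v Z|) * τ ^ 2 ≤
      2 ^ j * O.card * vm ^ 2 := by
  have hK := KK_pos h
  have hinj := ix_inj (L := L) (hK := hK) (m := m) O hO
  have hv' : ∀ Z ∈ O, v ((ix L hK m Z).2.1.val, (ix L hK m Z).2.2.val) = v Z := by
    intro Z hZ
    obtain ⟨a, b⟩ := hO Z hZ
    simp only [ix, Nat.mod_eq_of_lt a, Nat.mod_eq_of_lt b]
  have hmain := h1 (Fin (L + 1) × Fin KK × Fin KK)
    (AA J SM (Fin Bc × Fin Bc × Fin Bc × Fin R)) (O.image (ix L hK m))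
    (fun a => a.1.val * 2 ^ j < 2 ^ J) (fun z => v (z.2.1.val, z.2.2.val)) vm τ j
    (by convert card_AA_pos (J := J) (κ := Fin Bc × Fin Bc × Fin Bc × Fin R) (SM_pos h))
    (by convert card_AA (J := J) (SM := SM) (κ := Fin Bc × Fin Bc × Fin Bc × Fin R) hj)
    (by
      intro z hz
      obtain ⟨Z, hZ, rfl⟩ := Finset.mem_image.1 hz
      rw [hv' Z hZ]
      exact hv Z hZ) hτ
  have hc : (O.image (ix L hK m)).card = O.card := Finset.card_image_of_injOn hinj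
  rw [hc] at hmain
  have hsum : ∑ z ∈ O.image (ix L hK m), v (z.2.1.val, z.2.2.val) = ∑ Z ∈ O, v Z := by
    rw [Finset.sum_image hinj]
    exact Finset.sum_congr rfl hv'
  have hsum2 : ∀ ω : Seed L KK J SM Bc R,
      ∑ z ∈ (O.image (ix L hK m)).filter (fun z => (ω z).1.val * 2 ^ j < 2 ^ J),
        v (z.2.1.val, z.2.2.val) = ∑ Z ∈ O.filter (fun Z => Sel J (toRnd ω) m j Z), v Z := by
    intro ω
    rw [Finset.sum_filter, Finset.sum_filter, Finset.sum_image hinj]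
    refine Finset.sum_congr rfl fun Z hZ => ?_
    rw [hv' Z hZ]
    have := sel_iff h hm (hO Z hZ) j ω
    by_cases hs : Sel J (toRnd ω) m j Z
    · rw [if_pos hs, if_pos (this.1 hs)]
    · rw [if_neg hs, if_neg fun hc => hs (this.2 hc)]
  have hΩ : (0 : ℝ) < Fintype.card (Seed L KK J SM Bc R) := by
    have : 0 < Fintype.card (Seed L KK J SM Bc R) := Fintype.card_pos_iff.2
      ⟨fun _ => (⟨0, by positivity⟩, fun _ => ⟨0, SM_pos h⟩)⟩
    exact_mod_cast this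
  have hfin : ((univ.filter (fun ω : Seed L KK J SM Bc R => τ < |(2 : ℝ) ^ j *
      ∑ Z ∈ O.filter (fun Z => Sel J (toRnd ω) m j Z), v Z - ∑ Z ∈ O, v Z|)).card : ℝ) * τ ^ 2 ≤
      2 ^ j * O.card * vm ^ 2 * Fintype.card (Seed L KK J SM Bc R) := by
    convert hmain using 5
    · ext ω
      rw [← hsum2 ω, ← hsum]
      convert Iff.rfl
    · ext ω
      simp only [Finset.mem_univ]
  unfold pr
  rw [div_mul_eq_mul_div, div_le_iff₀ hΩ]
  exact hfin

/-- with the small rate the deviation is improbable -/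
theorem prE (h1 : St_P1) (h : SHyp P β N L Δ M SM KK J Bc R cap1 cap2 u s) {m : ℕ} (hm : m ≤ L)
    (O : Finset Pt) (hO : ∀ Z ∈ O, Z.1 < KK ∧ Z.2 < KK) (v : Pt → ℝ) (vm τ : ℝ) {j : ℕ}
    (hj : j ≤ J) (hjc : j = 0 ∨ 2 ^ j * β ^ (60 * N) ≤ 8 * O.card)
    (hv : ∀ Z ∈ O, 0 ≤ v Z ∧ v Z ≤ vm) (hτ : 0 < τ) :
    pr (fun ω : Seed L KK J SM Bc R => τ < |(2 : ℝ) ^ j *
      ∑ Z ∈ O.filter (fun Z => Sel J (toRnd ω) m j Z), v Z - ∑ Z ∈ O, v Z|) * τ ^ 2 *
        ((β ^ N : ℕ) : ℝ) ^ 60 ≤ 8 * (O.card : ℝ) ^ 2 * vm ^ 2 := by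
  rcases hjc with hj0 | hjc
  · subst hj0
    have h0 : pr (fun ω : Seed L KK J SM Bc R => τ < |(2 : ℝ) ^ 0 *
      ∑ Z ∈ O.filter (fun Z => Sel J (toRnd ω) m 0 Z), v Z - ∑ Z ∈ O, v Z|) = 0 := by
      unfold pr
      have : (univ.filter (fun ω : Seed L KK J SM Bc R => τ < |(2 : ℝ) ^ 0 *
        ∑ Z ∈ O.filter (fun Z => Sel J (toRnd ω) m 0 Z), v Z - ∑ Z ∈ O, v Z|)) = ∅ := by
        refine Finset.filter_eq_empty_iff.2 fun ω _ => ?_
        have e : O.filter (fun Z => Sel J (toRnd ω) m 0 Z) = O := by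
          refine Finset.filter_eq_self.2 fun Z hZ => ?_
          rw [sel_iff h hm (hO Z hZ)]
          simp
        rw [e, pow_zero, one_mul, sub_self, abs_zero]
        exact not_lt.2 hτ.le
      rw [this]
      simp
    rw [h0]
    simp only [zero_mul]
    positivity
  · have hmain := P1' h1 h hm O hO v vm τ hj hv hτ
    have hB : ((β ^ N : ℕ) : ℝ) ^ 60 = ((β ^ (60 * N) : ℕ) : ℝ) := by
      rw [← Nat.cast_pow, ← pow_mul]
      congr 2
      ring
    have hjc' : (2 : ℝ) ^ j * ((β ^ N : ℕ) : ℝ) ^ 60 ≤ 8 * O.card := by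
      rw [hB]
      exact_mod_cast hjc
    calc _ ≤ (2 ^ j * O.card * vm ^ 2) * ((β ^ N : ℕ) : ℝ) ^ 60 :=
          mul_le_mul_of_nonneg_right hmain (by positivity)
      _ = (2 ^ j * ((β ^ N : ℕ) : ℝ) ^ 60) * (O.card * vm ^ 2) := by ring
      _ ≤ (8 * O.card) * (O.card * vm ^ 2) := mul_le_mul_of_nonneg_right hjc' (by positivity)
      _ = _ := by ring

/-- weighted deviation of the empirical values -/
noncomputable def ZZ (h : SHyp P β N L Δ M SM KK J Bc R cap1 cap2 u s) (m j : ℕ)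
    (ω : Seed L KK J SM Bc R) : ℝ :=
  ∑ Z ∈ (P.image (sh M s)).image (bx (DD β N u m)), (2 : ℝ) ^ j *
    (if (ω (ix L (KK_pos h) m Z)).1.val * 2 ^ j < 2 ^ J then
      ∑ x ∈ cands β N u m (Qc (DD β N u m) (DD β N u (m - 2)) (P.image (sh M s)) Z) Z,
        |ut β N u (Bc_pos h) (R_pos h) m (P.image (sh M s)) Z x (ω (ix L (KK_pos h) m Z)).2 -
          uval β N u m (P.image (sh M s)) x| else 0)

theorem ZZ_nonneg (h : SHyp P β N L Δ M SM KK J Bc R cap1 cap2 u s) (m j : ℕ)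
    (ω : Seed L KK J SM Bc R) : 0 ≤ ZZ h m j ω := by
  unfold ZZ
  refine Finset.sum_nonneg fun Z _ => ?_
  split_ifs
  · exact mul_nonneg (by positivity) (Finset.sum_nonneg fun _ _ => abs_nonneg _)
  · simp

theorem sqrt_R (h : SHyp P β N L Δ M SM KK J Bc R cap1 cap2 u s) :
    Real.sqrt R = ((β ^ N : ℕ) : ℝ) ^ 30 := by
  rw [h.hR]
  have : ((β ^ (60 * N) : ℕ) : ℝ) = (((β ^ N : ℕ) : ℝ) ^ 30) ^ 2 := by
    rw [← pow_mul, ← Nat.cast_pow, ← pow_mul]
    congr 2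
    ring
  rw [this]
  exact Real.sqrt_sq (by positivity)

theorem ZZ_exp (h0 : St_P0) (h2 : St_P2) (h : SHyp P β N L Δ M SM KK J Bc R cap1 cap2 u s)
    {m : ℕ} (hm : m ∈ Finset.Icc 3 L) {j : ℕ} (hj : j ≤ J) :
    ∑ ω : Seed L KK J SM Bc R, ZZ h m j ω ≤
      (((P.image (sh M s)).image (bx (DD β N u m))).card * (((β ^ N : ℕ) : ℝ) ^ 6 *
        (DD β N u (m - 2) / ((β ^ N : ℕ) : ℝ) ^ 30))) * Fintype.card (Seed L KK J SM Bc R) := by
  have hmm := Finset.mem_Icc.1 hm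
  have hβ := beta_pos h
  unfold ZZ
  rw [Finset.sum_comm]
  have key : ∀ Z ∈ (P.image (sh M s)).image (bx (DD β N u m)),
      ∑ ω : Seed L KK J SM Bc R, (2 : ℝ) ^ j *
      (if (ω (ix L (KK_pos h) m Z)).1.val * 2 ^ j < 2 ^ J then
        ∑ x ∈ cands β N u m (Qc (DD β N u m) (DD β N u (m - 2)) (P.image (sh M s)) Z) Z,
          |ut β N u (Bc_pos h) (R_pos h) m (P.image (sh M s)) Z x (ω (ix L (KK_pos h) m Z)).2 -
            uval β N u m (P.image (sh M s)) x| else 0) ≤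
      (((β ^ N : ℕ) : ℝ) ^ 6 * (DD β N u (m - 2) / ((β ^ N : ℕ) : ℝ) ^ 30)) *
        Fintype.card (Seed L KK J SM Bc R) := by
    intro Z _
    refine exp_sel h0 (SM_pos h) (ix L (KK_pos h) m Z) hj
      (fun r => ∑ x ∈ cands β N u m
        (Qc (DD β N u m) (DD β N u (m - 2)) (P.image (sh M s)) Z) Z,
          |ut β N u (Bc_pos h) (R_pos h) m (P.image (sh M s)) Z x r -
            uval β N u m (P.image (sh M s)) x|) _ ?_
    rw [Finset.sum_comm]
    have hx : ∀ x ∈ cands β N u m (Qc (DD β N u m) (DD β N u (m - 2)) (P.image (sh M s)) Z) Z,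
        ∑ r : (Fin Bc × Fin Bc × Fin Bc × Fin R) → Fin SM,
          |ut β N u (Bc_pos h) (R_pos h) m (P.image (sh M s)) Z x r -
            uval β N u m (P.image (sh M s)) x| ≤
          (DD β N u (m - 2) / ((β ^ N : ℕ) : ℝ) ^ 30) *
            Fintype.card ((Fin Bc × Fin Bc × Fin Bc × Fin R) → Fin SM) := by
      intro x _
      have := ut_exp h2 (Bc_pos h) (R_pos h) (SM_pos h) m (DD_pos hβ N u (m - 2))
        (dvd_SM h hmm.2) (P.image (sh M s)) Z x
      rw [sqrt_R h] at this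
      exact this
    refine (Finset.sum_le_sum hx).trans ?_
    rw [Finset.sum_const, nsmul_eq_mul]
    have hc : ((cands β N u m
        (Qc (DD β N u m) (DD β N u (m - 2)) (P.image (sh M s)) Z) Z).card : ℝ) ≤
        ((β ^ N : ℕ) : ℝ) ^ 6 := by
      have := card_cands (N := N) (u := u) (X := P.image (sh M s)) (Z := Z) hβ hmm.1
      exact_mod_cast this
    calc _ ≤ ((β ^ N : ℕ) : ℝ) ^ 6 * ((DD β N u (m - 2) / ((β ^ N : ℕ) : ℝ) ^ 30) *
            Fintype.card ((Fin Bc × Fin Bc × Fin Bc × Fin R) → Fin SM)) :=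
          mul_le_mul_of_nonneg_right hc (by positivity)
      _ = _ := by ring
  refine (Finset.sum_le_sum key).trans (le_of_eq ?_)
  rw [Finset.sum_const, nsmul_eq_mul]
  ring

/-- the estimate of level `m` -/
noncomputable def Est (P : Finset Pt) (β N u J R cap1 cap2 M : ℕ) (s : Pt) (m : ℕ) (ω : Rnd) : ℝ :=
  (2 : ℝ) ^ (jst J (T1of β N u J cap1 ω (P.image (sh M s))) m) *
    ∑ Z ∈ (cont J (T1of β N u J cap1 ω (P.image (sh M s))) m).image (bx (DD β N u m)),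
      maxFam (DD β N u (m - 2))
        (cands β N u m ((cont J (T1of β N u J cap1 ω (P.image (sh M s))) m).filter
          (fun x => bx (DD β N u m) x = Z)) Z)
        (uhat β N u J R ω (T1of β N u J cap1 ω (P.image (sh M s)))
          (T2of β N u J cap2 ω (P.image (sh M s))) m Z)

/-- the true value of level `m` -/
noncomputable def Tot (P : Finset Pt) (β N u M : ℕ) (s : Pt) (m : ℕ) : ℝ :=
  ∑ Z ∈ (P.image (sh M s)).image (bx (DD β N u m)), Vbox β N u m (P.image (sh M s)) Z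

/-- the relevant case -/
theorem core_rel (hPA1 : St_PA1) (hPA2 : St_PA2)
    (h : SHyp P β N L Δ M SM KK J Bc R cap1 cap2 u s) {m : ℕ}
    (hm : m ∈ Finset.Icc 3 L) (ω : Seed L KK J SM Bc R) (τ : ℝ) (js : ℕ)
    (hjs : js = jst J (T1of β N u J cap1 (toRnd ω) (P.image (sh M s))) m)
    (hs : (T1of β N u J cap1 (toRnd ω) (P.image (sh M s)) m js).isSome)
    (hE1 : |(2 : ℝ) ^ js * ∑ Z ∈ ((P.image (sh M s)).image (bx (DD β N u m))).filter
      (fun Z => Sel J (toRnd ω) m js Z), Vbox β N u m (P.image (sh M s)) Z -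
        ∑ Z ∈ (P.image (sh M s)).image (bx (DD β N u m)),
          Vbox β N u m (P.image (sh M s)) Z| ≤ τ)
    (hE2 : ZZ h m js ω ≤ τ)
    (hno : ∀ e : Pt, e.1 < Bc → e.2 < Bc → ∀ a < Bc, ∀ i < R, ∀ m', 3 ≤ m' → m' < m →
      T2of β N u J cap2 (toRnd ω) (P.image (sh M s)) m js e a i m' ≠ none) :
    |Est P β N u J R cap1 cap2 M s m (toRnd ω) - Tot P β N u M s m| ≤ 2 * τ := by
  have hmm := Finset.mem_Icc.1 hm
  have hβ := beta_pos h
  subst hjs
  rw [Est, Tot, est_eq hPA1 h hm ω hs]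
  set X := P.image (sh M s) with hX
  set T1 := T1of β N u J cap1 (toRnd ω) X with hT1
  set O := X.image (bx (DD β N u m)) with hO
  set js := jst J T1 m with hjs
  have hdiff : |(2 : ℝ) ^ js * ∑ Z ∈ O.filter (fun Z => Sel J (toRnd ω) m js Z),
      maxFam (DD β N u (m - 2)) (cands β N u m (Qc (DD β N u m) (DD β N u (m - 2)) X Z) Z)
        (uhat β N u J R (toRnd ω) T1 (T2of β N u J cap2 (toRnd ω) X) m Z) -
      (2 : ℝ) ^ js * ∑ Z ∈ O.filter (fun Z => Sel J (toRnd ω) m js Z), Vbox β N u m X Z| ≤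
      ZZ h m js ω := by
    rw [← mul_sub, ← Finset.sum_sub_distrib, abs_mul, abs_of_nonneg (by positivity)]
    have h1 : |∑ Z ∈ O.filter (fun Z => Sel J (toRnd ω) m js Z),
        (maxFam (DD β N u (m - 2)) (cands β N u m (Qc (DD β N u m) (DD β N u (m - 2)) X Z) Z)
        (uhat β N u J R (toRnd ω) T1 (T2of β N u J cap2 (toRnd ω) X) m Z) -
          Vbox β N u m X Z)| ≤ ∑ Z ∈ O.filter (fun Z => Sel J (toRnd ω) m js Z),
        ∑ x ∈ cands β N u m (Qc (DD β N u m) (DD β N u (m - 2)) X Z) Z,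
          |ut β N u (Bc_pos h) (R_pos h) m X Z x (ω (ix L (KK_pos h) m Z)).2 -
            uval β N u m X x| := by
      refine (Finset.abs_sum_le_sum_abs _ _).trans (Finset.sum_le_sum fun Z hZ => ?_)
      rw [Vbox]
      refine (maxFam_sub_le _ _ _ _).trans (le_of_eq (Finset.sum_congr rfl fun x hx => ?_))
      have hZ' := Finset.mem_filter.1 hZ
      rw [uhat_eq hPA2 h hm (box_lt h (DD β N u m) Z hZ'.1) ω T1 hZ'.2 hx]
      intro i hi m' h3 hlt
      obtain ⟨c1, c2⟩ := cidx_lt hβ hmm.1 hx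
      have c3 := cand_snd_lt hβ hmm.1 hx
      rw [← Bc_eq h] at c1 c2 c3
      exact hno _ c1 c2 _ c3 i hi m' h3 hlt
    refine (mul_le_mul_of_nonneg_left h1 (by positivity)).trans (le_of_eq ?_)
    unfold ZZ
    rw [Finset.sum_filter, Finset.mul_sum]
    refine Finset.sum_congr rfl fun Z hZ => ?_
    have := sel_iff h hmm.2 (box_lt h (DD β N u m) Z hZ) js ω
    by_cases hs : Sel J (toRnd ω) m js Z
    · rw [if_pos hs, if_pos (this.1 hs)]
    · rw [if_neg hs, if_neg fun hc => hs (this.2 hc)]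
  have htri := abs_sub_le
    ((2 : ℝ) ^ js * ∑ Z ∈ O.filter (fun Z => Sel J (toRnd ω) m js Z),
      maxFam (DD β N u (m - 2)) (cands β N u m (Qc (DD β N u m) (DD β N u (m - 2)) X Z) Z)
        (uhat β N u J R (toRnd ω) T1 (T2of β N u J cap2 (toRnd ω) X) m Z))
    ((2 : ℝ) ^ js * ∑ Z ∈ O.filter (fun Z => Sel J (toRnd ω) m js Z), Vbox β N u m X Z)
    (∑ Z ∈ O, Vbox β N u m X Z)
  linarith

/-- the irrelevant case -/
theorem core_irr (hPA1 : St_PA1)
    (h : SHyp P β N L Δ M SM KK J Bc R cap1 cap2 u s) {m : ℕ}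
    (hm : m ∈ Finset.Icc 3 L) (ω : Seed L KK J SM Bc R) (js : ℕ)
    (hjs : js = jst J (T1of β N u J cap1 (toRnd ω) (P.image (sh M s))) m)
    (hs : (T1of β N u J cap1 (toRnd ω) (P.image (sh M s)) m js).isSome)
    (hE4 : |(2 : ℝ) ^ js * ∑ Z ∈ ((P.image (sh M s)).image (bx (DD β N u m))).filter
      (fun Z => Sel J (toRnd ω) m js Z), (1 : ℝ) -
        ∑ Z ∈ (P.image (sh M s)).image (bx (DD β N u m)), (1 : ℝ)| ≤
      (((P.image (sh M s)).image (bx (DD β N u m))).card : ℝ)) :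
    |Est P β N u J R cap1 cap2 M s m (toRnd ω) - Tot P β N u M s m| ≤
      2 * ((((P.image (sh M s)).image (bx (DD β N u m))).card : ℝ) *
        (((β ^ N : ℕ) : ℝ) ^ 4 * DD β N u m)) := by
  have hmm := Finset.mem_Icc.1 hm
  have hβ := beta_pos h
  subst hjs
  rw [Est, Tot, est_eq hPA1 h hm ω hs]
  set X := P.image (sh M s) with hX
  set T1 := T1of β N u J cap1 (toRnd ω) X with hT1
  set O := X.image (bx (DD β N u m)) with hO
  set js := jst J T1 m with hjs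
  set v : ℝ := ((β ^ N : ℕ) : ℝ) ^ 4 * DD β N u m with hv
  have hv0 : 0 ≤ v := by positivity
  have h1 : (2 : ℝ) ^ js * ∑ Z ∈ O.filter (fun Z => Sel J (toRnd ω) m js Z),
      maxFam (DD β N u (m - 2)) (cands β N u m (Qc (DD β N u m) (DD β N u (m - 2)) X Z) Z)
        (uhat β N u J R (toRnd ω) T1 (T2of β N u J cap2 (toRnd ω) X) m Z) ≤
      2 * (O.card * v) := by
    have h2 : ∑ Z ∈ O.filter (fun Z => Sel J (toRnd ω) m js Z),
      maxFam (DD β N u (m - 2)) (cands β N u m (Qc (DD β N u m) (DD β N u (m - 2)) X Z) Z)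
        (uhat β N u J R (toRnd ω) T1 (T2of β N u J cap2 (toRnd ω) X) m Z) ≤
        (∑ Z ∈ O.filter (fun Z => Sel J (toRnd ω) m js Z), (1 : ℝ)) * v := by
      rw [Finset.sum_mul]
      refine Finset.sum_le_sum fun Z _ => ?_
      rw [one_mul]
      exact maxFam_cands_le hβ hmm.1 _ fun x => uhat_le β N u (R_pos h) _ _ _ _ _ _
    have h3 : (2 : ℝ) ^ js * ∑ Z ∈ O.filter (fun Z => Sel J (toRnd ω) m js Z), (1 : ℝ) ≤
        2 * O.card := by
      have h4 := (abs_le.1 hE4).2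
      have h5 : ∑ Z ∈ O, (1 : ℝ) = O.card := by simp
      rw [h5] at h4
      linarith
    calc _ ≤ (2 : ℝ) ^ js * ((∑ Z ∈ O.filter (fun Z => Sel J (toRnd ω) m js Z), (1 : ℝ)) * v) :=
          mul_le_mul_of_nonneg_left h2 (by positivity)
      _ = ((2 : ℝ) ^ js * ∑ Z ∈ O.filter (fun Z => Sel J (toRnd ω) m js Z), (1 : ℝ)) * v := by
          ring
      _ ≤ (2 * O.card) * v := mul_le_mul_of_nonneg_right h3 hv0
      _ = _ := by ring
  have h1' : 0 ≤ (2 : ℝ) ^ js * ∑ Z ∈ O.filter (fun Z => Sel J (toRnd ω) m js Z),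
      maxFam (DD β N u (m - 2)) (cands β N u m (Qc (DD β N u m) (DD β N u (m - 2)) X Z) Z)
        (uhat β N u J R (toRnd ω) T1 (T2of β N u J cap2 (toRnd ω) X) m Z) :=
    mul_nonneg (by positivity) (Finset.sum_nonneg fun Z _ => maxFam_nonneg _ _ _)
  have h2 : ∑ Z ∈ O, Vbox β N u m X Z ≤ O.card * v := by
    rw [← nsmul_eq_mul, ← Finset.sum_const]
    exact Finset.sum_le_sum fun Z _ => Vbox_le hβ hmm.1
  have h2' : 0 ≤ ∑ Z ∈ O, Vbox β N u m X Z := Finset.sum_nonneg fun Z _ => Vbox_nonneg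
  have h3 : 0 ≤ (O.card : ℝ) * v := by positivity
  rw [abs_le]
  constructor <;> linarith

/-- no candidates -/
theorem core_none (hPA1 : St_PA1)
    (h : SHyp P β N L Δ M SM KK J Bc R cap1 cap2 u s) {m : ℕ}
    (hm : m ∈ Finset.Icc 3 L) (ω : Seed L KK J SM Bc R)
    (hs : (T1of β N u J cap1 (toRnd ω) (P.image (sh M s)) m
      (jst J (T1of β N u J cap1 (toRnd ω) (P.image (sh M s))) m)).isSome)
    (hnc : ∀ Z, cands β N u m (Qc (DD β N u m) (DD β N u (m - 2)) (P.image (sh M s)) Z) Z = ∅) :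
    Est P β N u J R cap1 cap2 M s m (toRnd ω) - Tot P β N u M s m = 0 := by
  rw [Est, Tot, est_eq hPA1 h hm ω hs]
  have h1 : ∀ Z, Vbox β N u m (P.image (sh M s)) Z = 0 := by
    intro Z
    rw [Vbox, hnc Z, maxFam_empty]
  rw [Finset.sum_eq_zero (fun _ _ => by rw [hnc, maxFam_empty]),
    Finset.sum_eq_zero (fun Z _ => h1 Z)]
  simp

end hyp

end Pool.Agent.H660R3.TS.SF
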