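import Mathlib
import Pool.Agent.H660R3.TS.SFe

/-!
# Accuracy of the estimate of one level of `Fstar`
-/

set_option autoImplicit false

open scoped Classical

namespace Pool.Agent.H660R3.TS

namespace SF

open Finset

theorem pr_conv0 {Ω : Type} [Fintype Ω] (E : Ω → Prop) (k : ℕ)
    (hk : 0 < k) (hΩ : 0 < Fintype.card Ω) :
    k * (univ.filter E).card ≤ Fintype.card Ω ↔ pr E ≤ 1 / (k : ℝ) := by
  have hk' : (0 : ℝ) < k := by exact_mod_cast hk
  have hΩ' : (0 : ℝ) < Fintype.card Ω := by exact_mod_cast hΩ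
  rw [pr, div_le_div_iff₀ hΩ' hk', one_mul]
  constructor
  · intro h
    have : ((k * (univ.filter E).card : ℕ) : ℝ) ≤ Fintype.card Ω := by exact_mod_cast h
    push_cast at this
    linarith
  · intro h
    have : ((k * (univ.filter E).card : ℕ) : ℝ) ≤ Fintype.card Ω := by
      push_cast
      linarith
    exact_mod_cast this

theorem pr_conv {Ω : Type} [Fintype Ω] (E : Ω → Prop) (inst : DecidablePred E) (k : ℕ)
    (hk : 0 < k) (hΩ : 0 < Fintype.card Ω) :
    k * (@Finset.filter Ω E inst univ).card ≤ Fintype.card Ω ↔ pr E ≤ 1 / (k : ℝ) := by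
  have e : (@Finset.filter Ω E inst univ).card =
      (@Finset.filter Ω E (fun a => Classical.propDecidable (E a)) univ).card := by
    congr 1
    ext ω
    rw [mem_filter_cl, mem_filter_cl]
  rw [e]
  exact pr_conv0 E k hk hΩ

section hyp

variable {P : Finset Pt} {β N L Δ M SM KK J Bc R cap1 cap2 u : ℕ} {s : Pt}

theorem card_seed_pos (h : SHyp P β N L Δ M SM KK J Bc R cap1 cap2 u s) :
    0 < Fintype.card (Seed L KK J SM Bc R) :=
  Fintype.card_pos_iff.2 ⟨fun _ => (⟨0, by positivity⟩, fun _ => ⟨0, SM_pos h⟩)⟩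

theorem NB_pos (h : SHyp P β N L Δ M SM KK J Bc R cap1 cap2 u s) (D : ℕ) :
    0 < ((P.image (sh M s)).image (bx D)).card :=
  Finset.card_pos.2 ((h.ne.image _).image _)

/-- first event of the relevant case -/
theorem pr_E1 (h1 : St_P1) (h : SHyp P β N L Δ M SM KK J Bc R cap1 cap2 u s) {m : ℕ}
    (hm : m ∈ Finset.Icc 3 L) {j : ℕ} (hj : j ≤ J)
    (hjc : j = 0 ∨ 2 ^ j * β ^ (60 * N) ≤
      8 * ((P.image (sh M s)).image (bx (DD β N u m))).card) :
    pr (fun ω : Seed L KK J SM Bc R =>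
      (((P.image (sh M s)).image (bx (DD β N u m))).card : ℝ) * DD β N u m /
        ((β ^ N : ℕ) : ℝ) ^ 20 <
      |(2 : ℝ) ^ j * ∑ Z ∈ ((P.image (sh M s)).image (bx (DD β N u m))).filter
        (fun Z => Sel J (toRnd ω) m j Z), Vbox β N u m (P.image (sh M s)) Z -
        ∑ Z ∈ (P.image (sh M s)).image (bx (DD β N u m)),
          Vbox β N u m (P.image (sh M s)) Z|) ≤ 8 / ((β ^ N : ℕ) : ℝ) ^ 12 := by
  have hmm := Finset.mem_Icc.1 hm
  have hβ := beta_pos h
  set O := (P.image (sh M s)).image (bx (DD β N u m)) with hO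
  set B : ℝ := ((β ^ N : ℕ) : ℝ) with hB
  have hB0 : 0 < B := by rw [hB]; exact_mod_cast pow_pos hβ N
  have hNB : (0 : ℝ) < O.card := by exact_mod_cast NB_pos h (DD β N u m)
  have hD : (0 : ℝ) < DD β N u m := by exact_mod_cast DD_pos hβ N u m
  have hp := prE h1 h hmm.2 O (box_lt h (DD β N u m)) (Vbox β N u m (P.image (sh M s)))
    (B ^ 4 * DD β N u m) (O.card * DD β N u m / B ^ 20) hj hjc
    (fun Z _ => ⟨Vbox_nonneg, Vbox_le hβ hmm.1⟩) (by positivity)
  rw [← hB] at hp
  set p := pr (fun ω : Seed L KK J SM Bc R => (O.card : ℝ) * DD β N u m / B ^ 20 <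
      |(2 : ℝ) ^ j * ∑ Z ∈ O.filter (fun Z => Sel J (toRnd ω) m j Z),
        Vbox β N u m (P.image (sh M s)) Z -
        ∑ Z ∈ O, Vbox β N u m (P.image (sh M s)) Z|) with hpd
  rw [le_div_iff₀ (by positivity)]
  have hc : 0 < ((O.card : ℝ) * DD β N u m) ^ 2 * B ^ 8 := by positivity
  refine le_of_mul_le_mul_right ?_ hc
  calc p * B ^ 12 * (((O.card : ℝ) * DD β N u m) ^ 2 * B ^ 8)
      = p * (O.card * DD β N u m / B ^ 20) ^ 2 * B ^ 60 := by
        field_simp
    _ ≤ 8 * (O.card : ℝ) ^ 2 * (B ^ 4 * DD β N u m) ^ 2 := hp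
    _ = _ := by ring

/-- second event of the relevant case -/
theorem pr_E2 (h0 : St_P0) (h2 : St_P2) (h : SHyp P β N L Δ M SM KK J Bc R cap1 cap2 u s) {m : ℕ}
    (hm : m ∈ Finset.Icc 3 L) {j : ℕ} (hj : j ≤ J) :
    pr (fun ω : Seed L KK J SM Bc R =>
      (((P.image (sh M s)).image (bx (DD β N u m))).card : ℝ) * DD β N u m /
        ((β ^ N : ℕ) : ℝ) ^ 20 < ZZ h m j ω) ≤ 1 / ((β ^ N : ℕ) : ℝ) ^ 6 := by
  have hmm := Finset.mem_Icc.1 hm
  have hβ := beta_pos h
  set O := (P.image (sh M s)).image (bx (DD β N u m)) with hO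
  set B : ℝ := ((β ^ N : ℕ) : ℝ) with hB
  have hB0 : 0 < B := by rw [hB]; exact_mod_cast pow_pos hβ N
  have hNB : (0 : ℝ) < O.card := by exact_mod_cast NB_pos h (DD β N u m)
  have hσ : (0 : ℝ) < DD β N u (m - 2) := by exact_mod_cast DD_pos hβ N u (m - 2)
  have hD : (DD β N u m : ℝ) = DD β N u (m - 2) * B ^ 2 := by
    rw [DD_two β N u hmm.1, hB]
    push_cast
    ring
  have he := ZZ_exp h0 h2 h hm hj
  rw [← hB] at he
  have hp := markov (fun ω : Seed L KK J SM Bc R => ZZ h m j ω) (fun ω => ZZ_nonneg h m j ω)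
    (τ := (O.card : ℝ) * DD β N u m / B ^ 20)
    (a := O.card * (B ^ 6 * (DD β N u (m - 2) / B ^ 30)))
    (by rw [hD]; positivity) (by positivity) he
  refine hp.trans (le_of_eq ?_)
  rw [hD]
  field_simp

/-- third event of the relevant case -/
theorem pr_E3 (h0 : St_P0) (h3 : St_P3) (h7 : St_EX)
    (h : SHyp P β N L Δ M SM KK J Bc R cap1 cap2 u s) {m : ℕ}
    (hm : m ∈ Finset.Icc 3 L) {j : ℕ} (hj : j ≤ J)
    (hjc : ((P.image (sh M s)).image (bx (DD β N u m))).card ≤ 4 * cap1 * 2 ^ j)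
    (hrel : (M : ℝ) * mstW P ≤ (((P.image (sh M s)).image (bx (DD β N u m))).card : ℝ) *
      DD β N u m * ((β ^ N : ℕ) : ℝ) ^ 10)
    {m' : ℕ} (hm3 : 3 ≤ m') (hlt : m' < m) {e : Pt} {a i : ℕ} (he1 : e.1 < Bc)
    (he2 : e.2 < Bc) (ha : a < Bc) (hi : i < R) :
    pr (fun ω : Seed L KK J SM Bc R =>
      T2of β N u J cap2 (toRnd ω) (P.image (sh M s)) m j e a i m' = none) ≤
      1 / ((β ^ N : ℕ) : ℝ) ^ 82 := by
  have hmm := Finset.mem_Icc.1 hm
  have hβ := beta_pos h
  set X := P.image (sh M s) with hX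
  set O := X.image (bx (DD β N u m)) with hO
  have hLB := L_le h
  have hc1 : (cap1 : ℝ) = ((β ^ N : ℕ) : ℝ) ^ 64 := by
    rw [h.hc1, ← Nat.cast_pow, ← pow_mul]
    congr 2
    ring
  have hc2 : (cap2 : ℝ) = ((β ^ N : ℕ) : ℝ) ^ 164 := by
    rw [h.hc2, ← Nat.cast_pow, ← pow_mul]
    congr 2
    ring
  have hD2 : (DD β N u m : ℝ) = DD β N u (m - 2) * ((β ^ N : ℕ) : ℝ) ^ 2 := by
    rw [DD_two β N u hmm.1]
    push_cast
    ring
  set B : ℝ := ((β ^ N : ℕ) : ℝ) with hB
  have hB0 : 0 < B := by rw [hB]; exact_mod_cast pow_pos hβ N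
  have hNB1 : (1 : ℝ) ≤ O.card := by exact_mod_cast NB_pos h (DD β N u m)
  have hσ : (0 : ℝ) < DD β N u (m - 2) := by exact_mod_cast DD_pos hβ N u (m - 2)
  have hDpos : (0 : ℝ) < DD β N u m := by exact_mod_cast DD_pos hβ N u m
  have hL7 : (7 : ℝ) ≤ L := by exact_mod_cast h.hL
  have hB32 : 32 ≤ B := by nlinarith
  have hB5 : (10 : ℝ) ^ 5 * L ≤ B := by nlinarith
  have hW0 : (0 : ℝ) ≤ M * mstW P := mul_nonneg (Nat.cast_nonneg _) (mstW_nonneg P)
  set n' : ℝ := ((X.image (bx (DD β N u m'))).card : ℝ) with hn'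
  -- number of small boxes
  have hnD : n' * DD β N u m' ≤ 2 * B ^ 11 * (O.card * DD β N u m) := by
    have e1 : n' ≤ cutN M s (DD β N u m') P + 1 := by
      have := boxes_le h7 h (DD β N u m')
      rw [hn']
      exact_mod_cast this
    have e2 := h.cut m' (Finset.mem_Icc.2 (by omega))
    have e3 : (DD β N u m' : ℝ) ≤ DD β N u m := by
      exact_mod_cast DD_mono hβ N u hlt.le
    have e4 : (DD β N u m : ℝ) ≤ O.card * DD β N u m := le_mul_of_one_le_left hDpos.le hNB1
    have e5 : (0 : ℝ) ≤ DD β N u m' := Nat.cast_nonneg _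
    have e6 : (10 : ℝ) ^ 5 * L * (M * mstW P) ≤ B * (O.card * DD β N u m * B ^ 10) :=
      mul_le_mul hB5 hrel hW0 hB0.le
    have e7 : (1 : ℝ) ≤ B ^ 11 := one_le_pow₀ (by linarith)
    have e8 : (O.card : ℝ) * DD β N u m ≤ B ^ 11 * (O.card * DD β N u m) :=
      le_mul_of_one_le_left (by positivity) e7
    calc n' * DD β N u m' ≤ (cutN M s (DD β N u m') P + 1) * DD β N u m' :=
          mul_le_mul_of_nonneg_right e1 e5
      _ = cutN M s (DD β N u m') P * DD β N u m' + DD β N u m' := by ring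
      _ ≤ B * (O.card * DD β N u m * B ^ 10) + B ^ 11 * (O.card * DD β N u m) := by linarith
      _ = _ := by ring
  have hO4 : (O.card : ℝ) ≤ 4 * B ^ 64 * 2 ^ j := by
    rw [← hc1]
    exact_mod_cast hjc
  have hexp := YY_exp (L := L) (KK := KK) (J := J) (R := R) h0 h3 β N u hβ (KK_pos h) (Bc_pos h)
    (R_pos h) (SM_pos h) m hj (dvd_SM h hmm.2) X e a i m'
  have h2j : (0 : ℝ) < 2 ^ j := by positivity
  have hp := markov (fun ω : Seed L KK J SM Bc R =>
      YY β N u (KK_pos h) (Bc_pos h) (R_pos h) m j X e a i m' ω)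
    (fun ω => YY_nonneg β N u (KK_pos h) (Bc_pos h) (R_pos h) m j X e a i m' ω)
    (τ := (cap2 : ℝ) * 2 ^ j / B ^ 4)
    (a := n' * (4 * (DD β N u m' : ℝ) / DD β N u (m - 2)))
    (by rw [hc2]; positivity) (by positivity) hexp
  refine (pr_mono ?_).trans (hp.trans ?_)
  · intro ω hω
    have := overflow h hmm.2 hm3 hlt he1 he2 ha hi j ω hω
    rw [← hB] at this
    rw [div_lt_iff₀ (by positivity)]
    linarith
  · rw [hc2]
    have h4 : n' * (4 * (DD β N u m' : ℝ) / DD β N u (m - 2)) ≤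
        32 * B ^ 77 * 2 ^ j := by
      calc n' * (4 * (DD β N u m' : ℝ) / DD β N u (m - 2)) =
            4 * (n' * DD β N u m') / DD β N u (m - 2) := by ring
        _ ≤ 4 * (2 * B ^ 11 * (O.card * DD β N u m)) / DD β N u (m - 2) :=
            div_le_div_of_nonneg_right (by linarith) hσ.le
        _ = 8 * B ^ 13 * O.card := by
            rw [hD2]
            field_simp
            ring
        _ ≤ 8 * B ^ 13 * (4 * B ^ 64 * 2 ^ j) :=
            mul_le_mul_of_nonneg_left hO4 (by positivity)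
        _ = _ := by ring
    calc n' * (4 * (DD β N u m' : ℝ) / DD β N u (m - 2)) / (B ^ 164 * 2 ^ j / B ^ 4) ≤
          32 * B ^ 77 * 2 ^ j / (B ^ 164 * 2 ^ j / B ^ 4) :=
          div_le_div_of_nonneg_right h4 (by positivity)
      _ = 32 / B ^ 83 := by
          field_simp
      _ ≤ B / B ^ 83 := div_le_div_of_nonneg_right hB32 (by positivity)
      _ = 1 / B ^ 82 := by
          field_simp

/-- the event of the irrelevant case -/
theorem pr_E4 (h1 : St_P1) (h : SHyp P β N L Δ M SM KK J Bc R cap1 cap2 u s) {m : ℕ}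
    (hm : m ∈ Finset.Icc 3 L) {j : ℕ} (hj : j ≤ J)
    (hjc : j = 0 ∨ 2 ^ j * β ^ (60 * N) ≤
      8 * ((P.image (sh M s)).image (bx (DD β N u m))).card) :
    pr (fun ω : Seed L KK J SM Bc R =>
      (((P.image (sh M s)).image (bx (DD β N u m))).card : ℝ) <
      |(2 : ℝ) ^ j * ∑ Z ∈ ((P.image (sh M s)).image (bx (DD β N u m))).filter
        (fun Z => Sel J (toRnd ω) m j Z), (1 : ℝ) -
        ∑ Z ∈ (P.image (sh M s)).image (bx (DD β N u m)), (1 : ℝ)|) ≤
      8 / ((β ^ N : ℕ) : ℝ) ^ 60 := by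
  have hmm := Finset.mem_Icc.1 hm
  have hβ := beta_pos h
  set O := (P.image (sh M s)).image (bx (DD β N u m)) with hO
  set B : ℝ := ((β ^ N : ℕ) : ℝ) with hB
  have hB0 : 0 < B := by rw [hB]; exact_mod_cast pow_pos hβ N
  have hNB : (0 : ℝ) < O.card := by exact_mod_cast NB_pos h (DD β N u m)
  have hp := prE h1 h hmm.2 O (box_lt h (DD β N u m)) (fun _ => (1 : ℝ))
    1 O.card hj hjc (fun Z _ => ⟨zero_le_one, le_rfl⟩) hNB
  rw [← hB] at hp
  rw [le_div_iff₀ (by positivity)]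
  have hc : 0 < (O.card : ℝ) ^ 2 := by positivity
  refine le_of_mul_le_mul_right ?_ hc
  refine le_trans (le_of_eq ?_) (hp.trans (le_of_eq ?_))
  · ring
  · ring

end hyp

end SF

open SF Finset in
theorem t_SF (h0 : St_P0) (h1 : St_P1) (h2 : St_P2) (h3 : St_P3) (h4 : St_PA1) (h5 : St_PA2)
    (h6 : St_SJ) (h7 : St_EX) : St_SF := by
  intro P β N L Δ M SM KK J Bc R cap1 cap2 u s m h hm
  have hmm := Finset.mem_Icc.1 hm
  have hβ := beta_pos h
  have hΩ := card_seed_pos h
  have hL7 : (7 : ℝ) ≤ L := by exact_mod_cast h.hL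
  have hL0 : 0 < L := by have := h.hL; omega
  have hSJ := (pr_conv _ _ (2000 * L) (by omega) hΩ).1
    (h6 P β N L Δ M SM KK J Bc R cap1 cap2 u s m h hm)
  refine (pr_conv _ _ (1000 * L) (by omega) hΩ).2 ?_
  change pr (fun ω : Seed L KK J SM Bc R =>
    ¬ (|Est P β N u J R cap1 cap2 M s m (toRnd ω) - Tot P β N u M s m| ≤
      M * mstW P / (β : ℝ) ^ 3)) ≤ 1 / ((1000 * L : ℕ) : ℝ)
  set X := P.image (sh M s) with hX
  set O := X.image (bx (DD β N u m)) with hO
  -- the bad event of the rate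
  set SJ : Seed L KK J SM Bc R → Prop := fun ω =>
    (T1of β N u J cap1 (toRnd ω) X m (jst J (T1of β N u J cap1 (toRnd ω) X) m)).isSome ∧
      jst J (T1of β N u J cap1 (toRnd ω) X) m ≤ J ∧
      (jst J (T1of β N u J cap1 (toRnd ω) X) m = 0 ∨
        2 ^ (jst J (T1of β N u J cap1 (toRnd ω) X) m) * β ^ (60 * N) ≤ 8 * O.card) ∧
      O.card ≤ 4 * cap1 * 2 ^ (jst J (T1of β N u J cap1 (toRnd ω) X) m) with hSJd
  have hSJ' : pr (fun ω => ¬ SJ ω) ≤ 1 / ((2000 * L : ℕ) : ℝ) := hSJ
  have hLB := L_le h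
  have hJB : ((J + 1 : ℕ) : ℝ) ≤ ((β ^ N : ℕ) : ℝ) := by exact_mod_cast J_le h
  have hβB : (β : ℝ) ^ 3 ≤ ((β ^ N : ℕ) : ℝ) := by exact_mod_cast beta3_le h
  have hβ0 : (0 : ℝ) < β := by exact_mod_cast hβ
  set B : ℝ := ((β ^ N : ℕ) : ℝ) with hB
  have hB0 : 0 < B := by rw [hB]; exact_mod_cast pow_pos hβ N
  have hB6 : (10 : ℝ) ^ 5 * L ≤ B := by nlinarith
  have hB8 : 8 ≤ B := by nlinarith
  have hB1 : 1 ≤ B := by linarith
  have hLr : (L : ℝ) ≤ B := by nlinarith
  have hW0 : (0 : ℝ) ≤ M * mstW P := mul_nonneg (Nat.cast_nonneg _) (mstW_nonneg P)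
  have hD0 : (0 : ℝ) < DD β N u m := by exact_mod_cast DD_pos hβ N u m
  have hLpos : (0 : ℝ) < L := by linarith
  -- it suffices to bound the events for all admissible rates
  set JS := (range (J + 1)).filter (fun j => (j = 0 ∨ 2 ^ j * β ^ (60 * N) ≤ 8 * O.card) ∧
    O.card ≤ 4 * cap1 * 2 ^ j) with hJS
  have hJSc : (JS.card : ℝ) ≤ B := by
    refine le_trans ?_ hJB
    have : JS.card ≤ J + 1 := (Finset.card_filter_le _ _).trans (le_of_eq (Finset.card_range _))
    exact_mod_cast this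
  have hfin : ∀ (Bad : ℕ → Seed L KK J SM Bc R → Prop),
      (∀ j ∈ JS, pr (Bad j) ≤ 3 / B ^ 6) →
      (∀ ω, SJ ω → ¬ (|Est P β N u J R cap1 cap2 M s m (toRnd ω) - Tot P β N u M s m| ≤
        M * mstW P / (β : ℝ) ^ 3) → Bad (jst J (T1of β N u J cap1 (toRnd ω) X) m) ω) →
      pr (fun ω : Seed L KK J SM Bc R =>
        ¬ (|Est P β N u J R cap1 cap2 M s m (toRnd ω) - Tot P β N u M s m| ≤
        M * mstW P / (β : ℝ) ^ 3)) ≤ 1 / ((1000 * L : ℕ) : ℝ) := by
    intro Bad hBad himp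
    have e1 : pr (fun ω : Seed L KK J SM Bc R =>
        ¬ (|Est P β N u J R cap1 cap2 M s m (toRnd ω) - Tot P β N u M s m| ≤
        M * mstW P / (β : ℝ) ^ 3)) ≤ pr (fun ω => ¬ SJ ω ∨ ∃ j ∈ JS, Bad j ω) := by
      refine pr_mono fun ω hω => ?_
      by_cases hs : SJ ω
      · refine Or.inr ⟨_, ?_, himp ω hs hω⟩
        rw [hJS, Finset.mem_filter, Finset.mem_range]
        exact ⟨Nat.lt_succ_of_le hs.2.1, hs.2.2.1, hs.2.2.2⟩
      · exact Or.inl hs
    have e2 := pr_le_sum JS Bad (3 / B ^ 6) hBad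
    have e3 : (JS.card : ℝ) * (3 / B ^ 6) ≤ B * (3 / B ^ 6) :=
      mul_le_mul_of_nonneg_right hJSc (by positivity)
    have e4 : B * (3 / B ^ 6) ≤ 1 / ((2000 * L : ℕ) : ℝ) := by
      push_cast
      rw [mul_div_assoc', div_le_div_iff₀ (by positivity) (by positivity)]
      have e5 : B * B ^ 5 = B ^ 6 := by ring
      have e6 : 3 * (2000 * (L : ℝ)) ≤ B ^ 5 := by
        have e7 : B ≤ B ^ 5 := by
          calc B = B ^ 1 := (pow_one _).symm
            _ ≤ B ^ 5 := pow_le_pow_right₀ hB1 (by norm_num)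
        nlinarith
      calc B * 3 * (2000 * (L : ℝ)) = B * (3 * (2000 * (L : ℝ))) := by ring
        _ ≤ B * B ^ 5 := mul_le_mul_of_nonneg_left e6 hB0.le
        _ = 1 * B ^ 6 := by ring
    have e8 : 1 / ((2000 * L : ℕ) : ℝ) + 1 / ((2000 * L : ℕ) : ℝ) = 1 / ((1000 * L : ℕ) : ℝ) := by
      push_cast
      field_simp
      norm_num
    calc _ ≤ pr (fun ω => ¬ SJ ω ∨ ∃ j ∈ JS, Bad j ω) := e1
      _ ≤ pr (fun ω => ¬ SJ ω) + pr (fun ω => ∃ j ∈ JS, Bad j ω) := pr_or _ _
      _ ≤ 1 / ((2000 * L : ℕ) : ℝ) + 1 / ((2000 * L : ℕ) : ℝ) :=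
          add_le_add hSJ' (e2.trans (e3.trans e4))
      _ = _ := e8
  by_cases hnc : ∀ Z, cands β N u m (Qc (DD β N u m) (DD β N u (m - 2)) X Z) Z = ∅
  · -- no candidates
    refine hfin (fun _ _ => False) (fun j _ => ?_) ?_
    · have : pr (fun _ : Seed L KK J SM Bc R => False) = 0 := by
        unfold pr
        simp
      rw [this]
      positivity
    · intro ω hs hbad
      apply hbad
      rw [core_none h4 h hm ω hs.1 hnc, abs_zero]
      positivity
  · push Not at hnc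
    obtain ⟨Z0, hZ0⟩ := hnc
    obtain ⟨x0, hx0⟩ := hZ0
    have hNBD := NB_le h7 h hm hx0
    rw [← hB, ← hX, ← hO] at hNBD
    have hO1 : (1 : ℝ) ≤ O.card := by exact_mod_cast NB_pos h (DD β N u m)
    by_cases hrel : (M : ℝ) * mstW P ≤ (O.card : ℝ) * DD β N u m * B ^ 10
    · -- the relevant case
      set Q3 : Finset ((Pt × ℕ) × (ℕ × ℕ)) :=
        ((range Bc ×ˢ range Bc) ×ˢ range Bc) ×ˢ (range R ×ˢ Finset.Ico 3 m) with hQ3
      have hQc : (Q3.card : ℝ) ≤ B ^ 67 := by
        have e1 : Q3.card = Bc * Bc * Bc * (R * (m - 3)) := by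
          rw [hQ3]
          simp only [Finset.card_product, Finset.card_range, Nat.card_Ico]
        have e2 : (Bc : ℝ) = B ^ 2 := by
          rw [Bc_eq h, hB]
          push_cast
          ring
        have e3 : (R : ℝ) = B ^ 60 := by
          rw [h.hR, hB, ← Nat.cast_pow, ← pow_mul]
          congr 2
          ring
        have e4 : ((m - 3 : ℕ) : ℝ) ≤ B := by
          refine le_trans ?_ hLr
          have : m - 3 ≤ L := by omega
          exact_mod_cast this
        rw [e1]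
        push_cast [-Nat.cast_sub]
        rw [e2, e3]
        calc B ^ 2 * B ^ 2 * B ^ 2 * (B ^ 60 * ((m - 3 : ℕ) : ℝ)) ≤
              B ^ 2 * B ^ 2 * B ^ 2 * (B ^ 60 * B) := by
              refine mul_le_mul_of_nonneg_left ?_ (by positivity)
              exact mul_le_mul_of_nonneg_left e4 (by positivity)
          _ = B ^ 67 := by ring
      refine hfin (fun j ω =>
        ((O.card : ℝ) * DD β N u m / B ^ 20 <
          |(2 : ℝ) ^ j * ∑ Z ∈ O.filter (fun Z => Sel J (toRnd ω) m j Z), Vbox β N u m X Z -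
            ∑ Z ∈ O, Vbox β N u m X Z|) ∨
        (((O.card : ℝ) * DD β N u m / B ^ 20 < ZZ h m j ω) ∨
        ∃ q ∈ Q3, T2of β N u J cap2 (toRnd ω) X m j q.1.1 q.1.2 q.2.1 q.2.2 = none)) ?_ ?_
      · intro j hj
        rw [hJS, Finset.mem_filter, Finset.mem_range] at hj
        obtain ⟨hjJ, hj1, hj2⟩ := hj
        have hjJ' : j ≤ J := by omega
        have p1 := pr_E1 h1 h hm hjJ' hj1
        have p2 := pr_E2 h0 h2 h hm hjJ'
        have p3 := pr_le_sum Q3 (fun q (ω : Seed L KK J SM Bc R) =>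
          T2of β N u J cap2 (toRnd ω) X m j q.1.1 q.1.2 q.2.1 q.2.2 = none) (1 / B ^ 82) (by
            intro q hq
            simp only [hQ3, Finset.mem_product, Finset.mem_range, Finset.mem_Ico] at hq
            exact pr_E3 h0 h3 h7 h hm hjJ' hj2 hrel hq.2.2.1 hq.2.2.2 hq.1.1.1 hq.1.1.2 hq.1.2
              hq.2.1)
        rw [← hB] at p1 p2
        have p4 : (Q3.card : ℝ) * (1 / B ^ 82) ≤ 1 / B ^ 6 := by
          calc (Q3.card : ℝ) * (1 / B ^ 82) ≤ B ^ 67 * (1 / B ^ 82) :=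
                mul_le_mul_of_nonneg_right hQc (by positivity)
            _ = 1 / B ^ 15 := by field_simp
            _ ≤ 1 / B ^ 6 := one_div_le_one_div_of_le (by positivity)
                (pow_le_pow_right₀ hB1 (by norm_num))
        have p5 : 8 / B ^ 12 ≤ 1 / B ^ 6 := by
          rw [div_le_div_iff₀ (by positivity) (by positivity)]
          have e1 : B ≤ B ^ 6 := by
            calc B = B ^ 1 := (pow_one _).symm
              _ ≤ B ^ 6 := pow_le_pow_right₀ hB1 (by norm_num)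
          calc 8 * B ^ 6 ≤ B ^ 6 * B ^ 6 := mul_le_mul_of_nonneg_right (hB8.trans e1)
                (by positivity)
            _ = 1 * B ^ 12 := by ring
        refine (pr_or _ _).trans ?_
        refine (add_le_add p1 ((pr_or _ _).trans (add_le_add p2 p3))).trans ?_
        have e3 : (3 : ℝ) / B ^ 6 = 1 / B ^ 6 + (1 / B ^ 6 + 1 / B ^ 6) := by ring
        rw [e3]
        exact add_le_add p5 (add_le_add le_rfl p4)
      · intro ω hs hbad
        by_contra hcon
        push Not at hcon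
        obtain ⟨c1, c2, c3⟩ := hcon
        apply hbad
        refine (core_rel h4 h5 h hm ω ((O.card : ℝ) * DD β N u m / B ^ 20) _ rfl hs.1 c1 c2
          ?_).trans ?_
        · intro e he1 he2 a ha i hi m' hm3 hlt
          exact c3 ((e, a), (i, m')) (by
            simp only [hQ3, Finset.mem_product, Finset.mem_range, Finset.mem_Ico]
            exact ⟨⟨⟨he1, he2⟩, ha⟩, hi, hm3, hlt⟩)
        · -- numerics
          rw [le_div_iff₀ (by positivity)]
          have e1 : 2 * ((O.card : ℝ) * DD β N u m / B ^ 20) ≤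
              2 * (B ^ 2 * (M * mstW P) / B ^ 20) := by
            refine mul_le_mul_of_nonneg_left ?_ (by norm_num)
            exact div_le_div_of_nonneg_right hNBD (by positivity)
          calc 2 * ((O.card : ℝ) * DD β N u m / B ^ 20) * (β : ℝ) ^ 3
              ≤ 2 * (B ^ 2 * (M * mstW P) / B ^ 20) * B :=
                mul_le_mul e1 hβB (by positivity) (by positivity)
            _ = (M * mstW P) * (2 / B ^ 17) := by
                field_simp
            _ ≤ (M * mstW P) * 1 := by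
                refine mul_le_mul_of_nonneg_left ?_ hW0
                rw [div_le_one (by positivity)]
                calc (2 : ℝ) ≤ B := by linarith
                  _ = B ^ 1 := (pow_one _).symm
                  _ ≤ B ^ 17 := pow_le_pow_right₀ hB1 (by norm_num)
            _ = _ := mul_one _
    · -- the irrelevant case
      push Not at hrel
      refine hfin (fun j ω => (O.card : ℝ) <
          |(2 : ℝ) ^ j * ∑ Z ∈ O.filter (fun Z => Sel J (toRnd ω) m j Z), (1 : ℝ) -
            ∑ Z ∈ O, (1 : ℝ)|) ?_ ?_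
      · intro j hj
        rw [hJS, Finset.mem_filter, Finset.mem_range] at hj
        obtain ⟨hjJ, hj1, hj2⟩ := hj
        refine (pr_E4 h1 h hm (by omega) hj1).trans ?_
        rw [← hB, div_le_div_iff₀ (by positivity) (by positivity)]
        have e1 : B ^ 7 ≤ B ^ 60 := pow_le_pow_right₀ hB1 (by norm_num)
        have e2 : B ^ 7 = B * B ^ 6 := by ring
        have e3 : 8 * B ^ 6 ≤ B * B ^ 6 := mul_le_mul_of_nonneg_right hB8 (by positivity)
        have e4 : 0 ≤ B ^ 60 := by positivity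
        linarith
      · intro ω hs hbad
        by_contra hcon
        push Not at hcon
        apply hbad
        refine (core_irr h4 h hm ω _ rfl hs.1 hcon).trans ?_
        rw [le_div_iff₀ (by positivity), ← hB, ← hX, ← hO]
        have e1 : (O.card : ℝ) * DD β N u m ≤ M * mstW P / B ^ 10 := by
          rw [le_div_iff₀ (by positivity)]
          exact hrel.le
        calc 2 * ((O.card : ℝ) * (B ^ 4 * DD β N u m)) * (β : ℝ) ^ 3
            = (2 * B ^ 4 * (β : ℝ) ^ 3) * ((O.card : ℝ) * DD β N u m) := by ring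
          _ ≤ (2 * B ^ 4 * B) * (M * mstW P / B ^ 10) := by
              refine mul_le_mul ?_ e1 (by positivity) (by positivity)
              exact mul_le_mul_of_nonneg_left hβB (by positivity)
          _ = (M * mstW P) * (2 / B ^ 5) := by
              field_simp
          _ ≤ (M * mstW P) * 1 := by
              refine mul_le_mul_of_nonneg_left ?_ hW0
              rw [div_le_one (by positivity)]
              calc (2 : ℝ) ≤ B := by linarith
                _ = B ^ 1 := (pow_one _).symm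
                _ ≤ B ^ 5 := pow_le_pow_right₀ hB1 (by norm_num)
          _ = _ := mul_one _

end Pool.Agent.H660R3.TS
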