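import Pool.Agent.H660R3.TS.Stubs2

/-!
# SIZE: polylogarithmic size bound
-/

set_option autoImplicit false

open scoped Classical

namespace Pool.Agent.H660R3.TS

namespace SIZE

/-- polynomially bounded -/
def PB (f : ℕ → ℕ) : Prop := ∃ A p : ℕ, ∀ n, 1 ≤ n → f n ≤ A * n ^ p

theorem PB.const (c : ℕ) : PB (fun _ => c) := ⟨c, 0, fun n _ => by simp⟩

theorem PB.id : PB (fun n => n) := ⟨1, 1, fun n _ => by simp⟩

theorem PB.add {f g : ℕ → ℕ} (hf : PB f) (hg : PB g) : PB (fun n => f n + g n) := by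
  obtain ⟨A, p, h1⟩ := hf
  obtain ⟨B, q, h2⟩ := hg
  refine ⟨A + B, p + q, fun n hn => ?_⟩
  have h3 : n ^ p ≤ n ^ (p + q) := Nat.pow_le_pow_right hn (by omega)
  have h4 : n ^ q ≤ n ^ (p + q) := Nat.pow_le_pow_right hn (by omega)
  calc f n + g n ≤ A * n ^ p + B * n ^ q := Nat.add_le_add (h1 n hn) (h2 n hn)
    _ ≤ A * n ^ (p + q) + B * n ^ (p + q) :=
        Nat.add_le_add (Nat.mul_le_mul_left _ h3) (Nat.mul_le_mul_left _ h4)
    _ = (A + B) * n ^ (p + q) := by ring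

theorem PB.mul {f g : ℕ → ℕ} (hf : PB f) (hg : PB g) : PB (fun n => f n * g n) := by
  obtain ⟨A, p, h1⟩ := hf
  obtain ⟨B, q, h2⟩ := hg
  refine ⟨A * B, p + q, fun n hn => ?_⟩
  calc f n * g n ≤ (A * n ^ p) * (B * n ^ q) := Nat.mul_le_mul (h1 n hn) (h2 n hn)
    _ = (A * B) * n ^ (p + q) := by ring

theorem PB.pow {f : ℕ → ℕ} (hf : PB f) (k : ℕ) : PB (fun n => f n ^ k) := by
  obtain ⟨A, p, h1⟩ := hf
  refine ⟨A ^ k, p * k, fun n hn => ?_⟩
  calc f n ^ k ≤ (A * n ^ p) ^ k := Nat.pow_le_pow_left (h1 n hn) k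
    _ = A ^ k * n ^ (p * k) := by rw [mul_pow, pow_mul]

theorem add_one_le (a : ℕ) : 2 ^ a + 1 ≤ 2 ^ (a + 1) := by
  have : 1 ≤ 2 ^ a := Nat.one_le_two_pow
  rw [pow_succ]; omega

theorem main_bound (Δ n β N L X Y : ℕ) (hΔ : Δ + 1 ≤ 2 ^ n) :
    3 * ((Δ + 1) ^ 2 + 1) * (((2 * β ^ (N * (L + 1))) ^ 2 + 1) ^ X + 1) ^ Y ≤
      2 ^ (2 + (n * 2 + 1) + (((β * (N * (L + 1)) + 1) * 2 + 1) * X + 1) * Y) := by
  have h1 : (Δ + 1) ^ 2 + 1 ≤ 2 ^ (n * 2 + 1) := by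
    refine le_trans (Nat.add_le_add_right (Nat.pow_le_pow_left hΔ 2) 1) ?_
    rw [← pow_mul]
    exact add_one_le _
  have h2 : 2 * β ^ (N * (L + 1)) ≤ 2 ^ (β * (N * (L + 1)) + 1) := by
    rw [pow_succ, mul_comm]
    apply Nat.mul_le_mul_right
    refine le_trans (Nat.pow_le_pow_left (Nat.lt_two_pow_self (n := β)).le (N * (L + 1))) ?_
    rw [← pow_mul]
  have h3 : (2 * β ^ (N * (L + 1))) ^ 2 + 1 ≤ 2 ^ ((β * (N * (L + 1)) + 1) * 2 + 1) := by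
    refine le_trans (Nat.add_le_add_right (Nat.pow_le_pow_left h2 2) 1) ?_
    rw [← pow_mul]
    exact add_one_le _
  have h4 : ((2 * β ^ (N * (L + 1))) ^ 2 + 1) ^ X + 1 ≤
      2 ^ (((β * (N * (L + 1)) + 1) * 2 + 1) * X + 1) := by
    refine le_trans (Nat.add_le_add_right (Nat.pow_le_pow_left h3 X) 1) ?_
    rw [← pow_mul]
    exact add_one_le _
  have h5 : (((2 * β ^ (N * (L + 1))) ^ 2 + 1) ^ X + 1) ^ Y ≤
      2 ^ ((((β * (N * (L + 1)) + 1) * 2 + 1) * X + 1) * Y) := by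
    refine le_trans (Nat.pow_le_pow_left h4 Y) ?_
    rw [← pow_mul]
  rw [pow_add, pow_add]
  apply Nat.mul_le_mul _ h5
  apply Nat.mul_le_mul _ h1
  norm_num

end SIZE

open SIZE in
theorem t_SIZE : St_SIZE := by
  intro N _
  have hL : PB (fun n => n + 11) := PB.id.add (PB.const 11)
  have hβ : PB (fun n => 10 ^ 20 * (n + 11)) := (PB.const _).mul hL
  have hJ : PB (fun n => 2 * N * (n + 11 + 2) * (10 ^ 20 * (n + 11))) :=
    ((PB.const (2 * N)).mul (hL.add (PB.const 2))).mul hβ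
  have hL1 : PB (fun n => n + 11 + 1) := hL.add (PB.const 1)
  have hJ1 : PB (fun n => 2 * N * (n + 11 + 2) * (10 ^ 20 * (n + 11)) + 1) := hJ.add (PB.const 1)
  have hLJ := hL1.mul hJ1
  have hY := hLJ.add ((hLJ.mul ((((hβ.pow (2 * N)).mul (hβ.pow (2 * N))).mul
    (hβ.pow (2 * N))).mul (hβ.pow (60 * N)))).mul hL1)
  have hX := hβ.pow (164 * N)
  have hE := ((PB.const 2).add ((PB.id.mul (PB.const 2)).add (PB.const 1))).add
    ((((((hβ.mul ((PB.const N).mul hL1)).add (PB.const 1)).mul (PB.const 2)).add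
      (PB.const 1)).mul hX).add (PB.const 1) |>.mul hY)
  obtain ⟨C, k, hCk⟩ := hE
  refine ⟨C, k, ?_⟩
  intro Δ L β J hΔ hL' hβ' hJ'
  set n := Nat.log 2 Δ + 1 with hn
  have hL2 : L = n + 11 := by omega
  have hΔ2 : Δ + 1 ≤ 2 ^ n := by
    have := Nat.lt_pow_succ_log_self (b := 2) (by norm_num) Δ
    exact this
  refine le_trans (main_bound Δ n β N L _ _ hΔ2) ?_
  apply Nat.pow_le_pow_right (by norm_num)
  have h1 := hCk n (by omega)
  rw [hJ', hβ', hL2]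
  exact h1

end Pool.Agent.H660R3.TS
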