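import Pool.Agent.H660R3.TS.Stubs2

/-!
# Task SJ: the chosen sampling rate is in the right range with high probability
-/

set_option autoImplicit false

open scoped Classical

namespace Pool.Agent.H660R3.TS

namespace SJ

theorem DD_two (β N u m : ℕ) (hm : 2 ≤ m) :
    DD β N u m = DD β N u (m - 2) * β ^ (2 * N) := by
  unfold DD
  rw [← pow_add]
  congr 1
  obtain ⟨k, rfl⟩ : ∃ k, m = k + 2 := ⟨m - 2, by omega⟩
  rw [Nat.add_sub_cancel]
  ring

theorem div_rd (σ n a : ℕ) (hσ : 0 < σ) : (a / σ * σ) / (σ * n) = a / (σ * n) := by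
  rw [← Nat.div_div_eq_div_mul, Nat.mul_div_cancel _ hσ, Nat.div_div_eq_div_mul]

theorem mem_keys (κ : Pt → Option Pt) (X : Finset Pt) (y : Pt) :
    y ∈ (X.image κ).eraseNone ↔ ∃ x ∈ X, κ x = some y := by
  simp [Finset.mem_eraseNone]

theorem keys_lower (β N u J : ℕ) (ω : Rnd) (m j : ℕ) (X : Finset Pt) (hβ : 0 < β) (hm : 2 ≤ m) :
    ((X.image (bx (DD β N u m))).filter (Sel J ω m j)).card ≤
      ((X.image (K1 β N u J ω m j)).eraseNone).card := by
  refine (Finset.card_le_card ?_).trans (Finset.card_image_le (f := bx (DD β N u m)))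
  intro Z hZ
  rw [Finset.mem_filter, Finset.mem_image] at hZ
  obtain ⟨⟨x, hx, rfl⟩, hS⟩ := hZ
  rw [Finset.mem_image]
  have hσ : 0 < DD β N u (m - 2) := by unfold DD; positivity
  refine ⟨rd (DD β N u (m - 2)) x, ?_, ?_⟩
  · rw [mem_keys]
    exact ⟨x, hx, by unfold K1; rw [if_pos hS]⟩
  · unfold bx rd
    rw [DD_two β N u m hm]
    simp only [div_rd _ _ _ hσ]

theorem cell_form (σ n a : ℕ) :
    a / σ * σ = a / (σ * n) * (σ * n) + (a / σ) % n * σ := by
  have h := Nat.div_add_mod (a / σ) n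
  rw [Nat.div_div_eq_div_mul] at h
  calc a / σ * σ = (n * (a / (σ * n)) + (a / σ) % n) * σ := by rw [h]
    _ = _ := by ring

theorem keys_upper (β N u J : ℕ) (ω : Rnd) (m j : ℕ) (X : Finset Pt) (hβ : 0 < β) (hm : 2 ≤ m) :
    ((X.image (K1 β N u J ω m j)).eraseNone).card ≤
      ((X.image (bx (DD β N u m))).filter (Sel J ω m j)).card * β ^ (4 * N) := by
  have hn : 0 < β ^ (2 * N) := by positivity
  have hsub : (X.image (K1 β N u J ω m j)).eraseNone ⊆
      (((X.image (bx (DD β N u m))).filter (Sel J ω m j)) ×ˢ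
        (Finset.range (β ^ (2 * N)) ×ˢ Finset.range (β ^ (2 * N)))).image
      (fun q : Pt × Pt => ((q.1.1 * DD β N u m + q.2.1 * DD β N u (m - 2),
        q.1.2 * DD β N u m + q.2.2 * DD β N u (m - 2)) : Pt)) := by
    intro y hy
    rw [mem_keys] at hy
    obtain ⟨x, hx, hxy⟩ := hy
    unfold K1 at hxy
    split_ifs at hxy with hS
    rw [Option.some.injEq] at hxy
    rw [Finset.mem_image]
    refine ⟨(bx (DD β N u m) x, ((x.1 / DD β N u (m - 2)) % β ^ (2 * N),
      (x.2 / DD β N u (m - 2)) % β ^ (2 * N))), ?_, ?_⟩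
    · rw [Finset.mem_product, Finset.mem_filter, Finset.mem_product]
      refine ⟨⟨Finset.mem_image_of_mem _ hx, hS⟩, ?_, ?_⟩
      · exact Finset.mem_range.mpr (Nat.mod_lt _ hn)
      · exact Finset.mem_range.mpr (Nat.mod_lt _ hn)
    · rw [← hxy]
      unfold rd bx
      rw [DD_two β N u m hm]
      simp only
      rw [← cell_form, ← cell_form]
  refine (Finset.card_le_card hsub).trans (Finset.card_image_le.trans ?_)
  rw [Finset.card_product, Finset.card_product, Finset.card_range]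
  apply le_of_eq
  congr 1
  rw [← pow_add]
  congr 1
  ring

theorem skt_isSome (κ : Pt → Option Pt) (cap : ℕ) (X : Finset Pt) :
    (skt κ cap X).isSome = true ↔ ((X.image κ).eraseNone).card ≤ cap := by
  unfold skt
  split_ifs with h
  · simp [h]
  · simp [h]

theorem card_emb {L KK : ℕ} (m : ℕ) (hm : m < L + 1) (O : Finset Pt)
    (hO : ∀ Z ∈ O, Z.1 < KK ∧ Z.2 < KK) (q : Pt → Prop) :
    (Finset.univ.filter (fun i : Fin (L + 1) × Fin KK × Fin KK =>
      ((i.1 : ℕ) = m ∧ (((i.2.1 : ℕ), (i.2.2 : ℕ)) : Pt) ∈ O) ∧ q ((i.2.1 : ℕ), (i.2.2 : ℕ)))).card =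
      (O.filter q).card := by
  refine Finset.card_bij (fun i _ => (((i.2.1 : ℕ), (i.2.2 : ℕ)) : Pt)) ?_ ?_ ?_
  · intro i hi
    rw [Finset.mem_filter] at hi ⊢
    exact ⟨hi.2.1.2, hi.2.2⟩
  · intro i hi i' hi' h
    rw [Finset.mem_filter] at hi hi'
    rw [Prod.mk.injEq] at h
    have e1 : i.1 = i'.1 := Fin.ext (hi.2.1.1.trans hi'.2.1.1.symm)
    have e2 : i.2.1 = i'.2.1 := Fin.ext h.1
    have e3 : i.2.2 = i'.2.2 := Fin.ext h.2
    exact Prod.ext e1 (Prod.ext e2 e3)
  · intro Z hZ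
    rw [Finset.mem_filter] at hZ
    have hb := hO Z hZ.1
    refine ⟨(⟨m, hm⟩, ⟨Z.1, hb.1⟩, ⟨Z.2, hb.2⟩), ?_, rfl⟩
    rw [Finset.mem_filter]
    exact ⟨Finset.mem_univ _, ⟨rfl, hZ.1⟩, hZ.2⟩

theorem card_sel (J j : ℕ) (hj : j ≤ J) :
    (Finset.univ.filter (fun a : Fin (2 ^ J) => (a : ℕ) * 2 ^ j < 2 ^ J)).card = 2 ^ (J - j) := by
  have e : 2 ^ J = 2 ^ (J - j) * 2 ^ j := by
    rw [← pow_add]; congr 1; omega
  have h2 : 0 < 2 ^ j := by positivity
  have hle : 2 ^ (J - j) ≤ 2 ^ J := Nat.pow_le_pow_right (by norm_num) (by omega)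
  have : (Finset.univ.filter (fun a : Fin (2 ^ J) => (a : ℕ) * 2 ^ j < 2 ^ J)).card =
      (Finset.range (2 ^ (J - j))).card := by
    refine Finset.card_bij (fun a _ => (a : ℕ)) ?_ ?_ ?_
    · intro a ha
      rw [Finset.mem_filter] at ha
      rw [Finset.mem_range]
      have h3 : (a : ℕ) * 2 ^ j < 2 ^ (J - j) * 2 ^ j := by
        rw [← e]
        exact ha.2
      exact Nat.lt_of_mul_lt_mul_right h3
    · intro a _ b _ h
      exact Fin.ext h
    · intro b hb
      rw [Finset.mem_range] at hb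
      refine ⟨⟨b, lt_of_lt_of_le hb hle⟩, ?_, rfl⟩
      rw [Finset.mem_filter]
      refine ⟨Finset.mem_univ _, ?_⟩
      show b * 2 ^ j < 2 ^ J
      rw [e]
      exact Nat.mul_lt_mul_of_pos_right hb h2
  rw [this, Finset.card_range]

theorem prob_j (h1 : St_P1) {L KK J SM Bc R : ℕ} (hSM : 0 < SM) (m : ℕ) (hm : m < L + 1)
    (O : Finset Pt) (hO : ∀ Z ∈ O, Z.1 < KK ∧ Z.2 < KK) (j : ℕ) (hj : j ≤ J) (τ : ℝ)
    (hτ : 0 < τ) :
    ((Finset.univ.filter (fun ω : Seed L KK J SM Bc R =>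
      τ < |(2 : ℝ) ^ j * ((O.filter (Sel J (toRnd ω) m j)).card : ℝ) - (O.card : ℝ)|)).card : ℝ) *
      τ ^ 2 ≤ 2 ^ j * O.card * Fintype.card (Seed L KK J SM Bc R) := by
  have hA : 0 < Fintype.card (Fin (2 ^ J) × ((Fin Bc × Fin Bc × Fin Bc × Fin R) → Fin SM)) := by
    rw [Fintype.card_prod, Fintype.card_fun, Fintype.card_fin, Fintype.card_fin]
    positivity
  obtain ⟨sel, hsd⟩ : ∃ sel : (Fin (2 ^ J) × ((Fin Bc × Fin Bc × Fin Bc × Fin R) →
      Fin SM)) → Prop, ∀ a, sel a ↔ (a.1 : ℕ) * 2 ^ j < 2 ^ J := ⟨_, fun _ => Iff.rfl⟩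
  have hsel : (Finset.univ.filter (fun a => sel a)).card * 2 ^ j =
      Fintype.card (Fin (2 ^ J) × ((Fin Bc × Fin Bc × Fin Bc × Fin R) → Fin SM)) := by
    have e : (Finset.univ.filter (fun a => sel a)) =
        (Finset.univ.filter (fun a : Fin (2 ^ J) => (a : ℕ) * 2 ^ j < 2 ^ J)) ×ˢ
        (Finset.univ : Finset ((Fin Bc × Fin Bc × Fin Bc × Fin R) → Fin SM)) := by
      ext a
      simp [hsd]
    rw [e, Finset.card_product, card_sel J j hj, Fintype.card_prod, Finset.card_univ,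
      Fintype.card_fin]
    have e2 : 2 ^ J = 2 ^ (J - j) * 2 ^ j := by
      rw [← pow_add]; congr 1; omega
    rw [e2]
    have e3 : 2 ^ (J - j) * 2 ^ j = 2 ^ J := e2.symm
    ring
  have h := h1 (Fin (L + 1) × Fin KK × Fin KK)
    (Fin (2 ^ J) × ((Fin Bc × Fin Bc × Fin Bc × Fin R) → Fin SM))
    (Finset.univ.filter (fun i : Fin (L + 1) × Fin KK × Fin KK =>
      (i.1 : ℕ) = m ∧ (((i.2.1 : ℕ), (i.2.2 : ℕ)) : Pt) ∈ O))
    sel (fun _ => 1) 1 τ j hA hsel
    (fun _ _ => ⟨by norm_num, le_refl _⟩) hτ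
  have ecard : (Finset.univ.filter (fun i : Fin (L + 1) × Fin KK × Fin KK =>
      (i.1 : ℕ) = m ∧ (((i.2.1 : ℕ), (i.2.2 : ℕ)) : Pt) ∈ O)).card = O.card := by
    have := card_emb (L := L) (KK := KK) m hm O hO (fun _ => True)
    simpa using this
  have efil : ∀ ω : Seed L KK J SM Bc R,
      ((Finset.univ.filter (fun i : Fin (L + 1) × Fin KK × Fin KK =>
        (i.1 : ℕ) = m ∧ (((i.2.1 : ℕ), (i.2.2 : ℕ)) : Pt) ∈ O)).filter
        (fun Z => sel (ω Z))).card =
      (O.filter (Sel J (toRnd ω) m j)).card := by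
    intro ω
    rw [← card_emb (L := L) (KK := KK) m hm O hO (Sel J (toRnd ω) m j), Finset.filter_filter]
    congr 1
    apply Finset.filter_congr
    intro i _
    refine and_congr_right fun hi => ?_
    have hlt : m < L + 1 ∧ (((i.2.1 : ℕ), (i.2.2 : ℕ)) : Pt).1 < KK ∧
        (((i.2.1 : ℕ), (i.2.2 : ℕ)) : Pt).2 < KK := ⟨hm, i.2.1.isLt, i.2.2.isLt⟩
    have hi2 : (⟨m, hm⟩, ⟨(i.2.1 : ℕ), i.2.1.isLt⟩, ⟨(i.2.2 : ℕ), i.2.2.isLt⟩) = i := by
      refine Prod.ext (Fin.ext hi.1.symm) (Prod.ext (Fin.ext rfl) (Fin.ext rfl))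
    rw [hsd]
    unfold Sel toRnd
    simp only
    rw [dif_pos hlt, hi2]
  simp only [Finset.sum_const, nsmul_eq_mul, mul_one, one_pow, ecard] at h
  simp only [efil] at h
  convert h

/-- the bad event for the rate `2^{-j}` -/
def Bd (NB s0 cap1 j : ℕ) (b : Bool) : Prop :=
  (2 * NB < 2 ^ j * s0 ∧ b = false) ∨ (4 * cap1 * 2 ^ j < NB ∧ b = true)

theorem bad_j (h1 : St_P1) {β N u L KK J SM Bc R cap1 : ℕ} (hβ : 2 ≤ β)
    (hc1 : cap1 = β ^ (64 * N)) (hSM : 0 < SM) (m : ℕ) (hm2 : 2 ≤ m) (hm : m < L + 1)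
    (X : Finset Pt) (hO : ∀ Z ∈ X.image (bx (DD β N u m)), Z.1 < KK ∧ Z.2 < KK) (j : ℕ)
    (hj : j ≤ J) :
    (Finset.univ.filter (fun ω : Seed L KK J SM Bc R =>
      Bd (X.image (bx (DD β N u m))).card (β ^ (60 * N)) cap1 j
        (T1of β N u J cap1 (toRnd ω) X m j).isSome)).card * β ^ (60 * N) ≤
      2 * Fintype.card (Seed L KK J SM Bc R) := by
  have hβ0 : 0 < β := by omega
  obtain ⟨O, hOd⟩ : ∃ O : Finset Pt, O = X.image (bx (DD β N u m)) := ⟨_, rfl⟩
  rw [← hOd] at hO ⊢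
  obtain ⟨s0, hs0⟩ : ∃ s0 : ℕ, s0 = β ^ (60 * N) := ⟨_, rfl⟩
  rw [← hs0]
  obtain ⟨b4, hb4⟩ : ∃ b4 : ℕ, b4 = β ^ (4 * N) := ⟨_, rfl⟩
  have hs0p : 0 < s0 := by rw [hs0]; positivity
  have hb4p : 0 < b4 := by rw [hb4]; positivity
  have hcs : cap1 = s0 * b4 := by
    rw [hc1, hs0, hb4, ← pow_add]; congr 1; ring
  have hcap_ge : s0 ≤ cap1 := by rw [hcs]; exact Nat.le_mul_of_pos_right _ hb4p
  have hlow : ∀ ω : Rnd, (O.filter (Sel J ω m j)).card ≤
      ((X.image (K1 β N u J ω m j)).eraseNone).card := by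
    intro ω; rw [hOd]; exact keys_lower β N u J ω m j X hβ0 hm2
  have hup : ∀ ω : Rnd, ((X.image (K1 β N u J ω m j)).eraseNone).card ≤
      (O.filter (Sel J ω m j)).card * b4 := by
    intro ω; rw [hOd, hb4]; exact keys_upper β N u J ω m j X hβ0 hm2
  have hsome : ∀ ω : Rnd, (T1of β N u J cap1 ω X m j).isSome = true ↔
      ((X.image (K1 β N u J ω m j)).eraseNone).card ≤ cap1 := by
    intro ω; unfold T1of; exact skt_isSome _ _ _
  obtain ⟨CS, hCS⟩ : ∃ CS : ℕ, CS = Fintype.card (Seed L KK J SM Bc R) := ⟨_, rfl⟩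
  rw [← hCS]
  have h2j : (0:ℝ) < 2 ^ j := by positivity
  have hs0r : (0:ℝ) < s0 := by exact_mod_cast hs0p
  have hCSr : (0:ℝ) ≤ CS := by positivity
  by_cases hc : 2 * O.card < 2 ^ j * s0
  · -- few boxes: overflow is unlikely
    have hnot : ¬ 4 * cap1 * 2 ^ j < O.card := by
      intro h
      have : 2 ^ j * s0 ≤ cap1 * 2 ^ j := by
        rw [mul_comm]; exact Nat.mul_le_mul_right _ hcap_ge
      nlinarith
    have hsub : (Finset.univ.filter (fun ω : Seed L KK J SM Bc R =>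
        Bd O.card s0 cap1 j (T1of β N u J cap1 (toRnd ω) X m j).isSome)) ⊆
        Finset.univ.filter (fun ω : Seed L KK J SM Bc R =>
          (2:ℝ) ^ j * s0 / 2 < |(2 : ℝ) ^ j * ((O.filter (Sel J (toRnd ω) m j)).card : ℝ) -
            (O.card : ℝ)|) := by
      intro ω hω
      rw [Finset.mem_filter] at hω ⊢
      refine ⟨Finset.mem_univ _, ?_⟩
      rcases hω.2 with ⟨_, hb⟩ | ⟨hb, _⟩
      · have h3 : ¬ ((X.image (K1 β N u J (toRnd ω) m j)).eraseNone).card ≤ cap1 := by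
          intro h
          rw [(hsome (toRnd ω)).mpr h] at hb
          exact Bool.noConfusion hb
        have h4 : s0 < (O.filter (Sel J (toRnd ω) m j)).card := by
          by_contra h5
          apply h3
          refine (hup (toRnd ω)).trans ?_
          rw [hcs]
          exact Nat.mul_le_mul_right _ (by omega)
        have h4r : (s0:ℝ) < ((O.filter (Sel J (toRnd ω) m j)).card : ℝ) := by exact_mod_cast h4
        have hcr : 2 * (O.card : ℝ) < 2 ^ j * s0 := by exact_mod_cast hc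
        refine lt_of_lt_of_le ?_ (le_abs_self _)
        have := mul_lt_mul_of_pos_left h4r h2j
        linarith
      · exact absurd hb hnot
    have hp := prob_j h1 (Bc := Bc) (R := R) hSM m hm O hO j hj ((2:ℝ) ^ j * s0 / 2)
      (by positivity)
    rw [← hCS] at hp
    have hcard := Finset.card_le_card hsub
    set A : ℕ := (Finset.univ.filter (fun ω : Seed L KK J SM Bc R =>
        Bd O.card s0 cap1 j (T1of β N u J cap1 (toRnd ω) X m j).isSome)).card with hA
    set B : ℕ := (Finset.univ.filter (fun ω : Seed L KK J SM Bc R =>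
          (2:ℝ) ^ j * s0 / 2 < |(2 : ℝ) ^ j * ((O.filter (Sel J (toRnd ω) m j)).card : ℝ) -
            (O.card : ℝ)|)).card with hB
    have hAB : (A:ℝ) ≤ B := by exact_mod_cast hcard
    have hcr : (O.card : ℝ) ≤ 2 ^ j * s0 / 2 := by
      have : 2 * (O.card : ℝ) < 2 ^ j * s0 := by exact_mod_cast hc
      linarith
    have h5 : (A:ℝ) * ((2:ℝ) ^ j * s0 / 2) ^ 2 ≤ 2 ^ j * (2 ^ j * s0 / 2) * CS := by
      calc (A:ℝ) * ((2:ℝ) ^ j * s0 / 2) ^ 2 ≤ B * ((2:ℝ) ^ j * s0 / 2) ^ 2 :=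
            mul_le_mul_of_nonneg_right hAB (by positivity)
        _ ≤ 2 ^ j * O.card * CS := hp
        _ ≤ 2 ^ j * (2 ^ j * s0 / 2) * CS := by
            apply mul_le_mul_of_nonneg_right _ hCSr
            exact mul_le_mul_of_nonneg_left hcr h2j.le
    have h6 : (A:ℝ) * s0 ≤ 2 * CS := by
      have hk : 0 < ((2:ℝ) ^ j) ^ 2 * s0 / 4 := by positivity
      have e1 : (A:ℝ) * ((2:ℝ) ^ j * s0 / 2) ^ 2 = (A * s0) * (((2:ℝ) ^ j) ^ 2 * s0 / 4) := by ring
      have e2 : (2:ℝ) ^ j * (2 ^ j * s0 / 2) * CS = (2 * CS) * (((2:ℝ) ^ j) ^ 2 * s0 / 4) := by ring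
      rw [e1, e2] at h5
      exact le_of_mul_le_mul_right h5 hk
    exact_mod_cast h6
  · by_cases hc2 : 4 * cap1 * 2 ^ j < O.card
    · have hOp : (0:ℝ) < O.card := by
        have : 0 < O.card := by omega
        exact_mod_cast this
      have hc2r : 4 * (cap1:ℝ) * 2 ^ j < O.card := by exact_mod_cast hc2
      have hsub : (Finset.univ.filter (fun ω : Seed L KK J SM Bc R =>
          Bd O.card s0 cap1 j (T1of β N u J cap1 (toRnd ω) X m j).isSome)) ⊆
          Finset.univ.filter (fun ω : Seed L KK J SM Bc R =>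
            (O.card : ℝ) / 2 < |(2 : ℝ) ^ j * ((O.filter (Sel J (toRnd ω) m j)).card : ℝ) -
              (O.card : ℝ)|) := by
        intro ω hω
        rw [Finset.mem_filter] at hω ⊢
        refine ⟨Finset.mem_univ _, ?_⟩
        rcases hω.2 with ⟨hb, _⟩ | ⟨_, hb⟩
        · exact absurd hb hc
        · have h3 := (hsome (toRnd ω)).mp hb
          have h4 : (O.filter (Sel J (toRnd ω) m j)).card ≤ cap1 := (hlow (toRnd ω)).trans h3
          have h4r : ((O.filter (Sel J (toRnd ω) m j)).card : ℝ) ≤ cap1 := by exact_mod_cast h4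
          rw [abs_sub_comm]
          refine lt_of_lt_of_le ?_ (le_abs_self _)
          have := mul_le_mul_of_nonneg_left h4r h2j.le
          nlinarith
      have hp := prob_j h1 (Bc := Bc) (R := R) hSM m hm O hO j hj ((O.card : ℝ) / 2)
        (by positivity)
      rw [← hCS] at hp
      have hcard := Finset.card_le_card hsub
      set A : ℕ := (Finset.univ.filter (fun ω : Seed L KK J SM Bc R =>
          Bd O.card s0 cap1 j (T1of β N u J cap1 (toRnd ω) X m j).isSome)).card with hA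
      set B : ℕ := (Finset.univ.filter (fun ω : Seed L KK J SM Bc R =>
            (O.card : ℝ) / 2 < |(2 : ℝ) ^ j * ((O.filter (Sel J (toRnd ω) m j)).card : ℝ) -
              (O.card : ℝ)|)).card with hB
      have hAB : (A:ℝ) ≤ B := by exact_mod_cast hcard
      have h5 : (A:ℝ) * ((O.card : ℝ) / 2) ^ 2 ≤ 2 ^ j * O.card * CS :=
        (mul_le_mul_of_nonneg_right hAB (by positivity)).trans hp
      have h6 : (A:ℝ) * O.card ≤ 4 * 2 ^ j * CS := by
        have hk : (0:ℝ) < (O.card : ℝ) / 4 := by positivity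
        have e1 : (A:ℝ) * ((O.card : ℝ) / 2) ^ 2 = (A * O.card) * ((O.card : ℝ) / 4) := by ring
        have e2 : (2:ℝ) ^ j * O.card * CS = (4 * 2 ^ j * CS) * ((O.card : ℝ) / 4) := by ring
        rw [e1, e2] at h5
        exact le_of_mul_le_mul_right h5 hk
      have hA0 : (0:ℝ) ≤ A := by positivity
      have h7 : (A:ℝ) * (4 * (cap1:ℝ) * 2 ^ j) ≤ 4 * 2 ^ j * CS :=
        (mul_le_mul_of_nonneg_left hc2r.le hA0).trans h6
      have h8 : (A:ℝ) * cap1 ≤ CS := by
        have hk : (0:ℝ) < 4 * 2 ^ j := by positivity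
        have e1 : (A:ℝ) * (4 * (cap1:ℝ) * 2 ^ j) = (A * cap1) * (4 * 2 ^ j) := by ring
        have e2 : 4 * (2:ℝ) ^ j * CS = CS * (4 * 2 ^ j) := by ring
        rw [e1, e2] at h7
        exact le_of_mul_le_mul_right h7 hk
      have hcr : (s0:ℝ) ≤ cap1 := by exact_mod_cast hcap_ge
      have h9 : (A:ℝ) * s0 ≤ 2 * CS := by
        have := mul_le_mul_of_nonneg_left hcr hA0
        linarith
      exact_mod_cast h9
    · have : (Finset.univ.filter (fun ω : Seed L KK J SM Bc R =>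
          Bd O.card s0 cap1 j (T1of β N u J cap1 (toRnd ω) X m j).isSome)) = ∅ := by
        rw [Finset.filter_eq_empty_iff]
        intro ω _ h
        rcases h with ⟨hb, _⟩ | ⟨hb, _⟩
        · exact hc hb
        · exact hc2 hb
      rw [this, Finset.card_empty, zero_mul]
      exact Nat.zero_le _

end SJ

open SJ in
theorem t_SJ (h1 : St_P1) : St_SJ := by
  intro P β N L Δ M SM KK J Bc R cap1 cap2 u s m H hm
  rw [Finset.mem_Icc] at hm
  have hL := H.hL
  have hN := H.hN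
  have hβL := H.hβ
  have hβ2 : 2 ≤ β := by nlinarith
  have hβ0 : 0 < β := by omega
  have hSM : 0 < SM := by rw [H.hSM]; positivity
  have hD : 0 < DD β N u m := by unfold DD; positivity
  -- the range of the scaled points
  have hrange : ∀ a : ℕ, a ≤ Δ → ∀ t : ℕ, t < SM → (M * a + t) / DD β N u m < KK := by
    intro a ha t ht
    have h2 : M * a ≤ SM := by
      have e1 : SM = β ^ (5 * N) * β ^ (N * (L - 6)) * β ^ (2 * N) := by
        rw [H.hSM, ← pow_add, ← pow_add]
        congr 1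
        obtain ⟨k, hk⟩ : ∃ k, L = k + 6 := ⟨L - 6, by omega⟩
        rw [hk, Nat.add_sub_cancel]
        ring
      have h3 : a ≤ β ^ (N * (L - 6)) := by
        have := H.hΔ
        omega
      have h4 : 1 ≤ β ^ (2 * N) := Nat.one_le_pow _ _ hβ0
      calc M * a ≤ β ^ (5 * N) * β ^ (N * (L - 6)) := by
            rw [H.hM]; exact Nat.mul_le_mul_left _ h3
        _ ≤ SM := by rw [e1]; exact Nat.le_mul_of_pos_right _ (by omega)
    refine lt_of_le_of_lt (Nat.div_le_self _ _) ?_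
    rw [H.hKK]
    omega
  have hO : ∀ Z ∈ (P.image (sh M s)).image (bx (DD β N u m)), Z.1 < KK ∧ Z.2 < KK := by
    intro Z hZ
    rw [Finset.mem_image] at hZ
    obtain ⟨x, hx, rfl⟩ := hZ
    rw [Finset.mem_image] at hx
    obtain ⟨p, hp, rfl⟩ := hx
    exact ⟨hrange p.1 (H.rng p hp).1 s.1 H.hs.1, hrange p.2 (H.rng p hp).2 s.2 H.hs.2⟩
  obtain ⟨X, hX⟩ : ∃ X : Finset Pt, X = P.image (sh M s) := ⟨_, rfl⟩
  rw [← hX] at hO
  simp only [← hX]
  obtain ⟨NB, hNB⟩ : ∃ NB : ℕ, NB = (X.image (bx (DD β N u m))).card := ⟨_, rfl⟩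
  -- number of boxes
  have hNBle : NB ≤ KK ^ 2 := by
    rw [hNB]
    have hsub : X.image (bx (DD β N u m)) ⊆ Finset.range KK ×ˢ Finset.range KK := by
      intro Z hZ
      rw [Finset.mem_product, Finset.mem_range, Finset.mem_range]
      exact hO Z hZ
    refine (Finset.card_le_card hsub).trans ?_
    rw [Finset.card_product, Finset.card_range]
    exact le_of_eq (by ring)
  have hKKJ : KK ^ 2 ≤ 2 ^ J := by
    have hb : β ≤ 2 ^ β := Nat.lt_two_pow_self.le
    have e1 : KK ^ 2 = 2 ^ 2 * β ^ (2 * (N * (L + 1))) := by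
      rw [H.hKK, H.hSM, mul_pow, ← pow_mul]
      congr 2
      ring
    rw [e1, H.hJ]
    calc 2 ^ 2 * β ^ (2 * (N * (L + 1))) ≤ 2 ^ 2 * (2 ^ β) ^ (2 * (N * (L + 1))) :=
          Nat.mul_le_mul_left _ (Nat.pow_le_pow_left hb _)
      _ = 2 ^ (2 + β * (2 * (N * (L + 1)))) := by rw [← pow_mul, ← pow_add]
      _ ≤ 2 ^ (2 * N * (L + 2) * β) := by
          apply Nat.pow_le_pow_right (by norm_num)
          have : 1 ≤ N * β := Nat.mul_pos (by omega) hβ0
          nlinarith
  obtain ⟨s0, hs0⟩ : ∃ s0 : ℕ, s0 = β ^ (60 * N) := ⟨_, rfl⟩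
  have hs0big : 4000 * L * (J + 1) ≤ s0 := by
    have hLβ : L ≤ β := by nlinarith
    have hNβ : N ≤ β ^ N := by
      calc N ≤ 2 ^ N := Nat.lt_two_pow_self.le
        _ ≤ β ^ N := Nat.pow_le_pow_left hβ2 _
    have h12 : 36000 ≤ β := by nlinarith
    have hJ1 : J + 1 ≤ 9 * (N * β * β) := by
      rw [H.hJ]
      have h1' : 1 ≤ N * β * β := Nat.mul_pos (Nat.mul_pos (by omega) hβ0) hβ0
      have h2' : 2 * N * (L + 2) * β ≤ 2 * N * (3 * β) * β := by
        apply Nat.mul_le_mul_right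
        apply Nat.mul_le_mul_left
        omega
      calc 2 * N * (L + 2) * β + 1 ≤ 2 * N * (3 * β) * β + 1 := by omega
        _ = 6 * (N * β * β) + 1 := by ring
        _ ≤ 9 * (N * β * β) := by omega
    calc 4000 * L * (J + 1) ≤ 4000 * β * (9 * (N * β * β)) :=
          Nat.mul_le_mul (Nat.mul_le_mul_left _ hLβ) hJ1
      _ = 36000 * (N * (β * β * β)) := by ring
      _ ≤ β * (β ^ N * (β * β * β)) :=
          Nat.mul_le_mul h12 (Nat.mul_le_mul_right _ hNβ)
      _ = β ^ (N + 4) := by ring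
      _ ≤ s0 := by
          rw [hs0]
          exact Nat.pow_le_pow_right hβ0 (by omega)
  have hs0_2 : 2 < s0 := by
    have : 1 ≤ L * (J + 1) := Nat.mul_pos (by omega) (by omega)
    nlinarith
  -- the union bound
  have hunion : (Finset.univ.filter (fun ω : Seed L KK J SM Bc R =>
      ¬ ((T1of β N u J cap1 (toRnd ω) X m (jst J (T1of β N u J cap1 (toRnd ω) X) m)).isSome ∧
        jst J (T1of β N u J cap1 (toRnd ω) X) m ≤ J ∧
        (jst J (T1of β N u J cap1 (toRnd ω) X) m = 0 ∨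
          2 ^ (jst J (T1of β N u J cap1 (toRnd ω) X) m) * β ^ (60 * N) ≤
            8 * (X.image (bx (DD β N u m))).card) ∧
        (X.image (bx (DD β N u m))).card ≤
          4 * cap1 * 2 ^ (jst J (T1of β N u J cap1 (toRnd ω) X) m)))) ⊆
      (Finset.range (J + 1)).biUnion (fun j => Finset.univ.filter (fun ω : Seed L KK J SM Bc R =>
        Bd (X.image (bx (DD β N u m))).card (β ^ (60 * N)) cap1 j
          (T1of β N u J cap1 (toRnd ω) X m j).isSome)) := by
    intro ω hω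
    rw [Finset.mem_filter] at hω
    by_contra hnot
    apply hω.2
    have hB : ∀ j ≤ J, ¬ Bd (X.image (bx (DD β N u m))).card (β ^ (60 * N)) cap1 j
          (T1of β N u J cap1 (toRnd ω) X m j).isSome := by
      intro j hj hb
      apply hnot
      rw [Finset.mem_biUnion]
      exact ⟨j, Finset.mem_range.mpr (by omega), Finset.mem_filter.mpr ⟨Finset.mem_univ _, hb⟩⟩
    rw [← hNB, ← hs0] at hB ⊢
    obtain ⟨T1, hT1⟩ : ∃ T1 : ℕ → ℕ → Option (Finset Pt),
      T1 = T1of β N u J cap1 (toRnd ω) X := ⟨_, rfl⟩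
    rw [← hT1] at hB ⊢
    obtain ⟨js, hjs⟩ : ∃ js : ℕ, js = jst J T1 m := ⟨_, rfl⟩
    rw [← hjs]
    have hmem : js = J ∨ (T1 m js).isSome := by
      have : js ∈ {j | j = J ∨ (T1 m j).isSome} := by
        rw [hjs]
        unfold jst
        exact Nat.sInf_mem ⟨J, Or.inl rfl⟩
      exact this
    have hjsJ : js ≤ J := by
      rw [hjs]
      unfold jst
      exact Nat.sInf_le (Or.inl rfl)
    have hsome : (T1 m js).isSome := by
      rcases hmem with h | h
      · by_contra hn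
        rw [Bool.not_eq_true] at hn
        apply hB js hjsJ
        left
        refine ⟨?_, hn⟩
        have h2 : 0 < 2 ^ J := by positivity
        calc 2 * NB ≤ 2 * 2 ^ J := Nat.mul_le_mul_left _ (hNBle.trans hKKJ)
          _ < 2 ^ js * s0 := by rw [h]; nlinarith
      · exact h
    refine ⟨hsome, hjsJ, ?_, ?_⟩
    · by_cases h0 : js = 0
      · left; exact h0
      · right
        have hpre : ¬ (js - 1 = J ∨ (T1 m (js - 1)).isSome) := by
          intro hc
          have hle : js ≤ js - 1 := by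
            conv_lhs => rw [hjs]
            unfold jst
            exact Nat.sInf_le hc
          omega
        push Not at hpre
        have hb := hB (js - 1) (by omega)
        have hn : (T1 m (js - 1)).isSome = false := by
          rw [← Bool.not_eq_true]
          exact hpre.2
        have h3 : ¬ 2 * NB < 2 ^ (js - 1) * s0 := fun h => hb (Or.inl ⟨h, hn⟩)
        have e : 2 ^ js = 2 * 2 ^ (js - 1) := by
          rw [← pow_succ']; congr 1; omega
        rw [e]
        nlinarith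
    · have hb := hB js hjsJ
      by_contra h
      exact hb (Or.inr ⟨by omega, hsome⟩)
  have hcard := (Finset.card_le_card hunion).trans Finset.card_biUnion_le
  obtain ⟨CS, hCS⟩ : ∃ CS : ℕ, CS = Fintype.card (Seed L KK J SM Bc R) := ⟨_, rfl⟩
  have hsum : (∑ j ∈ Finset.range (J + 1), (Finset.univ.filter (fun ω : Seed L KK J SM Bc R =>
        Bd (X.image (bx (DD β N u m))).card (β ^ (60 * N)) cap1 j
          (T1of β N u J cap1 (toRnd ω) X m j).isSome)).card) * s0 ≤ (J + 1) * (2 * CS) := by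
    rw [Finset.sum_mul]
    calc _ ≤ ∑ j ∈ Finset.range (J + 1), 2 * CS := by
          apply Finset.sum_le_sum
          intro j hj
          rw [Finset.mem_range] at hj
          have := bad_j h1 (β := β) (N := N) (u := u) (KK := KK) (J := J) (SM := SM) (Bc := Bc)
            (R := R) hβ2 H.hc1 hSM m (by omega) (by omega : m < L + 1) X hO j (by omega)
          rw [← hs0, ← hCS] at this
          rw [← hs0]
          exact this
      _ = (J + 1) * (2 * CS) := by rw [Finset.sum_const, Finset.card_range, smul_eq_mul]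
  rw [← hCS]
  have hs0p : 0 < s0 := by omega
  refine Nat.le_of_mul_le_mul_right ?_ hs0p
  calc _ ≤ 2000 * L * (∑ j ∈ Finset.range (J + 1),
        (Finset.univ.filter (fun ω : Seed L KK J SM Bc R =>
        Bd (X.image (bx (DD β N u m))).card (β ^ (60 * N)) cap1 j
          (T1of β N u J cap1 (toRnd ω) X m j).isSome)).card) * s0 :=
        Nat.mul_le_mul_right _ (Nat.mul_le_mul_left _ hcard)
    _ = 2000 * L * ((∑ j ∈ Finset.range (J + 1),
        (Finset.univ.filter (fun ω : Seed L KK J SM Bc R =>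
        Bd (X.image (bx (DD β N u m))).card (β ^ (60 * N)) cap1 j
          (T1of β N u J cap1 (toRnd ω) X m j).isSome)).card) * s0) := by ring
    _ ≤ 2000 * L * ((J + 1) * (2 * CS)) := Nat.mul_le_mul_left _ hsum
    _ = CS * (4000 * L * (J + 1)) := by ring
    _ ≤ CS * s0 := Nat.mul_le_mul_left _ hs0big

end Pool.Agent.H660R3.TS
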