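import Mathlib
import Pool.Agent.H660R3.TS.Defs
import Pool.Agent.H660R3.TS.Stubs

/-!
# Soundness: `2 Fstar ≤` length of every closed tour
-/

set_option autoImplicit false

open scoped Classical

namespace Pool.Agent.H660R3.TS

namespace SOUND

open Finset

theorem ds_eq (p q : Pt) : ds p q = ‖pt p - pt q‖ := by
  rw [ds, Complex.norm_def, Complex.normSq_apply]
  simp only [pt, Complex.sub_re, Complex.sub_im]
  congr 1
  ring

theorem dd_pos {β N u : ℕ} (hβ : 2 ≤ β) (m : ℕ) : 0 < DD β N u m := by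
  unfold DD
  positivity

theorem dd_mono {β N u : ℕ} (hβ : 2 ≤ β) {m m' : ℕ} (h : m ≤ m') : DD β N u m ≤ DD β N u m' := by
  unfold DD
  refine Nat.pow_le_pow_right (by omega) ?_
  have := Nat.mul_le_mul_left N h
  omega

/-- variation of a closed sequence -/
theorem closed_var (n : ℕ) (g : ℕ → ℝ) (a b : ℕ) (hab : a < b) (hb : b < n) :
    2 * |g a - g b| ≤ ∑ i ∈ range n, |g i - g ((i + 1) % n)| := by
  obtain ⟨n, rfl⟩ : ∃ k, n = k + 1 := ⟨n - 1, by omega⟩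
  rw [Finset.sum_range_succ, Nat.mod_self]
  have h0 : ∑ i ∈ range n, |g i - g ((i + 1) % (n + 1))| = ∑ i ∈ range n, |g i - g (i + 1)| := by
    refine Finset.sum_congr rfl fun i hi => ?_
    rw [Finset.mem_range] at hi
    rw [Nat.mod_eq_of_lt (by omega)]
  rw [h0]
  have hvar : ∀ c d : ℕ, c ≤ d → |g c - g d| ≤ ∑ i ∈ Ico c d, |g i - g (i + 1)| := by
    intro c d hcd
    induction d, hcd using Nat.le_induction with
    | base => simp
    | succ d hcd ih =>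
      rw [Finset.sum_Ico_succ_top hcd]
      have := abs_sub_le (g c) (g d) (g (d + 1))
      linarith
  have h1 := hvar 0 a (Nat.zero_le _)
  have h2 := hvar a b hab.le
  have h3 := hvar b n (by omega)
  have h4 : ∑ i ∈ range n, |g i - g (i + 1)| = ∑ i ∈ Ico 0 a, |g i - g (i + 1)| +
      (∑ i ∈ Ico a b, |g i - g (i + 1)| + ∑ i ∈ Ico b n, |g i - g (i + 1)|) := by
    rw [Finset.sum_Ico_consecutive _ hab.le (by omega : b ≤ n),
      Finset.sum_Ico_consecutive _ (Nat.zero_le _) (by omega : a ≤ n), Finset.range_eq_Ico]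
  rw [h4]
  have h5 := abs_sub_le (g a) (g 0) (g b)
  have h6 := abs_sub_le (g 0) (g n) (g b)
  have h7 : |g a - g 0| = |g 0 - g a| := abs_sub_comm _ _
  have h8 : |g 0 - g n| = |g n - g 0| := abs_sub_comm _ _
  have h9 : |g n - g b| = |g b - g n| := abs_sub_comm _ _
  linarith

/-- variation of a function along a closed tour meeting two points -/
theorem tour_var (l : List Pt) (f : Pt → ℝ) (x y : Pt) (hx : x ∈ l) (hy : y ∈ l)
    (hxy : |f x - f y| = 1) :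
    2 ≤ ∑ i : Fin l.length, |f (l.get i) - f (l.getD ((i.val + 1) % l.length) (0, 0))| := by
  obtain ⟨a, ha, rfl⟩ := List.getElem_of_mem hx
  obtain ⟨b, hb, rfl⟩ := List.getElem_of_mem hy
  set g : ℕ → ℝ := fun k => f (l.getD k (0, 0)) with hg
  have hga : ∀ k (hk : k < l.length), g k = f (l[k]) := by
    intro k hk
    simp only [hg]
    rw [List.getD_eq_getElem _ _ hk]
  have h1 : ∑ i : Fin l.length, |f (l.get i) - f (l.getD ((i.val + 1) % l.length) (0, 0))| =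
      ∑ i ∈ range l.length, |g i - g ((i + 1) % l.length)| := by
    rw [Finset.sum_range]
    refine Finset.sum_congr rfl fun i _ => ?_
    rw [hga i.1 i.2]
    rfl
  rw [h1]
  rw [← hga a ha, ← hga b hb] at hxy
  rcases lt_trichotomy a b with h | h | h
  · have := closed_var l.length g a b h hb
    linarith
  · subst h
    simp at hxy
  · have := closed_var l.length g b a h ha
    rw [abs_sub_comm] at hxy
    linarith

/-- rounding moves a point by at most `2 σ` -/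
theorem rd_dist {σ : ℕ} (hσ : 0 < σ) (x : Pt) : ‖pt x - pt (rd σ x)‖ ≤ 2 * σ := by
  have key : ∀ k : ℕ, |((k : ℝ) - ((k / σ * σ : ℕ) : ℝ))| ≤ σ := by
    intro k
    have h1 : k / σ * σ ≤ k := Nat.div_mul_le_self _ _
    have h2 : k < k / σ * σ + σ := by
      have := Nat.lt_div_mul_add (a := k) hσ
      linarith
    have h3 : ((k / σ * σ : ℕ) : ℝ) ≤ k := by exact_mod_cast h1
    have h4 : (k : ℝ) < ((k / σ * σ : ℕ) : ℝ) + σ := by exact_mod_cast h2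
    rw [abs_le]
    constructor <;> linarith
  refine (Complex.norm_le_abs_re_add_abs_im _).trans ?_
  have h1 := key x.1
  have h2 := key x.2
  have e1 : (pt x - pt (rd σ x)).re = (x.1 : ℝ) - ((x.1 / σ * σ : ℕ) : ℝ) := by
    simp [pt, rd]
  have e2 : (pt x - pt (rd σ x)).im = (x.2 : ℝ) - ((x.2 / σ * σ : ℕ) : ℝ) := by
    simp [pt, rd]
  rw [e1, e2]
  linarith

section idx

variable {β N u L : ℕ} {X : Finset Pt}

/-- the data of an annulus -/
structure Ann (β N u : ℕ) (X : Finset Pt) (m : ℕ) (Z : Pt) (x : Pt × ℕ) (ρ : ℕ) : Prop where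
  hm : 3 ≤ m
  cand : CandX β N u m X Z x.1 x.2
  lo : x.2 * DD β N u (m - 2) ≤ ρ
  hi : ρ < (x.2 + 1) * DD β N u (m - 2)
  unhit : Unhit β N u m X x.1 ρ

/-- `p` lies in the open annulus -/
def InA (i : Pt × ℕ) (p : ℂ) : Prop := (i.2 : ℝ) < ‖p - pt i.1‖ ∧ ‖p - pt i.1‖ < i.2 + 1

theorem Ann.lo' {m : ℕ} {Z : Pt} {x : Pt × ℕ} {ρ : ℕ} (h : Ann β N u X m Z x ρ) :
    (x.2 : ℝ) * (DD β N u (m - 2) : ℝ) ≤ ρ := by exact_mod_cast h.lo

theorem Ann.hi' {m : ℕ} {Z : Pt} {x : Pt × ℕ} {ρ : ℕ} (h : Ann β N u X m Z x ρ) :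
    (ρ : ℝ) + 1 ≤ ((x.2 : ℝ) + 1) * (DD β N u (m - 2) : ℝ) := by
  have := h.hi
  have h2 : ρ + 1 ≤ (x.2 + 1) * DD β N u (m - 2) := this
  exact_mod_cast h2

/-- different levels -/
theorem disj_level {m m' : ℕ} {Z Z' : Pt} {x x' : Pt × ℕ} {ρ ρ' : ℕ}
    (h : Ann β N u X m Z x ρ) (h' : Ann β N u X m' Z' x' ρ') (hmm : m' < m) (p : ℂ)
    (hp : InA (x.1, ρ) p) (hp' : InA (x'.1, ρ') p) : False := by
  have h1 := h.unhit m' h'.hm hmm Z' x'.1 x'.2 h'.cand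
  rw [Hits, not_not, ds_eq] at h1
  obtain ⟨p1, p2⟩ := hp
  obtain ⟨q1, q2⟩ := hp'
  simp only at p1 p2 q1 q2
  have h2 := h'.hi'
  have t1 : ‖p - pt x.1‖ ≤ ‖p - pt x'.1‖ + ‖pt x.1 - pt x'.1‖ := by
    have := norm_sub_le_norm_sub_add_norm_sub p (pt x'.1) (pt x.1)
    rw [norm_sub_rev (pt x'.1) (pt x.1)] at this
    exact this
  have t2 : ‖pt x.1 - pt x'.1‖ ≤ ‖p - pt x.1‖ + ‖p - pt x'.1‖ := by
    have := norm_sub_le_norm_sub_add_norm_sub (pt x.1) p (pt x'.1)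
    rw [norm_sub_rev (pt x.1) p] at this
    exact this
  rcases h1 with h1 | h1 <;> linarith

/-- a point of the annulus lies in the box -/
theorem in_box (hβ : 2 ≤ β) {m : ℕ} {Z : Pt} {x : Pt × ℕ} {ρ : ℕ}
    (h : Ann β N u X m Z x ρ) (p : ℂ) (hp : InA (x.1, ρ) p) :
    ((Z.1 : ℝ) * (DD β N u m : ℝ) < p.re ∧ p.re < ((Z.1 : ℝ) + 1) * (DD β N u m : ℝ)) ∧
    ((Z.2 : ℝ) * (DD β N u m : ℝ) < p.im ∧ p.im < ((Z.2 : ℝ) + 1) * (DD β N u m : ℝ)) := by
  obtain ⟨_, ⟨i1, i2, i3, i4⟩, _, hb, _⟩ := h.cand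
  obtain ⟨p1, p2⟩ := hp
  simp only at p1 p2
  have h2 := h.hi'
  set D : ℕ := DD β N u m with hD
  set σ : ℕ := DD β N u (m - 2) with hσ
  have hb' : ((x.2 : ℝ) + 1) * σ * (β : ℝ) ^ 10 ≤ D := by exact_mod_cast hb
  have hβ' : (2 : ℝ) ≤ β := by exact_mod_cast hβ
  have hpow : (β : ℝ) ≤ (β : ℝ) ^ 10 := by
    calc (β : ℝ) = (β : ℝ) ^ 1 := (pow_one _).symm
      _ ≤ (β : ℝ) ^ 10 := pow_le_pow_right₀ (by linarith) (by norm_num)
  have hr0 : (0 : ℝ) ≤ ((x.2 : ℝ) + 1) * σ := by positivity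
  have hb2 : β * (((x.2 : ℝ) + 1) * σ) ≤ D := by
    calc (β : ℝ) * (((x.2 : ℝ) + 1) * σ) = (((x.2 : ℝ) + 1) * σ) * β := mul_comm _ _
      _ ≤ (((x.2 : ℝ) + 1) * σ) * (β : ℝ) ^ 10 := mul_le_mul_of_nonneg_left hpow hr0
      _ ≤ D := hb'
  have hlt : ‖p - pt x.1‖ < ((x.2 : ℝ) + 1) * σ := lt_of_lt_of_le p2 h2
  have hre : |(p - pt x.1).re| < ((x.2 : ℝ) + 1) * σ :=
    lt_of_le_of_lt (Complex.abs_re_le_norm _) hlt
  have him : |(p - pt x.1).im| < ((x.2 : ℝ) + 1) * σ :=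
    lt_of_le_of_lt (Complex.abs_im_le_norm _) hlt
  have e1 : (p - pt x.1).re = p.re - (x.1.1 : ℝ) := by simp [pt]
  have e2 : (p - pt x.1).im = p.im - (x.1.2 : ℝ) := by simp [pt]
  rw [e1, abs_lt] at hre
  rw [e2, abs_lt] at him
  have j1 : (β : ℝ) * ((Z.1 : ℝ) * D) + D ≤ β * (x.1.1 : ℝ) := by exact_mod_cast i1
  have j2 : (β : ℝ) * (x.1.1 : ℝ) + D ≤ β * (((Z.1 : ℝ) + 1) * D) := by exact_mod_cast i2
  have j3 : (β : ℝ) * ((Z.2 : ℝ) * D) + D ≤ β * (x.1.2 : ℝ) := by exact_mod_cast i3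
  have j4 : (β : ℝ) * (x.1.2 : ℝ) + D ≤ β * (((Z.2 : ℝ) + 1) * D) := by exact_mod_cast i4
  have hβ0 : (0 : ℝ) < β := by linarith
  refine ⟨⟨?_, ?_⟩, ?_, ?_⟩
  · refine lt_of_mul_lt_mul_left ?_ hβ0.le
    have := mul_lt_mul_of_pos_left hre.1 hβ0
    linarith
  · refine lt_of_mul_lt_mul_left ?_ hβ0.le
    have := mul_lt_mul_of_pos_left hre.2 hβ0
    linarith
  · refine lt_of_mul_lt_mul_left ?_ hβ0.le
    have := mul_lt_mul_of_pos_left him.1 hβ0
    linarith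
  · refine lt_of_mul_lt_mul_left ?_ hβ0.le
    have := mul_lt_mul_of_pos_left him.2 hβ0
    linarith

/-- different boxes -/
theorem disj_box (hβ : 2 ≤ β) {m : ℕ} {Z Z' : Pt} {x x' : Pt × ℕ} {ρ ρ' : ℕ}
    (h : Ann β N u X m Z x ρ) (h' : Ann β N u X m Z' x' ρ') (hZ : Z ≠ Z') (p : ℂ)
    (hp : InA (x.1, ρ) p) (hp' : InA (x'.1, ρ') p) : False := by
  obtain ⟨⟨a1, a2⟩, a3, a4⟩ := in_box hβ h p hp
  obtain ⟨⟨b1, b2⟩, b3, b4⟩ := in_box hβ h' p hp'
  have hD : (0 : ℝ) < (DD β N u m : ℝ) := by exact_mod_cast dd_pos hβ m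
  have key : ∀ (s t : ℕ) (v : ℝ), (s : ℝ) * (DD β N u m : ℝ) < v →
      v < ((s : ℝ) + 1) * (DD β N u m : ℝ) → (t : ℝ) * (DD β N u m : ℝ) < v →
      v < ((t : ℝ) + 1) * (DD β N u m : ℝ) → s = t := by
    intro s t v h1 h2 h3 h4
    by_contra hne
    rcases Nat.lt_or_gt_of_ne hne with h5 | h5
    · have h6 : (s : ℝ) + 1 ≤ t := by exact_mod_cast h5
      have := mul_le_mul_of_nonneg_right h6 hD.le
      linarith
    · have h6 : (t : ℝ) + 1 ≤ s := by exact_mod_cast h5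
      have := mul_le_mul_of_nonneg_right h6 hD.le
      linarith
  exact hZ (Prod.ext (key _ _ _ a1 a2 b1 b2) (key _ _ _ a3 a4 b3 b4))

/-- different members of the family of a box -/
theorem disj_fam {m : ℕ} {Z Z' : Pt} {x x' : Pt × ℕ} {ρ ρ' : ℕ}
    (h : Ann β N u X m Z x ρ) (h' : Ann β N u X m Z' x' ρ') (hx : Adisj (DD β N u (m - 2)) x x')
    (p : ℂ) (hp : InA (x.1, ρ) p) (hp' : InA (x'.1, ρ') p) : False := by
  obtain ⟨p1, p2⟩ := hp
  obtain ⟨q1, q2⟩ := hp'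
  simp only at p1 p2 q1 q2
  have h1 := h.lo'
  have h2 := h.hi'
  have h3 := h'.lo'
  have h4 := h'.hi'
  set σ : ℕ := DD β N u (m - 2) with hσ
  have t1 : ‖p - pt x.1‖ ≤ ‖p - pt x'.1‖ + ‖pt x.1 - pt x'.1‖ := by
    have := norm_sub_le_norm_sub_add_norm_sub p (pt x'.1) (pt x.1)
    rw [norm_sub_rev (pt x'.1) (pt x.1)] at this
    exact this
  have t3 : ‖p - pt x'.1‖ ≤ ‖p - pt x.1‖ + ‖pt x.1 - pt x'.1‖ :=
    norm_sub_le_norm_sub_add_norm_sub p (pt x.1) (pt x'.1)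
  have t2 : ‖pt x.1 - pt x'.1‖ ≤ ‖p - pt x.1‖ + ‖p - pt x'.1‖ := by
    have := norm_sub_le_norm_sub_add_norm_sub (pt x.1) p (pt x'.1)
    rw [norm_sub_rev (pt x.1) p] at this
    exact this
  have hσ0 : (0 : ℝ) ≤ σ := Nat.cast_nonneg _
  rcases hx with ⟨hc, ha⟩ | hx | hx | hx
  · rw [← hc] at q1 q2
    rcases Nat.lt_or_gt_of_ne ha with h5 | h5
    · have h6 : (x.2 : ℝ) + 1 ≤ x'.2 := by exact_mod_cast h5
      have := mul_le_mul_of_nonneg_right h6 hσ0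
      linarith
    · have h6 : (x'.2 : ℝ) + 1 ≤ x.2 := by exact_mod_cast h5
      have := mul_le_mul_of_nonneg_right h6 hσ0
      linarith
  · rw [ds_eq] at hx
    nlinarith
  · rw [ds_eq] at hx
    linarith
  · rw [ds_eq] at hx
    linarith

/-- every annulus separates two points of the set -/
theorem separates (hβ : 2 ≤ β) {m : ℕ} {Z : Pt} {x : Pt × ℕ} {ρ : ℕ}
    (h : Ann β N u X m Z x ρ) : ∃ y ∈ X, ∃ y' ∈ X, clp (x.1, ρ) (pt y) = 0 ∧
      clp (x.1, ρ) (pt y') = 1 := by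
  obtain ⟨hc, _, hlow, _, ⟨q, hq, hqd⟩, _⟩ := h.cand
  have h1 := h.lo'
  have h2 := h.hi'
  have hσ0 : 0 < DD β N u (m - 2) := dd_pos hβ _
  have hD1 : DD β N u (m - 2) ≤ DD β N u (m - 1) := dd_mono hβ (by omega)
  set σ : ℕ := DD β N u (m - 2) with hσ
  have hσ0' : (0 : ℝ) < σ := by exact_mod_cast hσ0
  have h3 : 2 * (σ : ℝ) ≤ x.2 * σ := by
    have : 2 * σ ≤ x.2 * σ := by
      calc 2 * σ ≤ β * DD β N u (m - 1) := Nat.mul_le_mul hβ hD1
        _ ≤ _ := hlow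
    exact_mod_cast this
  rw [Qc, Finset.mem_image] at hc hq
  obtain ⟨y, hy, hyc⟩ := hc
  obtain ⟨y', hy', hyq⟩ := hq
  refine ⟨y, (Finset.mem_filter.1 hy).1, y', (Finset.mem_filter.1 hy').1, ?_, ?_⟩
  · have h4 := rd_dist hσ0 y
    rw [hyc] at h4
    rw [clp]
    simp only
    refine max_eq_left ((min_le_right _ _).trans ?_)
    linarith
  · have h4 := rd_dist hσ0 y'
    rw [hyq] at h4
    rw [ds_eq] at hqd
    have t1 : ‖pt q - pt x.1‖ ≤ ‖pt y' - pt q‖ + ‖pt y' - pt x.1‖ := by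
      have := norm_sub_le_norm_sub_add_norm_sub (pt q) (pt y') (pt x.1)
      rw [norm_sub_rev (pt q) (pt y')] at this
      exact this
    rw [clp]
    simp only
    have h5 : (1 : ℝ) ≤ ‖pt y' - pt x.1‖ - ρ := by nlinarith
    rw [min_eq_left h5]
    exact max_eq_right (by norm_num)

end idx

end SOUND

open SOUND Finset in
theorem t_SOUND (hpack : St_PACK) : St_SOUND := by
  intro β N u L l hβ hl
  set X := l.toFinset with hX
  -- the optimal families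
  have hfam : ∀ (m : ℕ) (Z : Pt), ∃ F : Finset (Pt × ℕ),
      F ⊆ cands β N u m (Qc (DD β N u m) (DD β N u (m - 2)) X Z) Z ∧
      (∀ x ∈ F, ∀ y ∈ F, x ≠ y → Adisj (DD β N u (m - 2)) x y) ∧
      Vbox β N u m X Z = ∑ x ∈ F, uval β N u m X x := by
    intro m Z
    obtain ⟨F, hF, hF2⟩ := Finset.exists_mem_eq_sup'
      (s := ((cands β N u m (Qc (DD β N u m) (DD β N u (m - 2)) X Z) Z).powerset.filter
        (fun F : Finset (Pt × ℕ) => ∀ x ∈ F, ∀ y ∈ F, x ≠ y →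
          Adisj (DD β N u (m - 2)) x y))) ⟨∅, by simp⟩
      (fun F => ∑ x ∈ F, uval β N u m X x)
    rw [Finset.mem_filter, Finset.mem_powerset] at hF
    exact ⟨F, hF.1, hF.2, hF2⟩
  choose F hF1 hF2 hF3 using hfam
  let I : Finset (Σ _ : ℕ, Σ _ : Pt, Σ _ : Pt × ℕ, ℕ) :=
    (Icc 3 L).sigma (fun m => (X.image (bx (DD β N u m))).sigma (fun Z => (F m Z).sigma
      (fun x => (Finset.Ico (x.2 * DD β N u (m - 2)) ((x.2 + 1) * DD β N u (m - 2))).filter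
        (fun ρ => Unhit β N u m X x.1 ρ))))
  have hmem : ∀ i ∈ I, Ann β N u X i.1 i.2.1 i.2.2.1 i.2.2.2 ∧ i.2.2.1 ∈ F i.1 i.2.1 := by
    rintro ⟨m, Z, x, ρ⟩ hi
    simp only [I, Finset.mem_sigma, Finset.mem_Icc, Finset.mem_filter, Finset.mem_Ico] at hi
    obtain ⟨hm, hZ, hx, hρ, hun⟩ := hi
    have hc := hF1 m Z hx
    rw [cands, Finset.mem_filter] at hc
    exact ⟨⟨hm.1, hc.2, hρ.1, hρ.2, hun⟩, hx⟩
  have hcard : Fstar β N u L X = (I.card : ℝ) := by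
    rw [Fstar]
    simp only [I, Finset.card_sigma, Nat.cast_sum]
    refine Finset.sum_congr rfl fun m _ => Finset.sum_congr rfl fun Z _ => ?_
    rw [hF3]
    rfl
  -- disjointness
  have hdisj : ∀ i ∈ I, ∀ j ∈ I, i ≠ j → ∀ p : ℂ,
      ¬ (InA (i.2.2.1.1, i.2.2.2) p ∧ InA (j.2.2.1.1, j.2.2.2) p) := by
    rintro ⟨m, Z, x, ρ⟩ hi ⟨m', Z', x', ρ'⟩ hj hne p ⟨hp, hp'⟩
    obtain ⟨h1, h2⟩ := hmem _ hi
    obtain ⟨h3, h4⟩ := hmem _ hj
    simp only at h1 h2 h3 h4 hp hp'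
    rcases lt_trichotomy m m' with hm | hm | hm
    · exact disj_level h3 h1 hm p hp' hp
    · subst hm
      by_cases hZ : Z = Z'
      · subst hZ
        by_cases hx : x = x'
        · subst hx
          have hρ : ρ ≠ ρ' := fun h => hne (by rw [h])
          obtain ⟨p1, p2⟩ := hp
          obtain ⟨q1, q2⟩ := hp'
          simp only at p1 p2 q1 q2
          rcases Nat.lt_or_gt_of_ne hρ with h5 | h5
          · have h6 : (ρ : ℝ) + 1 ≤ ρ' := by exact_mod_cast h5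
            linarith
          · have h6 : (ρ' : ℝ) + 1 ≤ ρ := by exact_mod_cast h5
            linarith
        · exact disj_fam h1 h3 (hF2 m Z x h2 x' h4 hx) p hp hp'
      · exact disj_box hβ h1 h3 hZ p hp hp'
    · exact disj_level h1 h3 hm p hp hp'
  -- the annuli are distinct
  let φ : (Σ _ : ℕ, Σ _ : Pt, Σ _ : Pt × ℕ, ℕ) → Pt × ℕ := fun i => (i.2.2.1.1, i.2.2.2)
  have hinj : Set.InjOn φ I := by
    intro i hi j hj hij
    by_contra hne
    have h1 : InA (φ i) (pt (φ i).1 + (((φ i).2 : ℝ) + 1 / 2 : ℝ)) := by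
      have e : ‖pt (φ i).1 + ((((φ i).2 : ℝ) + 1 / 2 : ℝ) : ℂ) - pt (φ i).1‖ =
          ((φ i).2 : ℝ) + 1 / 2 := by
        rw [add_sub_cancel_left, Complex.norm_real, Real.norm_of_nonneg (by positivity)]
      constructor <;> rw [e] <;> linarith
    exact hdisj i hi j hj hne _ ⟨h1, by
      have : InA (φ j) (pt (φ i).1 + (((φ i).2 : ℝ) + 1 / 2 : ℝ)) := by
        rw [← hij]
        exact h1
      exact this⟩
  have hpk := hpack (I.image φ) (by
    intro i hi j hj hne p hp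
    obtain ⟨i', hi', rfl⟩ := Finset.mem_image.1 hi
    obtain ⟨j', hj', rfl⟩ := Finset.mem_image.1 hj
    exact hdisj i' hi' j' hj' (fun h => hne (by rw [h])) p hp)
  -- sum over the tour
  rw [hcard]
  have hlow : ∀ i ∈ I, (2 : ℝ) ≤ ∑ k : Fin l.length,
      |clp (φ i) (pt (l.get k)) - clp (φ i) (pt (l.getD ((k.val + 1) % l.length) (0, 0)))| := by
    intro i hi
    obtain ⟨y, hy, y', hy', e1, e2⟩ := separates hβ (hmem i hi).1
    refine tour_var l (fun z => clp (φ i) (pt z)) y y' (List.mem_toFinset.1 hy)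
      (List.mem_toFinset.1 hy') ?_
    have f1 : clp (φ i) (pt y) = 0 := e1
    have f2 : clp (φ i) (pt y') = 1 := e2
    simp only [f1, f2]
    norm_num
  have h1 : (2 : ℝ) * I.card ≤ ∑ i ∈ I, ∑ k : Fin l.length,
      |clp (φ i) (pt (l.get k)) - clp (φ i) (pt (l.getD ((k.val + 1) % l.length) (0, 0)))| := by
    have := Finset.sum_le_sum hlow
    rw [Finset.sum_const, nsmul_eq_mul] at this
    linarith
  refine h1.trans ?_
  rw [Finset.sum_comm, tourLen]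
  refine Finset.sum_le_sum fun k _ => ?_
  have h2 : ∑ i ∈ I, |clp (φ i) (pt (l.get k)) -
      clp (φ i) (pt (l.getD ((k.val + 1) % l.length) (0, 0)))| =
      ∑ j ∈ I.image φ, |clp j (pt (l.get k)) -
        clp j (pt (l.getD ((k.val + 1) % l.length) (0, 0)))| :=
    (Finset.sum_image (f := fun j => |clp j (pt (l.get k)) -
      clp j (pt (l.getD ((k.val + 1) % l.length) (0, 0)))|) hinj).symm
  rw [h2]
  refine (hpk _ _).trans (le_of_eq ?_)
  rw [← ds_eq]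
  rfl

end Pool.Agent.H660R3.TS
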