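import Pool.Agent.H660R3.TS.Stubs

/-!
# Task STR: the system of all strands (helper497)
-/

set_option autoImplicit false
set_option linter.unusedSectionVars false

open scoped Classical

namespace Pool.Agent.H660R3.TS

namespace STRS

variable {V : Type} [Fintype V] (T : RTree V)

theorem iter_root (n : ℕ) : T.par^[n] T.root = T.root := by
  induction n with
  | zero => rfl
  | succ n ih => rw [Function.iterate_succ_apply, T.par_root, ih]

theorem zz_add (k : V) (a b : ℕ) : zz T k (a + b) = T.par^[b] (zz T k a) := by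
  unfold zz
  rw [Nat.add_comm, Function.iterate_add_apply]

theorem zz_succ (k : V) (j : ℕ) : zz T k (j + 1) = T.par (zz T k j) := zz_add T k j 1

theorem ne_root_of {k : V} {i j : ℕ} (hij : i ≤ j) (h : zz T k j ≠ T.root) :
    zz T k i ≠ T.root := by
  intro hi
  apply h
  obtain ⟨d, rfl⟩ := Nat.exists_eq_add_of_le hij
  rw [zz_add, hi, iter_root]

theorem rk_lt_of_lt {k : V} {i j : ℕ} (hij : i < j) (h : zz T k j ≠ T.root) :
    T.rk (zz T k j) < T.rk (zz T k i) := by
  induction j, hij using Nat.le_induction with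
  | base =>
    rw [zz_succ]
    exact T.rk_lt _ (ne_root_of T (Nat.le_succ i) h)
  | succ j hj ih =>
    have h1 : zz T k j ≠ T.root := ne_root_of T (Nat.le_succ j) h
    rw [zz_succ]
    exact lt_trans (T.rk_lt _ h1) (ih h1)

theorem zz_inj {k : V} {i j : ℕ} (h : zz T k i = zz T k j) (hj : zz T k j ≠ T.root) : i = j := by
  rcases lt_trichotomy i j with h1 | h1 | h1
  · have := rk_lt_of_lt T h1 hj
    rw [h] at this
    exact absurd this (lt_irrefl _)
  · exact h1
  · have := rk_lt_of_lt T h1 (h ▸ hj)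
    rw [h] at this
    exact absurd this (lt_irrefl _)

theorem insub_iff {x v : V} : T.InSub x v ↔ ∃ n, zz T x n = v := Iff.rfl

theorem insub_of_par {v z : V} (h : T.InSub (T.par v) z) : T.InSub v z := by
  obtain ⟨n, hn⟩ := h
  exact ⟨n + 1, by rw [Function.iterate_succ_apply]; exact hn⟩

theorem insub_par_of {v z : V} (h : T.InSub v z) (hz : v ≠ z) : T.InSub (T.par v) z := by
  obtain ⟨n, hn⟩ := h
  rcases n with _ | n
  · exact absurd hn hz
  · exact ⟨n, by rw [Function.iterate_succ_apply] at hn; exact hn⟩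

theorem insub_trans {x u v : V} (h1 : T.InSub x u) (h2 : T.InSub u v) : T.InSub x v := by
  obtain ⟨a, ha⟩ := h1
  obtain ⟨b, hb⟩ := h2
  refine ⟨b + a, ?_⟩
  rw [Function.iterate_add_apply, ha, hb]

theorem insub_ne_root {x v : V} (h : T.InSub x v) (hv : v ≠ T.root) : x ≠ T.root := by
  rintro rfl
  obtain ⟨n, hn⟩ := h
  exact hv (by rw [← hn, iter_root])

theorem insub_zz_mono {x k : V} {i j : ℕ} (hij : i ≤ j) (h : T.InSub x (zz T k i)) :
    T.InSub x (zz T k j) := by
  obtain ⟨d, rfl⟩ := Nat.exists_eq_add_of_le hij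
  exact insub_trans T h ⟨d, (zz_add T k i d).symm⟩

section

variable {T} {loc : V → ℂ} {y : V → ℝ} {Ld : LPD T (wt T loc)}

theorem aa_le (k x : V) : aa T loc Ld k x ≤ nn T loc Ld k :=
  Nat.sInf_le (Or.inl rfl)

theorem aa_spec {k x : V} (h : aa T loc Ld k x < nn T loc Ld k) :
    T.InSub x (zz T k (aa T loc Ld k x)) := by
  have h1 : aa T loc Ld k x ∈ {j | j = nn T loc Ld k ∨ T.InSub x (zz T k j)} :=
    Nat.sInf_mem ⟨_, Or.inl rfl⟩
  rcases h1 with h1 | h1
  · exact absurd h1 (ne_of_lt h)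
  · exact h1

theorem aa_not {k x : V} {j : ℕ} (h : j < aa T loc Ld k x) : ¬ T.InSub x (zz T k j) := by
  intro h1
  have h2 : aa T loc Ld k x ≤ j := Nat.sInf_le (Or.inr h1)
  omega

theorem aa_le_of {k x : V} {j : ℕ} (h : T.InSub x (zz T k j)) : aa T loc Ld k x ≤ j :=
  Nat.sInf_le (Or.inr h)

end

end STRS

open STRS in
theorem t_STR (h0 : St_LPD) (h1 : St_STR1) (h2 : St_STR2) : St_STR := by
  intro V _ T loc y Mn hE hMn ht
  have hwt : ∀ v, v ≠ T.root → 0 < wt T loc v := fun v hv => lt_of_lt_of_le hMn (ht.long v hv)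
  obtain ⟨Ld⟩ := h0 V T (wt T loc) hwt
  have F1 := h1 V T loc Ld hwt
  have F2 := h2 V T loc y Mn Ld hMn ht
  have htipne : ∀ v, v ≠ T.root → Ld.tip v ≠ T.root := fun v hv =>
    insub_ne_root T (Ld.sub_tip v) hv
  -- the tips
  set K : Finset V := Finset.univ.filter (fun k => Ld.tip k = k ∧ k ≠ T.root) with hK
  have memK : ∀ k, k ∈ K ↔ Ld.tip k = k ∧ k ≠ T.root := fun k => by
    rw [hK, Finset.mem_filter]; exact ⟨fun h => h.2, fun h => ⟨Finset.mem_univ _, h⟩⟩
  have tipK : ∀ v ∈ T.edges, Ld.tip v ∈ K := by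
    intro v hv
    have hv' : v ≠ T.root := (Finset.mem_filter.1 hv).2
    exact (memK _).2 ⟨Ld.tip_tip v, htipne v hv'⟩
  obtain ⟨v₀, hv₀⟩ := hE
  obtain ⟨S₀, -⟩ := F2 (Ld.tip v₀) ((memK _).1 (tipK v₀ hv₀)).1 ((memK _).1 (tipK v₀ hv₀)).2
  have hS : ∀ k, ∃ S : Strand loc Mn, k ∈ K → S.n = nn T loc Ld k ∧ (∀ j, S.z j = zz T k j) ∧
    (∀ j, S.t j = ∑ i ∈ Finset.range j, wt T loc (zz T k i)) ∧
    (∀ j, S.ys j = y (zz T k j)) ∧ (∀ x, S.att x = aa T loc Ld k x) ∧
    (∀ j, S.H j = hh T loc Ld k j) ∧ (∀ j, S.bet j = bb T loc y Ld k j) := by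
    intro k
    by_cases hk : k ∈ K
    · obtain ⟨S, hS⟩ := F2 k ((memK _).1 hk).1 ((memK _).1 hk).2
      exact ⟨S, fun _ => hS⟩
    · exact ⟨S₀, fun h => absurd h hk⟩
  choose S hS using hS
  have hSn := fun k hk => (hS k hk).1
  have hSz := fun k hk => (hS k hk).2.1
  have hSt := fun k hk => (hS k hk).2.2.1
  have hSys := fun k hk => (hS k hk).2.2.2.1
  have hSatt := fun k hk => (hS k hk).2.2.2.2.1
  have hSH := fun k hk => (hS k hk).2.2.2.2.2.1
  have hSbet := fun k hk => (hS k hk).2.2.2.2.2.2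
  -- facts about the long paths
  have P : ∀ k ∈ K, 0 < nn T loc Ld k ∧
    (∀ j < nn T loc Ld k, zz T k j ≠ T.root ∧ Ld.tip (zz T k j) = k) ∧
    (∀ j < nn T loc Ld k, Ld.ht (zz T k j) = ∑ i ∈ Finset.range j, wt T loc (zz T k i)) ∧
    (∀ v, v ≠ T.root → Ld.tip v = k → ∃ j < nn T loc Ld k, v = zz T k j) ∧
    (∀ j < nn T loc Ld k, zz T k (nn T loc Ld k) ≠ zz T k j) ∧
    (zz T k (nn T loc Ld k) = T.root ∨ Ld.tip (zz T k (nn T loc Ld k)) ≠ k) := fun k hk =>
    F1 k ((memK _).1 hk).1 ((memK _).1 hk).2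
  -- sums over a long path
  have hsum : ∀ k ∈ K, ∀ f : V → ℝ,
      ∑ v ∈ T.edges.filter (fun v => Ld.tip v = k), f v =
        ∑ j ∈ Finset.range (nn T loc Ld k), f (zz T k j) := by
    intro k hk f
    obtain ⟨-, p2, -, p4, -, -⟩ := P k hk
    symm
    refine Finset.sum_bij (fun j _ => zz T k j) ?_ ?_ ?_ ?_
    · intro j hj
      have hj' := p2 j (Finset.mem_range.1 hj)
      refine Finset.mem_filter.2 ⟨Finset.mem_filter.2 ⟨Finset.mem_univ _, hj'.1⟩, hj'.2⟩
    · intro i _ j hj hij
      exact zz_inj T hij (p2 j (Finset.mem_range.1 hj)).1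
    · intro v hv
      have hv1 := Finset.mem_filter.1 hv
      obtain ⟨j, hj, rfl⟩ := p4 v (Finset.mem_filter.1 hv1.1).2 hv1.2
      exact ⟨j, Finset.mem_range.2 hj, rfl⟩
    · intro j _
      rfl
  have hsumK : ∀ f : V → ℝ, ∑ k ∈ K, ∑ v ∈ T.edges.filter (fun v => Ld.tip v = k), f v =
      ∑ v ∈ T.edges, f v := fun f => Finset.sum_fiberwise_of_maps_to tipK f
  refine ⟨K, S, ?_, ?_, ?_, ?_, ?_, ?_, ?_, ?_⟩
  · -- z0
    intro k hk
    rw [hSz k hk]
    rfl
  · -- tot
    rw [← hsumK]
    refine Finset.sum_congr rfl fun k hk => ?_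
    rw [hsum k hk, hSt k hk, hSn k hk]
    rfl
  · -- mu
    set δ : V → ℝ := fun k => ∑ v ∈ T.edges.filter (fun v => Ld.tip v = k), (wt T loc v - y v)
      with hδ
    have hδ0 : ∀ k, 0 ≤ δ k := by
      intro k
      refine Finset.sum_nonneg fun v hv => sub_nonneg.2 ?_
      exact ht.le v (Finset.mem_filter.1 (Finset.mem_filter.1 hv).1).2
    have hlen : ∀ k ∈ K, ∀ j, (S k).len j = wt T loc (zz T k j) := by
      intro k hk j
      unfold Strand.len wt
      rw [hSz k hk, hSz k hk, zz_succ, norm_sub_rev]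
    have hbs : ∀ k ∈ K, ∑ j ∈ Finset.range (nn T loc Ld k), (S k).bs j = δ k := by
      intro k hk
      rw [hδ]
      dsimp only
      rw [hsum k hk]
      refine Finset.sum_congr rfl fun j _ => ?_
      unfold Strand.bs
      rw [hlen k hk, hSys k hk]
    have hdg : ∀ k ∈ K, ∑ j ∈ Finset.range (nn T loc Ld k), (S k).dg j ≤ δ k := by
      intro k hk
      rw [← hbs k hk]
      have e1 : ∑ j ∈ Finset.range (nn T loc Ld k), (S k).dg j =
          ∑ j ∈ Finset.range (nn T loc Ld k), (S k).len j - ((S k).f (nn T loc Ld k) - (S k).f 0) := by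
        unfold Strand.dg
        rw [Finset.sum_sub_distrib, Finset.sum_range_sub]
      have e2 : ∑ j ∈ Finset.range (nn T loc Ld k), (S k).bs j =
          ∑ j ∈ Finset.range (nn T loc Ld k), (S k).len j -
            ∑ j ∈ Finset.range (nn T loc Ld k), (S k).ys j := by
        unfold Strand.bs
        rw [Finset.sum_sub_distrib]
      have e3 : (S k).f 0 = 0 := by
        unfold Strand.f
        rw [sub_self, norm_zero]
      have e4 : ∑ j ∈ Finset.range (nn T loc Ld k), (S k).ys j ≤ (S k).f (nn T loc Ld k) := by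
        have h3 := (S k).ypath ((S k).z 0) ((S k).z (S k).n)
        rw [(S k).att_z 0 (Nat.zero_le _), (S k).att_z _ le_rfl, hSn k hk] at h3
        have h4 := h3 (Nat.zero_le _)
        rw [← Finset.range_eq_Ico] at h4
        unfold Strand.f
        rw [norm_sub_rev]
        exact h4
      rw [e1, e2, e3]
      linarith
    -- the deficits of the side paths
    set C : Finset V := T.edges.filter (fun c => T.par c ≠ T.root ∧ Ld.tip c ≠ Ld.tip (T.par c))
      with hC
    have hbet : ∑ k ∈ K, ∑ j ∈ Finset.range (nn T loc Ld k), (S k).bet j ≤ ∑ k ∈ K, δ k := by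
      have e1 : ∑ k ∈ K, ∑ j ∈ Finset.range (nn T loc Ld k), (S k).bet j =
          ∑ k ∈ K, ∑ c ∈ C.filter (fun c => Ld.tip (T.par c) = k), δ (Ld.tip c) := by
        refine Finset.sum_congr rfl fun k hk => ?_
        obtain ⟨-, p2, -, p4, -, -⟩ := P k hk
        have e2 : ∀ j ∈ Finset.range (nn T loc Ld k), (S k).bet j =
            ∑ c ∈ (C.filter (fun c => Ld.tip (T.par c) = k)).filter (fun c => T.par c = zz T k j),
              δ (Ld.tip c) := by
          intro j hj
          have hj' := p2 j (Finset.mem_range.1 hj)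
          rw [hSbet k hk]
          unfold bb
          refine Finset.sum_congr ?_ fun c _ => rfl
          ext c
          unfold sc
          simp only [hC, Finset.mem_filter]
          constructor
          · rintro ⟨a1, a2, a3⟩
            refine ⟨⟨⟨a1, ?_, ?_⟩, ?_⟩, a2⟩
            · rw [a2]; exact hj'.1
            · rw [a2, hj'.2]; exact a3
            · rw [a2, hj'.2]
          · rintro ⟨⟨⟨a1, a2, a3⟩, a4⟩, a5⟩
            refine ⟨a1, a5, ?_⟩
            rw [← a4]; exact a3
        rw [Finset.sum_congr rfl e2]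
        -- fibers over the vertices of the path
        have e3 : ∀ c ∈ C.filter (fun c => Ld.tip (T.par c) = k),
            T.par c ∈ (Finset.range (nn T loc Ld k)).image (zz T k) := by
          intro c hc
          have hc1 := Finset.mem_filter.1 hc
          have hc2 := Finset.mem_filter.1 hc1.1
          obtain ⟨j, hj, hcj⟩ := p4 (T.par c) hc2.2.1 hc1.2
          exact Finset.mem_image.2 ⟨j, Finset.mem_range.2 hj, hcj.symm⟩
        rw [← Finset.sum_fiberwise_of_maps_to e3, Finset.sum_image]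
        intro i _ j hj hij
        exact zz_inj T hij (p2 j (Finset.mem_range.1 (Finset.mem_coe.1 hj))).1
      have e4 : ∀ c ∈ C, Ld.tip (T.par c) ∈ K := by
        intro c hc
        have hc2 := Finset.mem_filter.1 hc
        exact tipK _ (Finset.mem_filter.2 ⟨Finset.mem_univ _, hc2.2.1⟩)
      rw [e1, Finset.sum_fiberwise_of_maps_to e4]
      have e5 : ∑ c ∈ C, δ (Ld.tip c) = ∑ l ∈ C.image Ld.tip, δ l := by
        rw [Finset.sum_image]
        intro c hc c' hc' hcc
        have key : ∀ c ∈ C, c = zz T (Ld.tip c) (nn T loc Ld (Ld.tip c) - 1) := by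
          intro c hc
          have hc2 := Finset.mem_filter.1 hc
          have hc3 : c ≠ T.root := (Finset.mem_filter.1 hc2.1).2
          obtain ⟨q1, q2, -, q4, -, -⟩ := P (Ld.tip c) (tipK c hc2.1)
          obtain ⟨j, hj, hcj⟩ := q4 c hc3 rfl
          have h5 : ¬ j + 1 < nn T loc Ld (Ld.tip c) := by
            intro h6
            have h7 := (q2 (j + 1) h6).2
            rw [zz_succ, ← hcj] at h7
            exact hc2.2.2 h7.symm
          have h6 : nn T loc Ld (Ld.tip c) - 1 = j := by omega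
          rw [h6]
          exact hcj
        have hcc' : Ld.tip c = Ld.tip c' := hcc
        rw [key c hc, key c' hc', hcc']
      rw [e5]
      refine Finset.sum_le_sum_of_subset_of_nonneg ?_ fun l _ _ => hδ0 l
      intro l hl
      obtain ⟨c, hc, rfl⟩ := Finset.mem_image.1 hl
      exact tipK c (Finset.mem_filter.1 hc).1
    have e6 : ∑ k ∈ K, δ k = ∑ v ∈ T.edges, (wt T loc v - y v) := hsumK _
    have e7 : ∑ k ∈ K, (S k).muTot ≤ ∑ k ∈ K, (4 * δ k +
        ∑ j ∈ Finset.range (nn T loc Ld k), (S k).bet j) := by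
      refine Finset.sum_le_sum fun k hk => ?_
      unfold Strand.muTot
      rw [hSn k hk, Finset.sum_add_distrib, ← Finset.mul_sum, Finset.sum_add_distrib, hbs k hk]
      have := hdg k hk
      linarith
    have e8 : ∑ v ∈ T.edges, (‖loc v - loc (T.par v)‖ - y v) =
        ∑ v ∈ T.edges, (wt T loc v - y v) := rfl
    rw [e8, ← e6]
    rw [Finset.sum_add_distrib, ← Finset.mul_sum] at e7
    linarith
  · -- cut1
    intro k hk v _
    rw [hSatt k hk, hSatt k hk]
    by_cases h : aa T loc Ld k (T.par v) < nn T loc Ld k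
    · exact aa_le_of (insub_of_par T (aa_spec h))
    · exact le_trans (aa_le k v) (not_lt.1 h)
  · -- cut2
    intro k hk j hj v _ h3 h4
    rw [hSatt k hk] at h3 h4
    rw [hSn k hk] at hj
    have h5 : T.InSub v (zz T k j) :=
      insub_zz_mono T h3 (aa_spec (lt_of_le_of_lt h3 hj))
    have h6 : v = zz T k j := by
      by_contra h7
      exact aa_not h4 (insub_par_of T h5 h7)
    rw [hSz k hk, hSz k hk, zz_succ, ← h6]
    exact ⟨rfl, rfl⟩
  · -- pair1
    intro k hk l hl hkl
    rw [hSatt l hl, hSn l hl, hSatt k hk, hSn k hk]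
    by_contra hcon
    rw [not_or] at hcon
    have h3 : aa T loc Ld l k < nn T loc Ld l := lt_of_le_of_ne (aa_le l k) hcon.1
    have h4 : aa T loc Ld k l < nn T loc Ld k := lt_of_le_of_ne (aa_le k l) hcon.2
    -- auxiliary: an ancestor of `k` on the path of `l` strictly below the top of the path of `k`
    have aux : ∀ k ∈ K, ∀ l ∈ K, k ≠ l → ∀ i < nn T loc Ld l, ∀ j < nn T loc Ld k,
        T.InSub k (zz T l i) → T.InSub (zz T l i) (zz T k j) → False := by
      intro k hk l hl hkl i hi j hj ha hb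
      obtain ⟨a, ha⟩ := ha
      obtain ⟨b, hb⟩ := hb
      have ha' : zz T k a = zz T l i := ha
      have e1 : zz T k (a + b) = zz T k j := by
        rw [zz_add, ha']; exact hb
      have e2 := zz_inj T e1 ((P k hk).2.1 j hj).1
      have e3 := ((P k hk).2.1 a (by omega)).2
      rw [ha', ((P l hl).2.1 i hi).2] at e3
      exact hkl e3.symm
    obtain ⟨a, ha⟩ := aa_spec h3
    obtain ⟨b, hb⟩ := aa_spec h4
    -- both are ancestors of `k`
    have ha' : zz T k a = zz T l (aa T loc Ld l k) := ha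
    rcases le_total a (aa T loc Ld k l) with h5 | h5
    · refine aux k hk l hl hkl _ h3 _ h4 ⟨a, ha⟩ ?_
      rw [← ha']
      obtain ⟨d, hd⟩ := Nat.exists_eq_add_of_le h5
      exact ⟨d, by rw [hd, zz_add]⟩
    · refine aux l hl k hk (Ne.symm hkl) _ h4 _ h3 ⟨b, hb⟩ ?_
      rw [← ha']
      obtain ⟨d, hd⟩ := Nat.exists_eq_add_of_le h5
      exact ⟨d, by rw [hd, zz_add]⟩
  · -- pair2
    intro k hk l hl hkl h3
    rw [hSatt l hl, hSn l hl] at h3
    rw [hSatt k hk, hSn l hl]
    have hA : ∑ j ∈ Finset.range (aa T loc Ld k l), (S k).ys j =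
        ∑ e ∈ (Finset.range (aa T loc Ld k l)).image (zz T k), y e := by
      rw [Finset.sum_image]
      · exact Finset.sum_congr rfl fun j _ => hSys k hk j
      · intro i _ j hj hij
        have hj' := Finset.mem_range.1 (Finset.mem_coe.1 hj)
        exact zz_inj T hij ((P k hk).2.1 j (lt_of_lt_of_le hj' (aa_le k l))).1
    have hB : ∑ j ∈ Finset.range (nn T loc Ld l), (S l).ys j =
        ∑ e ∈ (Finset.range (nn T loc Ld l)).image (zz T l), y e := by
      rw [Finset.sum_image]
      · exact Finset.sum_congr rfl fun j _ => hSys l hl j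
      · intro i _ j hj hij
        have hj' := Finset.mem_range.1 (Finset.mem_coe.1 hj)
        exact zz_inj T hij ((P l hl).2.1 j hj').1
    have hAm : ∀ e ∈ (Finset.range (aa T loc Ld k l)).image (zz T k), e ≠ T.root ∧
        T.InSub k e ∧ ¬ T.InSub l e := by
      intro e he
      obtain ⟨j, hj, rfl⟩ := Finset.mem_image.1 he
      have hj' := Finset.mem_range.1 hj
      exact ⟨((P k hk).2.1 j (lt_of_lt_of_le hj' (aa_le k l))).1, ⟨j, rfl⟩, aa_not hj'⟩
    have hBm : ∀ e ∈ (Finset.range (nn T loc Ld l)).image (zz T l), e ≠ T.root ∧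
        T.InSub l e ∧ ¬ T.InSub k e := by
      intro e he
      obtain ⟨j, hj, rfl⟩ := Finset.mem_image.1 he
      have hj' := Finset.mem_range.1 hj
      exact ⟨((P l hl).2.1 j hj').1, ⟨j, rfl⟩, aa_not (Ld := Ld) (by rw [h3]; exact hj')⟩
    rw [hA, hB, ← Finset.sum_union]
    · refine le_trans ?_ (ht.path k l)
      refine Finset.sum_le_sum_of_subset_of_nonneg ?_ fun e _ _ => ht.nonneg e
      intro e he
      rcases Finset.mem_union.1 he with he | he
      · obtain ⟨a1, a2, a3⟩ := hAm e he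
        refine Finset.mem_filter.2 ⟨Finset.mem_univ _, a1, fun h => a3 (h.1 a2)⟩
      · obtain ⟨a1, a2, a3⟩ := hBm e he
        refine Finset.mem_filter.2 ⟨Finset.mem_univ _, a1, fun h => a3 (h.2 a2)⟩
    · rw [Finset.disjoint_left]
      intro e he he'
      exact (hBm e he').2.2 (hAm e he).2.1
  · -- pair3
    intro k hk l hl hkl h3
    rw [hSatt k hk, hSn k hk] at h3
    rw [hSatt k hk, hSn l hl, hSt l hl, hSH k hk]
    obtain ⟨m, hm⟩ := aa_spec h3
    have hm' : zz T l m = zz T k (aa T loc Ld k l) := hm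
    obtain ⟨p1, p2, p3, p4, p5, p6⟩ := P k hk
    obtain ⟨q1, q2, q3, q4, q5, q6⟩ := P l hl
    have hq := p2 _ h3
    have hmn : nn T loc Ld l ≤ m := by
      by_contra h5
      have h6 := (q2 m (not_le.1 h5)).2
      rw [hm', hq.2] at h6
      exact hkl h6
    obtain ⟨m, rfl⟩ : ∃ m', m = m' + 1 := ⟨m - 1, by omega⟩
    -- the side child
    set c := zz T l m with hc
    have hpc : T.par c = zz T k (aa T loc Ld k l) := by
      rw [← hm', zz_succ]
    have hcr : c ≠ T.root := by
      intro h5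
      apply hq.1
      rw [← hpc, h5, T.par_root]
    have hct : Ld.tip c ≠ k := by
      intro h5
      obtain ⟨i, hi, hci⟩ := p4 c hcr h5
      have h6 : zz T k (i + 1) = zz T k (aa T loc Ld k l) := by
        rw [zz_succ, ← hci, hpc]
      have h7 := zz_inj T h6 hq.1
      refine aa_not (Ld := Ld) (k := k) (x := l) (j := i) (by omega) ?_
      exact ⟨m, hci⟩
    have hcs : c ∈ sc T loc Ld k (aa T loc Ld k l) :=
      Finset.mem_filter.2 ⟨Finset.mem_filter.2 ⟨Finset.mem_univ _, hcr⟩, hpc, hct⟩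
    have h8 : Ld.ht c + wt T loc c ≤ hh T loc Ld k (aa T loc Ld k l) := by
      unfold hh
      refine Finset.le_max' _ _ ?_
      rw [Finset.mem_insert]
      right
      exact Finset.mem_image.2 ⟨c, hcs, rfl⟩
    refine le_trans ?_ h8
    -- climb from the top of the path of `l` to `c`
    have climb : ∀ d, zz T l (nn T loc Ld l - 1 + d) ≠ T.root →
        ∑ i ∈ Finset.range (nn T loc Ld l), wt T loc (zz T l i) ≤
          Ld.ht (zz T l (nn T loc Ld l - 1 + d)) + wt T loc (zz T l (nn T loc Ld l - 1 + d)) := by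
      intro d
      induction d with
      | zero =>
        intro _
        have e1 : nn T loc Ld l = (nn T loc Ld l - 1) + 1 := by omega
        have e2 := q3 (nn T loc Ld l - 1) (by omega)
        rw [Nat.add_zero, e2]
        rw [← Finset.sum_range_succ, ← e1]
      | succ d ih =>
        intro h9
        have h10 : zz T l (nn T loc Ld l - 1 + d) ≠ T.root :=
          ne_root_of T (by omega) h9
        have h11 := Ld.par_le _ h10
        rw [← zz_succ] at h11
        have h12 := ih h10
        have h13 := hwt _ h9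
        have e3 : nn T loc Ld l - 1 + (d + 1) = nn T loc Ld l - 1 + d + 1 := by omega
        rw [e3] at h13 ⊢
        linarith
    have e4 : m = nn T loc Ld l - 1 + (m - (nn T loc Ld l - 1)) := by omega
    have h14 := climb (m - (nn T loc Ld l - 1)) (by rw [← e4]; exact hcr)
    rw [← e4] at h14
    exact h14

end Pool.Agent.H660R3.TS
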