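import Pool.Agent.H660R3.TS.Stubs

/-!
Task STR1: chain facts for the long path of a tip.
-/

set_option autoImplicit false

open scoped Classical

namespace Pool.Agent.H660R3.TS

namespace STR1

set_option linter.unusedSectionVars false

variable {V : Type} [Fintype V] (T : RTree V)

theorem rk_le (v : V) : T.rk (T.par v) ≤ T.rk v := by
  by_cases h : v = T.root
  · rw [h, T.par_root]
  · exact (T.rk_lt v h).le

theorem zz_succ (k : V) (j : ℕ) : zz T k (j + 1) = T.par (zz T k j) := by
  unfold zz
  rw [Function.iterate_succ_apply']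

theorem rk_anti (k : V) {i j : ℕ} (h : i ≤ j) : T.rk (zz T k j) ≤ T.rk (zz T k i) := by
  induction j with
  | zero =>
    have : i = 0 := by omega
    subst this
    exact le_rfl
  | succ j ih =>
    by_cases hij : i = j + 1
    · subst hij
      exact le_rfl
    · rw [zz_succ]
      exact (rk_le T _).trans (ih (by omega))

theorem rk_strict (k : V) {i j : ℕ} (h : i < j) (hi : zz T k i ≠ T.root) :
    T.rk (zz T k j) < T.rk (zz T k i) := by
  have h1 : T.rk (zz T k (i + 1)) < T.rk (zz T k i) := by
    rw [zz_succ]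
    exact T.rk_lt _ hi
  exact lt_of_le_of_lt (rk_anti T k h) h1

variable (w : V → ℝ) (Ld : LPD T w)

/-- the chain of heavy children -/
theorem chain (k : V) (hk : Ld.tip k = k) : ∀ (m : ℕ) (v : V),
    (Finset.univ.sup T.rk) - T.rk v ≤ m → Ld.tip v = k →
    ∃ j, v = zz T k j ∧ (∀ i < j, zz T k i ≠ T.root) ∧ ∀ i ≤ j, Ld.tip (zz T k i) = k := by
  intro m
  induction m with
  | zero =>
    intro v hm hv
    by_cases hvk : v = k
    · subst hvk
      refine ⟨0, rfl, fun i hi => absurd hi (Nat.not_lt_zero _), fun i hi => ?_⟩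
      have : i = 0 := by omega
      subst this
      exact hk
    · exfalso
      have h1 : Ld.tip v ≠ v := by rw [hv]; exact fun h => hvk h.symm
      obtain ⟨c, hc, hcv, -, -⟩ := Ld.heavy v h1
      have h2 := T.rk_lt c hc
      rw [hcv] at h2
      have h3 : T.rk c ≤ Finset.univ.sup T.rk := Finset.le_sup (Finset.mem_univ c)
      omega
  | succ m ih =>
    intro v hm hv
    by_cases hvk : v = k
    · subst hvk
      refine ⟨0, rfl, fun i hi => absurd hi (Nat.not_lt_zero _), fun i hi => ?_⟩
      have : i = 0 := by omega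
      subst this
      exact hk
    · have h1 : Ld.tip v ≠ v := by rw [hv]; exact fun h => hvk h.symm
      obtain ⟨c, hc, hcv, hct, -⟩ := Ld.heavy v h1
      have h2 := T.rk_lt c hc
      rw [hcv] at h2
      have h3 : T.rk c ≤ Finset.univ.sup T.rk := Finset.le_sup (Finset.mem_univ c)
      obtain ⟨j, hj1, hj2, hj3⟩ := ih c (by omega) (by rw [hct, hv])
      have hvz : v = zz T k (j + 1) := by rw [zz_succ, ← hj1, hcv]
      refine ⟨j + 1, hvz, fun i hi => ?_, fun i hi => ?_⟩
      · by_cases hij : i = j
        · subst hij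
          rw [← hj1]
          exact hc
        · exact hj2 i (by omega)
      · by_cases hij : i = j + 1
        · subst hij
          rw [← hvz, hv]
        · exact hj3 i (by omega)

/-- the predicate of the chain -/
def PP (k : V) (j : ℕ) : Prop := zz T k j ≠ T.root ∧ Ld.tip (zz T k j) = k

theorem of_tip (k : V) (hk : Ld.tip k = k) (v : V) (hv : v ≠ T.root) (hvt : Ld.tip v = k) :
    ∃ j, v = zz T k j ∧ ∀ i ≤ j, PP T w Ld k i := by
  obtain ⟨j, h1, h2, h3⟩ := chain T w Ld k hk _ v le_rfl hvt
  refine ⟨j, h1, fun i hi => ⟨?_, h3 i hi⟩⟩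
  by_cases hij : i = j
  · subst hij
    rw [← h1]
    exact hv
  · exact h2 i (by omega)

theorem inj (k : V) {i j : ℕ} (hi : zz T k i ≠ T.root) (hj : zz T k j ≠ T.root)
    (h : zz T k i = zz T k j) : i = j := by
  rcases lt_trichotomy i j with hlt | heq | hgt
  · have := rk_strict T k hlt hi
    rw [h] at this
    exact absurd this (lt_irrefl _)
  · exact heq
  · have := rk_strict T k hgt hj
    rw [h] at this
    exact absurd this (lt_irrefl _)

theorem down (k : V) (hk : Ld.tip k = k) {i j : ℕ} (hj : PP T w Ld k j) (hij : i ≤ j) :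
    PP T w Ld k i := by
  obtain ⟨j', h1, h2⟩ := of_tip T w Ld k hk _ hj.1 hj.2
  have : j = j' := inj T k hj.1 (h2 j' le_rfl).1 h1
  subst this
  exact h2 i hij

theorem exists_not (k : V) : ∃ j, ¬ PP T w Ld k j := by
  by_contra h
  push Not at h
  have h1 : ∀ j, T.rk (zz T k j) + j ≤ T.rk (zz T k 0) := by
    intro j
    induction j with
    | zero => exact le_rfl
    | succ j ih =>
      have := rk_strict T k (Nat.lt_succ_self j) (h j).1
      simp only [Nat.succ_eq_add_one] at this
      omega
  have := h1 (T.rk (zz T k 0) + 1)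
  omega

end STR1

open STR1 in
theorem t_STR1 : St_STR1 := by
  intro V _ T loc Ld _ k hk hkr
  obtain ⟨N, hN, hmin⟩ : ∃ N, ¬ PP T _ Ld k N ∧ ∀ j < N, PP T _ Ld k j := by
    have hex := exists_not T _ Ld k
    refine ⟨Nat.find hex, Nat.find_spec hex, fun j hj => ?_⟩
    exact not_not.mp (Nat.find_min hex hj)
  have hiff : ∀ j, PP T _ Ld k j → j < N := by
    intro j hj
    by_contra hc
    exact hN (down T _ Ld k hk hj (not_lt.mp hc))
  have hnn : nn T loc Ld k = N := by
    have himg : T.edges.filter (fun v => Ld.tip v = k) =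
        (Finset.range N).image (zz T k) := by
      ext v
      simp only [RTree.edges, Finset.mem_filter, Finset.mem_univ, true_and, Finset.mem_image,
        Finset.mem_range]
      constructor
      · rintro ⟨h1, h2⟩
        obtain ⟨j, h3, h4⟩ := of_tip T _ Ld k hk v h1 h2
        exact ⟨j, hiff j (h4 j le_rfl), h3.symm⟩
      · rintro ⟨j, hj, rfl⟩
        exact hmin j hj
    unfold nn
    rw [himg, Finset.card_image_of_injOn, Finset.card_range]
    intro i hi j hj hij
    have hi' : i < N := by simpa using hi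
    have hj' : j < N := by simpa using hj
    exact inj T k (hmin i hi').1 (hmin j hj').1 hij
  have hP0 : PP T _ Ld k 0 := ⟨hkr, hk⟩
  rw [hnn]
  refine ⟨hiff 0 hP0, fun j hj => hmin j hj, ?_, ?_, ?_, ?_⟩
  · intro j
    induction j with
    | zero =>
      intro _
      rw [Finset.range_zero, Finset.sum_empty]
      show Ld.ht k = 0
      rw [← hk]
      exact Ld.ht_tip k
    | succ j ih =>
      intro hj
      have hPj := hmin (j + 1) hj
      have hne : Ld.tip (zz T k (j + 1)) ≠ zz T k (j + 1) := by
        rw [hPj.2]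
        intro h
        have : (0 : ℕ) = j + 1 := inj T k hP0.1 hPj.1 h
        omega
      obtain ⟨c, hc1, hc2, hc3, hc4⟩ := Ld.heavy _ hne
      obtain ⟨j', h1, h2⟩ := of_tip T _ Ld k hk c hc1 (by rw [hc3, hPj.2])
      have h3 : zz T k (j' + 1) = zz T k (j + 1) := by
        rw [zz_succ, ← h1, hc2]
      have h4 : j' + 1 = j + 1 := inj T k (by rw [h3]; exact hPj.1) hPj.1 h3
      have h5 : j' = j := by omega
      rw [h5] at h1
      rw [Finset.sum_range_succ, ← ih (by omega), ← hc4, h1]
  · intro v hv hvt
    obtain ⟨j, h1, h2⟩ := of_tip T _ Ld k hk v hv hvt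
    exact ⟨j, hiff j (h2 j le_rfl), h1⟩
  · intro j hj h
    have := rk_strict T k hj (hmin j hj).1
    rw [h] at this
    exact absurd this (lt_irrefl _)
  · by_contra h
    push Not at h
    exact hN h

end Pool.Agent.H660R3.TS
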