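import Pool.Agent.H660R3.TS.Defs
import Pool.Agent.H660R3.TS.Stubs

/-!
# STR2: the strand structure of a tip (helper221)
-/

set_option autoImplicit false

open scoped Classical

namespace Pool.Agent.H660R3.TS

namespace STR2

set_option linter.unusedSectionVars false

open Finset

section tree

variable {V : Type} (T : RTree V)

theorem rk_par_le (v : V) : T.rk (T.par v) ≤ T.rk v := by
  by_cases h : v = T.root
  · rw [h, T.par_root]
  · exact (T.rk_lt v h).le

theorem rk_iter_le (m : ℕ) (v : V) : T.rk (T.par^[m] v) ≤ T.rk v := by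
  induction m generalizing v with
  | zero => exact le_rfl
  | succ m ih =>
    rw [Function.iterate_succ_apply]
    exact (ih _).trans (rk_par_le T v)

theorem insub_refl (v : V) : T.InSub v v := ⟨0, rfl⟩

theorem insub_trans {x v u : V} (h1 : T.InSub x v) (h2 : T.InSub v u) : T.InSub x u := by
  obtain ⟨m, rfl⟩ := h1
  obtain ⟨m', rfl⟩ := h2
  exact ⟨m' + m, by rw [Function.iterate_add_apply]⟩

theorem insub_par (x : V) : T.InSub x (T.par x) := ⟨1, rfl⟩

theorem insub_rk {x v : V} (h : T.InSub x v) : T.rk v ≤ T.rk x := by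
  obtain ⟨m, rfl⟩ := h
  exact rk_iter_le T m x

theorem insub_root {v : V} (h : T.InSub T.root v) : v = T.root := by
  obtain ⟨m, rfl⟩ := h
  exact Function.iterate_fixed T.par_root m

theorem insub_iff {x e : V} : T.InSub x e ↔ e = x ∨ T.InSub (T.par x) e := by
  constructor
  · rintro ⟨m, hm⟩
    cases m with
    | zero => exact Or.inl hm.symm
    | succ m => exact Or.inr ⟨m, hm⟩
  · rintro (rfl | h)
    · exact insub_refl T _
    · exact insub_trans T (insub_par T x) h

theorem not_insub_par {x : V} (hx : x ≠ T.root) : ¬ T.InSub (T.par x) x := fun h => by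
  have h1 := insub_rk T h
  have h2 := T.rk_lt x hx
  omega

theorem insub_antisymm {x v : V} (h1 : T.InSub x v) (h2 : T.InSub v x) : x = v := by
  by_contra hne
  rcases (insub_iff T).1 h1 with h | h
  · exact hne h.symm
  · by_cases hx : x = T.root
    · subst hx
      exact hne (insub_root T h1).symm
    · have h3 := insub_rk T h
      have h4 := T.rk_lt x hx
      have h5 := insub_rk T h2
      omega

theorem insub_induction {v : V} {P : V → Prop} (h0 : P v)
    (h1 : ∀ x, x ≠ T.root → x ≠ v → T.InSub (T.par x) v → P (T.par x) → P x) :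
    ∀ x, T.InSub x v → P x := by
  rintro x ⟨m, hm⟩
  induction m generalizing x with
  | zero =>
    have : x = v := hm
    subst this
    exact h0
  | succ m ih =>
    by_cases hxv : x = v
    · subst hxv
      exact h0
    · by_cases hx : x = T.root
      · subst hx
        exact absurd (insub_root T ⟨m + 1, hm⟩).symm hxv
      · exact h1 x hx hxv ⟨m, hm⟩ (ih (T.par x) hm)

theorem child {x v : V} (h : T.InSub x v) (hne : x ≠ v) :
    ∃ c, c ≠ T.root ∧ T.par c = v ∧ T.InSub x c := by
  revert hne
  refine insub_induction T (P := fun x => x ≠ v → ∃ c, c ≠ T.root ∧ T.par c = v ∧ T.InSub x c)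
    ?_ ?_ x h
  · intro h
    exact absurd rfl h
  · intro x hx _ _ ih _
    by_cases hpx : T.par x = v
    · exact ⟨x, hx, hpx, insub_refl T x⟩
    · obtain ⟨c, hc1, hc2, hc3⟩ := ih hpx
      exact ⟨c, hc1, hc2, insub_trans T (insub_par T x) hc3⟩

variable [Fintype V]

theorem sum_pth_self (w : V → ℝ) (v : V) : ∑ e ∈ T.pth v v, w e = 0 := by
  have : T.pth v v = ∅ := by
    unfold RTree.pth
    rw [Finset.filter_eq_empty_iff]
    intro e _ h
    exact h.2 Iff.rfl
  rw [this, Finset.sum_empty]

theorem sum_pth_step (w : V → ℝ) {x v : V} (hx : x ≠ T.root) (hxv : x ≠ v)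
    (h : T.InSub (T.par x) v) :
    ∑ e ∈ T.pth x v, w e = w x + ∑ e ∈ T.pth (T.par x) v, w e := by
  have hvx : ¬ T.InSub v x := fun hv =>
    hxv (insub_antisymm T (insub_trans T (insub_par T x) h) hv)
  have hnot : x ∉ T.pth (T.par x) v := by
    unfold RTree.pth
    rw [Finset.mem_filter]
    rintro ⟨_, _, h2⟩
    exact h2 ⟨fun h3 => absurd h3 (not_insub_par T hx), fun h3 => absurd h3 hvx⟩
  have heq : T.pth x v = insert x (T.pth (T.par x) v) := by
    unfold RTree.pth
    ext e
    rw [Finset.mem_insert, Finset.mem_filter, Finset.mem_filter]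
    by_cases he : e = x
    · subst he
      refine ⟨fun _ => Or.inl rfl, fun _ => ⟨Finset.mem_univ _, hx, ?_⟩⟩
      intro h2
      exact hvx (h2.1 (insub_refl T _))
    · have h3 : T.InSub x e ↔ T.InSub (T.par x) e := by
        rw [insub_iff T]
        exact ⟨fun h4 => h4.resolve_left he, Or.inr⟩
      rw [h3]
      exact ⟨Or.inr, fun h4 => h4.resolve_left he⟩
  rw [heq, Finset.sum_insert hnot]

variable (loc : V → ℂ)

theorem wt_nonneg (v : V) : 0 ≤ wt T loc v := norm_nonneg _

theorem dist_le {x v : V} (h : T.InSub x v) :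
    ‖loc x - loc v‖ ≤ ∑ e ∈ T.pth x v, wt T loc e := by
  refine insub_induction T (P := fun x => ‖loc x - loc v‖ ≤ ∑ e ∈ T.pth x v, wt T loc e)
    ?_ ?_ x h
  · simp [sum_pth_self]
  · intro x hx hxv hp ih
    rw [sum_pth_step T _ hx hxv hp]
    have : loc x - loc v = (loc x - loc (T.par x)) + (loc (T.par x) - loc v) := by ring
    rw [this]
    exact (norm_add_le _ _).trans (add_le_add le_rfl ih)

theorem ht_le (Ld : LPD T (wt T loc)) {x v : V} (h : T.InSub x v) :
    Ld.ht x + ∑ e ∈ T.pth x v, wt T loc e ≤ Ld.ht v := by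
  refine insub_induction T
    (P := fun x => Ld.ht x + ∑ e ∈ T.pth x v, wt T loc e ≤ Ld.ht v) ?_ ?_ x h
  · simp [sum_pth_self]
  · intro x hx hxv hp ih
    rw [sum_pth_step T _ hx hxv hp]
    have := Ld.par_le x hx
    linarith

theorem pth_child (w : V → ℝ) {x c v : V} (hc : c ≠ T.root) (hcv : T.par c = v)
    (h : T.InSub x c) : ∑ e ∈ T.pth x v, w e = ∑ e ∈ T.pth x c, w e + w c := by
  have hcne : c ≠ v := by
    intro h2
    have := T.rk_lt c hc
    rw [hcv, ← h2] at this
    omega
  refine insub_induction T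
    (P := fun x => ∑ e ∈ T.pth x v, w e = ∑ e ∈ T.pth x c, w e + w c) ?_ ?_ x h
  · rw [sum_pth_step T w hc hcne (by rw [hcv]; exact insub_refl T v), hcv, sum_pth_self,
      sum_pth_self]
    ring
  · intro x hx hxc hp ih
    have hxv : x ≠ v := by
      intro h2
      have h3 : T.InSub x c := insub_trans T (insub_par T x) hp
      have h4 : T.InSub c x := by
        rw [h2, ← hcv]
        exact insub_par T c
      exact hxc (insub_antisymm T h3 h4)
    rw [sum_pth_step T w hx hxv (insub_trans T hp (by rw [← hcv]; exact insub_par T c)), ih,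
      sum_pth_step T w hx hxc hp]
    ring

/-! ### one strand -/

variable {T}

theorem z_succ (k : V) (j : ℕ) : zz T k (j + 1) = T.par (zz T k j) := by
  unfold zz
  rw [Function.iterate_succ_apply']

theorem z_insub (k : V) {i j : ℕ} (h : i ≤ j) : T.InSub (zz T k i) (zz T k j) := by
  obtain ⟨d, rfl⟩ := Nat.exists_eq_add_of_le h
  refine ⟨d, ?_⟩
  unfold zz
  rw [← Function.iterate_add_apply, Nat.add_comm]

theorem rk_z {k : V} {n : ℕ} (hr : ∀ j < n, zz T k j ≠ T.root) {i j : ℕ} (hj : j < n)
    (hij : j < i) : T.rk (zz T k i) < T.rk (zz T k j) := by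
  have h1 := T.rk_lt _ (hr j hj)
  rw [← z_succ] at h1
  have h2 := insub_rk T (z_insub (T := T) k (show j + 1 ≤ i from hij))
  omega

theorem z_insub_le {k : V} {n : ℕ} (hr : ∀ j < n, zz T k j ≠ T.root) {i j : ℕ} (hj : j < n)
    (h : T.InSub (zz T k i) (zz T k j)) : i ≤ j := by
  obtain ⟨m, hm⟩ := h
  have h1 : zz T k (m + i) = zz T k j := by
    rw [← hm]
    unfold zz
    rw [Function.iterate_add_apply]
  by_contra hlt
  have h2 := rk_z hr hj (show j < m + i by omega)
  rw [h1] at h2
  omega

theorem z_inj {k : V} {n : ℕ} (hr : ∀ j < n, zz T k j ≠ T.root) {i j : ℕ} (hj : j < n)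
    (h : zz T k i = zz T k j) : i = j := by
  have h1 : i ≤ j := z_insub_le hr hj (by rw [h]; exact insub_refl T _)
  have h2 : j ≤ i := z_insub_le hr (show i < n by omega) (by rw [h]; exact insub_refl T _)
  omega

end tree

end STR2

open STR2 Finset in
theorem t_STR2 (h : St_STR1) : St_STR2 := by
  intro V _ T loc y Mn Ld hMn hT k hk hkr
  have hw : ∀ v, v ≠ T.root → 0 < wt T loc v := fun v hv => lt_of_lt_of_le hMn (hT.long v hv)
  obtain ⟨hn, hr, hht, hcov, hlast, htop⟩ := h V T loc Ld hw k hk hkr
  set n := nn T loc Ld k with hnd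
  have hroot : ∀ j < n, zz T k j ≠ T.root := fun j hj => (hr j hj).1
  have htip : ∀ j < n, Ld.tip (zz T k j) = k := fun j hj => (hr j hj).2
  -- attachment index
  have hne : ∀ x, {j | j = n ∨ T.InSub x (zz T k j)}.Nonempty := fun x => ⟨n, Or.inl rfl⟩
  have aamem : ∀ x, aa T loc Ld k x = n ∨ T.InSub x (zz T k (aa T loc Ld k x)) :=
    fun x => Nat.sInf_mem (hne x)
  have aale : ∀ x, aa T loc Ld k x ≤ n := fun x => Nat.sInf_le (Or.inl rfl)
  have aale' : ∀ x j, T.InSub x (zz T k j) → aa T loc Ld k x ≤ j :=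
    fun x j hj => Nat.sInf_le (Or.inr hj)
  have aalt : ∀ x, aa T loc Ld k x < n → T.InSub x (zz T k (aa T loc Ld k x)) := by
    intro x hx
    rcases aamem x with h1 | h1
    · omega
    · exact h1
  have aaz : ∀ j ≤ n, aa T loc Ld k (zz T k j) = j := by
    intro j hj
    apply le_antisymm (aale' _ _ (insub_refl T _))
    rcases aamem (zz T k j) with h1 | h1
    · omega
    · by_contra hlt
      push Not at hlt
      have := z_insub_le hroot (show aa T loc Ld k (zz T k j) < n by omega) h1
      omega
  -- edges of the strand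
  have hzsum : ∀ a b : ℕ, b ≤ n → ∑ j ∈ Finset.Ico a b, y (zz T k j) =
      ∑ e ∈ (Finset.Ico a b).image (zz T k), y e := by
    intro a b hb
    rw [Finset.sum_image]
    intro i hi j hj hij
    rw [Finset.mem_coe, Finset.mem_Ico] at hi hj
    exact z_inj hroot (show j < n by omega) hij
  -- side children
  have hsc : ∀ j c, c ∈ sc T loc Ld k j ↔ c ≠ T.root ∧ T.par c = zz T k j ∧ Ld.tip c ≠ k := by
    intro j c
    unfold sc RTree.edges
    rw [Finset.mem_filter, Finset.mem_filter]
    simp
  have hHmem : ∀ j, 0 < hh T loc Ld k j → ∃ c ∈ sc T loc Ld k j,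
      hh T loc Ld k j = Ld.ht c + wt T loc c := by
    intro j hj
    have h1 := Finset.max'_mem (insert (0 : ℝ) ((sc T loc Ld k j).image
      (fun c => Ld.ht c + wt T loc c))) ⟨0, by simp⟩
    rw [Finset.mem_insert] at h1
    rcases h1 with h1 | h1
    · have h2 : hh T loc Ld k j = 0 := h1
      rw [h2] at hj
      exact absurd hj (lt_irrefl _)
    · obtain ⟨c, hc, hc2⟩ := Finset.mem_image.1 h1
      exact ⟨c, hc, hc2.symm⟩
  have hHnn : ∀ j, 0 ≤ hh T loc Ld k j := fun j =>
    Finset.le_max' _ _ (Finset.mem_insert_self _ _)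
  have hHge : ∀ j, ∀ c ∈ sc T loc Ld k j, Ld.ht c + wt T loc c ≤ hh T loc Ld k j :=
    fun j c hc => Finset.le_max' (insert (0 : ℝ) ((sc T loc Ld k j).image
      (fun c => Ld.ht c + wt T loc c))) (Ld.ht c + wt T loc c)
      (Finset.mem_insert_of_mem (Finset.mem_image.2 ⟨c, hc, rfl⟩))
  -- side children are not on the strand
  have hoff : ∀ j < n, ∀ c ∈ sc T loc Ld k j, ∀ i, c ≠ zz T k i := by
    intro j hj c hc i hci
    rw [hsc] at hc
    by_cases hi : i < n
    · exact hc.2.2 (by rw [hci]; exact htip i hi)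
    · have h1 : zz T k (i + 1) = zz T k j := by rw [z_succ, ← hci]; exact hc.2.1
      have := z_inj hroot hj h1
      omega
  -- vertices below a side child
  have hbelow : ∀ j < n, ∀ c ∈ sc T loc Ld k j, ∀ x, T.InSub x c → aa T loc Ld k x = j := by
    intro j hj c hc x hxc
    have hc' := (hsc j c).1 hc
    have hxj : T.InSub x (zz T k j) := by
      refine insub_trans T hxc ?_
      rw [← hc'.2.1]
      exact insub_par T c
    apply le_antisymm (aale' _ _ hxj)
    by_contra hlt
    push Not at hlt
    have h1 := aalt x (by omega)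
    set i := aa T loc Ld k x with hi
    obtain ⟨a, ha⟩ := hxc
    obtain ⟨b, hb⟩ := h1
    rcases Nat.lt_or_ge b a with hab | hab
    · -- c is above z i
      obtain ⟨d, rfl⟩ := Nat.exists_eq_add_of_lt hab
      apply hoff j hj c hc (d + 1 + i)
      rw [← ha]
      have e1 : b + d + 1 = (d + 1) + b := by omega
      rw [e1, Function.iterate_add_apply T.par (d + 1) b x, hb]
      exact (Function.iterate_add_apply T.par (d + 1) i k).symm
    · -- z i is above c
      obtain ⟨d, rfl⟩ := Nat.exists_eq_add_of_le hab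
      rw [Nat.add_comm, Function.iterate_add_apply, ha] at hb
      cases d with
      | zero => exact hoff j hj c hc i hb
      | succ d =>
        rw [Function.iterate_succ_apply, hc'.2.1] at hb
        have := z_insub_le hroot (show i < n by omega) ⟨d, hb⟩
        omega
  -- the long path of a side child
  have hside : ∀ j < n, ∀ c ∈ sc T loc Ld k j,
      (∑ v ∈ T.edges.filter (fun v => Ld.tip v = Ld.tip c), wt T loc v = Ld.ht c + wt T loc c) ∧
      (∀ v ∈ T.edges.filter (fun v => Ld.tip v = Ld.tip c), v ≠ T.root ∧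
        T.InSub (Ld.tip c) v ∧ (∀ i, v ≠ zz T k i)) := by
    intro j hj c hc
    have hc' := (hsc j c).1 hc
    have hxr : Ld.tip c ≠ T.root := by
      intro h1
      have h2 := Ld.sub_tip c
      rw [h1] at h2
      exact hc'.1 (insub_root T h2)
    obtain ⟨hn', hr', hht', hcov', hlast', htop'⟩ :=
      h V T loc Ld hw (Ld.tip c) (Ld.tip_tip c) hxr
    set n' := nn T loc Ld (Ld.tip c) with hnd'
    have hroot' : ∀ i < n', zz T (Ld.tip c) i ≠ T.root := fun i hi => (hr' i hi).1
    obtain ⟨ic, hic, hcz⟩ := hcov' c hc'.1 rfl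
    have hcn : n' = ic + 1 := by
      by_contra hne'
      have h1 : ic + 1 < n' := by omega
      have h2 := (hr' (ic + 1) h1).2
      rw [z_succ, ← hcz, hc'.2.1, htip j hj] at h2
      exact hc'.2.2 h2.symm
    have himg : T.edges.filter (fun v => Ld.tip v = Ld.tip c) =
        (Finset.range n').image (zz T (Ld.tip c)) := by
      ext v
      rw [Finset.mem_filter, Finset.mem_image]
      constructor
      · rintro ⟨hv1, hv2⟩
        have hv3 : v ≠ T.root := by
          unfold RTree.edges at hv1
          exact (Finset.mem_filter.1 hv1).2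
        obtain ⟨i, hi, hvi⟩ := hcov' v hv3 hv2
        exact ⟨i, Finset.mem_range.2 hi, hvi.symm⟩
      · rintro ⟨i, hi, rfl⟩
        rw [Finset.mem_range] at hi
        refine ⟨?_, (hr' i hi).2⟩
        unfold RTree.edges
        exact Finset.mem_filter.2 ⟨Finset.mem_univ _, (hr' i hi).1⟩
    constructor
    · rw [himg, Finset.sum_image, hcn, Finset.sum_range_succ, ← hht' ic hic, ← hcz]
      intro i hi i' hi' hii
      rw [Finset.mem_coe, Finset.mem_range] at hi hi'
      exact z_inj hroot' hi' hii
    · intro v hv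
      rw [himg, Finset.mem_image] at hv
      obtain ⟨i, hi, rfl⟩ := hv
      rw [Finset.mem_range] at hi
      refine ⟨hroot' i hi, z_insub (T := T) _ (Nat.zero_le i), fun i2 hi2 => ?_⟩
      -- v is below c, hence not above z j, and its tip is not k
      have h1 : T.InSub (zz T (Ld.tip c) i) c := by
        have h0 := z_insub (T := T) (Ld.tip c) (show i ≤ ic by omega)
        rwa [← hcz] at h0
      have h2 := insub_rk T h1
      have h3 := T.rk_lt c hc'.1
      rw [hc'.2.1] at h3
      by_cases hi2n : i2 < n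
      · have h4 := (hr' i hi).2
        rw [hi2, htip i2 hi2n] at h4
        exact hc'.2.2 h4.symm
      · have h4 := rk_z hroot hj (show j < i2 by omega)
        rw [← hi2] at h4
        omega
  have hdef : ∀ v, v ≠ T.root → 0 ≤ wt T loc v - y v := fun v hv => by
    have := hT.le v hv
    unfold wt
    linarith
  have hbb : ∀ j c, c ∈ sc T loc Ld k j →
      ∑ v ∈ T.edges.filter (fun v => Ld.tip v = Ld.tip c), (wt T loc v - y v) ≤
        bb T loc y Ld k j := by
    intro j c hc
    unfold bb
    refine Finset.single_le_sum (f := fun c => ∑ v ∈ T.edges.filter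
      (fun v => Ld.tip v = Ld.tip c), (wt T loc v - y v)) (fun c' _ => ?_) hc
    refine Finset.sum_nonneg fun v hv => hdef v ?_
    have := (Finset.mem_filter.1 hv).1
    unfold RTree.edges at this
    exact (Finset.mem_filter.1 this).2
  refine ⟨⟨n, zz T k, fun j => ∑ i ∈ Finset.range j, wt T loc (zz T k i), fun j => y (zz T k j),
    aa T loc Ld k, fun x => ∑ e ∈ T.pth x (zz T k (aa T loc Ld k x)), wt T loc e,
    hh T loc Ld k, bb T loc y Ld k, hn, by simp, ?_, ?_, ?_, ?_, aaz, aale, ?_, ?_, ?_, ?_, ?_,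
    ?_, ?_, ?_, ?_⟩, rfl, fun _ => rfl, fun _ => rfl, fun _ => rfl, fun _ => rfl, fun _ => rfl,
    fun _ => rfl⟩
  · -- t_succ
    intro j _
    rw [Finset.sum_range_succ, z_succ, norm_sub_rev]
    rfl
  · -- edge_long
    intro j hj
    rw [z_succ, norm_sub_rev]
    exact hT.long _ (hroot j hj)
  · -- ys_nonneg
    intro j _
    exact hT.nonneg _
  · -- ys_le
    intro j hj
    rw [z_succ, norm_sub_rev]
    exact hT.le _ (hroot j hj)
  · -- wd_nonneg
    intro x
    exact Finset.sum_nonneg fun e _ => wt_nonneg T loc e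
  · -- wd_dist
    intro x hx
    exact dist_le T loc (aalt x hx)
  · -- wd_le
    intro x hx
    set j := aa T loc Ld k x with hj
    have h1 := aalt x hx
    by_cases hxz : x = zz T k j
    · have h2 : ∑ e ∈ T.pth x (zz T k j), wt T loc e = 0 := by
        rw [← hxz]
        exact sum_pth_self T _ x
      rw [h2]
      exact hHnn j
    · obtain ⟨c, hc1, hc2, hc3⟩ := child T h1 hxz
      have hct : Ld.tip c ≠ k := by
        intro hct
        obtain ⟨j', hj', hcj⟩ := hcov c hc1 hct
        have h2 : zz T k (j' + 1) = zz T k j := by rw [z_succ, ← hcj]; exact hc2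
        have h3 := z_inj hroot hx h2
        have h4 := aale' x j' (by rw [← hcj]; exact hc3)
        omega
      rw [pth_child T _ hc1 hc2 hc3]
      have h2 := ht_le T loc Ld hc3
      have h3 := Ld.ht_nonneg x
      have h4 := hHge j c ((hsc j c).2 ⟨hc1, hc2, hct⟩)
      linarith
  · -- ypath
    intro x x' hxx
    rw [hzsum _ _ (aale x')]
    refine le_trans ?_ (hT.path x x')
    refine Finset.sum_le_sum_of_subset_of_nonneg (fun e he => ?_) fun e _ _ => hT.nonneg e
    obtain ⟨j, hj, rfl⟩ := Finset.mem_image.1 he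
    rw [Finset.mem_Ico] at hj
    have hjn : j < n := lt_of_lt_of_le hj.2 (aale x')
    unfold RTree.pth
    rw [Finset.mem_filter]
    refine ⟨Finset.mem_univ _, hroot j hjn, fun h1 => ?_⟩
    have h2 : T.InSub x (zz T k j) :=
      insub_trans T (aalt x (by omega)) (z_insub (T := T) k hj.1)
    have h3 := aale' x' j (h1.1 h2)
    omega
  · -- side
    intro j hj hH
    obtain ⟨c, hc, hHc⟩ := hHmem j hH
    have hc' := (hsc j c).1 hc
    obtain ⟨hsum, hE⟩ := hside j hj c hc
    have hxc : T.InSub (Ld.tip c) c := Ld.sub_tip c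
    have hatt := hbelow j hj c hc (Ld.tip c) hxc
    have hxj : T.InSub (Ld.tip c) (zz T k j) := by
      have := aalt (Ld.tip c) (by omega)
      rwa [hatt] at this
    set E := T.edges.filter (fun v => Ld.tip v = Ld.tip c) with hEd
    have hylow : hh T loc Ld k j - bb T loc y Ld k j ≤ ∑ v ∈ E, y v := by
      have h1 := hbb j c hc
      rw [Finset.sum_sub_distrib, hsum] at h1
      linarith
    have hEpth : ∀ a ≤ n, E ⊆ T.pth (Ld.tip c) (zz T k a) := by
      intro a _ v hv
      obtain ⟨h1, h2, h3⟩ := hE v hv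
      unfold RTree.pth
      rw [Finset.mem_filter]
      refine ⟨Finset.mem_univ _, h1, fun h4 => ?_⟩
      obtain ⟨m, hm⟩ := h4.1 h2
      apply h3 (m + a)
      rw [← hm]
      unfold zz
      rw [Function.iterate_add_apply]
    have hfin : ∀ a ≤ n, ∀ b b', b' ≤ n →
        (∀ i ∈ Finset.Ico b b', zz T k i ∈ T.pth (Ld.tip c) (zz T k a)) →
        hh T loc Ld k j - bb T loc y Ld k j + ∑ i ∈ Finset.Ico b b', y (zz T k i) ≤
          ‖loc (Ld.tip c) - loc (zz T k a)‖ := by
      intro a ha b b' hb' hmem
      refine le_trans ?_ (hT.path _ _)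
      rw [hzsum _ _ hb']
      have hdisj : Disjoint E ((Finset.Ico b b').image (zz T k)) := by
        rw [Finset.disjoint_left]
        intro v hv hv2
        obtain ⟨i, _, hi⟩ := Finset.mem_image.1 hv2
        exact (hE v hv).2.2 i hi.symm
      have hsub : E ∪ (Finset.Ico b b').image (zz T k) ⊆ T.pth (Ld.tip c) (zz T k a) := by
        refine Finset.union_subset (hEpth a ha) fun v hv => ?_
        obtain ⟨i, hi, rfl⟩ := Finset.mem_image.1 hv
        exact hmem i hi
      calc _ ≤ ∑ v ∈ E, y v + ∑ v ∈ (Finset.Ico b b').image (zz T k), y v :=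
            add_le_add hylow le_rfl
        _ = ∑ v ∈ E ∪ (Finset.Ico b b').image (zz T k), y v := (Finset.sum_union hdisj).symm
        _ ≤ _ := Finset.sum_le_sum_of_subset_of_nonneg hsub fun v _ _ => hT.nonneg v
    refine ⟨Ld.tip c, hatt, ?_, ?_, ?_⟩
    · refine (dist_le T loc hxj).trans ?_
      rw [pth_child T _ hc'.1 hc'.2.1 hxc, hHc]
      have h2 := ht_le T loc Ld hxc
      rw [Ld.ht_tip] at h2
      linarith
    · intro a ha haj
      refine hfin a ha a j hj.le fun i hi => ?_
      rw [Finset.mem_Ico] at hi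
      unfold RTree.pth
      rw [Finset.mem_filter]
      refine ⟨Finset.mem_univ _, hroot i (by omega), fun h1 => ?_⟩
      have h2 := aale' _ i (h1.2 (z_insub (T := T) k hi.1))
      omega
    · intro a ha haj
      refine hfin a ha j a ha fun i hi => ?_
      rw [Finset.mem_Ico] at hi
      unfold RTree.pth
      rw [Finset.mem_filter]
      refine ⟨Finset.mem_univ _, hroot i (by omega), fun h1 => ?_⟩
      have h2 := z_insub_le hroot (show i < n by omega)
        (h1.1 (insub_trans T hxj (z_insub (T := T) k hi.1)))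
      omega
  · -- H_le
    intro j hj
    rcases (hHnn j).eq_or_lt with h1 | h1
    · rw [← h1]
      exact Finset.sum_nonneg fun i _ => wt_nonneg T loc _
    · obtain ⟨c, hc, hHc⟩ := hHmem j h1
      have hc' := (hsc j c).1 hc
      have h2 := Ld.par_le c hc'.1
      rw [hc'.2.1, hht j hj] at h2
      rw [hHc]
      exact h2
  · -- H_nonneg
    intro j _
    exact hHnn j
  · -- H_long
    intro j _ h1
    obtain ⟨c, hc, hHc⟩ := hHmem j h1
    have hc' := (hsc j c).1 hc
    have h2 := Ld.ht_nonneg c
    have h3 : Mn ≤ wt T loc c := hT.long c hc'.1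
    rw [hHc]
    linarith
  · -- bet_nonneg
    intro j _
    unfold bb
    refine Finset.sum_nonneg fun c _ => Finset.sum_nonneg fun v hv => hdef v ?_
    have := (Finset.mem_filter.1 hv).1
    unfold RTree.edges at this
    exact (Finset.mem_filter.1 this).2

end Pool.Agent.H660R3.TS
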