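import Pool.Agent.H660R3.TS.Stubs2

/-!
Task SW: accuracy of the weight estimate of one level.
-/

set_option autoImplicit false

open scoped Classical

namespace Pool.Agent.H660R3.TS

namespace SW

lemma coord_mem (σ k z x : ℕ) (hk : 0 < k) (h : x / (k * σ) = z) :
    x / σ ∈ Finset.Ico (z * k) ((z + 1) * k) := by
  have h1 : x / σ / k = z := by
    rw [Nat.div_div_eq_div_mul, mul_comm σ k, h]
  rw [Finset.mem_Ico]
  constructor
  · rw [← h1]
    exact Nat.div_mul_le_self _ _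
  · rw [← h1]
    exact Nat.lt_mul_of_div_lt (Nat.lt_succ_self _) hk

/-- a box contains at most `k²` cells -/
lemma card_Qc (σ k : ℕ) (X : Finset Pt) (Z : Pt) (hk : 0 < k) :
    (Qc (k * σ) σ X Z).card ≤ k ^ 2 := by
  have hsub : Qc (k * σ) σ X Z ⊆
      ((Finset.Ico (Z.1 * k) ((Z.1 + 1) * k)) ×ˢ (Finset.Ico (Z.2 * k) ((Z.2 + 1) * k))).image
        (fun p : ℕ × ℕ => ((p.1 * σ, p.2 * σ) : Pt)) := by
    intro q hq
    unfold Qc at hq
    rw [Finset.mem_image] at hq
    obtain ⟨x, hx, rfl⟩ := hq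
    rw [Finset.mem_filter] at hx
    have h1 : x.1 / (k * σ) = Z.1 := by rw [← hx.2]; rfl
    have h2 : x.2 / (k * σ) = Z.2 := by rw [← hx.2]; rfl
    rw [Finset.mem_image]
    refine ⟨(x.1 / σ, x.2 / σ), ?_, rfl⟩
    rw [Finset.mem_product]
    exact ⟨coord_mem σ k Z.1 x.1 hk h1, coord_mem σ k Z.2 x.2 hk h2⟩
  refine (Finset.card_le_card hsub).trans (Finset.card_image_le.trans ?_)
  rw [Finset.card_product, Nat.card_Ico, Nat.card_Ico]
  have e1 : (Z.1 + 1) * k - Z.1 * k = k := by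
    rw [add_mul, one_mul, Nat.add_sub_cancel_left]
  have e2 : (Z.2 + 1) * k - Z.2 * k = k := by
    rw [add_mul, one_mul, Nat.add_sub_cancel_left]
  rw [e1, e2, sq]

lemma DD_pos (β N u m : ℕ) (hβ : 0 < β) : 0 < DD β N u m := pow_pos hβ _

lemma lm_mono (β N u m : ℕ) (hβ : 0 < β) : lm β N u (m - 1) ≤ lm β N u m := by
  unfold lm
  refine div_le_div_of_nonneg_right ?_ (by positivity)
  have : DD β N u (m - 1) ≤ DD β N u m := by
    unfold DD
    refine Nat.pow_le_pow_right hβ ?_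
    have : N * (m - 1) ≤ N * m := Nat.mul_le_mul_left N (Nat.sub_le m 1)
    omega
  exact_mod_cast this

lemma phi_nonneg (β N u m : ℕ) (hβ : 0 < β) (x : ℝ) : 0 ≤ phi β N u m x := by
  unfold phi
  exact le_min (le_max_right _ _) (sub_nonneg.2 (lm_mono β N u m hβ))

lemma phi_le (β N u m : ℕ) (hβ : 0 < β) (x : ℝ) : phi β N u m x ≤ DD β N u m := by
  unfold phi
  refine (min_le_right _ _).trans ?_
  have h1 : 0 ≤ lm β N u (m - 1) := by unfold lm; positivity
  have h2 : lm β N u m ≤ DD β N u m := by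
    unfold lm
    refine div_le_self (Nat.cast_nonneg _) ?_
    exact one_le_pow₀ (by exact_mod_cast hβ)
  linarith

lemma wbox_bd (β N u m k : ℕ) (hβ : 0 < β) (Q : Finset Pt) (hQ : Q.card ≤ k) :
    0 ≤ wbox β N u m Q ∧ wbox β N u m Q ≤ (k : ℝ) ^ 2 * DD β N u m := by
  unfold wbox
  constructor
  · exact Finset.sum_nonneg fun e _ => phi_nonneg β N u m hβ _
  · have h1 : (mst Q).card ≤ k ^ 2 := by
      unfold mst
      refine (Finset.card_filter_le _ _).trans ?_
      rw [Finset.card_product, sq]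
      exact Nat.mul_le_mul hQ hQ
    calc ∑ e ∈ mst Q, phi β N u m (ds e.1 e.2) ≤ ∑ e ∈ mst Q, (DD β N u m : ℝ) :=
          Finset.sum_le_sum fun e _ => phi_le β N u m hβ _
      _ = ((mst Q).card : ℝ) * DD β N u m := by rw [Finset.sum_const, nsmul_eq_mul]
      _ ≤ (k : ℝ) ^ 2 * DD β N u m := by
          refine mul_le_mul_of_nonneg_right ?_ (Nat.cast_nonneg _)
          exact_mod_cast h1

/-- the numbers of labels `< 2^J` which are selected at rate `2^{-j}` -/
lemma card_sel (J j : ℕ) (hj : j ≤ J) (κ : Type) [Fintype κ] :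
    (Finset.univ.filter (fun a : Fin (2 ^ J) × κ => (a.1 : ℕ) * 2 ^ j < 2 ^ J)).card * 2 ^ j =
      Fintype.card (Fin (2 ^ J) × κ) := by
  have h1 : (Finset.univ.filter (fun a : Fin (2 ^ J) × κ => (a.1 : ℕ) * 2 ^ j < 2 ^ J)) =
      (Finset.univ.filter (fun a : Fin (2 ^ J) => (a : ℕ) * 2 ^ j < 2 ^ J)) ×ˢ
        (Finset.univ : Finset κ) := by
    ext a
    simp
  have h2 : (Finset.univ.filter (fun a : Fin (2 ^ J) => (a : ℕ) * 2 ^ j < 2 ^ J)).card =
      2 ^ (J - j) := by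
    have h3 : ((Finset.univ.filter (fun a : Fin (2 ^ J) => (a : ℕ) * 2 ^ j < 2 ^ J)).map
        Fin.valEmbedding) = Finset.range (2 ^ (J - j)) := by
      ext x
      simp only [Finset.mem_map, Finset.mem_filter, Finset.mem_univ, true_and,
        Fin.valEmbedding_apply, Finset.mem_range]
      have e : 2 ^ J = 2 ^ (J - j) * 2 ^ j := by
        rw [← pow_add, Nat.sub_add_cancel hj]
      constructor
      · rintro ⟨a, ha, rfl⟩
        have ha' := ha.trans_eq e
        exact lt_of_mul_lt_mul_right ha' (Nat.zero_le _)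
      · intro hx
        have hx' : x * 2 ^ j < 2 ^ J := by
          rw [e]
          exact Nat.mul_lt_mul_of_pos_right hx (pow_pos (by norm_num) _)
        have hx2 : x < 2 ^ J := lt_of_le_of_lt (Nat.le_mul_of_pos_right x (pow_pos (by norm_num) _)) hx'
        exact ⟨⟨x, hx2⟩, hx', rfl⟩
    rw [← Finset.card_map Fin.valEmbedding, h3, Finset.card_range]
  rw [h1, Finset.card_product, h2, Finset.card_univ, Fintype.card_prod, Fintype.card_fin]
  have e : 2 ^ J = 2 ^ (J - j) * 2 ^ j := by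
    rw [← pow_add, Nat.sub_add_cancel hj]
  rw [e]
  ring

/-- the numerical inequality -/
lemma numeric (b L N J NB D W p : ℝ) (Nn : ℕ) (hN : N = Nn) (hNn : 10 ^ 6 ≤ Nn) (hL : 7 ≤ L)
    (hb : 10 ^ 20 * L ≤ b) (hJ : J = 2 * N * (L + 2) * b) (hNB : 0 ≤ NB) (hD : 0 ≤ D)
    (hp : p * b ^ (60 * Nn) ≤ 8 * NB) (hcut : NB * D ≤ 2 * 10 ^ 5 * L * W) :
    2000 * L * J * (p * NB * (((b ^ (4 * Nn)) ^ 2) * D) ^ 2) ≤ (W / b ^ 3) ^ 2 := by
  have hb1 : 1 ≤ b := by linarith
  have hb0 : 0 < b := by linarith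
  have hNpow : N ≤ b ^ Nn := by
    rw [hN]
    have h1 : ((Nn : ℕ) : ℝ) ≤ 2 ^ Nn := by exact_mod_cast Nat.lt_two_pow_self.le
    refine h1.trans ?_
    exact pow_le_pow_left₀ (by norm_num) (by linarith) _
  have hN0 : 0 ≤ N := by rw [hN]; exact Nat.cast_nonneg _
  -- J
  have hJ0 : 0 ≤ J := by rw [hJ]; positivity
  have hJle : J ≤ b ^ Nn * b * b := by
    rw [hJ]
    have h2 : 2 * (L + 2) ≤ b := by linarith
    calc 2 * N * (L + 2) * b = N * (2 * (L + 2)) * b := by ring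
      _ ≤ b ^ Nn * b * b := by gcongr
  have hpow1 : b ^ (60 * Nn) = b ^ (44 * Nn) * b ^ (16 * Nn) := by
    rw [← pow_add]; congr 1; ring
  have hpow2 : ((b ^ (4 * Nn)) ^ 2) ^ 2 = b ^ (16 * Nn) := by
    rw [← pow_mul, ← pow_mul]; congr 1; ring
  have hW0 : 0 ≤ 2 * 10 ^ 5 * L * W := (mul_nonneg hNB hD).trans hcut
  have hW : 0 ≤ W := by
    by_contra h
    push Not at h
    have : 2 * 10 ^ 5 * L * W < 0 := mul_neg_of_pos_of_neg (by positivity) h
    linarith
  -- main chain, multiplied by b^(44 N)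
  have h44 : 0 < b ^ (44 * Nn) := by positivity
  have hmain : 2000 * L * J * (p * NB * (((b ^ (4 * Nn)) ^ 2) * D) ^ 2) * b ^ (44 * Nn) ≤
      64 * 10 ^ 13 * L ^ 3 * J * W ^ 2 := by
    calc 2000 * L * J * (p * NB * (((b ^ (4 * Nn)) ^ 2) * D) ^ 2) * b ^ (44 * Nn)
        = 2000 * L * J * NB * D ^ 2 * (p * b ^ (60 * Nn)) := by
          rw [mul_pow, hpow2, hpow1]; ring
      _ ≤ 2000 * L * J * NB * D ^ 2 * (8 * NB) := by gcongr
      _ = 16000 * L * J * (NB * D) ^ 2 := by ring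
      _ ≤ 16000 * L * J * (2 * 10 ^ 5 * L * W) ^ 2 := by gcongr
      _ = 64 * 10 ^ 13 * L ^ 3 * J * W ^ 2 := by ring
  have hfin : 64 * 10 ^ 13 * L ^ 3 * J * b ^ 6 ≤ b ^ (44 * Nn) := by
    have h1 : 64 * 10 ^ 13 * L ≤ b := by linarith
    have h2 : L ≤ b := by linarith
    calc 64 * 10 ^ 13 * L ^ 3 * J * b ^ 6 = (64 * 10 ^ 13 * L) * L * L * J * b ^ 6 := by ring
      _ ≤ b * b * b * (b ^ Nn * b * b) * b ^ 6 := by gcongr
      _ = b ^ (Nn + 11) := by
          rw [pow_add]; ring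
      _ ≤ b ^ (44 * Nn) := pow_le_pow_right₀ hb1 (by omega)
  rw [div_pow, le_div_iff₀ (by positivity)]
  refine le_of_mul_le_mul_right ?_ h44
  calc 2000 * L * J * (p * NB * (((b ^ (4 * Nn)) ^ 2) * D) ^ 2) * (b ^ 3) ^ 2 * b ^ (44 * Nn)
      = (2000 * L * J * (p * NB * (((b ^ (4 * Nn)) ^ 2) * D) ^ 2) * b ^ (44 * Nn)) * b ^ 6 := by
        ring
    _ ≤ (64 * 10 ^ 13 * L ^ 3 * J * W ^ 2) * b ^ 6 := by gcongr
    _ = W ^ 2 * (64 * 10 ^ 13 * L ^ 3 * J * b ^ 6) := by ring
    _ ≤ W ^ 2 * b ^ (44 * Nn) := by gcongr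

/-- deterministic part: the estimate in terms of the selected boxes -/
lemma est_eq (h3 : St_PA1) (β N u J cap1 m : ℕ) (ω : Rnd) (X : Finset Pt) (hβ : 0 < β) (hm : 3 ≤ m)
    (hsome : (T1of β N u J cap1 ω X m (jst J (T1of β N u J cap1 ω X) m)).isSome) :
    ∑ Z ∈ (cont J (T1of β N u J cap1 ω X) m).image (bx (DD β N u m)),
        wbox β N u m ((cont J (T1of β N u J cap1 ω X) m).filter (fun x => bx (DD β N u m) x = Z)) =
      ∑ Z ∈ (X.image (bx (DD β N u m))).filter
          (fun Z => Sel J ω m (jst J (T1of β N u J cap1 ω X) m) Z),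
        wbox β N u m (Qc (DD β N u m) (DD β N u (m - 2)) X Z) := by
  obtain ⟨C, hC⟩ := Option.isSome_iff_exists.1 hsome
  have hcont : cont J (T1of β N u J cap1 ω X) m = C := by
    unfold cont
    rw [hC]
    rfl
  obtain ⟨hA, hB⟩ := h3 β N u J cap1 m _ ω X C hβ hm hC
  rw [hcont, hB]
  refine Finset.sum_congr rfl fun Z hZ => ?_
  rw [Finset.mem_filter] at hZ
  rw [hA Z hZ.2]

/-- P1 for an arbitrary `Fintype` instance on the function space -/
lemma P1' (h1 : St_P1) (ι A : Type) [Fintype ι] [Fintype A] [inst : Fintype (ι → A)]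
    (O : Finset ι) (sel : A → Prop) (v : ι → ℝ) (vm τ : ℝ) (j : ℕ)
    (h0 : 0 < Fintype.card A)
    (hc : (Finset.univ.filter (fun a : A => sel a)).card * 2 ^ j = Fintype.card A)
    (hv : ∀ Z ∈ O, 0 ≤ v Z ∧ v Z ≤ vm) (hτ : 0 < τ) :
    ((Finset.univ.filter (fun ω : ι → A =>
      τ < |(2 : ℝ) ^ j * ∑ Z ∈ O.filter (fun Z => sel (ω Z)), v Z - ∑ Z ∈ O, v Z|)).card : ℝ) * τ ^ 2
    ≤ 2 ^ j * O.card * vm ^ 2 * Fintype.card (ι → A) := by
  have h := h1 ι A O sel v vm τ j h0 hc hv hτ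
  have e : inst = @Pi.instFintype ι (fun _ => A) (fun a b => Classical.propDecidable (a = b)) _ _ :=
    Subsingleton.elim _ _
  subst e
  exact h

end SW

open SW in
theorem t_SW (h1 : St_P1) (h2 : St_SJ) (h3 : St_PA1) (h4 : St_EX) : St_SW := by
  intro P β N L Δ M SM KK J Bc R cap1 cap2 u s m hyp hm
  have hL7 : 7 ≤ L := hyp.hL
  have hN6 : 10 ^ 6 ≤ N := hyp.hN
  have hβbig : 10 ^ 20 * L ≤ β := hyp.hβ
  have hβpos : 0 < β := by omega
  have hβ1 : 1 ≤ β := hβpos
  obtain ⟨hm3, hmL⟩ := Finset.mem_Icc.1 hm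
  set X := P.image (sh M s) with hX
  set D := DD β N u m with hD
  set σ := DD β N u (m - 2) with hσ
  have hDpos : 0 < D := DD_pos β N u m hβpos
  have hσpos : 0 < σ := DD_pos β N u (m - 2) hβpos
  set k := β ^ (2 * N) with hk
  have hkpos : 0 < k := pow_pos hβpos _
  have hDσ : D = k * σ := by
    rw [hD, hσ, hk]
    unfold DD
    rw [← pow_add]
    congr 1
    have : N * m = N * (m - 2) + 2 * N := by
      conv_lhs => rw [← Nat.sub_add_cancel (show 2 ≤ m by omega)]
      ring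
    omega
  set Bx := X.image (bx D) with hBx
  set NB := Bx.card with hNB
  set W : ℝ := M * mstW P with hW
  set v : Pt → ℝ := fun Z => wbox β N u m (Qc D σ X Z) with hv
  have hvb : ∀ Z, 0 ≤ v Z ∧ v Z ≤ (((β : ℝ) ^ (4 * N)) ^ 2) * D := by
    intro Z
    have hc : (Qc D σ X Z).card ≤ β ^ (4 * N) := by
      rw [hDσ]
      refine (card_Qc σ k X Z hkpos).trans ?_
      rw [hk, ← pow_mul]
      exact le_of_eq (by congr 1; ring)
    have := wbox_bd β N u m (β ^ (4 * N)) hβpos (Qc D σ X Z) hc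
    push_cast at this
    exact this
  -- positions of the boxes
  have hKK : ∀ Z ∈ Bx, Z.1 < KK ∧ Z.2 < KK := by
    intro Z hZ
    rw [hBx, Finset.mem_image] at hZ
    obtain ⟨x, hx, rfl⟩ := hZ
    rw [hX, Finset.mem_image] at hx
    obtain ⟨p, hp, rfl⟩ := hx
    obtain ⟨hp1, hp2⟩ := hyp.rng p hp
    have hMΔ : M * Δ < SM := by
      have e1 : 2 * (M * Δ) ≤ β ^ (N * (L - 1)) := by
        calc 2 * (M * Δ) = M * (2 * Δ) := by ring
          _ ≤ β ^ (5 * N) * β ^ (N * (L - 6)) := by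
              rw [hyp.hM]
              exact Nat.mul_le_mul_left _ hyp.hΔ
          _ = β ^ (N * (L - 1)) := by
              rw [← pow_add]
              congr 1
              have : L - 1 = 5 + (L - 6) := by omega
              rw [this]
              ring
      have e2 : β ^ (N * (L - 1)) ≤ SM := by
        rw [hyp.hSM]
        exact Nat.pow_le_pow_right hβpos (Nat.mul_le_mul_left N (by omega))
      have e3 : 0 < SM := by rw [hyp.hSM]; exact pow_pos hβpos _
      omega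
    have hb : ∀ a b : ℕ, a ≤ Δ → b < SM → (M * a + b) / D < KK := by
      intro a b ha hb
      refine lt_of_le_of_lt (Nat.div_le_self _ _) ?_
      rw [hyp.hKK]
      have : M * a ≤ M * Δ := Nat.mul_le_mul_left M ha
      omega
    exact ⟨hb _ _ hp1 hyp.hs.1, hb _ _ hp2 hyp.hs.2⟩
  -- the good event of SJ
  obtain ⟨badJ, hbadJ, hgoodJ⟩ : ∃ S : Finset (Seed L KK J SM Bc R),
      2000 * L * S.card ≤ Fintype.card (Seed L KK J SM Bc R) ∧ ∀ ω, ω ∉ S →
      ((T1of β N u J cap1 (toRnd ω) X m (jst J (T1of β N u J cap1 (toRnd ω) X) m)).isSome ∧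
        jst J (T1of β N u J cap1 (toRnd ω) X) m ≤ J ∧
        (jst J (T1of β N u J cap1 (toRnd ω) X) m = 0 ∨
          2 ^ (jst J (T1of β N u J cap1 (toRnd ω) X) m) * β ^ (60 * N) ≤ 8 * NB)) := by
    refine ⟨_, h2 P β N L Δ M SM KK J Bc R cap1 cap2 u s m hyp hm, ?_⟩
    intro ω hω
    rw [Finset.mem_filter] at hω
    push Not at hω
    have := hω (Finset.mem_univ ω)
    exact ⟨this.1, this.2.1, this.2.2.1⟩
  -- the sampling indices
  set O : Finset (Fin (L + 1) × Fin KK × Fin KK) :=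
    Finset.univ.filter (fun i => (i.1 : ℕ) = m ∧ (((i.2.1 : ℕ), (i.2.2 : ℕ)) : Pt) ∈ Bx) with hO
  set v' : Fin (L + 1) × Fin KK × Fin KK → ℝ :=
    fun i => v (((i.2.1 : ℕ), (i.2.2 : ℕ)) : Pt) with hv'
  obtain ⟨sel, hsel⟩ : ∃ sel : ℕ → (Fin (2 ^ J) × ((Fin Bc × Fin Bc × Fin Bc × Fin R) → Fin SM)) →
      Prop, ∀ j a, sel j a ↔ (a.1 : ℕ) * 2 ^ j < 2 ^ J := ⟨_, fun _ _ => Iff.rfl⟩
  have hsum : ∀ (p : Pt → Prop) (p' : Fin (L + 1) × Fin KK × Fin KK → Prop) (g : Pt → ℝ),
      (∀ i, i ∈ O → (p' i ↔ p (((i.2.1 : ℕ), (i.2.2 : ℕ)) : Pt))) →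
      ∑ i ∈ O.filter (fun i => p' i), g (((i.2.1 : ℕ), (i.2.2 : ℕ)) : Pt) =
        ∑ Z ∈ Bx.filter (fun Z => p Z), g Z := by
    intro p p' g hpp
    refine Finset.sum_bij (fun i _ => (((i.2.1 : ℕ), (i.2.2 : ℕ)) : Pt)) ?_ ?_ ?_ ?_
    · intro i hi
      rw [Finset.mem_filter] at hi ⊢
      refine ⟨?_, (hpp i hi.1).1 hi.2⟩
      have := hi.1
      rw [hO, Finset.mem_filter] at this
      exact this.2.2
    · intro i hi i' hi' he
      rw [Finset.mem_filter] at hi hi'
      have a1 := hi.1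
      have a2 := hi'.1
      rw [hO, Finset.mem_filter] at a1 a2
      obtain ⟨e1, e2⟩ := Prod.mk.inj he
      refine Prod.ext (Fin.ext (a1.2.1.trans a2.2.1.symm)) (Prod.ext (Fin.ext e1) (Fin.ext e2))
    · intro Z hZ
      rw [Finset.mem_filter] at hZ
      obtain ⟨hz1, hz2⟩ := hKK Z hZ.1
      have hmem : ((⟨m, by omega⟩, ⟨Z.1, hz1⟩, ⟨Z.2, hz2⟩) :
          Fin (L + 1) × Fin KK × Fin KK) ∈ O := by
        rw [hO, Finset.mem_filter]
        exact ⟨Finset.mem_univ _, rfl, hZ.1⟩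
      refine ⟨(⟨m, by omega⟩, ⟨Z.1, hz1⟩, ⟨Z.2, hz2⟩), ?_, rfl⟩
      rw [Finset.mem_filter]
      exact ⟨hmem, (hpp _ hmem).2 hZ.2⟩
    · intro i _
      rfl
  have hOcard : (O.card : ℝ) = NB := by
    have := hsum (fun _ => True) (fun _ => True) (fun _ => 1) (fun _ _ => Iff.rfl)
    simp only [Finset.filter_true, Finset.sum_const, nsmul_eq_mul, mul_one] at this
    exact this
  have hsumall : ∑ i ∈ O, v' i = ∑ Z ∈ Bx, v Z := by
    have := hsum (fun _ => True) (fun _ => True) v (fun _ _ => Iff.rfl)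
    simp only [Finset.filter_true] at this
    exact this
  have hsumsel : ∀ (ω : Seed L KK J SM Bc R) (j : ℕ),
      ∑ i ∈ O.filter (fun i => sel j (ω i)), v' i =
        ∑ Z ∈ Bx.filter (fun Z => Sel J (toRnd ω) m j Z), v Z := by
    intro ω j
    refine hsum (fun Z => Sel J (toRnd ω) m j Z) (fun i => sel j (ω i)) v ?_
    intro i hi
    rw [hO, Finset.mem_filter] at hi
    have hh : m < L + 1 ∧ (((i.2.1 : ℕ), (i.2.2 : ℕ)) : Pt).1 < KK ∧
        (((i.2.1 : ℕ), (i.2.2 : ℕ)) : Pt).2 < KK := ⟨by omega, i.2.1.2, i.2.2.2⟩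
    have e : (toRnd ω).h m (((i.2.1 : ℕ), (i.2.2 : ℕ)) : Pt) = ((ω i).1 : ℕ) := by
      unfold toRnd
      simp only
      rw [dif_pos hh]
      congr 3
      exact Prod.ext (Fin.ext hi.2.1.symm) rfl
    unfold Sel
    rw [e, hsel]
  -- numerical facts
  have hNBle : NB ≤ cutN M s D P + 1 := by
    have := (h4 M s D P hyp.ne).2
    rw [hNB, hBx, hX, Finset.image_image]
    exact this
  have hcut : (cutN M s D P : ℝ) * D ≤ 10 ^ 5 * L * W := hyp.cut m hm
  -- the bad sets for the single rates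
  set τ : ℝ := W / (β : ℝ) ^ 3 with hτ
  set E : ℕ → Finset (Seed L KK J SM Bc R) := fun j => Finset.univ.filter (fun ω =>
    τ < |(2 : ℝ) ^ j * ∑ i ∈ O.filter (fun i => sel j (ω i)), v' i - ∑ i ∈ O, v' i|) with hE
  set Js : Finset ℕ := (Finset.Icc 1 J).filter (fun j => 2 ^ j * β ^ (60 * N) ≤ 8 * NB) with hJs
  have hEj : ∀ j ∈ Js, 2000 * L * J * (E j).card ≤ Fintype.card (Seed L KK J SM Bc R) := by
    intro j hj
    rw [hJs, Finset.mem_filter, Finset.mem_Icc] at hj
    obtain ⟨⟨hj1, hjJ⟩, hj8⟩ := hj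
    -- at least two boxes
    have hNB2 : 2 ≤ NB := by
      by_contra hlt
      have h8 : 2 ^ j * β ^ (60 * N) ≤ 8 := by omega
      have hβ20 : 10 ^ 20 ≤ β := by
        have : 10 ^ 20 * 1 ≤ 10 ^ 20 * L := Nat.mul_le_mul_left _ (by omega)
        omega
      have h10 : β ^ 1 ≤ β ^ (60 * N) := Nat.pow_le_pow_right hβpos (by omega)
      rw [pow_one] at h10
      have h9 : 1 * β ^ (60 * N) ≤ 2 ^ j * β ^ (60 * N) :=
        Nat.mul_le_mul_right _ (Nat.one_le_two_pow)
      omega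
    have hNBD : (NB : ℝ) * D ≤ 2 * 10 ^ 5 * L * W := by
      have h5 : (NB : ℝ) ≤ 2 * cutN M s D P := by
        have : NB ≤ 2 * cutN M s D P := by omega
        exact_mod_cast this
      calc (NB : ℝ) * D ≤ (2 * cutN M s D P) * D :=
            mul_le_mul_of_nonneg_right h5 (Nat.cast_nonneg _)
        _ = 2 * ((cutN M s D P : ℝ) * D) := by ring
        _ ≤ 2 * (10 ^ 5 * L * W) := by linarith
        _ = 2 * 10 ^ 5 * L * W := by ring
    have hLpos : (0 : ℝ) < L := by
      have : 0 < L := by omega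
      exact_mod_cast this
    have hWpos : 0 < W := by
      have h6 : (0 : ℝ) < (NB : ℝ) * D := by
        have : 0 < NB := by omega
        positivity
      have h7 : 0 < 2 * 10 ^ 5 * (L : ℝ) * W := h6.trans_le hNBD
      have h8 : 0 < 2 * 10 ^ 5 * (L : ℝ) := by positivity
      exact (mul_pos_iff_of_pos_left h8).1 h7
    have hτpos : 0 < τ := by
      rw [hτ]
      have : (0 : ℝ) < β := by exact_mod_cast hβpos
      positivity
    have hcardA : 0 < Fintype.card
        (Fin (2 ^ J) × ((Fin Bc × Fin Bc × Fin Bc × Fin R) → Fin SM)) := by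
      rw [Fintype.card_pos_iff]
      have hSMpos : 0 < SM := by rw [hyp.hSM]; exact pow_pos hβpos _
      exact ⟨(⟨0, pow_pos (by norm_num) _⟩, fun _ => ⟨0, hSMpos⟩)⟩
    have hcs : (Finset.univ.filter (fun a : Fin (2 ^ J) ×
        ((Fin Bc × Fin Bc × Fin Bc × Fin R) → Fin SM) => sel j a)).card * 2 ^ j =
        Fintype.card (Fin (2 ^ J) × ((Fin Bc × Fin Bc × Fin Bc × Fin R) → Fin SM)) := by
      rw [← card_sel J j hjJ ((Fin Bc × Fin Bc × Fin Bc × Fin R) → Fin SM)]
      congr 2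
      ext a
      simp only [Finset.mem_filter, hsel]
    have hP1 := P1' h1 (Fin (L + 1) × Fin KK × Fin KK)
      (Fin (2 ^ J) × ((Fin Bc × Fin Bc × Fin Bc × Fin R) → Fin SM)) O (sel j) v'
      ((((β : ℝ) ^ (4 * N)) ^ 2) * D) τ j hcardA hcs
      (fun i _ => hvb _) hτpos
    have hnum := numeric (β : ℝ) L N J NB D W (2 ^ j) N rfl hN6 (by exact_mod_cast hL7)
      (by exact_mod_cast hβbig) (by rw [hyp.hJ]; push_cast; ring) (Nat.cast_nonneg _)
      (Nat.cast_nonneg _) (by exact_mod_cast hj8) hNBD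
    rw [hOcard] at hP1
    have hreal : (2000 * L * J * (E j).card : ℝ) ≤ Fintype.card (Seed L KK J SM Bc R) := by
      have hτ2 : 0 < τ ^ 2 := by positivity
      refine le_of_mul_le_mul_right ?_ hτ2
      calc (2000 * L * J * (E j).card : ℝ) * τ ^ 2 = 2000 * L * J * ((E j).card * τ ^ 2) := by ring
        _ ≤ 2000 * L * J * (2 ^ j * NB * ((((β : ℝ) ^ (4 * N)) ^ 2) * D) ^ 2 *
              Fintype.card (Seed L KK J SM Bc R)) := by
            refine mul_le_mul_of_nonneg_left ?_ (by positivity)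
            exact hP1
        _ = (2000 * L * J * (2 ^ j * NB * ((((β : ℝ) ^ (4 * N)) ^ 2) * D) ^ 2)) *
              Fintype.card (Seed L KK J SM Bc R) := by ring
        _ ≤ τ ^ 2 * Fintype.card (Seed L KK J SM Bc R) :=
            mul_le_mul_of_nonneg_right hnum (Nat.cast_nonneg _)
        _ = Fintype.card (Seed L KK J SM Bc R) * τ ^ 2 := by ring
    exact_mod_cast hreal
  -- the union of the bad sets
  have hincl : ∀ ω : Seed L KK J SM Bc R, ω ∉ badJ → ω ∉ Js.biUnion E →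
      |(2 : ℝ) ^ (jst J (T1of β N u J cap1 (toRnd ω) X) m) *
          ∑ Z ∈ (cont J (T1of β N u J cap1 (toRnd ω) X) m).image (bx (DD β N u m)),
            wbox β N u m ((cont J (T1of β N u J cap1 (toRnd ω) X) m).filter
              (fun x => bx (DD β N u m) x = Z)) -
          ∑ Z ∈ X.image (bx (DD β N u m)),
            wbox β N u m (Qc (DD β N u m) (DD β N u (m - 2)) X Z)| ≤ W / (β : ℝ) ^ 3 := by
    intro ω hω1 hω2
    obtain ⟨hsome, hjJ, hj⟩ := hgoodJ ω hω1
    rw [est_eq h3 β N u J cap1 m (toRnd ω) X hβpos hm3 hsome]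
    set js := jst J (T1of β N u J cap1 (toRnd ω) X) m with hjs
    have hW0 : 0 ≤ W := by
      rw [hW]
      refine mul_nonneg (Nat.cast_nonneg _) ?_
      unfold mstW
      exact Finset.sum_nonneg fun e _ => Real.sqrt_nonneg _
    rcases Nat.eq_zero_or_pos js with h0 | hpos
    · have hall : (X.image (bx (DD β N u m))).filter (fun Z => Sel J (toRnd ω) m js Z) =
          X.image (bx (DD β N u m)) := by
        refine Finset.filter_true_of_mem fun Z hZ => ?_
        unfold Sel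
        rw [h0, pow_zero, mul_one]
        obtain ⟨hz1, hz2⟩ := hKK Z hZ
        unfold toRnd
        simp only
        have hh : m < L + 1 ∧ Z.1 < KK ∧ Z.2 < KK := ⟨by omega, hz1, hz2⟩
        rw [dif_pos hh]
        exact Fin.is_lt _
      rw [hall, h0, pow_zero, one_mul, sub_self, abs_zero]
      positivity
    · have hj' : 2 ^ js * β ^ (60 * N) ≤ 8 * NB := hj.resolve_left (by omega)
      have hjmem : js ∈ Js := by
        rw [hJs, Finset.mem_filter, Finset.mem_Icc]
        exact ⟨⟨hpos, hjJ⟩, hj'⟩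
      have hnot : ω ∉ E js := fun hmem => hω2 (Finset.mem_biUnion.2 ⟨js, hjmem, hmem⟩)
      rw [hE] at hnot
      simp only [Finset.mem_filter, Finset.mem_univ, true_and, not_lt] at hnot
      rw [hsumsel ω js, hsumall] at hnot
      exact hnot
  have hcardU : 2000 * L * (Js.biUnion E).card ≤ Fintype.card (Seed L KK J SM Bc R) := by
    have hJpos : 0 < J := by
      rw [hyp.hJ]
      have : 0 < N := by omega
      positivity
    have h10 : (Js.biUnion E).card ≤ ∑ j ∈ Js, (E j).card := Finset.card_biUnion_le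
    have h11 : J * (2000 * L * (Js.biUnion E).card) ≤
        J * Fintype.card (Seed L KK J SM Bc R) := by
      calc J * (2000 * L * (Js.biUnion E).card) ≤ J * (2000 * L * ∑ j ∈ Js, (E j).card) := by
            gcongr
        _ = ∑ j ∈ Js, 2000 * L * J * (E j).card := by
            rw [Finset.mul_sum, Finset.mul_sum]
            refine Finset.sum_congr rfl fun j _ => ?_
            ring
        _ ≤ ∑ j ∈ Js, Fintype.card (Seed L KK J SM Bc R) := Finset.sum_le_sum hEj
        _ = Js.card * Fintype.card (Seed L KK J SM Bc R) := by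
            rw [Finset.sum_const, smul_eq_mul]
        _ ≤ J * Fintype.card (Seed L KK J SM Bc R) := by
            refine Nat.mul_le_mul_right _ ?_
            rw [hJs]
            refine (Finset.card_filter_le _ _).trans ?_
            rw [Nat.card_Icc]
            omega
    exact Nat.le_of_mul_le_mul_left h11 hJpos
  have hfin : (badJ ∪ Js.biUnion E).card ≤ badJ.card + (Js.biUnion E).card :=
    Finset.card_union_le _ _
  have hle : 1000 * L * (badJ ∪ Js.biUnion E).card ≤ Fintype.card (Seed L KK J SM Bc R) := by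
    have h12 : 1000 * L * (badJ ∪ Js.biUnion E).card ≤
        1000 * L * (badJ.card + (Js.biUnion E).card) := Nat.mul_le_mul_left _ hfin
    have h13 : 2 * (1000 * L * (badJ.card + (Js.biUnion E).card)) =
        2000 * L * badJ.card + 2000 * L * (Js.biUnion E).card := by ring
    omega
  refine le_trans (Nat.mul_le_mul_left _ (Finset.card_le_card ?_)) hle
  intro ω hω
  rw [Finset.mem_filter] at hω
  by_contra hnot
  rw [Finset.mem_union, not_or] at hnot
  exact hω.2 (hincl ω hnot.1 hnot.2)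

end Pool.Agent.H660R3.TS
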