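import Pool.Agent.H660R3.TS.Stubs

set_option autoImplicit false

open scoped Classical

namespace Pool.Agent.H660R3.TS

namespace TRI

theorem pair {a b : ℂ} {p q m : ℝ} (ha : ‖a‖ ≤ p) (hb : ‖b‖ ≤ q) (hm : 0 ≤ m) (hp : m ≤ p)
    (hq : m ≤ q) (h : -(‖a‖ * ‖b‖) / 2 ≤ a.re * b.re + a.im * b.im) : ‖a - b‖ ≤ p + q - m / 4 := by
  have hA := norm_nonneg a
  have hB := norm_nonneg b
  have ha2 : ‖a‖ ^ 2 = a.re ^ 2 + a.im ^ 2 := by rw [Complex.sq_norm, Complex.normSq_apply]; ring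
  have hb2 : ‖b‖ ^ 2 = b.re ^ 2 + b.im ^ 2 := by rw [Complex.sq_norm, Complex.normSq_apply]; ring
  have hab : ‖a - b‖ ^ 2 = ‖a‖ ^ 2 + ‖b‖ ^ 2 - 2 * (a.re * b.re + a.im * b.im) := by
    rw [ha2, hb2, Complex.sq_norm, Complex.normSq_apply, Complex.sub_re, Complex.sub_im]; ring
  have hp0 : 0 ≤ p := hm.trans hp
  have hq0 : 0 ≤ q := hm.trans hq
  have h1 : ‖a - b‖ ^ 2 ≤ p ^ 2 + q ^ 2 + p * q := by
    have h2 : ‖a‖ ^ 2 ≤ p ^ 2 := by gcongr
    have h3 : ‖b‖ ^ 2 ≤ q ^ 2 := by gcongr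
    have h4 : ‖a‖ * ‖b‖ ≤ p * q := by gcongr
    linarith
  have h2 : p ^ 2 + q ^ 2 + p * q ≤ (p + q - m / 4) ^ 2 := by
    nlinarith [mul_nonneg (sub_nonneg.2 hp) (sub_nonneg.2 hq), mul_nonneg hm (sub_nonneg.2 hp),
      mul_nonneg hm (sub_nonneg.2 hq), mul_nonneg hp0 (sub_nonneg.2 hq), mul_nonneg hq0 (sub_nonneg.2 hp)]
  have h3 : 0 ≤ p + q - m / 4 := by linarith
  exact (pow_le_pow_iff_left₀ (norm_nonneg _) h3 (by norm_num)).1 (h1.trans h2)

end TRI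

theorem t_TRI : St_TRI := by
  intro a b c p q r m ha hb hc hm hp hq hr
  by_cases h1 : -(‖a‖ * ‖b‖) / 2 ≤ a.re * b.re + a.im * b.im
  · exact Or.inl (TRI.pair ha hb hm hp hq h1)
  by_cases h2 : -(‖a‖ * ‖c‖) / 2 ≤ a.re * c.re + a.im * c.im
  · exact Or.inr (Or.inl (TRI.pair ha hc hm hp hr h2))
  by_cases h3 : -(‖b‖ * ‖c‖) / 2 ≤ b.re * c.re + b.im * c.im
  · exact Or.inr (Or.inr (TRI.pair hb hc hm hq hr h3))
  exfalso
  push Not at h1 h2 h3
  have ha2 : ‖a‖ ^ 2 = a.re ^ 2 + a.im ^ 2 := by rw [Complex.sq_norm, Complex.normSq_apply]; ring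
  have hb2 : ‖b‖ ^ 2 = b.re ^ 2 + b.im ^ 2 := by rw [Complex.sq_norm, Complex.normSq_apply]; ring
  have hc2 : ‖c‖ ^ 2 = c.re ^ 2 + c.im ^ 2 := by rw [Complex.sq_norm, Complex.normSq_apply]; ring
  have hA : 0 < ‖a‖ := by
    rcases (norm_nonneg a).eq_or_lt with h | h
    · have : a = 0 := norm_eq_zero.1 h.symm
      rw [this] at h1; simp at h1
    · exact h
  have hB : 0 < ‖b‖ := by
    rcases (norm_nonneg b).eq_or_lt with h | h
    · have : b = 0 := norm_eq_zero.1 h.symm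
      rw [this] at h1; simp at h1
    · exact h
  have hC : 0 < ‖c‖ := by
    rcases (norm_nonneg c).eq_or_lt with h | h
    · have : c = 0 := norm_eq_zero.1 h.symm
      rw [this] at h2; simp at h2
    · exact h
  set A := ‖a‖
  set B := ‖b‖
  set C := ‖c‖
  have hexp : (B * C * a.re + A * C * b.re + A * B * c.re) ^ 2 +
      (B * C * a.im + A * C * b.im + A * B * c.im) ^ 2 =
      3 * (A * B * C) ^ 2 + 2 * (A * B * C) * (C * (a.re * b.re + a.im * b.im) +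
        B * (a.re * c.re + a.im * c.im) + A * (b.re * c.re + b.im * c.im)) := by
    have e1 : (B * C) ^ 2 * (a.re ^ 2 + a.im ^ 2) = (A * B * C) ^ 2 := by rw [← ha2]; ring
    have e2 : (A * C) ^ 2 * (b.re ^ 2 + b.im ^ 2) = (A * B * C) ^ 2 := by rw [← hb2]; ring
    have e3 : (A * B) ^ 2 * (c.re ^ 2 + c.im ^ 2) = (A * B * C) ^ 2 := by rw [← hc2]; ring
    linear_combination e1 + e2 + e3
  have h4 : C * (a.re * b.re + a.im * b.im) < C * (-(A * B) / 2) := mul_lt_mul_of_pos_left h1 hC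
  have h5 : B * (a.re * c.re + a.im * c.im) < B * (-(A * C) / 2) := mul_lt_mul_of_pos_left h2 hB
  have h6 : A * (b.re * c.re + b.im * c.im) < A * (-(B * C) / 2) := mul_lt_mul_of_pos_left h3 hA
  have hABC : 0 < A * B * C := by positivity
  have h7 : C * (a.re * b.re + a.im * b.im) + B * (a.re * c.re + a.im * c.im) +
      A * (b.re * c.re + b.im * c.im) < -(3 / 2) * (A * B * C) := by linarith
  have h8 := mul_lt_mul_of_pos_left h7 hABC
  have h9 : 0 ≤ (B * C * a.re + A * C * b.re + A * B * c.re) ^ 2 +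
      (B * C * a.im + A * C * b.im + A * B * c.im) ^ 2 := by positivity
  nlinarith

end Pool.Agent.H660R3.TS
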