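import Pool.Agent.H660R3.TS.Stubs2

/-!
Task WST (helper418): the weight functional is accurate.
-/

set_option autoImplicit false

open scoped Classical

namespace Pool.Agent.H660R3.TS

namespace WST

theorem ds_eq (p q : Pt) : ds p q = ‖pt p - pt q‖ := by
  unfold ds pt
  rw [Complex.norm_def, Complex.normSq_apply]
  congr 1
  simp only [Complex.sub_re, Complex.sub_im]
  ring

theorem ds_comm (p q : Pt) : ds p q = ds q p := by
  rw [ds_eq, ds_eq, norm_sub_rev]

theorem ds_self (p : Pt) : ds p p = 0 := by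
  rw [ds_eq, sub_self, norm_zero]

theorem ds_tri (p q r : Pt) : ds p r ≤ ds p q + ds q r := by
  rw [ds_eq, ds_eq, ds_eq]
  exact norm_sub_le_norm_sub_add_norm_sub _ _ _

theorem ds_nonneg (p q : Pt) : 0 ≤ ds p q := Real.sqrt_nonneg _

theorem sub_rd (σ n : ℕ) (hσ : 0 < σ) :
    0 ≤ (n : ℝ) - ((n / σ * σ : ℕ) : ℝ) ∧ (n : ℝ) - ((n / σ * σ : ℕ) : ℝ) ≤ σ := by
  have h1 : n / σ * σ + n % σ = n := by
    have := Nat.div_add_mod n σ
    rw [mul_comm]; exact this
  have h2 : n % σ < σ := Nat.mod_lt _ hσ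
  have h3 : (n : ℝ) = ((n / σ * σ : ℕ) : ℝ) + ((n % σ : ℕ) : ℝ) := by exact_mod_cast h1.symm
  have h4 : ((n % σ : ℕ) : ℝ) ≤ σ := by exact_mod_cast h2.le
  have h5 : (0 : ℝ) ≤ ((n % σ : ℕ) : ℝ) := Nat.cast_nonneg _
  constructor <;> linarith

theorem rd_near (σ : ℕ) (hσ : 0 < σ) (x : Pt) : ds x (rd σ x) ≤ 3 / 2 * σ := by
  have h1 := sub_rd σ x.1 hσ
  have h2 := sub_rd σ x.2 hσ
  have h3 : (0 : ℝ) < σ := by exact_mod_cast hσ
  unfold ds rd
  rw [Real.sqrt_le_left (by positivity)]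
  dsimp only
  nlinarith

theorem ds_sh (M : ℕ) (s x y : Pt) : ds (sh M s x) (sh M s y) = M * ds x y := by
  unfold ds sh
  rw [← Real.sqrt_sq (Nat.cast_nonneg M : (0 : ℝ) ≤ M), ← Real.sqrt_mul (by positivity)]
  congr 1
  push_cast
  ring

/-! the truncations -/

noncomputable def ph (lo hi x : ℝ) : ℝ := min (max (x - lo) 0) (hi - lo)

noncomputable def rh (lo x : ℝ) : ℝ := if lo / 2 ≤ x then x else 0

theorem ph_mono (lo hi : ℝ) : Monotone (ph lo hi) := by
  intro x y h
  unfold ph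
  exact min_le_min (max_le_max (by linarith) le_rfl) le_rfl

theorem ph_nonneg {lo hi : ℝ} (h : lo ≤ hi) (x : ℝ) : 0 ≤ ph lo hi x := by
  unfold ph
  exact le_min (le_max_right _ _) (by linarith)

theorem ph_le {lo hi : ℝ} (h0 : 0 ≤ lo) (x : ℝ) : ph lo hi x ≤ hi := by
  unfold ph
  exact (min_le_right _ _).trans (by linarith)

theorem ph_zero {lo hi x : ℝ} (h : lo ≤ hi) (hx : x ≤ lo) : ph lo hi x = 0 := by
  unfold ph
  rw [max_eq_right (by linarith), min_eq_left (by linarith)]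

theorem rh_mono {lo : ℝ} (h : 0 ≤ lo) : Monotone (rh lo) := by
  intro x y hxy
  unfold rh
  split_ifs <;> linarith

theorem rh_nonneg {lo : ℝ} (h : 0 ≤ lo) (x : ℝ) : 0 ≤ rh lo x := by
  unfold rh
  split_ifs <;> linarith

theorem rh_le_self {lo x : ℝ} (hx : 0 ≤ x) : rh lo x ≤ x := by
  unfold rh
  split_ifs <;> linarith

theorem rh_add {lo g x : ℝ} (_hg : 0 < g) (h : 12 * g ≤ lo) (hx : 0 ≤ x) :
    rh lo (x + 3 * g) ≤ 2 * x := by
  unfold rh
  split_ifs <;> linarith

theorem ph_add {lo hi g x : ℝ} (hg : 0 < g) (h : 12 * g ≤ lo) (h2 : lo ≤ hi) :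
    ph lo hi (x + 3 * g) ≤ ph lo hi x + 6 * g / lo * rh lo x := by
  have hlo : 0 < lo := by linarith
  by_cases hx : lo / 2 ≤ x
  · have e : rh lo x = x := by unfold rh; rw [if_pos hx]
    rw [e]
    have h3 : 3 * g ≤ 6 * g / lo * x := by
      rw [div_mul_eq_mul_div, le_div_iff₀ hlo]
      nlinarith
    have h4 : ph lo hi (x + 3 * g) ≤ ph lo hi x + 3 * g := by
      unfold ph
      rw [min_le_iff, ← min_add_add_right]
      by_cases h5 : x - lo ≤ 0
      · rw [max_eq_right h5]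
        by_cases h6 : hi - lo ≤ 0
        · right
          rw [le_min_iff]
          constructor <;> linarith
        · push Not at h6
          by_cases h7 : x + 3 * g - lo ≤ hi - lo
          · left
            rw [le_min_iff]
            constructor
            · exact max_le (by linarith) (by linarith)
            · exact max_le (by linarith) (by linarith)
          · right
            rw [le_min_iff]
            push Not at h7
            constructor <;> linarith
      · push Not at h5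
        rw [max_eq_left h5.le]
        by_cases h7 : x + 3 * g - lo ≤ hi - lo
        · left
          rw [le_min_iff]
          constructor
          · exact max_le (by linarith) (by linarith)
          · exact max_le (by linarith) (by linarith)
        · push Not at h7
          right
          rw [le_min_iff]
          constructor <;> linarith
    linarith
  · push Not at hx
    rw [ph_zero h2 (by linarith)]
    have := ph_nonneg h2 x
    have h3 := rh_nonneg hlo.le x
    positivity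

/-! trees of images -/

theorem img_up (h1 : St_MSTb) (h3 : St_MSTo) (A : Finset Pt) (f : Pt → Pt) (M g : ℝ)
    (hf : ∀ x ∈ A, ∀ y ∈ A, ds (f x) (f y) ≤ M * ds x y + g)
    (φ : ℝ → ℝ) (hm : Monotone φ) (hn : ∀ x, 0 ≤ φ x) :
    ∑ e ∈ mst (A.image f), φ (ds e.1 e.2) ≤ ∑ e ∈ mst A, φ (M * ds e.1 e.2 + g) := by
  obtain ⟨hb1, -, hb3⟩ := h1
  have key := h3 (A.image f) φ hm hn ((mst A).image (fun e => (f e.1, f e.2))) ?_ ?_
  · refine key.trans ?_
    refine le_trans (Finset.sum_image_le_of_nonneg (fun i _ => hn _) ) ?_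
    refine Finset.sum_le_sum fun e he => ?_
    obtain ⟨ha, hb, -, -⟩ := hb1 A e he
    exact hm (hf _ ha _ hb)
  · intro e he
    rw [Finset.mem_image] at he
    obtain ⟨e', he', rfl⟩ := he
    obtain ⟨ha, hb, -, -⟩ := hb1 A e' he'
    exact ⟨Finset.mem_image_of_mem _ ha, Finset.mem_image_of_mem _ hb⟩
  · intro u hu v hv
    rw [Finset.mem_image] at hu hv
    obtain ⟨x, hx, rfl⟩ := hu
    obtain ⟨y, hy, rfl⟩ := hv
    have h := hb3 A x hx y hy
    refine Relation.ReflTransGen.lift f ?_ _ _ h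
    rintro a b ⟨hab, -⟩
    rcases hab with hab | hab
    · exact Or.inl (Finset.mem_image.2 ⟨(a, b), hab, rfl⟩)
    · exact Or.inr (Finset.mem_image.2 ⟨(b, a), hab, rfl⟩)

theorem img_lo (h1 : St_MSTb) (h3 : St_MSTo) (A : Finset Pt) (f : Pt → Pt) (M g : ℝ) (hM : 0 ≤ M)
    (hf : ∀ x ∈ A, ∀ y ∈ A, M * ds x y ≤ ds (f x) (f y) + g)
    (φ : ℝ → ℝ) (hm : Monotone φ) (hn : ∀ x, 0 ≤ φ x) (h0 : φ g = 0) :
    ∑ e ∈ mst A, φ (M * ds e.1 e.2) ≤ ∑ e ∈ mst (A.image f), φ (ds e.1 e.2 + g) := by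
  obtain ⟨hb1, -, hb3⟩ := h1
  have hex : ∀ q : Pt, ∃ x : Pt, q ∈ A.image f → x ∈ A ∧ f x = q := by
    intro q
    by_cases hq : q ∈ A.image f
    · rw [Finset.mem_image] at hq
      obtain ⟨x, hx, hxq⟩ := hq
      exact ⟨x, fun _ => ⟨hx, hxq⟩⟩
    · exact ⟨q, fun h => absurd h hq⟩
  choose r hr using hex
  have hrf : ∀ x ∈ A, r (f x) ∈ A ∧ f (r (f x)) = f x := fun x hx =>
    hr _ (Finset.mem_image_of_mem _ hx)
  have key := h3 A (fun t => φ (M * t)) (fun a b hab => hm (mul_le_mul_of_nonneg_left hab hM))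
    (fun x => hn _)
    ((mst (A.image f)).image (fun e => (r e.1, r e.2)) ∪ A.image (fun x => (x, r (f x)))) ?_ ?_
  · refine key.trans ?_
    have e0 := Finset.sum_union_inter
      (s₁ := (mst (A.image f)).image (fun e => (r e.1, r e.2)))
      (s₂ := A.image (fun x => (x, r (f x)))) (f := fun e => φ (M * ds e.1 e.2))
    have e3 : 0 ≤ ∑ e ∈ (mst (A.image f)).image (fun e => (r e.1, r e.2)) ∩
        A.image (fun x => (x, r (f x))), φ (M * ds e.1 e.2) := Finset.sum_nonneg fun i _ => hn _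
    have e2 : ∑ e ∈ A.image (fun x => (x, r (f x))), φ (M * ds e.1 e.2) ≤ 0 := by
      refine Finset.sum_nonpos fun e he => ?_
      rw [Finset.mem_image] at he
      obtain ⟨x, hx, rfl⟩ := he
      have h5 := hf x hx _ (hrf x hx).1
      rw [(hrf x hx).2, ds_self, zero_add] at h5
      rw [← h0]
      exact hm h5
    have e1 : ∑ e ∈ (mst (A.image f)).image (fun e => (r e.1, r e.2)), φ (M * ds e.1 e.2) ≤
        ∑ e ∈ mst (A.image f), φ (ds e.1 e.2 + g) := by
      refine le_trans (Finset.sum_image_le_of_nonneg (fun i _ => hn _)) ?_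
      refine Finset.sum_le_sum fun e he => ?_
      obtain ⟨ha, hb, -, -⟩ := hb1 _ e he
      have ha' := hr _ ha
      have hb' := hr _ hb
      have h5 := hf _ ha'.1 _ hb'.1
      rw [ha'.2, hb'.2] at h5
      exact hm h5
    linarith
  · intro e he
    rw [Finset.mem_union, Finset.mem_image, Finset.mem_image] at he
    rcases he with ⟨e', he', rfl⟩ | ⟨x, hx, rfl⟩
    · obtain ⟨ha, hb, -, -⟩ := hb1 _ e' he'
      exact ⟨(hr _ ha).1, (hr _ hb).1⟩
    · exact ⟨hx, (hrf x hx).1⟩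
  · intro u hu v hv
    have h5 := hb3 (A.image f) (f u) (Finset.mem_image_of_mem _ hu) (f v)
      (Finset.mem_image_of_mem _ hv)
    have h6 : Relation.ReflTransGen
        (fun a b => (a, b) ∈ ((mst (A.image f)).image (fun e => (r e.1, r e.2)) ∪
          A.image (fun x => (x, r (f x)))) ∨ (b, a) ∈
          ((mst (A.image f)).image (fun e => (r e.1, r e.2)) ∪
          A.image (fun x => (x, r (f x))))) (r (f u)) (r (f v)) := by
      refine Relation.ReflTransGen.lift r ?_ _ _ h5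
      rintro a b ⟨hab, -⟩
      rcases hab with hab | hab
      · exact Or.inl (Finset.mem_union_left _ (Finset.mem_image.2 ⟨(a, b), hab, rfl⟩))
      · exact Or.inr (Finset.mem_union_left _ (Finset.mem_image.2 ⟨(b, a), hab, rfl⟩))
    refine (Relation.ReflTransGen.head ?_ h6).tail ?_
    · exact Or.inl (Finset.mem_union_right _ (Finset.mem_image.2 ⟨u, hu, rfl⟩))
    · exact Or.inr (Finset.mem_union_right _ (Finset.mem_image.2 ⟨v, hv, rfl⟩))

/-! boxes -/

theorem Qc_eq (M : ℕ) (s : Pt) (D σ : ℕ) (P : Finset Pt) (Z : Pt) :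
    Qc D σ (P.image (sh M s)) Z = (inBox M s D P Z).image (fun x => rd σ (sh M s x)) := by
  ext q
  simp only [Qc, inBox, Finset.mem_image, Finset.mem_filter]
  constructor
  · rintro ⟨x, ⟨⟨y, hy, rfl⟩, hx⟩, rfl⟩
    exact ⟨y, ⟨hy, hx⟩, rfl⟩
  · rintro ⟨y, ⟨hy, hx⟩, rfl⟩
    exact ⟨_, ⟨⟨y, hy, rfl⟩, hx⟩, rfl⟩

theorem box_up (h1 : St_MSTb) (h4 : St_EX) (M : ℕ) (s : Pt) (D : ℕ) (P : Finset Pt)
    (hP : P.Nonempty) (F : Pt × Pt → ℝ) (K : ℝ) (hF : ∀ e, 0 ≤ F e)
    (hK : ∀ Z, ∀ e ∈ mst (inBox M s D P Z), F e ≤ K) (hK0 : 0 ≤ K) :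
    ∑ Z ∈ P.image (fun x => bx D (sh M s x)), ∑ e ∈ mst (inBox M s D P Z), F e ≤
      ∑ e ∈ mst P, F e + K * cutN M s D P := by
  obtain ⟨hb1, hb2, -⟩ := h1
  have e1 : ∀ Z, ∑ e ∈ mst (inBox M s D P Z), F e ≤
      ∑ e ∈ (mst P).filter (fun e => bx D (sh M s e.1) = Z), F e +
        K * (mst (inBox M s D P Z) \ mst P).card := by
    intro Z
    rw [← Finset.sum_inter_add_sum_sdiff (mst (inBox M s D P Z)) (mst P)]
    refine add_le_add ?_ ?_
    · refine Finset.sum_le_sum_of_subset_of_nonneg ?_ fun _ _ _ => hF _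
      intro e he
      rw [Finset.mem_inter] at he
      rw [Finset.mem_filter]
      refine ⟨he.2, ?_⟩
      have h5 := (hb1 _ e he.1).1
      rw [inBox, Finset.mem_filter] at h5
      exact h5.2
    · refine (Finset.sum_le_card_nsmul _ _ K ?_).trans ?_
      · intro e he
        rw [Finset.mem_sdiff] at he
        exact hK Z e he.1
      · rw [nsmul_eq_mul, mul_comm]
  have e2 := Finset.sum_le_sum (s := P.image (fun x => bx D (sh M s x))) (fun Z _ => e1 Z)
  refine e2.trans ?_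
  rw [Finset.sum_add_distrib]
  refine add_le_add (le_of_eq ?_) ?_
  · refine Finset.sum_fiberwise_of_maps_to ?_ _
    intro e he
    exact Finset.mem_image_of_mem _ (hb1 _ e he).1
  · rw [← Finset.mul_sum]
    refine mul_le_mul_of_nonneg_left ?_ hK0
    exact_mod_cast (h4 M s D P hP).1

theorem box_lo (h1 : St_MSTb) (M : ℕ) (s : Pt) (D : ℕ) (P : Finset Pt)
    (F : Pt × Pt → ℝ) (K : ℝ) (hF : ∀ e, 0 ≤ F e) (hK : ∀ e, F e ≤ K) :
    ∑ e ∈ mst P, F e ≤
    ∑ Z ∈ P.image (fun x => bx D (sh M s x)), ∑ e ∈ mst (inBox M s D P Z), F e +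
       K * cutN M s D P := by
  obtain ⟨hb1, hb2, -⟩ := h1
  rw [← Finset.sum_filter_add_sum_filter_not (mst P)
    (fun e => bx D (sh M s e.1) ≠ bx D (sh M s e.2)), add_comm]
  refine add_le_add ?_ ?_
  · rw [← Finset.sum_fiberwise_of_maps_to (t := P.image (fun x => bx D (sh M s x)))
      (g := fun e : Pt × Pt => bx D (sh M s e.1))]
    · refine Finset.sum_le_sum fun Z _ => ?_
      refine Finset.sum_le_sum_of_subset_of_nonneg ?_ fun _ _ _ => hF _
      intro e he
      rw [Finset.mem_filter, Finset.mem_filter, not_not] at he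
      obtain ⟨⟨he1, he2⟩, he3⟩ := he
      have h6 := hb1 _ e he1
      refine hb2 _ P (Finset.filter_subset _ _) e he1 ?_ ?_
      · exact Finset.mem_filter.2 ⟨h6.1, he3⟩
      · exact Finset.mem_filter.2 ⟨h6.2.1, by rw [← he2]; exact he3⟩
    · intro e he
      rw [Finset.mem_filter] at he
      exact Finset.mem_image_of_mem _ (hb1 _ e he.1).1
  · refine (Finset.sum_le_card_nsmul _ _ K (fun e _ => hK e)).trans ?_
    rw [nsmul_eq_mul, mul_comm]
    rfl

theorem ds_box (M : ℕ) (s : Pt) (D : ℕ) (hD : 0 < D) (x y : Pt)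
    (h : bx D (sh M s x) = bx D (sh M s y)) : M * ds x y ≤ 2 * D := by
  rw [← ds_sh M s]
  have key : ∀ a b : ℕ, a / D = b / D → |(a : ℝ) - b| ≤ D := by
    intro a b hab
    have h1 := Nat.div_add_mod a D
    have h2 := Nat.div_add_mod b D
    have h3 := Nat.mod_lt a hD
    have h4 := Nat.mod_lt b hD
    rw [hab] at h1
    have h5 : (a : ℝ) = D * (b / D : ℕ) + (a % D : ℕ) := by exact_mod_cast h1.symm
    have h6 : (b : ℝ) = D * (b / D : ℕ) + (b % D : ℕ) := by exact_mod_cast h2.symm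
    have h7 : ((a % D : ℕ) : ℝ) ≤ D := by exact_mod_cast h3.le
    have h8 : ((b % D : ℕ) : ℝ) ≤ D := by exact_mod_cast h4.le
    have h9 : (0 : ℝ) ≤ ((a % D : ℕ) : ℝ) := Nat.cast_nonneg _
    have h10 : (0 : ℝ) ≤ ((b % D : ℕ) : ℝ) := Nat.cast_nonneg _
    rw [abs_le]
    constructor <;> linarith
  have h1 := key _ _ (congrArg Prod.fst h)
  have h2 := key _ _ (congrArg Prod.snd h)
  unfold ds
  rw [Real.sqrt_le_left (by positivity)]
  have h3 := sq_le_sq' (abs_le.1 h1).1 (abs_le.1 h1).2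
  have h4 := sq_le_sq' (abs_le.1 h2).1 (abs_le.1 h2).2
  nlinarith [sq_nonneg (D : ℝ)]

/-- one level -/
theorem one_level (h1 : St_MSTb) (h3 : St_MSTo) (h4 : St_EX) (M : ℕ) (s : Pt) (D σ : ℕ)
    (P : Finset Pt) (hP : P.Nonempty) (hσ : 0 < σ) (hD : 0 < D) (lo hi : ℝ)
    (hlo : 12 * (σ : ℝ) ≤ lo) (hhi : lo ≤ hi) :
    |∑ Z ∈ (P.image (sh M s)).image (bx D),
        ∑ e ∈ mst (Qc D σ (P.image (sh M s)) Z), ph lo hi (ds e.1 e.2) -
      ∑ e ∈ mst P, ph lo hi (M * ds e.1 e.2)| ≤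
    hi * cutN M s D P + 12 * σ / lo * (M * mstW P + 2 * D * cutN M s D P) := by
  have hσ' : (0 : ℝ) < σ := by exact_mod_cast hσ
  have hlo0 : 0 < lo := by linarith
  have hMn : (0 : ℝ) ≤ M := Nat.cast_nonneg _
  rw [Finset.image_image]
  set BB := P.image (bx D ∘ sh M s) with hBB
  have hBB' : BB = P.image (fun x => bx D (sh M s x)) := rfl
  have hQ : ∀ Z, Qc D σ (P.image (sh M s)) Z =
    (inBox M s D P Z).image (fun x => rd σ (sh M s x)) := Qc_eq M s D σ P
  simp only [hQ]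
  have hf1 : ∀ x y : Pt, ds (rd σ (sh M s x)) (rd σ (sh M s y)) ≤ M * ds x y + 3 * σ := by
    intro x y
    have e1 := rd_near σ hσ (sh M s x)
    have e2 := rd_near σ hσ (sh M s y)
    have e3 := ds_tri (rd σ (sh M s x)) (sh M s x) (rd σ (sh M s y))
    have e4 := ds_tri (sh M s x) (sh M s y) (rd σ (sh M s y))
    rw [ds_comm (rd σ (sh M s x)) (sh M s x)] at e3
    rw [ds_sh] at e4
    linarith
  have hf2 : ∀ x y : Pt, M * ds x y ≤ ds (rd σ (sh M s x)) (rd σ (sh M s y)) + 3 * σ := by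
    intro x y
    have e1 := rd_near σ hσ (sh M s x)
    have e2 := rd_near σ hσ (sh M s y)
    have e3 := ds_tri (sh M s x) (rd σ (sh M s x)) (sh M s y)
    have e4 := ds_tri (rd σ (sh M s x)) (rd σ (sh M s y)) (sh M s y)
    rw [ds_comm (rd σ (sh M s y)) (sh M s y)] at e4
    rw [ds_sh] at e3
    linarith
  -- sum of all lengths in boxes
  have hlen : ∑ Z ∈ BB, ∑ e ∈ mst (inBox M s D P Z), (M : ℝ) * ds e.1 e.2 ≤
      M * mstW P + 2 * D * cutN M s D P := by
    have := box_up h1 h4 M s D P hP (fun e => (M : ℝ) * ds e.1 e.2) (2 * D)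
      (fun e => mul_nonneg hMn (ds_nonneg _ _)) ?_ (by positivity)
    · refine this.trans (le_of_eq ?_)
      rw [mstW, Finset.mul_sum]
    · intro Z e he
      obtain ⟨ha, hb, -, -⟩ := h1.1 _ e he
      rw [inBox, Finset.mem_filter] at ha hb
      exact ds_box M s D hD e.1 e.2 (by rw [ha.2, hb.2])
  have hc : (0 : ℝ) ≤ 6 * σ / lo := by positivity
  rw [abs_le]
  constructor
  · -- lower bound
    have e1 := box_lo h1 M s D P (fun e => ph lo hi (M * ds e.1 e.2)) hi
      (fun e => ph_nonneg hhi _) (fun e => ph_le hlo0.le _)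
    have e2 : ∀ Z, ∑ e ∈ mst (inBox M s D P Z), ph lo hi (M * ds e.1 e.2) ≤
        ∑ e ∈ mst ((inBox M s D P Z).image (fun x => rd σ (sh M s x))), ph lo hi (ds e.1 e.2) +
        12 * σ / lo * ∑ e ∈ mst (inBox M s D P Z), (M : ℝ) * ds e.1 e.2 := by
      intro Z
      have e3 := img_lo h1 h3 (inBox M s D P Z) (fun x => rd σ (sh M s x)) M (3 * σ) hMn
        (fun x _ y _ => hf2 x y) (ph lo hi) (ph_mono lo hi) (ph_nonneg hhi)
        (ph_zero hhi (by linarith))
      refine e3.trans ?_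
      have e4 := img_up h1 h3 (inBox M s D P Z) (fun x => rd σ (sh M s x)) M (3 * σ)
        (fun x _ y _ => hf1 x y) (rh lo) (rh_mono hlo0.le) (rh_nonneg hlo0.le)
      have e5 : ∑ e ∈ mst ((inBox M s D P Z).image (fun x => rd σ (sh M s x))),
            ph lo hi (ds e.1 e.2 + 3 * σ) ≤
          ∑ e ∈ mst ((inBox M s D P Z).image (fun x => rd σ (sh M s x))), ph lo hi (ds e.1 e.2) +
          6 * σ / lo * ∑ e ∈ mst ((inBox M s D P Z).image (fun x => rd σ (sh M s x))),
            rh lo (ds e.1 e.2) := by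
        rw [Finset.mul_sum, ← Finset.sum_add_distrib]
        exact Finset.sum_le_sum fun e _ => ph_add hσ' hlo hhi
      have e6 : ∑ e ∈ mst (inBox M s D P Z), rh lo (M * ds e.1 e.2 + 3 * σ) ≤
          2 * ∑ e ∈ mst (inBox M s D P Z), (M : ℝ) * ds e.1 e.2 := by
        rw [Finset.mul_sum]
        exact Finset.sum_le_sum fun e _ => rh_add hσ' hlo (mul_nonneg hMn (ds_nonneg _ _))
      refine e5.trans ?_
      have e7 := mul_le_mul_of_nonneg_left (e4.trans e6) hc
      have e8 : 6 * (σ : ℝ) / lo * (2 * ∑ e ∈ mst (inBox M s D P Z), (M : ℝ) * ds e.1 e.2) =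
        12 * σ / lo * ∑ e ∈ mst (inBox M s D P Z), (M : ℝ) * ds e.1 e.2 := by ring
      linarith
    have e9 := Finset.sum_le_sum (s := BB) (fun Z _ => e2 Z)
    rw [Finset.sum_add_distrib, ← Finset.mul_sum] at e9
    rw [← hBB'] at e1
    have e10 : 12 * (σ : ℝ) / lo * ∑ Z ∈ BB, ∑ e ∈ mst (inBox M s D P Z), (M : ℝ) * ds e.1 e.2 ≤
        12 * (σ : ℝ) / lo * (M * mstW P + 2 * D * cutN M s D P) :=
      mul_le_mul_of_nonneg_left hlen (by positivity)
    linarith
  · -- upper bound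
    have e1 := box_up h1 h4 M s D P hP (fun e => ph lo hi (M * ds e.1 e.2)) hi
      (fun e => ph_nonneg hhi _) (fun Z e _ => ph_le hlo0.le _) (by linarith)
    have e2 : ∀ Z, ∑ e ∈ mst ((inBox M s D P Z).image (fun x => rd σ (sh M s x))),
          ph lo hi (ds e.1 e.2) ≤
        ∑ e ∈ mst (inBox M s D P Z), ph lo hi (M * ds e.1 e.2) +
        6 * σ / lo * ∑ e ∈ mst (inBox M s D P Z), (M : ℝ) * ds e.1 e.2 := by
      intro Z
      have e4 := img_up h1 h3 (inBox M s D P Z) (fun x => rd σ (sh M s x)) M (3 * σ)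
        (fun x _ y _ => hf1 x y) (ph lo hi) (ph_mono lo hi) (ph_nonneg hhi)
      refine e4.trans ?_
      rw [Finset.mul_sum, ← Finset.sum_add_distrib]
      refine Finset.sum_le_sum fun e _ => ?_
      have h5 : (0 : ℝ) ≤ M * ds e.1 e.2 := mul_nonneg hMn (ds_nonneg _ _)
      have h6 : ph lo hi (M * ds e.1 e.2 + 3 * σ) ≤
        ph lo hi (M * ds e.1 e.2) + 6 * σ / lo * rh lo (M * ds e.1 e.2) := ph_add hσ' hlo hhi
      have h7 := mul_le_mul_of_nonneg_left (rh_le_self (lo := lo) h5) hc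
      linarith
    have e9 := Finset.sum_le_sum (s := BB) (fun Z _ => e2 Z)
    rw [Finset.sum_add_distrib, ← Finset.mul_sum] at e9
    rw [← hBB'] at e1
    have e10 : 6 * (σ : ℝ) / lo * ∑ Z ∈ BB, ∑ e ∈ mst (inBox M s D P Z), (M : ℝ) * ds e.1 e.2 ≤
        12 * (σ : ℝ) / lo * (M * mstW P + 2 * D * cutN M s D P) := by
      refine mul_le_mul ?_ hlen ?_ (by positivity)
      · exact div_le_div_of_nonneg_right (by linarith) hlo0.le
      · exact Finset.sum_nonneg fun Z _ => Finset.sum_nonneg fun e _ =>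
          mul_nonneg hMn (ds_nonneg _ _)
    linarith

/-- telescoping -/
theorem tele (l : ℕ → ℝ) (hl : Monotone l) (x : ℝ) (L : ℕ) (hL : 2 ≤ L) :
    ∑ m ∈ Finset.Icc 3 L, ph (l (m - 1)) (l m) x = ph (l 2) (l L) x := by
  induction L, hL using Nat.le_induction with
  | base =>
    rw [Finset.Icc_eq_empty (by omega), Finset.sum_empty]
    unfold ph
    rw [sub_self, min_eq_right (le_max_right _ _)]
  | succ n hn ih =>
    rw [Finset.sum_Icc_succ_top (by omega), ih]
    have h1 : l 2 ≤ l n := hl hn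
    have h2 : l n ≤ l (n + 1) := hl (Nat.le_succ n)
    simp only [Nat.add_sub_cancel]
    unfold ph
    rcases le_total (x - l 2) 0 with h3 | h3
    · rw [max_eq_right h3, max_eq_right (by linarith : x - l n ≤ 0),
        min_eq_left (by linarith), min_eq_left (by linarith), min_eq_left (by linarith)]
      ring
    · rw [max_eq_left h3]
      rcases le_total (x - l n) 0 with h4 | h4
      · rw [max_eq_right h4, min_eq_left (by linarith), min_eq_left (by linarith),
          min_eq_left (by linarith)]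
        ring
      · rw [max_eq_left h4, min_eq_right (by linarith)]
        rcases le_total (x - l (n + 1)) 0 with h5 | h5
        · rw [min_eq_left (by linarith), min_eq_left (by linarith)]
          ring
        · rw [min_eq_right (by linarith), min_eq_right (by linarith)]
          ring

end WST

theorem t_WST (h1 : St_MSTb) (_h2 : St_MSTc) (h3 : St_MSTo) (h4 : St_EX) : St_WST := by
  intro P β N L Δ M u s hM hN hL hβ hu hP hΔ hΔ2 hcut
  have hL' : (7 : ℝ) ≤ L := by exact_mod_cast hL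
  have hβ' : (10 : ℝ) ^ 20 * L ≤ β := by exact_mod_cast hβ
  have hB1 : (1 : ℝ) ≤ β := by linarith
  have hB0 : (0 : ℝ) < β := by linarith
  have hβ0 : 0 < β := by exact_mod_cast hB0
  have hβ1 : 1 ≤ β := hβ0
  have hDpos : ∀ m, (0 : ℝ) < (DD β N u m : ℝ) := by
    intro m
    unfold DD
    positivity
  have hDpos' : ∀ m, 0 < DD β N u m := by
    intro m
    exact_mod_cast hDpos m
  have hlmpos : ∀ m, 0 < lm β N u m := fun m => div_pos (hDpos m) (by positivity)
  have hmono : Monotone (lm β N u) := by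
    intro a b hab
    unfold lm
    refine div_le_div_of_nonneg_right ?_ (by positivity)
    unfold DD
    exact_mod_cast Nat.pow_le_pow_right hβ1 (by gcongr)
  set W : ℝ := M * mstW P with hW
  have hW0 : 0 ≤ W := by
    rw [hW, mstW]
    exact mul_nonneg (Nat.cast_nonneg _) (Finset.sum_nonneg fun e _ => WST.ds_nonneg _ _)
  have hMc : (M : ℝ) = (β : ℝ) ^ (5 * N) := by rw [hM]; push_cast; rfl
  have hMn : (0 : ℝ) ≤ M := Nat.cast_nonneg _
  -- ratio of consecutive scales
  have hrat : ∀ m, 3 ≤ m → (DD β N u (m - 2) : ℝ) * (β : ℝ) ^ N = DD β N u (m - 1) := by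
    intro m hm
    unfold DD
    push_cast
    rw [← pow_add]
    congr 1
    obtain ⟨k, rfl⟩ : ∃ k, m = k + 3 := ⟨m - 3, by omega⟩
    have : k + 3 - 2 = k + 1 := by omega
    rw [this]
    have : k + 3 - 1 = k + 2 := by omega
    rw [this]
    ring
  have hBN : (β : ℝ) ^ 20 ≤ (β : ℝ) ^ N := pow_le_pow_right₀ hB1 (by omega)
  have h12 : (12 : ℝ) ≤ β := by linarith
  -- 12 sigma <= lm (m-1)
  have hsig : ∀ m, 3 ≤ m →
      12 * (DD β N u (m - 2) : ℝ) * (β : ℝ) ^ 10 ≤ lm β N u (m - 1) := by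
    intro m hm
    unfold lm
    rw [le_div_iff₀ (by positivity), ← hrat m hm]
    have e1 : 12 * (β : ℝ) ^ 15 ≤ (β : ℝ) ^ N := by
      refine le_trans ?_ hBN
      have : 12 * (β : ℝ) ^ 15 ≤ β * β ^ 15 := by gcongr
      refine this.trans ?_
      rw [← pow_succ']
      exact pow_le_pow_right₀ hB1 (by norm_num)
    have e2 := mul_le_mul_of_nonneg_left e1 (hDpos (m - 2)).le
    nlinarith [e2]
  have hphi : ∀ m x, phi β N u m x = WST.ph (lm β N u (m - 1)) (lm β N u m) x := fun m x => rfl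
  -- per level errors
  have hlev : ∀ m ∈ Finset.Icc 3 L,
      |∑ Z ∈ (P.image (sh M s)).image (bx (DD β N u m)),
          wbox β N u m (Qc (DD β N u m) (DD β N u (m - 2)) (P.image (sh M s)) Z) -
        ∑ e ∈ mst P, WST.ph (lm β N u (m - 1)) (lm β N u m) (M * ds e.1 e.2)| ≤
      10 ^ 5 * L * W / (β : ℝ) ^ 5 + (W + 2 * (10 ^ 5 * L * W)) / (β : ℝ) ^ 10 := by
    intro m hm
    have hm' := hm
    rw [Finset.mem_Icc] at hm'
    have hs := hsig m hm'.1
    have hDp := hDpos (m - 2)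
    have h12s : 12 * (DD β N u (m - 2) : ℝ) ≤ lm β N u (m - 1) := by
      refine le_trans ?_ hs
      exact le_mul_of_one_le_right (by positivity) (one_le_pow₀ hB1)
    have key := WST.one_level h1 h3 h4 M s (DD β N u m) (DD β N u (m - 2)) P hP (hDpos' _)
      (hDpos' _) (lm β N u (m - 1)) (lm β N u m) h12s (hmono (by omega))
    refine key.trans ?_
    have hc := hcut m hm
    refine add_le_add ?_ ?_
    · unfold lm
      rw [div_mul_eq_mul_div]
      refine div_le_div_of_nonneg_right ?_ (by positivity)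
      rw [mul_comm]
      exact hc
    · have e1 : 12 * (DD β N u (m - 2) : ℝ) / lm β N u (m - 1) ≤ 1 / (β : ℝ) ^ 10 := by
        rw [div_le_div_iff₀ (hlmpos _) (by positivity), one_mul]
        exact hs
      have e2 : (M : ℝ) * mstW P + 2 * (DD β N u m) * (cutN M s (DD β N u m) P) ≤
          W + 2 * (10 ^ 5 * L * W) := by
        have : 2 * (DD β N u m : ℝ) * (cutN M s (DD β N u m) P) =
          2 * ((cutN M s (DD β N u m) P : ℝ) * DD β N u m) := by ring
        rw [this]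
        linarith
      have e3 : (0 : ℝ) ≤ (M : ℝ) * mstW P + 2 * (DD β N u m) * (cutN M s (DD β N u m) P) := by
        positivity
      refine (mul_le_mul e1 e2 e3 (by positivity)).trans (le_of_eq ?_)
      ring
  -- the sum of the truncations
  have htel : |∑ e ∈ mst P, ∑ m ∈ Finset.Icc 3 L,
        WST.ph (lm β N u (m - 1)) (lm β N u m) (M * ds e.1 e.2) - W| ≤ W / (β : ℝ) ^ 3 := by
    have e0 : W = ∑ e ∈ mst P, (M : ℝ) * ds e.1 e.2 := by rw [hW, mstW, Finset.mul_sum]
    rw [e0, ← Finset.sum_sub_distrib, Finset.sum_div]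
    refine (Finset.abs_sum_le_sum_abs _ _).trans (Finset.sum_le_sum fun e he => ?_)
    rw [WST.tele _ hmono _ _ (by omega)]
    obtain ⟨ha, hb, hab, -⟩ := h1.1 P e he
    -- length at least one
    have hd1 : 1 ≤ ds e.1 e.2 := by
      unfold ds
      rw [Real.one_le_sqrt]
      have hne : (e.1.1 : ℤ) - e.2.1 ≠ 0 ∨ (e.1.2 : ℤ) - e.2.2 ≠ 0 := by
        by_contra hcon
        push Not at hcon
        apply hab
        ext
        · omega
        · omega
      have hz : (1 : ℤ) ≤ ((e.1.1 : ℤ) - e.2.1) ^ 2 + ((e.1.2 : ℤ) - e.2.2) ^ 2 := by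
        rcases hne with h | h
        · have := sq_nonneg ((e.1.2 : ℤ) - e.2.2)
          have := (pow_pos (abs_pos.2 h) 2)
          rw [sq_abs] at this
          omega
        · have := sq_nonneg ((e.1.1 : ℤ) - e.2.1)
          have := (pow_pos (abs_pos.2 h) 2)
          rw [sq_abs] at this
          omega
      exact_mod_cast hz
    have hd2 : ds e.1 e.2 ≤ 2 * Δ := by
      unfold ds
      rw [Real.sqrt_le_left (by positivity)]
      obtain ⟨h5, h6⟩ := hΔ _ ha
      obtain ⟨h7, h8⟩ := hΔ _ hb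
      have h5' : (e.1.1 : ℝ) ≤ Δ := by exact_mod_cast h5
      have h6' : (e.1.2 : ℝ) ≤ Δ := by exact_mod_cast h6
      have h7' : (e.2.1 : ℝ) ≤ Δ := by exact_mod_cast h7
      have h8' : (e.2.2 : ℝ) ≤ Δ := by exact_mod_cast h8
      have g1 : (0 : ℝ) ≤ e.1.1 := Nat.cast_nonneg _
      have g2 : (0 : ℝ) ≤ e.1.2 := Nat.cast_nonneg _
      have g3 : (0 : ℝ) ≤ e.2.1 := Nat.cast_nonneg _
      have g4 : (0 : ℝ) ≤ e.2.2 := Nat.cast_nonneg _
      have h9 := sq_le_sq' (a := (e.1.1 : ℝ) - e.2.1) (b := (Δ : ℝ)) (by linarith) (by linarith)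
      have h10 := sq_le_sq' (a := (e.1.2 : ℝ) - e.2.2) (b := (Δ : ℝ)) (by linarith) (by linarith)
      nlinarith [sq_nonneg (Δ : ℝ)]
    have hx2 : M * ds e.1 e.2 ≤ lm β N u L := by
      have e1 : (M : ℝ) * ds e.1 e.2 ≤ β ^ (5 * N) * β ^ (N * (L - 6)) := by
        rw [← hMc]
        refine mul_le_mul_of_nonneg_left (hd2.trans ?_) hMn
        exact_mod_cast hΔ2
      refine e1.trans ?_
      unfold lm DD
      rw [le_div_iff₀ (by positivity)]
      push_cast
      rw [← pow_add, ← pow_add]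
      refine pow_le_pow_right₀ hB1 ?_
      obtain ⟨k, rfl⟩ : ∃ k, L = k + 7 := ⟨L - 7, by omega⟩
      have : k + 7 - 6 = k + 1 := by omega
      rw [this]
      nlinarith
    have hx1 : lm β N u 2 ≤ M * ds e.1 e.2 / (β : ℝ) ^ 3 := by
      have e1 : (M : ℝ) ≤ M * ds e.1 e.2 := le_mul_of_one_le_right hMn hd1
      have e2 : lm β N u 2 ≤ M / (β : ℝ) ^ 3 := by
        unfold lm DD
        rw [hMc, div_le_div_iff₀ (by positivity) (by positivity)]
        push_cast
        rw [← pow_add, ← pow_add]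
        refine pow_le_pow_right₀ hB1 ?_
        omega
      exact e2.trans (div_le_div_of_nonneg_right e1 (by positivity))
    have hx3 : lm β N u 2 ≤ M * ds e.1 e.2 :=
      hx1.trans (div_le_self (mul_nonneg hMn (WST.ds_nonneg _ _)) (one_le_pow₀ hB1))
    have e5 : WST.ph (lm β N u 2) (lm β N u L) (M * ds e.1 e.2) = M * ds e.1 e.2 - lm β N u 2 := by
      unfold WST.ph
      rw [max_eq_left (by linarith), min_eq_left (by linarith)]
    rw [e5]
    have h6 := (hlmpos 2).le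
    rw [show (M : ℝ) * ds e.1 e.2 - lm β N u 2 - M * ds e.1 e.2 = - lm β N u 2 by ring, abs_neg,
      abs_of_nonneg h6]
    exact hx1
  rw [Finset.sum_comm] at htel
  -- assembly
  have hsum : |Wstar β N u L (P.image (sh M s)) - ∑ m ∈ Finset.Icc 3 L, ∑ e ∈ mst P,
      WST.ph (lm β N u (m - 1)) (lm β N u m) (M * ds e.1 e.2)| ≤
      L * (10 ^ 5 * L * W / (β : ℝ) ^ 5 + (W + 2 * (10 ^ 5 * L * W)) / (β : ℝ) ^ 10) := by
    unfold Wstar
    rw [← Finset.sum_sub_distrib]
    refine (Finset.abs_sum_le_sum_abs _ _).trans ?_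
    refine (Finset.sum_le_card_nsmul _ _ _ hlev).trans ?_
    rw [nsmul_eq_mul]
    refine mul_le_mul_of_nonneg_right ?_ (by positivity)
    rw [Nat.card_Icc]
    exact_mod_cast (by omega : L + 1 - 3 ≤ L)
  have hfin : L * (10 ^ 5 * L * W / (β : ℝ) ^ 5 + (W + 2 * (10 ^ 5 * L * W)) / (β : ℝ) ^ 10) +
      W / (β : ℝ) ^ 3 ≤ W / (β : ℝ) ^ 2 := by
    have hLB : (L : ℝ) ≤ β / 10 ^ 20 := by
      rw [le_div_iff₀ (by norm_num)]
      linarith
    have hL1 : (1 : ℝ) ≤ L := by linarith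
    have a1 : 10 ^ 5 * (L : ℝ) ≤ β := by linarith
    have a2 : (L : ℝ) ≤ β := by linarith
    have a4 : (4 : ℝ) ≤ β := by linarith
    have a3 : L * (10 ^ 5 * L * W / (β : ℝ) ^ 5) ≤ W / (β : ℝ) ^ 3 := by
      have : L * (10 ^ 5 * L * W / (β : ℝ) ^ 5) = (L * (10 ^ 5 * L)) * W / (β : ℝ) ^ 5 := by ring
      rw [this, div_le_div_iff₀ (by positivity) (by positivity)]
      have : (L * (10 ^ 5 * L)) * W ≤ (β * β) * W := by gcongr
      calc (L * (10 ^ 5 * L)) * W * (β : ℝ) ^ 3 ≤ (β * β) * W * (β : ℝ) ^ 3 := by gcongr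
        _ = W * (β : ℝ) ^ 5 := by ring
    have a5 : L * ((W + 2 * (10 ^ 5 * L * W)) / (β : ℝ) ^ 10) ≤ W / (β : ℝ) ^ 3 := by
      have : L * ((W + 2 * (10 ^ 5 * L * W)) / (β : ℝ) ^ 10) =
        (L * (1 + 2 * (10 ^ 5 * L))) * W / (β : ℝ) ^ 10 := by ring
      rw [this, div_le_div_iff₀ (by positivity) (by positivity)]
      have h5 : (1 : ℝ) + 2 * (10 ^ 5 * L) ≤ β := by linarith
      calc (L * (1 + 2 * (10 ^ 5 * L))) * W * (β : ℝ) ^ 3 ≤ (β * β) * W * (β : ℝ) ^ 3 := by gcongr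
        _ = W * (β : ℝ) ^ 5 := by ring
        _ ≤ W * (β : ℝ) ^ 10 := by
          refine mul_le_mul_of_nonneg_left (pow_le_pow_right₀ hB1 (by norm_num)) hW0
    have a6 : W / (β : ℝ) ^ 3 * 4 ≤ W / (β : ℝ) ^ 2 := by
      rw [div_mul_eq_mul_div, div_le_div_iff₀ (by positivity) (by positivity)]
      calc W * 4 * (β : ℝ) ^ 2 ≤ W * β * (β : ℝ) ^ 2 := by gcongr
        _ = W * (β : ℝ) ^ 3 := by ring
    rw [mul_add]
    have a7 : 0 ≤ W / (β : ℝ) ^ 3 := by positivity
    linarith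
  have htri := abs_sub_le (Wstar β N u L (P.image (sh M s)))
    (∑ m ∈ Finset.Icc 3 L, ∑ e ∈ mst P,
      WST.ph (lm β N u (m - 1)) (lm β N u m) (M * ds e.1 e.2)) W
  linarith

end Pool.Agent.H660R3.TS
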