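import Pool.Agent.H660R3.TS.Stubs

/-! Task XL (helper417): loss by one extra edge. -/

set_option autoImplicit false

open scoped Classical

namespace Pool.Agent.H660R3.TS

namespace XL

theorem ds_eq (p q : Pt) : ds p q = ‖pt p - pt q‖ := by
  unfold ds pt
  rw [Complex.norm_eq_sqrt_sq_add_sq]
  simp

theorem tri (p q : Pt) (g : ℂ) : ds p q ≤ ‖g - pt p‖ + ‖g - pt q‖ := by
  rw [ds_eq]
  have h : pt p - pt q = (g - pt q) - (g - pt p) := by ring
  rw [h]
  have := norm_sub_le (g - pt q) (g - pt p)
  linarith

theorem tri2 (p q : Pt) (g : ℂ) : ‖g - pt p‖ ≤ ‖g - pt q‖ + ds p q := by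
  rw [ds_eq]
  have h : g - pt p = (g - pt q) - (pt p - pt q) := by ring
  rw [h]
  exact norm_sub_le (g - pt q) (pt p - pt q)

theorem tri3 (p q : Pt) (g : ℂ) : ‖g - pt q‖ ≤ ‖g - pt p‖ + ds p q := by
  rw [ds_eq]
  have h : g - pt q = (g - pt p) + (pt p - pt q) := by ring
  rw [h]
  exact norm_add_le (g - pt p) (pt p - pt q)

end XL

open XL in
theorem t_XL (h : St_PACK) : St_XL := by
  intro 𝒢 σ g₁ g₂ hσ hG
  have hσ' : (1 : ℝ) ≤ σ := by exact_mod_cast hσ
  set A := 𝒢.filter (fun x => ‖g₁ - pt x.1‖ ≤ x.2 + 9 * σ ∧ (x.2 : ℝ) + 3 * σ ≤ ‖g₂ - pt x.1‖)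
    with hA
  set P := A.filter (fun x => ‖g₁ - pt x.1‖ ≤ x.2 + 2 * σ) with hP
  set Q := A.filter (fun x => ¬ ‖g₁ - pt x.1‖ ≤ x.2 + 2 * σ) with hQ
  have hcard : A.card = P.card + Q.card := by
    rw [hP, hQ]
    exact (Finset.card_filter_add_card_filter_not _).symm
  -- part alpha
  have hPcard : (P.card : ℝ) ≤ ‖g₁ - g₂‖ := by
    let sft : Pt × ℕ → Pt × ℕ := fun x => (x.1, x.2 + 2 * σ)
    have hinj : Function.Injective sft := by
      rintro ⟨a, b⟩ ⟨a', b'⟩ hab
      simp only [sft, Prod.mk.injEq] at hab
      obtain ⟨h1, h2⟩ := hab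
      subst h1
      have : b = b' := by omega
      rw [this]
    have hpack := h (P.image sft) ?_ g₁ g₂
    · rw [Finset.sum_image (fun a _ b _ hab => hinj hab)] at hpack
      have h1 : ∀ x ∈ P, |clp (sft x) g₁ - clp (sft x) g₂| = 1 := by
        intro x hx
        rw [hP, Finset.mem_filter, hA, Finset.mem_filter] at hx
        obtain ⟨⟨_, h9, h3⟩, h2⟩ := hx
        have e1 : clp (sft x) g₁ = 0 := by
          unfold clp
          simp only [sft]
          push_cast
          apply max_eq_left
          apply (min_le_right _ _).trans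
          linarith
        have e2 : clp (sft x) g₂ = 1 := by
          unfold clp
          simp only [sft]
          push_cast
          rw [min_eq_left (by linarith)]
          exact max_eq_right zero_le_one
        rw [e1, e2]
        norm_num
      rw [Finset.sum_congr rfl h1] at hpack
      simpa using hpack
    · intro i hi j hj hij p hp
      rw [Finset.mem_image] at hi hj
      obtain ⟨x, hx, rfl⟩ := hi
      obtain ⟨y, hy, rfl⟩ := hj
      have hxG : x ∈ 𝒢 := (Finset.mem_filter.1 (Finset.mem_filter.1 hx).1).1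
      have hyG : y ∈ 𝒢 := (Finset.mem_filter.1 (Finset.mem_filter.1 hy).1).1
      obtain ⟨⟨h1, h2⟩, ⟨h3, h4⟩⟩ := hp
      simp only [sft] at h1 h2 h3 h4
      push_cast at h1 h2 h3 h4
      by_cases hc : x.1 = y.1
      · rw [hc] at h1 h2
        have h5 : (x.2 : ℝ) < y.2 + 1 := by linarith
        have h6 : (y.2 : ℝ) < x.2 + 1 := by linarith
        have h7 : x.2 < y.2 + 1 := by exact_mod_cast h5
        have h8 : y.2 < x.2 + 1 := by exact_mod_cast h6
        apply hij
        have : x = y := Prod.ext hc (by omega)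
        rw [this]
      · have t1 := tri x.1 y.1 p
        have t2 := tri2 x.1 y.1 p
        have t3 := tri3 x.1 y.1 p
        rcases hG x hxG y hyG hc with h5 | h5 | h5
        · linarith
        · linarith
        · linarith
  -- part beta
  have hQcard : (Q.card : ℝ) ≤ 8 * σ := by
    rcases Q.eq_empty_or_nonempty with h0 | hne
    · rw [h0]
      simp
    · obtain ⟨x0, hx0, hmin⟩ := Finset.exists_min_image Q (fun x => x.2) hne
      have hsub : Q ⊆ (Finset.range (7 * σ)).image (fun k => (x0.1, x0.2 + k)) := by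
        intro x hx
        have hxm := hmin x hx
        rw [hQ, Finset.mem_filter, hA, Finset.mem_filter] at hx hx0
        obtain ⟨⟨hxG, h9, h3⟩, h2⟩ := hx
        obtain ⟨⟨hxG', h9', h3'⟩, h2'⟩ := hx0
        rw [not_le] at h2 h2'
        have hc : x.1 = x0.1 := by
          by_contra hc
          have t1 := tri x.1 x0.1 g₁
          have t2 := tri2 x.1 x0.1 g₁
          have t3 := tri3 x.1 x0.1 g₁
          rcases hG x hxG x0 hxG' hc with h5 | h5 | h5
          · linarith
          · linarith
          · linarith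
        rw [hc] at h2
        have h5 : (x.2 : ℝ) < x0.2 + 7 * σ := by linarith
        have h6 : x.2 < x0.2 + 7 * σ := by exact_mod_cast h5
        rw [Finset.mem_image]
        refine ⟨x.2 - x0.2, ?_, ?_⟩
        · rw [Finset.mem_range]
          omega
        · apply Prod.ext
          · exact hc.symm
          · simp only
            omega
      have h1 := (Finset.card_le_card hsub).trans Finset.card_image_le
      rw [Finset.card_range] at h1
      have h2 : (Q.card : ℝ) ≤ 7 * σ := by exact_mod_cast h1
      linarith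
  rw [hcard]
  push_cast
  linarith

end Pool.Agent.H660R3.TS
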