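import Pool.Agent.H660R3.TS.FinD
import Pool.Agent.H660R3.TS.T_MSTb
import Pool.Agent.H660R3.TS.T_MSTc
import Pool.Agent.H660R3.TS.T_MSTo
import Pool.Agent.H660R3.TS.T_MSTr
import Pool.Agent.H660R3.TS.T_MT
import Pool.Agent.H660R3.TS.T_PACK
import Pool.Agent.H660R3.TS.T_SOUND
import Pool.Agent.H660R3.TS.T_EUL
import Pool.Agent.H660R3.TS.T_LP
import Pool.Agent.H660R3.TS.T_PAR
import Pool.Agent.H660R3.TS.T_DICH
import Pool.Agent.H660R3.TS.T_LPD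
import Pool.Agent.H660R3.TS.T_STR1
import Pool.Agent.H660R3.TS.T_STR2
import Pool.Agent.H660R3.TS.T_STR
import Pool.Agent.H660R3.TS.T_TRI
import Pool.Agent.H660R3.TS.T_HB
import Pool.Agent.H660R3.TS.T_OV
import Pool.Agent.H660R3.TS.T_LOC
import Pool.Agent.H660R3.TS.T_PROG
import Pool.Agent.H660R3.TS.T_SEP
import Pool.Agent.H660R3.TS.T_C2
import Pool.Agent.H660R3.TS.T_C1
import Pool.Agent.H660R3.TS.T_XL
import Pool.Agent.H660R3.TS.T_COV
import Pool.Agent.H660R3.TS.T_BAD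
import Pool.Agent.H660R3.TS.T_CUT
import Pool.Agent.H660R3.TS.T_INN
import Pool.Agent.H660R3.TS.T_BLK
import Pool.Agent.H660R3.TS.T_EX
import Pool.Agent.H660R3.TS.T_CND
import Pool.Agent.H660R3.TS.T_DETF
import Pool.Agent.H660R3.TS.T_WST
import Pool.Agent.H660R3.TS.T_P0
import Pool.Agent.H660R3.TS.T_P1
import Pool.Agent.H660R3.TS.T_P2
import Pool.Agent.H660R3.TS.T_P3
import Pool.Agent.H660R3.TS.T_PA1
import Pool.Agent.H660R3.TS.T_PA2
import Pool.Agent.H660R3.TS.T_SAMP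
import Pool.Agent.H660R3.TS.T_NEW
import Pool.Agent.H660R3.TS.T_AUT
import Pool.Agent.H660R3.TS.T_SIZE
import Pool.Agent.H660R3.TS.T_AVG
import Pool.Agent.H660R3.TS.T_GUS
import Pool.Agent.H660R3.TS.T_SJ
import Pool.Agent.H660R3.TS.T_SW
import Pool.Agent.H660R3.TS.T_SF

/-!
# Glue (helper660): the statements proved by the helpers, put together
-/

set_option autoImplicit false

namespace Pool.Agent.H660R3.TS

theorem g_MSTc : St_MSTc := t_MSTc t_MSTb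
theorem g_MSTo : St_MSTo := t_MSTo t_MSTb g_MSTc
theorem g_MSTr : St_MSTr := t_MSTr t_MSTb g_MSTc
theorem g_MT : St_MT := t_MT g_MSTo
theorem g_SOUND : St_SOUND := t_SOUND t_PACK
theorem g_DICH : St_DICH := t_DICH t_LP t_PAR t_EUL
theorem g_STR2 : St_STR2 := t_STR2 t_STR1
theorem g_STR : St_STR := t_STR t_LPD t_STR1 g_STR2
theorem g_HB : St_HB := t_HB t_TRI
theorem g_OV : St_OV := t_OV t_TRI
theorem g_LOC : St_LOC := t_LOC g_HB
theorem g_SEP : St_SEP := t_SEP g_LOC g_HB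
theorem g_C2 : St_C2 := t_C2 g_LOC
theorem g_C1 : St_C1 := t_C1 g_LOC
theorem g_XL : St_XL := t_XL t_PACK
theorem g_BAD : St_BAD := t_BAD t_COV g_OV
theorem g_EX : St_EX := t_EX t_MSTb g_MSTc
theorem g_CND : St_CND := t_CND g_LOC g_C1 g_C2 t_MSTb
theorem g_DETF : St_DETF := t_DETF g_CND g_SEP t_PROG g_XL g_EX
theorem g_WST : St_WST := t_WST t_MSTb g_MSTc g_MSTo g_EX

theorem g_AVG : St_AVG := t_AVG g_BAD t_BLK t_INN
theorem g_GUS : St_GUS := t_GUS g_DETF g_AVG t_CUT g_DICH g_STR g_MSTr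
theorem g_SJ : St_SJ := t_SJ t_P1
theorem g_SW : St_SW := t_SW t_P1 g_SJ t_PA1 g_EX
theorem g_SF : St_SF := t_SF t_P0 t_P1 t_P2 t_P3 t_PA1 t_PA2 g_SJ g_EX
theorem g_SAMP : St_SAMP := t_SAMP g_SW g_SF

/-- the frozen statement S09979 -/
theorem S09979_main :
    ∃ c : ℝ, c < 2 ∧ ∃ C k : ℕ, ∀ Δ : ℕ, 1 ≤ Δ →
      ∃ (N : ℕ) (μ0 : PMF (Fin N)) (δ : Fin N → ℕ × ℕ → PMF (Fin N)) (out : Fin N → ℝ),
        N ≤ 2 ^ (C * (Nat.log 2 Δ + 1) ^ k) ∧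
        ∀ l : List (ℕ × ℕ), l.Nodup →
          (∀ p ∈ l, 1 ≤ p.1 ∧ p.1 ≤ Δ ∧ 1 ≤ p.2 ∧ p.2 ≤ Δ) →
          ∀ T : ℝ,
            T = sInf {x : ℝ | ∃ l' : List (ℕ × ℕ), l'.Perm l ∧
                  x = ∑ i : Fin l'.length,
                    Real.sqrt ((((l'.get i).1 : ℝ) - ((l'.getD ((i.val + 1) % l'.length) (0, 0)).1 : ℝ)) ^ 2
                      + (((l'.get i).2 : ℝ) - ((l'.getD ((i.val + 1) % l'.length) (0, 0)).2 : ℝ)) ^ 2)} →
            (2 / 3 : ENNReal) ≤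
              (l.foldl (fun μ p => μ.bind (fun q => δ q p)) μ0).toOuterMeasure
                {q | T ≤ out q ∧ out q ≤ c * T} :=
  final_of g_GUS g_SAMP g_WST g_SOUND g_MT t_EUL g_MSTr t_NEW t_AUT t_SIZE

end Pool.Agent.H660R3.TS
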