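import Pool.Agent.H660R3.TS.Stubs

set_option autoImplicit false
open scoped Classical

namespace Pool.Agent.H660R3.TS

namespace LPDX

variable {V : Type} (T : RTree V) (w : V → ℝ)

/-- depth -/
noncomputable def dep (v : V) : ℝ := if h : v = T.root then 0 else dep (T.par v) + w v
termination_by T.rk v
decreasing_by exact T.rk_lt v h

theorem dep_par {v : V} (h : v ≠ T.root) : dep T w v = dep T w (T.par v) + w v := by
  rw [dep]; simp [h]

variable {T w}

theorem dep_le (hw : ∀ v, v ≠ T.root → 0 < w v) : ∀ (n : ℕ) (y x : V), T.par^[n] y = x →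
    y = x ∨ dep T w x < dep T w y := by
  intro n
  induction n with
  | zero => intro y x h; exact Or.inl h
  | succ n ih =>
    intro y x h
    by_cases hy : y = T.root
    · left
      have : ∀ m : ℕ, T.par^[m] T.root = T.root := by
        intro m
        induction m with
        | zero => rfl
        | succ m ihm => rw [Function.iterate_succ_apply, T.par_root, ihm]
      rw [hy, this] at h
      rw [hy, h]
    · right
      rw [Function.iterate_succ_apply] at h
      have h1 := dep_par T w hy
      have h2 := hw y hy
      rcases ih _ _ h with h3 | h3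
      · rw [← h3]; linarith
      · linarith

theorem insub_trans {x y z : V} (h1 : T.InSub x y) (h2 : T.InSub y z) : T.InSub x z := by
  obtain ⟨n, hn⟩ := h1
  obtain ⟨m, hm⟩ := h2
  exact ⟨m + n, by rw [Function.iterate_add_apply, hn, hm]⟩

end LPDX

open LPDX in
theorem t_LPD : St_LPD := by
  intro V _ T w hw
  classical
  let key : V → ℝ ×ₗ ℕ := fun x => toLex (dep T w x, (Fintype.equivFin V x : ℕ))
  have hkinj : Function.Injective key := by
    intro a b h
    have h1 : (dep T w a, (Fintype.equivFin V a : ℕ)) = (dep T w b, (Fintype.equivFin V b : ℕ)) := h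
    have h2 := (Prod.ext_iff.mp h1).2
    exact (Fintype.equivFin V).injective (Fin.ext h2)
  have hkle : ∀ a b, key a ≤ key b → dep T w a ≤ dep T w b := by
    intro a b h
    rcases Prod.Lex.le_iff.mp h with h1 | h1
    · exact le_of_lt h1
    · exact le_of_eq h1.1
  have hex : ∀ v : V, ∃ x, T.InSub x v ∧ ∀ z, T.InSub z v → key z ≤ key x := by
    intro v
    obtain ⟨x, hx, hmax⟩ := Finset.exists_max_image (Finset.univ.filter (fun x => T.InSub x v)) key
      ⟨v, by simp only [Finset.mem_filter, Finset.mem_univ, true_and]; exact ⟨0, rfl⟩⟩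
    refine ⟨x, (Finset.mem_filter.mp hx).2, fun z hz => hmax z ?_⟩
    exact Finset.mem_filter.mpr ⟨Finset.mem_univ _, hz⟩
  choose tip htip hmax using hex
  have hself : ∀ v, T.InSub v v := fun v => ⟨0, rfl⟩
  have hdle : ∀ x v, T.InSub x v → dep T w v ≤ dep T w x := by
    rintro x v ⟨n, hn⟩
    rcases dep_le hw n x v hn with h | h
    · rw [h]
    · exact h.le
  have htt : ∀ v, tip (tip v) = tip v := by
    intro v
    obtain ⟨n, hn⟩ := htip (tip v)
    rcases dep_le hw n _ _ hn with h | h
    · exact h
    · exfalso
      have h1 := hmax v (tip (tip v)) (insub_trans (htip (tip v)) (htip v))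
      exact absurd (hkle _ _ h1) (not_le.mpr h)
  refine ⟨⟨fun v => dep T w (tip v) - dep T w v, tip, ?_, htt, ?_, htip, ?_, ?_⟩⟩
  · intro v
    exact sub_nonneg.mpr (hdle _ _ (htip v))
  · intro v
    show dep T w (tip (tip v)) - dep T w (tip v) = 0
    rw [htt, sub_self]
  · intro v hv
    show dep T w (tip v) - dep T w v + w v ≤ dep T w (tip (T.par v)) - dep T w (T.par v)
    have h1 := dep_par T w hv
    have h2 := hkle _ _ (hmax (T.par v) (tip v) (insub_trans (htip v) ⟨1, rfl⟩))
    linarith
  · intro v hv
    have hex : ∃ n, T.par^[n] (tip v) = v := htip v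
    set n := Nat.find hex with hn
    have hn1 : T.par^[n] (tip v) = v := Nat.find_spec hex
    have hn0 : n ≠ 0 := by
      intro h0
      rw [h0] at hn1
      exact hv hn1
    obtain ⟨k, hk⟩ := Nat.exists_eq_succ_of_ne_zero hn0
    have hk1 : T.par (T.par^[k] (tip v)) = v := by
      rw [hk, Function.iterate_succ_apply'] at hn1
      exact hn1
    have hk2 : T.par^[k] (tip v) ≠ v := Nat.find_min hex (by omega)
    set c := T.par^[k] (tip v) with hc
    have hcroot : c ≠ T.root := by
      intro h
      apply hk2
      rw [h, T.par_root] at hk1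
      rw [h, hk1]
    have htc : tip c = tip v := by
      apply hkinj
      apply le_antisymm
      · exact hmax v (tip c) (insub_trans (htip c) ⟨1, hk1⟩)
      · exact hmax c (tip v) ⟨k, rfl⟩
    refine ⟨c, hcroot, hk1, htc, ?_⟩
    show dep T w (tip c) - dep T w c + w c = dep T w (tip v) - dep T w v
    have h1 := dep_par T w hcroot
    rw [hk1] at h1
    rw [htc]
    linarith

end Pool.Agent.H660R3.TS
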