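import Pool.Agent.H660R3.TS.Stubs2

/-!
# SAMP: accuracy of both estimates
-/

set_option autoImplicit false

open scoped Classical

namespace Pool.Agent.H660R3.TS

namespace SAMP

/-- union bound -/
theorem union_bound {Ω : Type} [Fintype Ω] (L : ℕ) (hL : 1 ≤ L) (p q : ℕ → Ω → Prop) (r : Ω → Prop)
    (dr : DecidablePred (fun ω => ¬ r ω))
    (hp : ∀ m ∈ Finset.Icc 3 L, ∃ d : DecidablePred (fun ω => ¬ p m ω),
      1000 * L * (@Finset.filter Ω (fun ω => ¬ p m ω) d Finset.univ).card ≤ Fintype.card Ω)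
    (hq : ∀ m ∈ Finset.Icc 3 L, ∃ d : DecidablePred (fun ω => ¬ q m ω),
      1000 * L * (@Finset.filter Ω (fun ω => ¬ q m ω) d Finset.univ).card ≤ Fintype.card Ω)
    (hr : ∀ ω, (∀ m ∈ Finset.Icc 3 L, p m ω ∧ q m ω) → r ω) :
    200 * (@Finset.filter Ω (fun ω => ¬ r ω) dr Finset.univ).card ≤ Fintype.card Ω := by
  have hp : ∀ m ∈ Finset.Icc 3 L,
      1000 * L * (Finset.univ.filter (fun ω => ¬ p m ω)).card ≤ Fintype.card Ω := by
    intro m hm
    obtain ⟨d, h⟩ := hp m hm
    convert h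
  have hq : ∀ m ∈ Finset.Icc 3 L,
      1000 * L * (Finset.univ.filter (fun ω => ¬ q m ω)).card ≤ Fintype.card Ω := by
    intro m hm
    obtain ⟨d, h⟩ := hq m hm
    convert h
  have h1 : (Finset.univ.filter (fun ω => ¬ r ω)) ⊆
      (Finset.Icc 3 L).biUnion (fun m => (Finset.univ.filter (fun ω => ¬ p m ω)) ∪
        (Finset.univ.filter (fun ω => ¬ q m ω))) := by
    intro ω hω
    have h2 := (Finset.mem_filter.1 hω).2
    by_contra h3
    apply h2
    apply hr
    intro m hm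
    rw [Finset.mem_biUnion] at h3
    push Not at h3
    have h4 := h3 m hm
    simp only [Finset.mem_union, Finset.mem_filter, Finset.mem_univ, true_and, not_or, not_not] at h4
    exact h4
  have h2 : (Finset.univ.filter (fun ω => ¬ r ω)).card ≤
      ∑ m ∈ Finset.Icc 3 L, ((Finset.univ.filter (fun ω => ¬ p m ω)).card +
        (Finset.univ.filter (fun ω => ¬ q m ω)).card) := by
    refine le_trans (Finset.card_le_card h1) (le_trans Finset.card_biUnion_le ?_)
    exact Finset.sum_le_sum (fun m _ => Finset.card_union_le _ _)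
  have h3 : 1000 * L * (Finset.univ.filter (fun ω => ¬ r ω)).card ≤
      ∑ m ∈ Finset.Icc 3 L, (2 * Fintype.card Ω) := by
    refine le_trans (Nat.mul_le_mul_left _ h2) ?_
    rw [Finset.mul_sum]
    apply Finset.sum_le_sum
    intro m hm
    rw [mul_add]
    have := hp m hm
    have := hq m hm
    omega
  have h4 : ∑ m ∈ Finset.Icc 3 L, (2 * Fintype.card Ω) ≤ L * (2 * Fintype.card Ω) := by
    rw [Finset.sum_const, smul_eq_mul, Nat.card_Icc]
    apply Nat.mul_le_mul_right
    omega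
  have h5 : L * (1000 * (Finset.univ.filter (fun ω => ¬ r ω)).card) ≤ L * (2 * Fintype.card Ω) := by
    calc L * (1000 * (Finset.univ.filter (fun ω => ¬ r ω)).card) =
        1000 * L * (Finset.univ.filter (fun ω => ¬ r ω)).card := by ring
      _ ≤ _ := le_trans h3 h4
  have h6 := Nat.le_of_mul_le_mul_left h5 (by omega)
  omega

theorem sum_err (L : ℕ) (f g : ℕ → ℝ) (e E : ℝ) (he : 0 ≤ e) (hE : L * e ≤ E)
    (h : ∀ m ∈ Finset.Icc 3 L, |f m - g m| ≤ e) :
    |∑ m ∈ Finset.Icc 3 L, f m - ∑ m ∈ Finset.Icc 3 L, g m| ≤ E := by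
  rw [← Finset.sum_sub_distrib]
  refine le_trans (Finset.abs_sum_le_sum_abs _ _) ?_
  refine le_trans (Finset.sum_le_sum h) ?_
  rw [Finset.sum_const, nsmul_eq_mul, Nat.card_Icc]
  refine le_trans (mul_le_mul_of_nonneg_right ?_ he) hE
  have : L + 1 - 3 ≤ L := by omega
  exact_mod_cast this

end SAMP

open SAMP in
theorem t_SAMP (h1 : St_SW) (h2 : St_SF) : St_SAMP := by
  intro P β N L Δ M SM KK J Bc R cap1 cap2 u s hyp
  have hβ : L ≤ β := by
    have := hyp.hβ
    calc L ≤ 10 ^ 20 * L := Nat.le_mul_of_pos_left _ (by positivity)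
      _ ≤ β := this
  have hL := hyp.hL
  have hβ0 : (0 : ℝ) < β := by
    have : 0 < β := by omega
    exact_mod_cast this
  have hW : 0 ≤ (M : ℝ) * mstW P := by
    apply mul_nonneg (Nat.cast_nonneg _)
    exact Finset.sum_nonneg (fun e _ => Real.sqrt_nonneg _)
  have hE : (L : ℝ) * (M * mstW P / (β : ℝ) ^ 3) ≤ M * mstW P / (β : ℝ) ^ 2 := by
    have h3 : (L : ℝ) ≤ β := by exact_mod_cast hβ
    calc (L : ℝ) * (M * mstW P / (β : ℝ) ^ 3) ≤ β * (M * mstW P / (β : ℝ) ^ 3) :=
          mul_le_mul_of_nonneg_right h3 (by positivity)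
      _ = M * mstW P / (β : ℝ) ^ 2 := by field_simp
  set X := P.image (sh M s) with hX
  refine union_bound (Ω := Seed L KK J SM Bc R) L (by omega)
    (fun m ω => |(2 : ℝ) ^ (jst J (T1of β N u J cap1 (toRnd ω) X) m) *
      ∑ Z ∈ (cont J (T1of β N u J cap1 (toRnd ω) X) m).image (bx (DD β N u m)),
            wbox β N u m ((cont J (T1of β N u J cap1 (toRnd ω) X) m).filter
              (fun x => bx (DD β N u m) x = Z)) -
          ∑ Z ∈ X.image (bx (DD β N u m)), wbox β N u m (Qc (DD β N u m) (DD β N u (m - 2)) X Z)|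
        ≤ M * mstW P / (β : ℝ) ^ 3)
    (fun m ω => |(2 : ℝ) ^ (jst J (T1of β N u J cap1 (toRnd ω) X) m) *
      ∑ Z ∈ (cont J (T1of β N u J cap1 (toRnd ω) X) m).image (bx (DD β N u m)),
            maxFam (DD β N u (m - 2))
              (cands β N u m ((cont J (T1of β N u J cap1 (toRnd ω) X) m).filter
                (fun x => bx (DD β N u m) x = Z)) Z)
              (uhat β N u J R (toRnd ω) (T1of β N u J cap1 (toRnd ω) X)
                (T2of β N u J cap2 (toRnd ω) X) m Z) -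
          ∑ Z ∈ X.image (bx (DD β N u m)), Vbox β N u m X Z|
        ≤ M * mstW P / (β : ℝ) ^ 3)
    (fun ω => |West β N u J (T1of β N u J cap1 (toRnd ω) X) L - Wstar β N u L X| ≤
        M * mstW P / (β : ℝ) ^ 2 ∧
       |Fest β N u J R (toRnd ω) (T1of β N u J cap1 (toRnd ω) X)
          (T2of β N u J cap2 (toRnd ω) X) L - Fstar β N u L X| ≤ M * mstW P / (β : ℝ) ^ 2)
    _ ?_ ?_ ?_
  · intro m hm
    exact ⟨_, h1 P β N L Δ M SM KK J Bc R cap1 cap2 u s m hyp hm⟩
  · intro m hm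
    exact ⟨_, h2 P β N L Δ M SM KK J Bc R cap1 cap2 u s m hyp hm⟩
  · intro ω hω
    refine ⟨?_, ?_⟩
    · exact sum_err L _ _ _ _ (by positivity) hE (fun m hm => (hω m hm).1)
    · exact sum_err L _ _ _ _ (by positivity) hE (fun m hm => (hω m hm).2)

end Pool.Agent.H660R3.TS
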